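import Pool.Agent.Lib.MP_0f7bfe_al.Defs

open scoped Pointwise

namespace Pool.Agent.Lib.MP_0f7bfe_al

universe u v

section graph
variable {Γ : Type v} [Group Γ] {X : Type u} [MulAction Γ X] {G : SimpleGraph X}

theorem exists_adj_dist_le (hc : G.Connected) (x y : X) (n : ℕ) (h : G.dist x y ≤ n + 1)
    (hne : x ≠ y) : ∃ z, G.dist x z ≤ n ∧ G.Adj z y := by
  obtain ⟨p, hp⟩ := hc.exists_walk_length_eq_dist y x
  cases p with
  | nil => exact absurd rfl hne
  | cons hadj q =>
    rename_i z
    refine ⟨z, ?_, hadj.symm⟩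
    have h1 : q.length + 1 = G.dist y x := by simpa using hp
    have h2 := SimpleGraph.dist_le q
    rw [SimpleGraph.dist_comm] at h
    rw [SimpleGraph.dist_comm]
    omega

/-- balls are finite -/
theorem Homog.ball_finite (h : Homog Γ G) (x : X) (n : ℕ) : {y | G.dist x y ≤ n}.Finite := by
  induction n with
  | zero =>
    refine (Set.finite_singleton x).subset ?_
    intro y hy
    have : G.dist x y = 0 := by simpa using hy
    rw [h.conn.dist_eq_zero_iff] at this
    simp [this]
  | succ n ih =>
    refine ((ih.biUnion fun z _ => h.lf z).union (Set.finite_singleton x)).subset ?_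
    intro y hy
    by_cases hxy : x = y
    · right; simp [hxy]
    · left
      obtain ⟨z, hz1, hz2⟩ := exists_adj_dist_le h.conn x y n hy hxy
      simp only [Set.mem_iUnion]
      exact ⟨z, hz1, hz2⟩

theorem Homog.dist_smul_le (h : Homog Γ G) (g : Γ) (x y : X) :
    G.dist (g • x) (g • y) ≤ G.dist x y := by
  obtain ⟨p, hp⟩ := h.conn.exists_walk_length_eq_dist x y
  let f : G →g G := ⟨fun z => g • z, fun {a b} hab => h.inv g a b hab⟩
  have := SimpleGraph.dist_le (p.map f)
  rw [SimpleGraph.Walk.length_map] at this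
  exact this.trans hp.le

theorem Homog.dist_smul (h : Homog Γ G) (g : Γ) (x y : X) :
    G.dist (g • x) (g • y) = G.dist x y := by
  apply le_antisymm (h.dist_smul_le g x y)
  have := h.dist_smul_le g⁻¹ (g • x) (g • y)
  simpa using this

/-- a walk from `Y` to its complement meets the boundary -/
theorem exists_mem_bdry {Y : Set X} {x y : X} (p : G.Walk x y) (hx : x ∈ Y) (hy : y ∉ Y) :
    ∃ z ∈ p.support, z ∈ bdry G Y := by
  induction p with
  | nil => exact absurd hx hy
  | cons hadj q ih =>
    rename_i a b c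
    by_cases hb : b ∈ Y
    · obtain ⟨z, hz, hz'⟩ := ih hb hy
      exact ⟨z, by simp [hz], hz'⟩
    · exact ⟨a, by simp, b, hadj, by simp [hx, hb]⟩

theorem bdry_compl (Y : Set X) : bdry G Yᶜ = bdry G Y := by
  ext x
  simp only [bdry, Set.mem_setOf_eq, Set.mem_compl_iff, not_iff_not]

/-- a walk whose support misses the boundary stays on one side -/
theorem mem_iff_of_walk {Y : Set X} {x y : X} (p : G.Walk x y)
    (hp : ∀ z ∈ p.support, z ∉ bdry G Y) : x ∈ Y ↔ y ∈ Y := by
  constructor
  · intro hx
    by_contra hy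
    obtain ⟨z, hz, hz'⟩ := exists_mem_bdry p hx hy
    exact hp z hz hz'
  · intro hy
    by_contra hx
    obtain ⟨z, hz, hz'⟩ := exists_mem_bdry (Y := Yᶜ) p hx (by simpa using hy)
    rw [bdry_compl] at hz'
    exact hp z hz hz'

end graph

end Pool.Agent.Lib.MP_0f7bfe_al
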