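import Mathlib

/-!
Definitions for asymptotic minors of Cayley graphs (problem MP_0f7bfe_al).
-/

open scoped Pointwise

namespace Pool.Agent.Lib.MP_0f7bfe_al

universe u v

/-- A `K`-fat `H` minor of the graph `G`: connected branch sets `B w`, one for every vertex of `H`,
and for every edge `e` of `H` the vertex set `P e` of a path joining the branch sets of its ends,
such that any two members of the family are at distance at least `K`, except `P e` and `B w`
with `w` an end of `e`. -/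
structure FatMinor {V : Type u} {W : Type v} (G : SimpleGraph V) (H : SimpleGraph W) (K : ℕ) where
  B : W → Set V
  P : Sym2 W → Set V
  conn : ∀ w, (G.induce (B w)).Connected
  path : ∀ u v, H.Adj u v → ∃ x ∈ B u, ∃ y ∈ B v, ∃ p : G.Walk x y,
    p.IsPath ∧ P s(u, v) = {z | z ∈ p.support}
  farBB : ∀ u v, u ≠ v → ∀ x ∈ B u, ∀ y ∈ B v, K ≤ G.dist x y
  farPP : ∀ e ∈ H.edgeSet, ∀ f ∈ H.edgeSet, e ≠ f → ∀ x ∈ P e, ∀ y ∈ P f, K ≤ G.dist x y
  farPB : ∀ e ∈ H.edgeSet, ∀ w, w ∉ e → ∀ x ∈ P e, ∀ y ∈ B w, K ≤ G.dist x y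

/-- `H` is an asymptotic minor of `G`: there is a `K`-fat `H` minor for every `K ≥ 1`. -/
def IsAsymptoticMinor {V : Type u} {W : Type v} (H : SimpleGraph W) (G : SimpleGraph V) : Prop :=
  ∀ K : ℕ, 1 ≤ K → Nonempty (FatMinor G H K)

/-- A drawing of the graph `G` in the plane without crossings: a topological embedding of
(the realisation of) a locally finite graph. -/
structure PlanarDrawing {V : Type u} (G : SimpleGraph V) where
  pt : V → ℝ × ℝ
  arc : V → V → ℝ → ℝ × ℝ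
  pt_inj : Function.Injective pt
  arc_cont : ∀ u v, G.Adj u v → ContinuousOn (arc u v) (Set.Icc 0 1)
  arc_zero : ∀ u v, G.Adj u v → arc u v 0 = pt u
  arc_one : ∀ u v, G.Adj u v → arc u v 1 = pt v
  arc_symm : ∀ u v, G.Adj u v → ∀ t ∈ Set.Icc (0 : ℝ) 1, arc v u t = arc u v (1 - t)
  arc_inj : ∀ u v, G.Adj u v → Set.InjOn (arc u v) (Set.Icc 0 1)
  arc_pt : ∀ u v, G.Adj u v → ∀ t ∈ Set.Icc (0 : ℝ) 1, ∀ w, arc u v t = pt w → w = u ∨ w = v
  arc_arc : ∀ u v u' v', G.Adj u v → G.Adj u' v' → s(u, v) ≠ s(u', v') →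
    ∀ s ∈ Set.Icc (0 : ℝ) 1, ∀ t ∈ Set.Icc (0 : ℝ) 1, arc u v s = arc u' v' t →
      ∃ w, (w = u ∨ w = v) ∧ (w = u' ∨ w = v') ∧ arc u v s = pt w
  locally_finite : ∀ z : ℝ × ℝ, (∃ v, z = pt v) ∨ (∃ u v, G.Adj u v ∧ z ∈ arc u v '' Set.Icc 0 1) →
    ∃ U ∈ nhds z, {v | pt v ∈ U}.Finite ∧
      {p : V × V | G.Adj p.1 p.2 ∧ (arc p.1 p.2 '' Set.Icc 0 1 ∩ U).Nonempty}.Finite

/-- A group is virtually planar if some subgroup of finite index has a planar Cayley graph. -/
def VirtuallyPlanar (Γ : Type u) [Group Γ] : Prop :=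
  ∃ A : Subgroup Γ, A.index ≠ 0 ∧ ∃ S : Set A, S.Finite ∧ Subgroup.closure S = ⊤ ∧
    Nonempty (PlanarDrawing (SimpleGraph.mulCayley S))

/-! ### Group-level notion -/

/-- One step inside `B` by an element of `T` or its inverse. -/
def Step {G : Type u} [Group G] (T B : Set G) (a b : G) : Prop :=
  a ∈ B ∧ b ∈ B ∧ (a⁻¹ * b ∈ T ∨ b⁻¹ * a ∈ T)

/-- `x` and `y` are joined by a chain of steps inside `B`. -/
def Linked {G : Type u} [Group G] (T B : Set G) (x y : G) : Prop :=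
  Relation.ReflTransGen (Step T B) x y

/-- A model of the complete graph on `n` vertices in `G`, with connected pieces (steps in `T`),
separated in the sense that no difference lies in `F`. -/
structure CliqueModel {G : Type u} [Group G] (T F : Set G) (n : ℕ) where
  B : Fin n → Set G
  P : Fin n → Fin n → Set G
  ne : ∀ v, (B v).Nonempty
  conn : ∀ v, ∀ x ∈ B v, ∀ y ∈ B v, Linked T (B v) x y
  path : ∀ u v, u < v → ∃ x ∈ B u, ∃ y ∈ B v, x ∈ P u v ∧ y ∈ P u v ∧ Linked T (P u v) x y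
  farBB : ∀ u v, u ≠ v → ∀ x ∈ B u, ∀ y ∈ B v, x⁻¹ * y ∉ F
  farPP : ∀ u v u' v', u < v → u' < v' → (u, v) ≠ (u', v') →
    ∀ x ∈ P u v, ∀ y ∈ P u' v', x⁻¹ * y ∉ F
  farPB : ∀ u v w, u < v → w ≠ u → w ≠ v → ∀ x ∈ P u v, ∀ y ∈ B w, x⁻¹ * y ∉ F

/-- All complete graphs are asymptotic minors, group version. -/
def AllCliques (G : Type u) [Group G] : Prop :=
  ∃ T : Set G, T.Finite ∧ ∀ (n : ℕ) (F : Set G), F.Finite → Nonempty (CliqueModel T F n)

/-! ### Graphs with a transitive group action -/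

/-- Pods: arbitrarily many, arbitrarily far apart vertices, any two of them joined by a walk
staying far from all the others. -/
def Pods {X : Type u} (G : SimpleGraph X) : Prop :=
  ∀ n K : ℕ, ∃ q : Fin n → X, (∀ u v, u ≠ v → K < G.dist (q u) (q v)) ∧
    ∀ u v, ∃ p : G.Walk (q u) (q v), ∀ w, w ≠ u → w ≠ v → ∀ x ∈ p.support, K < G.dist x (q w)

structure Homog (Γ : Type v) [Group Γ] {X : Type u} [MulAction Γ X] (G : SimpleGraph X) :
    Prop where
  conn : G.Connected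
  lf : ∀ x, {y | G.Adj x y}.Finite
  inv : ∀ (g : Γ) x y, G.Adj x y → G.Adj (g • x) (g • y)
  trans : ∀ x y : X, ∃ g : Γ, g • x = y

/-- Vertices incident with an edge between `Y` and its complement. -/
def bdry {X : Type u} (G : SimpleGraph X) (Y : Set X) : Set X :=
  {x | ∃ y, G.Adj x y ∧ ¬ (x ∈ Y ↔ y ∈ Y)}

def OneEnd {X : Type u} (G : SimpleGraph X) : Prop :=
  ∀ Y : Set X, (bdry G Y).Finite → Y.Finite ∨ Yᶜ.Finite

def ManyEnds {X : Type u} (G : SimpleGraph X) (n : ℕ) : Prop :=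
  ∃ Y : Fin n → Set X, (∀ i, (Y i).Infinite) ∧ (∀ i, (bdry G (Y i)).Finite) ∧
    ∀ i j, i ≠ j → Disjoint (Y i) (Y j)

section coset
variable {G : Type u} [Group G]

/-- The graph on the left cosets of `N`, `gN` and `gsN` being adjacent for `s ∈ T`. -/
def cosetGraph (N : Subgroup G) (T : Set G) : SimpleGraph (G ⧸ N) :=
  SimpleGraph.fromRel (fun x y => ∃ g : G, ∃ s ∈ T, (g : G ⧸ N) = x ∧ ((g * s : G) : G ⧸ N) = y)

/-- `N` is commensurated by the whole group. -/
def Commensurated (N : Subgroup G) : Prop :=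
  ∀ g : G, (N.map (MulAut.conj g).toMonoidHom).relIndex N ≠ 0

end coset

end Pool.Agent.Lib.MP_0f7bfe_al
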