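import Pool.Agent.Lib.MP_0f7bfe_al.Basic

open scoped Pointwise

namespace Pool.Agent.Lib.MP_0f7bfe_al

universe u v

/-- FM4b -/
theorem cayley_homog {G : Type u} [Group G] (T : Set G) (hT : T.Finite)
    (hgen : Subgroup.closure T = ⊤) :
    Homog G (SimpleGraph.mulCayley T) := by
  have hinv : ∀ (g : G) x y, (SimpleGraph.mulCayley T).Adj x y →
      (SimpleGraph.mulCayley T).Adj (g • x) (g • y) := by
    intro g x y h
    simpa [smul_eq_mul] using (SimpleGraph.mulCayley_adj_mul_iff_right (d := g)).2 h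
  have hinvR : ∀ (g : G) x y, (SimpleGraph.mulCayley T).Reachable x y →
      (SimpleGraph.mulCayley T).Reachable (g * x) (g * y) := by
    intro g x y h
    exact h.map (⟨fun z => g * z, fun {a b} hab => hinv g a b hab⟩ :
      SimpleGraph.mulCayley T →g SimpleGraph.mulCayley T)
  have hone : ∀ g : G, (SimpleGraph.mulCayley T).Reachable 1 g := by
    intro g
    have hg : g ∈ Subgroup.closure T := by rw [hgen]; trivial
    induction hg using Subgroup.closure_induction with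
    | mem x hx =>
      by_cases h1 : (1 : G) = x
      · rw [h1]
      · apply SimpleGraph.Adj.reachable
        rw [SimpleGraph.mulCayley_adj']
        exact ⟨h1, x, hx, Or.inl (one_mul x)⟩
    | one => exact SimpleGraph.Reachable.refl _
    | mul x y _ _ hx hy =>
      have := hinvR x _ _ hy
      rw [mul_one] at this
      exact hx.trans this
    | inv x _ hx =>
      have := hinvR x⁻¹ _ _ hx
      rw [mul_one, inv_mul_cancel] at this
      exact this.symm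
  refine ⟨?_, ?_, hinv, ?_⟩
  · have : Nonempty G := ⟨1⟩
    refine ⟨fun x y => (hone x).symm.trans (hone y)⟩
  · intro x
    refine ((hT.image (fun t => x * t)).union (hT.image (fun t => x * t⁻¹))).subset ?_
    intro y hy
    rw [Set.mem_ofPred_eq, SimpleGraph.mulCayley_adj'] at hy
    obtain ⟨-, g, hg, h | h⟩ := hy
    · left; exact ⟨g, hg, h⟩
    · right; exact ⟨g, hg, by simp [h]⟩
  · intro x y
    exact ⟨y * x⁻¹, by simp⟩

section fm1
variable {Γ : Type u} [Group Γ] {C : SimpleGraph Γ}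

theorem fm1_dist_one (h : Homog Γ C) (x y : Γ) : C.dist x y = C.dist 1 (x⁻¹ * y) := by
  have := h.dist_smul x⁻¹ x y
  simp only [smul_eq_mul, inv_mul_cancel] at this
  exact this.symm

omit [Group Γ] in
/-- the ball around `b` is connected to `b` inside the ball -/
theorem fm1_geod (h : C.Connected) (b x : Γ) (R : ℕ) (hx : C.dist b x ≤ R) :
    ∃ p : C.Walk b x, ∀ z ∈ p.support, C.dist b z ≤ R := by
  obtain ⟨p, hp⟩ := h.exists_walk_length_eq_dist b x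
  refine ⟨p, fun z hz => ?_⟩
  classical
  have h1 := SimpleGraph.dist_le (p.takeUntil z hz)
  have h2 := p.length_takeUntil_le_length hz
  omega

theorem fm1_walk (h : Homog Γ C) (T B : Set Γ) (R : ℕ) (hT : ∀ t ∈ T, C.dist 1 t ≤ R) {x y : Γ}
    (hxy : Linked T B x y) (hx : x ∈ B) :
    ∃ p : C.Walk x y, ∀ z ∈ p.support, ∃ b ∈ B, C.dist b z ≤ R := by
  induction hxy with
  | refl => exact ⟨SimpleGraph.Walk.nil, fun z hz => ⟨x, hx, by simp_all⟩⟩
  | tail hab hbc ih =>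
    rename_i b c
    obtain ⟨p, hp⟩ := ih
    obtain ⟨hb, hc, hs⟩ := hbc
    have hd : C.dist b c ≤ R := by
      rcases hs with hs | hs
      · rw [fm1_dist_one h]; exact hT _ hs
      · rw [SimpleGraph.dist_comm, fm1_dist_one h]; exact hT _ hs
    obtain ⟨q, hq⟩ := fm1_geod h.conn b c R hd
    refine ⟨p.append q, fun z hz => ?_⟩
    rw [SimpleGraph.Walk.mem_support_append_iff] at hz
    rcases hz with hz | hz
    · exact hp z hz
    · exact ⟨b, hb, hq z hz⟩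

/-- FM1 -/
theorem asymptotic_of_allCliques (h : AllCliques Γ) (S : Set Γ)
    (hS : S.Finite) (hgen : Subgroup.closure S = ⊤) (n : ℕ) (F : SimpleGraph (Fin n)) :
    IsAsymptoticMinor F (SimpleGraph.mulCayley S) := by
  classical
  intro K hK
  obtain ⟨T, hTf, hmod⟩ := h
  have hh := cayley_homog S hS hgen
  set C := SimpleGraph.mulCayley S with hC
  obtain ⟨R, hR⟩ : ∃ R, ∀ t ∈ T, C.dist 1 t ≤ R := by
    obtain ⟨R, hR⟩ := (hTf.image (fun t => C.dist 1 t)).bddAbove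
    exact ⟨R, fun t ht => hR ⟨t, ht, rfl⟩⟩
  have hF : {x : Γ | C.dist 1 x ≤ K + 2 * R}.Finite := hh.ball_finite 1 _
  obtain ⟨M⟩ := hmod n _ hF
  -- far lemma
  have hfar : ∀ a b x y : Γ, a⁻¹ * b ∉ {x : Γ | C.dist 1 x ≤ K + 2 * R} → C.dist a x ≤ R →
      C.dist b y ≤ R → K ≤ C.dist x y := by
    intro a b x y hab hax hby
    rw [Set.mem_ofPred_eq, ← fm1_dist_one hh] at hab
    have h1 := hh.conn.dist_triangle (u := a) (v := x) (w := b)
    have h2 := hh.conn.dist_triangle (u := x) (v := y) (w := b)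
    rw [SimpleGraph.dist_comm (u := y)] at h2
    omega
  have hpath : ∀ u v, u < v → ∃ x ∈ M.B u, ∃ y ∈ M.B v, ∃ Q : Set Γ,
      (∃ p : C.Walk x y, p.IsPath ∧ Q = {z | z ∈ p.support}) ∧
      ∀ z ∈ Q, ∃ b ∈ M.P u v, C.dist b z ≤ R := by
    intro u v huv
    obtain ⟨x, hx, y, hy, hx', hy', hl⟩ := M.path u v huv
    obtain ⟨p, hp⟩ := fm1_walk hh T _ R hR hl hx'
    exact ⟨x, hx, y, hy, _, ⟨p.bypass, p.bypass_isPath, rfl⟩,
      fun z hz => hp z (p.support_bypass_subset_support hz)⟩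
  choose! X hX Y hY Q hp1 hp2 using hpath
  set P : Sym2 (Fin n) → Set Γ := fun e => {z | ∃ u v, u < v ∧ e = s(u, v) ∧ z ∈ Q u v} with hP
  have hPQ : ∀ u v, u < v → P s(u, v) = Q u v := by
    intro u v huv
    ext z
    simp only [hP, Set.mem_ofPred_eq]
    constructor
    · rintro ⟨u', v', huv', he, hz⟩
      rw [Sym2.eq_iff] at he
      rcases he with ⟨rfl, rfl⟩ | ⟨rfl, rfl⟩
      · exact hz
      · exact absurd huv (not_lt.2 huv'.le)
    · intro hz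
      exact ⟨u, v, huv, rfl, hz⟩
  have hBle : ∀ w, ∀ z ∈ M.B w, z ∈ {g | ∃ b ∈ M.B w, C.dist b g ≤ R} := by
    intro w z hz
    exact ⟨z, hz, by simp⟩
  refine ⟨⟨fun w => {g | ∃ b ∈ M.B w, C.dist b g ≤ R}, P, ?_, ?_, ?_, ?_, ?_⟩⟩
  · intro w
    have hwalk : ∀ x y : Γ, ∀ q : C.Walk x y, (∀ z ∈ q.support, z ∈ {g | ∃ b ∈ M.B w, C.dist b g ≤ R}) →
        ∀ (hx : x ∈ {g | ∃ b ∈ M.B w, C.dist b g ≤ R}) (hy : y ∈ {g | ∃ b ∈ M.B w, C.dist b g ≤ R}),
        (C.induce {g | ∃ b ∈ M.B w, C.dist b g ≤ R}).Reachable ⟨x, hx⟩ ⟨y, hy⟩ := by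
      intro x y q hq hx hy
      exact ⟨q.induce _ hq⟩
    have : Nonempty {g | ∃ b ∈ M.B w, C.dist b g ≤ R} := by
      obtain ⟨b, hb⟩ := M.ne w
      exact ⟨⟨b, hBle w b hb⟩⟩
    refine ⟨?_⟩
    have key : ∀ (x : Γ) (hx : x ∈ {g | ∃ b ∈ M.B w, C.dist b g ≤ R}), ∃ b, ∃ hb : b ∈ M.B w,
        (C.induce {g | ∃ b ∈ M.B w, C.dist b g ≤ R}).Reachable ⟨x, hx⟩ ⟨b, hBle w b hb⟩ := by
      intro x hx
      obtain ⟨b, hb, hbx⟩ := hx
      obtain ⟨q, hq⟩ := fm1_geod hh.conn b x R hbx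
      refine ⟨b, hb, SimpleGraph.Reachable.symm ?_⟩
      exact hwalk b x q (fun z hz => ⟨b, hb, hq z hz⟩) _ _
    rintro ⟨x, hx⟩ ⟨y, hy⟩
    obtain ⟨b, hb, hr⟩ := key x hx
    obtain ⟨c, hc, hr'⟩ := key y hy
    refine hr.trans (SimpleGraph.Reachable.trans ?_ hr'.symm)
    obtain ⟨q, hq⟩ := fm1_walk hh T _ R hR (M.conn w b hb c hc) hb
    exact hwalk b c q hq _ _
  · intro u v huv
    rcases lt_or_gt_of_ne huv.ne with hlt | hlt
    · rw [hPQ u v hlt]
      obtain ⟨p, hp, hpe⟩ := hp1 u v hlt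
      exact ⟨X u v, hBle u _ (hX u v hlt), Y u v, hBle v _ (hY u v hlt), p, hp, hpe⟩
    · rw [Sym2.eq_swap, hPQ v u hlt]
      obtain ⟨p, hp, hpe⟩ := hp1 v u hlt
      refine ⟨Y v u, hBle u _ (hY v u hlt), X v u, hBle v _ (hX v u hlt), p.reverse,
        hp.reverse, ?_⟩
      rw [hpe]
      simp
  · rintro u v huv x ⟨b, hb, hbx⟩ y ⟨c, hc, hcy⟩
    exact hfar b c x y (M.farBB u v huv b hb c hc) hbx hcy
  · rintro e - f - hef x ⟨u, v, huv, he, hx⟩ y ⟨u', v', huv', hf, hy⟩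
    obtain ⟨b, hb, hbx⟩ := hp2 u v huv x hx
    obtain ⟨c, hc, hcy⟩ := hp2 u' v' huv' y hy
    refine hfar b c x y (M.farPP u v u' v' huv huv' ?_ b hb c hc) hbx hcy
    rintro heq
    rw [Prod.mk.injEq] at heq
    exact hef (by rw [he, hf, heq.1, heq.2])
  · rintro e - w hw x ⟨u, v, huv, he, hx⟩ y ⟨c, hc, hcy⟩
    obtain ⟨b, hb, hbx⟩ := hp2 u v huv x hx
    refine hfar b c x y (M.farPB u v w huv ?_ ?_ b hb c hc) hbx hcy
    · rintro rfl; exact hw (by rw [he]; exact Sym2.mem_mk_left _ _)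
    · rintro rfl; exact hw (by rw [he]; exact Sym2.mem_mk_right _ _)

end fm1

/-- FM2 -/
theorem AllCliques.map {G : Type u} {Γ : Type v} [Group G] [Group Γ] (h : AllCliques G)
    (f : G →* Γ) (hf : Function.Injective f) : AllCliques Γ := by
  obtain ⟨T, hT, hmod⟩ := h
  refine ⟨f '' T, hT.image f, fun n F hF => ?_⟩
  obtain ⟨M⟩ := hmod n (f ⁻¹' F) (hF.preimage hf.injOn)
  have hlink : ∀ (B : Set G) x y, Linked T B x y → Linked (f '' T) (f '' B) (f x) (f y) := by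
    intro B x y hxy
    refine Relation.ReflTransGen.lift f ?_ _ _ hxy
    rintro a b ⟨ha, hb, hs⟩
    refine ⟨⟨a, ha, rfl⟩, ⟨b, hb, rfl⟩, ?_⟩
    rcases hs with hs | hs
    · left; exact ⟨_, hs, by simp⟩
    · right; exact ⟨_, hs, by simp⟩
  have hfar : ∀ x y : G, x⁻¹ * y ∉ f ⁻¹' F → (f x)⁻¹ * f y ∉ F := by
    intro x y hxy
    simpa using hxy
  refine ⟨⟨fun v => f '' M.B v, fun u v => f '' M.P u v, ?_, ?_, ?_, ?_, ?_, ?_⟩⟩
  · intro v; exact (M.ne v).image f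
  · rintro v _ ⟨x, hx, rfl⟩ _ ⟨y, hy, rfl⟩
    exact hlink _ _ _ (M.conn v x hx y hy)
  · intro u v huv
    obtain ⟨x, hx, y, hy, hx', hy', hl⟩ := M.path u v huv
    exact ⟨f x, ⟨x, hx, rfl⟩, f y, ⟨y, hy, rfl⟩, ⟨x, hx', rfl⟩, ⟨y, hy', rfl⟩, hlink _ _ _ hl⟩
  · rintro u v huv _ ⟨x, hx, rfl⟩ _ ⟨y, hy, rfl⟩
    exact hfar x y (M.farBB u v huv x hx y hy)
  · rintro u v u' v' huv huv' hne _ ⟨x, hx, rfl⟩ _ ⟨y, hy, rfl⟩
    exact hfar x y (M.farPP u v u' v' huv huv' hne x hx y hy)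
  · rintro u v w huv hu hv _ ⟨x, hx, rfl⟩ _ ⟨y, hy, rfl⟩
    exact hfar x y (M.farPB u v w huv hu hv x hx y hy)

end Pool.Agent.Lib.MP_0f7bfe_al
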