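import Pool.Agent.Lib.MP_0f7bfe_al.Defs

open scoped Pointwise

namespace Pool.Agent.Lib.MP_0f7bfe_al

universe u

section fm11
variable {G : Type u} [Group G]

/-- `B` is covered by finitely many right translates of `A`. -/
def fm11Cov (A B : Subgroup G) : Prop := ∃ Y : Set G, Y.Finite ∧ ∀ x ∈ B, ∃ y ∈ Y, x * y ∈ A

theorem fm11_cov_trans {A B C : Subgroup G} (h1 : fm11Cov A B) (h2 : fm11Cov B C) :
    fm11Cov A C := by
  obtain ⟨Y, hY, h⟩ := h1
  obtain ⟨Y', hY', h'⟩ := h2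
  refine ⟨Y' * Y, hY'.mul hY, fun x hx => ?_⟩
  obtain ⟨y', hy', hxy⟩ := h' x hx
  obtain ⟨y, hy, hxy'⟩ := h _ hxy
  exact ⟨y' * y, Set.mul_mem_mul hy' hy, by rwa [← mul_assoc]⟩

theorem fm11_index_of_cov {A : Subgroup G} (h : fm11Cov A ⊤) : A.index ≠ 0 := by
  obtain ⟨Y, hY, h⟩ := h
  have : Finite Y := hY
  have hsurj : Function.Surjective (fun y : Y => ((y : G) : G ⧸ A)) := by
    intro q
    induction q using QuotientGroup.induction_on with
    | H w =>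
      obtain ⟨y, hy, hxy⟩ := h w⁻¹ trivial
      refine ⟨⟨y, hy⟩, ?_⟩
      exact ((QuotientGroup.eq (s := A)).2 hxy).symm
  have : Finite (G ⧸ A) := Finite.of_surjective _ hsurj
  exact (Subgroup.finiteIndex_of_finite_quotient (H := A)).index_ne_zero

theorem fm11_cov_of_index {A : Subgroup G} (h : A.index ≠ 0) (B : Subgroup G) : fm11Cov A B := by
  have : A.FiniteIndex := ⟨h⟩
  have : Finite (G ⧸ A) := inferInstance
  refine ⟨Set.range (fun q : G ⧸ A => q.out), Set.finite_range _, fun x _ => ?_⟩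
  refine ⟨_, ⟨((x⁻¹ : G) : G ⧸ A), rfl⟩, ?_⟩
  have := QuotientGroup.out_eq' ((x⁻¹ : G) : G ⧸ A)
  have h2 := (QuotientGroup.eq (s := A)).1 this.symm
  simpa using h2

theorem fm11_relIndex_of_cov {A B : Subgroup G} (h : fm11Cov A B) : A.relIndex B ≠ 0 := by
  obtain ⟨Y, hY, h⟩ := h
  apply fm11_index_of_cov
  classical
  have hex : ∀ y : G, ∃ b : B, (∃ x : B, (x : G) * y ∈ A) → (b : G) * y ∈ A := by
    intro y
    by_cases hy : ∃ x : B, (x : G) * y ∈ A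
    · obtain ⟨x, hx⟩ := hy
      exact ⟨x, fun _ => hx⟩
    · exact ⟨1, fun h => absurd h hy⟩
  choose b hb using hex
  refine ⟨(fun y => (b y)⁻¹) '' Y, hY.image _, fun x _ => ?_⟩
  obtain ⟨y, hy, hxy⟩ := h x x.2
  refine ⟨_, ⟨y, hy, rfl⟩, ?_⟩
  rw [Subgroup.mem_subgroupOf]
  have h2 := hb y ⟨x, hxy⟩
  have h3 := A.mul_mem hxy (A.inv_mem h2)
  simpa [mul_assoc] using h3

/-- division with remainder -/
theorem fm11_div (H : Subgroup G) (τ : H →* Multiplicative ℤ) (g : H) (hg : τ g ≠ 1) :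
    ∃ Y : Set G, Y.Finite ∧ ∀ x ∈ H, ∃ y ∈ Y, ∃ q : ℤ, ∃ k : H, τ k = 1 ∧
      x * y = (g : G) ^ q * k := by
  classical
  set t : ℤ := (τ g).toAdd with ht
  have ht0 : t ≠ 0 := fun h => hg (by
    have : (τ g) = Multiplicative.ofAdd t := rfl
    rw [this, h]; rfl)
  have hex : ∀ r : ℤ, ∃ b : H, (∃ x : H, (τ x).toAdd = r) → (τ b).toAdd = r := by
    intro r
    by_cases hr : ∃ x : H, (τ x).toAdd = r
    · obtain ⟨x, hx⟩ := hr
      exact ⟨x, fun _ => hx⟩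
    · exact ⟨1, fun h => absurd h hr⟩
  choose b hb using hex
  refine ⟨(fun r : ℤ => ((b r)⁻¹ : G)) '' (Set.Ico 0 |t|), (Set.finite_Ico _ _).image _, ?_⟩
  intro x hx
  set x' : H := ⟨x, hx⟩
  set s : ℤ := (τ x').toAdd with hs
  have hmod : s = t * (s / t) + s % t := (Int.mul_ediv_add_emod s t).symm
  have hx2 : (τ (g ^ (-(s / t)) * x')).toAdd = s % t := by
    rw [map_mul, map_zpow, toAdd_mul, toAdd_zpow, smul_eq_mul, ← ht, ← hs]
    linarith [mul_comm (s / t) t]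
  have hb' := hb (s % t) ⟨_, hx2⟩
  refine ⟨_, ⟨s % t, ⟨Int.emod_nonneg _ ht0, Int.emod_lt_abs _ ht0⟩, rfl⟩, s / t,
    g ^ (-(s / t)) * x' * (b (s % t))⁻¹, ?_, ?_⟩
  · apply Multiplicative.toAdd.injective
    rw [map_mul, map_inv, toAdd_mul, toAdd_inv, hx2, hb']
    simp
  · simp only [Subgroup.coe_mul, InvMemClass.coe_inv, SubgroupClass.coe_zpow, x']
    group

/-- FM11 -/
theorem virtually_Z2 (N : Subgroup G)
    (h1 : ∃ (N' : Subgroup N) (τ : N' →* Multiplicative ℤ), N'.index ≠ 0 ∧ (∃ g, τ g ≠ 1) ∧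
      {x : N | ∃ g : N', τ g = 1 ∧ (g : N) = x}.Finite)
    (h2 : ∃ (G' : Subgroup G) (τ : G' →* Multiplicative ℤ), G'.index ≠ 0 ∧ (∃ g, τ g ≠ 1) ∧
      (∀ g : G', (g : G) ∈ N → τ g = 1) ∧
      {x : G ⧸ N | ∃ g : G', τ g = 1 ∧ ((g : G) : G ⧸ N) = x}.Finite) :
    ∃ A : Subgroup G, A.index ≠ 0 ∧ Nonempty (A ≃* Multiplicative (ℤ × ℤ)) := by
  classical
  obtain ⟨N', τ₁, hN', ⟨z₁, hz₁⟩, hker₁⟩ := h1
  obtain ⟨G', τ₂, hG', ⟨g, hg⟩, htriv, hfin₂⟩ := h2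
  set z : G := ((z₁ : N) : G) with hz
  have hzN : z ∈ N := (z₁ : N).2
  -- infinite order
  have hord : ∀ i : ℤ, z ^ i = 1 → i = 0 := by
    intro i hi
    have h3 : (z₁ : N') ^ i = 1 := by
      apply Subtype.ext
      apply Subtype.ext
      simpa [hz] using hi
    have h4 : (τ₁ z₁) ^ i = 1 := by rw [← map_zpow, h3, map_one]
    have h5 : i * (τ₁ z₁).toAdd = 0 := by
      have := congrArg Multiplicative.toAdd h4
      rw [toAdd_zpow, smul_eq_mul, toAdd_one] at this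
      exact this
    rcases mul_eq_zero.1 h5 with h6 | h6
    · exact h6
    · exact absurd (Multiplicative.toAdd.injective (by simpa using h6)) hz₁
  -- `⟨z⟩` has finite index in `N`
  have hcov₁ : fm11Cov (Subgroup.zpowers z) N := by
    obtain ⟨Y, hY, hYc⟩ := fm11_cov_of_index hN' ⊤
    obtain ⟨Y', hY', hYc'⟩ := fm11_div N' τ₁ z₁ hz₁
    refine ⟨(fun y : N => (y : G)) '' (Y * Y' * {x : N | ∃ g : N', τ₁ g = 1 ∧ (g : N) = x}⁻¹),
      ((hY.mul hY').mul hker₁.inv).image _, fun x hx => ?_⟩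
    obtain ⟨y, hy, hxy⟩ := hYc ⟨x, hx⟩ trivial
    obtain ⟨y', hy', q, k, hk, he⟩ := hYc' _ hxy
    refine ⟨_, ⟨y * y' * (k : N)⁻¹, Set.mul_mem_mul (Set.mul_mem_mul hy hy') ?_, rfl⟩, ?_⟩
    · rw [Set.mem_inv, inv_inv]; exact ⟨k, hk, rfl⟩
    · rw [Subgroup.mem_zpowers_iff]
      refine ⟨q, ?_⟩
      have h5 : (⟨x, hx⟩ : N) * (y * y' * (k : N)⁻¹) = (z₁ : N) ^ q := by
        rw [← mul_assoc, ← mul_assoc, he]; group
      have h6 := congrArg (fun w : N => (w : G)) h5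
      simp only [Subgroup.coe_mul, SubgroupClass.coe_zpow] at h6
      rw [hz, ← h6]
      simp [Subgroup.coe_mul]
  -- the kernel
  set K : Subgroup G := τ₂.ker.map G'.subtype with hK
  have hKmem : ∀ x : G, x ∈ K ↔ ∃ h : x ∈ G', τ₂ ⟨x, h⟩ = 1 := by
    intro x
    rw [hK, Subgroup.mem_map]
    constructor
    · rintro ⟨y, hy, rfl⟩
      exact ⟨y.2, hy⟩
    · rintro ⟨h, h'⟩
      exact ⟨⟨x, h⟩, h', rfl⟩
  have hcov₂ : fm11Cov N K := by
    have hrep : ∀ q : G ⧸ N, ∃ y : G, (y : G ⧸ N) = q := QuotientGroup.mk_surjective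
    choose r hr using hrep
    refine ⟨r '' {x : G ⧸ N | ∃ g : G', τ₂ g = 1 ∧ ((g : G) : G ⧸ N) = x}, hfin₂.image _, ?_⟩
    intro x hx
    obtain ⟨h, h'⟩ := (hKmem _).1 (K.inv_mem hx)
    refine ⟨_, ⟨((x⁻¹ : G) : G ⧸ N), ⟨⟨x⁻¹, h⟩, h', rfl⟩, rfl⟩, ?_⟩
    have h3 := hr ((x⁻¹ : G) : G ⧸ N)
    have h4 := (QuotientGroup.eq (s := N)).1 h3.symm
    simpa using h4
  have hcovK : fm11Cov (Subgroup.zpowers z) K := fm11_cov_trans hcov₁ hcov₂
  have hrelK : (Subgroup.zpowers z).relIndex K ≠ 0 := fm11_relIndex_of_cov hcovK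
  -- exponent
  obtain ⟨e, he0, he⟩ : ∃ e : ℕ, 0 < e ∧ ∀ x ∈ K, x ^ e ∈ Subgroup.zpowers z := by
    refine ⟨((Subgroup.zpowers z).relIndex K).factorial, Nat.factorial_pos _, fun x hx => ?_⟩
    have := Subgroup.pow_mem_of_relIndex_ne_zero_of_dvd (a := x) (n :=
      ((Subgroup.zpowers z).relIndex K).factorial) hrelK hx
      (fun m hm hm' => Nat.dvd_factorial hm hm')
    exact this.1
  -- a power of `z` in `K`
  obtain ⟨f, hf0, hf⟩ : ∃ f : ℕ, 0 < f ∧ z ^ f ∈ K := by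
    refine ⟨G'.index.factorial, Nat.factorial_pos _, ?_⟩
    have h3 : z ^ G'.index.factorial ∈ G' :=
      Subgroup.pow_mem_of_index_ne_zero_of_dvd hG' z (fun m hm hm' => Nat.dvd_factorial hm hm')
    rw [hKmem]
    exact ⟨h3, htriv _ (N.pow_mem hzN _)⟩
  -- the characteristic cyclic subgroup
  set C : Subgroup G := Subgroup.closure {y | ∃ x ∈ K, x ^ e = y} with hC
  have hCz : C ≤ Subgroup.zpowers z := by
    rw [hC, Subgroup.closure_le]
    rintro _ ⟨x, hx, rfl⟩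
    exact he x hx
  have hCK : C ≤ K := by
    rw [hC, Subgroup.closure_le]
    rintro _ ⟨x, hx, rfl⟩
    exact K.pow_mem hx e
  have hCc : ∃ c : G, C = Subgroup.zpowers c := by
    have hcyc : IsCyclic C := by
      have : IsCyclic (C.subgroupOf (Subgroup.zpowers z)) := inferInstance
      exact isCyclic_of_surjective (Subgroup.subgroupOfEquivOfLe hCz)
        (Subgroup.subgroupOfEquivOfLe hCz).surjective
    exact (Subgroup.isCyclic_iff_exists_zpowers_eq_top C).1 hcyc |>.imp fun c hc => hc.symm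
  obtain ⟨c, hCc⟩ := hCc
  have hcC : c ∈ C := by rw [hCc]; exact Subgroup.mem_zpowers c
  obtain ⟨a, ha⟩ := Subgroup.mem_zpowers_iff.1 (hCz hcC)
  have ha0 : a ≠ 0 := by
    rintro rfl
    rw [zpow_zero] at ha
    have h3 : z ^ (f * e) ∈ C := by
      rw [pow_mul]
      exact Subgroup.subset_closure ⟨_, hf, rfl⟩
    rw [hCc, ← ha, Subgroup.zpowers_one_eq_bot, Subgroup.mem_bot] at h3
    have h4 := hord ((f * e : ℕ) : ℤ) (by rw [zpow_natCast]; exact h3)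
    have : 0 < f * e := Nat.mul_pos hf0 he0
    omega
  have hcord : ∀ i : ℤ, c ^ i = 1 → i = 0 := by
    intro i hi
    rw [← ha, ← zpow_mul] at hi
    rcases mul_eq_zero.1 (hord _ hi) with h | h
    · exact absurd h ha0
    · exact h
  -- normality
  have hKn : ∀ x ∈ G', ∀ k ∈ K, x * k * x⁻¹ ∈ K := by
    intro x hx k hk
    obtain ⟨h3, h4⟩ := (hKmem k).1 hk
    rw [hKmem]
    refine ⟨G'.mul_mem (G'.mul_mem hx h3) (G'.inv_mem hx), ?_⟩
    have h5 : (⟨x * k * x⁻¹, G'.mul_mem (G'.mul_mem hx h3) (G'.inv_mem hx)⟩ : G') =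
        ⟨x, hx⟩ * ⟨k, h3⟩ * ⟨x, hx⟩⁻¹ := rfl
    rw [h5, map_mul, map_mul, h4, mul_one, map_inv, mul_inv_cancel]
  have hCn : ∀ x ∈ G', ∀ k ∈ C, x * k * x⁻¹ ∈ C := by
    intro x hx k hk
    rw [hC] at hk
    induction hk using Subgroup.closure_induction with
    | mem y hy =>
      obtain ⟨w, hw, rfl⟩ := hy
      rw [← conj_pow]
      exact Subgroup.subset_closure ⟨_, hKn x hx w hw, rfl⟩
    | one => simp
    | mul y w _ _ hy hw =>
      have : x * (y * w) * x⁻¹ = (x * y * x⁻¹) * (x * w * x⁻¹) := by group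
      rw [this]; exact C.mul_mem hy hw
    | inv y _ hy =>
      have : x * y⁻¹ * x⁻¹ = (x * y * x⁻¹)⁻¹ := by group
      rw [this]; exact C.inv_mem hy
  -- action of g on c
  obtain ⟨k, hk⟩ : ∃ k : ℤ, c ^ k = (g : G) * c * (g : G)⁻¹ := by
    have := hCn g g.2 c hcC
    rw [hCc, Subgroup.mem_zpowers_iff] at this
    exact this
  obtain ⟨l, hl⟩ : ∃ l : ℤ, c ^ l = (g : G)⁻¹ * c * (g : G) := by
    have := hCn _ (G'.inv_mem g.2) c hcC
    rw [hCc, Subgroup.mem_zpowers_iff, inv_inv] at this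
    exact this
  have hkl : l * k = 1 := by
    have h3 : c ^ (l * k - 1) = 1 := by
      have h4 : (g : G) * c ^ l * (g : G)⁻¹ = c ^ (k * l) := by
        rw [zpow_mul, hk, conj_zpow]
      rw [hl] at h4
      have h5 : c ^ (k * l) = c := by rw [← h4]; group
      rw [zpow_sub, mul_comm l k, h5, zpow_one, mul_inv_cancel]
    have := hcord _ h3
    omega
  have hk2 : k * k = 1 := by
    rcases Int.eq_one_or_neg_one_of_mul_eq_one' hkl with ⟨-, h⟩ | ⟨-, h⟩ <;> rw [h] <;> norm_num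
  have hcomm : Commute c ((g : G) ^ 2) := by
    have h3 : (g : G) ^ 2 * c * ((g : G) ^ 2)⁻¹ = c := by
      have h4 : (g : G) ^ 2 * c * ((g : G) ^ 2)⁻¹ = (g : G) * ((g : G) * c * (g : G)⁻¹) * (g : G)⁻¹ := by
        rw [pow_two, mul_inv_rev]; simp only [mul_assoc]
      rw [h4, ← hk, ← conj_zpow, ← hk, ← zpow_mul, hk2, zpow_one]
    rw [Commute, SemiconjBy]
    rw [mul_inv_eq_iff_eq_mul] at h3
    exact h3.symm
  -- the homomorphism
  let φ : Multiplicative (ℤ × ℤ) →* G :=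
    { toFun := fun p => c ^ p.toAdd.1 * ((g : G) ^ 2) ^ p.toAdd.2
      map_one' := by simp
      map_mul' := by
        intro p q
        rw [toAdd_mul, Prod.fst_add, Prod.snd_add, zpow_add, zpow_add]
        have := (hcomm.zpow_zpow q.toAdd.1 p.toAdd.2).eq
        rw [mul_assoc, mul_assoc, ← mul_assoc (((g : G) ^ 2) ^ (Multiplicative.toAdd p).2), ← this]
        simp only [mul_assoc] }
  have hφ : ∀ i j : ℤ, φ (Multiplicative.ofAdd (i, j)) = c ^ i * ((g : G) ^ 2) ^ j := fun i j => rfl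
  have hinj : Function.Injective φ := by
    rw [injective_iff_map_eq_one]
    intro p hp
    obtain ⟨⟨i, j⟩, rfl⟩ := Multiplicative.ofAdd.surjective p
    rw [hφ] at hp
    obtain ⟨hcG, hcτ⟩ := (hKmem c).1 (hCK hcC)
    have h3 : (⟨c, hcG⟩ : G') ^ i * (g ^ 2) ^ j = 1 := by
      apply Subtype.ext
      simpa using hp
    have h4 : (τ₂ g ^ 2) ^ j = 1 := by
      have := congrArg τ₂ h3
      rwa [map_mul, map_zpow, hcτ, one_zpow, one_mul, map_zpow, map_pow, map_one] at this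
    have hj : j = 0 := by
      have h5 := congrArg Multiplicative.toAdd h4
      rw [toAdd_zpow, toAdd_pow, toAdd_one, smul_eq_mul, nsmul_eq_mul] at h5
      have h6 : (τ₂ g).toAdd ≠ 0 := fun h => hg (Multiplicative.toAdd.injective (by simpa using h))
      rcases mul_eq_zero.1 h5 with h | h
      · exact h
      · exfalso
        rcases mul_eq_zero.1 h with h | h
        · norm_num at h
        · exact h6 h
    subst hj
    rw [zpow_zero, mul_one] at hp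
    rw [hcord i hp]
    rfl
  refine ⟨φ.range, ?_, ⟨(MonoidHom.ofInjective hinj).symm⟩⟩
  apply fm11_index_of_cov
  -- covering
  have hcovc : fm11Cov (Subgroup.zpowers c) (Subgroup.zpowers z) := by
    refine ⟨(fun r : ℤ => z ^ (-r)) '' (Set.Ico 0 |a|), (Set.finite_Ico _ _).image _, ?_⟩
    intro x hx
    obtain ⟨i, rfl⟩ := Subgroup.mem_zpowers_iff.1 hx
    refine ⟨_, ⟨i % a, ⟨Int.emod_nonneg _ ha0, Int.emod_lt_abs _ ha0⟩, rfl⟩, ?_⟩
    rw [Subgroup.mem_zpowers_iff]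
    refine ⟨i / a, ?_⟩
    rw [← ha, ← zpow_mul, ← zpow_add]
    congr 1
    have := Int.mul_ediv_add_emod i a
    linarith
  obtain ⟨Y₁, hY₁, hc₁⟩ := fm11_cov_trans hcovc hcovK
  have hg2 : τ₂ (g ^ 2) ≠ 1 := by
    intro h
    rw [map_pow] at h
    have h5 := congrArg Multiplicative.toAdd h
    rw [toAdd_pow, toAdd_one, nsmul_eq_mul] at h5
    rcases mul_eq_zero.1 h5 with h | h
    · norm_num at h
    · exact hg (Multiplicative.toAdd.injective (by simpa using h))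
  obtain ⟨Y₂, hY₂, hc₂⟩ := fm11_div G' τ₂ (g ^ 2) hg2
  obtain ⟨Y₃, hY₃, hc₃⟩ := fm11_cov_of_index hG' ⊤
  refine ⟨Y₃ * Y₂ * Y₁, (hY₃.mul hY₂).mul hY₁, fun x _ => ?_⟩
  obtain ⟨y₃, hy₃, h₃⟩ := hc₃ x trivial
  obtain ⟨y₂, hy₂, q, k', hk', h₂⟩ := hc₂ _ h₃
  obtain ⟨y₁, hy₁, h₁⟩ := hc₁ k' ((hKmem _).2 ⟨k'.2, hk'⟩)
  obtain ⟨j, hj⟩ := Subgroup.mem_zpowers_iff.1 h₁
  refine ⟨y₃ * y₂ * y₁, Set.mul_mem_mul (Set.mul_mem_mul hy₃ hy₂) hy₁, ?_⟩
  refine ⟨Multiplicative.ofAdd (j, q), ?_⟩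
  rw [hφ, (hcomm.zpow_zpow j q).eq, hj, ← mul_assoc]
  have h6 : x * (y₃ * y₂ * y₁) = (x * y₃ * y₂) * y₁ := by group
  rw [h6, h₂]
  simp

end fm11

end Pool.Agent.Lib.MP_0f7bfe_al
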