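import Pool.Agent.Lib.MP_0f7bfe_al.Defs

namespace Pool.Agent.Lib.MP_0f7bfe_al

universe u v

section plane

variable {A : Type u} [Group A] (e : A ≃* Multiplicative (ℤ × ℤ))

/-- integer coordinates -/
def fm12_c (a : A) : ℤ × ℤ := Multiplicative.toAdd (e a)

/-- the generators -/
def fm12_S : Set A := {e.symm (Multiplicative.ofAdd (1, 0)), e.symm (Multiplicative.ofAdd (0, 1))}

/-- the points -/
noncomputable def fm12_pt (a : A) : ℝ × ℝ := (((fm12_c e a).1 : ℤ), ((fm12_c e a).2 : ℤ))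

/-- the arcs -/
noncomputable def fm12_arc (u v : A) (t : ℝ) : ℝ × ℝ :=
  ((1 - t) * (fm12_pt e u).1 + t * (fm12_pt e v).1,
    (1 - t) * (fm12_pt e u).2 + t * (fm12_pt e v).2)

theorem fm12_c_injective : Function.Injective (fm12_c e) := by
  intro a b h
  exact e.injective (Multiplicative.toAdd.injective h)

theorem fm12_c_mul (a b : A) : fm12_c e (a * b) = fm12_c e a + fm12_c e b := by
  simp [fm12_c]

theorem fm12_c_inv (a : A) : fm12_c e a⁻¹ = - fm12_c e a := by
  simp [fm12_c]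

theorem fm12_mem_S (a : A) : a ∈ fm12_S e ↔ fm12_c e a = (1, 0) ∨ fm12_c e a = (0, 1) := by
  rw [fm12_S, Set.mem_insert_iff, Set.mem_singleton_iff, MulEquiv.eq_symm_apply,
    MulEquiv.eq_symm_apply]
  rfl

theorem fm12_adj {a b : A} (h : (SimpleGraph.mulCayley (fm12_S e)).Adj a b) :
    fm12_c e b = fm12_c e a + (1, 0) ∨ fm12_c e b = fm12_c e a + (0, 1) ∨
    fm12_c e a = fm12_c e b + (1, 0) ∨ fm12_c e a = fm12_c e b + (0, 1) := by
  rw [SimpleGraph.mulCayley_adj, fm12_mem_S, fm12_mem_S, fm12_c_mul, fm12_c_mul, fm12_c_inv,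
    fm12_c_inv] at h
  obtain ⟨-, (h | h) | (h | h)⟩ := h
  · left
    rw [← h]
    abel
  · right; left
    rw [← h]
    abel
  · right; right; left
    rw [← h]
    abel
  · right; right; right
    rw [← h]
    abel

theorem fm12_closure : Subgroup.closure (fm12_S e) = ⊤ := by
  rw [eq_top_iff]
  intro a _
  have h1 : a = (e.symm (Multiplicative.ofAdd (1, 0))) ^ (fm12_c e a).1 *
      (e.symm (Multiplicative.ofAdd (0, 1))) ^ (fm12_c e a).2 := by
    apply e.injective
    rw [map_mul, map_zpow, map_zpow, MulEquiv.apply_symm_apply, MulEquiv.apply_symm_apply,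
      ← ofAdd_zsmul, ← ofAdd_zsmul, ← ofAdd_add]
    have h2 : (fm12_c e a).1 • ((1, 0) : ℤ × ℤ) + (fm12_c e a).2 • ((0, 1) : ℤ × ℤ) =
        fm12_c e a := by
      ext <;> simp
    rw [h2]
    rfl
  rw [h1]
  refine Subgroup.mul_mem _ (Subgroup.zpow_mem _ (Subgroup.subset_closure ?_) _)
    (Subgroup.zpow_mem _ (Subgroup.subset_closure ?_) _)
  · exact Or.inl rfl
  · exact Or.inr rfl

/-- the shape of an arc -/
theorem fm12_shape {a b : A} (h : (SimpleGraph.mulCayley (fm12_S e)).Adj a b) {t : ℝ}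
    (ht : t ∈ Set.Icc (0 : ℝ) 1) :
    ∃ τ ∈ Set.Icc (0 : ℝ) 1, ∃ w w' : A, s(a, b) = s(w, w') ∧
      ((fm12_c e w' = fm12_c e w + (1, 0) ∧
        fm12_arc e a b t = (((fm12_c e w).1 : ℝ) + τ, ((fm12_c e w).2 : ℝ))) ∨
      (fm12_c e w' = fm12_c e w + (0, 1) ∧
        fm12_arc e a b t = (((fm12_c e w).1 : ℝ), ((fm12_c e w).2 : ℝ) + τ))) := by
  have ht' : 1 - t ∈ Set.Icc (0 : ℝ) 1 := ⟨by linarith [ht.2], by linarith [ht.1]⟩
  rcases fm12_adj e h with h1 | h1 | h1 | h1
  · refine ⟨t, ht, a, b, rfl, Or.inl ⟨h1, ?_⟩⟩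
    simp only [fm12_arc, fm12_pt, h1, Prod.fst_add, Prod.snd_add]
    ext <;> push_cast <;> ring
  · refine ⟨t, ht, a, b, rfl, Or.inr ⟨h1, ?_⟩⟩
    simp only [fm12_arc, fm12_pt, h1, Prod.fst_add, Prod.snd_add]
    ext <;> push_cast <;> ring
  · refine ⟨1 - t, ht', b, a, Sym2.eq_swap, Or.inl ⟨h1, ?_⟩⟩
    simp only [fm12_arc, fm12_pt, h1, Prod.fst_add, Prod.snd_add]
    ext <;> push_cast <;> ring
  · refine ⟨1 - t, ht', b, a, Sym2.eq_swap, Or.inr ⟨h1, ?_⟩⟩
    simp only [fm12_arc, fm12_pt, h1, Prod.fst_add, Prod.snd_add]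
    ext <;> push_cast <;> ring

theorem fm12_floor {m : ℤ} {τ : ℝ} (h0 : 0 < τ) (h1 : τ < 1) :
    ⌊(m : ℝ) + τ⌋ = m ∧ ⌈(m : ℝ) + τ⌉ = m + 1 := by
  constructor
  · rw [Int.floor_eq_iff]
    constructor <;> linarith
  · rw [Int.ceil_eq_iff]
    push_cast
    constructor <;> linarith

theorem fm12_edge {a b : A} (h : (SimpleGraph.mulCayley (fm12_S e)).Adj a b) {t : ℝ}
    (ht : t ∈ Set.Icc (0 : ℝ) 1) :
    (∃ w, (w = a ∨ w = b) ∧ fm12_arc e a b t = fm12_pt e w) ∨
    (s(fm12_c e a, fm12_c e b) =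
      s((⌊(fm12_arc e a b t).1⌋, ⌊(fm12_arc e a b t).2⌋),
        (⌈(fm12_arc e a b t).1⌉, ⌈(fm12_arc e a b t).2⌉)) ∧
      ∀ w, fm12_arc e a b t ≠ fm12_pt e w) := by
  obtain ⟨τ, hτ, w, w', hs, h1⟩ := fm12_shape e h ht
  have hmem : (w = a ∨ w = b) ∧ (w' = a ∨ w' = b) := by
    have hw : w ∈ s(a, b) := by rw [hs]; exact Sym2.mem_mk_left _ _
    have hw' : w' ∈ s(a, b) := by rw [hs]; exact Sym2.mem_mk_right _ _
    exact ⟨Sym2.mem_iff.1 hw, Sym2.mem_iff.1 hw'⟩
  have hsc : s(fm12_c e a, fm12_c e b) = s(fm12_c e w, fm12_c e w') := by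
    have := congrArg (Sym2.map (fm12_c e)) hs
    simpa using this
  rcases eq_or_lt_of_le hτ.1 with h0 | h0
  · left
    refine ⟨w, hmem.1, ?_⟩
    rcases h1 with ⟨-, h1⟩ | ⟨-, h1⟩
    · rw [h1, ← h0, add_zero]
      rfl
    · rw [h1, ← h0, add_zero]
      rfl
  rcases eq_or_lt_of_le hτ.2 with h2 | h2
  · left
    refine ⟨w', hmem.2, ?_⟩
    rcases h1 with ⟨h3, h1⟩ | ⟨h3, h1⟩
    · rw [h1, h2, fm12_pt, h3]
      simp
    · rw [h1, h2, fm12_pt, h3]
      simp
  · right
    rcases h1 with ⟨h3, h1⟩ | ⟨h3, h1⟩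
    · constructor
      · rw [hsc, h1, h3]
        simp only [(fm12_floor h0 h2).1, (fm12_floor h0 h2).2, Int.floor_intCast,
          Int.ceil_intCast]
        congr 2
        ext <;> simp
      · intro v hv
        rw [h1] at hv
        have h4 := congrArg Prod.fst hv
        simp only [fm12_pt] at h4
        have h5 : τ = (((fm12_c e v).1 - (fm12_c e w).1 : ℤ) : ℝ) := by
          push_cast
          linarith
        rw [h5] at h0 h2
        have h6 : 0 < (fm12_c e v).1 - (fm12_c e w).1 := by exact_mod_cast h0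
        have h7 : (fm12_c e v).1 - (fm12_c e w).1 < 1 := by exact_mod_cast h2
        omega
    · constructor
      · rw [hsc, h1, h3]
        simp only [(fm12_floor h0 h2).1, (fm12_floor h0 h2).2, Int.floor_intCast,
          Int.ceil_intCast]
        congr 2
        ext <;> simp
      · intro v hv
        rw [h1] at hv
        have h4 := congrArg Prod.snd hv
        simp only [fm12_pt] at h4
        have h5 : τ = (((fm12_c e v).2 - (fm12_c e w).2 : ℤ) : ℝ) := by
          push_cast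
          linarith
        rw [h5] at h0 h2
        have h6 : 0 < (fm12_c e v).2 - (fm12_c e w).2 := by exact_mod_cast h0
        have h7 : (fm12_c e v).2 - (fm12_c e w).2 < 1 := by exact_mod_cast h2
        omega

theorem fm12_pt_injective : Function.Injective (fm12_pt e) := by
  intro a b h
  apply fm12_c_injective e
  have h1 := congrArg Prod.fst h
  have h2 := congrArg Prod.snd h
  simp only [fm12_pt] at h1 h2
  exact Prod.ext (by exact_mod_cast h1) (by exact_mod_cast h2)

theorem fm12_arc_pt {a b : A} (h : (SimpleGraph.mulCayley (fm12_S e)).Adj a b) {t : ℝ}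
    (ht : t ∈ Set.Icc (0 : ℝ) 1) (w : A) (hw : fm12_arc e a b t = fm12_pt e w) :
    w = a ∨ w = b := by
  rcases fm12_edge e h ht with ⟨w', hw', h1⟩ | ⟨-, h1⟩
  · rw [h1] at hw
    rw [← fm12_pt_injective e hw]
    exact hw'
  · exact absurd hw (h1 w)

theorem fm12_finite (z : ℝ × ℝ) (r : ℝ) :
    {v : A | |(fm12_pt e v).1 - z.1| ≤ r ∧ |(fm12_pt e v).2 - z.2| ≤ r}.Finite := by
  have h1 : ((Set.Icc ⌈z.1 - r⌉ ⌊z.1 + r⌋ ×ˢ Set.Icc ⌈z.2 - r⌉ ⌊z.2 + r⌋ :
      Set (ℤ × ℤ))).Finite := (Set.finite_Icc _ _).prod (Set.finite_Icc _ _)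
  refine (h1.preimage ((fm12_c_injective e).injOn)).subset ?_
  rintro v ⟨hv1, hv2⟩
  rw [abs_le] at hv1 hv2
  simp only [fm12_pt] at hv1 hv2
  simp only [Set.mem_preimage, Set.mem_prod, Set.mem_Icc, Int.ceil_le, Int.le_floor]
  exact ⟨⟨by linarith, by linarith⟩, ⟨by linarith, by linarith⟩⟩

/-- every point of an arc is within distance one from both ends -/
theorem fm12_near {a b : A} (h : (SimpleGraph.mulCayley (fm12_S e)).Adj a b) {t : ℝ}
    (ht : t ∈ Set.Icc (0 : ℝ) 1) :
    (|(fm12_pt e a).1 - (fm12_arc e a b t).1| ≤ 1 ∧ |(fm12_pt e a).2 - (fm12_arc e a b t).2| ≤ 1) ∧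
    (|(fm12_pt e b).1 - (fm12_arc e a b t).1| ≤ 1 ∧
      |(fm12_pt e b).2 - (fm12_arc e a b t).2| ≤ 1) := by
  have ht0 := ht.1
  have ht1 := ht.2
  simp only [fm12_arc, fm12_pt, abs_le]
  rcases fm12_adj e h with h1 | h1 | h1 | h1 <;>
  · rw [h1]
    simp only [Prod.fst_add, Prod.snd_add]
    push_cast
    refine ⟨⟨⟨?_, ?_⟩, ⟨?_, ?_⟩⟩, ⟨⟨?_, ?_⟩, ⟨?_, ?_⟩⟩⟩ <;> nlinarith

/-- FM12 -/
theorem planar_Z2 (A : Type u) [Group A] (e : A ≃* Multiplicative (ℤ × ℤ)) :
    ∃ S : Set A, S.Finite ∧ Subgroup.closure S = ⊤ ∧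
      Nonempty (PlanarDrawing (SimpleGraph.mulCayley S)) := by
  refine ⟨fm12_S e, (Set.finite_singleton _).insert _, fm12_closure e, ⟨?_⟩⟩
  exact
    { pt := fm12_pt e
      arc := fm12_arc e
      pt_inj := fm12_pt_injective e
      arc_cont := by
        intro u v _
        apply Continuous.continuousOn
        unfold fm12_arc
        fun_prop
      arc_zero := by
        intro u v _
        simp [fm12_arc]
      arc_one := by
        intro u v _
        simp [fm12_arc]
      arc_symm := by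
        intro u v _ t _
        simp only [fm12_arc]
        ext <;> ring
      arc_inj := by
        intro u v h t _ t' _ heq
        have h1 := congrArg Prod.fst heq
        have h2 := congrArg Prod.snd heq
        simp only [fm12_arc] at h1 h2
        have h3 : (t - t') * ((fm12_pt e v).1 - (fm12_pt e u).1) = 0 := by linarith
        have h4 : (t - t') * ((fm12_pt e v).2 - (fm12_pt e u).2) = 0 := by linarith
        by_contra hne
        have h5 : t - t' ≠ 0 := sub_ne_zero.2 hne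
        have h6 := (mul_eq_zero.1 h3).resolve_left h5
        have h7 := (mul_eq_zero.1 h4).resolve_left h5
        exact h.ne' (fm12_pt_injective e (Prod.ext (by linarith) (by linarith)))
      arc_pt := by
        intro u v h t ht w hw
        exact fm12_arc_pt e h ht w hw
      arc_arc := by
        intro u v u' v' h h' hne s hs t ht heq
        rcases fm12_edge e h hs with ⟨w, hw, h1⟩ | ⟨h1, h2⟩
        · refine ⟨w, hw, ?_, h1⟩
          exact fm12_arc_pt e h' ht w (by rw [← heq, h1])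
        · rcases fm12_edge e h' ht with ⟨w, hw, h3⟩ | ⟨h3, h4⟩
          · exact absurd (heq.trans h3) (h2 w)
          · exfalso
            apply hne
            rw [← heq, ← h1] at h3
            have h5 : Sym2.map (fm12_c e) s(u, v) = Sym2.map (fm12_c e) s(u', v') := by
              simpa using h3.symm
            exact Sym2.map.injective (fm12_c_injective e) h5
      locally_finite := by
        intro z _
        refine ⟨Metric.ball z 1, Metric.ball_mem_nhds z one_pos, ?_, ?_⟩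
        · refine (fm12_finite e z 1).subset ?_
          intro v hv
          rw [Set.mem_ofPred_eq, Metric.mem_ball, Prod.dist_eq, max_lt_iff, Real.dist_eq,
            Real.dist_eq] at hv
          exact ⟨hv.1.le, hv.2.le⟩
        · refine ((fm12_finite e z 2).prod (fm12_finite e z 2)).subset ?_
          rintro ⟨a, b⟩ ⟨hab, q, ⟨t, ht, rfl⟩, hq⟩
          rw [Metric.mem_ball, Prod.dist_eq, max_lt_iff, Real.dist_eq, Real.dist_eq] at hq
          obtain ⟨⟨h1, h2⟩, ⟨h3, h4⟩⟩ := fm12_near e hab ht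
          have htri : ∀ x y w : ℝ, |x - y| ≤ 1 → |y - w| < 1 → |x - w| ≤ 2 := by
            intro x y w hxy hyw
            have := abs_sub_le x y w
            linarith
          exact ⟨⟨htri _ _ _ h1 hq.1, htri _ _ _ h2 hq.2⟩,
            ⟨htri _ _ _ h3 hq.1, htri _ _ _ h4 hq.2⟩⟩ }

end plane

end Pool.Agent.Lib.MP_0f7bfe_al
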