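import Pool.Agent.Lib.MP_0f7bfe_al.Defs

open scoped Pointwise

namespace Pool.Agent.Lib.MP_0f7bfe_al

universe u v

section coset
variable {G : Type u} [Group G]

theorem fm3_linked_mono {T T' B B' : Set G} (hT : T ⊆ T') (hB : B ⊆ B') {x y : G}
    (h : Linked T B x y) : Linked T' B' x y := by
  induction h with
  | refl => exact Relation.ReflTransGen.refl
  | tail _ h ih =>
    exact ih.tail ⟨hB h.1, hB h.2.1, h.2.2.imp (fun h => hT h) (fun h => hT h)⟩

theorem fm3_linked_smul {T B : Set G} (a : G) {x y : G} (h : Linked T B x y) :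
    Linked T {g | a⁻¹ * g ∈ B} (a * x) (a * y) := by
  induction h with
  | refl => exact Relation.ReflTransGen.refl
  | tail _ h ih =>
    refine ih.tail ⟨?_, ?_, ?_⟩
    · simpa using h.1
    · simpa using h.2.1
    · have e : ∀ u v : G, (a * u)⁻¹ * (a * v) = u⁻¹ * v := fun u v => by group
      rw [e, e]
      exact h.2.2

theorem fm3_chain (TN : Set G) {d : G} (hd : d ∈ Subgroup.closure TN) :
    ∃ E : Set G, E.Finite ∧ E ⊆ Subgroup.closure TN ∧ (1 : G) ∈ E ∧ d ∈ E ∧ Linked TN E 1 d := by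
  induction hd using Subgroup.closure_induction_right with
  | one =>
    exact ⟨{1}, Set.finite_singleton _, by simp, rfl, rfl,
      Relation.ReflTransGen.refl⟩
  | mul_right x hx y hy ih =>
    obtain ⟨E, hE, hEN, h1, hxE, hl⟩ := ih
    refine ⟨insert (x * y) E, hE.insert _, ?_, Or.inr h1, Or.inl rfl, ?_⟩
    · rintro g (rfl | hg)
      · exact mul_mem hx (Subgroup.subset_closure hy)
      · exact hEN hg
    · refine (fm3_linked_mono subset_rfl (Set.subset_insert _ _) hl).tail ⟨Or.inr hxE, Or.inl rfl, ?_⟩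
      left
      simpa using hy
  | mul_inv_cancel x hx y hy ih =>
    obtain ⟨E, hE, hEN, h1, hxE, hl⟩ := ih
    refine ⟨insert (x * y⁻¹) E, hE.insert _, ?_, Or.inr h1, Or.inl rfl, ?_⟩
    · rintro g (rfl | hg)
      · exact mul_mem hx (inv_mem (Subgroup.subset_closure hy))
      · exact hEN hg
    · refine (fm3_linked_mono subset_rfl (Set.subset_insert _ _) hl).tail ⟨Or.inr hxE, Or.inl rfl, ?_⟩
      right
      simpa using hy

/-- FM3b: elements of a fixed finite subset of `N` are joined inside the coset by chains of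
bounded shape. -/
theorem link_in_coset (N : Subgroup G) (TN : Set G) (hgN : Subgroup.closure TN = N)
    (D : Set G) (hD : D.Finite) (hDN : D ⊆ N) :
    ∃ E : Set G, E.Finite ∧ (1 : G) ∈ E ∧ D ⊆ E ∧ E ⊆ N ∧
      ∀ (a b : G), a⁻¹ * b ∈ D → Linked TN {g | a⁻¹ * g ∈ E} a b := by
  subst hgN
  have H : ∀ d : G, ∃ E : Set G, E.Finite ∧ E ⊆ Subgroup.closure TN ∧ (1 : G) ∈ E ∧
      (d ∈ Subgroup.closure TN → d ∈ E ∧ Linked TN E 1 d) := by
    intro d
    by_cases hd : d ∈ Subgroup.closure TN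
    · obtain ⟨E, h1, h2, h3, h4, h5⟩ := fm3_chain TN hd
      exact ⟨E, h1, h2, h3, fun _ => ⟨h4, h5⟩⟩
    · exact ⟨{1}, Set.finite_singleton _, by simp, rfl, fun h => absurd h hd⟩
  choose E hEf hEN hE1 hE using H
  refine ⟨{1} ∪ ⋃ d ∈ D, E d, (Set.finite_singleton _).union (hD.biUnion fun d _ => hEf d),
    Or.inl rfl, ?_, ?_, ?_⟩
  · intro d hd
    exact Or.inr (Set.mem_biUnion hd (hE d (hDN hd)).1)
  · rintro g (hg | hg)
    · rw [Set.mem_singleton_iff] at hg
      subst hg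
      exact one_mem _
    · simp only [Set.mem_iUnion] at hg
      obtain ⟨d, hd, hg⟩ := hg
      exact hEN d hg
  · intro a b hab
    have h := fm3_linked_smul a (hE _ (hDN hab)).2
    rw [mul_one, mul_inv_cancel_left] at h
    refine fm3_linked_mono subset_rfl ?_ h
    intro g hg
    exact Or.inr (Set.mem_biUnion hab hg)

theorem fm3_step (N : Subgroup G) (hN : Commensurated N) (TN T : Set G)
    (hgN : Subgroup.closure TN = N) (g0 s : G) (hs : s ∈ T ∨ s⁻¹ ∈ T) :
    ∃ E : Set G, E.Finite ∧ ∀ h : G, (h : G ⧸ N) = (g0 : G ⧸ N) →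
      ∃ h' : G, (h' : G ⧸ N) = ((g0 * s : G) : G ⧸ N) ∧
      h⁻¹ * h' ∈ E ∧ h⁻¹ * h ∈ E ∧
      Linked (TN ∪ T) {g | h⁻¹ * g ∈ E ∧ ((g : G ⧸ N) = (g0 : G ⧸ N) ∨
        (g : G ⧸ N) = ((g0 * s : G) : G ⧸ N))} h h' := by
  classical
  set H : Subgroup N := (N.map (MulAut.conj s).toMonoidHom).subgroupOf N with hH
  have hidx : H.index ≠ 0 := hN s
  have : Finite (N ⧸ H) := by
    have : H.FiniteIndex := ⟨hidx⟩
    infer_instance
  let R : Set G := Set.range (fun q : N ⧸ H => ((Quotient.out q : N) : G))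
  have hR : R.Finite := Set.finite_range _
  have hRN : R ⊆ N := by
    rintro _ ⟨q, rfl⟩
    exact (Quotient.out q : N).2
  obtain ⟨E0, hE0, h1, hD, hEN, hl⟩ := link_in_coset N TN hgN R hR hRN
  refine ⟨E0 ∪ (fun r => r * s) '' R, hE0.union (hR.image _), ?_⟩
  intro h hh
  have hn : g0⁻¹ * h ∈ N := QuotientGroup.eq.1 hh.symm
  set n : N := ⟨g0⁻¹ * h, hn⟩ with hndef
  set r : N := Quotient.out (QuotientGroup.mk n⁻¹ : N ⧸ H) with hr
  have hrR : (r : G) ∈ R := ⟨_, rfl⟩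
  have hmem : n * r ∈ H := by
    have : (QuotientGroup.mk n⁻¹ : N ⧸ H) = QuotientGroup.mk r := by
      rw [hr]
      exact (Quotient.out_eq _).symm
    have := QuotientGroup.eq.1 this
    simpa using this
  have hmem2 : s⁻¹ * ((n : G) * r) * s ∈ N := by
    have h3 : ((n * r : N) : G) ∈ N.map (MulAut.conj s).toMonoidHom := hmem
    obtain ⟨m, hm, hme⟩ := h3
    have h4 : s * m * s⁻¹ = (n : G) * r := by simpa using hme
    rw [← h4]
    have : s⁻¹ * (s * m * s⁻¹) * s = m := by group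
    rw [this]
    exact hm
  have hx : ∀ e ∈ N, ((h * e : G) : G ⧸ N) = (g0 : G ⧸ N) := by
    intro e he
    rw [← hh, eq_comm, QuotientGroup.eq]
    simpa using he
  have hy : ((h * r * s : G) : G ⧸ N) = ((g0 * s : G) : G ⧸ N) := by
    rw [eq_comm, QuotientGroup.eq]
    have : (g0 * s)⁻¹ * (h * r * s) = s⁻¹ * ((n : G) * r) * s := by
      simp only [hndef]
      group
    rw [this]
    exact hmem2
  have hhr : h⁻¹ * (h * r * s) = r * s := by group
  refine ⟨h * r * s, hy, ?_, ?_, ?_⟩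
  · rw [hhr]
    exact Or.inr ⟨r, hrR, rfl⟩
  · rw [inv_mul_cancel]
    exact Or.inl h1
  · have l1 : Linked (TN ∪ T) {g | h⁻¹ * g ∈ E0 ∪ (fun r => r * s) '' R ∧
        ((g : G ⧸ N) = (g0 : G ⧸ N) ∨ (g : G ⧸ N) = ((g0 * s : G) : G ⧸ N))} h (h * r) := by
      refine fm3_linked_mono Set.subset_union_left ?_ (hl h (h * r) (by simpa using hrR))
      intro g hg
      refine ⟨Or.inl hg, Or.inl ?_⟩
      have := hx _ (hEN hg)
      rwa [mul_inv_cancel_left] at this
    refine l1.tail ⟨⟨Or.inl ?_, Or.inl ?_⟩, ⟨Or.inr ?_, Or.inr hy⟩, ?_⟩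
    · simpa using hD hrR
    · exact hx _ r.2
    · rw [hhr]
      exact ⟨r, hrR, rfl⟩
    · have e1 : (h * r)⁻¹ * (h * r * s) = s := by group
      have e2 : (h * r * s)⁻¹ * (h * r) = s⁻¹ := by group
      rw [e1, e2]
      rcases hs with hs | hs
      · exact Or.inl (Or.inr hs)
      · exact Or.inr (Or.inr hs)

/-- FM3: lifting of walks of cosets -/
theorem lift_walk (N : Subgroup G) (hN : Commensurated N) (TN T : Set G) (hTN : TN.Finite)
    (hT : T.Finite) (hgN : Subgroup.closure TN = N) (hgen : Subgroup.closure T = ⊤)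
    {x y : G ⧸ N} (p : (cosetGraph N T).Walk x y) :
    ∃ E : Set G, E.Finite ∧ ∀ h : G, (h : G ⧸ N) = x → ∃ h' : G, (h' : G ⧸ N) = y ∧
      h⁻¹ * h' ∈ E ∧ h⁻¹ * h ∈ E ∧
      Linked (TN ∪ T) {g | h⁻¹ * g ∈ E ∧ (g : G ⧸ N) ∈ p.support} h h' := by
  induction p with
  | nil =>
    refine ⟨{1}, Set.finite_singleton _, fun h hh => ⟨h, hh, ?_, ?_, Relation.ReflTransGen.refl⟩⟩
    · simp
    · simp
  | @cons x z y hadj p ih =>
    obtain ⟨E2, hE2, ih⟩ := ih
    have hst : ∃ g0 s : G, (s ∈ T ∨ s⁻¹ ∈ T) ∧ (g0 : G ⧸ N) = x ∧ ((g0 * s : G) : G ⧸ N) = z := by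
      rw [cosetGraph, SimpleGraph.fromRel_adj] at hadj
      rcases hadj.2 with ⟨g, s, hs, h1, h2⟩ | ⟨g, s, hs, h1, h2⟩
      · exact ⟨g, s, Or.inl hs, h1, h2⟩
      · refine ⟨g * s, s⁻¹, Or.inr (by simpa using hs), h2, ?_⟩
        rw [mul_inv_cancel_right]
        exact h1
    obtain ⟨g0, s, hs, hx, hz⟩ := hst
    obtain ⟨E1, hE1, h1⟩ := fm3_step N hN TN T hgN g0 s hs
    refine ⟨E1 ∪ E1 * E2, hE1.union (hE1.mul hE2), ?_⟩
    intro h hh
    obtain ⟨h', ha, hb, hc, hd⟩ := h1 h (hh.trans hx.symm)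
    obtain ⟨h'', ha', hb', hc', hd'⟩ := ih h' (ha.trans hz)
    refine ⟨h'', ha', Or.inr ?_, Or.inl hc, ?_⟩
    · have : h⁻¹ * h'' = (h⁻¹ * h') * (h'⁻¹ * h'') := by group
      rw [this]
      exact Set.mul_mem_mul hb hb'
    · refine Relation.ReflTransGen.trans (b := h') ?_ ?_
      · refine fm3_linked_mono subset_rfl ?_ hd
        rintro g ⟨hg1, hg2⟩
        refine ⟨Or.inl hg1, ?_⟩
        rw [SimpleGraph.Walk.support_cons]
        rcases hg2 with hg2 | hg2
        · rw [hg2, hx]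
          exact List.mem_cons_self
        · rw [hg2, hz]
          exact List.mem_cons_of_mem _ p.start_mem_support
      · refine fm3_linked_mono subset_rfl ?_ hd'
        rintro g ⟨hg1, hg2⟩
        refine ⟨Or.inr ?_, ?_⟩
        · have : h⁻¹ * g = (h⁻¹ * h') * (h'⁻¹ * g) := by group
          rw [this]
          exact Set.mul_mem_mul hb hg1
        · rw [SimpleGraph.Walk.support_cons]
          exact List.mem_cons_of_mem _ hg2

end coset

end Pool.Agent.Lib.MP_0f7bfe_al
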