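import Pool.Agent.Lib.MP_0f7bfe_al.Defs

open scoped Pointwise

namespace Pool.Agent.Lib.MP_0f7bfe_al

universe u v

section coset
variable {G : Type u} [Group G]

/-- the double coset `N s N` is a finite union of left cosets -/
theorem fm4_double_finite (N : Subgroup G) (hN : Commensurated N) (s : G) :
    {y : G ⧸ N | ∃ n ∈ N, ((n * s : G) : G ⧸ N) = y}.Finite := by
  classical
  let M : Subgroup G := N.map (MulAut.conj s).toMonoidHom
  have hfin : Finite (N ⧸ (M.subgroupOf N)) := by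
    have h := hN s
    rw [Subgroup.relIndex] at h
    have hfi : (M.subgroupOf N).FiniteIndex := ⟨h⟩
    infer_instance
  let f : (N ⧸ (M.subgroupOf N)) → G ⧸ N := fun q =>
    Quotient.liftOn' q (fun n : N => (((n : G) * s : G) : G ⧸ N)) (by
      intro a b hab
      rw [QuotientGroup.leftRel_apply] at hab
      have h1 : ((a⁻¹ * b : N) : G) ∈ M := hab
      obtain ⟨m, hm, hms⟩ := h1
      rw [QuotientGroup.eq]
      have h2 : s * m * s⁻¹ = (a : G)⁻¹ * b := by simpa using hms
      have h3 : ((a : G) * s)⁻¹ * ((b : G) * s) = m := by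
        have : ((a : G) * s)⁻¹ * ((b : G) * s) = s⁻¹ * ((a : G)⁻¹ * b) * s := by group
        rw [this, ← h2]
        group
      rw [h3]
      exact hm)
  refine (Set.finite_range f).subset ?_
  rintro y ⟨n, hn, rfl⟩
  exact ⟨((⟨n, hn⟩ : N) : N ⧸ (M.subgroupOf N)), rfl⟩

theorem fm4_coset_adj (N : Subgroup G) (T : Set G) (x y : G ⧸ N) :
    (cosetGraph N T).Adj x y ↔ x ≠ y ∧
      ((∃ g : G, ∃ s ∈ T, (g : G ⧸ N) = x ∧ ((g * s : G) : G ⧸ N) = y) ∨
      (∃ g : G, ∃ s ∈ T, (g : G ⧸ N) = y ∧ ((g * s : G) : G ⧸ N) = x)) := by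
  rw [cosetGraph, SimpleGraph.fromRel_adj]

theorem fm4_reach (N : Subgroup G) (T : Set G) (g : G) (hg : g ∈ Subgroup.closure T) :
    ∀ h : G, (cosetGraph N T).Reachable (h : G ⧸ N) ((h * g : G) : G ⧸ N) := by
  induction hg using Subgroup.closure_induction with
  | mem s hs =>
    intro h
    by_cases heq : (h : G ⧸ N) = ((h * s : G) : G ⧸ N)
    · rw [← heq]
    · exact SimpleGraph.Adj.reachable ((fm4_coset_adj N T _ _).2
        ⟨heq, Or.inl ⟨h, s, hs, rfl, rfl⟩⟩)
  | one =>
    intro h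
    rw [mul_one]
  | mul a b _ _ ha hb =>
    intro h
    have h1 := (ha h).trans (hb (h * a))
    rwa [mul_assoc] at h1
  | inv a _ ha =>
    intro h
    have h1 := ha (h * a⁻¹)
    rw [mul_assoc, inv_mul_cancel, mul_one] at h1
    exact h1.symm

/-- FM4 -/
theorem cosetGraph_homog (N : Subgroup G) (hN : Commensurated N) (T : Set G) (hT : T.Finite)
    (hgen : Subgroup.closure T = ⊤) : Homog G (cosetGraph N T) where
  conn := by
    have hne : Nonempty (G ⧸ N) := ⟨((1 : G) : G ⧸ N)⟩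
    refine SimpleGraph.Connected.mk ?_
    intro x y
    obtain ⟨a, rfl⟩ := QuotientGroup.mk_surjective x
    obtain ⟨b, rfl⟩ := QuotientGroup.mk_surjective y
    have h1 := fm4_reach N T (a⁻¹ * b) (by rw [hgen]; exact Subgroup.mem_top _) a
    rwa [mul_inv_cancel_left] at h1
  lf := by
    intro x
    obtain ⟨a, rfl⟩ := QuotientGroup.mk_surjective x
    have hfin : (⋃ s ∈ T, ((fun z : G ⧸ N => a • z) ''
        {y : G ⧸ N | ∃ n ∈ N, ((n * s : G) : G ⧸ N) = y} ∪ (fun z : G ⧸ N => a • z) ''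
        {y : G ⧸ N | ∃ n ∈ N, ((n * s⁻¹ : G) : G ⧸ N) = y})).Finite :=
      hT.biUnion fun s _ => ((fm4_double_finite N hN s).image _).union
        ((fm4_double_finite N hN s⁻¹).image _)
    refine hfin.subset ?_
    intro y hy
    have hy' := (fm4_coset_adj N T _ _).1 hy
    rw [Set.mem_iUnion₂]
    rcases hy'.2 with ⟨g, s, hs, hg, hgs⟩ | ⟨g, s, hs, hg, hgs⟩
    · refine ⟨s, hs, Or.inl ⟨((a⁻¹ * g * s : G) : G ⧸ N), ⟨a⁻¹ * g, ?_, rfl⟩, ?_⟩⟩
      · exact QuotientGroup.eq.1 hg.symm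
      · change ((a * (a⁻¹ * g * s) : G) : G ⧸ N) = y
        rw [← hgs]
        congr 1
        group
    · refine ⟨s, hs, Or.inr ⟨((a⁻¹ * (g * s) * s⁻¹ : G) : G ⧸ N), ⟨a⁻¹ * (g * s), ?_, rfl⟩, ?_⟩⟩
      · exact QuotientGroup.eq.1 hgs.symm
      · change ((a * (a⁻¹ * (g * s) * s⁻¹) : G) : G ⧸ N) = y
        rw [← hg]
        congr 1
        group
  inv := by
    intro g x y h
    rw [fm4_coset_adj] at h ⊢
    refine ⟨fun he => h.1 (smul_left_cancel g he), ?_⟩
    rcases h.2 with ⟨b, s, hs, rfl, rfl⟩ | ⟨b, s, hs, rfl, rfl⟩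
    · refine Or.inl ⟨g * b, s, hs, rfl, ?_⟩
      rw [mul_assoc]
      rfl
    · refine Or.inr ⟨g * b, s, hs, rfl, ?_⟩
      rw [mul_assoc]
      rfl
  trans := fun x y => MulAction.exists_smul_eq G x y

theorem fm4_reach_cayley (T : Set G) (g : G) (hg : g ∈ Subgroup.closure T) :
    ∀ h : G, (SimpleGraph.mulCayley T).Reachable h (h * g) := by
  induction hg using Subgroup.closure_induction with
  | mem s hs =>
    intro h
    by_cases heq : h = h * s
    · rw [← heq]
    · refine SimpleGraph.Adj.reachable ?_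
      rw [SimpleGraph.mulCayley_adj]
      refine ⟨heq, Or.inl ?_⟩
      rwa [inv_mul_cancel_left]
  | one =>
    intro h
    rw [mul_one]
  | mul a b _ _ ha hb =>
    intro h
    have h1 := (ha h).trans (hb (h * a))
    rwa [mul_assoc] at h1
  | inv a _ ha =>
    intro h
    have h1 := ha (h * a⁻¹)
    rw [mul_assoc, inv_mul_cancel, mul_one] at h1
    exact h1.symm

/-- FM4b -/
theorem fm4_cayley_homog (T : Set G) (hT : T.Finite) (hgen : Subgroup.closure T = ⊤) :
    Homog G (SimpleGraph.mulCayley T) where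
  conn := by
    have hne : Nonempty G := ⟨1⟩
    refine SimpleGraph.Connected.mk ?_
    intro a b
    have h1 := fm4_reach_cayley T (a⁻¹ * b) (by rw [hgen]; exact Subgroup.mem_top _) a
    rwa [mul_inv_cancel_left] at h1
  lf := by
    intro x
    have hfin : ((fun s => x * s) '' T ∪ (fun s => x * s⁻¹) '' T).Finite :=
      (hT.image _).union (hT.image _)
    refine hfin.subset ?_
    intro y hy
    have hy' := (SimpleGraph.mulCayley_adj T x y).1 hy
    rcases hy'.2 with h | h
    · exact Or.inl ⟨x⁻¹ * y, h, by simp⟩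
    · exact Or.inr ⟨y⁻¹ * x, h, by simp⟩
  inv := by
    intro g x y h
    rw [smul_eq_mul, smul_eq_mul]
    exact SimpleGraph.mulCayley_adj_mul_iff_right.2 h
  trans := fun x y => MulAction.exists_smul_eq G x y

end coset

end Pool.Agent.Lib.MP_0f7bfe_al
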