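import Pool.Agent.Lib.MP_0f7bfe_al.FM1
import Pool.Agent.Lib.MP_0f7bfe_al.FM3
import Pool.Agent.Lib.MP_0f7bfe_al.FM4

open scoped Pointwise

namespace Pool.Agent.Lib.MP_0f7bfe_al

universe u v

section coset
variable {G : Type u} [Group G]

/-- greedy selection of far apart elements of infinite sets -/
theorem fm5_select {I X : Type*} [Finite I] (A : I → Set X) (hA : ∀ i, (A i).Infinite)
    (R : X → X → Prop) (hR : ∀ x, {y | R x y ∨ R y x}.Finite) :
    ∃ h : I → X, (∀ i, h i ∈ A i) ∧ ∀ i j, i ≠ j → ¬ R (h i) (h j) := by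
  classical
  have key : ∀ s : Finset I, ∃ h : I → X, (∀ i, h i ∈ A i) ∧
      ∀ i ∈ s, ∀ j ∈ s, i ≠ j → ¬ R (h i) (h j) := by
    intro s
    induction s using Finset.induction_on with
    | empty =>
      exact ⟨fun i => (hA i).nonempty.some, fun i => (hA i).nonempty.some_mem, by simp⟩
    | insert a s ha ih =>
      obtain ⟨h, h1, h2⟩ := ih
      have hfin : (⋃ i ∈ s, {y | R (h i) y ∨ R y (h i)}).Finite :=
        s.finite_toSet.biUnion fun i _ => hR _
      obtain ⟨x, hx, hx'⟩ := ((hA a).sdiff hfin).nonempty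
      have hx2 : ∀ i ∈ s, ¬ (R (h i) x ∨ R x (h i)) := by
        intro i hi hc
        exact hx' (Set.mem_biUnion (show i ∈ (s : Set I) from hi) hc)
      refine ⟨Function.update h a x, ?_, ?_⟩
      · intro i
        by_cases hi : i = a
        · subst hi
          rw [Function.update_self]
          exact hx
        · rw [Function.update_of_ne hi]
          exact h1 i
      · intro i hi j hj hij
        rw [Finset.mem_insert] at hi hj
        by_cases hia : i = a
        · subst hia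
          have hjs : j ∈ s := hj.resolve_left (fun h => hij h.symm)
          rw [Function.update_self, Function.update_of_ne (fun h => hij h.symm)]
          exact fun hc => hx2 j hjs (Or.inr hc)
        · have his : i ∈ s := hi.resolve_left hia
          by_cases hja : j = a
          · subst hja
            rw [Function.update_self, Function.update_of_ne hij]
            exact fun hc => hx2 i his (Or.inl hc)
          · have hjs : j ∈ s := hj.resolve_left hja
            rw [Function.update_of_ne hia, Function.update_of_ne hja]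
            exact h2 i his j hjs hij
  cases nonempty_fintype I
  obtain ⟨h, h1, h2⟩ := key Finset.univ
  exact ⟨h, h1, fun i j hij => h2 i (Finset.mem_univ _) j (Finset.mem_univ _) hij⟩

theorem fm5_linked_mono {T T' B B' : Set G} (hT : T ⊆ T') (hB : B ⊆ B') {x y : G}
    (h : Linked T B x y) : Linked T' B' x y := by
  induction h with
  | refl => exact Relation.ReflTransGen.refl
  | tail _ h ih =>
    exact ih.tail ⟨hB h.1, hB h.2.1, h.2.2.imp (fun h => hT h) (fun h => hT h)⟩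

/-- a bound on the distance of cosets -/
theorem fm5_dist_bound (N : Subgroup G) (hN : Commensurated N) (T : Set G) (hT : T.Finite)
    (hgen : Subgroup.closure T = ⊤) (F : Set G) (hF : F.Finite) :
    ∃ K : ℕ, ∀ g h : G, g⁻¹ * h ∈ F → (cosetGraph N T).dist (g : G ⧸ N) (h : G ⧸ N) ≤ K := by
  obtain ⟨K, hK⟩ := (hF.image (fun f : G => (cosetGraph N T).dist ((1 : G) : G ⧸ N)
    (f : G ⧸ N))).bddAbove
  refine ⟨K, fun g h hgh => ?_⟩
  have h1 := hK ⟨g⁻¹ * h, hgh, rfl⟩
  have h2 := (cosetGraph_homog N hN T hT hgen).dist_smul g ((1 : G) : G ⧸ N)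
    ((g⁻¹ * h : G) : G ⧸ N)
  have e1 : g • ((1 : G) : G ⧸ N) = ((g : G) : G ⧸ N) := by
    change ((g * 1 : G) : G ⧸ N) = _
    rw [mul_one]
  have e2 : g • ((g⁻¹ * h : G) : G ⧸ N) = ((h : G) : G ⧸ N) := by
    change ((g * (g⁻¹ * h) : G) : G ⧸ N) = _
    rw [mul_inv_cancel_left]
  rw [e1, e2] at h2
  rw [h2]
  exact h1

/-- FM5: case A -/
theorem allCliques_of_pods_coset (N : Subgroup G) (hN : Commensurated N) (hinf : Infinite N)
    (TN T : Set G) (hTN : TN.Finite) (hT : T.Finite) (hgN : Subgroup.closure TN = N)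
    (hgen : Subgroup.closure T = ⊤) (hP : Pods (cosetGraph N T)) : AllCliques G := by
  classical
  refine ⟨TN ∪ T, hTN.union hT, fun n F hF => ?_⟩
  obtain ⟨K, hK⟩ := fm5_dist_bound N hN T hT hgen F hF
  obtain ⟨q, hq1, hq2⟩ := hP n K
  choose p hp using hq2
  have hlift : ∀ u v, ∃ E : Set G, E.Finite ∧ ∀ h : G, (h : G ⧸ N) = q u →
      ∃ h' : G, (h' : G ⧸ N) = q v ∧ h⁻¹ * h' ∈ E ∧ h⁻¹ * h ∈ E ∧
      Linked (TN ∪ T) {g | h⁻¹ * g ∈ E ∧ (g : G ⧸ N) ∈ (p u v).support} h h' :=
    fun u v => lift_walk N hN TN T hTN hT hgN hgen (p u v)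
  choose E hE1 hE2 using hlift
  set Et : Set G := ⋃ u, ⋃ v, E u v with hEt
  have hEtf : Et.Finite := Set.finite_iUnion fun u => Set.finite_iUnion fun v => hE1 u v
  have hEsub : ∀ u v, E u v ⊆ Et := by
    intro u v x hx
    exact Set.mem_iUnion.2 ⟨u, Set.mem_iUnion.2 ⟨v, hx⟩⟩
  set F' : Set G := Et * F * Et⁻¹ with hF'
  have hF'f : F'.Finite := (hEtf.mul hF).mul hEtf.inv
  -- the cosets are infinite
  have hcos : ∀ x : G ⧸ N, {g : G | (g : G ⧸ N) = x}.Infinite := by
    intro x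
    induction x using QuotientGroup.induction_on with
    | H a =>
      have hNinf : (N : Set G).Infinite := Set.infinite_coe_iff.1 hinf
      refine (hNinf.image (f := fun n => a * n) (fun _ _ _ _ h => mul_left_cancel h)).mono ?_
      rintro _ ⟨n, hn, rfl⟩
      show ((a * n : G) : G ⧸ N) = (a : G ⧸ N)
      rw [eq_comm, QuotientGroup.eq]
      simpa using hn
  obtain ⟨h, hh1, hh2⟩ := fm5_select (I := Fin n × Fin n)
    (fun i => {g : G | (g : G ⧸ N) = q i.1}) (fun i => hcos _)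
    (fun x y => x⁻¹ * y ∈ F') (by
      intro x
      have h1 : ((fun d => x * d) '' F').Finite := hF'f.image _
      have h2 : ((fun d => x * d⁻¹) '' F').Finite := hF'f.image _
      refine (h1.union h2).subset ?_
      rintro y (hy | hy)
      · exact Or.inl ⟨_, hy, by simp⟩
      · exact Or.inr ⟨_, hy, by simp⟩)
  have hh1' : ∀ u v, ((h (u, v) : G) : G ⧸ N) = q u := fun u v => hh1 (u, v)
  refine ⟨{
    B := fun v => {g | (g : G ⧸ N) = q v}
    P := fun u v => {g | (h (u, v))⁻¹ * g ∈ E u v ∧ (g : G ⧸ N) ∈ (p u v).support}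
    ne := fun v => (hcos _).nonempty
    conn := ?_
    path := ?_
    farBB := ?_
    farPP := ?_
    farPB := ?_ }⟩
  · intro v x hx y hy
    have hxy : x⁻¹ * y ∈ N := QuotientGroup.eq.1 (hx.trans hy.symm)
    obtain ⟨E0, -, -, -, h4, h5⟩ := link_in_coset N TN hgN {x⁻¹ * y} (Set.finite_singleton _)
      (by simpa using hxy)
    refine fm5_linked_mono Set.subset_union_left ?_ (h5 x y rfl)
    intro g hg
    show ((g : G) : G ⧸ N) = q v
    rw [← show ((x : G) : G ⧸ N) = q v from hx, eq_comm, QuotientGroup.eq]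
    exact h4 hg
  · intro u v _
    obtain ⟨h', h1, h2, h3, h4⟩ := hE2 u v (h (u, v)) (hh1' u v)
    refine ⟨h (u, v), hh1' u v, h', h1, ⟨h3, ?_⟩, ⟨h2, ?_⟩, h4⟩
    · rw [hh1' u v]
      exact (p u v).start_mem_support
    · rw [h1]
      exact (p u v).end_mem_support
  · intro u v huv x hx y hy hF0
    have h1 := hK x y hF0
    rw [show ((x : G) : G ⧸ N) = q u from hx, show ((y : G) : G ⧸ N) = q v from hy] at h1
    exact absurd (hq1 u v huv) (not_lt.2 h1)
  · intro u v u' v' _ _ hne x hx y hy hF0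
    apply hh2 (u, v) (u', v') hne
    show (h (u, v))⁻¹ * h (u', v') ∈ F'
    have e : (h (u, v))⁻¹ * h (u', v') =
        ((h (u, v))⁻¹ * x) * (x⁻¹ * y) * ((h (u', v'))⁻¹ * y)⁻¹ := by group
    rw [e]
    exact Set.mul_mem_mul (Set.mul_mem_mul (hEsub _ _ hx.1) hF0)
      (Set.inv_mem_inv.2 (hEsub _ _ hy.1))
  · intro u v w _ hwu hwv x hx y hy hF0
    have h1 := hK x y hF0
    rw [show ((y : G) : G ⧸ N) = q w from hy] at h1
    exact absurd (hp u v w hwu hwv _ hx.2) (not_lt.2 h1)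
--FM6-BEGIN
theorem fm6_linked_symm {T B : Set G} {x y : G} (h : Linked T B x y) : Linked T B y x := by
  induction h with
  | refl => exact Relation.ReflTransGen.refl
  | tail _ h ih => exact Relation.ReflTransGen.head ⟨h.2.1, h.1, h.2.2.symm⟩ ih

/-- the component of `a` in `B` is connected -/
theorem fm6_linked_comp {T B : Set G} {a x : G} (h : Linked T B a x) :
    Linked T {g | Linked T B a g} a x := by
  induction h with
  | refl => exact Relation.ReflTransGen.refl
  | tail h1 h ih => exact ih.tail ⟨h1, h1.tail h, h.2.2⟩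

/-- FM6: case B -/
theorem allCliques_of_pods_subgroup (N : Subgroup G) (hN : Commensurated N)
    (hidx : Infinite (G ⧸ N)) (TN : Set N) (T : Set G) (hTN : TN.Finite) (hT : T.Finite)
    (hgN : Subgroup.closure TN = ⊤) (hgen : Subgroup.closure T = ⊤)
    (hP : Pods (SimpleGraph.mulCayley TN)) : AllCliques G := by
  classical
  set TG : Set G := Subtype.val '' TN with hTG
  have hTGf : TG.Finite := hTN.image _
  have hgN' : Subgroup.closure TG = N := by
    have h1 : (Subgroup.closure TN).map N.subtype = Subgroup.closure TG := by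
      rw [MonoidHom.map_closure]
      rfl
    rw [← h1, hgN]
    ext x
    simp
  refine ⟨TG ∪ T, hTGf.union hT, fun n F hF => ?_⟩
  obtain ⟨K, hK⟩ := fm5_dist_bound N hN T hT hgen F hF
  have hcos := cosetGraph_homog N hN T hT hgen
  have hcay := cayley_homog (G := N) TN hTN hgN
  -- far apart cosets
  obtain ⟨c, -, hc⟩ := fm5_select (I := Fin n × Fin n) (X := G ⧸ N)
    (fun _ => Set.univ) (fun _ => Set.infinite_univ)
    (fun x y => (cosetGraph N T).dist x y ≤ K) (by
      intro x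
      refine (hcos.ball_finite x K).subset ?_
      rintro y (hy | hy)
      · exact hy
      · show (cosetGraph N T).dist x y ≤ K
        rw [SimpleGraph.dist_comm]
        exact hy)
  -- walks from `N` to these cosets
  have hlift : ∀ i : Fin n × Fin n, ∃ E : Set G, E.Finite ∧ ∀ h : G, (h : G ⧸ N) = ((1 : G) : G ⧸ N) →
      ∃ h' : G, (h' : G ⧸ N) = c i ∧ h⁻¹ * h' ∈ E ∧ h⁻¹ * h ∈ E ∧
      Linked (TG ∪ T) {g | h⁻¹ * g ∈ E} h h' := by
    intro i
    obtain ⟨p⟩ := hcos.conn.preconnected ((1 : G) : G ⧸ N) (c i)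
    obtain ⟨E, h1, h2⟩ := lift_walk N hN TG T hTGf hT hgN' hgen p
    refine ⟨E, h1, fun h hh => ?_⟩
    obtain ⟨h', a1, a2, a3, a4⟩ := h2 h hh
    exact ⟨h', a1, a2, a3, fm5_linked_mono subset_rfl (fun g hg => hg.1) a4⟩
  choose E hE1 hE2 using hlift
  have hN1 : ∀ x : N, ((x : G) : G ⧸ N) = ((1 : G) : G ⧸ N) := by
    intro x
    rw [eq_comm, QuotientGroup.eq]
    simp
  have hpi : ∀ (i : Fin n × Fin n) (x : N), ∃ h' : G, (h' : G ⧸ N) = c i ∧
      (x : G)⁻¹ * h' ∈ E i ∧ (x : G)⁻¹ * x ∈ E i ∧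
      Linked (TG ∪ T) {g | (x : G)⁻¹ * g ∈ E i} x h' := fun i x => hE2 i x (hN1 x)
  choose π hπ1 hπ2 hπ3 hπ4 using hpi
  -- the differences
  have hD : ∀ i, ∃ E' : Set G, E'.Finite ∧ E' ⊆ N ∧ ∀ x y : N, (x⁻¹ * y ∈ TN ∨ y⁻¹ * x ∈ TN) →
      Linked TG {g | (π i x)⁻¹ * g ∈ E'} (π i x) (π i y) := by
    intro i
    set D : Set G := ((E i)⁻¹ * (TG ∪ TG⁻¹) * E i) ∩ N with hDdef
    have hDf : D.Finite := (((hE1 i).inv.mul (hTGf.union hTGf.inv)).mul (hE1 i)).subset
      Set.inter_subset_left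
    obtain ⟨E', h1, -, -, h4, h5⟩ := link_in_coset N TG hgN' D hDf Set.inter_subset_right
    refine ⟨E', h1, h4, fun x y hxy => h5 _ _ ⟨?_, ?_⟩⟩
    · have e : (π i x)⁻¹ * π i y =
          ((x : G)⁻¹ * π i x)⁻¹ * ((x : G)⁻¹ * y) * ((y : G)⁻¹ * π i y) := by group
      rw [e]
      refine Set.mul_mem_mul (Set.mul_mem_mul (Set.inv_mem_inv.2 (hπ2 i x)) ?_) (hπ2 i y)
      rcases hxy with hxy | hxy
      · exact Or.inl ⟨_, hxy, by simp⟩
      · exact Or.inr ⟨_, hxy, by simp⟩
    · exact QuotientGroup.eq.1 ((hπ1 i x).trans (hπ1 i y).symm)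
  choose E' hE'1 hE'2 hE'3 using hD
  set Et : Set G := {1} ∪ ⋃ i, (E i ∪ E i * E' i) with hEt
  have hEtf : Et.Finite := (Set.finite_singleton _).union
    (Set.finite_iUnion fun i => (hE1 i).union ((hE1 i).mul (hE'1 i)))
  have h1Et : (1 : G) ∈ Et := Or.inl rfl
  have hEsub : ∀ i, E i ⊆ Et := fun i x hx => Or.inr (Set.mem_iUnion.2 ⟨i, Or.inl hx⟩)
  have hEsub' : ∀ i, E i * E' i ⊆ Et := fun i x hx => Or.inr (Set.mem_iUnion.2 ⟨i, Or.inr hx⟩)
  set F' : Set G := Et * F * Et⁻¹ with hF'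
  have hF'f : F'.Finite := (hEtf.mul hF).mul hEtf.inv
  -- the bound in `N`
  obtain ⟨K', hK'⟩ : ∃ K' : ℕ, ∀ x y : N, (x : G)⁻¹ * y ∈ F' →
      (SimpleGraph.mulCayley TN).dist x y ≤ K' := by
    have hpre : {z : N | (z : G) ∈ F'}.Finite := hF'f.preimage (Subtype.val_injective.injOn)
    obtain ⟨K', hK'⟩ := (hpre.image (fun z : N => (SimpleGraph.mulCayley TN).dist 1 z)).bddAbove
    refine ⟨K', fun x y hxy => ?_⟩
    have h1 := hK' ⟨x⁻¹ * y, by simpa using hxy, rfl⟩
    have h2 := hcay.dist_smul x 1 (x⁻¹ * y)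
    simp only [smul_eq_mul, mul_one, mul_inv_cancel_left] at h2
    rw [h2]
    exact h1
  obtain ⟨a, ha1, ha2⟩ := hP n K'
  choose W hW using ha2
  have hBE : ∀ v g, Linked (TG ∪ T) {g | ((a v : N) : G)⁻¹ * g ∈ Et} (a v : G) g →
      ((a v : N) : G)⁻¹ * g ∈ Et := by
    intro v g hg
    induction hg with
    | refl => simpa using h1Et
    | tail _ h _ => exact h.2.1
  have hfar : ∀ x y : N, ∀ g h : G, (x : G)⁻¹ * g ∈ Et → (y : G)⁻¹ * h ∈ Et → g⁻¹ * h ∈ F →
      (SimpleGraph.mulCayley TN).dist x y ≤ K' := by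
    intro x y g h hg hh hF0
    apply hK'
    have e : (x : G)⁻¹ * y = ((x : G)⁻¹ * g) * (g⁻¹ * h) * ((y : G)⁻¹ * h)⁻¹ := by group
    rw [e]
    exact Set.mul_mem_mul (Set.mul_mem_mul hg hF0) (Set.inv_mem_inv.2 hh)
  have hwalk : ∀ (i : Fin n × Fin n) (x y : N) (p : (SimpleGraph.mulCayley TN).Walk x y),
      Linked (TG ∪ T) {g | (g : G ⧸ N) = c i ∧ ∃ z ∈ p.support, (z : G)⁻¹ * g ∈ Et}
        (π i x) (π i y) := by
    intro i x y p
    induction p with
    | nil => exact Relation.ReflTransGen.refl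
    | @cons x z y hadj p ih =>
      have hst : x⁻¹ * z ∈ TN ∨ z⁻¹ * x ∈ TN := by
        rw [SimpleGraph.mulCayley_adj'] at hadj
        obtain ⟨-, g, hg, h | h⟩ := hadj
        · left
          rw [← h]
          simpa using hg
        · right
          rw [h]
          simpa using hg
      refine Relation.ReflTransGen.trans (b := π i z) ?_ ?_
      · refine fm5_linked_mono Set.subset_union_left ?_ (hE'3 i x z hst)
        intro g hg
        refine ⟨?_, x, p.support_cons hadj ▸ List.mem_cons_self, ?_⟩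
        · rw [← hπ1 i x, eq_comm, QuotientGroup.eq]
          exact hE'2 i hg
        · have e : (x : G)⁻¹ * g = ((x : G)⁻¹ * π i x) * ((π i x)⁻¹ * g) := by group
          rw [e]
          exact hEsub' i (Set.mul_mem_mul (hπ2 i x) hg)
      · refine fm5_linked_mono subset_rfl ?_ ih
        rintro g ⟨hg1, w, hw, hg2⟩
        refine ⟨hg1, w, ?_, hg2⟩
        rw [SimpleGraph.Walk.support_cons]
        exact List.mem_cons_of_mem _ hw
  refine ⟨{
    B := fun v => {g | Linked (TG ∪ T) {g | ((a v : N) : G)⁻¹ * g ∈ Et} (a v : G) g}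
    P := fun u v => {g | (g : G ⧸ N) = c (u, v) ∧ ∃ z ∈ (W u v).support, (z : G)⁻¹ * g ∈ Et}
    ne := fun v => ⟨(a v : G), Relation.ReflTransGen.refl⟩
    conn := ?_
    path := ?_
    farBB := ?_
    farPP := ?_
    farPB := ?_ }⟩
  · intro v x hx y hy
    exact (fm6_linked_symm (fm6_linked_comp hx)).trans (fm6_linked_comp hy)
  · intro u v _
    refine ⟨π (u, v) (a u), ?_, π (u, v) (a v), ?_, ⟨hπ1 _ _, a u, (W u v).start_mem_support, ?_⟩,
      ⟨hπ1 _ _, a v, (W u v).end_mem_support, ?_⟩, hwalk (u, v) _ _ (W u v)⟩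
    · refine fm5_linked_mono subset_rfl ?_ (hπ4 (u, v) (a u))
      exact fun g hg => hEsub _ hg
    · refine fm5_linked_mono subset_rfl ?_ (hπ4 (u, v) (a v))
      exact fun g hg => hEsub _ hg
    · exact hEsub _ (hπ2 _ _)
    · exact hEsub _ (hπ2 _ _)
  · intro u v huv x hx y hy hF0
    exact absurd (ha1 u v huv) (not_lt.2 (hfar _ _ _ _ (hBE u x hx) (hBE v y hy) hF0))
  · intro u v u' v' _ _ hne x hx y hy hF0
    apply hc (u, v) (u', v') hne
    have h1 := hK x y hF0
    rwa [hx.1, hy.1] at h1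
  · intro u v w _ hwu hwv x hx y hy hF0
    obtain ⟨-, z, hz, hxz⟩ := hx
    exact absurd (hW u v w hwu hwv z hz) (not_lt.2 (hfar _ _ _ _ hxz (hBE w y hy) hF0))

end coset

end Pool.Agent.Lib.MP_0f7bfe_al
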