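import Pool.Agent.Lib.MP_0f7bfe_al.Basic

open scoped Pointwise

namespace Pool.Agent.Lib.MP_0f7bfe_al

universe u v

/-- walks all of whose vertices satisfy `P` -/
def fm7_R {X : Type u} (G : SimpleGraph X) (P : X → Prop) (x y : X) : Prop :=
  ∃ p : G.Walk x y, ∀ z ∈ p.support, P z

section graph
variable {Γ : Type v} [Group Γ] {X : Type u} [MulAction Γ X] {G : SimpleGraph X}

theorem fm7_refl {P : X → Prop} {x : X} (h : P x) : fm7_R G P x x :=
  ⟨SimpleGraph.Walk.nil, by simpa using h⟩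

theorem fm7_symm {P : X → Prop} {x y : X} (h : fm7_R G P x y) : fm7_R G P y x := by
  obtain ⟨p, hp⟩ := h
  exact ⟨p.reverse, by simpa using hp⟩

theorem fm7_trans {P : X → Prop} {x y z : X} (h : fm7_R G P x y) (h' : fm7_R G P y z) :
    fm7_R G P x z := by
  obtain ⟨p, hp⟩ := h
  obtain ⟨q, hq⟩ := h'
  refine ⟨p.append q, ?_⟩
  intro w hw
  rw [SimpleGraph.Walk.mem_support_append_iff] at hw
  rcases hw with hw | hw
  · exact hp w hw
  · exact hq w hw

theorem fm7_mono {P Q : X → Prop} {x y : X} (h : fm7_R G P x y) (hPQ : ∀ z, P z → Q z) :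
    fm7_R G Q x y := by
  obtain ⟨p, hp⟩ := h
  exact ⟨p, fun z hz => hPQ z (hp z hz)⟩

theorem fm7_adj {P : X → Prop} {x y : X} (h : G.Adj x y) (hx : P x) (hy : P y) : fm7_R G P x y :=
  ⟨SimpleGraph.Walk.cons h SimpleGraph.Walk.nil, by
    intro z hz
    simp at hz
    rcases hz with rfl | rfl
    · exact hx
    · exact hy⟩

theorem fm7_left {P : X → Prop} {x y : X} (h : fm7_R G P x y) : P x := by
  obtain ⟨p, hp⟩ := h
  exact hp x p.start_mem_support

theorem fm7_right {P : X → Prop} {x y : X} (h : fm7_R G P x y) : P y := by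
  obtain ⟨p, hp⟩ := h
  exact hp y p.end_mem_support

/-- from outside `A` one reaches a neighbour of `A` outside `A` -/
theorem fm7_enter {A : Set X} {x a : X} (p : G.Walk x a) (hx : x ∉ A) (ha : a ∈ A) :
    ∃ s, s ∉ A ∧ (∃ a' ∈ A, G.Adj a' s) ∧ fm7_R G (fun z => z ∉ A) s x := by
  induction p with
  | nil => exact absurd ha hx
  | cons hadj q ih =>
    rename_i u v w
    by_cases hv : v ∈ A
    · exact ⟨u, hx, ⟨v, hv, hadj.symm⟩, fm7_refl hx⟩
    · obtain ⟨s, hs1, hs2, hs3⟩ := ih hv ha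
      exact ⟨s, hs1, hs2, fm7_trans hs3 (fm7_adj hadj.symm hv hx)⟩

/-- one-endedness: outside a finite set everything is connected off `A` -/
theorem fm7_claim1 (h : Homog Γ G) (hX : Infinite X) (h1 : OneEnd G) (A : Set X) (hA : A.Finite)
    (hne : A.Nonempty) : ∃ A' : Set X, A'.Finite ∧
      ∀ x y, x ∉ A' → y ∉ A' → fm7_R G (fun z => z ∉ A) x y := by
  classical
  set Y : X → Set X := fun s => {y | fm7_R G (fun z => z ∉ A) s y} with hY
  have hbd : ∀ s, (bdry G (Y s)).Finite := by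
    intro s
    refine (hA.union (hA.biUnion fun a _ => h.lf a)).subset ?_
    rintro z ⟨y, hzy, hiff⟩
    by_cases hz : z ∈ A
    · exact Or.inl hz
    · right
      by_cases hy : y ∈ A
      · simp only [Set.mem_iUnion]
        exact ⟨y, hy, hzy.symm⟩
      · exfalso
        apply hiff
        constructor
        · intro hs
          exact fm7_trans hs (fm7_adj hzy hz hy)
        · intro hs
          exact fm7_trans hs (fm7_adj hzy.symm hy hz)
  set S : Set X := {s | s ∉ A ∧ ∃ a' ∈ A, G.Adj a' s} with hS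
  have hSf : S.Finite := by
    refine (hA.biUnion fun a _ => h.lf a).subset ?_
    rintro s ⟨_, a', ha', hadj⟩
    simp only [Set.mem_iUnion]
    exact ⟨a', ha', hadj⟩
  obtain ⟨a, ha⟩ := hne
  have hcov : ∀ x, x ∉ A → ∃ s ∈ S, x ∈ Y s := by
    intro x hx
    obtain ⟨p⟩ := h.conn.preconnected x a
    obtain ⟨s, hs1, hs2, hs3⟩ := fm7_enter p hx ha
    exact ⟨s, ⟨hs1, hs2⟩, hs3⟩
  have hex : ∃ s ∈ S, ¬ (Y s).Finite := by
    by_contra hcon
    push Not at hcon
    have : (Set.univ : Set X).Finite := by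
      refine (hA.union (hSf.biUnion hcon)).subset ?_
      intro x _
      by_cases hx : x ∈ A
      · exact Or.inl hx
      · right
        obtain ⟨s, hs, hxs⟩ := hcov x hx
        simp only [Set.mem_iUnion]
        exact ⟨s, hs, hxs⟩
    exact Set.infinite_univ this
  obtain ⟨s, _, hinf⟩ := hex
  refine ⟨(Y s)ᶜ, (h1 (Y s) (hbd s)).resolve_left hinf, ?_⟩
  intro x y hx hy
  rw [Set.notMem_compl_iff] at hx hy
  exact fm7_trans (fm7_symm hx) hy

/-- bounded detours around a ball -/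
theorem fm7_claim2 (h : Homog Γ G) (hX : Infinite X) (h1 : OneEnd G) (o : X) (K : ℕ) :
    ∃ K₁ K₂ : ℕ, K ≤ K₁ ∧ ∀ c a b : X, G.dist c a = K₁ + 1 → G.dist c b = K₁ + 1 →
      fm7_R G (fun z => K < G.dist c z ∧ G.dist c z ≤ K₂) a b := by
  classical
  have hA : {y | G.dist o y ≤ K}.Finite := h.ball_finite o K
  obtain ⟨A', hA', hconn⟩ := fm7_claim1 h hX h1 _ hA ⟨o, by simp⟩
  obtain ⟨M, hM⟩ := (hA'.image (G.dist o)).bddAbove
  have hM' : ∀ x ∈ A', G.dist o x ≤ M := fun x hx => hM ⟨x, hx, rfl⟩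
  set K₁ := max M K with hK₁
  set Sph : Set X := {y | G.dist o y = K₁ + 1} with hSph
  have hSf : Sph.Finite := (h.ball_finite o (K₁ + 1)).subset fun y hy => by
    have : G.dist o y = K₁ + 1 := hy
    exact this.le
  have hout : ∀ a ∈ Sph, a ∉ A' := by
    intro a ha hA
    have h2 := hM' a hA
    have h3 : G.dist o a = K₁ + 1 := ha
    have h4 : M ≤ K₁ := le_max_left _ _
    omega
  have hpair : ∀ ab : X × X, ∃ M₂ : ℕ, ab.1 ∈ Sph → ab.2 ∈ Sph →
      fm7_R G (fun z => K < G.dist o z ∧ G.dist o z ≤ M₂) ab.1 ab.2 := by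
    intro ab
    by_cases hab : ab.1 ∈ Sph ∧ ab.2 ∈ Sph
    · obtain ⟨p, hp⟩ := hconn ab.1 ab.2 (hout _ hab.1) (hout _ hab.2)
      obtain ⟨M₂, hM₂⟩ := ((List.finite_toSet p.support).image (G.dist o)).bddAbove
      refine ⟨M₂, fun _ _ => ⟨p, fun z hz => ⟨?_, hM₂ ⟨z, hz, rfl⟩⟩⟩⟩
      have := hp z hz
      simpa using this
    · exact ⟨0, fun h1 h2 => absurd ⟨h1, h2⟩ hab⟩
  choose M₂ hM₂ using hpair
  obtain ⟨K₂, hK₂⟩ := ((hSf.prod hSf).image M₂).bddAbove
  refine ⟨K₁, K₂, le_max_right _ _, ?_⟩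
  have key : ∀ a b : X, G.dist o a = K₁ + 1 → G.dist o b = K₁ + 1 →
      fm7_R G (fun z => K < G.dist o z ∧ G.dist o z ≤ K₂) a b := by
    intro a b ha hb
    have h2 := hM₂ (a, b) ha hb
    refine fm7_mono h2 ?_
    rintro z ⟨hz1, hz2⟩
    exact ⟨hz1, hz2.trans (hK₂ ⟨(a, b), ⟨ha, hb⟩, rfl⟩)⟩
  intro c a b ha hb
  obtain ⟨g, rfl⟩ := h.trans o c
  have ea : G.dist o (g⁻¹ • a) = K₁ + 1 := by
    rw [← ha, ← h.dist_smul g o (g⁻¹ • a), smul_inv_smul]
  have eb : G.dist o (g⁻¹ • b) = K₁ + 1 := by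
    rw [← hb, ← h.dist_smul g o (g⁻¹ • b), smul_inv_smul]
  obtain ⟨p, hp⟩ := key _ _ ea eb
  let f : G →g G := ⟨fun z => g • z, fun {a b} hab => h.inv g a b hab⟩
  have h3 : fm7_R G (fun z => K < G.dist (g • o) z ∧ G.dist (g • o) z ≤ K₂) (g • g⁻¹ • a) (g • g⁻¹ • b) := by
    refine ⟨p.map f, ?_⟩
    intro z hz
    rw [SimpleGraph.Walk.support_map, List.mem_map] at hz
    obtain ⟨y, hy, rfl⟩ := hz
    have h4 : f y = g • y := rfl
    rw [h4, h.dist_smul]
    exact hp y hy
  rwa [smul_inv_smul, smul_inv_smul] at h3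

/-- many far apart vertices -/
theorem fm7_far (h : Homog Γ G) (hX : Infinite X) (L n : ℕ) :
    ∃ q : Fin n → X, ∀ u v, u ≠ v → L < G.dist (q u) (q v) := by
  induction n with
  | zero => exact ⟨fun i => i.elim0, fun u => u.elim0⟩
  | succ n ih =>
    obtain ⟨q, hq⟩ := ih
    have hfin : (⋃ i : Fin n, {y | G.dist (q i) y ≤ L}).Finite :=
      Set.finite_iUnion fun i => h.ball_finite (q i) L
    obtain ⟨x, hx⟩ := hfin.exists_notMem
    have hx' : ∀ i, L < G.dist (q i) x := by
      intro i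
      by_contra hcon
      apply hx
      simp only [Set.mem_iUnion]
      exact ⟨i, not_lt.1 hcon⟩
    refine ⟨Fin.cons x q, ?_⟩
    intro u
    refine Fin.cases ?_ (fun i => ?_) u
    · intro v
      refine Fin.cases ?_ (fun j => ?_) v
      · intro h0
        exact absurd rfl h0
      · intro _
        rw [Fin.cons_zero, Fin.cons_succ, SimpleGraph.dist_comm]
        exact hx' j
    · intro v
      refine Fin.cases ?_ (fun j => ?_) v
      · intro _
        rw [Fin.cons_zero, Fin.cons_succ]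
        exact hx' i
      · intro hij
        rw [Fin.cons_succ, Fin.cons_succ]
        exact hq i j (fun e => hij (by rw [e]))

theorem fm7_main (h : Homog Γ G) {n K K₁ K₂ : ℕ} (hK : K ≤ K₁)
    (hdet : ∀ c a b : X, G.dist c a = K₁ + 1 → G.dist c b = K₁ + 1 →
      fm7_R G (fun z => K < G.dist c z ∧ G.dist c z ≤ K₂) a b)
    (q : Fin n → X) (hq : ∀ u v, u ≠ v → K + K₁ + K₂ < G.dist (q u) (q v)) (W : Finset (Fin n)) :
    ∀ x y : X, (∀ w ∈ W, K₁ < G.dist (q w) x) → (∀ w ∈ W, K₁ < G.dist (q w) y) →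
      fm7_R G (fun z => ∀ w ∈ W, K < G.dist (q w) z) x y := by
  classical
  induction W using Finset.induction_on with
  | empty =>
    intro x y _ _
    obtain ⟨p⟩ := h.conn.preconnected x y
    exact ⟨p, by simp⟩
  | insert w W hw ih =>
    intro x y hx hy
    have hx1 : ∀ w' ∈ W, K₁ < G.dist (q w') x := fun w' hw' => hx w' (Finset.mem_insert_of_mem hw')
    have hy1 : ∀ w' ∈ W, K₁ < G.dist (q w') y := fun w' hw' => hy w' (Finset.mem_insert_of_mem hw')
    obtain ⟨p, hp⟩ := ih x y hx1 hy1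
    set R' : X → X → Prop := fm7_R G (fun z => ∀ w' ∈ insert w W, K < G.dist (q w') z) with hR'
    have hgood : ∀ z, (∀ w' ∈ W, K < G.dist (q w') z) → K₁ < G.dist (q w) z →
        ∀ w' ∈ insert w W, K < G.dist (q w') z := by
      intro z hz1 hz2 w' hw'
      rcases Finset.mem_insert.1 hw' with rfl | hw'
      · omega
      · exact hz1 w' hw'
    have hstep : ∀ z z' : X, G.Adj z z' → (∀ w' ∈ W, K < G.dist (q w') z) →
        (∀ w' ∈ W, K < G.dist (q w') z') →
        ((K₁ < G.dist (q w) z → R' x z) ∧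
          (G.dist (q w) z ≤ K₁ → ∀ s, G.dist (q w) s = K₁ + 1 → R' x s)) →
        ((K₁ < G.dist (q w) z' → R' x z') ∧
          (G.dist (q w) z' ≤ K₁ → ∀ s, G.dist (q w) s = K₁ + 1 → R' x s)) := by
      rintro z z' hadj hz hz' ⟨hI1, hI2⟩
      have hd1 : G.dist z z' = 1 := SimpleGraph.dist_eq_one_iff_adj.2 hadj
      have ht1 := h.conn.dist_triangle (u := q w) (v := z) (w := z')
      have ht2 := h.conn.dist_triangle (u := q w) (v := z') (w := z)
      rw [SimpleGraph.dist_comm (u := z') (v := z)] at ht2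
      by_cases hc : K₁ < G.dist (q w) z
      · refine ⟨fun hc' => ?_, fun hc' s hs => ?_⟩
        · exact fm7_trans (hI1 hc) (fm7_adj hadj (hgood z hz hc) (hgood z' hz' hc'))
        · have hz1 : G.dist (q w) z = K₁ + 1 := by omega
          refine fm7_trans (hI1 hc) (fm7_mono (hdet (q w) z s hz1 hs) ?_)
          rintro y' ⟨hy1, hy2⟩ w' hw'
          rcases Finset.mem_insert.1 hw' with rfl | hw'
          · exact hy1
          · have hne : w' ≠ w := fun e => hw (e ▸ hw')
            have h5 := hq w' w hne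
            have h6 := h.conn.dist_triangle (u := q w') (v := y') (w := q w)
            rw [SimpleGraph.dist_comm (u := y') (v := q w)] at h6
            omega
      · refine ⟨fun hc' => ?_, fun hc' s hs => ?_⟩
        · exact hI2 (not_lt.1 hc) z' (by omega)
        · exact hI2 (not_lt.1 hc) s hs
    have hwalk : ∀ (z z' : X) (p : G.Walk z z'), (∀ y' ∈ p.support, ∀ w' ∈ W, K < G.dist (q w') y') →
        ((K₁ < G.dist (q w) z → R' x z) ∧
          (G.dist (q w) z ≤ K₁ → ∀ s, G.dist (q w) s = K₁ + 1 → R' x s)) →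
        ((K₁ < G.dist (q w) z' → R' x z') ∧
          (G.dist (q w) z' ≤ K₁ → ∀ s, G.dist (q w) s = K₁ + 1 → R' x s)) := by
      intro z z' p
      induction p with
      | nil => intro _ hI; exact hI
      | cons hadj p' ihp =>
        intro hsup hI
        apply ihp
        · intro y' hy'
          exact hsup y' (by simp [hy'])
        · refine hstep _ _ hadj (hsup _ (by simp)) (hsup _ (by simp)) hI
    have hxw : K₁ < G.dist (q w) x := hx w (Finset.mem_insert_self _ _)
    have hyw : K₁ < G.dist (q w) y := hy w (Finset.mem_insert_self _ _)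
    have hfin := hwalk x y p hp ⟨fun _ => fm7_refl (hgood x (fun w' hw' => by
      have := hx1 w' hw'
      omega) hxw), fun hc => by omega⟩
    exact hfin.1 hyw

/-- FM7 -/
theorem Homog.pods_of_oneEnd (h : Homog Γ G) (hX : Infinite X) (h1 : OneEnd G) : Pods G := by
  classical
  intro n K
  obtain ⟨o⟩ : Nonempty X := inferInstance
  obtain ⟨K₁, K₂, hK, hdet⟩ := fm7_claim2 h hX h1 o K
  obtain ⟨q, hq⟩ := fm7_far h hX (K + K₁ + K₂) n
  refine ⟨q, fun u v huv => by have := hq u v huv; omega, ?_⟩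
  intro u v
  have hW : ∀ a : Fin n, (a = u ∨ a = v) → ∀ w ∈ (Finset.univ.erase u).erase v, K₁ < G.dist (q w) (q a) := by
    intro a ha w hw
    rw [Finset.mem_erase, Finset.mem_erase] at hw
    have hne : w ≠ a := by
      rcases ha with rfl | rfl
      · exact hw.2.1
      · exact hw.1
    have := hq w a hne
    omega
  obtain ⟨p, hp⟩ := fm7_main h hK hdet q hq ((Finset.univ.erase u).erase v) (q u) (q v)
    (hW u (Or.inl rfl)) (hW v (Or.inr rfl))
  refine ⟨p, ?_⟩
  intro w hwu hwv x hx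
  rw [SimpleGraph.dist_comm]
  exact hp x hx w (by simp [hwu, hwv])

end graph

end Pool.Agent.Lib.MP_0f7bfe_al
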