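import Pool.Agent.Lib.MP_0f7bfe_al.Basic

open scoped Pointwise

namespace Pool.Agent.Lib.MP_0f7bfe_al

universe u v

section graph
variable {Γ : Type v} [Group Γ] {X : Type u} [MulAction Γ X] {G : SimpleGraph X}

/-- the ball around a point far inside `Y` is contained in `Y` -/
theorem fm8_ball_subset (hc : G.Connected) {Y : Set X} {o x : X} {R : ℕ}
    (hY : ∀ z ∈ bdry G Y, G.dist o z ≤ R) (hx : x ∈ Y) (hfar : 2 * R < G.dist o x) (y : X)
    (hy : G.dist x y ≤ R) : y ∈ Y := by
  classical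
  by_contra hyY
  obtain ⟨p, hp⟩ := hc.exists_walk_length_eq_dist x y
  obtain ⟨z, hz, hzb⟩ := exists_mem_bdry p hx hyY
  have h1 : G.dist x z ≤ R := by
    have h2 := SimpleGraph.dist_le (p.takeUntil z hz)
    have h3 := p.length_takeUntil_le_length hz
    omega
  have h4 := hY z hzb
  have h5 := hc.dist_triangle (u := o) (v := z) (w := x)
  rw [SimpleGraph.dist_comm (u := z) (v := x)] at h5
  omega

/-- the complement of `Y` together with a large ball is connected -/
theorem fm8_side (hc : G.Connected) {Y A : Set X} {o : X} {R : ℕ}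
    (hY : ∀ z ∈ bdry G Y, G.dist o z ≤ R)
    (hA : ∀ z, (z ∉ Y ∨ G.dist o z ≤ R) → z ∉ bdry G A) :
    ∀ n : ℕ, ∀ y, G.dist o y ≤ n → (y ∉ Y ∨ G.dist o y ≤ R) → (y ∈ A ↔ o ∈ A) := by
  intro n
  induction n with
  | zero =>
    intro y hy _
    have h0 : G.dist o y = 0 := by omega
    rw [hc.dist_eq_zero_iff] at h0
    rw [h0]
  | succ n ih =>
    intro y hy hyZ
    by_cases hoy : o = y
    · rw [hoy]
    obtain ⟨z, hz, hadj⟩ := exists_adj_dist_le hc o y (G.dist o y - 1) (by omega) hoy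
    have hpos : 0 < G.dist o y := by
      rcases Nat.eq_zero_or_pos (G.dist o y) with h0 | h0
      · exact absurd ((hc.dist_eq_zero_iff).1 h0) hoy
      · exact h0
    have hzZ : z ∉ Y ∨ G.dist o z ≤ R := by
      rcases hyZ with h1 | h1
      · by_cases h2 : z ∈ Y
        · right
          have h3 : y ∈ bdry G Y := ⟨z, hadj.symm, by tauto⟩
          have := hY y h3
          omega
        · exact Or.inl h2
      · right
        omega
    have h4 := ih z (by omega) hzZ
    rw [← h4]
    have h5 := hA y hyZ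
    by_contra h6
    exact h5 ⟨z, hadj.symm, h6⟩

/-- FM8 -/
theorem Homog.manyEnds_succ (h : Homog Γ G) {n : ℕ} (hn : 3 ≤ n) (hE : ManyEnds G n) :
    ManyEnds G (n + 1) := by
  obtain ⟨Y, hinf, hfin, hdisj⟩ := hE
  set i0 : Fin n := ⟨0, by omega⟩ with hi0
  obtain ⟨o, -⟩ := (hinf i0).nonempty
  -- a ball containing all the boundaries
  obtain ⟨R, hR⟩ : ∃ R : ℕ, ∀ i, ∀ z ∈ bdry G (Y i), G.dist o z ≤ R := by
    have h1 : (⋃ i, bdry G (Y i)).Finite := Set.finite_iUnion hfin
    obtain ⟨R, hR⟩ := (h1.image (fun z => G.dist o z)).bddAbove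
    refine ⟨R, fun i z hz => hR ⟨z, ?_, rfl⟩⟩
    exact Set.mem_iUnion.2 ⟨i, hz⟩
  -- the group element
  obtain ⟨x, hxY, hxfar⟩ : ∃ x ∈ Y i0, 2 * R + 1 < G.dist o x := by
    obtain ⟨x, hx1, hx2⟩ := (hinf i0).exists_notMem_finite (h.ball_finite o (2 * R + 1))
    refine ⟨x, hx1, ?_⟩
    by_contra hcon
    exact hx2 (not_lt.1 hcon)
  obtain ⟨g, hg⟩ := h.trans o x
  set A : Fin n → Set X := fun j => {y | g⁻¹ • y ∈ Y j} with hA
  have hAb : ∀ j, ∀ z ∈ bdry G (A j), G.dist x z ≤ R := by
    rintro j z ⟨y, hzy, hne⟩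
    have h1 : g⁻¹ • z ∈ bdry G (Y j) := ⟨g⁻¹ • y, h.inv g⁻¹ z y hzy, hne⟩
    have h2 := hR j _ h1
    rw [← h.dist_smul g, smul_inv_smul, hg] at h2
    exact h2
  have hZ : ∀ j, ∀ z, (z ∉ Y i0 ∨ G.dist o z ≤ R) → z ∉ bdry G (A j) := by
    intro j z hz hzb
    have h1 := hAb j z hzb
    have h2 : z ∈ Y i0 := fm8_ball_subset h.conn (hR i0) hxY (by omega) z h1
    rcases hz with h3 | h3
    · exact h3 h2
    · have h4 := h.conn.dist_triangle (u := o) (v := z) (w := x)
      rw [SimpleGraph.dist_comm (u := z) (v := x)] at h4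
      omega
  have hsub : ∀ j, o ∉ A j → A j ⊆ Y i0 := by
    intro j hoj y hy
    by_contra hyY
    have h1 := fm8_side h.conn (hR i0) (hZ j) (G.dist o y) y le_rfl (Or.inl hyY)
    exact hoj (h1.1 hy)
  have hAdisj : ∀ i j, i ≠ j → Disjoint (A i) (A j) := by
    intro i j hij
    rw [Set.disjoint_left]
    intro y hy hy'
    exact Set.disjoint_left.1 (hdisj i j hij) hy hy'
  -- two good indices
  obtain ⟨j1, j2, hj12, ho1, ho2⟩ : ∃ j1 j2, j1 ≠ j2 ∧ o ∉ A j1 ∧ o ∉ A j2 := by
    set i1 : Fin n := ⟨1, by omega⟩ with hi1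
    set i2 : Fin n := ⟨2, by omega⟩ with hi2
    have h01 : i0 ≠ i1 := by rw [hi0, hi1]; simp
    have h02 : i0 ≠ i2 := by rw [hi0, hi2]; simp
    have h12 : i1 ≠ i2 := by rw [hi1, hi2]; simp
    by_cases h0 : o ∈ A i0
    · exact ⟨i1, i2, h12, Set.disjoint_left.1 (hAdisj _ _ h01) h0,
        Set.disjoint_left.1 (hAdisj _ _ h02) h0⟩
    · by_cases h1 : o ∈ A i1
      · exact ⟨i0, i2, h02, h0, Set.disjoint_left.1 (hAdisj _ _ h12) h1⟩
      · exact ⟨i0, i1, h01, h0, h1⟩
  have hAinf : ∀ j, (A j).Infinite := by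
    intro j
    refine (hinf j).preimage ?_
    intro y _
    exact ⟨g • y, inv_smul_smul g y⟩
  have hAfin : ∀ j, (bdry G (A j)).Finite := fun j =>
    (h.ball_finite x R).subset fun z hz => hAb j z hz
  refine ⟨Fin.cons (A j1) (fun i => if i = i0 then A j2 else Y i), ?_, ?_, ?_⟩
  · intro i
    refine Fin.cases ?_ (fun i => ?_) i
    · simpa using hAinf j1
    · simp only [Fin.cons_succ]
      split_ifs
      · exact hAinf j2
      · exact hinf i
  · intro i
    refine Fin.cases ?_ (fun i => ?_) i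
    · simpa using hAfin j1
    · simp only [Fin.cons_succ]
      split_ifs
      · exact hAfin j2
      · exact hfin i
  · have key : ∀ i : Fin n, Disjoint (A j1) (if i = i0 then A j2 else Y i) := by
      intro i
      split_ifs with hi
      · exact hAdisj _ _ hj12
      · exact (hdisj i0 i (Ne.symm hi)).mono_left (hsub j1 ho1)
    have key2 : ∀ i : Fin n, i ≠ i0 → Disjoint (A j2) (Y i) := fun i hi =>
      (hdisj i0 i (Ne.symm hi)).mono_left (hsub j2 ho2)
    intro i j
    refine Fin.cases ?_ (fun i => ?_) i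
    · refine Fin.cases ?_ (fun j => ?_) j
      · intro hij
        exact absurd rfl hij
      · intro _
        simpa only [Fin.cons_zero, Fin.cons_succ] using key j
    · refine Fin.cases ?_ (fun j => ?_) j
      · intro _
        simpa only [Fin.cons_zero, Fin.cons_succ] using (key i).symm
      · intro hij
        simp only [Fin.cons_succ]
        have hij' : i ≠ j := fun he => hij (by rw [he])
        split_ifs with h1 h2 h2
        · exact absurd (h1.trans h2.symm) hij'
        · exact key2 j h2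
        · exact (key2 i h1).symm
        · exact hdisj i j hij'

end graph

end Pool.Agent.Lib.MP_0f7bfe_al
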