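import Pool.Agent.Lib.MP_0f7bfe_al.Basic

open scoped Pointwise

namespace Pool.Agent.Lib.MP_0f7bfe_al

universe u v

section graph
variable {Γ : Type v} [Group Γ] {X : Type u} [MulAction Γ X] {G : SimpleGraph X}

/-- On a geodesic from `a` to `o`, a later vertex is closer to `o`. -/
theorem fm9_closer [DecidableEq X] {a o x z : X} (hG : G.Connected) (p : G.Walk a o)
    (hp : p.length = G.dist a o) (hx : x ∈ p.support) (hz : z ∈ (p.takeUntil x hx).support) :
    G.dist x o ≤ G.dist z o := by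
  set q := p.takeUntil x hx with hq
  have h1 : q.length + (p.dropUntil x hx).length = p.length := by
    rw [← SimpleGraph.Walk.length_append, hq, SimpleGraph.Walk.take_spec]
  have h2 : (q.takeUntil z hz).length + (q.dropUntil z hz).length = q.length := by
    rw [← SimpleGraph.Walk.length_append, SimpleGraph.Walk.take_spec]
  have h3 : G.dist a o ≤ G.dist a z + G.dist z o := hG.dist_triangle
  have h4 : G.dist a z ≤ (q.takeUntil z hz).length := SimpleGraph.dist_le _
  have h5 : G.dist x o ≤ (p.dropUntil x hx).length := SimpleGraph.dist_le _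
  omega

theorem fm9_mem_bdry {Y : Set X} {x y : X} (p : G.Walk x y) (hx : x ∉ Y) (hy : y ∈ Y) :
    ∃ z ∈ p.support, z ∈ bdry G Y := by
  obtain ⟨z, hz, hb⟩ := exists_mem_bdry p.reverse hy hx
  refine ⟨z, ?_, hb⟩
  rwa [SimpleGraph.Walk.support_reverse, List.mem_reverse] at hz

/-- FM9 -/
theorem Homog.pods_of_manyEnds (h : Homog Γ G) (hE : ∀ n, ManyEnds G n) : Pods G := by
  classical
  intro n K
  obtain ⟨Y, hY1, hY2, hY3⟩ := hE n
  have hG := h.conn
  obtain ⟨o⟩ := hG.nonempty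
  -- a ball containing all boundaries
  obtain ⟨R₀, hR₀⟩ : ∃ R₀ : ℕ, ∀ i, ∀ z ∈ bdry G (Y i), G.dist o z ≤ R₀ := by
    have hfin : (⋃ i, bdry G (Y i)).Finite := Set.finite_iUnion hY2
    obtain ⟨R₀, hR⟩ := (hfin.image (fun z => G.dist o z)).bddAbove
    exact ⟨R₀, fun i z hz => hR ⟨z, Set.mem_iUnion.2 ⟨i, hz⟩, rfl⟩⟩
  -- the points
  have hq : ∀ i, ∃ x ∈ Y i, R₀ + K + 1 < G.dist o x := by
    intro i
    obtain ⟨x, hx, hx2⟩ := (hY1 i).exists_notMem_finite (h.ball_finite o (R₀ + K + 1))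
    refine ⟨x, hx, ?_⟩
    simpa using hx2
  choose q hqY hqd using hq
  have hB : ∀ x w, G.dist o x ≤ R₀ → K < G.dist x (q w) := by
    intro x w hx
    have h1 : G.dist o (q w) ≤ G.dist o x + G.dist x (q w) := hG.dist_triangle
    have h2 := hqd w
    omega
  have hA : ∀ x w, x ∉ Y w → K < G.dist x (q w) := by
    intro x w hx
    obtain ⟨p, hp⟩ := hG.exists_walk_length_eq_dist x (q w)
    obtain ⟨z, hz, hzb⟩ := fm9_mem_bdry p hx (hqY w)
    have h1 := hB z w (hR₀ w z hzb)
    have h2 : G.dist z (q w) ≤ (p.dropUntil z hz).length := SimpleGraph.dist_le _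
    have h3 : (p.takeUntil z hz).length + (p.dropUntil z hz).length = p.length := by
      rw [← SimpleGraph.Walk.length_append, SimpleGraph.Walk.take_spec]
    omega
  have hdisj : ∀ u w, u ≠ w → q u ∉ Y w := by
    intro u w huw hmem
    exact Set.disjoint_left.1 (hY3 u w huw) (hqY u) hmem
  -- geodesics to `o`
  have hgeo : ∀ u, ∃ p : G.Walk (q u) o, ∀ w, w ≠ u → ∀ x ∈ p.support, K < G.dist x (q w) := by
    intro u
    obtain ⟨p, hp⟩ := hG.exists_walk_length_eq_dist (q u) o
    refine ⟨p, fun w hw x hx => ?_⟩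
    by_cases hxY : x ∈ Y w
    · obtain ⟨z, hz, hzb⟩ := fm9_mem_bdry (p.takeUntil x hx) (hdisj u w (Ne.symm hw)) hxY
      have h1 := fm9_closer hG p hp hx hz
      have h2 := hR₀ w z hzb
      refine hB x w ?_
      rw [SimpleGraph.dist_comm] at h2 ⊢
      omega
    · exact hA x w hxY
  refine ⟨q, fun u v huv => hA _ _ (hdisj u v huv), fun u v => ?_⟩
  obtain ⟨p₁, hp₁⟩ := hgeo u
  obtain ⟨p₂, hp₂⟩ := hgeo v
  refine ⟨p₁.append p₂.reverse, fun w hwu hwv x hx => ?_⟩
  rw [SimpleGraph.Walk.mem_support_append_iff] at hx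
  rcases hx with hx | hx
  · exact hp₁ w hwu x hx
  · rw [SimpleGraph.Walk.support_reverse, List.mem_reverse] at hx
    exact hp₂ w hwv x hx

end graph

end Pool.Agent.Lib.MP_0f7bfe_al
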