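import Pool.Agent.Lib.MP_0f7bfe_al.KLDefs

open scoped Pointwise

namespace Pool.Agent.Lib.MP_0f7bfe_al

universe u v

section kl1
variable {Γ : Type u} [Group Γ]

theorem vol_eq [inst : DecidableEq Γ] (S : Finset Γ) (r : ℕ) : vol S r = (S ^ r).card := by
  have e : inst = fun a b => Classical.propDecidable (a = b) := Subsingleton.elim _ _
  subst e
  rfl

theorem vol_mono (S : Finset Γ) (h1 : (1 : Γ) ∈ S) {m n : ℕ} (h : m ≤ n) :
    vol S m ≤ vol S n := by
  classical
  rw [vol_eq, vol_eq]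
  exact Finset.card_le_card (Finset.pow_subset_pow_right h1 h)

theorem rwp_nonneg (S : Finset Γ) (n : ℕ) (x : Γ) : 0 ≤ rwp S n x := by
  induction n generalizing x with
  | zero =>
    by_cases h : x = 1
    · subst h; simp [rwp, dlt_self]
    · simp [rwp, dlt_ne h]
  | succ n ih =>
    exact div_nonneg (Finset.sum_nonneg fun s _ => ih _) (Nat.cast_nonneg _)

theorem rwp_supp (S : Finset Γ) (n : ℕ) :
    ∃ T : Finset Γ, T.card = vol S n ∧ ∀ x, x ∉ T → rwp S n x = 0 := by
  classical
  refine ⟨S ^ n, (vol_eq S n).symm, ?_⟩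
  induction n with
  | zero =>
    intro x hx
    rw [pow_zero, Finset.mem_one] at hx
    exact dlt_ne hx
  | succ n ih =>
    intro x hx
    change (∑ s ∈ S, rwp S n (s⁻¹ * x)) / S.card = 0
    rw [Finset.sum_eq_zero, zero_div]
    intro s hs
    apply ih
    intro h
    apply hx
    rw [pow_succ']
    have := Finset.mul_mem_mul hs h
    rwa [mul_inv_cancel_left] at this

theorem rwp_summable (S : Finset Γ) (n : ℕ) (F : Γ → ℝ) :
    Summable fun x => rwp S n x * F x := by
  obtain ⟨T, -, hT⟩ := rwp_supp S n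
  refine summable_of_ne_finset_zero (s := T) fun x hx => ?_
  rw [hT x hx, zero_mul]

theorem rwp_summable' (S : Finset Γ) (n : ℕ) : Summable fun x => rwp S n x := by
  simpa using rwp_summable S n (fun _ => 1)

theorem rwE_succ_left (S : Finset Γ) (n : ℕ) (F : Γ → ℝ) :
    rwE S (n + 1) F = (∑ s ∈ S, rwE S n (fun x => F (s * x))) / S.card := by
  have h1 : ∀ s : Γ, Summable fun x => rwp S n (s⁻¹ * x) * F x := by
    intro s
    have h2 := rwp_summable S n (fun x => F (s * x))
    have h3 := (Equiv.mulLeft s⁻¹).summable_iff.2 h2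
    refine h3.congr fun x => ?_
    simp
  have h4 : ∀ s : Γ, ∑' x, rwp S n (s⁻¹ * x) * F x = rwE S n (fun x => F (s * x)) := by
    intro s
    rw [rwE, ← (Equiv.mulLeft s⁻¹).tsum_eq (fun x => rwp S n x * F (s * x))]
    refine tsum_congr fun x => ?_
    simp
  calc rwE S (n + 1) F = ∑' x, (∑ s ∈ S, rwp S n (s⁻¹ * x) * F x) / S.card := by
        rw [rwE]
        refine tsum_congr fun x => ?_
        change (∑ s ∈ S, rwp S n (s⁻¹ * x)) / S.card * F x = _
        rw [div_mul_eq_mul_div, Finset.sum_mul]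
    _ = (∑' x, ∑ s ∈ S, rwp S n (s⁻¹ * x) * F x) / S.card := tsum_div_const
    _ = (∑ s ∈ S, ∑' x, rwp S n (s⁻¹ * x) * F x) / S.card := by
        rw [Summable.tsum_finsetSum (fun s _ => h1 s)]
    _ = _ := by rw [Finset.sum_congr rfl fun s _ => h4 s]

theorem rwE_zero (S : Finset Γ) (F : Γ → ℝ) : rwE S 0 F = F 1 := by
  rw [rwE, tsum_eq_single 1]
  · simp [rwp, dlt_self]
  · intro x hx
    simp [rwp, dlt_ne hx]

theorem rwE_add (S : Finset Γ) (n : ℕ) (F G : Γ → ℝ) :
    rwE S n (fun x => F x + G x) = rwE S n F + rwE S n G := by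
  rw [rwE, rwE, rwE, ← (rwp_summable S n F).tsum_add (rwp_summable S n G)]
  exact tsum_congr fun x => by ring

theorem rwE_sub (S : Finset Γ) (n : ℕ) (F G : Γ → ℝ) :
    rwE S n (fun x => F x - G x) = rwE S n F - rwE S n G := by
  rw [rwE, rwE, rwE, ← (rwp_summable S n F).tsum_sub (rwp_summable S n G)]
  exact tsum_congr fun x => by ring

theorem rwE_mul (S : Finset Γ) (n : ℕ) (c : ℝ) (F : Γ → ℝ) :
    rwE S n (fun x => c * F x) = c * rwE S n F := by
  rw [rwE, rwE, ← tsum_mul_left]
  exact tsum_congr fun x => by ring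

theorem rwE_const (S : Finset Γ) (hS : S.Nonempty) (n : ℕ) (c : ℝ) :
    rwE S n (fun _ => c) = c := by
  induction n with
  | zero => exact rwE_zero S _
  | succ n ih =>
    rw [rwE_succ_left, ih, Finset.sum_const, nsmul_eq_mul]
    have : (0 : ℝ) < S.card := by exact_mod_cast hS.card_pos
    field_simp

theorem rwp_tsum (S : Finset Γ) (hS : S.Nonempty) (n : ℕ) : ∑' x, rwp S n x = 1 := by
  have := rwE_const S hS n 1
  simpa [rwE] using this

theorem rwE_mono (S : Finset Γ) (n : ℕ) (F G : Γ → ℝ) (h : ∀ x, F x ≤ G x) :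
    rwE S n F ≤ rwE S n G :=
  (rwp_summable S n F).tsum_le_tsum (fun x => mul_le_mul_of_nonneg_left (h x) (rwp_nonneg S n x))
    (rwp_summable S n G)

theorem rwE_succ_right (S : Finset Γ) (n : ℕ) (F : Γ → ℝ) :
    rwE S (n + 1) F = rwE S n (fun x => (∑ s ∈ S, F (x * s)) / S.card) := by
  induction n generalizing F with
  | zero =>
    rw [rwE_succ_left, rwE_zero]
    congr 1
    refine Finset.sum_congr rfl fun s _ => ?_
    rw [rwE_zero, mul_one, one_mul]
  | succ n ih =>
    rw [rwE_succ_left, rwE_succ_left]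
    congr 1
    refine Finset.sum_congr rfl fun s _ => ?_
    rw [ih]
    congr 1
    funext x
    simp only [mul_assoc]

end kl1

end Pool.Agent.Lib.MP_0f7bfe_al
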