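import Pool.Agent.Lib.MP_0f7bfe_al.KLDefs

/-! KL-10a: the kernel of a homomorphism onto the integers is finitely generated (Milnor). -/

open scoped Pointwise
open Filter Topology

namespace Pool.Agent.Lib.MP_0f7bfe_al

universe u v

section kl10a

variable {Γ : Type u} [Group Γ]

open Classical in
/-- the products `∏ i < m, s ^ (ε i) t` -/
noncomputable def kl10a_v (s t : Γ) (E : Set ℕ) : ℕ → Γ
  | 0 => 1
  | m + 1 => kl10a_v s t E m * (if m ∈ E then s else 1) * t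

/-- the subgroup generated by the first `m` conjugates -/
def kl10a_A (s t : Γ) (m : ℕ) : Subgroup Γ :=
  Subgroup.closure {x | ∃ i < m, x = t ^ i * s * (t ^ i)⁻¹}

theorem kl10a_A_mono (s t : Γ) {m m' : ℕ} (h : m ≤ m') : kl10a_A s t m ≤ kl10a_A s t m' := by
  apply Subgroup.closure_mono
  rintro x ⟨i, hi, rfl⟩
  exact ⟨i, lt_of_lt_of_le hi h, rfl⟩

theorem kl10a_v_mem (s t : Γ) (E : Set ℕ) (m : ℕ) :
    kl10a_v s t E m * (t ^ m)⁻¹ ∈ kl10a_A s t m := by
  classical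
  induction m with
  | zero => simp [kl10a_v]
  | succ m ih =>
    have h1 : kl10a_v s t E (m + 1) * (t ^ (m + 1))⁻¹ =
        (kl10a_v s t E m * (t ^ m)⁻¹) * (t ^ m * (if m ∈ E then s else 1) * (t ^ m)⁻¹) := by
      rw [kl10a_v, pow_succ]
      group
    rw [h1]
    refine mul_mem (kl10a_A_mono s t (Nat.le_succ m) ih) ?_
    by_cases hm : m ∈ E
    · rw [if_pos hm]
      exact Subgroup.subset_closure ⟨m, Nat.lt_succ_self m, rfl⟩
    · rw [if_neg hm, mul_one, mul_inv_cancel]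
      exact one_mem _

theorem kl10a_v_inj (s t : Γ) (h : ∀ m, t ^ m * s * (t ^ m)⁻¹ ∉ kl10a_A s t m) (E E' : Set ℕ)
    (m : ℕ) (hv : kl10a_v s t E m = kl10a_v s t E' m) : ∀ i < m, (i ∈ E ↔ i ∈ E') := by
  classical
  have key : ∀ (E E' : Set ℕ) (m : ℕ), kl10a_v s t E m * s = kl10a_v s t E' m → False := by
    intro E E' m hk
    apply h m
    have h1 := kl10a_v_mem s t E m
    have h2 := kl10a_v_mem s t E' m
    have h3 : t ^ m * s * (t ^ m)⁻¹ = (kl10a_v s t E m * (t ^ m)⁻¹)⁻¹ *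
        (kl10a_v s t E' m * (t ^ m)⁻¹) := by
      rw [← hk]
      group
    rw [h3]
    exact mul_mem (inv_mem h1) h2
  induction m with
  | zero => intro i hi; exact absurd hi (Nat.not_lt_zero i)
  | succ m ih =>
    rw [kl10a_v, kl10a_v] at hv
    have hv' := mul_right_cancel hv
    by_cases h1 : m ∈ E
    · by_cases h2 : m ∈ E'
      · rw [if_pos h1, if_pos h2] at hv'
        have := ih (mul_right_cancel hv')
        intro i hi
        rcases Nat.lt_succ_iff_lt_or_eq.mp hi with hi | rfl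
        · exact this i hi
        · exact ⟨fun _ => h2, fun _ => h1⟩
      · rw [if_pos h1, if_neg h2, mul_one] at hv'
        exact (key E E' m hv').elim
    · by_cases h2 : m ∈ E'
      · rw [if_neg h1, if_pos h2, mul_one] at hv'
        exact (key E' E m hv'.symm).elim
      · rw [if_neg h1, if_neg h2, mul_one, mul_one] at hv'
        have := ih hv'
        intro i hi
        rcases Nat.lt_succ_iff_lt_or_eq.mp hi with hi | rfl
        · exact this i hi
        · exact ⟨fun h3 => absurd h3 h1, fun h3 => absurd h3 h2⟩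

open Classical in
theorem kl10a_v_mem_pow (s t : Γ) (E : Set ℕ) (m : ℕ) :
    kl10a_v s t E m ∈ ({1, s, t} : Finset Γ) ^ (2 * m) := by
  induction m with
  | zero => simp [kl10a_v]
  | succ m ih =>
    rw [kl10a_v, mul_add, mul_one, pow_succ, pow_succ]
    refine Finset.mul_mem_mul (Finset.mul_mem_mul ih ?_) ?_
    · split_ifs <;> simp
    · simp

open Classical in
theorem kl10a_vol_mono (T : Finset Γ) (h1 : (1 : Γ) ∈ T) {a b : ℕ} (h : a ≤ b) :
    vol T a ≤ vol T b := by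
  unfold vol
  refine Finset.card_le_card ?_
  convert Finset.pow_subset_pow_right h1 h

theorem kl10a_growth (s t : Γ) (h : ∀ m, t ^ m * s * (t ^ m)⁻¹ ∉ kl10a_A s t m) (m : ℕ) :
    2 ^ m ≤ (by classical exact vol ({1, s, t} : Finset Γ) (2 * m)) := by
  classical
  have h1 : (Finset.range m).powerset.card = 2 ^ m := by
    rw [Finset.card_powerset, Finset.card_range]
  rw [← h1]
  unfold vol
  refine Finset.card_le_card_of_injOn (fun E => kl10a_v s t (E : Set ℕ) m) ?_ ?_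
  · intro E _
    have := kl10a_v_mem_pow s t (E : Set ℕ) m
    refine Finset.mem_coe.mpr ?_
    convert this
  · intro E hE E' hE' hv
    have h2 := kl10a_v_inj s t h _ _ m hv
    rw [Finset.mem_coe, Finset.mem_powerset] at hE hE'
    ext i
    constructor
    · intro hi
      exact Finset.mem_coe.mp ((h2 i (Finset.mem_range.mp (hE hi))).mp (Finset.mem_coe.mpr hi))
    · intro hi
      exact Finset.mem_coe.mp ((h2 i (Finset.mem_range.mp (hE' hi))).mpr (Finset.mem_coe.mpr hi))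

theorem kl10a_exists (D : ℝ) (hD : SlowGrowth Γ D) (s t : Γ) :
    ∃ m, t ^ m * s * (t ^ m)⁻¹ ∈ kl10a_A s t m := by
  classical
  by_contra hcon
  push Not at hcon
  have hg := kl10a_growth s t hcon
  obtain ⟨C, hC⟩ := hD {1, s, t}
  obtain ⟨D', hD'⟩ := exists_nat_ge D
  have hlim : Tendsto (fun k : ℕ => |C| * 3 ^ D' * ((k : ℝ) ^ D' * (1 / 2) ^ k)) atTop (𝓝 0) := by
    have h2 := tendsto_pow_const_mul_const_pow_of_abs_lt_one D' (r := (1 / 2 : ℝ))
      (by rw [abs_of_nonneg (by norm_num)]; norm_num)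
    simpa using h2.const_mul (|C| * 3 ^ D')
  obtain ⟨N, hN⟩ := Filter.eventually_atTop.mp (hlim.eventually (gt_mem_nhds (zero_lt_one)))
  obtain ⟨r, hr, hvol⟩ := hC (2 * max N 1)
  obtain ⟨m, hm⟩ : ∃ m, m = r / 2 := ⟨_, rfl⟩
  have hmN : max N 1 ≤ m := by omega
  have h1 : 1 ≤ m := (le_max_right _ _).trans hmN
  have h2 : N ≤ m := (le_max_left _ _).trans hmN
  have h3 : r ≤ 3 * m := by omega
  have h4 : 2 * m ≤ r := by omega
  have h5 : 1 ≤ r := by omega
  have h6 : (2 : ℝ) ^ m ≤ C * (r : ℝ) ^ D := by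
    refine le_trans ?_ hvol
    have h7 := (hg m).trans (kl10a_vol_mono {1, s, t} (by simp) h4)
    exact_mod_cast h7
  have hr1 : (1 : ℝ) ≤ r := by exact_mod_cast h5
  have hr3 : (r : ℝ) ≤ 3 * m := by exact_mod_cast h3
  have h8 : C * (r : ℝ) ^ D ≤ |C| * (3 * (m : ℝ)) ^ D' := by
    have h9 : (r : ℝ) ^ D ≤ (r : ℝ) ^ D' := by
      rw [← Real.rpow_natCast]
      exact Real.rpow_le_rpow_of_exponent_le hr1 hD'
    have h10 : 0 ≤ (r : ℝ) ^ D := Real.rpow_nonneg (by positivity) _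
    calc C * (r : ℝ) ^ D ≤ |C| * (r : ℝ) ^ D := mul_le_mul_of_nonneg_right (le_abs_self _) h10
      _ ≤ |C| * (r : ℝ) ^ D' := mul_le_mul_of_nonneg_left h9 (abs_nonneg _)
      _ ≤ |C| * (3 * (m : ℝ)) ^ D' :=
          mul_le_mul_of_nonneg_left (pow_le_pow_left₀ (by positivity) hr3 _) (abs_nonneg _)
  have h11 := hN m h2
  have h12 : |C| * 3 ^ D' * ((m : ℝ) ^ D' * (1 / 2) ^ m) * 2 ^ m = |C| * (3 * (m : ℝ)) ^ D' := by
    rw [mul_pow, one_div, inv_pow]
    field_simp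
  have h13 : |C| * 3 ^ D' * ((m : ℝ) ^ D' * (1 / 2) ^ m) * 2 ^ m < 1 * 2 ^ m :=
    mul_lt_mul_of_pos_right h11 (by positivity)
  rw [h12] at h13
  linarith

theorem kl10a_conj (s t : Γ) (m : ℕ) (hm : t ^ m * s * (t ^ m)⁻¹ ∈ kl10a_A s t m) :
    ∀ x ∈ kl10a_A s t m, t * x * t⁻¹ ∈ kl10a_A s t m := by
  intro x hx
  induction hx using Subgroup.closure_induction with
  | mem x hx =>
    obtain ⟨i, hi, rfl⟩ := hx
    have h1 : t * (t ^ i * s * (t ^ i)⁻¹) * t⁻¹ = t ^ (i + 1) * s * (t ^ (i + 1))⁻¹ := by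
      rw [pow_succ']
      group
    rw [h1]
    rcases Nat.lt_or_ge (i + 1) m with h | h
    · exact Subgroup.subset_closure ⟨i + 1, h, rfl⟩
    · have : i + 1 = m := by omega
      rw [this]
      exact hm
  | one => simp
  | mul a b _ _ ha hb =>
    have : t * (a * b) * t⁻¹ = (t * a * t⁻¹) * (t * b * t⁻¹) := by group
    rw [this]
    exact mul_mem ha hb
  | inv a _ ha =>
    have : t * a⁻¹ * t⁻¹ = (t * a * t⁻¹)⁻¹ := by group
    rw [this]
    exact inv_mem ha

theorem kl10a_all (s t : Γ) (m : ℕ) (hm : t ^ m * s * (t ^ m)⁻¹ ∈ kl10a_A s t m) (j : ℕ) :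
    t ^ j * s * (t ^ j)⁻¹ ∈ kl10a_A s t m := by
  induction j with
  | zero =>
    rcases Nat.eq_zero_or_pos m with h | h
    · subst h
      exact hm
    · exact Subgroup.subset_closure ⟨0, h, rfl⟩
  | succ j ih =>
    have h1 := kl10a_conj s t m hm _ ih
    have h2 : t * (t ^ j * s * (t ^ j)⁻¹) * t⁻¹ = t ^ (j + 1) * s * (t ^ (j + 1))⁻¹ := by
      rw [pow_succ']
      group
    rwa [h2] at h1

/-- finitely many conjugates generate all -/
theorem kl10a_finite (D : ℝ) (hD : SlowGrowth Γ D) (s t : Γ) :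
    ∃ Φ : Set Γ, Φ.Finite ∧ (∀ x ∈ Φ, ∃ j : ℤ, x = t ^ j * s * (t ^ j)⁻¹) ∧
      ∀ j : ℤ, t ^ j * s * (t ^ j)⁻¹ ∈ Subgroup.closure Φ := by
  obtain ⟨m, hm⟩ := kl10a_exists D hD s t
  obtain ⟨m', hm'⟩ := kl10a_exists D hD s t⁻¹
  refine ⟨{x | ∃ i < m, x = t ^ i * s * (t ^ i)⁻¹} ∪
    {x | ∃ i < m', x = t⁻¹ ^ i * s * (t⁻¹ ^ i)⁻¹}, ?_, ?_, ?_⟩
  · refine Set.Finite.union ?_ ?_
    · refine ((Set.finite_Iio m).image fun i => t ^ i * s * (t ^ i)⁻¹).subset ?_
      rintro x ⟨i, hi, rfl⟩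
      exact ⟨i, hi, rfl⟩
    · refine ((Set.finite_Iio m').image fun i => t⁻¹ ^ i * s * (t⁻¹ ^ i)⁻¹).subset ?_
      rintro x ⟨i, hi, rfl⟩
      exact ⟨i, hi, rfl⟩
  · rintro x (⟨i, hi, rfl⟩ | ⟨i, hi, rfl⟩)
    · exact ⟨i, by rw [zpow_natCast]⟩
    · exact ⟨-i, by rw [zpow_neg, zpow_natCast, inv_pow]⟩
  · intro j
    rcases Int.eq_nat_or_neg j with ⟨i, rfl | rfl⟩
    · rw [zpow_natCast]
      exact Subgroup.closure_mono Set.subset_union_left (kl10a_all s t m hm i)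
    · rw [zpow_neg, zpow_natCast, ← inv_pow]
      exact Subgroup.closure_mono Set.subset_union_right (kl10a_all s t⁻¹ m' hm' i)

theorem ker_fg (hG : Group.FG Γ) (D : ℝ) (hD : SlowGrowth Γ D) (τ : Γ →* Multiplicative ℤ)
    (hτ : Function.Surjective τ) : τ.ker.FG := by
  classical
  obtain ⟨S, hS⟩ := hG.1
  obtain ⟨t, ht⟩ := hτ (Multiplicative.ofAdd 1)
  have htk : ∀ k : ℤ, τ (t ^ k) = Multiplicative.ofAdd k := by
    intro k
    rw [map_zpow, ht, ← ofAdd_zsmul, smul_eq_mul, mul_one]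
  -- the elements of the kernel attached to the generators
  let p : Γ → Γ := fun s => s * (t ^ (Multiplicative.toAdd (τ s)))⁻¹
  have hp : ∀ s, p s ∈ τ.ker := by
    intro s
    rw [MonoidHom.mem_ker]
    simp only [p, map_mul, map_inv, htk]
    rw [ofAdd_toAdd, mul_inv_cancel]
  choose Φ hΦ1 hΦ2 hΦ3 using fun s : Γ => kl10a_finite D hD (p s) t
  let Ψ : Set Γ := ⋃ s ∈ S, Φ s
  have hΨfin : Ψ.Finite := Set.Finite.biUnion S.finite_toSet fun s _ => hΦ1 s
  have hconj : ∀ s ∈ S, ∀ j : ℤ, t ^ j * p s * (t ^ j)⁻¹ ∈ Subgroup.closure Ψ := by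
    intro s hs j
    exact Subgroup.closure_mono (Set.subset_biUnion_of_mem (u := Φ) (Finset.mem_coe.mpr hs))
      (hΦ3 s j)
  have hΨker : Subgroup.closure Ψ ≤ τ.ker := by
    rw [Subgroup.closure_le]
    intro x hx
    obtain ⟨s, hs, hx⟩ := Set.mem_iUnion₂.mp hx
    obtain ⟨j, rfl⟩ := hΦ2 s x hx
    exact (MonoidHom.normal_ker τ).conj_mem _ (hp s) _
  -- conjugation by powers of t
  have hN : ∀ k : ℤ, ∀ x ∈ Subgroup.closure Ψ, t ^ k * x * (t ^ k)⁻¹ ∈ Subgroup.closure Ψ := by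
    intro k x hx
    induction hx using Subgroup.closure_induction with
    | mem x hx =>
      obtain ⟨s, hs, hx⟩ := Set.mem_iUnion₂.mp hx
      obtain ⟨j, rfl⟩ := hΦ2 s x hx
      have h1 : t ^ k * (t ^ j * p s * (t ^ j)⁻¹) * (t ^ k)⁻¹ =
          t ^ (k + j) * p s * (t ^ (k + j))⁻¹ := by
        rw [zpow_add]
        group
      rw [h1]
      exact hconj s hs _
    | one => simp
    | mul a b _ _ ha hb =>
      have : t ^ k * (a * b) * (t ^ k)⁻¹ = (t ^ k * a * (t ^ k)⁻¹) * (t ^ k * b * (t ^ k)⁻¹) := by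
        group
      rw [this]
      exact mul_mem ha hb
    | inv a _ ha =>
      have : t ^ k * a⁻¹ * (t ^ k)⁻¹ = (t ^ k * a * (t ^ k)⁻¹)⁻¹ := by group
      rw [this]
      exact inv_mem ha
  -- every element is n * t ^ k
  have hall : ∀ g : Γ, ∃ n ∈ Subgroup.closure Ψ, ∃ k : ℤ, g = n * t ^ k := by
    intro g
    have hg : g ∈ Subgroup.closure (S : Set Γ) := by rw [hS]; trivial
    induction hg using Subgroup.closure_induction with
    | mem s hs =>
      refine ⟨p s, ?_, Multiplicative.toAdd (τ s), ?_⟩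
      · have := hconj s hs 0
        simpa using this
      · simp only [p]
        rw [inv_mul_cancel_right]
    | one => exact ⟨1, one_mem _, 0, by simp⟩
    | mul a b _ _ ha hb =>
      obtain ⟨n, hn, k, rfl⟩ := ha
      obtain ⟨n', hn', k', rfl⟩ := hb
      refine ⟨n * (t ^ k * n' * (t ^ k)⁻¹), mul_mem hn (hN k n' hn'), k + k', ?_⟩
      rw [zpow_add]
      group
    | inv a _ ha =>
      obtain ⟨n, hn, k, rfl⟩ := ha
      refine ⟨t ^ (-k) * n⁻¹ * (t ^ (-k))⁻¹, hN (-k) _ (inv_mem hn), -k, ?_⟩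
      group
  have hker : τ.ker = Subgroup.closure Ψ := by
    refine le_antisymm ?_ hΨker
    intro g hg
    obtain ⟨n, hn, k, rfl⟩ := hall g
    rw [MonoidHom.mem_ker, map_mul, htk, MonoidHom.mem_ker.mp (hΨker hn), one_mul] at hg
    have hk : k = 0 := by
      have := congrArg Multiplicative.toAdd hg
      simpa using this
    rw [hk, zpow_zero, mul_one]
    exact hn
  rw [hker]
  exact ⟨hΨfin.toFinset, by rw [Set.Finite.coe_toFinset]⟩

end kl10a

end Pool.Agent.Lib.MP_0f7bfe_al
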