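import Pool.Agent.Lib.MP_0f7bfe_al.KL1

/-!
Wave KL, module 10b: growth of the kernel of a map onto the integers.
-/

open scoped Pointwise

namespace Pool.Agent.Lib.MP_0f7bfe_al

universe u v

section kl
variable {Γ : Type u} [Group Γ]

theorem kl10b_count (τ : Γ →* Multiplicative ℤ) (hτ : Function.Surjective τ)
    (T : Finset τ.ker) : ∃ S : Finset Γ, (1 : Γ) ∈ S ∧
      ∀ r, (r + 1) * vol T r ≤ vol S (2 * r) := by
  classical
  obtain ⟨t, ht⟩ := hτ (Multiplicative.ofAdd 1)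
  set S : Finset Γ := insert 1 (insert t (T.image τ.ker.subtype)) with hS
  have h1 : (1 : Γ) ∈ S := Finset.mem_insert_self _ _
  have htS : t ∈ S := Finset.mem_insert_of_mem (Finset.mem_insert_self _ _)
  refine ⟨S, h1, fun r => ?_⟩
  have hTr : vol T r = (T ^ r).card := vol_eq _ _
  have hSr : vol S (2 * r) = (S ^ (2 * r)).card := vol_eq _ _
  rw [hTr, hSr, ← Finset.card_range (r + 1), ← Finset.card_product]
  apply Finset.card_le_card_of_injOn (fun p => (p.2 : Γ) * t ^ p.1)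
  · rintro ⟨i, n⟩ hp
    rw [Finset.mem_coe, Finset.mem_product, Finset.mem_range] at hp
    rw [Finset.mem_coe, two_mul, pow_add]
    apply Finset.mul_mem_mul
    · have h2 : T.image τ.ker.subtype ⊆ S := by
        intro x hx
        exact Finset.mem_insert_of_mem (Finset.mem_insert_of_mem hx)
      have h3 : (T ^ r).image τ.ker.subtype ⊆ S ^ r := by
        rw [Finset.image_pow]
        exact Finset.pow_subset_pow_left h2
      exact h3 (Finset.mem_image_of_mem _ hp.2)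
    · have h2 : t ^ i ∈ S ^ i := Finset.pow_mem_pow htS
      exact Finset.pow_subset_pow_right h1 (by omega) h2
  · rintro ⟨i, n⟩ _ ⟨i', n'⟩ _ h
    simp only at h
    have h2 := congrArg τ h
    rw [map_mul, map_mul, map_pow, map_pow, ht, MonoidHom.mem_ker.1 n.2,
      MonoidHom.mem_ker.1 n'.2, one_mul, one_mul, ← ofAdd_nsmul, ← ofAdd_nsmul] at h2
    have h3 : (i : ℤ) = i' := by
      have h4 := Multiplicative.ofAdd.injective h2
      simpa using h4
    have h5 : i = i' := by exact_mod_cast h3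
    subst h5
    have h6 : (n : Γ) = n' := mul_right_cancel h
    rw [Subtype.ext h6]

theorem slowGrowth_ker (D : ℝ) (hD0 : 0 ≤ D) (hD : SlowGrowth Γ D) (τ : Γ →* Multiplicative ℤ)
    (hτ : Function.Surjective τ) : SlowGrowth τ.ker (D - 1) := by
  classical
  intro T
  obtain ⟨S, h1, hS⟩ := kl10b_count τ hτ T
  obtain ⟨C, hC⟩ := hD S
  refine ⟨|C| * 3 ^ D, fun N => ?_⟩
  obtain ⟨ρ, hρ, hv⟩ := hC (2 * N + 2)
  refine ⟨ρ / 2, by omega, ?_⟩
  set r := ρ / 2 with hr
  have hr1 : 1 ≤ r := by omega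
  have hr0 : (0 : ℝ) < r := by exact_mod_cast hr1
  have hmono : vol S (2 * r) ≤ vol S ρ := by
    unfold vol
    exact Finset.card_le_card (Finset.pow_subset_pow_right h1 (by omega))
  have h2 : ((r : ℝ) + 1) * vol T r ≤ |C| * (3 ^ D * (r : ℝ) ^ D) := by
    have h3 : ((r : ℝ) + 1) * vol T r ≤ vol S ρ := by
      exact_mod_cast (hS r).trans hmono
    have h4 : (ρ : ℝ) ≤ 3 * r := by
      have : ρ ≤ 3 * r := by omega
      exact_mod_cast this
    have h5 : (ρ : ℝ) ^ D ≤ 3 ^ D * (r : ℝ) ^ D := by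
      rw [← Real.mul_rpow (by norm_num) hr0.le]
      exact Real.rpow_le_rpow (Nat.cast_nonneg _) h4 hD0
    have h6 : 0 ≤ (ρ : ℝ) ^ D := Real.rpow_nonneg (Nat.cast_nonneg _) _
    calc ((r : ℝ) + 1) * vol T r ≤ vol S ρ := h3
      _ ≤ C * (ρ : ℝ) ^ D := hv
      _ ≤ |C| * (ρ : ℝ) ^ D := mul_le_mul_of_nonneg_right (le_abs_self C) h6
      _ ≤ _ := mul_le_mul_of_nonneg_left h5 (abs_nonneg C)
  have h3 : (r : ℝ) * vol T r ≤ r * (|C| * 3 ^ D * (r : ℝ) ^ (D - 1)) := by
    have h4 : (r : ℝ) * (r : ℝ) ^ (D - 1) = (r : ℝ) ^ D := by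
      rw [Real.rpow_sub_one hr0.ne']
      field_simp
    have h5 : (0 : ℝ) ≤ vol T r := Nat.cast_nonneg _
    calc (r : ℝ) * vol T r ≤ ((r : ℝ) + 1) * vol T r := by nlinarith
      _ ≤ |C| * (3 ^ D * (r : ℝ) ^ D) := h2
      _ = _ := by rw [← h4]; ring
  exact le_of_mul_le_mul_left h3 hr0

end kl

end Pool.Agent.Lib.MP_0f7bfe_al
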