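import Pool.Agent.Lib.MP_0f7bfe_al.KL1

/-!
Wave KL, module 11: an infinite group grows at least linearly.
-/

open scoped Pointwise

namespace Pool.Agent.Lib.MP_0f7bfe_al

universe u v

section kl
variable {Γ : Type u} [Group Γ]

theorem not_slow_of_lt_one [Infinite Γ] (hG : Group.FG Γ) (D : ℝ) (hD : D < 1) :
    ¬ SlowGrowth Γ D := by
  classical
  intro h
  obtain ⟨T, hT⟩ := hG.1
  set S : Finset Γ := insert 1 T with hS
  have h1 : (1 : Γ) ∈ S := Finset.mem_insert_self _ _
  have hcl : Subgroup.closure (S : Set Γ) = ⊤ := by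
    rw [eq_top_iff, ← hT]
    apply Subgroup.closure_mono
    rw [hS, Finset.coe_insert]
    exact Set.subset_insert _ _
  have hinf : ((Subgroup.closure (S : Set Γ) : Subgroup Γ) : Set Γ).Infinite := by
    rw [hcl, Subgroup.coe_top]
    exact Set.infinite_univ
  have hgrow : ∀ n : ℕ, ((n : ℝ) + 1) ≤ vol S n := by
    intro n
    have h2 := Finset.add_one_le_card_pow h1 hinf n
    have h3 : vol S n = (S ^ n).card := vol_eq _ _
    rw [h3]
    exact_mod_cast h2
  obtain ⟨C, hC⟩ := h S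
  have htend := tendsto_rpow_atTop (y := 1 - D) (by linarith)
  obtain ⟨N, hN⟩ := Filter.eventually_atTop.1 (htend.eventually_gt_atTop C)
  obtain ⟨r, hr, hv⟩ := hC (max ⌈N⌉₊ 1)
  have hr1 : 1 ≤ r := (le_max_right _ _).trans hr
  have hrN : N ≤ r := (Nat.le_ceil N).trans (by exact_mod_cast (le_max_left _ _).trans hr)
  have hr0 : (0 : ℝ) < r := by exact_mod_cast hr1
  have h4 := hN r hrN
  have h5 := (hgrow r).trans hv
  have hpos : 0 < (r : ℝ) ^ D := Real.rpow_pos_of_pos hr0 D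
  have h6 : (r : ℝ) ^ (1 - D) * (r : ℝ) ^ D = r := by
    rw [← Real.rpow_add hr0]
    norm_num
  have h7 : C * (r : ℝ) ^ D < (r : ℝ) ^ (1 - D) * (r : ℝ) ^ D :=
    mul_lt_mul_of_pos_right h4 hpos
  linarith

end kl

end Pool.Agent.Lib.MP_0f7bfe_al
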