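import Pool.Agent.Lib.MP_0f7bfe_al.KLDefs

/-! KL-8a: a vector with small Laplacian relative to its energy. -/

open scoped Pointwise InnerProductSpace
open Filter Topology

namespace Pool.Agent.Lib.MP_0f7bfe_al

universe u v

section kl8a

variable {H : Type*} [NormedAddCommGroup H] [InnerProductSpace ℝ H]

theorem kl8a_inner_pow (P : H →L[ℝ] H) (hsym : ∀ x y, ⟪P x, y⟫_ℝ = ⟪x, P y⟫_ℝ) (δ : H)
    (a b : ℕ) : ⟪(P ^ a) δ, (P ^ b) δ⟫_ℝ = ⟪(P ^ (a + b)) δ, δ⟫_ℝ := by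
  induction b generalizing a with
  | zero => simp
  | succ b ih =>
    have h1 : (P ^ (b + 1)) δ = P ((P ^ b) δ) := by rw [pow_succ']; rfl
    have h2 : P ((P ^ a) δ) = (P ^ (a + 1)) δ := by rw [pow_succ']; rfl
    rw [h1, ← hsym, h2, ih]
    congr 3
    omega

theorem spectral_ratio {H : Type*} [NormedAddCommGroup H] [InnerProductSpace ℝ H]
    [CompleteSpace H] (P : H →L[ℝ] H) (hsym : ∀ x y, ⟪P x, y⟫_ℝ = ⟪x, P y⟫_ℝ)
    (hpos : ∀ x, 0 ≤ ⟪P x, x⟫_ℝ) (hle : ∀ x, ⟪P x, x⟫_ℝ ≤ ‖x‖ ^ 2)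
    (hfix : ∀ x, P x = x → x = 0) (δ : H)
    (hslow : ∀ ρ : ℝ, 0 ≤ ρ → ρ < 1 → ∀ C : ℝ, ∃ k : ℕ, C * ρ ^ k < ‖(P ^ k) δ‖ ^ 2)
    (ε : ℝ) (hε : 0 < ε) :
    ∃ F : H, F - P F ≠ 0 ∧ ‖F - P F‖ ^ 2 ≤ ε * ⟪F - P F, F⟫_ℝ := by
  by_contra hcon
  push Not at hcon
  obtain ⟨q, hq⟩ : ∃ q : ℕ → ℝ, q = fun k => ⟪(P ^ k) δ, δ⟫_ℝ := ⟨_, rfl⟩
  have hip : ∀ a b, ⟪(P ^ a) δ, (P ^ b) δ⟫_ℝ = q (a + b) := fun a b => by
    rw [kl8a_inner_pow P hsym, hq]
  have hPs : ∀ a, P ((P ^ a) δ) = (P ^ (a + 1)) δ := fun a => by rw [pow_succ']; rfl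
  have hn : ∀ m, ‖(P ^ m) δ‖ ^ 2 = q (2 * m) := fun m => by
    rw [← real_inner_self_eq_norm_sq, hip, two_mul]
  -- no fixed vectors in the orbit
  have hne : ∀ m, (P ^ m) δ - P ((P ^ m) δ) ≠ 0 := by
    intro m h0
    have h1 : (P ^ m) δ = 0 := hfix _ (sub_eq_zero.mp h0).symm
    have h2 : ∀ k, m ≤ k → (P ^ k) δ = 0 := by
      intro k hk
      obtain ⟨l, rfl⟩ := Nat.exists_eq_add_of_le hk
      rw [add_comm, pow_add]
      change (P ^ l) ((P ^ m) δ) = 0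
      rw [h1, map_zero]
    obtain ⟨k, hk⟩ := hslow (1 / 2) (by norm_num) (by norm_num)
      (∑ i ∈ Finset.range m, 2 ^ i * ‖(P ^ i) δ‖ ^ 2)
    by_cases hkm : m ≤ k
    · rw [h2 k hkm, norm_zero] at hk
      have : 0 ≤ (∑ i ∈ Finset.range m, (2 : ℝ) ^ i * ‖(P ^ i) δ‖ ^ 2) * (1 / 2) ^ k := by
        positivity
      linarith [hk]
    · have h3 : (2 : ℝ) ^ k * ‖(P ^ k) δ‖ ^ 2 ≤
          ∑ i ∈ Finset.range m, (2 : ℝ) ^ i * ‖(P ^ i) δ‖ ^ 2 :=
        Finset.single_le_sum (f := fun i => (2 : ℝ) ^ i * ‖(P ^ i) δ‖ ^ 2)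
          (fun _ _ => by positivity) (Finset.mem_range.mpr (not_le.mp hkm))
      have h4 := mul_le_mul_of_nonneg_right h3 (by positivity : (0 : ℝ) ≤ (1 / 2) ^ k)
      have h5 : (2 : ℝ) ^ k * ‖(P ^ k) δ‖ ^ 2 * (1 / 2) ^ k = ‖(P ^ k) δ‖ ^ 2 := by
        rw [mul_right_comm, ← mul_pow]
        norm_num
      rw [h5] at h4
      linarith
  obtain ⟨c, hc⟩ : ∃ c : ℕ → ℝ, c = fun k => q k - q (k + 1) := ⟨_, rfl⟩
  have hc' : ∀ k, c k = q k - q (k + 1) := fun k => by rw [hc]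
  -- inner products
  have hin : ∀ m, ⟪(P ^ m) δ - P ((P ^ m) δ), (P ^ m) δ⟫_ℝ = c (2 * m) := by
    intro m
    rw [inner_sub_left, hPs, hip, hip, hc']
    have e1 : m + m = 2 * m := by omega
    have e2 : m + 1 + m = 2 * m + 1 := by omega
    rw [e1, e2]
  have hnorm : ∀ m, ‖(P ^ m) δ - P ((P ^ m) δ)‖ ^ 2 = c (2 * m) - c (2 * m + 1) := by
    intro m
    rw [← real_inner_self_eq_norm_sq, inner_sub_left, inner_sub_right, inner_sub_right, hPs, hip,
      hip, hip, hip, hc', hc']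
    have e1 : m + m = 2 * m := by omega
    have e2 : m + (m + 1) = 2 * m + 1 := by omega
    have e3 : m + 1 + m = 2 * m + 1 := by omega
    have e4 : m + 1 + (m + 1) = 2 * m + 1 + 1 := by omega
    rw [e1, e2, e3, e4]
  have hc0 : ∀ m, 0 ≤ c (2 * m) := by
    intro m
    rw [← hin, inner_sub_left, real_inner_self_eq_norm_sq]
    linarith [hle ((P ^ m) δ)]
  have hc1 : ∀ m, c (2 * m + 1) ≤ c (2 * m) := by
    intro m
    have := hnorm m
    nlinarith [sq_nonneg ‖(P ^ m) δ - P ((P ^ m) δ)‖]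
  have hc2 : ∀ m, c (2 * m + 2) ≤ c (2 * m + 1) := by
    intro m
    have h1 := hpos ((P ^ m) δ - P ((P ^ m) δ))
    rw [map_sub, hPs, hPs, inner_sub_left, inner_sub_right, inner_sub_right, hip, hip, hip,
      hip] at h1
    rw [hc', hc']
    have e2 : m + 1 + m = 2 * m + 1 := by omega
    have e3 : m + 1 + (m + 1) = 2 * m + 1 + 1 := by omega
    have e4 : m + 1 + 1 + m = 2 * m + 1 + 1 := by omega
    have e5 : m + 1 + 1 + (m + 1) = 2 * m + 2 + 1 := by omega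
    rw [e2, e3, e4, e5] at h1
    have e6 : 2 * m + 2 = 2 * m + 1 + 1 := by omega
    rw [e6] at h1 ⊢
    linarith
  have hcn : ∀ k, 0 ≤ c k := by
    intro k
    rcases Nat.even_or_odd' k with ⟨m, rfl | rfl⟩
    · exact hc0 m
    · have h1 := hc2 m
      have h2 := hc0 (m + 1)
      rw [mul_add, mul_one] at h2
      exact h2.trans h1
  -- exponential decay
  obtain ⟨r, hr⟩ : ∃ r : ℝ, r = max (1 - ε) 0 := ⟨_, rfl⟩
  have hr0 : 0 ≤ r := by rw [hr]; exact le_max_right _ _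
  have hr1 : r < 1 := by rw [hr]; exact max_lt (by linarith) one_pos
  have hstep : ∀ m, c (2 * (m + 1)) ≤ r * c (2 * m) := by
    intro m
    have h1 := hcon ((P ^ m) δ) (hne m)
    rw [hin, hnorm] at h1
    have h2 := hc2 m
    have h3 : (1 - ε) * c (2 * m) ≤ r * c (2 * m) :=
      mul_le_mul_of_nonneg_right (by rw [hr]; exact le_max_left _ _) (hc0 m)
    rw [mul_add, mul_one]
    nlinarith
  have hdecay : ∀ m, c (2 * m) ≤ r ^ m * c 0 := by
    intro m
    induction m with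
    | zero => simp
    | succ m ih =>
      calc c (2 * (m + 1)) ≤ r * c (2 * m) := hstep m
        _ ≤ r * (r ^ m * c 0) := mul_le_mul_of_nonneg_left ih hr0
        _ = r ^ (m + 1) * c 0 := by ring
  -- convergence of q
  have hanti : Antitone q := by
    refine antitone_nat_of_succ_le fun k => ?_
    have := hcn k
    rw [hc'] at this
    linarith
  have hq0 : ∀ k, 0 ≤ q k := by
    intro k
    have h1 : q (2 * k) ≤ q k := hanti (by omega)
    rw [← hn] at h1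
    exact (sq_nonneg _).trans h1
  obtain ⟨l, hl⟩ : ∃ l, Tendsto q atTop (𝓝 l) :=
    ⟨_, tendsto_atTop_ciInf hanti ⟨0, by rintro _ ⟨k, rfl⟩; exact hq0 k⟩⟩
  have hlq : ∀ k, l ≤ q k := fun k => hanti.le_of_tendsto hl k
  have hcauchy : CauchySeq fun m => (P ^ m) δ := by
    refine cauchySeq_of_le_tendsto_0 (fun m => Real.sqrt (2 * (q (2 * m) - l))) ?_ ?_
    · intro a b m ha hb
      rw [dist_eq_norm]
      refine Real.le_sqrt_of_sq_le ?_
      rw [← real_inner_self_eq_norm_sq, inner_sub_left, inner_sub_right, inner_sub_right, hip,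
        hip, hip, hip]
      have h1 : q (a + a) ≤ q (2 * m) := hanti (by omega)
      have h2 : q (b + b) ≤ q (2 * m) := hanti (by omega)
      have h3 := hlq (a + b)
      have h4 := hlq (b + a)
      linarith
    · have h1 : Tendsto (fun m => q (2 * m)) atTop (𝓝 l) :=
        hl.comp (tendsto_id.const_mul_atTop' (by norm_num : 0 < 2))
      have h2 : Tendsto (fun m => Real.sqrt (2 * (q (2 * m) - l))) atTop
          (𝓝 (Real.sqrt (2 * (l - l)))) :=
        (Real.continuous_sqrt.tendsto _).comp ((h1.sub_const l).const_mul 2)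
      simpa using h2
  obtain ⟨L, hL⟩ := cauchySeq_tendsto_of_complete hcauchy
  have hPL : P L = L := by
    have h1 : Tendsto (fun m => P ((P ^ m) δ)) atTop (𝓝 (P L)) := (P.continuous.tendsto L).comp hL
    have h2 : Tendsto (fun m => P ((P ^ m) δ)) atTop (𝓝 L) := by
      have : (fun m => P ((P ^ m) δ)) = fun m => (P ^ (m + 1)) δ := funext hPs
      rw [this]
      exact hL.comp (tendsto_add_atTop_nat 1)
    exact tendsto_nhds_unique h1 h2
  have hL0 := hfix L hPL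
  have hq2 : Tendsto (fun m => q (2 * m)) atTop (𝓝 0) := by
    have h1 : Tendsto (fun m => ‖(P ^ m) δ‖ ^ 2) atTop (𝓝 (‖L‖ ^ 2)) := (hL.norm).pow 2
    rw [hL0, norm_zero] at h1
    simp only [hn] at h1
    simpa using h1
  -- final estimate
  have h1r : 0 < 1 - r := by linarith
  have hmono : Monotone fun m => q (2 * m) - 2 * c 0 / (1 - r) * r ^ m := by
    refine monotone_nat_of_le_succ fun m => ?_
    have e1 := hc' (2 * m)
    have e2 := hc' (2 * m + 1)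
    have e3 : 2 * (m + 1) = 2 * m + 1 + 1 := by ring
    have h1 := hdecay m
    have h2 := hc1 m
    have h3 : 2 * c 0 / (1 - r) * r ^ m - 2 * c 0 / (1 - r) * r ^ (m + 1) = 2 * c 0 * r ^ m := by
      rw [pow_succ]
      field_simp
    rw [e3]
    linarith
  have hlim : Tendsto (fun m => q (2 * m) - 2 * c 0 / (1 - r) * r ^ m) atTop (𝓝 0) := by
    have h1 := hq2.sub ((tendsto_pow_atTop_nhds_zero_of_lt_one hr0 hr1).const_mul
      (2 * c 0 / (1 - r)))
    simpa using h1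
  obtain ⟨k, hk⟩ := hslow r hr0 hr1 (2 * c 0 / (1 - r))
  have h5 := hmono.ge_of_tendsto hlim k
  rw [hn] at hk
  linarith

end kl8a

end Pool.Agent.Lib.MP_0f7bfe_al
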