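import Pool.Agent.Lib.MP_0f7bfe_al.LF5b

/-! Hilbert space set-up for flows of finite energy. -/

open scoped Pointwise InnerProductSpace

namespace Pool.Agent.Lib.MP_0f7bfe_al

universe u v

section lfh

/-- square-summable real functions -/
abbrev L2R (α : Type u) := lp (fun _ : α => ℝ) 2

theorem L2R_summable {α : Type u} (x : L2R α) : Summable fun a => (x a) ^ 2 := by
  have h := lp.memℓp x
  rw [memℓp_gen_iff (by norm_num)] at h
  simpa using h

theorem L2R_norm_sq {α : Type u} (x : L2R α) : ‖x‖ ^ 2 = ∑' a, (x a) ^ 2 := by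
  have h := lp.norm_rpow_eq_tsum (p := 2) (by norm_num) x
  simpa using h

/-- the element of `ℓ²` given by a square-summable function -/
noncomputable def mkL2 {α : Type u} (f : α → ℝ) (h : Summable fun a => f a ^ 2) : L2R α :=
  ⟨f, memℓp_gen (by simpa using h)⟩

@[simp] theorem mkL2_apply {α : Type u} (f : α → ℝ) (h : Summable fun a => f a ^ 2) (a : α) :
    mkL2 f h a = f a := rfl

theorem sq_summable_of_finite {α : Type u} {f : α → ℝ} (h : f.support.Finite) :
    Summable fun a => f a ^ 2 := by
  apply summable_of_hasFiniteSupport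
  refine h.subset fun e he => ?_
  rw [Function.mem_support] at he ⊢
  exact fun h => he (by rw [h]; ring)

theorem L2R_inner {α : Type u} (x y : L2R α) : ⟪x, y⟫_ℝ = ∑' a, x a * y a := by
  rw [lp.inner_eq_tsum]
  refine tsum_congr fun a => ?_
  simp [mul_comm]

theorem L2R_continuous_apply {α : Type u} (a : α) : Continuous fun x : L2R α => x a := by
  have h : LipschitzWith 1 fun x : L2R α => x a := by
    apply LipschitzWith.of_dist_le_mul
    intro x y
    rw [NNReal.coe_one, one_mul, dist_eq_norm, dist_eq_norm]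
    exact lp.norm_apply_le_norm (by norm_num) (x - y) a
  exact h.continuous

variable {Γ : Type u} [Group Γ]

theorem dvg_zero (S : Finset Γ) (g : Γ) : dvg S (fun _ => 0) g = 0 := by simp [dvg]

/-- finitely supported flows without sources -/
noncomputable def finFlows (S : Finset Γ) : Submodule ℝ (L2R (Γ × S)) where
  carrier := {c | (Function.support fun e => c e).Finite ∧ ∀ g, dvg S (fun e => c e) g = 0}
  zero_mem' := by
    refine ⟨?_, fun g => ?_⟩
    · simp
    · simp [dvg]
  add_mem' := by
    rintro a b ⟨ha, ha'⟩ ⟨hb, hb'⟩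
    refine ⟨(ha.union hb).subset ?_, fun g => ?_⟩
    · exact Function.support_add (fun e => a e) (fun e => b e)
    · have := dvg_add S (fun e => a e) (fun e => b e) g
      rw [ha', hb', add_zero] at this
      exact this
  smul_mem' := by
    rintro r a ⟨ha, ha'⟩
    refine ⟨ha.subset ?_, fun g => ?_⟩
    · intro e he h
      apply he
      change r * a e = 0
      have h' : a e = 0 := h
      rw [h', mul_zero]
    · have := dvg_smul S r (fun e => a e) g
      rw [ha', mul_zero] at this
      exact this

/-- all square-summable flows without sources -/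
noncomputable def zeroFlows (S : Finset Γ) : Submodule ℝ (L2R (Γ × S)) where
  carrier := {c | ∀ g, dvg S (fun e => c e) g = 0}
  zero_mem' := by
    intro g
    simp [dvg]
  add_mem' := by
    rintro a b ha' hb' g
    have := dvg_add S (fun e => a e) (fun e => b e) g
    rw [ha', hb', add_zero] at this
    exact this
  smul_mem' := by
    rintro r a ha' g
    have := dvg_smul S r (fun e => a e) g
    rw [ha', mul_zero] at this
    exact this

theorem mem_finFlows (S : Finset Γ) (c : L2R (Γ × S)) : c ∈ finFlows S ↔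
    (Function.support fun e => c e).Finite ∧ ∀ g, dvg S (fun e => c e) g = 0 := Iff.rfl

theorem mem_zeroFlows (S : Finset Γ) (c : L2R (Γ × S)) : c ∈ zeroFlows S ↔
    ∀ g, dvg S (fun e => c e) g = 0 := Iff.rfl

theorem continuous_dvg (S : Finset Γ) (g : Γ) :
    Continuous fun c : L2R (Γ × S) => dvg S (fun e => c e) g := by
  unfold dvg
  exact continuous_finsetSum _ fun s _ => (L2R_continuous_apply _).sub (L2R_continuous_apply _)

theorem isClosed_zeroFlows (S : Finset Γ) : IsClosed (zeroFlows S : Set (L2R (Γ × S))) := by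
  have : (zeroFlows S : Set (L2R (Γ × S))) = ⋂ g, {c | dvg S (fun e => c e) g = 0} := by
    ext c; simp [mem_zeroFlows]
  rw [this]
  exact isClosed_iInter fun g => isClosed_eq (continuous_dvg S g) continuous_const

theorem closure_finFlows_le (S : Finset Γ) : (finFlows S).topologicalClosure ≤ zeroFlows S :=
  Submodule.topologicalClosure_minimal _ (fun _ hc => hc.2) (isClosed_zeroFlows S)

/-- `CycleApprox` in terms of subspaces of the Hilbert space -/
theorem cycleApprox_of_le (S : Finset Γ)
    (h : zeroFlows S ≤ (finFlows S).topologicalClosure) : CycleApprox S := by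
  intro ψ hψ hψd η hη
  have hmem : mkL2 ψ hψ ∈ (finFlows S).topologicalClosure := h (fun g => hψd g)
  have hcl : mkL2 ψ hψ ∈ closure (finFlows S : Set (L2R (Γ × S))) := hmem
  rw [Metric.mem_closure_iff] at hcl
  obtain ⟨c, hc, hdist⟩ := hcl (Real.sqrt η) (Real.sqrt_pos.2 hη)
  refine ⟨fun e => c e, hc.1, hc.2, ?_⟩
  rw [dist_eq_norm] at hdist
  have h2 := L2R_norm_sq (mkL2 ψ hψ - c)
  have h3 : ∑' e, (ψ e - c e) ^ 2 = ‖mkL2 ψ hψ - c‖ ^ 2 := by
    rw [h2]; rfl
  rw [h3]
  have h4 : ‖mkL2 ψ hψ - c‖ ^ 2 ≤ Real.sqrt η ^ 2 :=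
    pow_le_pow_left₀ (norm_nonneg _) hdist.le 2
  rwa [Real.sq_sqrt hη.le] at h4

omit [Group Γ] in
theorem esg_finite (S : Finset Γ) (g : Γ) (s : S) : (esg S g s).support.Finite := by
  refine (Set.finite_singleton (g, s)).subset ?_
  intro e he
  by_contra hne
  exact he (esg_ne S g s (by simpa using hne))

/-- the edge as an element of the Hilbert space -/
noncomputable def eE (S : Finset Γ) (e : Γ × S) : L2R (Γ × S) :=
  mkL2 (esg S e.1 e.2) (sq_summable_of_finite (esg_finite S e.1 e.2))

omit [Group Γ] in
theorem inner_eE (S : Finset Γ) (x : L2R (Γ × S)) (e : Γ × S) : ⟪x, eE S e⟫_ℝ = x e := by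
  rw [L2R_inner, tsum_eq_single e]
  · change x e * esg S e.1 e.2 e = x e
    rw [show e = (e.1, e.2) from rfl, esg_self, mul_one]
  · intro e' he'
    change x e' * esg S e.1 e.2 e' = 0
    rw [esg_ne S e.1 e.2 he', mul_zero]

end lfh

end Pool.Agent.Lib.MP_0f7bfe_al
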