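import Pool.Agent.Lib.MP_0f7bfe_al.KLDefs
import Pool.Agent.Lib.MP_0f7bfe_al.KL8a
import Pool.Agent.Lib.MP_0f7bfe_al.LFH

/-! KL-8b: almost harmonic square-summable functions. -/

open scoped Pointwise InnerProductSpace
open Filter Topology

namespace Pool.Agent.Lib.MP_0f7bfe_al

universe u v

section kl8b

variable {Γ : Type u} [Group Γ]

/-- right translation -/
noncomputable def kl8b_L (g : Γ) : L2R Γ →ₗ[ℝ] L2R Γ where
  toFun x := mkL2 (fun y => x (y * g))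
    ((Equiv.mulRight g).summable_iff (f := fun a => x a ^ 2) |>.mpr (L2R_summable x))
  map_add' x y := by
    ext a
    rfl
  map_smul' c x := by
    ext a
    rfl

theorem kl8b_L_apply (g : Γ) (x : L2R Γ) (y : Γ) : kl8b_L g x y = x (y * g) := rfl

/-- right translation -/
noncomputable def kl8b_R (g : Γ) : L2R Γ →L[ℝ] L2R Γ :=
  LinearIsometry.toContinuousLinearMap
    { kl8b_L g with
      norm_map' := fun x => by
        have h1 : ‖kl8b_L g x‖ ^ 2 = ‖x‖ ^ 2 := by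
          rw [L2R_norm_sq, L2R_norm_sq]
          exact (Equiv.mulRight g).tsum_eq fun a => x a ^ 2
        exact (sq_eq_sq₀ (norm_nonneg _) (norm_nonneg _)).mp h1 }

theorem kl8b_R_apply (g : Γ) (x : L2R Γ) (y : Γ) : kl8b_R g x y = x (y * g) := rfl

theorem kl8b_R_norm (g : Γ) (x : L2R Γ) : ‖kl8b_R g x‖ = ‖x‖ := by
  have h1 : ‖kl8b_R g x‖ ^ 2 = ‖x‖ ^ 2 := by
    rw [L2R_norm_sq, L2R_norm_sq]
    exact (Equiv.mulRight g).tsum_eq fun a => x a ^ 2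
  exact (sq_eq_sq₀ (norm_nonneg _) (norm_nonneg _)).mp h1

theorem kl8b_R_inner (g : Γ) (x y : L2R Γ) : ⟪kl8b_R g x, y⟫_ℝ = ⟪x, kl8b_R g⁻¹ y⟫_ℝ := by
  rw [L2R_inner, L2R_inner, ← (Equiv.mulRight g).tsum_eq fun a => x a * kl8b_R g⁻¹ y a]
  refine tsum_congr fun a => ?_
  simp [kl8b_R_apply]

/-- lazy averaging operator -/
noncomputable def kl8b_P (S : Finset Γ) : L2R Γ →L[ℝ] L2R Γ :=
  (1 / 2 : ℝ) • (1 + (1 / S.card : ℝ) • ∑ s ∈ S, kl8b_R s)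

theorem kl8b_P_apply (S : Finset Γ) (x : L2R Γ) : kl8b_P S x =
    (1 / 2 : ℝ) • (x + (1 / S.card : ℝ) • ∑ s ∈ S, kl8b_R s x) := by
  simp [kl8b_P]

theorem kl8b_P_sym (S : Finset Γ) (hinv : ∀ s ∈ S, s⁻¹ ∈ S) (x y : L2R Γ) :
    ⟪kl8b_P S x, y⟫_ℝ = ⟪x, kl8b_P S y⟫_ℝ := by
  rw [kl8b_P_apply, kl8b_P_apply, real_inner_smul_left, real_inner_smul_right, inner_add_left,
    inner_add_right, real_inner_smul_left, real_inner_smul_right, sum_inner, inner_sum]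
  have h1 : ∑ s ∈ S, ⟪kl8b_R s x, y⟫_ℝ = ∑ s ∈ S, ⟪x, kl8b_R s y⟫_ℝ := by
    refine Finset.sum_bij' (fun s _ => s⁻¹) (fun s _ => s⁻¹) hinv hinv (fun s _ => inv_inv s)
      (fun s _ => inv_inv s) (fun s _ => kl8b_R_inner s x y)
  rw [h1]

theorem kl8b_diff (g : Γ) (x : L2R Γ) :
    ‖kl8b_R g x - x‖ ^ 2 = 2 * ‖x‖ ^ 2 - 2 * ⟪kl8b_R g x, x⟫_ℝ := by
  rw [norm_sub_sq_real, kl8b_R_norm]
  ring

theorem kl8b_energy (S : Finset Γ) (h1 : (1 : Γ) ∈ S) (x : L2R Γ) :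
    ∑ s ∈ S, ‖kl8b_R s x - x‖ ^ 2 = 4 * S.card * ⟪x - kl8b_P S x, x⟫_ℝ := by
  have hm : (0 : ℝ) < S.card := by exact_mod_cast Finset.card_pos.mpr ⟨1, h1⟩
  simp only [kl8b_diff]
  rw [Finset.sum_sub_distrib, Finset.sum_const, nsmul_eq_mul, ← Finset.mul_sum, inner_sub_left,
    kl8b_P_apply, real_inner_smul_left, inner_add_left, real_inner_smul_left, sum_inner,
    real_inner_self_eq_norm_sq]
  field_simp
  ring

theorem kl8b_sum (S : Finset Γ) (h1 : (1 : Γ) ∈ S) (x : L2R Γ) :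
    ∑ s ∈ S, (kl8b_R s x - x) = (-(2 * S.card) : ℝ) • (x - kl8b_P S x) := by
  have hm : (S.card : ℝ) ≠ 0 := by exact_mod_cast (Finset.card_pos.mpr ⟨1, h1⟩).ne'
  rw [Finset.sum_sub_distrib, Finset.sum_const, kl8b_P_apply, ← Nat.cast_smul_eq_nsmul ℝ]
  have h2 : (S.card : ℝ) • ((1 / S.card : ℝ) • ∑ s ∈ S, kl8b_R s x) = ∑ s ∈ S, kl8b_R s x := by
    rw [smul_smul, mul_one_div_cancel hm, one_smul]
  generalize (1 / S.card : ℝ) • ∑ s ∈ S, kl8b_R s x = v at h2 ⊢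
  rw [← h2]
  module

theorem kl8b_pos (S : Finset Γ) (h1 : (1 : Γ) ∈ S) (x : L2R Γ) : 0 ≤ ⟪kl8b_P S x, x⟫_ℝ := by
  have hm : (0 : ℝ) < S.card := by exact_mod_cast Finset.card_pos.mpr ⟨1, h1⟩
  rw [kl8b_P_apply, real_inner_smul_left, inner_add_left, real_inner_smul_left, sum_inner,
    real_inner_self_eq_norm_sq]
  have h2 : ∑ s ∈ S, (-‖x‖ ^ 2) ≤ ∑ s ∈ S, ⟪kl8b_R s x, x⟫_ℝ := by
    refine Finset.sum_le_sum fun s _ => ?_
    have := abs_le.mp (abs_real_inner_le_norm (kl8b_R s x) x)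
    rw [kl8b_R_norm] at this
    nlinarith [this.1]
  rw [Finset.sum_const, nsmul_eq_mul] at h2
  have h3 : -‖x‖ ^ 2 ≤ 1 / (S.card : ℝ) * ∑ s ∈ S, ⟪kl8b_R s x, x⟫_ℝ := by
    rw [one_div, ← div_eq_inv_mul, le_div_iff₀ hm]
    linarith
  linarith

theorem kl8b_le (S : Finset Γ) (h1 : (1 : Γ) ∈ S) (x : L2R Γ) : ⟪kl8b_P S x, x⟫_ℝ ≤ ‖x‖ ^ 2 := by
  have hm : (0 : ℝ) < S.card := by exact_mod_cast Finset.card_pos.mpr ⟨1, h1⟩
  have h2 := kl8b_energy S h1 x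
  rw [inner_sub_left, real_inner_self_eq_norm_sq] at h2
  have h3 : 0 ≤ ∑ s ∈ S, ‖kl8b_R s x - x‖ ^ 2 := Finset.sum_nonneg fun _ _ => sq_nonneg _
  rw [h2] at h3
  have h4 := nonneg_of_mul_nonneg_right h3 (by positivity : (0 : ℝ) < 4 * S.card)
  linarith

theorem kl8b_fix (S : Finset Γ) (h1 : (1 : Γ) ∈ S) (hgen : Subgroup.closure (S : Set Γ) = ⊤)
    [Infinite Γ] (x : L2R Γ) (hx : kl8b_P S x = x) : x = 0 := by
  have h2 := kl8b_energy S h1 x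
  rw [hx, sub_self, inner_zero_left, mul_zero] at h2
  have h3 : ∀ s ∈ S, kl8b_R s x = x := by
    intro s hs
    have h4 := (Finset.sum_eq_zero_iff_of_nonneg (fun _ _ => sq_nonneg _)).mp h2 s hs
    have h5 := pow_eq_zero_iff two_ne_zero |>.mp h4
    exact sub_eq_zero.mp (norm_eq_zero.mp h5)
  have h4 : ∀ g : Γ, ∀ y, x (y * g) = x y := by
    intro g
    have hg : g ∈ Subgroup.closure (S : Set Γ) := by rw [hgen]; trivial
    induction hg using Subgroup.closure_induction with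
    | mem s hs =>
      intro y
      have := congrArg (fun z : L2R Γ => z y) (h3 s hs)
      exact this
    | one => intro y; rw [mul_one]
    | mul a b _ _ ha hb => intro y; rw [← mul_assoc, hb, ha]
    | inv a _ ha =>
      intro y
      have := ha (y * a⁻¹)
      rw [inv_mul_cancel_right] at this
      exact this.symm
  have h5 : ∀ y, x y = x 1 := fun y => by
    have := h4 y 1
    rwa [one_mul] at this
  have h6 := L2R_summable x
  have h7 : x 1 = 0 := by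
    by_contra h0
    have h8 : (fun a => x a ^ 2) = fun _ : Γ => x 1 ^ 2 := by
      funext a
      rw [h5 a]
    rw [h8, summable_const_iff] at h6
    exact h0 (pow_eq_zero_iff two_ne_zero |>.mp h6)
  ext y
  rw [h5 y, h7]
  rfl

/-- the unit vector at `1` -/
noncomputable def kl8b_d : L2R Γ := mkL2 (dlt 1) (by
  refine sq_summable_of_finite ((Set.finite_singleton (1 : Γ)).subset ?_)
  intro x hx
  by_contra h
  exact hx (dlt_ne (by simpa using h)))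

open Classical in
theorem kl8b_walk (S : Finset Γ) (h1 : (1 : Γ) ∈ S) (hinv : ∀ s ∈ S, s⁻¹ ∈ S) (k : ℕ) :
    (∀ y, 0 ≤ ((kl8b_P S ^ k) kl8b_d) y) ∧ (∀ y, y ∉ S ^ k → ((kl8b_P S ^ k) kl8b_d) y = 0) ∧
      ∑' y, ((kl8b_P S ^ k) kl8b_d) y = 1 := by
  have hm : (0 : ℝ) < S.card := by exact_mod_cast Finset.card_pos.mpr ⟨1, h1⟩
  induction k with
  | zero =>
    have h0 : ∀ y : Γ, ((kl8b_P S ^ 0) kl8b_d) y = dlt 1 y := fun y => by
      rw [pow_zero]; rfl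
    refine ⟨fun y => ?_, fun y hy => ?_, ?_⟩
    · rw [h0]
      unfold dlt
      split_ifs <;> norm_num
    · rw [h0, dlt_ne]
      simpa using hy
    · simp only [h0]
      rw [tsum_eq_single (1 : Γ) fun y hy => dlt_ne hy, dlt_self]
  | succ k ih =>
    obtain ⟨i1, i2, i3⟩ := ih
    set F := (kl8b_P S ^ k) kl8b_d with hF
    have hs : ∀ y, ((kl8b_P S ^ (k + 1)) kl8b_d) y =
        (1 / 2 : ℝ) * (F y + (1 / S.card : ℝ) * ∑ s ∈ S, F (y * s)) := by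
      intro y
      have : (kl8b_P S ^ (k + 1)) kl8b_d = kl8b_P S F := by rw [pow_succ', hF]; rfl
      rw [this, kl8b_P_apply]
      have h2 : (∑ s ∈ S, kl8b_R s F : L2R Γ) y = ∑ s ∈ S, F (y * s) := by
        rw [lp.coeFn_sum, Finset.sum_apply]
        rfl
      change (1 / 2 : ℝ) * (F y + (1 / S.card : ℝ) * (∑ s ∈ S, kl8b_R s F : L2R Γ) y) = _
      rw [h2]
    have hsum : Summable fun y => F y :=
      summable_of_ne_finset_zero (s := S ^ k) fun y hy => i2 y hy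
    refine ⟨fun y => ?_, fun y hy => ?_, ?_⟩
    · rw [hs]
      have := i1 y
      have h2 : 0 ≤ ∑ s ∈ S, F (y * s) := Finset.sum_nonneg fun s _ => i1 _
      positivity
    · rw [hs]
      have h2 : F y = 0 := by
        refine i2 y fun h => hy ?_
        rw [pow_succ]
        exact Finset.mem_mul.mpr ⟨y, h, 1, h1, mul_one y⟩
      have h3 : ∑ s ∈ S, F (y * s) = 0 := by
        refine Finset.sum_eq_zero fun s hs' => i2 _ fun h => hy ?_
        rw [pow_succ]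
        exact Finset.mem_mul.mpr ⟨y * s, h, s⁻¹, hinv s hs', mul_inv_cancel_right y s⟩
      rw [h2, h3]
      ring
    · simp only [hs]
      have hsums : ∀ s ∈ S, Summable fun y => F (y * s) := fun s _ =>
        (Equiv.mulRight s).summable_iff (f := fun y => F y) |>.mpr hsum
      have hts : ∀ s ∈ S, ∑' y, F (y * s) = 1 := fun s _ => by
        rw [← i3]
        exact (Equiv.mulRight s).tsum_eq fun y => F y
      rw [tsum_mul_left, hsum.tsum_add ((summable_sum hsums).mul_left _), tsum_mul_left,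
        Summable.tsum_finsetSum hsums, Finset.sum_congr rfl hts, i3, Finset.sum_const,
        nsmul_eq_mul, mul_one, one_div_mul_cancel hm.ne']
      norm_num

open Classical in
theorem kl8b_norm_ge (S : Finset Γ) (h1 : (1 : Γ) ∈ S) (hinv : ∀ s ∈ S, s⁻¹ ∈ S) (k : ℕ) :
    1 ≤ (vol S k : ℝ) * ‖(kl8b_P S ^ k) kl8b_d‖ ^ 2 := by
  obtain ⟨i1, i2, i3⟩ := kl8b_walk S h1 hinv k
  set F := (kl8b_P S ^ k) kl8b_d with hF
  have h2 : ∑ y ∈ S ^ k, F y = 1 := by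
    rw [← i3, tsum_eq_sum fun y hy => i2 y hy]
  have h3 : ‖F‖ ^ 2 = ∑ y ∈ S ^ k, F y ^ 2 := by
    rw [L2R_norm_sq, tsum_eq_sum fun y hy => ?_]
    rw [i2 y hy]
    norm_num
  have h4 := Finset.sum_mul_sq_le_sq_mul_sq (S ^ k) (fun _ => (1 : ℝ)) fun y => F y
  simp only [one_mul, one_pow, Finset.sum_const, nsmul_eq_mul, mul_one] at h4
  rw [h2, ← h3, one_pow] at h4
  unfold vol
  convert h4

theorem kl8b_slow (S : Finset Γ) (h1 : (1 : Γ) ∈ S) (hinv : ∀ s ∈ S, s⁻¹ ∈ S) (D : ℝ)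
    (h : SlowGrowth Γ D) (ρ : ℝ) (hρ0 : 0 ≤ ρ) (hρ : ρ < 1) (C : ℝ) :
    ∃ k : ℕ, C * ρ ^ k < ‖(kl8b_P S ^ k) kl8b_d‖ ^ 2 := by
  obtain ⟨C', hC'⟩ := h S
  obtain ⟨D', hD'⟩ := exists_nat_ge D
  have hlim : Tendsto (fun k : ℕ => |C| * |C'| * ((k : ℝ) ^ D' * ρ ^ k)) atTop (𝓝 0) := by
    have h2 := tendsto_pow_const_mul_const_pow_of_abs_lt_one D' (r := ρ)
      (by rw [abs_of_nonneg hρ0]; exact hρ)
    simpa using h2.const_mul (|C| * |C'|)
  obtain ⟨N, hN⟩ := Filter.eventually_atTop.mp (hlim.eventually (gt_mem_nhds (zero_lt_one)))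
  obtain ⟨r, hr, hvol⟩ := hC' (max N 1)
  refine ⟨r, ?_⟩
  have hr1 : 1 ≤ r := (le_max_right _ _).trans hr
  have hrN : N ≤ r := (le_max_left _ _).trans hr
  have h3 := hN r hrN
  have h4 := kl8b_norm_ge S h1 hinv r
  have hr1' : (1 : ℝ) ≤ r := by exact_mod_cast hr1
  have h5 : (vol S r : ℝ) ≤ |C'| * (r : ℝ) ^ D' := by
    refine hvol.trans ?_
    have h6 : (r : ℝ) ^ D ≤ (r : ℝ) ^ D' := by
      rw [← Real.rpow_natCast]
      exact Real.rpow_le_rpow_of_exponent_le hr1' hD'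
    have h7 : 0 ≤ (r : ℝ) ^ D := Real.rpow_nonneg (by positivity) _
    calc C' * (r : ℝ) ^ D ≤ |C'| * (r : ℝ) ^ D := mul_le_mul_of_nonneg_right (le_abs_self _) h7
      _ ≤ |C'| * (r : ℝ) ^ D' := mul_le_mul_of_nonneg_left h6 (abs_nonneg _)
  by_contra hcon
  rw [not_lt] at hcon
  have hv0 : (0 : ℝ) ≤ vol S r := by positivity
  have h8 : (1 : ℝ) ≤ vol S r * (C * ρ ^ r) := h4.trans (mul_le_mul_of_nonneg_left hcon hv0)
  have hρr : 0 ≤ ρ ^ r := pow_nonneg hρ0 r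
  have h9 : vol S r * (C * ρ ^ r) ≤ (|C'| * (r : ℝ) ^ D') * (|C| * ρ ^ r) := by
    calc vol S r * (C * ρ ^ r) ≤ vol S r * (|C| * ρ ^ r) :=
          mul_le_mul_of_nonneg_left (mul_le_mul_of_nonneg_right (le_abs_self _) hρr) hv0
      _ ≤ _ := mul_le_mul_of_nonneg_right h5 (by positivity)
  have h10 : (|C'| * (r : ℝ) ^ D') * (|C| * ρ ^ r) = |C| * |C'| * ((r : ℝ) ^ D' * ρ ^ r) := by ring
  rw [h10] at h9
  linarith

theorem exists_almost_harmonic (S : Finset Γ) (h1 : (1 : Γ) ∈ S) (hinv : ∀ s ∈ S, s⁻¹ ∈ S)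
    (hgen : Subgroup.closure (S : Set Γ) = ⊤) [Infinite Γ] (D : ℝ) (h : SlowGrowth Γ D)
    (ε : ℝ) (hε : 0 < ε) :
    ∃ F : Γ → ℝ, (Summable fun x => F x ^ 2) ∧ ∑ s ∈ S, ∑' x, (F (x * s) - F x) ^ 2 = 1 ∧
      ∑' x, (∑ s ∈ S, (F (x * s) - F x)) ^ 2 ≤ ε := by
  have hm : (0 : ℝ) < S.card := by exact_mod_cast Finset.card_pos.mpr ⟨1, h1⟩
  obtain ⟨F, hF1, hF2⟩ := spectral_ratio (kl8b_P S) (kl8b_P_sym S hinv) (kl8b_pos S h1)
    (kl8b_le S h1) (kl8b_fix S h1 hgen) kl8b_d (kl8b_slow S h1 hinv D h) (ε / S.card)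
    (by positivity)
  obtain ⟨E, hE⟩ : ∃ E, E = ∑ s ∈ S, ‖kl8b_R s F - F‖ ^ 2 := ⟨_, rfl⟩
  have hE2 : E = 4 * S.card * ⟪F - kl8b_P S F, F⟫_ℝ := by rw [hE, kl8b_energy S h1]
  have hpos : 0 < ‖F - kl8b_P S F‖ ^ 2 := by positivity
  have hE0 : 0 < E := by
    have h2 : 0 < ε / S.card * ⟪F - kl8b_P S F, F⟫_ℝ := hpos.trans_le hF2
    have h3 : 0 < ⟪F - kl8b_P S F, F⟫_ℝ := pos_of_mul_pos_right h2 (by positivity)
    rw [hE2]
    positivity
  have hsum : ‖∑ s ∈ S, (kl8b_R s F - F)‖ ^ 2 ≤ ε * E := by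
    rw [kl8b_sum S h1, norm_smul, mul_pow, Real.norm_eq_abs, sq_abs, hE2]
    calc (-(2 * (S.card : ℝ))) ^ 2 * ‖F - kl8b_P S F‖ ^ 2
        ≤ (-(2 * (S.card : ℝ))) ^ 2 * (ε / S.card * ⟪F - kl8b_P S F, F⟫_ℝ) :=
          mul_le_mul_of_nonneg_left hF2 (sq_nonneg _)
      _ = ε * (4 * S.card * ⟪F - kl8b_P S F, F⟫_ℝ) := by field_simp; ring
  have hsE : 0 < Real.sqrt E := Real.sqrt_pos.mpr hE0
  have hsq : Real.sqrt E ^ 2 = E := Real.sq_sqrt hE0.le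
  refine ⟨fun x => F x / Real.sqrt E, ?_, ?_, ?_⟩
  · simp only [div_pow]
    exact (L2R_summable F).div_const _
  · have h2 : ∀ s ∈ S, ∑' x, (F (x * s) / Real.sqrt E - F x / Real.sqrt E) ^ 2 =
        ‖kl8b_R s F - F‖ ^ 2 / E := by
      intro s _
      rw [L2R_norm_sq, ← tsum_div_const]
      refine tsum_congr fun x => ?_
      rw [← sub_div, div_pow, hsq]
      rfl
    rw [Finset.sum_congr rfl h2, ← Finset.sum_div, ← hE, div_self hE0.ne']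
  · have h2 : ∑' x, (∑ s ∈ S, (F (x * s) / Real.sqrt E - F x / Real.sqrt E)) ^ 2 =
        ‖∑ s ∈ S, (kl8b_R s F - F)‖ ^ 2 / E := by
      rw [L2R_norm_sq, ← tsum_div_const]
      refine tsum_congr fun x => ?_
      have h3 : ∑ s ∈ S, (F (x * s) / Real.sqrt E - F x / Real.sqrt E) =
          (∑ s ∈ S, (kl8b_R s F - F) : L2R Γ) x / Real.sqrt E := by
        rw [lp.coeFn_sum, Finset.sum_apply, Finset.sum_div]
        refine Finset.sum_congr rfl fun s _ => ?_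
        rw [← sub_div]
        rfl
      rw [h3, div_pow, hsq]
    rw [h2, div_le_iff₀ hE0]
    exact hsum

end kl8b

end Pool.Agent.Lib.MP_0f7bfe_al
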