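import Pool.Agent.Lib.MP_0f7bfe_al.KLDefs
import Pool.Agent.Lib.MP_0f7bfe_al.KL8b

/-! KL-8c: a Lipschitz harmonic function as a limit. -/

open scoped Pointwise InnerProductSpace
open Filter Topology

namespace Pool.Agent.Lib.MP_0f7bfe_al

universe u v

section kl8c

variable {Γ : Type u} [Group Γ]

theorem kl8c_R_mul (x y : Γ) (F : L2R Γ) : kl8b_R (x * y) F = kl8b_R x (kl8b_R y F) := by
  ext z
  rw [kl8b_R_apply, kl8b_R_apply, kl8b_R_apply, mul_assoc]

theorem kl8c_R_one (F : L2R Γ) : kl8b_R 1 F = F := by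
  ext z
  rw [kl8b_R_apply, mul_one]

theorem exists_lipHarm_ne_zero (S : Finset Γ) (h1 : (1 : Γ) ∈ S)
    (h : ∀ ε : ℝ, 0 < ε → ∃ F : Γ → ℝ, (Summable fun x => F x ^ 2) ∧
      ∑ s ∈ S, ∑' x, (F (x * s) - F x) ^ 2 = 1 ∧
      ∑' x, (∑ s ∈ S, (F (x * s) - F x)) ^ 2 ≤ ε) :
    ∃ f ∈ LipHarm S, f ≠ 0 := by
  classical
  have hm : (0 : ℝ) < S.card := by exact_mod_cast Finset.card_pos.mpr ⟨1, h1⟩
  -- the sequence
  have hF : ∀ j : ℕ, ∃ F : L2R Γ, ∑ s ∈ S, ‖kl8b_R s F - F‖ ^ 2 = 1 ∧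
      ‖∑ s ∈ S, (kl8b_R s F - F)‖ ^ 2 ≤ 1 / ((j : ℝ) + 1) := by
    intro j
    obtain ⟨F, hF1, hF2, hF3⟩ := h (1 / ((j : ℝ) + 1)) (by positivity)
    refine ⟨mkL2 F hF1, ?_, ?_⟩
    · rw [← hF2]
      refine Finset.sum_congr rfl fun s _ => ?_
      rw [L2R_norm_sq]
      rfl
    · refine le_trans (le_of_eq ?_) hF3
      rw [L2R_norm_sq]
      refine tsum_congr fun x => ?_
      rw [lp.coeFn_sum, Finset.sum_apply]
      rfl
  choose F hF1 hF2 using hF
  have hle1 : ∀ j, ∀ s ∈ S, ‖kl8b_R s (F j) - F j‖ ≤ 1 := by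
    intro j s hs
    have h2 := Finset.single_le_sum (f := fun s => ‖kl8b_R s (F j) - F j‖ ^ 2)
      (fun _ _ => sq_nonneg _) hs
    rw [hF1 j] at h2
    exact (sq_le_one_iff₀ (norm_nonneg _)).mp h2
  have hv : ∀ j, ∃ v : L2R Γ, ‖v‖ ≤ 1 ∧ ∃ s ∈ S,
      1 / (S.card : ℝ) ≤ ⟪kl8b_R s (F j) - F j, v⟫_ℝ ^ 2 := by
    intro j
    obtain ⟨s, hs, hs2⟩ : ∃ s ∈ S, 1 / (S.card : ℝ) ≤ ‖kl8b_R s (F j) - F j‖ ^ 2 := by
      by_contra hcon
      push Not at hcon
      have h2 := Finset.sum_lt_sum_of_nonempty ⟨1, h1⟩ hcon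
      rw [hF1 j, Finset.sum_const, nsmul_eq_mul, mul_one_div_cancel hm.ne'] at h2
      exact lt_irrefl _ h2
    have hpos : 0 < ‖kl8b_R s (F j) - F j‖ := by
      rw [norm_pos_iff]
      intro h0
      rw [h0, norm_zero] at hs2
      have h3 : 0 < 1 / (S.card : ℝ) := by positivity
      rw [zero_pow two_ne_zero] at hs2
      linarith
    refine ⟨(‖kl8b_R s (F j) - F j‖)⁻¹ • (kl8b_R s (F j) - F j), ?_, s, hs, ?_⟩
    · rw [norm_smul, norm_inv, norm_norm, inv_mul_cancel₀ hpos.ne']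
    · rw [real_inner_smul_right, real_inner_self_eq_norm_sq]
      have : (‖kl8b_R s (F j) - F j‖)⁻¹ * ‖kl8b_R s (F j) - F j‖ ^ 2 =
          ‖kl8b_R s (F j) - F j‖ := by field_simp
      rw [this]
      exact hs2
  choose v hv1 hv2 using hv
  -- the functions
  let Hs : Subgroup Γ := Subgroup.closure (S : Set Γ)
  let u : ℕ → Γ → ℝ := fun j x => if x ∈ Hs then ⟪kl8b_R x (F j) - F j, v j⟫_ℝ else 0
  have hmemS : ∀ s ∈ S, s ∈ Hs := fun s hs => Subgroup.subset_closure hs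
  have hbd : ∀ x, ∃ K : ℝ, ∀ j, |u j x| ≤ K := by
    intro x
    by_cases hx : x ∈ Hs
    · have hK : ∃ K : ℝ, ∀ j, ‖kl8b_R x (F j) - F j‖ ≤ K := by
        have hx' : x ∈ Subgroup.closure (S : Set Γ) := hx
        clear hx
        induction hx' using Subgroup.closure_induction with
        | mem s hs => exact ⟨1, fun j => hle1 j s hs⟩
        | one => exact ⟨0, fun j => by rw [kl8c_R_one, sub_self, norm_zero]⟩
        | mul a b _ _ ha hb =>
          obtain ⟨Ka, hKa⟩ := ha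
          obtain ⟨Kb, hKb⟩ := hb
          refine ⟨Kb + Ka, fun j => ?_⟩
          have e1 : kl8b_R (a * b) (F j) - F j = kl8b_R a (kl8b_R b (F j) - F j) +
              (kl8b_R a (F j) - F j) := by
            rw [kl8c_R_mul, map_sub]; abel
          rw [e1]
          refine (norm_add_le _ _).trans (add_le_add ?_ (hKa j))
          rw [kl8b_R_norm]
          exact hKb j
        | inv a _ ha =>
          obtain ⟨Ka, hKa⟩ := ha
          refine ⟨Ka, fun j => ?_⟩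
          rw [← kl8b_R_norm a, map_sub, ← kl8c_R_mul, mul_inv_cancel, kl8c_R_one, norm_sub_rev]
          exact hKa j
      obtain ⟨K, hK⟩ := hK
      refine ⟨K, fun j => ?_⟩
      simp only [u, if_pos hx]
      calc |⟪kl8b_R x (F j) - F j, v j⟫_ℝ| ≤ ‖kl8b_R x (F j) - F j‖ * ‖v j‖ :=
            abs_real_inner_le_norm _ _
        _ ≤ ‖kl8b_R x (F j) - F j‖ * 1 := mul_le_mul_of_nonneg_left (hv1 j) (norm_nonneg _)
        _ ≤ K := by rw [mul_one]; exact hK j
    · refine ⟨0, fun j => ?_⟩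
      simp only [u, if_neg hx, abs_zero, le_refl]
  have hdiff : ∀ j x s, s ∈ S → u j (x * s) - u j x =
      if x ∈ Hs then ⟪kl8b_R x (kl8b_R s (F j) - F j), v j⟫_ℝ else 0 := by
    intro j x s hs
    by_cases hx : x ∈ Hs
    · have hxs : x * s ∈ Hs := Hs.mul_mem hx (hmemS s hs)
      simp only [u, if_pos hx, if_pos hxs]
      rw [← inner_sub_left, kl8c_R_mul, map_sub]
      congr 1
      abel
    · have hxs : x * s ∉ Hs := by
        intro h2
        exact hx ((Hs.mul_mem_cancel_right (hmemS s hs)).mp h2)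
      simp only [u, if_neg hx, if_neg hxs, sub_self]
  -- the limit
  obtain ⟨𝒰, h𝒰⟩ : ∃ 𝒰 : Ultrafilter ℕ, (𝒰 : Filter ℕ) ≤ atTop :=
    ⟨hyperfilter ℕ, by rw [← Nat.cofinite_eq_atTop]; exact hyperfilter_le_cofinite⟩
  have hlim : ∀ x, ∃ l : ℝ, Tendsto (fun j => u j x) 𝒰 (𝓝 l) := by
    intro x
    obtain ⟨K, hK⟩ := hbd x
    obtain ⟨l, -, hl⟩ := (isCompact_Icc (a := -K) (b := K)).ultrafilter_le_nhds
      (𝒰.map fun j => u j x) (by
        rw [le_principal_iff]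
        change (fun j => u j x) ⁻¹' Set.Icc (-K) K ∈ (𝒰 : Filter ℕ)
        exact Filter.univ_mem' fun j => abs_le.mp (hK j))
    exact ⟨l, hl⟩
  choose f hf using hlim
  have hfs : ∀ x, ∀ s ∈ S, Tendsto (fun j => u j (x * s) - u j x) 𝒰 (𝓝 (f (x * s) - f x)) :=
    fun x s _ => (hf (x * s)).sub (hf x)
  refine ⟨f, ⟨?_, ?_, 1, ?_⟩, ?_⟩
  · intro x
    have l1 : Tendsto (fun j => ∑ s ∈ S, (u j (x * s) - u j x)) 𝒰
        (𝓝 (∑ s ∈ S, (f (x * s) - f x))) := tendsto_finsetSum _ fun s hs => hfs x s hs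
    have l2 : Tendsto (fun j => ∑ s ∈ S, (u j (x * s) - u j x)) 𝒰 (𝓝 0) := by
      have hz : Tendsto (fun j : ℕ => Real.sqrt (1 / ((j : ℝ) + 1))) 𝒰 (𝓝 0) := by
        have h3 := (Real.continuous_sqrt.tendsto 0).comp (tendsto_one_div_add_atTop_nhds_zero_nat (𝕜 := ℝ))
        rw [Real.sqrt_zero] at h3
        exact h3.mono_left h𝒰
      refine squeeze_zero_norm (fun j => ?_) hz
      rw [Real.norm_eq_abs, Finset.sum_congr rfl fun s hs => hdiff j x s hs]
      by_cases hx : x ∈ Hs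
      · simp only [if_pos hx]
        rw [← sum_inner, ← map_sum]
        calc |⟪kl8b_R x (∑ s ∈ S, (kl8b_R s (F j) - F j)), v j⟫_ℝ|
            ≤ ‖kl8b_R x (∑ s ∈ S, (kl8b_R s (F j) - F j))‖ * ‖v j‖ := abs_real_inner_le_norm _ _
          _ ≤ ‖kl8b_R x (∑ s ∈ S, (kl8b_R s (F j) - F j))‖ * 1 :=
              mul_le_mul_of_nonneg_left (hv1 j) (norm_nonneg _)
          _ ≤ Real.sqrt (1 / ((j : ℝ) + 1)) := by
              rw [mul_one, kl8b_R_norm]
              exact Real.le_sqrt_of_sq_le (hF2 j)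
      · simp only [if_neg hx, Finset.sum_const_zero, abs_zero]
        exact Real.sqrt_nonneg _
    have h3 := tendsto_nhds_unique l1 l2
    rw [Finset.sum_sub_distrib, Finset.sum_const, nsmul_eq_mul] at h3
    linarith
  · have h2 : ∀ j, u j 1 = 0 := by
      intro j
      simp only [u, if_pos Hs.one_mem, kl8c_R_one, sub_self, inner_zero_left]
    have h3 := hf 1
    simp only [h2] at h3
    exact tendsto_nhds_unique h3 tendsto_const_nhds |>.symm ▸ rfl
  · intro x s hs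
    refine le_of_tendsto ((hfs x s hs).abs) (Filter.Eventually.of_forall fun j => ?_)
    rw [hdiff j x s hs]
    by_cases hx : x ∈ Hs
    · rw [if_pos hx]
      calc |⟪kl8b_R x (kl8b_R s (F j) - F j), v j⟫_ℝ|
          ≤ ‖kl8b_R x (kl8b_R s (F j) - F j)‖ * ‖v j‖ := abs_real_inner_le_norm _ _
        _ ≤ ‖kl8b_R x (kl8b_R s (F j) - F j)‖ * 1 :=
            mul_le_mul_of_nonneg_left (hv1 j) (norm_nonneg _)
        _ ≤ 1 := by rw [mul_one, kl8b_R_norm]; exact hle1 j s hs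
    · rw [if_neg hx, abs_zero]
      exact zero_le_one
  · intro h0
    have l1 : Tendsto (fun j => ∑ s ∈ S, u j s ^ 2) 𝒰 (𝓝 (∑ s ∈ S, f s ^ 2)) :=
      tendsto_finsetSum _ fun s _ => (hf s).pow 2
    have h2 : ∑ s ∈ S, f s ^ 2 = 0 := by
      refine Finset.sum_eq_zero fun s _ => ?_
      rw [h0]
      simp
    rw [h2] at l1
    have h3 : 1 / (S.card : ℝ) ≤ 0 := by
      refine ge_of_tendsto l1 (Filter.Eventually.of_forall fun j => ?_)
      obtain ⟨s, hs, hs2⟩ := hv2 j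
      have h4 := Finset.single_le_sum (f := fun s => u j s ^ 2) (fun _ _ => sq_nonneg _) hs
      refine le_trans ?_ h4
      simp only [u, if_pos (hmemS s hs)]
      exact hs2
    have : 0 < 1 / (S.card : ℝ) := by positivity
    linarith

end kl8c

end Pool.Agent.Lib.MP_0f7bfe_al
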