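import Pool.Agent.Lib.MP_0f7bfe_al.KL1

/-!
Wave KL, module 9b: finitely generated abelian groups, subgroups of finite index.
-/

open scoped Pointwise

namespace Pool.Agent.Lib.MP_0f7bfe_al

universe u v

section kl
variable {Γ : Type u} [Group Γ]

theorem surj_Z_of_comm (A : Type u) [CommGroup A] [Group.FG A] [Infinite A] :
    ∃ τ : A →* Multiplicative ℤ, Function.Surjective τ := by
  classical
  obtain ⟨ι, j, hι, hj, p, hp, e, ⟨φ⟩⟩ := CommGroup.equiv_free_prod_prod_multiplicative_zmod A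
  have hfin : Finite ((i : ι) → Multiplicative (ZMod (p i ^ e i))) := by
    have : ∀ i, Finite (Multiplicative (ZMod (p i ^ e i))) := by
      intro i
      have : NeZero (p i ^ e i) := ⟨(pow_pos (hp i).pos _).ne'⟩
      infer_instance
    infer_instance
  rcases isEmpty_or_nonempty j with hj0 | ⟨⟨j0⟩⟩
  · exfalso
    have h1 : Finite A := Finite.of_equiv _ φ.symm.toEquiv
    exact not_finite A
  · refine ⟨(Pi.evalMonoidHom (fun _ : j => Multiplicative ℤ) j0).comp
      ((MonoidHom.fst _ _).comp φ.toMonoidHom), ?_⟩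
    intro z
    obtain ⟨a, ha⟩ := φ.surjective (fun _ => z, 1)
    refine ⟨a, ?_⟩
    show (φ a).1 j0 = z
    rw [ha]

theorem fg_of_index (hG : Group.FG Γ) (A : Subgroup Γ) (hA : A.index ≠ 0) : Group.FG A := by
  have : A.FiniteIndex := ⟨hA⟩
  infer_instance

theorem SlowGrowth.subgroup {D : ℝ} (h : SlowGrowth Γ D) (A : Subgroup Γ) : SlowGrowth A D := by
  classical
  intro S
  obtain ⟨C, hC⟩ := h (S.map ⟨A.subtype, A.subtype_injective⟩)
  refine ⟨C, fun N => ?_⟩
  obtain ⟨r, hr, hv⟩ := hC N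
  refine ⟨r, hr, ?_⟩
  have h1 : vol (S.map ⟨A.subtype, A.subtype_injective⟩) r = vol S r := by
    have h2 : (S.map ⟨A.subtype, A.subtype_injective⟩) ^ r =
        (S ^ r).map ⟨A.subtype, A.subtype_injective⟩ := by
      rw [Finset.map_eq_image, Finset.map_eq_image]
      exact (Finset.image_pow A.subtype S r).symm
    rw [vol_eq, vol_eq, h2, Finset.card_map]
  rw [← h1]
  exact hv

end kl

end Pool.Agent.Lib.MP_0f7bfe_al
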