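import Pool.Agent.Lib.MP_0f7bfe_al.KLDefs
import Pool.Agent.Lib.MP_0f7bfe_al.KL9b

/-!
Wave KL, module 9c: one-dimensional representations on harmonic functions.
-/

open scoped Pointwise

namespace Pool.Agent.Lib.MP_0f7bfe_al

universe u v

section kl
variable {Γ : Type u} [Group Γ]

/-- maximum principle: a harmonic function with finitely many translates is constant -/
theorem kl9c_const (S : Finset Γ) (hgen : Subgroup.closure (S : Set Γ) = ⊤) (u : Γ → ℝ)
    (hu : Harm S u) (B : Subgroup Γ) (hB : B.index ≠ 0)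
    (hinv : ∀ g ∈ B, ∀ x, u (g * x) = u x) (x : Γ) : u x = u 1 := by
  have hfi : B.FiniteIndex := ⟨hB⟩
  have hfin : Finite (Γ ⧸ B) := Subgroup.finite_quotient_of_finiteIndex
  obtain ⟨y0, hy0⟩ := Finite.exists_max (fun y : Γ ⧸ B => u (y.out)⁻¹)
  set x0 : Γ := (y0.out)⁻¹ with hx0
  set m : ℝ := u x0 with hm
  have hmax : ∀ x : Γ, u x ≤ m := by
    intro x
    have h1 := hy0 (QuotientGroup.mk x⁻¹)
    obtain ⟨h, hh⟩ := QuotientGroup.mk_out_eq_mul B x⁻¹
    rw [hh, mul_inv_rev, inv_inv, hinv _ (B.inv_mem h.2)] at h1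
    exact h1
  have hstep : ∀ s ∈ S, ∀ x : Γ, u x = m → u (x * s) = m := by
    intro s hs x hx
    have h1 : ∑ s ∈ S, (m - u (x * s)) = 0 := by
      rw [Finset.sum_sub_distrib, hu x, Finset.sum_const, nsmul_eq_mul, hx, sub_self]
    have h2 := (Finset.sum_eq_zero_iff_of_nonneg (fun s _ => sub_nonneg.2 (hmax (x * s)))).1 h1 s hs
    linarith
  have hall : ∀ z : Γ, ∀ x : Γ, u x = m → u (x * z) = m := by
    intro z
    have hz : z ∈ Subgroup.closure (S : Set Γ) := by
      rw [hgen]
      exact Subgroup.mem_top z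
    induction hz using Subgroup.closure_induction with
    | mem s hs => exact hstep s hs
    | one =>
      intro x hx
      rw [mul_one]
      exact hx
    | mul a b _ _ ha hb =>
      intro x hx
      rw [← mul_assoc]
      exact hb _ (ha x hx)
    | inv a _ ha =>
      intro x hx
      have hpow : ∀ k : ℕ, u (x * a ^ k) = m := by
        intro k
        induction k with
        | zero => simpa using hx
        | succ k ih =>
          rw [pow_succ, ← mul_assoc]
          exact ha _ ih
      set N := B.normalCore with hN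
      have hNfi : N.FiniteIndex := inferInstance
      have hn : N.index ≠ 0 := hNfi.index_ne_zero
      have ha' : a ^ N.index ∈ N := Subgroup.pow_index_mem N a
      obtain ⟨k, hk⟩ := Nat.exists_eq_succ_of_ne_zero hn
      have h1 : x * a⁻¹ = ((x * a ^ k) * (a ^ N.index)⁻¹ * (x * a ^ k)⁻¹) * (x * a ^ k) := by
        rw [inv_mul_cancel_right, hk, Nat.succ_eq_add_one, pow_succ', mul_inv_rev, ← mul_assoc,
          mul_assoc x, mul_inv_cancel, mul_one]
      rw [h1, hinv]
      · exact hpow k
      · have h2 : (x * a ^ k) * (a ^ N.index)⁻¹ * (x * a ^ k)⁻¹ ∈ N :=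
          (inferInstance : N.Normal).conj_mem _ (N.inv_mem ha') _
        exact Subgroup.normalCore_le B h2
  have hcon : ∀ z : Γ, u z = m := by
    intro z
    have h1 := hall (x0⁻¹ * z) x0 rfl
    rwa [mul_inv_cancel_left] at h1
  rw [hcon x, hcon 1]

theorem kl9c_actF_one (w : Γ → ℂ) (hw1 : w 1 = 0) : actF 1 w = w := by
  funext x
  simp [actF, hw1]

theorem kl9c_actF_mul (w : Γ → ℂ) (g h : Γ) : actF (g * h) w = actF g (actF h w) := by
  funext x
  simp only [actF, mul_inv_rev, mul_assoc]
  ring

theorem kl9c_actF_smul (w : Γ → ℂ) (g : Γ) (c : ℂ) : actF g (c • w) = c • actF g w := by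
  funext x
  simp only [actF, Pi.smul_apply, smul_eq_mul]
  ring

/-- dimension one -/
theorem surj_Z_of_char (S : Finset Γ) (h1 : (1 : Γ) ∈ S)
    (hgen : Subgroup.closure (S : Set Γ) = ⊤) (w : Γ → ℂ) (hw : w ∈ LipHarmC S) (hw0 : w ≠ 0)
    (A : Subgroup Γ) (hA : A.index ≠ 0) (hinvw : ∀ g ∈ A, ∃ c : ℂ, actF g w = c • w) :
    ∃ (A' : Subgroup Γ), A'.index ≠ 0 ∧
      ∃ τ : A' →* Multiplicative ℤ, Function.Surjective τ := by
  classical
  have _ := h1
  have hG : Group.FG Γ := ⟨⟨S, hgen⟩⟩
  have hAfg : Group.FG A := fg_of_index hG A hA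
  obtain ⟨hre, him⟩ := hw
  have hw1 : w 1 = 0 := Complex.ext hre.2.1 him.2.1
  obtain ⟨x1, hx1⟩ : ∃ x, w x ≠ 0 := by
    by_contra hcon
    push Not at hcon
    exact hw0 (funext hcon)
  -- the character
  set c : Γ → ℂ := fun g => actF g w x1 / w x1 with hc
  have hcw : ∀ g ∈ A, actF g w = c g • w := by
    intro g hg
    obtain ⟨c', hc'⟩ := hinvw g hg
    have h2 : c g = c' := by
      simp only [hc]
      rw [hc', Pi.smul_apply, smul_eq_mul, mul_div_assoc, div_self hx1, mul_one]
    rw [h2]
    exact hc'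
  have hc1 : c 1 = 1 := by
    simp only [hc]
    rw [kl9c_actF_one w hw1, div_self hx1]
  have hcmul : ∀ g ∈ A, ∀ h ∈ A, c (g * h) = c g * c h := by
    intro g hg h hh
    have h2 : actF (g * h) w = (c g * c h) • w := by
      rw [kl9c_actF_mul, hcw h hh, kl9c_actF_smul, hcw g hg, smul_smul, mul_comm]
    show actF (g * h) w x1 / w x1 = _
    rw [h2, Pi.smul_apply, smul_eq_mul, mul_div_assoc, div_self hx1, mul_one]
  let f : A →* ℂ :=
    { toFun := fun g => c g
      map_one' := hc1
      map_mul' := fun g h => hcmul g g.2 h h.2 }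
  let χ : A →* ℂˣ := f.toHomUnits
  rcases finite_or_infinite χ.range with hfin | hinf
  swap
  · -- infinite image
    obtain ⟨τ, hτ⟩ := surj_Z_of_comm χ.range
    exact ⟨A, hA, τ.comp χ.rangeRestrict, hτ.comp χ.rangeRestrict_surjective⟩
  · set A'' : Subgroup Γ := χ.ker.map A.subtype with hA''
    have hidx : A''.index ≠ 0 := by
      rw [hA'', Subgroup.index_map_subtype, Subgroup.index_ker]
      exact mul_ne_zero Nat.card_pos.ne' hA
    have hadd : ∀ g ∈ A'', ∀ x, w (g * x) = w x + w g := by
      intro g hg x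
      have hg' : g⁻¹ ∈ A'' := A''.inv_mem hg
      rw [hA'', Subgroup.mem_map] at hg'
      obtain ⟨a, ha, ha'⟩ := hg'
      have ha2 : c (a : Γ) = 1 := by
        have h2 : (χ a : ℂˣ) = 1 := ha
        have h3 : ((χ a : ℂˣ) : ℂ) = c (a : Γ) := rfl
        rw [← h3, h2, Units.val_one]
      have h3 := congrFun (hcw a a.2) x
      have ha3 : (a : Γ) = g⁻¹ := ha'
      rw [ha2, one_smul, ha3] at h3
      simp only [actF, inv_inv] at h3
      rw [← h3]
      ring
    by_cases hψ : ∃ g ∈ A'', w g ≠ 0
    · obtain ⟨g0, hg0, hwg0⟩ := hψ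
      let ψ : A'' →* Multiplicative ℂ :=
        { toFun := fun g => Multiplicative.ofAdd (w g)
          map_one' := by
            show Multiplicative.ofAdd (w 1) = 1
            rw [hw1]
            rfl
          map_mul' := fun g h => by
            show Multiplicative.ofAdd (w ((g : Γ) * h)) = _
            rw [hadd g g.2 h, add_comm, ofAdd_add] }
      have hA''fg : Group.FG A'' := fg_of_index hG A'' hidx
      have hinf : Infinite ψ.range := by
        rw [← not_finite_iff_infinite]
        intro hfin2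
        have h2 := isOfFinOrder_of_finite (⟨ψ ⟨g0, hg0⟩, ⟨⟨g0, hg0⟩, rfl⟩⟩ : ψ.range)
        rw [isOfFinOrder_iff_pow_eq_one] at h2
        obtain ⟨n, hn, hn2⟩ := h2
        have h3 := congrArg (Subtype.val) hn2
        have h4 : (ψ ⟨g0, hg0⟩) ^ n = 1 := h3
        have h5 : (Multiplicative.ofAdd (w g0)) ^ n = 1 := h4
        rw [← ofAdd_nsmul] at h5
        have h6 : n • w g0 = 0 := h5
        rw [nsmul_eq_mul] at h6
        rcases mul_eq_zero.1 h6 with h | h
        · have : n = 0 := by exact_mod_cast h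
          omega
        · exact hwg0 h
      obtain ⟨τ, hτ⟩ := surj_Z_of_comm ψ.range
      exact ⟨A'', hidx, τ.comp ψ.rangeRestrict, hτ.comp ψ.rangeRestrict_surjective⟩
    · exfalso
      push Not at hψ
      have hinv : ∀ g ∈ A'', ∀ x, w (g * x) = w x := by
        intro g hg x
        rw [hadd g hg x, hψ g hg, add_zero]
      apply hw0
      funext x
      apply Complex.ext
      · have h2 := kl9c_const S hgen (fun x => (w x).re) hre.1 A'' hidx
          (fun g hg x => by simp only [hinv g hg x]) x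
        rw [h2, hw1]
        rfl
      · have h2 := kl9c_const S hgen (fun x => (w x).im) him.1 A'' hidx
          (fun g hg x => by simp only [hinv g hg x]) x
        rw [h2, hw1]
        rfl

end kl

end Pool.Agent.Lib.MP_0f7bfe_al
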