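import Pool.Agent.Lib.MP_0f7bfe_al.KLDefs

/-!
Wave KL, module 9d1: the elements close to the identity generate a subgroup of finite index.
-/

open scoped Pointwise

namespace Pool.Agent.Lib.MP_0f7bfe_al

universe u v

section kl
variable {Γ : Type u} [Group Γ]

theorem kl9d1_index {W : Type v} [NormedAddCommGroup W] [NormedSpace ℂ W]
    [FiniteDimensional ℂ W] (ρ : Γ →* (W →L[ℂ] W)) (hρ : ∀ g w, ‖ρ g w‖ = ‖w‖) (ε : ℝ)
    (hε : 0 < ε) : (Subgroup.closure {g : Γ | ‖ρ g - 1‖ < ε}).index ≠ 0 := by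
  classical
  set B := Subgroup.closure {g : Γ | ‖ρ g - 1‖ < ε} with hB
  have hproper : ProperSpace (W →L[ℂ] W) := FiniteDimensional.proper ℂ _
  have htb : TotallyBounded (Metric.closedBall (0 : W →L[ℂ] W) 1) :=
    (isCompact_closedBall _ _).totallyBounded
  obtain ⟨t, ht, hcov⟩ := Metric.totallyBounded_iff.1 htb (ε / 2) (by positivity)
  -- the distance of two elements
  have hdist : ∀ g h : Γ, ‖ρ (g⁻¹ * h) - 1‖ ≤ ‖ρ h - ρ g‖ := by
    intro g h
    apply ContinuousLinearMap.opNorm_le_bound _ (norm_nonneg _)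
    intro w
    have h1 : ‖(ρ (g⁻¹ * h) - 1) w‖ = ‖ρ g ((ρ (g⁻¹ * h) - 1) w)‖ := (hρ g _).symm
    have h2 : ρ g ((ρ (g⁻¹ * h) - 1) w) = (ρ h - ρ g) w := by
      have h3 : ρ g * (ρ (g⁻¹ * h) - 1) = ρ h - ρ g := by
        rw [mul_sub, mul_one, ← map_mul, mul_inv_cancel_left]
      rw [← h3]
      rfl
    rw [h1, h2]
    exact (ρ h - ρ g).le_opNorm w
  have hmem : ∀ g : Γ, ρ g ∈ Metric.closedBall (0 : W →L[ℂ] W) 1 := by
    intro g
    rw [mem_closedBall_zero_iff]
    apply ContinuousLinearMap.opNorm_le_bound _ zero_le_one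
    intro w
    rw [hρ, one_mul]
  have hch : ∀ y : Γ ⧸ B, ∃ z ∈ t, dist (ρ y.out) z < ε / 2 := by
    intro y
    have h1 := hcov (hmem y.out)
    simp only [Set.mem_iUnion, Metric.mem_ball] at h1
    obtain ⟨z, hz, hz2⟩ := h1
    exact ⟨z, hz, hz2⟩
  choose F hF1 hF2 using hch
  have hinj : Function.Injective (fun y : Γ ⧸ B => (⟨F y, hF1 y⟩ : t)) := by
    intro y y' hyy
    have h1 : F y = F y' := congrArg Subtype.val hyy
    have h2 : dist (ρ y.out) (ρ y'.out) < ε := by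
      have h3 := dist_triangle_right (ρ y.out) (ρ y'.out) (F y)
      have h4 := hF2 y
      have h5 := hF2 y'
      rw [← h1] at h5
      linarith
    have h3 : ‖ρ (y.out⁻¹ * y'.out) - 1‖ < ε := by
      refine lt_of_le_of_lt (hdist _ _) ?_
      rw [← dist_eq_norm, dist_comm]
      exact h2
    have h4 : y.out⁻¹ * y'.out ∈ B := Subgroup.subset_closure h3
    have h5 := QuotientGroup.eq.2 h4
    rwa [QuotientGroup.out_eq', QuotientGroup.out_eq'] at h5
  have hfint : Finite t := ht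
  have hfin : Finite (Γ ⧸ B) := Finite.of_injective _ hinj
  exact Subgroup.index_ne_zero_of_finite

end kl

end Pool.Agent.Lib.MP_0f7bfe_al
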