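import Pool.Agent.Lib.MP_0f7bfe_al.KL1
import Pool.Agent.Lib.MP_0f7bfe_al.KL9b
import Pool.Agent.Lib.MP_0f7bfe_al.KL9d1

open scoped Pointwise InnerProductSpace

namespace Pool.Agent.Lib.MP_0f7bfe_al

universe u v

section kl9d
variable {Γ : Type u} [Group Γ]

theorem kl9d_subset (T : Set Γ) (h : (Subgroup.closure T).FG) :
    ∃ X : Finset Γ, (X : Set Γ) ⊆ T ∧ Subgroup.closure (X : Set Γ) = Subgroup.closure T := by
  classical
  obtain ⟨Y, hY⟩ := h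
  have key : ∀ y ∈ Subgroup.closure T, ∃ X : Finset Γ, (X : Set Γ) ⊆ T ∧
      y ∈ Subgroup.closure (X : Set Γ) := by
    intro y hy
    induction hy using Subgroup.closure_induction with
    | mem x hx => exact ⟨{x}, by simpa using hx, Subgroup.subset_closure (by simp)⟩
    | one => exact ⟨∅, by simp, Subgroup.one_mem _⟩
    | mul x z _ _ hx hz =>
      obtain ⟨X, hX, hx⟩ := hx
      obtain ⟨Z, hZ, hz⟩ := hz
      refine ⟨X ∪ Z, by simpa using ⟨hX, hZ⟩, Subgroup.mul_mem _ ?_ ?_⟩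
      · exact Subgroup.closure_mono (by simp) hx
      · exact Subgroup.closure_mono (by simp) hz
    | inv x _ hx =>
      obtain ⟨X, hX, hx⟩ := hx
      exact ⟨X, hX, Subgroup.inv_mem _ hx⟩
  have hYT : ∀ y ∈ Y, y ∈ Subgroup.closure T := by
    intro y hy
    rw [← hY]
    exact Subgroup.subset_closure hy
  choose! X hX hyX using key
  refine ⟨Y.biUnion X, ?_, le_antisymm ?_ ?_⟩
  · intro z hz
    rw [Finset.mem_coe, Finset.mem_biUnion] at hz
    obtain ⟨y, hy, hz⟩ := hz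
    exact hX y (hYT y hy) hz
  · apply Subgroup.closure_mono
    intro z hz
    rw [Finset.mem_coe, Finset.mem_biUnion] at hz
    obtain ⟨y, hy, hz⟩ := hz
    exact hX y (hYT y hy) hz
  · rw [← hY, Subgroup.closure_le]
    intro y hy
    exact Subgroup.closure_mono (Finset.coe_subset.2 (Finset.subset_biUnion_of_mem X hy))
      (hyX y (hYT y hy))

section algebra
variable {A : Type*} [NormedRing A]

theorem kl9d_pow_sub (T : A) (hT : ∀ i : ℕ, ‖T ^ i‖ ≤ 1) (i : ℕ) : ‖T ^ i - 1‖ ≤ i * ‖T - 1‖ := by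
  induction i with
  | zero => simp
  | succ i ih =>
    have h1 : T ^ (i + 1) - 1 = T ^ i * (T - 1) + (T ^ i - 1) := by
      rw [pow_succ, mul_sub, mul_one]; abel
    rw [h1]
    refine (norm_add_le _ _).trans ?_
    have h2 : ‖T ^ i * (T - 1)‖ ≤ 1 * ‖T - 1‖ :=
      (norm_mul_le _ _).trans (mul_le_mul_of_nonneg_right (hT i) (norm_nonneg _))
    push_cast
    linarith

theorem kl9d_pow_lower [NormedSpace ℝ A] (T : A) (hT : ∀ i : ℕ, ‖T ^ i‖ ≤ 1) (p : ℕ)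
    (hp : (p : ℝ) * ‖T - 1‖ ≤ 1 / 2) : 3 / 4 * p * ‖T - 1‖ ≤ ‖T ^ p - 1‖ := by
  set d := ‖T - 1‖ with hd
  have hd0 : 0 ≤ d := norm_nonneg _
  -- T^p - 1 = p (T-1) + error, |error| <= p^2/2 d^2
  have key : ∀ i : ℕ, ‖(T ^ i - 1) - (i : ℝ) • (T - 1)‖ ≤ (i : ℝ) ^ 2 / 2 * d ^ 2 := by
    intro i
    induction i with
    | zero => simp
    | succ i ih =>
      have h1 : (T ^ (i + 1) - 1) - ((i + 1 : ℕ) : ℝ) • (T - 1) =
          ((T ^ i - 1) - (i : ℝ) • (T - 1)) + (T ^ i - 1) * (T - 1) := by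
        push_cast
        rw [add_smul, one_smul, pow_succ, sub_mul, one_mul, mul_sub, mul_one]
        abel
      rw [h1]
      refine (norm_add_le _ _).trans ?_
      have h2 : ‖(T ^ i - 1) * (T - 1)‖ ≤ (i * d) * d :=
        (norm_mul_le _ _).trans (mul_le_mul_of_nonneg_right (kl9d_pow_sub T hT i) (norm_nonneg _))
      push_cast
      nlinarith [sq_nonneg d]
  have h1 := key p
  have h2 : ‖(p : ℝ) • (T - 1)‖ = p * d := by
    rw [norm_smul, Real.norm_eq_abs, abs_of_nonneg (Nat.cast_nonneg p)]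
  have h3 : ‖(p : ℝ) • (T - 1)‖ ≤ ‖T ^ p - 1‖ + ‖(T ^ p - 1) - (p : ℝ) • (T - 1)‖ := by
    have : (p : ℝ) • (T - 1) = (T ^ p - 1) - ((T ^ p - 1) - (p : ℝ) • (T - 1)) := by abel
    nth_rewrite 1 [this]
    exact norm_sub_le _ _
  rw [h2] at h3
  have hp0 : (0 : ℝ) ≤ p := Nat.cast_nonneg p
  have h4 : (p : ℝ) ^ 2 / 2 * d ^ 2 ≤ 1 / 4 * (p * d) := by
    have h5 : (p : ℝ) ^ 2 / 2 * d ^ 2 = 1 / 2 * (p * d) * (p * d) := by ring
    rw [h5]
    have h6 : 0 ≤ (p : ℝ) * d := mul_nonneg hp0 hd0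
    nlinarith
  linarith

end algebra

variable {W : Type v} [NormedAddCommGroup W] [NormedSpace ℂ W]

theorem kl9d_norm_le (ρ : Γ →* (W →L[ℂ] W)) (hρ : ∀ g w, ‖ρ g w‖ = ‖w‖) (g : Γ) : ‖ρ g‖ ≤ 1 :=
  ContinuousLinearMap.opNorm_le_bound _ zero_le_one fun w => by rw [hρ, one_mul]

/-- words -/
def kl9dw (a : ℕ → Γ) : ℕ → List ℕ → Γ
  | _, [] => 1
  | j, i :: l => a j ^ i * kl9dw a (j + 1) l

theorem kl9d_word_near (ρ : Γ →* (W →L[ℂ] W)) (hρ : ∀ g w, ‖ρ g w‖ = ‖w‖) (a : ℕ → Γ) (M : ℕ)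
    (ε : ℝ) (_hε0 : 0 ≤ ε) (hε : 4 * ε ≤ 1)
    (hd : ∀ j, ‖ρ (a (j + 1)) - 1‖ ≤ 2 * ε * ‖ρ (a j) - 1‖) (l : List ℕ) :
    ∀ j, (∀ i ∈ l, i < M) → ‖ρ (kl9dw a j l) - 1‖ ≤ 2 * M * ‖ρ (a j) - 1‖ := by
  induction l with
  | nil =>
    intro j _
    have : ρ (kl9dw a j []) - 1 = 0 := by simp [kl9dw]
    rw [this, norm_zero]; positivity
  | cons i l ih =>
    intro j hl
    have h1 := ih (j + 1) (fun i' hi' => hl i' (List.mem_cons_of_mem _ hi'))
    have h2 : i < M := hl i List.mem_cons_self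
    have h3 : ρ (kl9dw a j (i :: l)) - 1 = (ρ (a j)) ^ i * (ρ (kl9dw a (j + 1) l) - 1) +
        ((ρ (a j)) ^ i - 1) := by
      rw [kl9dw, map_mul, map_pow, mul_sub, mul_one]; abel
    rw [h3]
    refine (norm_add_le _ _).trans ?_
    have hpow : ∀ i : ℕ, ‖(ρ (a j)) ^ i‖ ≤ 1 := fun i => by
      rw [← map_pow]; exact kl9d_norm_le ρ hρ _
    have h4 : ‖(ρ (a j)) ^ i * (ρ (kl9dw a (j + 1) l) - 1)‖ ≤ 2 * M * ‖ρ (a (j + 1)) - 1‖ :=
      (norm_mul_le _ _).trans (by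
        have := mul_le_mul_of_nonneg_right (hpow i) (norm_nonneg (ρ (kl9dw a (j + 1) l) - 1))
        linarith)
    have h5 := kl9d_pow_sub (ρ (a j)) hpow i
    have h6 : (i : ℝ) ≤ M := by exact_mod_cast h2.le
    have h7 := hd j
    have hdj : 0 ≤ ‖ρ (a j) - 1‖ := norm_nonneg _
    have hM : (0 : ℝ) ≤ M := Nat.cast_nonneg _
    have h8 : 2 * M * ‖ρ (a (j + 1)) - 1‖ ≤ 2 * M * (2 * ε * ‖ρ (a j) - 1‖) :=
      mul_le_mul_of_nonneg_left h7 (by positivity)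
    have h9 : (i : ℝ) * ‖ρ (a j) - 1‖ ≤ M * ‖ρ (a j) - 1‖ := mul_le_mul_of_nonneg_right h6 hdj
    have h10 : 2 * (M : ℝ) * (2 * ε * ‖ρ (a j) - 1‖) ≤ M * ‖ρ (a j) - 1‖ := by
      have h11 : 2 * (M : ℝ) * (2 * ε * ‖ρ (a j) - 1‖) = (4 * ε) * (M * ‖ρ (a j) - 1‖) := by ring
      rw [h11]
      have h12 : 0 ≤ (M : ℝ) * ‖ρ (a j) - 1‖ := mul_nonneg hM hdj
      nlinarith
    linarith

theorem kl9d_word_inj (ρ : Γ →* (W →L[ℂ] W)) (hρ : ∀ g w, ‖ρ g w‖ = ‖w‖) (a : ℕ → Γ) (M : ℕ)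
    (ε : ℝ) (hε0 : 0 ≤ ε) (hM : 16 * M * ε ≤ 1) (hε : 4 * ε ≤ 1)
    (hd : ∀ j, ‖ρ (a (j + 1)) - 1‖ ≤ 2 * ε * ‖ρ (a j) - 1‖)
    (hdε : ∀ j, ‖ρ (a j) - 1‖ ≤ ε) (hdpos : ∀ j, 0 < ‖ρ (a j) - 1‖) (l : List ℕ) :
    ∀ (l' : List ℕ) (j : ℕ), l.length = l'.length → (∀ i ∈ l, i < M) → (∀ i ∈ l', i < M) →
      kl9dw a j l = kl9dw a j l' → l = l' := by
  have main : ∀ (j : ℕ) (i i' : ℕ) (l l' : List ℕ), i < M → (∀ i ∈ l, i < M) → (∀ i ∈ l', i < M) →
      i' < i → kl9dw a j (i :: l) = kl9dw a j (i' :: l') → False := by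
    intro j i i' l l' hi hl hl' hlt heq
    set T := ρ (kl9dw a (j + 1) l) with hT
    set T' := ρ (kl9dw a (j + 1) l') with hT'
    set p := i - i' with hp
    have hp1 : 1 ≤ p := by omega
    have hpM : p < M := by omega
    have h1 : a j ^ p * kl9dw a (j + 1) l = kl9dw a (j + 1) l' := by
      rw [kl9dw, kl9dw, show i = i' + p by omega, pow_add, mul_assoc] at heq
      exact mul_left_cancel heq
    have h2 : (ρ (a j)) ^ p * T = T' := by rw [hT, hT', ← map_pow, ← map_mul, h1]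
    have h3 : ((ρ (a j)) ^ p - 1) * T = (T' - 1) - (T - 1) := by
      rw [sub_mul, one_mul, h2]; abel
    have hn1 := kl9d_word_near ρ hρ a M ε hε0 hε hd l (j + 1) hl
    have hn2 := kl9d_word_near ρ hρ a M ε hε0 hε hd l' (j + 1) hl'
    have hdj := hdpos j
    have hMn : (0 : ℝ) ≤ M := Nat.cast_nonneg _
    have h4 : ‖((ρ (a j)) ^ p - 1) * T‖ ≤ 8 * M * ε * ‖ρ (a j) - 1‖ := by
      rw [h3]
      refine (norm_sub_le _ _).trans ?_
      have h5 : 2 * M * ‖ρ (a (j + 1)) - 1‖ ≤ 2 * M * (2 * ε * ‖ρ (a j) - 1‖) :=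
        mul_le_mul_of_nonneg_left (hd j) (by positivity)
      have h6 : 8 * M * ε * ‖ρ (a j) - 1‖ = 2 * M * (2 * ε * ‖ρ (a j) - 1‖) +
        2 * M * (2 * ε * ‖ρ (a j) - 1‖) := by ring
      rw [h6]
      linarith
    have h5 : (ρ (a j)) ^ p - 1 = ((ρ (a j)) ^ p - 1) * T * ρ (kl9dw a (j + 1) l)⁻¹ := by
      rw [mul_assoc, hT, ← map_mul, mul_inv_cancel, map_one, mul_one]
    have h6 : ‖(ρ (a j)) ^ p - 1‖ ≤ ‖((ρ (a j)) ^ p - 1) * T‖ := by
      nth_rewrite 1 [h5]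
      refine (norm_mul_le _ _).trans ?_
      have := mul_le_mul_of_nonneg_left (kl9d_norm_le ρ hρ (kl9dw a (j + 1) l)⁻¹)
        (norm_nonneg (((ρ (a j)) ^ p - 1) * T))
      rwa [mul_one] at this
    have hpow : ∀ i : ℕ, ‖(ρ (a j)) ^ i‖ ≤ 1 := fun i => by
      rw [← map_pow]; exact kl9d_norm_le ρ hρ _
    have hpd : (p : ℝ) * ‖ρ (a j) - 1‖ ≤ 1 / 2 := by
      have h7 : (p : ℝ) ≤ M := by exact_mod_cast hpM.le
      calc (p : ℝ) * ‖ρ (a j) - 1‖ ≤ M * ε :=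
            mul_le_mul h7 (hdε j) (norm_nonneg _) hMn
        _ ≤ 1 / 2 := by nlinarith
    have h7 := kl9d_pow_lower (ρ (a j)) hpow p hpd
    have h8 : (1 : ℝ) ≤ p := by exact_mod_cast hp1
    have h9 : 3 / 4 * ‖ρ (a j) - 1‖ ≤ 3 / 4 * p * ‖ρ (a j) - 1‖ := by nlinarith
    have h10 : 8 * M * ε * ‖ρ (a j) - 1‖ ≤ 1 / 2 * ‖ρ (a j) - 1‖ :=
      mul_le_mul_of_nonneg_right (by linarith) hdj.le
    linarith
  induction l with
  | nil =>
    intro l' j hlen _ _ _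
    exact (List.length_eq_zero_iff.1 hlen.symm).symm
  | cons i l ih =>
    intro l' j hlen hl hl' heq
    cases l' with
    | nil => simp at hlen
    | cons i' l' =>
      have hli : ∀ i ∈ l, i < M := fun k hk => hl k (List.mem_cons_of_mem _ hk)
      have hli' : ∀ i ∈ l', i < M := fun k hk => hl' k (List.mem_cons_of_mem _ hk)
      rcases lt_trichotomy i i' with h | h | h
      · exact (main j i' i l' l (hl' i' List.mem_cons_self) hli' hli h heq.symm).elim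
      · subst h
        rw [kl9dw, kl9dw] at heq
        have := ih l' (j + 1) (by simpa using hlen) hli hli' (mul_left_cancel heq)
        rw [this]
      · exact (main j i i' l l' (hl i List.mem_cons_self) hli hli' h heq).elim


theorem kl9d_mem_pow_mono [DecidableEq Γ] (S : Finset Γ) (h1 : (1 : Γ) ∈ S) {m n : ℕ} (h : m ≤ n)
    {x : Γ} (hx : x ∈ S ^ m) : x ∈ S ^ n :=
  Finset.pow_subset_pow_right h1 h hx

theorem kl9d_word_mem [DecidableEq Γ] (S : Finset Γ) (_h1 : (1 : Γ) ∈ S) (a : ℕ → Γ) (M : ℕ)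
    (ha : ∀ j, a j ∈ S ^ (3 * 2 ^ j)) (l : List ℕ) :
    ∀ j, (∀ i ∈ l, i < M) → ∃ n, n + 3 * M * 2 ^ j ≤ 3 * M * 2 ^ (j + l.length) ∧
      kl9dw a j l ∈ S ^ n := by
  induction l with
  | nil =>
    intro j _
    exact ⟨0, by simp, by simp [kl9dw]⟩
  | cons i l ih =>
    intro j hl
    obtain ⟨n, hn, hmem⟩ := ih (j + 1) (fun k hk => hl k (List.mem_cons_of_mem _ hk))
    have hi : i < M := hl i List.mem_cons_self
    refine ⟨3 * 2 ^ j * i + n, ?_, ?_⟩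
    · have h2 : 3 * 2 ^ j * i ≤ 3 * M * 2 ^ j := by
        calc 3 * 2 ^ j * i ≤ 3 * 2 ^ j * M := Nat.mul_le_mul_left _ hi.le
          _ = 3 * M * 2 ^ j := by ring
      have h3 : 3 * M * 2 ^ (j + 1) = 3 * M * 2 ^ j + 3 * M * 2 ^ j := by rw [pow_succ]; ring
      have h4 : j + (i :: l).length = j + 1 + l.length := by simp; omega
      rw [h4]
      omega
    · rw [kl9dw, pow_add, pow_mul]
      exact Finset.mul_mem_mul (Finset.pow_mem_pow (ha j)) hmem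

theorem kl9d_count (S : Finset Γ) (h1 : (1 : Γ) ∈ S) (a : ℕ → Γ) (M : ℕ)
    (ha : ∀ [DecidableEq Γ] (j : ℕ), a j ∈ S ^ (3 * 2 ^ j))
    (hinj : ∀ (l l' : List ℕ), l.length = l'.length → (∀ i ∈ l, i < M) →
      (∀ i ∈ l', i < M) → kl9dw a 0 l = kl9dw a 0 l' → l = l') (m : ℕ) :
    M ^ m ≤ vol S (3 * M * 2 ^ m) := by
  classical
  rw [vol_eq]
  have hcard : M ^ m = (Finset.univ : Finset (Fin m → Fin M)).card := by
    rw [Finset.card_univ]; simp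
  rw [hcard]
  refine Finset.card_le_card_of_injOn
    (fun f => kl9dw a 0 (List.ofFn fun i => ((f i : Fin M) : ℕ))) ?_ ?_
  · intro f _
    have hlt : ∀ i ∈ List.ofFn (fun i => ((f i : Fin M) : ℕ)), i < M := by
      intro i hi
      rw [List.mem_ofFn] at hi
      obtain ⟨k, rfl⟩ := hi
      exact (f k).2
    obtain ⟨n, hn, hmem⟩ := kl9d_word_mem S h1 a M (fun j => ha j) _ 0 hlt
    rw [List.length_ofFn, zero_add] at hn
    exact kl9d_mem_pow_mono S h1 (by omega) hmem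
  · intro f _ f' _ heq
    have hlt : ∀ f : Fin m → Fin M, ∀ i ∈ List.ofFn (fun i => ((f i : Fin M) : ℕ)), i < M := by
      intro f i hi
      rw [List.mem_ofFn] at hi
      obtain ⟨k, rfl⟩ := hi
      exact (f k).2
    have h2 := hinj _ _ (by simp) (hlt f) (hlt f') heq
    have h3 := List.ofFn_injective h2
    funext i
    exact Fin.ext (congrFun h3 i)

/-- arithmetic: exponential number of words in balls of radius `3 M 2^m` contradicts slow growth -/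
theorem kl9d_arith (S : Finset Γ) (h1 : (1 : Γ) ∈ S) (D : ℝ) (M : ℕ)
    (hM : 2 * (2 : ℝ) ^ (max D 0) ≤ M) (hv : ∀ m, M ^ m ≤ vol S (3 * M * 2 ^ m)) :
    ¬ SlowGrowth Γ D := by
  intro h
  obtain ⟨C, hC⟩ := h S
  set E := max D 0 with hE
  have hE0 : 0 ≤ E := le_max_right _ _
  have h2E : (0 : ℝ) < (2 : ℝ) ^ E := Real.rpow_pos_of_pos two_pos _
  have hMpos : 0 < M := by
    have : (0 : ℝ) < M := lt_of_lt_of_le (by positivity) hM
    exact_mod_cast this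
  have hMr : (0 : ℝ) < M := by exact_mod_cast hMpos
  set C' := max C 1 * (6 * M : ℝ) ^ E with hC'
  obtain ⟨m₀, hm₀⟩ := pow_unbounded_of_one_lt C' (one_lt_two (α := ℝ))
  obtain ⟨r, hr, hvr⟩ := hC (3 * M * 2 ^ m₀)
  have hr1 : 1 ≤ r := by
    have : 0 < 3 * M * 2 ^ m₀ := by positivity
    omega
  -- choose m with 3 M 2^m <= r < 3 M 2^(m+1)
  have hex : ∃ m, r < 3 * M * 2 ^ m := by
    refine ⟨r, ?_⟩
    have h3 : r < 2 ^ r := Nat.lt_two_pow_self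
    have h4 : 2 ^ r ≤ 3 * M * 2 ^ r := Nat.le_mul_of_pos_left _ (by omega)
    omega
  set m₁ := Nat.find hex with hm₁
  have hm₁lt : r < 3 * M * 2 ^ m₁ := Nat.find_spec hex
  have hm₁pos : m₀ < m₁ := by
    by_contra hle
    push Not at hle
    have h3 : 3 * M * 2 ^ m₁ ≤ 3 * M * 2 ^ m₀ :=
      Nat.mul_le_mul_left _ (Nat.pow_le_pow_right two_pos hle)
    omega
  obtain ⟨m, hm⟩ : ∃ m, m₁ = m + 1 := ⟨m₁ - 1, by omega⟩
  have hmle : 3 * M * 2 ^ m ≤ r := by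
    have := Nat.find_min hex (m := m) (by omega)
    omega
  have hm₀m : m₀ ≤ m := by omega
  rw [hm] at hm₁lt
  have hvm := hv m
  have hmono : vol S (3 * M * 2 ^ m) ≤ vol S r := vol_mono S h1 hmle
  have h5 : ((M : ℝ)) ^ m ≤ C * (r : ℝ) ^ D := by
    have : ((M ^ m : ℕ) : ℝ) ≤ vol S r := by exact_mod_cast hvm.trans hmono
    rw [Nat.cast_pow] at this
    exact this.trans hvr
  have hr1' : (1 : ℝ) ≤ r := by exact_mod_cast hr1
  have h6 : C * (r : ℝ) ^ D ≤ max C 1 * (r : ℝ) ^ E := by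
    have h7 : (r : ℝ) ^ D ≤ (r : ℝ) ^ E := Real.rpow_le_rpow_of_exponent_le hr1' (le_max_left _ _)
    have h8 : (0 : ℝ) ≤ (r : ℝ) ^ D := Real.rpow_nonneg (by linarith) _
    calc C * (r : ℝ) ^ D ≤ max C 1 * (r : ℝ) ^ D :=
          mul_le_mul_of_nonneg_right (le_max_left _ _) h8
      _ ≤ max C 1 * (r : ℝ) ^ E := mul_le_mul_of_nonneg_left h7 (by positivity)
  have h7 : (r : ℝ) ≤ 6 * M * 2 ^ m := by
    have : (r : ℝ) ≤ ((3 * M * 2 ^ (m + 1) : ℕ) : ℝ) := by exact_mod_cast hm₁lt.le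
    push_cast at this
    rw [pow_succ] at this
    linarith
  have h8 : (r : ℝ) ^ E ≤ (6 * M : ℝ) ^ E * ((2 : ℝ) ^ E) ^ m := by
    calc (r : ℝ) ^ E ≤ (6 * M * 2 ^ m : ℝ) ^ E := Real.rpow_le_rpow (by linarith) h7 hE0
      _ = (6 * M : ℝ) ^ E * ((2 : ℝ) ^ m) ^ E := Real.mul_rpow (by positivity) (by positivity)
      _ = (6 * M : ℝ) ^ E * ((2 : ℝ) ^ E) ^ m := by
          congr 1
          rw [← Real.rpow_natCast ((2 : ℝ) ^ E) m, ← Real.rpow_mul (by norm_num),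
            ← Real.rpow_natCast (2 : ℝ) m, ← Real.rpow_mul (by norm_num), mul_comm]
  have h9 : ((M : ℝ)) ^ m ≤ C' * ((2 : ℝ) ^ E) ^ m := by
    refine h5.trans (h6.trans ?_)
    rw [hC', mul_assoc]
    exact mul_le_mul_of_nonneg_left h8 (by positivity)
  have h10 : (2 : ℝ) ^ m * ((2 : ℝ) ^ E) ^ m ≤ (M : ℝ) ^ m := by
    rw [← mul_pow]
    exact pow_le_pow_left₀ (by positivity) hM m
  have h11 : (2 : ℝ) ^ m * ((2 : ℝ) ^ E) ^ m ≤ C' * ((2 : ℝ) ^ E) ^ m := h10.trans h9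
  have h12 : (2 : ℝ) ^ m ≤ C' := le_of_mul_le_mul_right h11 (by positivity)
  have h13 : (2 : ℝ) ^ m₀ ≤ (2 : ℝ) ^ m := pow_le_pow_right₀ one_le_two hm₀m
  linarith

/-- nontrivial `k`-th roots of unity are far from `1` -/
theorem kl9d_root (k : ℕ) (hk : 0 < k) : ∃ η : ℝ, 0 < η ∧ ∀ ζ : ℂ, ζ ^ k = 1 → ‖ζ - 1‖ < η → ζ = 1 := by
  classical
  set R : Finset ℂ := (Polynomial.nthRootsFinset k (1 : ℂ)).erase 1 with hR
  by_cases hRe : R.Nonempty
  · refine ⟨R.inf' hRe (fun ζ => ‖ζ - 1‖), ?_, ?_⟩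
    · rw [Finset.lt_inf'_iff]
      intro ζ hζ
      rw [norm_pos_iff, sub_ne_zero]
      exact (Finset.mem_erase.1 hζ).1
    · intro ζ hζ hlt
      by_contra hne
      have hmem : ζ ∈ R := Finset.mem_erase.2 ⟨hne, (Polynomial.mem_nthRootsFinset hk 1).2 hζ⟩
      have := Finset.inf'_le (fun ζ => ‖ζ - 1‖) hmem
      linarith
  · refine ⟨1, one_pos, fun ζ hζ _ => ?_⟩
    by_contra hne
    exact hRe ⟨ζ, Finset.mem_erase.2 ⟨hne, (Polynomial.mem_nthRootsFinset hk 1).2 hζ⟩⟩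

theorem not_slow_of_rep {W : Type v} [NormedAddCommGroup W] [NormedSpace ℂ W]
    [FiniteDimensional ℂ W] (hdim : 2 ≤ Module.finrank ℂ W) (hG : Group.FG Γ)
    (ρ : Γ →* (W →L[ℂ] W)) (hρ : ∀ g w, ‖ρ g w‖ = ‖w‖)
    (hirr : ∀ A : Subgroup Γ, A.index ≠ 0 → ∀ U : Submodule ℂ W,
      (∀ g ∈ A, ∀ w ∈ U, ρ g w ∈ U) → U = ⊥ ∨ U = ⊤) (D : ℝ) : ¬ SlowGrowth Γ D := by
  classical
  obtain ⟨M, hM⟩ := exists_nat_gt (2 * (2 : ℝ) ^ (max D 0))
  have h2E : (0 : ℝ) < (2 : ℝ) ^ (max D 0) := Real.rpow_pos_of_pos two_pos _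
  have hMr : (0 : ℝ) < M := lt_trans (by positivity) hM
  have hM1 : (1 : ℝ) ≤ M := by
    have : 0 < M := by exact_mod_cast hMr
    exact_mod_cast this
  obtain ⟨η, hη, hroot⟩ := kl9d_root (Module.finrank ℂ W) (by omega)
  have hnt : Nontrivial W := Module.nontrivial_of_finrank_pos (R := ℂ) (by omega)
  set ε : ℝ := min (1 / (16 * M)) (η / 2) with hε
  have hε0 : 0 < ε := lt_min (by positivity) (by positivity)
  have hεM : 16 * M * ε ≤ 1 := by
    have := min_le_left (1 / (16 * (M : ℝ))) (η / 2)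
    calc 16 * (M : ℝ) * ε ≤ 16 * M * (1 / (16 * M)) := mul_le_mul_of_nonneg_left this (by positivity)
      _ = 1 := by field_simp
  have hε4 : 4 * ε ≤ 1 := by nlinarith
  have hεη : ε ≤ η / 2 := min_le_right _ _
  set T : Set Γ := {g : Γ | ‖ρ g - 1‖ < ε} with hT
  have hidx := kl9d1_index ρ hρ ε hε0
  have hfg : (Subgroup.closure T).FG := (Group.fg_iff_subgroup_fg _).1 (fg_of_index hG _ hidx)
  obtain ⟨X, hXT, hX⟩ := kl9d_subset T hfg
  have hXidx : (Subgroup.closure (X : Set Γ)).index ≠ 0 := by rw [hX]; exact hidx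
  -- invariant subspaces: enough to check on X
  have hirrX : ∀ U : Submodule ℂ W, (∀ g ∈ X, ∀ w ∈ U, ρ g w ∈ U) → U = ⊥ ∨ U = ⊤ := by
    intro U hU
    refine hirr _ hXidx U ?_
    have hinv : ∀ g : Γ, (∀ w ∈ U, ρ g w ∈ U) → ∀ w ∈ U, ρ g⁻¹ w ∈ U := by
      intro g hg w hw
      let f : U →ₗ[ℂ] U := (ρ g : W →ₗ[ℂ] W).restrict hg
      have hinj : Function.Injective f := by
        rw [← LinearMap.ker_eq_bot, LinearMap.ker_eq_bot']
        intro u hu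
        apply Subtype.ext
        have h3 : ρ g u = 0 := congrArg Subtype.val hu
        have h4 := hρ g u
        rw [h3, norm_zero] at h4
        exact norm_eq_zero.1 h4.symm
      have hsurj : Function.Surjective f := LinearMap.injective_iff_surjective.1 hinj
      obtain ⟨u, hu⟩ := hsurj ⟨w, hw⟩
      have h3 : ρ g u = w := congrArg Subtype.val hu
      have h4 : ρ g⁻¹ w = u := by
        rw [← h3, ← mul_apply_eq_comp, ← map_mul, inv_mul_cancel, map_one]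
        rfl
      rw [h4]; exact u.2
    intro g hg
    induction hg using Subgroup.closure_induction with
    | mem x hx => exact hU x hx
    | one => intro w hw; rw [map_one]; exact hw
    | mul x y _ _ hx hy =>
      intro w hw
      rw [map_mul]
      exact hx _ (hy w hw)
    | inv x _ hx => exact hinv x hx
  -- Schur
  have hschur : ∀ Q : W →L[ℂ] W, (∀ g ∈ X, ρ g * Q = Q * ρ g) → ∃ c : ℂ, Q = c • 1 := by
    intro Q hQ
    obtain ⟨c, hc⟩ := Module.End.exists_eigenvalue (Q : W →ₗ[ℂ] W)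
    have h3 := hirrX (Module.End.eigenspace (Q : W →ₗ[ℂ] W) c) (by
      intro g hg w hw
      rw [Module.End.mem_eigenspace_iff] at hw ⊢
      have hw' : Q w = c • w := hw
      change Q (ρ g w) = c • ρ g w
      rw [← mul_apply_eq_comp, ← hQ g hg, mul_apply_eq_comp, hw', map_smul])
    rcases h3 with h3 | h3
    · exact absurd h3 hc
    · refine ⟨c, ?_⟩
      ext w
      have : w ∈ Module.End.eigenspace (Q : W →ₗ[ℂ] W) c := by rw [h3]; trivial
      rw [Module.End.mem_eigenspace_iff] at this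
      exact this
  -- some generator is not scalar
  have hstart : ∃ g ∈ X, ¬ ∃ c : ℂ, ρ g = c • 1 := by
    by_contra hcon
    push Not at hcon
    obtain ⟨w, hw⟩ := exists_ne (0 : W)
    have h3 := hirrX (Submodule.span ℂ {w}) (by
      intro g hg u hu
      obtain ⟨c, hc⟩ := hcon g hg
      rw [hc]
      exact Submodule.smul_mem _ c hu)
    rcases h3 with h3 | h3
    · rw [Submodule.span_singleton_eq_bot] at h3
      exact hw h3
    · have h4 := finrank_span_singleton (K := ℂ) hw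
      rw [h3, finrank_top] at h4
      omega
  obtain ⟨a₀, ha₀X, ha₀⟩ := hstart
  -- the commutator step
  have hstep : ∀ g : Γ, ‖ρ g - 1‖ ≤ ε → (¬ ∃ c : ℂ, ρ g = c • 1) →
      ∃ x ∈ X, ‖ρ (x * g * x⁻¹ * g⁻¹) - 1‖ ≤ 2 * ε * ‖ρ g - 1‖ ∧
        ¬ ∃ c : ℂ, ρ (x * g * x⁻¹ * g⁻¹) = c • 1 := by
    intro g hgε hg
    obtain ⟨x, hxX, hx⟩ : ∃ x ∈ X, ρ x * ρ g ≠ ρ g * ρ x := by
      by_contra hcon
      push Not at hcon
      exact hg (hschur (ρ g) hcon)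
    refine ⟨x, hxX, ?_⟩
    have hxε : ‖ρ x - 1‖ < ε := hXT hxX
    have hnorm : ‖ρ (x * g * x⁻¹ * g⁻¹) - 1‖ ≤ 2 * ε * ‖ρ g - 1‖ := by
      have h3 : ρ (x * g * x⁻¹ * g⁻¹) - 1 =
          ((ρ x - 1) * (ρ g - 1) - (ρ g - 1) * (ρ x - 1)) * ρ (x⁻¹ * g⁻¹) := by
        have h4 : (ρ x - 1) * (ρ g - 1) - (ρ g - 1) * (ρ x - 1) = ρ x * ρ g - ρ g * ρ x := by
          simp only [sub_mul, mul_sub, one_mul, mul_one]; abel
        rw [h4, sub_mul, ← map_mul, ← map_mul, ← map_mul, ← map_mul]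
        congr 2
        · group
        · have : g * x * (x⁻¹ * g⁻¹) = 1 := by group
          rw [this, map_one]
      rw [h3]
      refine (norm_mul_le _ _).trans ?_
      have h5 := kl9d_norm_le ρ hρ (x⁻¹ * g⁻¹)
      have h6 : ‖(ρ x - 1) * (ρ g - 1) - (ρ g - 1) * (ρ x - 1)‖ ≤ 2 * ε * ‖ρ g - 1‖ := by
        refine (norm_sub_le _ _).trans ?_
        have h7 := norm_mul_le (ρ x - 1) (ρ g - 1)
        have h8 := norm_mul_le (ρ g - 1) (ρ x - 1)
        have h9 : ‖ρ x - 1‖ * ‖ρ g - 1‖ ≤ ε * ‖ρ g - 1‖ :=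
          mul_le_mul_of_nonneg_right hxε.le (norm_nonneg _)
        nlinarith
      have h10 := mul_le_mul h6 h5 (norm_nonneg _) (by positivity)
      rwa [mul_one] at h10
    refine ⟨hnorm, ?_⟩
    rintro ⟨c, hc⟩
    -- determinant
    have hdet : c ^ (Module.finrank ℂ W) = 1 := by
      have hdetmul : ∀ g h : Γ, LinearMap.det ((ρ (g * h) : W →L[ℂ] W) : W →ₗ[ℂ] W) =
          LinearMap.det ((ρ g : W →L[ℂ] W) : W →ₗ[ℂ] W) *
          LinearMap.det ((ρ h : W →L[ℂ] W) : W →ₗ[ℂ] W) := by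
        intro g h
        rw [← LinearMap.det_comp, map_mul]
        rfl
      have hdetone : LinearMap.det ((ρ 1 : W →L[ℂ] W) : W →ₗ[ℂ] W) = 1 := by
        rw [map_one]
        exact LinearMap.det_id
      have hdetinv : ∀ g : Γ, LinearMap.det ((ρ g : W →L[ℂ] W) : W →ₗ[ℂ] W) *
          LinearMap.det ((ρ g⁻¹ : W →L[ℂ] W) : W →ₗ[ℂ] W) = 1 := by
        intro g
        rw [← hdetmul, mul_inv_cancel, hdetone]
      have h3 : LinearMap.det ((ρ (x * g * x⁻¹ * g⁻¹) : W →L[ℂ] W) : W →ₗ[ℂ] W) = 1 := by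
        rw [hdetmul, hdetmul, hdetmul]
        calc _ = (LinearMap.det ((ρ x : W →L[ℂ] W) : W →ₗ[ℂ] W) *
              LinearMap.det ((ρ x⁻¹ : W →L[ℂ] W) : W →ₗ[ℂ] W)) *
              (LinearMap.det ((ρ g : W →L[ℂ] W) : W →ₗ[ℂ] W) *
              LinearMap.det ((ρ g⁻¹ : W →L[ℂ] W) : W →ₗ[ℂ] W)) := by ring
          _ = 1 := by rw [hdetinv, hdetinv, one_mul]
      rw [hc] at h3
      have h4 : (((c • (1 : W →L[ℂ] W)) : W →L[ℂ] W) : W →ₗ[ℂ] W) = c • LinearMap.id := rfl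
      rw [h4, LinearMap.det_smul, LinearMap.det_id, mul_one] at h3
      exact h3
    have hc1 : ‖c - 1‖ < η := by
      have h3 : ρ (x * g * x⁻¹ * g⁻¹) - 1 = (c - 1) • (1 : W →L[ℂ] W) := by
        rw [hc, sub_smul, one_smul]
      rw [h3, norm_smul] at hnorm
      have h4 : ‖(1 : W →L[ℂ] W)‖ = 1 := norm_one
      rw [h4, mul_one] at hnorm
      have h5 : 2 * ε * ‖ρ g - 1‖ ≤ 2 * ε * ε := mul_le_mul_of_nonneg_left hgε (by positivity)
      nlinarith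
    have hc2 := hroot c hdet hc1
    rw [hc2, one_smul] at hc
    apply hx
    have h3 : ρ (x * g * x⁻¹ * g⁻¹) * (ρ g * ρ x) = ρ g * ρ x := by rw [hc, one_mul]
    rw [← map_mul, ← map_mul] at h3
    rw [← map_mul, ← map_mul, ← h3]
    congr 1
    group
  -- the chain
  choose! x hxX hxn hxs using hstep
  let stp : Γ → Γ := fun g => x g * g * (x g)⁻¹ * g⁻¹
  let a : ℕ → Γ := fun n => stp^[n] a₀
  have ha_succ : ∀ n, a (n + 1) = stp (a n) := fun n => Function.iterate_succ_apply' stp n a₀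
  have hgood : ∀ n, ‖ρ (a n) - 1‖ ≤ ε ∧ ¬ ∃ c : ℂ, ρ (a n) = c • 1 := by
    intro n
    induction n with
    | zero => exact ⟨(show ‖ρ a₀ - 1‖ < ε from hXT ha₀X).le, ha₀⟩
    | succ n ih =>
      rw [ha_succ]
      have h3 := hxn (a n) ih.1 ih.2
      refine ⟨h3.trans ?_, hxs (a n) ih.1 ih.2⟩
      have h4 := ih.1
      nlinarith [norm_nonneg (ρ (a n) - 1)]
  have hd : ∀ j, ‖ρ (a (j + 1)) - 1‖ ≤ 2 * ε * ‖ρ (a j) - 1‖ := by
    intro j
    rw [ha_succ]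
    exact hxn (a j) (hgood j).1 (hgood j).2
  have hpos : ∀ j, 0 < ‖ρ (a j) - 1‖ := by
    intro j
    rw [norm_pos_iff, sub_ne_zero]
    intro h3
    exact (hgood j).2 ⟨1, by rw [h3, one_smul]⟩
  set S₀ : Finset Γ := insert 1 (X ∪ X⁻¹) with hS₀
  have h1S : (1 : Γ) ∈ S₀ := Finset.mem_insert_self _ _
  have hXS : ∀ x ∈ X, x ∈ S₀ := fun x hx =>
    Finset.mem_insert_of_mem (Finset.mem_union_left _ hx)
  have hXS' : ∀ x ∈ X, x⁻¹ ∈ S₀ := fun x hx =>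
    Finset.mem_insert_of_mem (Finset.mem_union_right _ (Finset.inv_mem_inv hx))
  have hmem : ∀ j, a j ∈ S₀ ^ (3 * 2 ^ j - 2) ∧ (a j)⁻¹ ∈ S₀ ^ (3 * 2 ^ j - 2) := by
    intro j
    induction j with
    | zero =>
      have h0 : 3 * 2 ^ 0 - 2 = 1 := rfl
      rw [h0, pow_one]
      exact ⟨hXS _ ha₀X, hXS' _ ha₀X⟩
    | succ j ih =>
      have hxj := hxX (a j) (hgood j).1 (hgood j).2
      have hpw : 1 ≤ 2 ^ j := Nat.one_le_two_pow
      have hexp : 3 * 2 ^ (j + 1) - 2 = 1 + (3 * 2 ^ j - 2) + 1 + (3 * 2 ^ j - 2) := by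
        rw [pow_succ]; omega
      rw [ha_succ, hexp]
      constructor
      · rw [pow_add, pow_add, pow_add, pow_one]
        exact Finset.mul_mem_mul (Finset.mul_mem_mul (Finset.mul_mem_mul (hXS _ hxj) ih.1)
          (hXS' _ hxj)) ih.2
      · have h3 : (stp (a j))⁻¹ = a j * x (a j) * (a j)⁻¹ * (x (a j))⁻¹ := by
          simp only [stp]; group
        rw [h3]
        have hexp2 : 1 + (3 * 2 ^ j - 2) + 1 + (3 * 2 ^ j - 2) =
          (3 * 2 ^ j - 2) + 1 + (3 * 2 ^ j - 2) + 1 := by omega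
        rw [hexp2, pow_add, pow_add, pow_add, pow_one]
        exact Finset.mul_mem_mul (Finset.mul_mem_mul (Finset.mul_mem_mul ih.1 (hXS _ hxj))
          ih.2) (hXS' _ hxj)
  have hmem' : ∀ j, a j ∈ S₀ ^ (3 * 2 ^ j) := fun j =>
    kl9d_mem_pow_mono S₀ h1S (m := 3 * 2 ^ j - 2) (n := 3 * 2 ^ j) (by omega) (hmem j).1
  refine kl9d_arith S₀ h1S D M hM.le (kl9d_count S₀ h1S a M ?_ ?_)
  · intro inst j
    have h4 := hmem' j
    have e : inst = fun a b => Classical.propDecidable (a = b) := Subsingleton.elim _ _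
    subst e
    exact h4
  · intro l l' hlen hl hl' heq
    exact kl9d_word_inj ρ hρ a M ε hε0.le hεM hε4 hd (fun j => (hgood j).1) hpos l l' 0 hlen hl hl'
      heq

end kl9d

end Pool.Agent.Lib.MP_0f7bfe_al
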