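import Pool.Agent.Lib.MP_0f7bfe_al.KL9a
import Pool.Agent.Lib.MP_0f7bfe_al.KL9c
import Pool.Agent.Lib.MP_0f7bfe_al.KL9d

open scoped Pointwise

namespace Pool.Agent.Lib.MP_0f7bfe_al

universe u v

section kl9e
variable {Γ : Type u} [Group Γ]

theorem kl9e_abs {V : Type v} [AddCommGroup V] [Module ℂ V] [FiniteDimensional ℂ V] (N : V → ℝ)
    (hN0 : ∀ x, 0 ≤ N x) (hN1 : ∀ (c : ℂ) x, N (c • x) = ‖c‖ * N x)
    (hN2 : ∀ x y, N (x + y) ≤ N x + N y) (hN3 : ∀ x, N x = 0 → x = 0)
    (hdim : 2 ≤ Module.finrank ℂ V) (hG : Group.FG Γ)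
    (ρ : Γ →* (V →ₗ[ℂ] V)) (hρ : ∀ g w, N (ρ g w) = N w)
    (hirr : ∀ A : Subgroup Γ, A.index ≠ 0 → ∀ U : Submodule ℂ V,
      (∀ g ∈ A, ∀ w ∈ U, ρ g w ∈ U) → U = ⊥ ∨ U = ⊤) (D : ℝ) : ¬ SlowGrowth Γ D := by
  letI : Norm V := ⟨N⟩
  have hz : N 0 = 0 := by
    have := hN1 0 0
    simpa using this
  have core : NormedSpace.Core ℂ V :=
    { norm_nonneg := hN0
      norm_smul := hN1
      norm_triangle := hN2
      norm_eq_zero_iff := fun x => ⟨hN3 x, fun h => by rw [h]; exact hz⟩ }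
  letI i1 : NormedAddCommGroup V := NormedAddCommGroup.ofCore core
  letI i2 : NormedSpace ℂ V := NormedSpace.ofCore core
  let ρ' : Γ →* (V →L[ℂ] V) :=
    { toFun := fun g => LinearMap.toContinuousLinearMap (ρ g)
      map_one' := by
        ext x
        rw [map_one]
        rfl
      map_mul' := by
        intro g h
        ext x
        rw [map_mul]
        rfl }
  exact not_slow_of_rep hdim hG ρ' (fun g w => hρ g w) (fun A hA U hU => hirr A hA U hU) D

theorem kl9e_bdd (S : Finset Γ) (f : Γ → ℂ) (hf : f ∈ LipHarmC S) :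
    BddAbove (Set.range fun p : Γ × S => ‖f (p.1 * (p.2 : Γ)) - f p.1‖) := by
  obtain ⟨⟨_, _, L, hL⟩, ⟨_, _, L', hL'⟩⟩ := hf
  refine ⟨L + L', ?_⟩
  rintro _ ⟨⟨x, s, hs⟩, rfl⟩
  refine (Complex.norm_le_abs_re_add_abs_im _).trans ?_
  rw [Complex.sub_re, Complex.sub_im]
  exact add_le_add (hL x s hs) (hL' x s hs)

/-- the gradient norm -/
noncomputable def kl9eN (S : Finset Γ) (f : Γ → ℂ) : ℝ :=
  ⨆ p : Γ × S, ‖f (p.1 * (p.2 : Γ)) - f p.1‖

theorem kl9eN_nonneg (S : Finset Γ) (f : Γ → ℂ) : 0 ≤ kl9eN S f :=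
  Real.iSup_nonneg fun _ => norm_nonneg _

theorem kl9eN_smul (S : Finset Γ) (c : ℂ) (f : Γ → ℂ) : kl9eN S (c • f) = ‖c‖ * kl9eN S f := by
  rw [kl9eN, kl9eN, Real.mul_iSup_of_nonneg (norm_nonneg c)]
  congr 1
  funext p
  rw [← norm_mul, mul_sub]
  rfl

theorem kl9eN_add (S : Finset Γ) (f g : Γ → ℂ) (hf : f ∈ LipHarmC S) (hg : g ∈ LipHarmC S) :
    kl9eN S (f + g) ≤ kl9eN S f + kl9eN S g := by
  refine Real.iSup_le (fun p => ?_) (add_nonneg (kl9eN_nonneg S f) (kl9eN_nonneg S g))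
  have h1 := le_ciSup (kl9e_bdd S f hf) p
  have h2 := le_ciSup (kl9e_bdd S g hg) p
  have h3 : (f + g) (p.1 * (p.2 : Γ)) - (f + g) p.1 =
      (f (p.1 * (p.2 : Γ)) - f p.1) + (g (p.1 * (p.2 : Γ)) - g p.1) := by
    simp only [Pi.add_apply]; ring
  rw [h3]
  exact (norm_add_le _ _).trans (add_le_add h1 h2)

theorem kl9eN_zero (S : Finset Γ) (hgen : Subgroup.closure (S : Set Γ) = ⊤) (f : Γ → ℂ)
    (hf : f ∈ LipHarmC S) (h : kl9eN S f = 0) : f = 0 := by
  have h1 : ∀ x, ∀ s ∈ S, f (x * s) = f x := by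
    intro x s hs
    have h2 := le_ciSup (kl9e_bdd S f hf) (x, ⟨s, hs⟩)
    have h3 : ‖f (x * s) - f x‖ ≤ 0 := h2.trans h.le
    exact sub_eq_zero.1 (norm_le_zero_iff.1 h3)
  have h4 : ∀ y : Γ, ∀ x, f (x * y) = f x := by
    intro y
    have hy : y ∈ Subgroup.closure (S : Set Γ) := by rw [hgen]; trivial
    induction hy using Subgroup.closure_induction with
    | mem s hs => exact fun x => h1 x s hs
    | one => intro x; rw [mul_one]
    | mul a b _ _ ha hb => intro x; rw [← mul_assoc, hb, ha]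
    | inv a _ ha =>
      intro x
      have := ha (x * a⁻¹)
      rw [inv_mul_cancel_right] at this
      exact this.symm
  have hf1 : f 1 = 0 := Complex.ext hf.1.2.1 hf.2.2.1
  funext y
  have := h4 y 1
  rw [one_mul, hf1] at this
  exact this

theorem kl9eN_act (S : Finset Γ) (g : Γ) (f : Γ → ℂ) : kl9eN S (actF g f) = kl9eN S f := by
  rw [kl9eN, kl9eN]
  refine Equiv.iSup_congr ((Equiv.mulLeft g⁻¹).prodCongr (Equiv.refl _)) fun p => ?_
  simp only [actF, Equiv.prodCongr_apply, Prod.map, Equiv.coe_mulLeft, Equiv.refl_apply, mul_assoc]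
  congr 1
  ring

/-- assembly -/
theorem surj_Z_of_finite (S : Finset Γ) (h1 : (1 : Γ) ∈ S)
    (hgen : Subgroup.closure (S : Set Γ) = ⊤) (D : ℝ) (hD : SlowGrowth Γ D)
    (hfin : FiniteDimensional ℂ (LipHarmC S)) (hne : ∃ w ∈ LipHarmC S, w ≠ 0) :
    ∃ (A' : Subgroup Γ), A'.index ≠ 0 ∧
      ∃ τ : A' →* Multiplicative ℤ, Function.Surjective τ := by
  classical
  let P : ℕ → Prop := fun n => ∃ (A : Subgroup Γ) (U : Submodule ℂ (Γ → ℂ)), A.index ≠ 0 ∧
    U ≤ LipHarmC S ∧ U ≠ ⊥ ∧ (∀ g ∈ A, ∀ w ∈ U, actF g w ∈ U) ∧ Module.finrank ℂ U = n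
  have hP : ∃ n, P n := by
    refine ⟨_, ⊤, LipHarmC S, by simp, le_rfl, ?_, fun g _ w hw => actF_mem S g w hw, rfl⟩
    obtain ⟨w, hw, hw0⟩ := hne
    exact fun h => hw0 ((Submodule.eq_bot_iff _).1 h w hw)
  obtain ⟨A, U, hA, hU, hU0, hinv, hfr⟩ := Nat.find_spec hP
  have hmin : ∀ m, m < Nat.find hP → ¬ P m := fun m hm => Nat.find_min hP hm
  have hUfin : FiniteDimensional ℂ U := Submodule.finiteDimensional_of_le hU
  have hact1 : ∀ w ∈ U, actF 1 w = w := by
    intro w hw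
    have := hU hw
    exact kl9c_actF_one w (Complex.ext this.1.2.1 this.2.2.1)
  have hpos : 1 ≤ Module.finrank ℂ U := by
    rw [Nat.one_le_iff_ne_zero]
    intro h
    exact hU0 (Submodule.finrank_eq_zero.1 h)
  rcases hpos.eq_or_lt with hone | htwo
  · obtain ⟨⟨w, hw⟩, hw0, hw1⟩ := finrank_eq_one_iff'.1 hone.symm
    refine surj_Z_of_char S h1 hgen w (hU hw) (fun h => hw0 (Subtype.ext h)) A hA ?_
    intro g hg
    obtain ⟨c, hc⟩ := hw1 ⟨actF g w, hinv g hg w hw⟩
    exact ⟨c, (congrArg Subtype.val hc).symm⟩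
  · exfalso
    have hG : Group.FG Γ := ⟨⟨S, hgen⟩⟩
    have hAfg : Group.FG A := fg_of_index hG A hA
    let ρ : A →* (U →ₗ[ℂ] U) :=
      { toFun := fun g =>
          { toFun := fun w => ⟨actF (g : Γ) w, hinv g g.2 w w.2⟩
            map_add' := by
              intro x y
              apply Subtype.ext
              funext z
              simp only [actF, Submodule.coe_add, Pi.add_apply]
              ring
            map_smul' := by
              intro c x
              apply Subtype.ext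
              exact kl9c_actF_smul (x : Γ → ℂ) g c }
        map_one' := by
          apply LinearMap.ext
          intro w
          apply Subtype.ext
          exact hact1 w w.2
        map_mul' := by
          intro g h
          apply LinearMap.ext
          intro w
          apply Subtype.ext
          exact kl9c_actF_mul (w : Γ → ℂ) g h }
    refine kl9e_abs (Γ := A) (V := U) (fun w => kl9eN S w) (fun w => kl9eN_nonneg S _)
      (fun c w => kl9eN_smul S c _) (fun x y => kl9eN_add S _ _ (hU x.2) (hU y.2))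
      (fun x hx => Subtype.ext (kl9eN_zero S hgen _ (hU x.2) hx)) htwo hAfg ρ
      (fun g w => kl9eN_act S g _) ?_ D (hD.subgroup A)
    intro B hB U₁ hU₁
    by_cases hbot : U₁ = ⊥
    · exact Or.inl hbot
    · right
      have hPm : P (Module.finrank ℂ U₁) := by
        refine ⟨B.map A.subtype, U₁.map U.subtype, ?_, ?_, ?_, ?_, ?_⟩
        · rw [Subgroup.index_map_subtype]
          exact mul_ne_zero hB hA
        · rintro _ ⟨w, _, rfl⟩
          exact hU w.2
        · intro h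
          apply hbot
          rw [eq_bot_iff]
          intro w hw
          have h2 : (w : Γ → ℂ) ∈ U₁.map U.subtype := ⟨w, hw, rfl⟩
          rw [h, Submodule.mem_bot] at h2
          rw [Submodule.mem_bot]
          exact Subtype.ext h2
        · rintro _ ⟨g, hg, rfl⟩ _ ⟨w, hw, rfl⟩
          exact ⟨ρ g w, hU₁ g hg w hw, rfl⟩
        · exact Submodule.finrank_map_subtype_eq U U₁
      by_contra htop
      have hlt := Submodule.finrank_lt htop
      rw [hfr] at hlt
      exact hmin _ hlt hPm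

end kl9e

end Pool.Agent.Lib.MP_0f7bfe_al
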