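import Pool.Agent.Lib.MP_0f7bfe_al.KL7
import Pool.Agent.Lib.MP_0f7bfe_al.KL8c
import Pool.Agent.Lib.MP_0f7bfe_al.KL9e
import Pool.Agent.Lib.MP_0f7bfe_al.KL10a
import Pool.Agent.Lib.MP_0f7bfe_al.KL10b
import Pool.Agent.Lib.MP_0f7bfe_al.KL11
import Pool.Agent.Lib.MP_0f7bfe_al.FM11

open scoped Pointwise InnerProductSpace

namespace Pool.Agent.Lib.MP_0f7bfe_al

universe u v

section kl12
variable {Γ : Type u} [Group Γ]

theorem surj_Z_of_slow [Infinite Γ] (hG : Group.FG Γ) (D : ℝ) (hD : SlowGrowth Γ D) :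
    ∃ (A' : Subgroup Γ), A'.index ≠ 0 ∧
      ∃ τ : A' →* Multiplicative ℤ, Function.Surjective τ := by
  classical
  obtain ⟨T, hT⟩ := hG.1
  set S : Finset Γ := insert 1 (T ∪ T⁻¹) with hS
  have h1 : (1 : Γ) ∈ S := Finset.mem_insert_self _ _
  have hinv : ∀ s ∈ S, s⁻¹ ∈ S := by
    intro s hs
    rw [hS, Finset.mem_insert, Finset.mem_union, Finset.mem_inv'] at hs ⊢
    rw [inv_inv]
    rcases hs with rfl | hs | hs
    · left; exact inv_one
    · right; right; exact hs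
    · right; left; exact hs
  have hgen : Subgroup.closure (S : Set Γ) = ⊤ := by
    rw [eq_top_iff, ← hT]
    apply Subgroup.closure_mono
    intro x hx
    rw [hS]
    simp only [Finset.coe_insert, Finset.coe_union, Set.mem_insert_iff, Set.mem_union]
    exact Or.inr (Or.inl hx)
  obtain ⟨f, hf, hf0⟩ := exists_lipHarm_ne_zero S h1
    (fun ε hε => exists_almost_harmonic S h1 hinv hgen D hD ε hε)
  refine surj_Z_of_finite S h1 hgen D hD (finite_lipHarmC S (finite_lipHarm S h1 hgen D hD)) ?_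
  refine ⟨fun x => (f x : ℂ), ⟨?_, ?_⟩, ?_⟩
  · simpa using hf
  · have h0 : (fun x => ((f x : ℂ)).im) = (0 : Γ → ℝ) := by funext x; simp
    rw [h0]; exact (LipHarm S).zero_mem
  · intro h
    apply hf0
    funext x
    have := congrFun h x
    simpa using this

theorem kl12_virtZ {H : Type u} [Group H] (τ : H →* Multiplicative ℤ)
    (hτ : Function.Surjective τ) (hfin : Finite τ.ker) :
    ∃ A : Subgroup H, A.index ≠ 0 ∧ Nonempty (A ≃* Multiplicative ℤ) := by
  obtain ⟨t, ht⟩ := hτ (Multiplicative.ofAdd 1)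
  have hpow : ∀ i : ℤ, τ (t ^ i) = Multiplicative.ofAdd i := by
    intro i
    rw [map_zpow, ht, ← ofAdd_zsmul, smul_eq_mul, mul_one]
  refine ⟨Subgroup.zpowers t, ?_, ⟨MulEquiv.ofBijective
    (τ.comp (Subgroup.zpowers t).subtype) ⟨?_, ?_⟩⟩⟩
  · have hsurj : Function.Surjective (fun n : τ.ker => ((n : H) : H ⧸ Subgroup.zpowers t)) := by
      intro q
      obtain ⟨h, rfl⟩ := QuotientGroup.mk_surjective q
      refine ⟨⟨h * t ^ (-(τ h).toAdd), ?_⟩, ?_⟩
      · rw [MonoidHom.mem_ker, map_mul, hpow]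
        apply Multiplicative.toAdd.injective
        simp
      · change ((h * t ^ (-(τ h).toAdd) : H) : H ⧸ Subgroup.zpowers t) = (h : H ⧸ Subgroup.zpowers t)
        rw [QuotientGroup.eq]
        rw [mul_inv_rev, mul_assoc, inv_mul_cancel, mul_one, ← zpow_neg]
        exact Subgroup.zpow_mem_zpowers t _
    have := Finite.of_surjective _ hsurj
    exact Subgroup.index_ne_zero_of_finite
  · rw [injective_iff_map_eq_one]
    rintro ⟨_, i, rfl⟩ h
    have h2 : τ (t ^ i) = 1 := h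
    rw [hpow] at h2
    have h3 : i = 0 := by
      have := congrArg Multiplicative.toAdd h2
      simpa using this
    subst h3
    apply Subtype.ext
    simp
  · intro z
    refine ⟨⟨t ^ z.toAdd, Subgroup.zpow_mem_zpowers t _⟩, ?_⟩
    change τ (t ^ z.toAdd) = z
    rw [hpow]
    rfl

theorem kl12_transfer {M : Type} [Group M] (A' : Subgroup Γ) (hA' : A'.index ≠ 0)
    (h : ∃ A : Subgroup A', A.index ≠ 0 ∧ Nonempty (A ≃* M)) :
    ∃ A : Subgroup Γ, A.index ≠ 0 ∧ Nonempty (A ≃* M) := by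
  obtain ⟨A, hA, ⟨e⟩⟩ := h
  refine ⟨A.map A'.subtype, ?_, ⟨?_⟩⟩
  · rw [Subgroup.index_map_subtype]
    exact mul_ne_zero hA hA'
  · exact (A.equivMapOfInjective A'.subtype A'.subtype_injective).symm.trans e

theorem classifySlow [Infinite Γ] (hG : Group.FG Γ) (D : ℝ) (hD0 : 0 ≤ D) (hD3 : D < 3)
    (hD : SlowGrowth Γ D) :
    (∃ A : Subgroup Γ, A.index ≠ 0 ∧ Nonempty (A ≃* Multiplicative ℤ)) ∨
    (∃ A : Subgroup Γ, A.index ≠ 0 ∧ Nonempty (A ≃* Multiplicative (ℤ × ℤ))) := by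
  classical
  obtain ⟨A', hA', τ, hτ⟩ := surj_Z_of_slow hG D hD
  have hA'fg : Group.FG A' := fg_of_index hG A' hA'
  have hA'D : SlowGrowth A' D := hD.subgroup A'
  have hNfg : τ.ker.FG := ker_fg hA'fg D hA'D τ hτ
  have hNfg' : Group.FG τ.ker := (Group.fg_iff_subgroup_fg _).2 hNfg
  have hND : SlowGrowth τ.ker (D - 1) := slowGrowth_ker D hD0 hA'D τ hτ
  rcases finite_or_infinite τ.ker with hfin | hinf
  · left
    exact kl12_transfer A' hA' (kl12_virtZ τ hτ hfin)
  · right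
    have hD1 : 0 ≤ D - 1 := by
      by_contra h
      exact not_slow_of_lt_one hNfg' (D - 1) (by linarith) hND
    obtain ⟨N₁, hN₁, τ', hτ'⟩ := surj_Z_of_slow hNfg' (D - 1) hND
    have hN₁fg : Group.FG N₁ := fg_of_index hNfg' N₁ hN₁
    have hN₁D : SlowGrowth N₁ (D - 1) := hND.subgroup N₁
    have hKfg : Group.FG τ'.ker :=
      (Group.fg_iff_subgroup_fg _).2 (ker_fg hN₁fg (D - 1) hN₁D τ' hτ')
    have hKD : SlowGrowth τ'.ker (D - 1 - 1) := slowGrowth_ker (D - 1) hD1 hN₁D τ' hτ'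
    have hKfin : Finite τ'.ker := by
      by_contra h
      rw [not_finite_iff_infinite] at h
      exact not_slow_of_lt_one hKfg (D - 1 - 1) (by linarith) hKD
    refine kl12_transfer A' hA' (virtually_Z2 τ.ker ⟨N₁, τ', hN₁, ?_, ?_⟩
      ⟨⊤, τ.comp (Subgroup.subtype ⊤), by simp, ?_, ?_, ?_⟩)
    · obtain ⟨g, hg⟩ := hτ' (Multiplicative.ofAdd 1)
      refine ⟨g, ?_⟩
      rw [hg]
      intro h
      have := congrArg Multiplicative.toAdd h
      simp at this
    · refine (Set.finite_range (fun k : τ'.ker => ((k : N₁) : τ.ker))).subset ?_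
      rintro x ⟨g, hg, rfl⟩
      exact ⟨⟨g, hg⟩, rfl⟩
    · obtain ⟨g, hg⟩ := hτ (Multiplicative.ofAdd 1)
      refine ⟨⟨g, trivial⟩, ?_⟩
      change τ g ≠ 1
      rw [hg]
      intro h
      have := congrArg Multiplicative.toAdd h
      simp at this
    · intro g hg
      exact hg
    · refine (Set.finite_singleton (1 : A' ⧸ τ.ker)).subset ?_
      rintro x ⟨g, hg, rfl⟩
      rw [Set.mem_singleton_iff, QuotientGroup.eq_one_iff]
      exact hg

end kl12

end Pool.Agent.Lib.MP_0f7bfe_al
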