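import Pool.Agent.Lib.MP_0f7bfe_al.KLDefs

/-!
Wave KL, module 13: finite groups and infinite cyclic groups are planar.
-/

namespace Pool.Agent.Lib.MP_0f7bfe_al

universe u v

section line

variable {A : Type u} [Group A] (e : A ≃* Multiplicative ℤ)

/-- integer coordinate -/
def kl13_c (a : A) : ℤ := Multiplicative.toAdd (e a)

/-- the generator -/
def kl13_S : Set A := {e.symm (Multiplicative.ofAdd 1)}

/-- the points -/
noncomputable def kl13_pt (a : A) : ℝ × ℝ := ((kl13_c e a : ℤ), 0)

/-- the arcs -/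
noncomputable def kl13_arc (u v : A) (t : ℝ) : ℝ × ℝ :=
  ((1 - t) * (kl13_c e u : ℝ) + t * (kl13_c e v : ℝ), 0)

theorem kl13_c_injective : Function.Injective (kl13_c e) := by
  intro a b h
  exact e.injective (Multiplicative.toAdd.injective h)

theorem kl13_c_mul (a b : A) : kl13_c e (a * b) = kl13_c e a + kl13_c e b := by
  simp [kl13_c]

theorem kl13_c_inv (a : A) : kl13_c e a⁻¹ = - kl13_c e a := by
  simp [kl13_c]

theorem kl13_mem_S (a : A) : a ∈ kl13_S e ↔ kl13_c e a = 1 := by
  rw [kl13_S, Set.mem_singleton_iff, MulEquiv.eq_symm_apply]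
  rfl

theorem kl13_adj {a b : A} (h : (SimpleGraph.mulCayley (kl13_S e)).Adj a b) :
    kl13_c e b = kl13_c e a + 1 ∨ kl13_c e a = kl13_c e b + 1 := by
  rw [SimpleGraph.mulCayley_adj, kl13_mem_S, kl13_mem_S, kl13_c_mul, kl13_c_mul, kl13_c_inv,
    kl13_c_inv] at h
  obtain ⟨-, h | h⟩ := h
  · left
    omega
  · right
    omega

theorem kl13_closure : Subgroup.closure (kl13_S e) = ⊤ := by
  rw [eq_top_iff]
  intro a _
  have h1 : (e.symm (Multiplicative.ofAdd 1)) ^ (kl13_c e a) = a := by
    apply e.injective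
    rw [map_zpow, MulEquiv.apply_symm_apply, ← ofAdd_zsmul, smul_eq_mul, mul_one]
    exact ofAdd_toAdd (e a)
  have h2 : e.symm (Multiplicative.ofAdd 1) ∈ kl13_S e := Set.mem_singleton _
  have h3 := Subgroup.zpow_mem (Subgroup.closure (kl13_S e)) (Subgroup.subset_closure h2)
    (kl13_c e a)
  rwa [h1] at h3

/-- the shape of an arc -/
theorem kl13_shape {a b : A} (h : (SimpleGraph.mulCayley (kl13_S e)).Adj a b) {t : ℝ}
    (ht : t ∈ Set.Icc (0 : ℝ) 1) :
    ∃ τ ∈ Set.Icc (0 : ℝ) 1, ∃ w w' : A, s(a, b) = s(w, w') ∧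
      kl13_c e w' = kl13_c e w + 1 ∧ kl13_arc e a b t = ((kl13_c e w : ℝ) + τ, 0) := by
  have ht' : 1 - t ∈ Set.Icc (0 : ℝ) 1 := ⟨by linarith [ht.2], by linarith [ht.1]⟩
  rcases kl13_adj e h with h1 | h1
  · refine ⟨t, ht, a, b, rfl, h1, ?_⟩
    simp only [kl13_arc, h1]
    ext
    · push_cast
      ring
    · rfl
  · refine ⟨1 - t, ht', b, a, Sym2.eq_swap, h1, ?_⟩
    simp only [kl13_arc, h1]
    ext
    · push_cast
      ring
    · rfl

theorem kl13_floor {m : ℤ} {τ : ℝ} (h0 : 0 < τ) (h1 : τ < 1) :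
    ⌊(m : ℝ) + τ⌋ = m ∧ ⌈(m : ℝ) + τ⌉ = m + 1 := by
  constructor
  · rw [Int.floor_eq_iff]
    constructor <;> linarith
  · rw [Int.ceil_eq_iff]
    push_cast
    constructor <;> linarith

theorem kl13_edge {a b : A} (h : (SimpleGraph.mulCayley (kl13_S e)).Adj a b) {t : ℝ}
    (ht : t ∈ Set.Icc (0 : ℝ) 1) :
    (∃ w, (w = a ∨ w = b) ∧ kl13_arc e a b t = kl13_pt e w) ∨
    (s(kl13_c e a, kl13_c e b) =
      s(⌊(kl13_arc e a b t).1⌋, ⌈(kl13_arc e a b t).1⌉) ∧
      ∀ w, kl13_arc e a b t ≠ kl13_pt e w) := by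
  obtain ⟨τ, hτ, w, w', hs, h3, h1⟩ := kl13_shape e h ht
  have hmem : (w = a ∨ w = b) ∧ (w' = a ∨ w' = b) := by
    have hw : w ∈ s(a, b) := by rw [hs]; exact Sym2.mem_mk_left _ _
    have hw' : w' ∈ s(a, b) := by rw [hs]; exact Sym2.mem_mk_right _ _
    exact ⟨Sym2.mem_iff.1 hw, Sym2.mem_iff.1 hw'⟩
  have hsc : s(kl13_c e a, kl13_c e b) = s(kl13_c e w, kl13_c e w') := by
    have := congrArg (Sym2.map (kl13_c e)) hs
    simpa using this
  rcases eq_or_lt_of_le hτ.1 with h0 | h0
  · left
    refine ⟨w, hmem.1, ?_⟩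
    rw [h1, ← h0, add_zero]
    rfl
  rcases eq_or_lt_of_le hτ.2 with h2 | h2
  · left
    refine ⟨w', hmem.2, ?_⟩
    rw [h1, h2, kl13_pt, h3]
    simp
  · right
    constructor
    · rw [hsc, h1, h3]
      simp only [(kl13_floor h0 h2).1, (kl13_floor h0 h2).2]
    · intro v hv
      rw [h1] at hv
      have h4 := congrArg Prod.fst hv
      simp only [kl13_pt] at h4
      have h5 : τ = ((kl13_c e v - kl13_c e w : ℤ) : ℝ) := by
        push_cast
        linarith
      rw [h5] at h0 h2
      have h6 : 0 < kl13_c e v - kl13_c e w := by exact_mod_cast h0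
      have h7 : kl13_c e v - kl13_c e w < 1 := by exact_mod_cast h2
      omega

theorem kl13_pt_injective : Function.Injective (kl13_pt e) := by
  intro a b h
  apply kl13_c_injective e
  have h1 := congrArg Prod.fst h
  simp only [kl13_pt] at h1
  exact_mod_cast h1

theorem kl13_arc_pt {a b : A} (h : (SimpleGraph.mulCayley (kl13_S e)).Adj a b) {t : ℝ}
    (ht : t ∈ Set.Icc (0 : ℝ) 1) (w : A) (hw : kl13_arc e a b t = kl13_pt e w) :
    w = a ∨ w = b := by
  rcases kl13_edge e h ht with ⟨w', hw', h1⟩ | ⟨-, h1⟩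
  · rw [h1] at hw
    rw [← kl13_pt_injective e hw]
    exact hw'
  · exact absurd hw (h1 w)

theorem kl13_finite (z : ℝ × ℝ) (r : ℝ) :
    {v : A | |(kl13_pt e v).1 - z.1| ≤ r}.Finite := by
  have h1 : (Set.Icc ⌈z.1 - r⌉ ⌊z.1 + r⌋ : Set ℤ).Finite := Set.finite_Icc _ _
  refine (h1.preimage ((kl13_c_injective e).injOn)).subset ?_
  intro v hv1
  rw [Set.mem_ofPred_eq, abs_le] at hv1
  simp only [kl13_pt] at hv1
  simp only [Set.mem_preimage, Set.mem_Icc, Int.ceil_le, Int.le_floor]
  exact ⟨by linarith, by linarith⟩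

/-- every point of an arc is within distance one from both ends -/
theorem kl13_near {a b : A} (h : (SimpleGraph.mulCayley (kl13_S e)).Adj a b) {t : ℝ}
    (ht : t ∈ Set.Icc (0 : ℝ) 1) :
    |(kl13_pt e a).1 - (kl13_arc e a b t).1| ≤ 1 ∧ |(kl13_pt e b).1 - (kl13_arc e a b t).1| ≤ 1 := by
  have ht0 := ht.1
  have ht1 := ht.2
  simp only [kl13_arc, kl13_pt, abs_le]
  rcases kl13_adj e h with h1 | h1 <;>
  · rw [h1]
    push_cast
    refine ⟨⟨?_, ?_⟩, ⟨?_, ?_⟩⟩ <;> nlinarith

theorem planar_Z (A : Type u) [Group A] (e : A ≃* Multiplicative ℤ) :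
    ∃ S : Set A, S.Finite ∧ Subgroup.closure S = ⊤ ∧
      Nonempty (PlanarDrawing (SimpleGraph.mulCayley S)) := by
  refine ⟨kl13_S e, Set.finite_singleton _, kl13_closure e, ⟨?_⟩⟩
  exact
    { pt := kl13_pt e
      arc := kl13_arc e
      pt_inj := kl13_pt_injective e
      arc_cont := by
        intro u v _
        apply Continuous.continuousOn
        unfold kl13_arc
        fun_prop
      arc_zero := by
        intro u v _
        simp [kl13_arc, kl13_pt]
      arc_one := by
        intro u v _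
        simp [kl13_arc, kl13_pt]
      arc_symm := by
        intro u v _ t _
        simp only [kl13_arc]
        ext
        · ring
        · rfl
      arc_inj := by
        intro u v h t _ t' _ heq
        have h1 := congrArg Prod.fst heq
        simp only [kl13_arc] at h1
        have h3 : (t - t') * ((kl13_c e v : ℝ) - (kl13_c e u : ℝ)) = 0 := by linarith
        by_contra hne
        have h5 : t - t' ≠ 0 := sub_ne_zero.2 hne
        have h6 := (mul_eq_zero.1 h3).resolve_left h5
        have h7 : (kl13_c e v : ℝ) = (kl13_c e u : ℝ) := by linarith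
        exact h.ne' (kl13_c_injective e (by exact_mod_cast h7))
      arc_pt := by
        intro u v h t ht w hw
        exact kl13_arc_pt e h ht w hw
      arc_arc := by
        intro u v u' v' h h' hne s hs t ht heq
        rcases kl13_edge e h hs with ⟨w, hw, h1⟩ | ⟨h1, h2⟩
        · refine ⟨w, hw, ?_, h1⟩
          exact kl13_arc_pt e h' ht w (by rw [← heq, h1])
        · rcases kl13_edge e h' ht with ⟨w, hw, h3⟩ | ⟨h3, h4⟩
          · exact absurd (heq.trans h3) (h2 w)
          · exfalso
            apply hne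
            rw [← heq, ← h1] at h3
            have h5 : Sym2.map (kl13_c e) s(u, v) = Sym2.map (kl13_c e) s(u', v') := by
              simpa using h3.symm
            exact Sym2.map.injective (kl13_c_injective e) h5
      locally_finite := by
        intro z _
        refine ⟨Metric.ball z 1, Metric.ball_mem_nhds z one_pos, ?_, ?_⟩
        · refine (kl13_finite e z 1).subset ?_
          intro v hv
          rw [Set.mem_ofPred_eq, Metric.mem_ball, Prod.dist_eq, max_lt_iff, Real.dist_eq,
            Real.dist_eq] at hv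
          exact hv.1.le
        · refine ((kl13_finite e z 2).prod (kl13_finite e z 2)).subset ?_
          rintro ⟨a, b⟩ ⟨hab, q, ⟨t, ht, rfl⟩, hq⟩
          rw [Metric.mem_ball, Prod.dist_eq, max_lt_iff, Real.dist_eq, Real.dist_eq] at hq
          obtain ⟨h1, h3⟩ := kl13_near e hab ht
          have htri : ∀ x y w : ℝ, |x - y| ≤ 1 → |y - w| < 1 → |x - w| ≤ 2 := by
            intro x y w hxy hyw
            have := abs_sub_le x y w
            linarith
          exact ⟨htri _ _ _ h1 hq.1, htri _ _ _ h3 hq.1⟩ }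

end line

section kl
variable {Γ : Type u} [Group Γ]

theorem virtuallyPlanar_of_finite [Finite Γ] : VirtuallyPlanar Γ := by
  have hadj : ∀ a b : (⊥ : Subgroup Γ), ¬ (SimpleGraph.mulCayley (∅ : Set (⊥ : Subgroup Γ))).Adj a b := by
    intro a b h
    exact h.ne (Subsingleton.elim a b)
  refine ⟨⊥, Subgroup.index_ne_zero_of_finite, ∅, Set.finite_empty, ?_, ⟨?_⟩⟩
  · exact Subsingleton.elim _ _
  · exact
      { pt := fun _ => 0
        arc := fun _ _ _ => 0
        pt_inj := fun a b _ => Subsingleton.elim a b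
        arc_cont := fun u v h => absurd h (hadj u v)
        arc_zero := fun u v h => absurd h (hadj u v)
        arc_one := fun u v h => absurd h (hadj u v)
        arc_symm := fun u v h => absurd h (hadj u v)
        arc_inj := fun u v h => absurd h (hadj u v)
        arc_pt := fun u v h => absurd h (hadj u v)
        arc_arc := fun u v _ _ h => absurd h (hadj u v)
        locally_finite := fun z _ =>
          ⟨Set.univ, Filter.univ_mem, Set.toFinite _, Set.toFinite _⟩ }

end kl

end Pool.Agent.Lib.MP_0f7bfe_al
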