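import Pool.Agent.Lib.MP_0f7bfe_al.LFDefs

open scoped Pointwise

namespace Pool.Agent.Lib.MP_0f7bfe_al

universe u v

section lf5
variable {Γ : Type u} [Group Γ]

theorem dvg_translate (S : Finset Γ) (θ : Γ × S → ℝ) (a g : Γ) :
    dvg S (fun e => θ (a⁻¹ * e.1, e.2)) g = dvg S θ (a⁻¹ * g) := by
  simp [dvg, mul_assoc]

theorem nrm_translate (S : Finset Γ) (θ : Γ × S → ℝ) (a g : Γ) :
    nrm S (fun e => θ (a⁻¹ * e.1, e.2)) g = nrm S θ (a⁻¹ * g) := by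
  simp [nrm, mul_assoc]

theorem dvg_add (S : Finset Γ) (θ ψ : Γ × S → ℝ) (g : Γ) :
    dvg S (fun e => θ e + ψ e) g = dvg S θ g + dvg S ψ g := by
  rw [dvg, dvg, dvg, ← Finset.sum_add_distrib]
  exact Finset.sum_congr rfl fun s _ => by ring

theorem dvg_sub (S : Finset Γ) (θ ψ : Γ × S → ℝ) (g : Γ) :
    dvg S (fun e => θ e - ψ e) g = dvg S θ g - dvg S ψ g := by
  rw [dvg, dvg, dvg, ← Finset.sum_sub_distrib]
  exact Finset.sum_congr rfl fun s _ => by ring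

theorem dvg_smul (S : Finset Γ) (a : ℝ) (θ : Γ × S → ℝ) (g : Γ) :
    dvg S (fun e => a * θ e) g = a * dvg S θ g := by
  rw [dvg, dvg, Finset.mul_sum]
  exact Finset.sum_congr rfl fun s _ => by ring

theorem nrm_nonneg (S : Finset Γ) (θ : Γ × S → ℝ) (g : Γ) : 0 ≤ nrm S θ g :=
  Finset.sum_nonneg fun _ _ => add_nonneg (abs_nonneg _) (abs_nonneg _)

theorem nrm_add_le (S : Finset Γ) (θ ψ : Γ × S → ℝ) (g : Γ) :
    nrm S (fun e => θ e + ψ e) g ≤ nrm S θ g + nrm S ψ g := by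
  rw [nrm, nrm, nrm, ← Finset.sum_add_distrib]
  refine Finset.sum_le_sum fun s _ => ?_
  have h1 := abs_add_le (θ (g, s)) (ψ (g, s))
  have h2 := abs_add_le (θ (g * (s : Γ)⁻¹, s)) (ψ (g * (s : Γ)⁻¹, s))
  linarith

theorem nrm_sq_summable (S : Finset Γ) (θ : Γ × S → ℝ) (h : Summable fun e => θ e ^ 2) :
    Summable (fun g => nrm S θ g ^ 2) ∧
      ∑' g, nrm S θ g ^ 2 ≤ 4 * S.card * ∑' e, θ e ^ 2 := by
  have hs : ∀ s : S, Summable fun g : Γ => θ (g, s) ^ 2 := fun s =>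
    h.comp_injective (i := fun g : Γ => (g, s)) (fun a b hab => (Prod.mk.inj hab).1)
  have hs' : ∀ s : S, Summable fun g : Γ => θ (g * (s : Γ)⁻¹, s) ^ 2 := fun s =>
    (Equiv.mulRight (s : Γ)⁻¹).summable_iff.2 (hs s)
  have he' : ∀ s : S, ∑' g : Γ, θ (g * (s : Γ)⁻¹, s) ^ 2 = ∑' g : Γ, θ (g, s) ^ 2 := fun s =>
    (Equiv.mulRight (s : Γ)⁻¹).tsum_eq (fun g => θ (g, s) ^ 2)
  have htot : ∑' e, θ e ^ 2 = ∑ s : S, ∑' g : Γ, θ (g, s) ^ 2 := by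
    rw [h.tsum_prod, ← Summable.tsum_finsetSum (fun s _ => hs s)]
    exact tsum_congr fun g => tsum_fintype _
  have hb : ∀ g, nrm S θ g ^ 2 ≤
      (S.card : ℝ) * ∑ s : S, (2 * θ (g, s) ^ 2 + 2 * θ (g * (s : Γ)⁻¹, s) ^ 2) := by
    intro g
    rw [nrm]
    refine (sq_sum_le_card_mul_sum_sq).trans ?_
    rw [Finset.card_univ, Fintype.card_coe]
    refine mul_le_mul_of_nonneg_left (Finset.sum_le_sum fun s _ => ?_) (Nat.cast_nonneg _)
    have h1 : |θ (g, s)| ^ 2 = θ (g, s) ^ 2 := sq_abs _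
    have h2 : |θ (g * (s : Γ)⁻¹, s)| ^ 2 = θ (g * (s : Γ)⁻¹, s) ^ 2 := sq_abs _
    nlinarith [sq_nonneg (|θ (g, s)| - |θ (g * (s : Γ)⁻¹, s)|)]
  have hsum : Summable fun g => (S.card : ℝ) *
      ∑ s : S, (2 * θ (g, s) ^ 2 + 2 * θ (g * (s : Γ)⁻¹, s) ^ 2) :=
    (summable_sum fun s _ => ((hs s).mul_left 2).add ((hs' s).mul_left 2)).mul_left _
  have h1 : Summable (fun g => nrm S θ g ^ 2) :=
    Summable.of_nonneg_of_le (fun g => sq_nonneg _) hb hsum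
  refine ⟨h1, (h1.tsum_le_tsum hb hsum).trans ?_⟩
  rw [tsum_mul_left, Summable.tsum_finsetSum
    (fun s _ => ((hs s).mul_left 2).add ((hs' s).mul_left 2)), htot]
  have h3 : ∀ s : S, ∑' g : Γ, (2 * θ (g, s) ^ 2 + 2 * θ (g * (s : Γ)⁻¹, s) ^ 2) =
      4 * ∑' g : Γ, θ (g, s) ^ 2 := by
    intro s
    rw [((hs s).mul_left 2).tsum_add ((hs' s).mul_left 2), tsum_mul_left, tsum_mul_left, he']
    ring
  rw [Finset.sum_congr rfl fun s _ => h3 s, ← Finset.mul_sum]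
  linarith

end lf5

end Pool.Agent.Lib.MP_0f7bfe_al
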