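import Pool.Agent.Lib.MP_0f7bfe_al.LF5

open scoped Pointwise

namespace Pool.Agent.Lib.MP_0f7bfe_al

universe u v

section lf5b
variable {Γ : Type u} [Group Γ]

/-- unit flow through one edge -/
noncomputable def esg (S : Finset Γ) (g : Γ) (s : S) : Γ × S → ℝ :=
  Set.indicator {(g, s)} (fun _ => 1)

omit [Group Γ] in
theorem esg_self (S : Finset Γ) (g : Γ) (s : S) : esg S g s (g, s) = 1 := by simp [esg]

omit [Group Γ] in
theorem esg_ne (S : Finset Γ) (g : Γ) (s : S) {e : Γ × S} (h : e ≠ (g, s)) : esg S g s e = 0 := by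
  simp [esg, h]

theorem dvg_esg (S : Finset Γ) (g : Γ) (s : S) (x : Γ) :
    dvg S (esg S g s) x = dlt g x - dlt (g * s) x := by
  classical
  rw [dvg, Finset.sum_sub_distrib]
  congr 1
  · by_cases hx : x = g
    · subst hx
      rw [Finset.sum_eq_single s]
      · rw [esg_self, dlt_self]
      · intro t _ hts
        rw [esg_ne]
        intro h; exact hts (Prod.mk.inj h).2
      · intro h; exact absurd (Finset.mem_univ _) h
    · rw [dlt_ne hx]
      refine Finset.sum_eq_zero fun t _ => ?_
      rw [esg_ne]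
      intro h; exact hx (Prod.mk.inj h).1
  · by_cases hx : x = g * s
    · subst hx
      rw [Finset.sum_eq_single s]
      · rw [mul_inv_cancel_right, esg_self, dlt_self]
      · intro t _ hts
        rw [esg_ne]
        intro h; exact hts (Prod.mk.inj h).2
      · intro h; exact absurd (Finset.mem_univ _) h
    · rw [dlt_ne hx]
      refine Finset.sum_eq_zero fun t _ => ?_
      rw [esg_ne]
      intro h
      have h1 := (Prod.mk.inj h).1
      have h2 := (Prod.mk.inj h).2
      subst h2
      exact hx (by rw [← h1]; simp)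

theorem lf5b_key (S : Finset Γ) (g : Γ) (s : S) (a : ℝ) (ha : |a| = 1) :
    (fun e => a * esg S g s e).support.Finite ∧ ∑' e, |a * esg S g s e| ≤ 1 := by
  constructor
  · refine (Set.finite_singleton (g, s)).subset ?_
    intro e he
    by_contra hne
    apply he
    change a * esg S g s e = 0
    rw [esg_ne S g s (by simpa using hne), mul_zero]
  · rw [tsum_eq_single (g, s)]
    · rw [esg_self, mul_one, ha]
    · intro e he
      rw [esg_ne S g s he, mul_zero, abs_zero]

theorem lf5b_step (S : Finset Γ) (g h : Γ) (hgh : (SimpleGraph.mulCayley (S : Set Γ)).Adj g h) :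
    ∃ χ : Γ × S → ℝ, χ.support.Finite ∧ (∀ x, dvg S χ x = dlt g x - dlt h x) ∧
      ∑' e, |χ e| ≤ 1 := by
  rw [SimpleGraph.mulCayley_adj'] at hgh
  obtain ⟨-, s, hs, he | he⟩ := hgh
  · obtain ⟨k1, k2⟩ := lf5b_key S g ⟨s, hs⟩ 1 (by simp)
    refine ⟨_, k1, fun x => ?_, k2⟩
    rw [dvg_smul, dvg_esg, one_mul, ← he]
  · obtain ⟨k1, k2⟩ := lf5b_key S h ⟨s, hs⟩ (-1) (by simp)
    refine ⟨_, k1, fun x => ?_, k2⟩
    rw [dvg_smul, dvg_esg, he]
    ring

theorem lf5b_walk (S : Finset Γ) {g h : Γ} (p : (SimpleGraph.mulCayley (S : Set Γ)).Walk g h) :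
    ∃ χ : Γ × S → ℝ, χ.support.Finite ∧ (∀ x, dvg S χ x = dlt g x - dlt h x) ∧
      ∑' e, |χ e| ≤ p.length := by
  induction p with
  | nil =>
    refine ⟨0, by simp, fun x => ?_, by simp⟩
    rw [sub_self]; simp [dvg]
  | cons hadj q ih =>
    obtain ⟨χ₁, h1, h2, h3⟩ := lf5b_step S _ _ hadj
    obtain ⟨χ₂, k1, k2, k3⟩ := ih
    refine ⟨fun e => χ₁ e + χ₂ e, (h1.union k1).subset (Function.support_add χ₁ χ₂), fun x => ?_, ?_⟩
    · rw [dvg_add, h2, k2]; ring
    · have s1 : Summable fun e => |χ₁ e| := by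
        apply summable_of_hasFiniteSupport
        refine h1.subset fun e he => ?_
        rw [Function.mem_support] at he ⊢
        exact fun h => he (by rw [h, abs_zero])
      have s2 : Summable fun e => |χ₂ e| := by
        apply summable_of_hasFiniteSupport
        refine k1.subset fun e he => ?_
        rw [Function.mem_support] at he ⊢
        exact fun h => he (by rw [h, abs_zero])
      have hle : ∀ e, |χ₁ e + χ₂ e| ≤ |χ₁ e| + |χ₂ e| := fun e => abs_add_le _ _
      have s3 : Summable fun e => |χ₁ e + χ₂ e| :=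
        Summable.of_nonneg_of_le (fun e => abs_nonneg _) hle (s1.add s2)
      refine (s3.tsum_le_tsum hle (s1.add s2)).trans ?_
      rw [s1.tsum_add s2, SimpleGraph.Walk.length_cons]
      push_cast
      linarith

/-- a flow along a path -/
theorem path_flow (S : Finset Γ) (hgen : Subgroup.closure (S : Set Γ) = ⊤) (h : Γ) :
    ∃ χ : Γ × S → ℝ, χ.support.Finite ∧ (∀ g, dvg S χ g = dlt 1 g - dlt h g) ∧
      ∑' e, |χ e| ≤ (SimpleGraph.mulCayley (S : Set Γ)).dist 1 h := by
  have hh := cayley_homog (S : Set Γ) S.finite_toSet hgen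
  obtain ⟨p, hp⟩ := hh.conn.exists_walk_length_eq_dist 1 h
  rw [← hp]
  exact lf5b_walk S p

end lf5b

end Pool.Agent.Lib.MP_0f7bfe_al
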