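import Pool.Agent.Lib.MP_0f7bfe_al.LFDefs
import Pool.Agent.Lib.MP_0f7bfe_al.LF5
import Pool.Agent.Lib.MP_0f7bfe_al.LF5b

/-! LF-10: one segment of the random path to infinity. -/

open scoped Pointwise

namespace Pool.Agent.Lib.MP_0f7bfe_al

universe u v

section lf
variable {Γ : Type u} [Group Γ]

private theorem lf10_dvg_sum {I : Type*} (S : Finset Γ) (N : Finset I) (f : I → Γ × S → ℝ)
    (g : Γ) : dvg S (fun e => ∑ i ∈ N, f i e) g = ∑ i ∈ N, dvg S (f i) g := by
  unfold dvg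
  rw [Finset.sum_comm]
  refine Finset.sum_congr rfl fun s _ => ?_
  rw [Finset.sum_sub_distrib]

private theorem lf10_summable {α : Type*} {f : α → ℝ} (h : f.support.Finite) : Summable f :=
  summable_of_hasFiniteSupport h

/-- the translation of the edges -/
private def lf10_tr (S : Finset Γ) (x : Γ) : (Γ × S) ≃ (Γ × S) :=
  Equiv.prodCongr (Equiv.mulLeft x⁻¹) (Equiv.refl S)

private theorem lf10_tr_apply (S : Finset Γ) (x : Γ) (e : Γ × S) :
    lf10_tr S x e = (x⁻¹ * e.1, e.2) := rfl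

private theorem lf10_sum_le (S : Finset Γ) (χ : Γ × S → ℝ) (hχ : χ.support.Finite) (N : Finset Γ)
    (e : Γ × S) : ∑ x ∈ N, |χ (x⁻¹ * e.1, e.2)| ≤ ∑' e, |χ e| := by
  classical
  have hs : Summable fun e => |χ e| := (lf10_summable hχ).abs
  have hinj : Set.InjOn (fun x : Γ => ((x⁻¹ * e.1, e.2) : Γ × S)) (N : Set Γ) := by
    intro x _ y _ h
    simp only [Prod.mk.injEq, mul_left_inj, inv_inj, and_true] at h
    exact h
  rw [← Finset.sum_image (f := fun e => |χ e|) hinj]
  exact hs.sum_le_tsum _ fun _ _ => abs_nonneg _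

theorem segment_flow (S : Finset Γ) (hgen : Subgroup.closure (S : Set Γ) = ⊤)
    (ν : Γ → ℝ) (hν : ν.support.Finite) (hν0 : ∀ g, 0 ≤ ν g) (hν1 : ∑' g, ν g = 1)
    (a : ℝ) (ha : ∀ g, ν g ≤ a) (E : Finset Γ) (hE : E.Nonempty) (r : ℕ)
    (hr : ∀ h ∈ E, (SimpleGraph.mulCayley (S : Set Γ)).dist 1 h ≤ r) :
    ∃ (ν' : Γ → ℝ) (θ : Γ × S → ℝ), ν'.support.Finite ∧ (∀ g, 0 ≤ ν' g) ∧ ∑' g, ν' g = 1 ∧
      (∀ g, ν' g ≤ 1 / E.card) ∧ θ.support.Finite ∧ (∀ g, dvg S θ g = ν g - ν' g) ∧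
      ∑' e, θ e ^ 2 ≤ a * (r : ℝ) ^ 2 := by
  classical
  have hEc : (0 : ℝ) < E.card := by exact_mod_cast hE.card_pos
  have ha0 : 0 ≤ a := (hν0 1).trans (ha 1)
  have hνs : Summable ν := lf10_summable hν
  choose χ hχf hχd hχn using fun h : Γ => path_flow S hgen h
  set N : Finset Γ := hν.toFinset with hN
  have hN0 : ∀ x, x ∉ N → ν x = 0 := by
    intro x hx
    rw [hN, Set.Finite.mem_toFinset, Function.mem_support, not_not] at hx
    exact hx
  have hNsum : ∑ x ∈ N, ν x = 1 := by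
    rw [← hν1, tsum_eq_sum (s := N) fun x hx => hN0 x hx]
  set c : ℝ := (E.card : ℝ)⁻¹ with hc
  have hcpos : 0 < c := inv_pos.2 hEc
  have hcE : c * E.card = 1 := inv_mul_cancel₀ hEc.ne'
  set ν' : Γ → ℝ := fun z => c * ∑ h ∈ E, ν (z * h⁻¹) with hν'
  set θ : Γ × S → ℝ := fun e => c * ∑ h ∈ E, ∑ x ∈ N, ν x * χ h (x⁻¹ * e.1, e.2) with hθ
  -- the terms
  have hterm : ∀ h x, (fun e : Γ × S => ν x * χ h (x⁻¹ * e.1, e.2)).support.Finite := by
    intro h x
    have h1 : ((fun e : Γ × S => χ h (x⁻¹ * e.1, e.2)).support).Finite := by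
      have h2 : (fun e : Γ × S => χ h (x⁻¹ * e.1, e.2)).support =
          (lf10_tr S x) ⁻¹' (χ h).support := by
        ext e
        simp [lf10_tr_apply]
      rw [h2]
      exact (hχf h).preimage (lf10_tr S x).injective.injOn
    refine h1.subset ?_
    intro e he
    rw [Function.mem_support] at he ⊢
    exact right_ne_zero_of_mul he
  have hθf : θ.support.Finite := by
    refine Set.Finite.subset (E.finite_toSet.biUnion fun h _ =>
      N.finite_toSet.biUnion fun x _ => hterm h x) ?_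
    intro e he
    rw [Function.mem_support] at he
    have he' := right_ne_zero_of_mul he
    obtain ⟨h, hh, he2⟩ := Finset.exists_ne_zero_of_sum_ne_zero he'
    obtain ⟨x, hx, he3⟩ := Finset.exists_ne_zero_of_sum_ne_zero he2
    simp only [Set.mem_iUnion]
    exact ⟨h, hh, x, hx, he3⟩
  have hν'f : ν'.support.Finite := by
    refine Set.Finite.subset (E.finite_toSet.biUnion fun h _ =>
      (hν.image fun y : Γ => y * h)) ?_
    intro z hz
    rw [Function.mem_support] at hz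
    have hz' := right_ne_zero_of_mul hz
    obtain ⟨h, hh, hz2⟩ := Finset.exists_ne_zero_of_sum_ne_zero hz'
    simp only [Set.mem_iUnion]
    exact ⟨h, hh, z * h⁻¹, hz2, by simp⟩
  -- sums of translates
  have htr : ∀ h : Γ, Summable (fun z => ν (z * h⁻¹)) ∧ ∑' z, ν (z * h⁻¹) = 1 := by
    intro h
    constructor
    · exact ((Equiv.mulRight h⁻¹).summable_iff (f := ν)).2 hνs
    · rw [← hν1]
      exact (Equiv.mulRight h⁻¹).tsum_eq ν
  have hg0 : ∀ g, 0 ≤ ν' g := fun g =>
    mul_nonneg hcpos.le (Finset.sum_nonneg fun h _ => hν0 _)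
  refine ⟨ν', θ, hν'f, hg0, ?_, ?_, hθf, ?_, ?_⟩
  · simp only [hν']
    rw [tsum_mul_left, Summable.tsum_finsetSum fun h _ => (htr h).1,
      Finset.sum_congr rfl fun h _ => (htr h).2]
    simp only [Finset.sum_const, nsmul_eq_mul, mul_one]
    exact hcE
  · intro g
    simp only [hν']
    rw [one_div, ← hc]
    have h1 : ∑ h ∈ E, ν (g * h⁻¹) ≤ 1 := by
      have hinj : Set.InjOn (fun h : Γ => g * h⁻¹) (E : Set Γ) := by
        intro x _ y _ h
        simpa using h
      rw [← Finset.sum_image (f := ν) hinj, ← hν1]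
      exact hνs.sum_le_tsum _ fun _ _ => hν0 _
    calc c * ∑ h ∈ E, ν (g * h⁻¹) ≤ c * 1 := mul_le_mul_of_nonneg_left h1 hcpos.le
      _ = c := mul_one c
  · intro g
    have h1 : dvg S θ g = c * ∑ h ∈ E, ∑ x ∈ N, ν x * (dlt 1 (x⁻¹ * g) - dlt h (x⁻¹ * g)) := by
      simp only [hθ]
      rw [dvg_smul, lf10_dvg_sum]
      congr 1
      refine Finset.sum_congr rfl fun h _ => ?_
      rw [lf10_dvg_sum]
      refine Finset.sum_congr rfl fun x _ => ?_
      rw [dvg_smul, dvg_translate, hχd]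
    have h2 : ∀ h : Γ, ∑ x ∈ N, ν x * dlt h (x⁻¹ * g) = ν (g * h⁻¹) := by
      intro h
      rw [Finset.sum_eq_single (g * h⁻¹)]
      · have : (g * h⁻¹)⁻¹ * g = h := by group
        rw [this, dlt_self, mul_one]
      · intro x _ hx
        rw [dlt_ne, mul_zero]
        intro h3
        apply hx
        rw [← h3]
        group
      · intro h3
        rw [hN0 _ h3, zero_mul]
    rw [h1]
    simp_rw [mul_sub, Finset.sum_sub_distrib, h2]
    simp only [hν', inv_one, mul_one, Finset.sum_const, nsmul_eq_mul]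
    rw [mul_sub, ← mul_assoc, hcE, one_mul]
  · -- the energy
    have hsum : Summable fun e => |θ e| := (lf10_summable hθf).abs
    have hsq : Summable fun e => θ e ^ 2 := by
      refine lf10_summable (hθf.subset ?_)
      intro e he
      rw [Function.mem_support] at he ⊢
      intro h
      exact he (by rw [h]; norm_num)
    have hrle : ∀ h ∈ E, ∑' e, |χ h e| ≤ r := fun h hh =>
      (hχn h).trans (by exact_mod_cast hr h hh)
    have hr0 : (0 : ℝ) ≤ r := Nat.cast_nonneg r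
    have hpt : ∀ e, |θ e| ≤ a * r := by
      intro e
      have h1 : |θ e| ≤ c * ∑ h ∈ E, ∑ x ∈ N, |ν x * χ h (x⁻¹ * e.1, e.2)| := by
        simp only [hθ]
        rw [abs_mul, abs_of_pos hcpos]
        refine mul_le_mul_of_nonneg_left ?_ hcpos.le
        exact (Finset.abs_sum_le_sum_abs _ _).trans
          (Finset.sum_le_sum fun h _ => Finset.abs_sum_le_sum_abs _ _)
      have h2 : ∀ h ∈ E, ∑ x ∈ N, |ν x * χ h (x⁻¹ * e.1, e.2)| ≤ a * r := by
        intro h hh
        calc ∑ x ∈ N, |ν x * χ h (x⁻¹ * e.1, e.2)| ≤ ∑ x ∈ N, a * |χ h (x⁻¹ * e.1, e.2)| := by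
              refine Finset.sum_le_sum fun x _ => ?_
              rw [abs_mul, abs_of_nonneg (hν0 x)]
              exact mul_le_mul_of_nonneg_right (ha x) (abs_nonneg _)
          _ = a * ∑ x ∈ N, |χ h (x⁻¹ * e.1, e.2)| := by rw [Finset.mul_sum]
          _ ≤ a * r := mul_le_mul_of_nonneg_left
              ((lf10_sum_le S (χ h) (hχf h) N e).trans (hrle h hh)) ha0
      calc |θ e| ≤ c * ∑ h ∈ E, ∑ x ∈ N, |ν x * χ h (x⁻¹ * e.1, e.2)| := h1
        _ ≤ c * ∑ _h ∈ E, a * r := mul_le_mul_of_nonneg_left (Finset.sum_le_sum h2) hcpos.le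
        _ = a * r := by
            rw [Finset.sum_const, nsmul_eq_mul, ← mul_assoc, hcE, one_mul]
    have htot : ∑' e, |θ e| ≤ r := by
      have hs1 : ∀ h x, Summable fun e : Γ × S => |ν x * χ h (x⁻¹ * e.1, e.2)| :=
        fun h x => (lf10_summable (hterm h x)).abs
      have h1 : ∀ e, |θ e| ≤ c * ∑ h ∈ E, ∑ x ∈ N, |ν x * χ h (x⁻¹ * e.1, e.2)| := by
        intro e
        simp only [hθ]
        rw [abs_mul, abs_of_pos hcpos]
        refine mul_le_mul_of_nonneg_left ?_ hcpos.le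
        exact (Finset.abs_sum_le_sum_abs _ _).trans
          (Finset.sum_le_sum fun h _ => Finset.abs_sum_le_sum_abs _ _)
      have hs2 : ∀ h, Summable fun e : Γ × S => ∑ x ∈ N, |ν x * χ h (x⁻¹ * e.1, e.2)| :=
        fun h => summable_sum fun x _ => hs1 h x
      have hs3 : Summable fun e : Γ × S => ∑ h ∈ E, ∑ x ∈ N, |ν x * χ h (x⁻¹ * e.1, e.2)| :=
        summable_sum fun h _ => hs2 h
      have h2 : ∀ h ∈ E, ∀ x ∈ N, ∑' e : Γ × S, |ν x * χ h (x⁻¹ * e.1, e.2)| ≤ ν x * r := by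
        intro h hh x _
        have e1 : ∀ e : Γ × S, |ν x * χ h (x⁻¹ * e.1, e.2)| = ν x * |χ h (lf10_tr S x e)| := by
          intro e
          rw [abs_mul, abs_of_nonneg (hν0 x), lf10_tr_apply]
        simp_rw [e1]
        rw [tsum_mul_left, (lf10_tr S x).tsum_eq (fun e => |χ h e|)]
        exact mul_le_mul_of_nonneg_left (hrle h hh) (hν0 x)
      calc ∑' e, |θ e| ≤ ∑' e : Γ × S, c * ∑ h ∈ E, ∑ x ∈ N, |ν x * χ h (x⁻¹ * e.1, e.2)| :=
            hsum.tsum_le_tsum h1 (hs3.mul_left c)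
        _ = c * ∑ h ∈ E, ∑ x ∈ N, ∑' e : Γ × S, |ν x * χ h (x⁻¹ * e.1, e.2)| := by
            rw [tsum_mul_left, Summable.tsum_finsetSum fun h _ => hs2 h]
            congr 1
            refine Finset.sum_congr rfl fun h _ => ?_
            rw [Summable.tsum_finsetSum fun x _ => hs1 h x]
        _ ≤ c * ∑ _h ∈ E, ∑ x ∈ N, ν x * r := by
            refine mul_le_mul_of_nonneg_left ?_ hcpos.le
            exact Finset.sum_le_sum fun h hh => Finset.sum_le_sum fun x hx => h2 h hh x hx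
        _ = r := by
            rw [← Finset.sum_mul, hNsum, one_mul, Finset.sum_const, nsmul_eq_mul, ← mul_assoc,
              hcE, one_mul]
    have har : 0 ≤ a * r := mul_nonneg ha0 hr0
    calc ∑' e, θ e ^ 2 ≤ ∑' e, (a * r) * |θ e| := by
          refine hsq.tsum_le_tsum (fun e => ?_) (hsum.mul_left _)
          rw [← sq_abs, sq]
          exact mul_le_mul_of_nonneg_right (hpt e) (abs_nonneg _)
      _ = (a * r) * ∑' e, |θ e| := tsum_mul_left
      _ ≤ (a * r) * r := mul_le_mul_of_nonneg_left htot har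
      _ = a * (r : ℝ) ^ 2 := by ring

end lf

end Pool.Agent.Lib.MP_0f7bfe_al
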