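import Pool.Agent.Lib.MP_0f7bfe_al.LFDefs
import Pool.Agent.Lib.MP_0f7bfe_al.LF10

/-! LF-11: a flow of finite energy to infinity from a lower bound for the growth. -/

open scoped Pointwise

namespace Pool.Agent.Lib.MP_0f7bfe_al

universe u v

section lp11

/-- convergence of a series of square summable functions -/
private theorem lf11_lp {ι : Type u} (θ : ℕ → ι → ℝ) (hs : ∀ k, Summable fun e => θ k e ^ 2)
    (b : ℕ → ℝ) (hb0 : ∀ k, 0 ≤ b k) (hb : ∀ k, ∑' e, θ k e ^ 2 ≤ b k ^ 2) (hbs : Summable b) :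
    ∃ T : ι → ℝ, Summable (fun e => T e ^ 2) ∧ ∀ e, HasSum (fun k => θ k e) (T e) := by
  have hmem : ∀ k, Memℓp (E := fun _ : ι => ℝ) (θ k) 2 := by
    intro k
    refine memℓp_gen ?_
    have : (2 : ENNReal).toReal = ((2 : ℕ) : ℝ) := by norm_num
    simp_rw [this, Real.rpow_natCast, Real.norm_eq_abs, sq_abs]
    exact hs k
  let f : ℕ → lp (fun _ : ι => ℝ) 2 := fun k => ⟨θ k, hmem k⟩
  have hfn : ∀ k, ‖f k‖ ≤ b k := by
    intro k
    have h1 : ‖f k‖ ^ (2 : ENNReal).toReal = ∑' i, ‖f k i‖ ^ (2 : ENNReal).toReal :=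
      lp.norm_rpow_eq_tsum (by norm_num) (f k)
    have h2 : (2 : ENNReal).toReal = ((2 : ℕ) : ℝ) := by norm_num
    simp_rw [h2, Real.rpow_natCast, Real.norm_eq_abs, sq_abs] at h1
    have h3 : ‖f k‖ ^ 2 ≤ b k ^ 2 := by
      rw [h1]
      exact hb k
    exact (pow_le_pow_iff_left₀ (norm_nonneg _) (hb0 k) (by norm_num)).1 h3
  have hfs : Summable f := Summable.of_norm_bounded hbs hfn
  obtain ⟨T, hT⟩ := hfs
  refine ⟨fun e => T e, ?_, ?_⟩
  · have h1 := (lp.memℓp T).summable (by norm_num)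
    have h2 : (2 : ENNReal).toReal = ((2 : ℕ) : ℝ) := by norm_num
    simp_rw [h2, Real.rpow_natCast, Real.norm_eq_abs, sq_abs] at h1
    exact h1
  · intro e
    exact (lp.evalCLM ℝ (fun _ : ι => ℝ) 2 e).hasSum hT

end lp11

section lf
variable {Γ : Type u} [Group Γ]

theorem flow_of_growth (S : Finset Γ) (hgen : Subgroup.closure (S : Set Γ) = ⊤)
    (h : Summable fun k : ℕ => (2 : ℝ) ^ k / Real.sqrt (growth S (2 ^ k))) :
    FlowToInfinity S := by
  classical
  have hH := cayley_homog (S : Set Γ) S.finite_toSet hgen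
  have hfin : ∀ r : ℕ, {g : Γ | (SimpleGraph.mulCayley (S : Set Γ)).dist 1 g ≤ r}.Finite :=
    fun r => hH.ball_finite 1 r
  let E : ℕ → Finset Γ := fun k => (hfin (2 ^ k)).toFinset
  have hEc : ∀ k, (E k).card = growth S (2 ^ k) := by
    intro k
    unfold growth
    rw [Set.ncard_eq_toFinset_card _ (hfin (2 ^ k))]
  have hEne : ∀ k, (E k).Nonempty := by
    intro k
    refine ⟨1, ?_⟩
    simp only [E, Set.Finite.mem_toFinset, Set.mem_ofPred_eq, SimpleGraph.dist_self]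
    exact Nat.zero_le _
  have hEr : ∀ k, ∀ g ∈ E k, (SimpleGraph.mulCayley (S : Set Γ)).dist 1 g ≤ 2 ^ k := by
    intro k g hg
    simpa only [E, Set.Finite.mem_toFinset, Set.mem_ofPred_eq] using hg
  have hV : ∀ k, (0 : ℝ) < growth S (2 ^ k) := by
    intro k
    rw [← hEc k]
    exact_mod_cast (hEne k).card_pos
  let A : ℕ → ℝ := fun k => match k with
    | 0 => 1
    | k + 1 => 1 / (growth S (2 ^ k) : ℝ)
  have hA0 : A 0 = 1 := rfl
  have hA1 : ∀ k, A (k + 1) = 1 / (growth S (2 ^ k) : ℝ) := fun _ => rfl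
  have hApos : ∀ k, 0 ≤ A k := by
    intro k
    cases k with
    | zero => rw [hA0]; norm_num
    | succ k =>
      rw [hA1]
      have := hV k
      positivity
  let Q : ℕ → Type u := fun k => {ν : Γ → ℝ // ν.support.Finite ∧ (∀ g, 0 ≤ ν g) ∧
    ∑' g, ν g = 1 ∧ ∀ g, ν g ≤ A k}
  have hstep : ∀ (k : ℕ) (q : Q k), ∃ (q' : Q (k + 1)) (θ : Γ × S → ℝ), θ.support.Finite ∧
      (∀ g, dvg S θ g = q.1 g - q'.1 g) ∧ ∑' e, θ e ^ 2 ≤ A k * ((2 ^ k : ℕ) : ℝ) ^ 2 := by
    intro k q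
    obtain ⟨ν, h1, h2, h3, h4⟩ := q
    obtain ⟨ν', θ, g1, g2, g3, g4, g5, g6, g7⟩ := segment_flow S hgen ν h1 h2 h3 (A k) h4 (E k)
      (hEne k) (2 ^ k) (hEr k)
    refine ⟨⟨ν', g1, g2, g3, ?_⟩, θ, g5, g6, g7⟩
    intro g
    have := g4 g
    rwa [hEc k] at this
  choose nx θf hθ1 hθ2 hθ3 using hstep
  have hq0 : (fun g : Γ => dlt 1 g).support.Finite ∧ (∀ g : Γ, 0 ≤ dlt 1 g) ∧
      ∑' g : Γ, dlt 1 g = 1 ∧ ∀ g : Γ, dlt 1 g ≤ A 0 := by
    have hz : ∀ g : Γ, g ≠ 1 → dlt 1 g = 0 := fun g hg => dlt_ne hg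
    refine ⟨?_, ?_, ?_, ?_⟩
    · refine (Set.finite_singleton (1 : Γ)).subset ?_
      intro g hg
      rw [Function.mem_support] at hg
      by_contra hne
      exact hg (hz g hne)
    · intro g
      by_cases hg : g = 1
      · rw [hg, dlt_self]; norm_num
      · rw [hz g hg]
    · rw [tsum_eq_single 1 hz, dlt_self]
    · intro g
      rw [hA0]
      by_cases hg : g = 1
      · rw [hg, dlt_self]
      · rw [hz g hg]; norm_num
  let q : ∀ k, Q k := fun k => Nat.rec (motive := Q) ⟨fun g => dlt 1 g, hq0⟩ (fun k q => nx k q) k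
  have hqs : ∀ k, q (k + 1) = nx k (q k) := fun _ => rfl
  have hqz : ∀ g, (q 0).1 g = dlt 1 g := fun _ => rfl
  let θ : ℕ → Γ × S → ℝ := fun k => θf k (q k)
  have hdv : ∀ k g, dvg S (θ k) g = (q k).1 g - (q (k + 1)).1 g := by
    intro k g
    rw [hqs]
    exact hθ2 k (q k) g
  let b : ℕ → ℝ := fun k => Real.sqrt (A k) * 2 ^ k
  have hb0 : ∀ k, 0 ≤ b k := fun k => by positivity
  have hbsq : ∀ k, b k ^ 2 = A k * ((2 ^ k : ℕ) : ℝ) ^ 2 := by
    intro k
    simp only [b]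
    rw [mul_pow, Real.sq_sqrt (hApos k)]
    push_cast
    rfl
  have hbs : Summable b := by
    rw [← summable_nat_add_iff 1]
    refine (h.mul_left 2).congr fun k => ?_
    simp only [b]
    rw [hA1, Real.sqrt_div zero_le_one, Real.sqrt_one, pow_succ]
    ring
  have hsum : ∀ k, Summable fun e => θ k e ^ 2 := by
    intro k
    refine summable_of_hasFiniteSupport ((hθ1 k (q k)).subset ?_)
    intro e he
    rw [Function.mem_support] at he ⊢
    intro h0
    exact he (by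
      change θf k (q k) e ^ 2 = 0
      rw [h0]
      norm_num)
  obtain ⟨T, hT1, hT2⟩ := lf11_lp θ hsum b hb0 (fun k => by
    rw [hbsq]
    exact hθ3 k (q k)) hbs
  refine ⟨T, hT1, fun g => ?_⟩
  have hhs : HasSum (fun k => dvg S (θ k) g) (dvg S T g) := by
    unfold dvg
    exact hasSum_sum fun s _ => (hT2 (g, s)).sub (hT2 (g * (s : Γ)⁻¹, s))
  have ht1 := hhs.tendsto_sum_nat
  have hpart : ∀ n, ∑ k ∈ Finset.range n, dvg S (θ k) g = dlt 1 g - (q n).1 g := by
    intro n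
    simp_rw [hdv]
    rw [Finset.sum_range_sub' fun k => (q k).1 g, hqz]
  simp_rw [hpart] at ht1
  have hAt : Filter.Tendsto A Filter.atTop (nhds 0) := by
    rw [← Filter.tendsto_add_atTop_iff_nat 1]
    have h1 := h.tendsto_atTop_zero.pow 2
    rw [zero_pow (by norm_num)] at h1
    refine squeeze_zero (fun k => hApos (k + 1)) (fun k => ?_) h1
    rw [hA1, div_pow, Real.sq_sqrt (hV k).le]
    refine div_le_div_of_nonneg_right ?_ (hV k).le
    rw [← pow_mul]
    exact one_le_pow₀ (by norm_num)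
  have hqt : Filter.Tendsto (fun n => (q n).1 g) Filter.atTop (nhds 0) :=
    squeeze_zero (fun n => (q n).2.2.1 g) (fun n => (q n).2.2.2.2 g) hAt
  have ht2 : Filter.Tendsto (fun n => dlt 1 g - (q n).1 g) Filter.atTop (nhds (dlt 1 g - 0)) :=
    tendsto_const_nhds.sub hqt
  rw [sub_zero] at ht2
  exact tendsto_nhds_unique ht1 ht2

end lf

end Pool.Agent.Lib.MP_0f7bfe_al
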