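import Pool.Agent.Lib.MP_0f7bfe_al.KLDefs
import Pool.Agent.Lib.MP_0f7bfe_al.LF11

/-!
Wave KL, module 14: without a flow of finite energy the growth is slow.
-/

open scoped Pointwise

namespace Pool.Agent.Lib.MP_0f7bfe_al

universe u v

section kl
variable {Γ : Type u} [Group Γ]

/-- the growth is small along a sequence -/
theorem kl14_small (S : Finset Γ) (hgen : Subgroup.closure (S : Set Γ) = ⊤)
    (h : ¬ FlowToInfinity S) (K : ℕ) :
    ∃ k : ℕ, K ≤ k ∧ (growth S (2 ^ k) : ℝ) ≤ ((2 : ℝ) ^ k) ^ (5 / 2 : ℝ) := by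
  by_contra hcon
  push Not at hcon
  apply h
  apply flow_of_growth S hgen
  have hgeo : Summable fun k : ℕ => ((2 : ℝ) ^ (-(1 / 4) : ℝ)) ^ k := by
    apply summable_geometric_of_lt_one (by positivity)
    exact Real.rpow_lt_one_of_one_lt_of_neg (by norm_num) (by norm_num)
  rw [← summable_nat_add_iff K]
  rw [← summable_nat_add_iff K] at hgeo
  refine Summable.of_nonneg_of_le (fun k => by positivity) (fun k => ?_) hgeo
  have h1 := hcon (k + K) (by omega)
  set x : ℝ := (2 : ℝ) ^ (k + K) with hx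
  have hx0 : 0 < x := by positivity
  have h2 : x ^ (5 / 4 : ℝ) ≤ Real.sqrt (growth S (2 ^ (k + K))) := by
    apply Real.le_sqrt_of_sq_le
    rw [← Real.rpow_natCast, ← Real.rpow_mul hx0.le]
    norm_num
    norm_num at h1
    exact h1.le
  calc x / Real.sqrt (growth S (2 ^ (k + K))) ≤ x / x ^ (5 / 4 : ℝ) :=
        div_le_div_of_nonneg_left hx0.le (by positivity) h2
    _ = x ^ (-(1 / 4) : ℝ) := by
        rw [div_eq_iff (by positivity), ← Real.rpow_add hx0]
        norm_num
    _ = _ := by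
        rw [hx, ← Real.rpow_natCast 2 (k + K), ← Real.rpow_mul (by norm_num),
          ← Real.rpow_natCast, ← Real.rpow_mul (by norm_num), mul_comm]

theorem slowGrowth_of_no_flow (S : Finset Γ) (hgen : Subgroup.closure (S : Set Γ) = ⊤)
    (h : ¬ FlowToInfinity S) : SlowGrowth Γ (5 / 2) := by
  classical
  intro S'
  set G := SimpleGraph.mulCayley (S : Set Γ) with hG
  have hH := cayley_homog (S : Set Γ) S.finite_toSet hgen
  -- word length
  set L : ℕ := S'.sup (fun s => G.dist 1 s) + 1 with hL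
  have hLs : ∀ s ∈ S', G.dist 1 s ≤ L := by
    intro s hs
    have := Finset.le_sup (f := fun s => G.dist 1 s) hs
    exact this.trans (Nat.le_succ _)
  have hball : ∀ r : ℕ, ∀ x ∈ S' ^ r, G.dist 1 x ≤ L * r := by
    intro r
    induction r with
    | zero =>
      intro x hx
      rw [pow_zero, Finset.mem_one] at hx
      rw [hx]
      simp
    | succ r ih =>
      intro x hx
      rw [pow_succ, Finset.mem_mul] at hx
      obtain ⟨y, hy, s, hs, rfl⟩ := hx
      have h1 : G.dist y (y * s) = G.dist 1 s := by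
        have := hH.dist_smul y 1 s
        rw [smul_eq_mul, smul_eq_mul, mul_one] at this
        exact this
      have h2 := hH.conn.dist_triangle (u := 1) (v := y) (w := y * s)
      have h3 := ih y hy
      have h4 := hLs s hs
      rw [mul_add, mul_one]
      have h5 : (SimpleGraph.mulCayley (S : Set Γ)).dist y (y * s) = G.dist 1 s := h1
      have h6 : (SimpleGraph.mulCayley (S : Set Γ)).dist 1 y ≤ L * r := h3
      show (SimpleGraph.mulCayley (S : Set Γ)).dist 1 (y * s) ≤ L * r + L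
      omega
  have hvol : ∀ r n : ℕ, L * r ≤ n → vol S' r ≤ growth S n := by
    intro r n hrn
    unfold vol growth
    have h1 : ((S' ^ r : Finset Γ) : Set Γ) ⊆
        {g : Γ | (SimpleGraph.mulCayley (S : Set Γ)).dist 1 g ≤ n} := by
      intro x hx
      exact (hball r x hx).trans hrn
    have h2 := Set.ncard_le_ncard h1 (hH.ball_finite 1 n)
    rw [Set.ncard_coe_finset] at h2
    exact h2
  refine ⟨(2 * (L : ℝ)) ^ (5 / 2 : ℝ), fun N => ?_⟩
  obtain ⟨k, hk, hgr⟩ := kl14_small S hgen h (L * (N + 1))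
  have hLpos : 0 < L := by omega
  have hk2 : L * (N + 1) ≤ 2 ^ k := hk.trans Nat.lt_two_pow_self.le
  have hr : N + 1 ≤ 2 ^ k / L := by
    rw [Nat.le_div_iff_mul_le hLpos, mul_comm]
    exact hk2
  refine ⟨2 ^ k / L, by omega, ?_⟩
  set r := 2 ^ k / L with hrdef
  have hLr : L * r ≤ 2 ^ k := Nat.mul_div_le _ _
  have hlt : 2 ^ k ≤ 2 * L * r := by
    have h1 : 2 ^ k < L * (r + 1) := by
      have := Nat.lt_mul_div_succ (2 ^ k) hLpos
      exact this
    have h2 : L * (r + 1) ≤ L * (2 * r) := Nat.mul_le_mul_left L (by omega)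
    calc 2 ^ k ≤ L * (r + 1) := h1.le
      _ ≤ L * (2 * r) := h2
      _ = 2 * L * r := by ring
  have h3 : ((2 : ℝ) ^ k) ≤ 2 * L * r := by exact_mod_cast hlt
  calc (vol S' r : ℝ) ≤ growth S (2 ^ k) := by exact_mod_cast hvol r _ hLr
    _ ≤ ((2 : ℝ) ^ k) ^ (5 / 2 : ℝ) := hgr
    _ ≤ (2 * (L : ℝ) * r) ^ (5 / 2 : ℝ) := Real.rpow_le_rpow (by positivity) h3 (by norm_num)
    _ = _ := Real.mul_rpow (by positivity) (by positivity)

end kl

end Pool.Agent.Lib.MP_0f7bfe_al
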