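import Pool.Agent.Lib.MP_0f7bfe_al.KL1

open scoped Pointwise

namespace Pool.Agent.Lib.MP_0f7bfe_al

universe u v

section kl2
variable {Γ : Type u} [Group Γ]

theorem ent_zero (S : Finset Γ) : ent S 0 = 0 := by
  rw [ent]
  have : ∀ x : Γ, Real.negMulLog (rwp S 0 x) = 0 := by
    intro x
    by_cases h : x = 1
    · subst h; simp [rwp, dlt_self]
    · simp [rwp, dlt_ne h]
  simp [this]

theorem ent_eq_sum (S : Finset Γ) (n : ℕ) (T : Finset Γ) (hT : ∀ x, x ∉ T → rwp S n x = 0) :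
    ent S n = ∑ x ∈ T, Real.negMulLog (rwp S n x) := by
  rw [ent]
  refine tsum_eq_sum fun x hx => ?_
  rw [hT x hx, Real.negMulLog_zero]

theorem ent_le (S : Finset Γ) (hS : S.Nonempty) (n : ℕ) : ent S n ≤ Real.log (vol S n) := by
  obtain ⟨T, hTc, hT⟩ := rwp_supp S n
  rw [ent_eq_sum S n T hT]
  have hsum : ∑ x ∈ T, rwp S n x = 1 := by
    rw [← rwp_tsum S hS n]
    exact (tsum_eq_sum fun x hx => hT x hx).symm
  have hTne : T.Nonempty := by
    by_contra h
    rw [Finset.not_nonempty_iff_eq_empty] at h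
    rw [h, Finset.sum_empty] at hsum
    exact zero_ne_one hsum
  rw [← hTc]
  set V : ℝ := (T.card : ℝ) with hV
  have hV0 : 0 < V := by rw [hV]; exact_mod_cast hTne.card_pos
  have key : ∀ x ∈ T, Real.negMulLog (rwp S n x) ≤ rwp S n x * Real.log V + (1 / V - rwp S n x) := by
    intro x _
    have hp := rwp_nonneg S n x
    rcases hp.eq_or_lt with h | h
    · rw [← h, Real.negMulLog_zero, zero_mul, sub_zero, zero_add]; positivity
    · have h2 := Real.log_le_sub_one_of_pos (show 0 < 1 / (rwp S n x * V) by positivity)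
      rw [one_div, Real.log_inv, Real.log_mul h.ne' hV0.ne'] at h2
      rw [Real.negMulLog]
      have h3 := mul_le_mul_of_nonneg_left h2 hp
      have h4 : rwp S n x * ((rwp S n x * V)⁻¹ - 1) = 1 / V - rwp S n x := by
        field_simp
      rw [h4] at h3
      linarith
  refine (Finset.sum_le_sum key).trans ?_
  rw [Finset.sum_add_distrib, ← Finset.sum_mul, Finset.sum_sub_distrib, hsum, Finset.sum_const,
    nsmul_eq_mul, ← hV, mul_one_div_cancel hV0.ne']
  linarith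

theorem kl2_point (p q : ℝ) (hp : 0 ≤ p) (hq : 0 ≤ q) (h : q = 0 → p = 0) :
    (Real.sqrt p - Real.sqrt q) ^ 2 + (p - q) ≤ p * Real.log p - p * Real.log q := by
  have e1 : (Real.sqrt p - Real.sqrt q) ^ 2 = p + q - 2 * (Real.sqrt p * Real.sqrt q) := by
    have h1 := Real.sq_sqrt hp
    have h2 := Real.sq_sqrt hq
    nlinarith
  rcases hp.eq_or_lt with h0 | h0
  · rw [← h0]; simp [Real.sq_sqrt hq]
  · have hq0 : 0 < q := lt_of_le_of_ne hq (fun h' => h0.ne' (h h'.symm))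
    have hsp : 0 < Real.sqrt p := Real.sqrt_pos.2 h0
    have hsq : 0 < Real.sqrt q := Real.sqrt_pos.2 hq0
    have h3 := Real.log_le_sub_one_of_pos (show 0 < Real.sqrt q / Real.sqrt p by positivity)
    rw [Real.log_div hsq.ne' hsp.ne', Real.log_sqrt hq, Real.log_sqrt hp] at h3
    have h4 := mul_le_mul_of_nonneg_left h3 (show 0 ≤ 2 * p by positivity)
    have h5 : 2 * p * (Real.sqrt q / Real.sqrt p - 1) = 2 * (Real.sqrt p * Real.sqrt q) - 2 * p := by
      have h6 : p = Real.sqrt p * Real.sqrt p := (Real.mul_self_sqrt hp).symm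
      have h7 : p * (Real.sqrt q / Real.sqrt p) = Real.sqrt p * Real.sqrt q := by
        nth_rewrite 1 [h6]
        field_simp
      linarith
    rw [h5] at h4
    rw [e1]
    linarith

theorem hellinger_le (S : Finset Γ) (hS : S.Nonempty) (n : ℕ) :
    ∑ s ∈ S, ∑' x, (Real.sqrt (rwp S n (s⁻¹ * x)) - Real.sqrt (rwp S (n + 1) x)) ^ 2 ≤
      S.card * (ent S (n + 1) - ent S n) := by
  classical
  have hc : (0 : ℝ) < S.card := by exact_mod_cast hS.card_pos
  obtain ⟨T, -, hT⟩ := rwp_supp S n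
  obtain ⟨T', -, hT'⟩ := rwp_supp S (n + 1)
  set U : Finset Γ := T' ∪ S.biUnion (fun s => T.image (fun t => s * t)) with hU
  have hp0 : ∀ s ∈ S, ∀ x, x ∉ U → rwp S n (s⁻¹ * x) = 0 := by
    intro s hs x hx
    apply hT
    intro h
    apply hx
    rw [hU, Finset.mem_union, Finset.mem_biUnion]
    right
    exact ⟨s, hs, Finset.mem_image.2 ⟨_, h, by simp⟩⟩
  have hq0 : ∀ x, x ∉ U → rwp S (n + 1) x = 0 := by
    intro x hx
    apply hT'
    intro h
    exact hx (Finset.mem_union_left _ h)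
  have hq : ∀ x, rwp S (n + 1) x = (∑ s ∈ S, rwp S n (s⁻¹ * x)) / S.card := fun x => rfl
  have hqz : ∀ x, ∀ s ∈ S, rwp S (n + 1) x = 0 → rwp S n (s⁻¹ * x) = 0 := by
    intro x s hs h
    rw [hq, div_eq_zero_iff] at h
    rcases h with h | h
    · exact (Finset.sum_eq_zero_iff_of_nonneg (fun s _ => rwp_nonneg S n _)).1 h s hs
    · exact absurd h hc.ne'
  have hsump : ∀ s ∈ S, ∑ x ∈ U, rwp S n (s⁻¹ * x) = 1 := by
    intro s hs
    rw [← rwp_tsum S hS n, ← (Equiv.mulLeft s⁻¹).tsum_eq (fun x => rwp S n x)]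
    exact (tsum_eq_sum fun x hx => hp0 s hs x hx).symm
  have hsumq : ∑ x ∈ U, rwp S (n + 1) x = 1 := by
    rw [← rwp_tsum S hS (n + 1)]
    exact (tsum_eq_sum fun x hx => hq0 x hx).symm
  have hentn : ∀ s ∈ S, ent S n = ∑ x ∈ U, Real.negMulLog (rwp S n (s⁻¹ * x)) := by
    intro s hs
    rw [ent, ← (Equiv.mulLeft s⁻¹).tsum_eq (fun x => Real.negMulLog (rwp S n x))]
    refine tsum_eq_sum fun x hx => ?_
    simp only [Equiv.coe_mulLeft]
    rw [hp0 s hs x hx, Real.negMulLog_zero]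
  have hentq : ent S (n + 1) = ∑ x ∈ U, Real.negMulLog (rwp S (n + 1) x) :=
    ent_eq_sum S (n + 1) U hq0
  have h1 : (S.card : ℝ) * ent S n = ∑ s ∈ S, ∑ x ∈ U, Real.negMulLog (rwp S n (s⁻¹ * x)) := by
    rw [← Finset.sum_congr rfl hentn, Finset.sum_const, nsmul_eq_mul]
  have h2 : (S.card : ℝ) * ent S (n + 1) =
      ∑ s ∈ S, ∑ x ∈ U, -(rwp S n (s⁻¹ * x) * Real.log (rwp S (n + 1) x)) := by
    rw [hentq, Finset.mul_sum, Finset.sum_comm]
    refine Finset.sum_congr rfl fun x _ => ?_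
    rw [Finset.sum_neg_distrib, ← Finset.sum_mul, Real.negMulLog]
    have : ∑ s ∈ S, rwp S n (s⁻¹ * x) = S.card * rwp S (n + 1) x := by
      rw [hq]; field_simp
    rw [this]; ring
  rw [mul_sub, h2, h1, ← Finset.sum_sub_distrib]
  refine Finset.sum_le_sum fun s hs => ?_
  rw [tsum_eq_sum (s := U) (fun x hx => by rw [hp0 s hs x hx, hq0 x hx]; simp)]
  have h3 : ∑ x ∈ U, (rwp S n (s⁻¹ * x) - rwp S (n + 1) x) = 0 := by
    rw [Finset.sum_sub_distrib, hsump s hs, hsumq, sub_self]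
  have h4 : ∑ x ∈ U, (Real.sqrt (rwp S n (s⁻¹ * x)) - Real.sqrt (rwp S (n + 1) x)) ^ 2 =
      ∑ x ∈ U, ((Real.sqrt (rwp S n (s⁻¹ * x)) - Real.sqrt (rwp S (n + 1) x)) ^ 2 +
        (rwp S n (s⁻¹ * x) - rwp S (n + 1) x)) := by
    rw [Finset.sum_add_distrib, h3, add_zero]
  rw [h4, ← Finset.sum_sub_distrib]
  refine Finset.sum_le_sum fun x _ => ?_
  refine (kl2_point _ _ (rwp_nonneg S n _) (rwp_nonneg S (n + 1) _) (hqz x s hs)).trans ?_
  rw [Real.negMulLog]
  linarith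

theorem ent_mono_succ (S : Finset Γ) (hS : S.Nonempty) (n : ℕ) : ent S n ≤ ent S (n + 1) := by
  have hc : (0 : ℝ) < S.card := by exact_mod_cast hS.card_pos
  have h := hellinger_le S hS n
  have h0 : 0 ≤ ∑ s ∈ S, ∑' x, (Real.sqrt (rwp S n (s⁻¹ * x)) -
      Real.sqrt (rwp S (n + 1) x)) ^ 2 :=
    Finset.sum_nonneg fun s _ => tsum_nonneg fun x => sq_nonneg _
  have h1 : 0 ≤ (S.card : ℝ) * (ent S (n + 1) - ent S n) := h0.trans h
  have := nonneg_of_mul_nonneg_right h1 hc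
  linarith

theorem ent_mono (S : Finset Γ) (hS : S.Nonempty) : Monotone (ent S) :=
  monotone_nat_of_le_succ (ent_mono_succ S hS)

theorem ent_nonneg (S : Finset Γ) (hS : S.Nonempty) (n : ℕ) : 0 ≤ ent S n := by
  have := ent_mono S hS (Nat.zero_le n)
  rwa [ent_zero] at this

end kl2

end Pool.Agent.Lib.MP_0f7bfe_al
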