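import Pool.Agent.Lib.MP_0f7bfe_al.KL2

open scoped Pointwise

namespace Pool.Agent.Lib.MP_0f7bfe_al

universe u v

section kl3
variable {Γ : Type u} [Group Γ]

theorem vol_pos (S : Finset Γ) (hS : S.Nonempty) (r : ℕ) : 0 < vol S r := by
  classical
  rw [vol_eq]
  exact (hS.pow).card_pos

theorem good_times (S : Finset Γ) (hS : S.Nonempty) (D : ℝ) (h : SlowGrowth Γ D) :
    ∃ C : ℝ, 0 < C ∧ ∀ N : ℕ, ∃ n : ℕ, N ≤ n ∧ 1 ≤ n ∧
      n * (ent S (n + 1) - ent S n) ≤ C ∧ ent S n ≤ C * Real.log (n + 1) := by
  obtain ⟨C₀, h0⟩ := h S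
  set C : ℝ := |Real.log C₀| + 4 * |D| + 1 with hC
  have hC0 : 0 < C := by positivity
  refine ⟨C, hC0, fun N => ?_⟩
  obtain ⟨r, hr, hv⟩ := h0 ((max N 3) ^ 2)
  set m := Nat.sqrt r with hm
  have hm1 : max N 3 ≤ m := Nat.le_sqrt'.2 hr
  have hm3 : 3 ≤ m := (le_max_right _ _).trans hm1
  have hmN : N ≤ m := (le_max_left _ _).trans hm1
  have hm2 : m ^ 2 ≤ r := Nat.sqrt_le' r
  have hm4 : r < (m + 1) ^ 2 := Nat.lt_succ_sqrt' r
  have hmr : m ≤ r := (Nat.le_self_pow (by norm_num) m).trans hm2
  have hmR : (3 : ℝ) ≤ m := by exact_mod_cast hm3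
  have hrR : (3 : ℝ) ≤ r := hmR.trans (by exact_mod_cast hmr)
  have hlogm : 1 ≤ Real.log m := by
    rw [Real.le_log_iff_exp_le (by linarith)]
    have := Real.exp_one_lt_d9
    linarith
  have hlogr : Real.log r ≤ 4 * Real.log m := by
    have h1 : (r : ℝ) ≤ (m : ℝ) ^ 4 := by
      have h2 : (r : ℝ) ≤ ((m : ℝ) + 1) ^ 2 := by exact_mod_cast hm4.le
      refine h2.trans ?_
      nlinarith [sq_nonneg ((m : ℝ) ^ 2), hmR, mul_self_nonneg ((m : ℝ) - 1)]
    have h3 := Real.log_le_log (by linarith) h1
    rw [Real.log_pow] at h3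
    exact_mod_cast h3
  have hlogr0 : 0 ≤ Real.log r := Real.log_nonneg (by linarith)
  have hrD : 0 < (r : ℝ) ^ D := Real.rpow_pos_of_pos (by linarith) D
  have hv1 : (1 : ℝ) ≤ vol S r := by exact_mod_cast vol_pos S hS r
  have hC00 : 0 < C₀ := by
    by_contra hneg
    push_neg at hneg
    have := mul_nonpos_of_nonpos_of_nonneg hneg hrD.le
    linarith
  have hent : ent S r ≤ (C - 1) * Real.log m := by
    have h1 := ent_le S hS r
    have h2 := Real.log_le_log (by linarith) hv
    rw [Real.log_mul hC00.ne' hrD.ne', Real.log_rpow (by linarith)] at h2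
    have h3 : D * Real.log r ≤ |D| * (4 * Real.log m) :=
      (mul_le_mul_of_nonneg_right (le_abs_self D) hlogr0).trans
        (mul_le_mul_of_nonneg_left hlogr (abs_nonneg D))
    have h4 : Real.log C₀ ≤ |Real.log C₀| * Real.log m :=
      (le_abs_self _).trans (le_mul_of_one_le_right (abs_nonneg _) hlogm)
    have h5 : (C - 1) * Real.log m = |Real.log C₀| * Real.log m + |D| * (4 * Real.log m) := by
      rw [hC]; ring
    linarith
  by_contra hcon
  push_neg at hcon
  have hind : ∀ n, m ≤ n → n ≤ r → C * (Real.log n - Real.log m) ≤ ent S n := by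
    intro n hn
    induction n, hn using Nat.le_induction with
    | base =>
      intro _
      rw [sub_self, mul_zero]
      exact ent_nonneg S hS m
    | succ n hn ih =>
      intro hnr
      have ih' := ih (by omega)
      have hnR : (3 : ℝ) ≤ n := hmR.trans (by exact_mod_cast hn)
      have h1 := hcon n (hmN.trans hn) (by omega)
      have hlogmono : Real.log m ≤ Real.log (n + 1) := by
        apply Real.log_le_log (by linarith)
        have : (m : ℝ) ≤ n := by exact_mod_cast hn
        linarith
      have h2 : C < n * (ent S (n + 1) - ent S n) := by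
        by_contra h3
        push_neg at h3
        have h4 := h1 h3
        have h5 := ent_mono S hS (show n ≤ r by omega)
        have h6 : C * Real.log m ≤ C * Real.log (n + 1) :=
          mul_le_mul_of_nonneg_left hlogmono hC0.le
        have h7 : (C - 1) * Real.log m = C * Real.log m - Real.log m := by ring
        linarith
      have h8 : Real.log ((n : ℝ) + 1) - Real.log n ≤ 1 / n := by
        rw [← Real.log_div (by linarith) (by linarith)]
        have h9 := Real.log_le_sub_one_of_pos (show 0 < ((n : ℝ) + 1) / n by positivity)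
        have h10 : ((n : ℝ) + 1) / n - 1 = 1 / n := by
          field_simp
          ring
        linarith
      have h11 : C * (1 / n) ≤ ent S (n + 1) - ent S n := by
        rw [mul_one_div, div_le_iff₀ (by linarith)]
        linarith
      have h12 := mul_le_mul_of_nonneg_left h8 hC0.le
      push_cast
      have h13 : C * (Real.log ((n : ℝ) + 1) - Real.log m) =
        C * (Real.log ((n : ℝ) + 1) - Real.log n) + C * (Real.log n - Real.log m) := by ring
      linarith
  have h1 := hind r hmr le_rfl
  have h2 : 2 * Real.log m ≤ Real.log r := by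
    have h3 : ((m : ℝ)) ^ 2 ≤ r := by exact_mod_cast hm2
    have h4 := Real.log_le_log (by positivity) h3
    rw [Real.log_pow] at h4
    exact_mod_cast h4
  have h3 : C * Real.log m ≤ C * (Real.log r - Real.log m) :=
    mul_le_mul_of_nonneg_left (by linarith) hC0.le
  have h4 : (C - 1) * Real.log m = C * Real.log m - Real.log m := by ring
  linarith

end kl3

end Pool.Agent.Lib.MP_0f7bfe_al
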