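import Pool.Agent.Lib.MP_0f7bfe_al.KL1

open scoped Pointwise

namespace Pool.Agent.Lib.MP_0f7bfe_al

universe u v

section kl4
variable {Γ : Type u} [Group Γ]

theorem harm_mean (S : Finset Γ) (hS : S.Nonempty) (f : Γ → ℝ) (hf : Harm S f) (n : ℕ) (g : Γ) :
    rwE S n (fun x => f (g * x)) = f g := by
  have hc : (0 : ℝ) < S.card := by exact_mod_cast hS.card_pos
  induction n with
  | zero => rw [rwE_zero, mul_one]
  | succ n ih =>
    rw [rwE_succ_right]
    refine Eq.trans ?_ ih
    congr 1
    funext x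
    have h := hf (g * x)
    simp only [mul_assoc] at h
    rw [h, mul_div_assoc, mul_comm, div_mul_cancel₀]
    exact hc.ne'

theorem harm_sq (S : Finset Γ) (hS : S.Nonempty) (f : Γ → ℝ) (hf : Harm S f) (n : ℕ) (g : Γ) :
    rwE S n (fun x => (f (g * x) - f g) ^ 2) = accG S f n g := by
  have hc : (0 : ℝ) < S.card := by exact_mod_cast hS.card_pos
  induction n with
  | zero => rw [rwE_zero, mul_one, sub_self, accG]; simp
  | succ n ih =>
    rw [rwE_succ_right, accG, Finset.sum_range_succ, ← accG, ← ih, ← rwE_add]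
    congr 1
    funext x
    rw [grad2, div_eq_iff hc.ne', add_mul, div_mul_cancel₀ _ hc.ne']
    have h := hf (g * x)
    simp only [mul_assoc] at h ⊢
    have h2 : ∑ s ∈ S, (f (g * (x * s)) - f (g * x)) = 0 := by
      rw [Finset.sum_sub_distrib, h, Finset.sum_const, nsmul_eq_mul, sub_self]
    have h3 : ∀ s ∈ S, (f (g * (x * s)) - f g) ^ 2 = (f (g * x) - f g) ^ 2 +
        2 * (f (g * x) - f g) * (f (g * (x * s)) - f (g * x)) +
        (f (g * (x * s)) - f (g * x)) ^ 2 := fun s _ => by ring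
    rw [Finset.sum_congr rfl h3, Finset.sum_add_distrib, Finset.sum_add_distrib, ← Finset.mul_sum,
      h2, Finset.sum_const, nsmul_eq_mul]
    ring

end kl4

end Pool.Agent.Lib.MP_0f7bfe_al
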