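import Pool.Agent.Lib.MP_0f7bfe_al.KL2
import Pool.Agent.Lib.MP_0f7bfe_al.KL4

open scoped Pointwise

namespace Pool.Agent.Lib.MP_0f7bfe_al

universe u v

section kl5
variable {Γ : Type u} [Group Γ]

theorem kl5_main (S : Finset Γ) (hS : S.Nonempty) (n : ℕ) (s : Γ) (hs : s ∈ S) (F : Γ → ℝ) :
    (rwE S n (fun x => F (s * x)) - rwE S (n + 1) F) ^ 2 ≤
      2 * S.card * (ent S (n + 1) - ent S n) *
        (rwE S n (fun x => F (s * x) ^ 2) + rwE S (n + 1) (fun x => F x ^ 2)) := by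
  classical
  obtain ⟨T, -, hT⟩ := rwp_supp S n
  obtain ⟨T', -, hT'⟩ := rwp_supp S (n + 1)
  set U : Finset Γ := T' ∪ T.image (fun t => s * t) with hU
  have hp0 : ∀ x, x ∉ U → rwp S n (s⁻¹ * x) = 0 := by
    intro x hx
    apply hT
    intro h
    apply hx
    rw [hU, Finset.mem_union]
    right
    exact Finset.mem_image.2 ⟨_, h, by simp⟩
  have hq0 : ∀ x, x ∉ U → rwp S (n + 1) x = 0 := by
    intro x hx
    apply hT'
    intro h
    exact hx (Finset.mem_union_left _ h)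
  have hE1 : ∀ G : Γ → ℝ, rwE S n (fun x => G (s * x)) = ∑ x ∈ U, rwp S n (s⁻¹ * x) * G x := by
    intro G
    rw [rwE, ← (Equiv.mulLeft s⁻¹).tsum_eq (fun x => rwp S n x * G (s * x))]
    simp only [Equiv.coe_mulLeft, mul_inv_cancel_left]
    exact tsum_eq_sum fun x hx => by rw [hp0 x hx, zero_mul]
  have hE2 : ∀ G : Γ → ℝ, rwE S (n + 1) G = ∑ x ∈ U, rwp S (n + 1) x * G x := by
    intro G
    rw [rwE]
    exact tsum_eq_sum fun x hx => by rw [hq0 x hx, zero_mul]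
  have hH : ∑ x ∈ U, (Real.sqrt (rwp S n (s⁻¹ * x)) - Real.sqrt (rwp S (n + 1) x)) ^ 2 ≤
      S.card * (ent S (n + 1) - ent S n) := by
    refine le_trans (le_of_eq ?_) ((Finset.single_le_sum (f := fun s => ∑' x,
      (Real.sqrt (rwp S n (s⁻¹ * x)) - Real.sqrt (rwp S (n + 1) x)) ^ 2)
      (fun s _ => tsum_nonneg fun x => sq_nonneg _) hs).trans (hellinger_le S hS n))
    exact (tsum_eq_sum fun x hx => by rw [hp0 x hx, hq0 x hx]; simp).symm
  rw [hE1 F, hE2 F, hE1 (fun x => F x ^ 2), hE2 (fun x => F x ^ 2), ← Finset.sum_sub_distrib,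
    ← Finset.sum_add_distrib]
  set p : Γ → ℝ := fun x => rwp S n (s⁻¹ * x) with hp
  set q : Γ → ℝ := fun x => rwp S (n + 1) x with hq
  have hp1 : ∀ x, 0 ≤ p x := fun x => rwp_nonneg S n _
  have hq1 : ∀ x, 0 ≤ q x := fun x => rwp_nonneg S (n + 1) _
  have e1 : ∑ x ∈ U, (p x * F x - q x * F x) =
      ∑ x ∈ U, (Real.sqrt (p x) - Real.sqrt (q x)) * ((Real.sqrt (p x) + Real.sqrt (q x)) * F x) := by
    refine Finset.sum_congr rfl fun x _ => ?_
    have h1 := Real.sq_sqrt (hp1 x)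
    have h2 := Real.sq_sqrt (hq1 x)
    linear_combination (-F x) * h1 + F x * h2
  have e2 : ∑ x ∈ U, ((Real.sqrt (p x) + Real.sqrt (q x)) * F x) ^ 2 ≤
      2 * ∑ x ∈ U, (p x * F x ^ 2 + q x * F x ^ 2) := by
    rw [Finset.mul_sum]
    refine Finset.sum_le_sum fun x _ => ?_
    have h1 := Real.sq_sqrt (hp1 x)
    have h2 := Real.sq_sqrt (hq1 x)
    have h3 : 2 * (p x * F x ^ 2 + q x * F x ^ 2) - ((Real.sqrt (p x) + Real.sqrt (q x)) * F x) ^ 2
        = ((Real.sqrt (p x) - Real.sqrt (q x)) * F x) ^ 2 := by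
      linear_combination (-2 * F x ^ 2) * h1 + (-2 * F x ^ 2) * h2
    have h4 := sq_nonneg ((Real.sqrt (p x) - Real.sqrt (q x)) * F x)
    linarith
  have e3 := Finset.sum_mul_sq_le_sq_mul_sq U (fun x => Real.sqrt (p x) - Real.sqrt (q x))
    (fun x => (Real.sqrt (p x) + Real.sqrt (q x)) * F x)
  change (∑ x ∈ U, (p x * F x - q x * F x)) ^ 2 ≤ 2 * S.card * (ent S (n + 1) - ent S n) *
    ∑ x ∈ U, (p x * F x ^ 2 + q x * F x ^ 2)
  rw [e1]
  refine e3.trans ?_
  have h5 : 0 ≤ ∑ x ∈ U, ((Real.sqrt (p x) + Real.sqrt (q x)) * F x) ^ 2 :=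
    Finset.sum_nonneg fun x _ => sq_nonneg _
  have h6 : 0 ≤ ∑ x ∈ U, (Real.sqrt (p x) - Real.sqrt (q x)) ^ 2 :=
    Finset.sum_nonneg fun x _ => sq_nonneg _
  calc (∑ x ∈ U, (Real.sqrt (p x) - Real.sqrt (q x)) ^ 2) *
        ∑ x ∈ U, ((Real.sqrt (p x) + Real.sqrt (q x)) * F x) ^ 2
      ≤ (S.card * (ent S (n + 1) - ent S n)) *
        ∑ x ∈ U, ((Real.sqrt (p x) + Real.sqrt (q x)) * F x) ^ 2 :=
        mul_le_mul_of_nonneg_right hH h5
    _ ≤ (S.card * (ent S (n + 1) - ent S n)) *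
        (2 * ∑ x ∈ U, (p x * F x ^ 2 + q x * F x ^ 2)) :=
        mul_le_mul_of_nonneg_left e2 (h6.trans hH)
    _ = _ := by ring

theorem key_estimate (S : Finset Γ) (hS : S.Nonempty) (f : Γ → ℝ) (hf : Harm S f) (n : ℕ) (g : Γ)
    (s : Γ) (hs : s ∈ S) :
    (f (g * s) - f g) ^ 2 ≤ 2 * S.card * (ent S (n + 1) - ent S n) *
      ((f (g * s) - f g) ^ 2 + accG S f n (g * s) + accG S f (n + 1) g) := by
  have h := kl5_main S hS n s hs (fun x => f (g * x) - f g)
  have e1 : rwE S n (fun x => f (g * (s * x)) - f g) = f (g * s) - f g := by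
    rw [rwE_sub S n (fun x => f (g * (s * x))) (fun _ => f g), rwE_const S hS]
    simp only [← mul_assoc]
    rw [harm_mean S hS f hf n (g * s)]
  have e2 : rwE S (n + 1) (fun x => f (g * x) - f g) = 0 := by
    rw [rwE_sub S (n + 1) (fun x => f (g * x)) (fun _ => f g), rwE_const S hS,
      harm_mean S hS f hf (n + 1) g, sub_self]
  have e3 : rwE S (n + 1) (fun x => (f (g * x) - f g) ^ 2) = accG S f (n + 1) g :=
    harm_sq S hS f hf (n + 1) g
  have e4 : rwE S n (fun x => (f (g * (s * x)) - f g) ^ 2) =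
      (f (g * s) - f g) ^ 2 + accG S f n (g * s) := by
    have h1 : (fun x => (f (g * (s * x)) - f g) ^ 2) = fun x =>
        ((f (g * s * x) - f (g * s)) ^ 2 + (2 * (f (g * s) - f g)) * (f (g * s * x) - f (g * s))) +
        (f (g * s) - f g) ^ 2 := by
      funext x
      rw [← mul_assoc]
      ring
    rw [h1, rwE_add S n (fun x => (f (g * s * x) - f (g * s)) ^ 2 +
      (2 * (f (g * s) - f g)) * (f (g * s * x) - f (g * s))) (fun _ => (f (g * s) - f g) ^ 2),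
      rwE_add S n (fun x => (f (g * s * x) - f (g * s)) ^ 2)
      (fun x => (2 * (f (g * s) - f g)) * (f (g * s * x) - f (g * s))), rwE_mul, rwE_const S hS,
      rwE_sub S n (fun x => f (g * s * x)) (fun _ => f (g * s)), rwE_const S hS,
      harm_mean S hS f hf n (g * s), harm_sq S hS f hf n (g * s)]
    ring
  rw [e1, e2, e3, e4, sub_zero] at h
  exact h

end kl5

end Pool.Agent.Lib.MP_0f7bfe_al
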