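import Pool.Agent.Lib.MP_0f7bfe_al.KL5

open scoped Pointwise

namespace Pool.Agent.Lib.MP_0f7bfe_al

universe u v

section kl6
variable {Γ : Type u} [Group Γ]

theorem asymp_inv (S : Finset Γ) (hS : S.Nonempty) (n : ℕ) (G : Γ → ℝ) (L : ℝ)
    (hG : ∀ x, |G x| ≤ L) (g s : Γ) (hs : s ∈ S) :
    |∑ k ∈ Finset.range n, rwE S k (fun x => G (g * s * x)) -
      ∑ k ∈ Finset.range n, rwE S k (fun x => G (g * x))| ≤
      2 * L + 2 * L * Real.sqrt (S.card * n * ent S n) := by
  have hc : (0 : ℝ) < S.card := by exact_mod_cast hS.card_pos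
  have hL : 0 ≤ L := (abs_nonneg _).trans (hG 1)
  set A : ℕ → ℝ := fun k => rwE S k (fun x => G (g * s * x)) with hA
  set B : ℕ → ℝ := fun k => rwE S k (fun x => G (g * x)) with hB
  have hBb : ∀ k, |B k| ≤ L := by
    intro k
    rw [abs_le]
    constructor
    · have := rwE_mono S k (fun _ => -L) (fun x => G (g * x)) (fun x => (abs_le.1 (hG _)).1)
      rwa [rwE_const S hS] at this
    · have := rwE_mono S k (fun x => G (g * x)) (fun _ => L) (fun x => (abs_le.1 (hG _)).2)
      rwa [rwE_const S hS] at this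
  have hd : ∀ k, 0 ≤ ent S (k + 1) - ent S k := fun k => sub_nonneg.2 (ent_mono_succ S hS k)
  have hk : ∀ k, |A k - B (k + 1)| ≤ 2 * L * Real.sqrt (S.card * (ent S (k + 1) - ent S k)) := by
    intro k
    have h := kl5_main S hS k s hs (fun x => G (g * x))
    have e1 : rwE S k (fun x => G (g * (s * x))) = A k := by
      rw [hA]
      simp only [mul_assoc]
    have e2 : rwE S k (fun x => G (g * (s * x)) ^ 2) ≤ L ^ 2 := by
      have := rwE_mono S k (fun x => G (g * (s * x)) ^ 2) (fun _ => L ^ 2)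
        (fun x => sq_le_sq' (abs_le.1 (hG _)).1 (abs_le.1 (hG _)).2)
      rwa [rwE_const S hS] at this
    have e3 : rwE S (k + 1) (fun x => G (g * x) ^ 2) ≤ L ^ 2 := by
      have := rwE_mono S (k + 1) (fun x => G (g * x) ^ 2) (fun _ => L ^ 2)
        (fun x => sq_le_sq' (abs_le.1 (hG _)).1 (abs_le.1 (hG _)).2)
      rwa [rwE_const S hS] at this
    rw [e1] at h
    have h2 : (A k - B (k + 1)) ^ 2 ≤ (2 * L * Real.sqrt (S.card * (ent S (k + 1) - ent S k))) ^ 2 := by
      rw [mul_pow, Real.sq_sqrt (mul_nonneg hc.le (hd k))]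
      refine h.trans ?_
      have h3 : 0 ≤ 2 * S.card * (ent S (k + 1) - ent S k) := by
        have := hd k
        positivity
      calc _ ≤ 2 * S.card * (ent S (k + 1) - ent S k) * (L ^ 2 + L ^ 2) :=
            mul_le_mul_of_nonneg_left (add_le_add e2 e3) h3
        _ = _ := by ring
    exact abs_le_of_sq_le_sq h2 (by positivity)
  have htel : ∑ k ∈ Finset.range n, (B (k + 1) - B k) = B n - B 0 := Finset.sum_range_sub B n
  have hdecomp : ∑ k ∈ Finset.range n, A k - ∑ k ∈ Finset.range n, B k =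
      ∑ k ∈ Finset.range n, (A k - B (k + 1)) + (B n - B 0) := by
    rw [← htel, ← Finset.sum_sub_distrib, ← Finset.sum_add_distrib]
    exact Finset.sum_congr rfl fun k _ => by ring
  have hcs : ∑ k ∈ Finset.range n, Real.sqrt (S.card * (ent S (k + 1) - ent S k)) ≤
      Real.sqrt (S.card * n * ent S n) := by
    apply Real.le_sqrt_of_sq_le
    have h1 := Finset.sum_mul_sq_le_sq_mul_sq (Finset.range n) (fun _ => (1 : ℝ))
      (fun k => Real.sqrt (S.card * (ent S (k + 1) - ent S k)))
    simp only [one_mul, one_pow, Finset.sum_const, Finset.card_range, nsmul_eq_mul, mul_one] at h1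
    refine h1.trans (le_of_eq ?_)
    have h2 : ∑ k ∈ Finset.range n, Real.sqrt (S.card * (ent S (k + 1) - ent S k)) ^ 2 =
        S.card * ent S n := by
      have h3 : ∀ k ∈ Finset.range n, Real.sqrt (S.card * (ent S (k + 1) - ent S k)) ^ 2 =
          S.card * (ent S (k + 1) - ent S k) :=
        fun k _ => Real.sq_sqrt (mul_nonneg hc.le (hd k))
      rw [Finset.sum_congr rfl h3, ← Finset.mul_sum, Finset.sum_range_sub (ent S) n, ent_zero,
        sub_zero]
    rw [h2]
    ring
  rw [hdecomp]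
  refine (abs_add_le _ _).trans ?_
  have h1 : |∑ k ∈ Finset.range n, (A k - B (k + 1))| ≤
      2 * L * Real.sqrt (S.card * n * ent S n) := by
    refine (Finset.abs_sum_le_sum_abs _ _).trans ((Finset.sum_le_sum fun k _ => hk k).trans ?_)
    rw [← Finset.mul_sum]
    exact mul_le_mul_of_nonneg_left hcs (by positivity)
  have h2 : |B n - B 0| ≤ 2 * L := by
    refine (abs_sub _ _).trans ?_
    have h3 := hBb n
    have h4 := hBb 0
    linarith
  linarith

end kl6

end Pool.Agent.Lib.MP_0f7bfe_al
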