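import Pool.Agent.Lib.MP_0f7bfe_al.KL3
import Pool.Agent.Lib.MP_0f7bfe_al.KL6

open scoped Pointwise InnerProductSpace Topology

namespace Pool.Agent.Lib.MP_0f7bfe_al

universe u v

section kl7

/-- abstract dimension bound -/
theorem kl7_abs {V : Type*} [NormedAddCommGroup V] [InnerProductSpace ℝ V] {I : Type*}
    (Δ : I → V →ₗ[ℝ] ℝ) (K : ℝ)
    (h1 : ∀ i v, (Δ i v) ^ 2 ≤ K * ‖v‖ ^ 2)
    (h2 : ∀ (m : ℕ) (v : Fin m → V) (c : ℝ), (∀ i, ∑ j, (Δ i (v j)) ^ 2 ≤ c) →
      ∑ j, ‖v j‖ ^ 2 ≤ c) : FiniteDimensional ℝ V := by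
  classical
  by_contra hcon
  let b := Module.Basis.ofVectorSpace ℝ V
  have hinf : Infinite (Module.Basis.ofVectorSpaceIndex ℝ V) := by
    by_contra hfin
    rw [not_infinite_iff_finite] at hfin
    exact hcon (Module.Finite.of_basis b)
  obtain ⟨m, hm⟩ := exists_nat_gt (max K 0)
  let emb : Fin m ↪ Module.Basis.ofVectorSpaceIndex ℝ V :=
    (Fin.valEmbedding.trans (Infinite.natEmbedding _))
  have hli : LinearIndependent ℝ (fun j : Fin m => b (emb j)) :=
    b.linearIndependent.comp emb emb.injective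
  set e : Fin m → V := InnerProductSpace.gramSchmidtNormed ℝ (fun j : Fin m => b (emb j)) with he
  have ho : Orthonormal ℝ e := InnerProductSpace.gramSchmidtNormed_orthonormal hli
  have hb : ∀ i, ∑ j, (Δ i (e j)) ^ 2 ≤ max K 0 := by
    intro i
    set t := ∑ j, (Δ i (e j)) ^ 2 with ht
    have ht0 : 0 ≤ t := Finset.sum_nonneg fun j _ => sq_nonneg _
    set w : V := ∑ j, Δ i (e j) • e j with hw
    have hw1 : Δ i w = t := by
      rw [hw, map_sum, ht]
      refine Finset.sum_congr rfl fun j _ => ?_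
      rw [map_smul, smul_eq_mul, pow_two]
    have hw2 : ‖w‖ ^ 2 = t := by
      rw [← real_inner_self_eq_norm_sq, hw, ho.inner_sum, ht]
      refine Finset.sum_congr rfl fun j _ => ?_
      simp [pow_two]
    have h3 := h1 i w
    rw [hw1, hw2] at h3
    by_contra hlt
    push Not at hlt
    have h4 : 0 < t := lt_of_le_of_lt (le_max_right K 0) hlt
    have h5 : K < t := lt_of_le_of_lt (le_max_left K 0) hlt
    nlinarith
  have h6 := h2 m e _ hb
  have h7 : ∑ j, ‖e j‖ ^ 2 = m := by
    simp [ho.1]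
  rw [h7] at h6
  linarith

variable {Γ : Type u} [Group Γ]

/-- polarised squared gradient -/
noncomputable def gradB (S : Finset Γ) (f h : Γ → ℝ) (x : Γ) : ℝ :=
  (∑ s ∈ S, (f (x * s) - f x) * (h (x * s) - h x)) / S.card

/-- polarised average energy -/
noncomputable def avB (S : Finset Γ) (n : ℕ) (f h : Γ → ℝ) : ℝ :=
  (∑ k ∈ Finset.range n, rwE S k (gradB S f h)) / n

theorem gradB_self (S : Finset Γ) (f : Γ → ℝ) (x : Γ) : gradB S f f x = grad2 S f x := by
  rw [gradB, grad2]; congr 1; exact Finset.sum_congr rfl fun s _ => by ring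

theorem gradB_comm (S : Finset Γ) (f h : Γ → ℝ) : gradB S f h = gradB S h f := by
  funext x; rw [gradB, gradB]; congr 1; exact Finset.sum_congr rfl fun s _ => by ring

theorem gradB_add_left (S : Finset Γ) (f f' h : Γ → ℝ) :
    gradB S (f + f') h = fun x => gradB S f h x + gradB S f' h x := by
  funext x
  simp only [gradB, Pi.add_apply]
  rw [← add_div, ← Finset.sum_add_distrib]
  congr 1; exact Finset.sum_congr rfl fun s _ => by ring

theorem gradB_smul_left (S : Finset Γ) (c : ℝ) (f h : Γ → ℝ) :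
    gradB S (c • f) h = fun x => c * gradB S f h x := by
  funext x
  simp only [gradB, Pi.smul_apply, smul_eq_mul]
  rw [← mul_div_assoc, Finset.mul_sum]
  congr 1; exact Finset.sum_congr rfl fun s _ => by ring

theorem gradB_bound (S : Finset Γ) (hS : S.Nonempty) (f h : Γ → ℝ) (L L' : ℝ)
    (hf : ∀ x, ∀ s ∈ S, |f (x * s) - f x| ≤ L) (hh : ∀ x, ∀ s ∈ S, |h (x * s) - h x| ≤ L')
    (x : Γ) : |gradB S f h x| ≤ L * L' := by
  have hc : (0 : ℝ) < S.card := by exact_mod_cast hS.card_pos
  rw [gradB, abs_div, abs_of_pos hc, div_le_iff₀ hc]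
  calc |∑ s ∈ S, (f (x * s) - f x) * (h (x * s) - h x)|
      ≤ ∑ s ∈ S, |(f (x * s) - f x) * (h (x * s) - h x)| := Finset.abs_sum_le_sum_abs _ _
    _ ≤ ∑ s ∈ S, L * L' := by
        refine Finset.sum_le_sum fun s hs => ?_
        rw [abs_mul]
        have h1 := hf x s hs
        have h2 := hh x s hs
        exact mul_le_mul h1 h2 (abs_nonneg _) ((abs_nonneg _).trans h1)
    _ = L * L' * S.card := by rw [Finset.sum_const, nsmul_eq_mul]; ring

theorem rwE_bound (S : Finset Γ) (hS : S.Nonempty) (n : ℕ) (F : Γ → ℝ) (L : ℝ)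
    (hF : ∀ x, |F x| ≤ L) : |rwE S n F| ≤ L := by
  rw [abs_le]
  constructor
  · have := rwE_mono S n (fun _ => -L) F (fun x => (abs_le.1 (hF x)).1)
    rwa [rwE_const S hS] at this
  · have := rwE_mono S n F (fun _ => L) (fun x => (abs_le.1 (hF x)).2)
    rwa [rwE_const S hS] at this

theorem avB_bound (S : Finset Γ) (hS : S.Nonempty) (f h : Γ → ℝ) (L L' : ℝ)
    (hf : ∀ x, ∀ s ∈ S, |f (x * s) - f x| ≤ L) (hh : ∀ x, ∀ s ∈ S, |h (x * s) - h x| ≤ L')
    (n : ℕ) : |avB S n f h| ≤ L * L' := by
  obtain ⟨s₀, hs₀⟩ := hS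
  have hL : 0 ≤ L * L' := mul_nonneg ((abs_nonneg _).trans (hf 1 s₀ hs₀))
    ((abs_nonneg _).trans (hh 1 s₀ hs₀))
  rcases Nat.eq_zero_or_pos n with hn | hn
  · subst hn; simpa [avB] using hL
  · have hn' : (0 : ℝ) < n := by exact_mod_cast hn
    rw [avB, abs_div, abs_of_pos hn', div_le_iff₀ hn']
    calc |∑ k ∈ Finset.range n, rwE S k (gradB S f h)|
        ≤ ∑ k ∈ Finset.range n, |rwE S k (gradB S f h)| := Finset.abs_sum_le_sum_abs _ _
      _ ≤ ∑ k ∈ Finset.range n, L * L' := Finset.sum_le_sum fun k _ =>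
          rwE_bound S ⟨s₀, hs₀⟩ k _ _ (gradB_bound S ⟨s₀, hs₀⟩ f h L L' hf hh)
      _ = L * L' * n := by rw [Finset.sum_const, nsmul_eq_mul, Finset.card_range]; ring

theorem avB_comm (S : Finset Γ) (n : ℕ) (f h : Γ → ℝ) : avB S n f h = avB S n h f := by
  rw [avB, avB, gradB_comm]

theorem avB_add_left (S : Finset Γ) (n : ℕ) (f f' h : Γ → ℝ) :
    avB S n (f + f') h = avB S n f h + avB S n f' h := by
  rw [avB, avB, avB, gradB_add_left, ← add_div, ← Finset.sum_add_distrib]
  congr 1
  exact Finset.sum_congr rfl fun k _ => rwE_add S k _ _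

theorem avB_smul_left (S : Finset Γ) (n : ℕ) (c : ℝ) (f h : Γ → ℝ) :
    avB S n (c • f) h = c * avB S n f h := by
  rw [avB, avB, gradB_smul_left, ← mul_div_assoc, Finset.mul_sum]
  congr 1
  exact Finset.sum_congr rfl fun k _ => rwE_mul S k _ _

/-- bounded sequences converge along an ultrafilter -/
theorem kl7_ultra (U : Ultrafilter ℕ) (a : ℕ → ℝ) (L : ℝ) (ha : ∀ n, |a n| ≤ L) :
    ∃ b, Filter.Tendsto a U (𝓝 b) := by
  have hc : IsCompact (Set.Icc (-L) L) := isCompact_Icc
  have h1 : (Filter.map a (U : Filter ℕ)) ≤ Filter.principal (Set.Icc (-L) L) := by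
    rw [Filter.le_principal_iff, Filter.mem_map]
    exact Filter.univ_mem' fun n => abs_le.1 (ha n)
  obtain ⟨b, -, hb⟩ := hc.ultrafilter_le_nhds (U.map a) h1
  exact ⟨b, hb⟩

theorem kl7_log (n : ℕ) : Real.log (n + 1) ≤ 2 * Real.sqrt (n + 1) := by
  have h0 : (0 : ℝ) < n + 1 := by positivity
  have h1 : Real.log (n + 1) = 2 * Real.log (Real.sqrt (n + 1)) := by
    rw [Real.log_sqrt h0.le]; ring
  rw [h1]
  have h2 := Real.log_le_sub_one_of_pos (Real.sqrt_pos.2 h0)
  linarith

/-- the error term tends to zero -/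
theorem kl7_error (a C L : ℝ) (ha : 0 ≤ a) (hC : 0 ≤ C) :
    Filter.Tendsto (fun n : ℕ => (2 * L + 2 * L * Real.sqrt (a * n * (C * Real.log (n + 1)))) / n)
      Filter.atTop (𝓝 0) := by
  have h1 : Filter.Tendsto (fun n : ℕ => (2 * L) / (n : ℝ)) Filter.atTop (𝓝 0) :=
    tendsto_const_div_atTop_nhds_zero_nat (2 * L)
  have hlog : Filter.Tendsto (fun n : ℕ => Real.log ((n : ℝ) + 1) / (n : ℝ)) Filter.atTop (𝓝 0) := by
    have h2 : Filter.Tendsto (fun n : ℕ => 2 * Real.sqrt ((n : ℝ) + 1) / (n : ℝ)) Filter.atTop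
        (𝓝 0) := by
      have h3 : Filter.Tendsto (fun n : ℕ => 4 / Real.sqrt (n : ℝ)) Filter.atTop (𝓝 0) := by
        apply Filter.Tendsto.div_atTop tendsto_const_nhds
        exact Real.tendsto_sqrt_atTop.comp tendsto_natCast_atTop_atTop
      refine squeeze_zero' (Filter.Eventually.of_forall fun n => by positivity) ?_ h3
      filter_upwards [Filter.eventually_ge_atTop 1] with n hn
      have hn' : (1 : ℝ) ≤ n := by exact_mod_cast hn
      have hs : Real.sqrt ((n : ℝ) + 1) ≤ 2 * Real.sqrt n := by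
        rw [Real.sqrt_le_left (by positivity), mul_pow, Real.sq_sqrt (by positivity)]
        linarith
      have hsn : 0 < Real.sqrt (n : ℝ) := Real.sqrt_pos.2 (by linarith)
      rw [div_le_div_iff₀ (by linarith) hsn]
      have hss : Real.sqrt (n : ℝ) * Real.sqrt n = n := Real.mul_self_sqrt (by linarith)
      nlinarith
    refine squeeze_zero' (Filter.Eventually.of_forall fun n => ?_)
      (Filter.Eventually.of_forall fun n => ?_) h2
    · exact div_nonneg (Real.log_nonneg (by linarith [Nat.cast_nonneg (α := ℝ) n]))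
        (Nat.cast_nonneg n)
    · exact div_le_div_of_nonneg_right (kl7_log n) (Nat.cast_nonneg n)
  have h4 : Filter.Tendsto (fun n : ℕ => 2 * L * Real.sqrt (a * C * (Real.log ((n : ℝ) + 1) / n)))
      Filter.atTop (𝓝 0) := by
    have h5 := (((hlog.const_mul (a * C))).sqrt).const_mul (2 * L)
    simpa using h5
  have h6 := h1.add h4
  rw [add_zero] at h6
  refine h6.congr' ?_
  filter_upwards [Filter.eventually_ge_atTop 1] with n hn
  have hn' : (0 : ℝ) < n := by exact_mod_cast hn
  rw [add_div]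
  congr 1
  rw [mul_div_assoc]
  congr 1
  rw [eq_div_iff hn'.ne']
  have h7 : (n : ℝ) = Real.sqrt ((n : ℝ) ^ 2) := by rw [Real.sqrt_sq hn'.le]
  nth_rewrite 3 [h7]
  rw [← Real.sqrt_mul' _ (by positivity)]
  congr 1
  field_simp

theorem accG_succ_bound (S : Finset Γ) (hS : S.Nonempty) (f : Γ → ℝ) (L : ℝ)
    (hf : ∀ x, ∀ s ∈ S, |f (x * s) - f x| ≤ L) (n : ℕ) (g : Γ) :
    accG S f (n + 1) g ≤ accG S f n g + L * L := by
  rw [accG, Finset.sum_range_succ, accG]
  have h := rwE_bound S hS n (fun x => grad2 S f (g * x)) (L * L) (fun x => by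
    rw [← gradB_self]; exact gradB_bound S hS f f L L hf hf _)
  linarith [(abs_le.1 h).2]

theorem finite_lipHarm (S : Finset Γ) (h1 : (1 : Γ) ∈ S) (hgen : Subgroup.closure (S : Set Γ) = ⊤)
    (D : ℝ) (h : SlowGrowth Γ D) : FiniteDimensional ℝ (LipHarm S) := by
  classical
  have hS : S.Nonempty := ⟨1, h1⟩
  have hc : (0 : ℝ) < S.card := by exact_mod_cast hS.card_pos
  obtain ⟨C, hC0, hgood⟩ := good_times S hS D h
  set good : Set ℕ := {n | 1 ≤ n ∧ n * (ent S (n + 1) - ent S n) ≤ C ∧
    ent S n ≤ C * Real.log (n + 1)} with hgooddef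
  have hne : (Filter.atTop ⊓ Filter.principal good : Filter ℕ).NeBot := by
    rw [← Filter.frequently_mem_iff_neBot]
    rw [Filter.frequently_atTop]
    intro N
    obtain ⟨n, hn, h2, h3, h4⟩ := hgood N
    exact ⟨n, hn, h2, h3, h4⟩
  set U : Ultrafilter ℕ := Ultrafilter.of (Filter.atTop ⊓ Filter.principal good) with hU
  have hU1 : (U : Filter ℕ) ≤ Filter.atTop := (Ultrafilter.of_le _).trans inf_le_left
  have hU2 : ∀ᶠ n in (U : Filter ℕ), n ∈ good :=
    Filter.le_principal_iff.1 ((Ultrafilter.of_le _).trans inf_le_right)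
  -- Lipschitz constants
  have hLip : ∀ f : LipHarm S, ∃ L : ℝ, ∀ x, ∀ s ∈ S, |(f : Γ → ℝ) (x * s) - (f : Γ → ℝ) x| ≤ L :=
    fun f => f.2.2.2
  choose Lp hLp using hLip
  have hlim : ∀ f k : LipHarm S, ∃ b, Filter.Tendsto (fun n => avB S n f k) U (𝓝 b) :=
    fun f k => kl7_ultra U _ _ (avB_bound S hS f k _ _ (hLp f) (hLp k))
  choose B hB using hlim
  -- asymptotic invariance
  have hinvar : ∀ (f : LipHarm S) (g : Γ), Filter.Tendsto
      (fun n => accG S f n g / n) U (𝓝 (B f f)) := by
    intro f g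
    have hstep : ∀ (g : Γ), ∀ s ∈ S, Filter.Tendsto
        (fun n => accG S f n (g * s) / n - accG S f n g / n) U (𝓝 0) := by
      intro g s hs
      have herr := (kl7_error S.card C (Lp f * Lp f) hc.le hC0.le).mono_left hU1
      rw [tendsto_zero_iff_abs_tendsto_zero]
      refine squeeze_zero' (Filter.Eventually.of_forall fun n => abs_nonneg _) ?_ herr
      filter_upwards [hU2] with n hn
      obtain ⟨hn1, -, hn3⟩ := hn
      have hn' : (0 : ℝ) < n := by exact_mod_cast hn1
      simp only [Function.comp]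
      rw [← sub_div, abs_div, abs_of_pos hn']
      refine div_le_div_of_nonneg_right ?_ hn'.le
      have h5 := asymp_inv S hS n (grad2 S f) (Lp f * Lp f) (fun x => by
        rw [← gradB_self]; exact gradB_bound S hS f f _ _ (hLp f) (hLp f) _) g s hs
      refine h5.trans ?_
      have hL : 0 ≤ Lp f * Lp f := mul_self_nonneg _
      have h6 : Real.sqrt (S.card * n * ent S n) ≤
          Real.sqrt (S.card * n * (C * Real.log (n + 1))) :=
        Real.sqrt_le_sqrt (mul_le_mul_of_nonneg_left hn3 (by positivity))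
      nlinarith
    have hall : ∀ k : Γ, ∀ g : Γ, Filter.Tendsto
        (fun n => accG S f n (g * k) / n - accG S f n g / n) U (𝓝 0) := by
      intro k
      have hk : k ∈ Subgroup.closure (S : Set Γ) := by rw [hgen]; trivial
      induction hk using Subgroup.closure_induction with
      | mem x hx => intro g; exact hstep g x hx
      | one => intro g; simp
      | mul x y _ _ hx hy =>
        intro g
        have := (hy (g * x)).add (hx g)
        rw [add_zero] at this
        refine this.congr fun n => ?_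
        rw [mul_assoc]; ring
      | inv x _ hx =>
        intro g
        have := (hx (g * x⁻¹)).neg
        rw [neg_zero, inv_mul_cancel_right] at this
        refine this.congr fun n => ?_
        ring
    have h1' : Filter.Tendsto (fun n => accG S f n 1 / n) U (𝓝 (B f f)) := by
      refine (hB f f).congr fun n => ?_
      rw [avB, accG]
      congr 1
      refine Finset.sum_congr rfl fun k _ => ?_
      congr 1
      funext x
      rw [gradB_self, one_mul]
    have h2' := (hall g 1).add h1'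
    rw [zero_add, one_mul] at h2'
    exact h2'.congr fun n => by ring
  -- the key estimate in the limit
  set K : ℝ := 4 * S.card * C with hK
  have hkey : ∀ (f : LipHarm S) (g : Γ), ∀ s ∈ S,
      ((f : Γ → ℝ) (g * s) - (f : Γ → ℝ) g) ^ 2 ≤ 2 * K * B f f := by
    intro f g s hs
    have ht : Filter.Tendsto (fun n : ℕ => K * (accG S f n (g * s) / n +
        (accG S f n g / n + Lp f * Lp f / n))) U (𝓝 (K * (B f f + (B f f + 0)))) := by
      refine ((hinvar f (g * s)).add ((hinvar f g).add ?_)).const_mul K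
      exact (tendsto_const_div_atTop_nhds_zero_nat (Lp f * Lp f)).mono_left hU1
    have h2K : K * (B f f + (B f f + 0)) = 2 * K * B f f := by ring
    rw [h2K] at ht
    refine ge_of_tendsto ht ?_
    have hlarge : ∀ᶠ n : ℕ in (U : Filter ℕ), 4 * S.card * C ≤ n :=
      hU1 (tendsto_natCast_atTop_atTop.eventually_ge_atTop _)
    filter_upwards [hU2, hlarge] with n hn hnl
    obtain ⟨hn1, hn2, -⟩ := hn
    have hn' : (0 : ℝ) < n := by exact_mod_cast hn1
    have h5 := key_estimate S hS f f.2.1 n g s hs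
    have h6 := accG_succ_bound S hS f (Lp f) (hLp f) n g
    set X := ((f : Γ → ℝ) (g * s) - (f : Γ → ℝ) g) ^ 2 with hX
    set a := accG S f n (g * s) with ha
    set b := accG S f n g with hb
    set θ := ent S (n + 1) - ent S n with hθ
    have hX0 : 0 ≤ X := sq_nonneg _
    have hgr : ∀ (k : ℕ) (g' : Γ), 0 ≤ accG S f k g' := by
      intro k g'
      refine Finset.sum_nonneg fun j _ => ?_
      have := rwE_mono S j (fun _ => 0) (fun x => grad2 S f (g' * x)) (fun x => by
        rw [grad2]
        exact div_nonneg (Finset.sum_nonneg fun s _ => sq_nonneg _) hc.le)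
      rwa [rwE_const S hS] at this
    have ha0 : 0 ≤ a := hgr _ _
    have hb0 : 0 ≤ b := hgr _ _
    have hb1 : 0 ≤ accG S f (n + 1) g := hgr _ _
    have hθn : θ ≤ C / n := by
      rw [le_div_iff₀ hn']; linarith
    have hcoef : 2 * S.card * θ ≤ 2 * S.card * (C / n) :=
      mul_le_mul_of_nonneg_left hθn (by positivity)
    have h7 : X ≤ 2 * S.card * (C / n) * (X + a + accG S f (n + 1) g) :=
      h5.trans (mul_le_mul_of_nonneg_right hcoef (by positivity))
    have hhalf : 2 * S.card * (C / n) ≤ 1 / 2 := by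
      rw [mul_div_assoc', div_le_iff₀ hn']
      linarith
    have h8 : X ≤ 4 * S.card * (C / n) * (a + accG S f (n + 1) g) := by
      have h9 : 2 * S.card * (C / n) * X ≤ 1 / 2 * X := mul_le_mul_of_nonneg_right hhalf hX0
      nlinarith
    refine h8.trans ?_
    have h10 : 4 * S.card * (C / n) * (a + accG S f (n + 1) g) ≤
        4 * S.card * (C / n) * (a + (b + Lp f * Lp f)) :=
      mul_le_mul_of_nonneg_left (by linarith) (by positivity)
    refine h10.trans (le_of_eq ?_)
    rw [hK]; field_simp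
  -- bilinearity
  have hBcomm : ∀ f k : LipHarm S, B f k = B k f := by
    intro f k
    refine tendsto_nhds_unique (hB f k) ((hB k f).congr fun n => avB_comm S n k f)
  have hBadd : ∀ f f' k : LipHarm S, B (f + f') k = B f k + B f' k := by
    intro f f' k
    refine tendsto_nhds_unique (hB (f + f') k) (((hB f k).add (hB f' k)).congr fun n => ?_)
    exact (avB_add_left S n f f' k).symm
  have hBsmul : ∀ (c : ℝ) (f k : LipHarm S), B (c • f) k = c * B f k := by
    intro c f k
    refine tendsto_nhds_unique (hB (c • f) k) (((hB f k).const_mul c).congr fun n => ?_)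
    exact (avB_smul_left S n c f k).symm
  have hBnn : ∀ f : LipHarm S, 0 ≤ B f f := by
    intro f
    by_contra hneg
    push Not at hneg
    have h3 := hkey f 1 1 h1
    have hK0 : 0 < K := by positivity
    nlinarith [sq_nonneg ((f : Γ → ℝ) (1 * 1) - (f : Γ → ℝ) 1)]
  have hBdef : ∀ f : LipHarm S, B f f = 0 → f = 0 := by
    intro f hf0
    have h3 : ∀ (g : Γ), ∀ s ∈ S, (f : Γ → ℝ) (g * s) = (f : Γ → ℝ) g := by
      intro g s hs
      have := hkey f g s hs
      rw [hf0, mul_zero] at this
      have h4 : (f : Γ → ℝ) (g * s) - (f : Γ → ℝ) g = 0 := by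
        have h5 := le_antisymm this (sq_nonneg _)
        exact pow_eq_zero_iff (two_ne_zero) |>.1 h5
      linarith
    have h4 : ∀ k : Γ, ∀ g : Γ, (f : Γ → ℝ) (g * k) = (f : Γ → ℝ) g := by
      intro k
      have hk : k ∈ Subgroup.closure (S : Set Γ) := by rw [hgen]; trivial
      induction hk using Subgroup.closure_induction with
      | mem x hx => intro g; exact h3 g x hx
      | one => intro g; rw [mul_one]
      | mul x y _ _ hx hy => intro g; rw [← mul_assoc, hy, hx]
      | inv x _ hx => intro g; rw [← hx (g * x⁻¹), inv_mul_cancel_right]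
    apply Subtype.ext
    funext k
    have := h4 k 1
    rw [one_mul, f.2.2.1] at this
    exact this
  -- inner product structure
  let core : InnerProductSpace.Core ℝ (LipHarm S) :=
    { inner := fun f k => B f k
      conj_inner_symm := fun f k => by simpa using hBcomm k f
      re_inner_nonneg := fun f => by simpa using hBnn f
      add_left := fun f f' k => hBadd f f' k
      smul_left := fun f k c => by simpa using hBsmul c f k
      definite := fun f hf => hBdef f hf }
  letI : NormedAddCommGroup (LipHarm S) := core.toNormedAddCommGroup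
  letI : InnerProductSpace ℝ (LipHarm S) := InnerProductSpace.ofCore core.toCore
  have hnorm : ∀ f : LipHarm S, ‖f‖ ^ 2 = B f f := by
    intro f
    rw [← real_inner_self_eq_norm_sq]
    rfl
  let Δ : (Γ × S) → (LipHarm S →ₗ[ℝ] ℝ) := fun i =>
    { toFun := fun f => (f : Γ → ℝ) (i.1 * i.2) - (f : Γ → ℝ) i.1
      map_add' := fun f k => by simp; ring
      map_smul' := fun c f => by simp; ring }
  refine kl7_abs (V := LipHarm S) Δ (2 * K) ?_ ?_
  · rintro ⟨g, s⟩ f
    rw [hnorm]
    exact hkey f g s s.2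
  · intro m v c hc'
    have h5 : Filter.Tendsto (fun n => ∑ j, avB S n (v j) (v j)) U (𝓝 (∑ j, B (v j) (v j))) :=
      tendsto_finsetSum _ fun j _ => hB (v j) (v j)
    have h6 : ∑ j, ‖v j‖ ^ 2 = ∑ j, B (v j) (v j) := Finset.sum_congr rfl fun j _ => hnorm _
    rw [h6]
    refine le_of_tendsto h5 ?_
    have hge1 : ∀ᶠ n : ℕ in (U : Filter ℕ), 1 ≤ n := hU1 (Filter.eventually_ge_atTop 1)
    filter_upwards [hge1] with n hn
    have hn' : (0 : ℝ) < n := by exact_mod_cast hn
    have h7 : ∀ x, ∑ j, gradB S (v j) (v j) x ≤ c := by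
      intro x
      have h8 : ∑ j, gradB S (v j) (v j) x =
          (∑ s ∈ S, ∑ j, ((v j : Γ → ℝ) (x * s) - (v j : Γ → ℝ) x) ^ 2) / S.card := by
        simp only [gradB]
        rw [← Finset.sum_div, Finset.sum_comm]
        congr 1
        exact Finset.sum_congr rfl fun s _ => Finset.sum_congr rfl fun j _ => by ring
      rw [h8, div_le_iff₀ hc]
      calc _ ≤ ∑ s ∈ S, c := Finset.sum_le_sum fun s hs => hc' (x, ⟨s, hs⟩)
        _ = c * S.card := by rw [Finset.sum_const, nsmul_eq_mul]; ring
    have h9 : ∑ j, avB S n (v j) (v j) =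
        (∑ k ∈ Finset.range n, ∑ j, rwE S k (gradB S (v j) (v j))) / n := by
      simp only [avB]
      rw [← Finset.sum_div, Finset.sum_comm]
    rw [h9, div_le_iff₀ hn']
    have h10 : ∀ k, ∑ j, rwE S k (gradB S (v j) (v j)) ≤ c := by
      intro k
      have h11 : ∑ j, rwE S k (gradB S (v j) (v j)) =
          rwE S k (fun x => ∑ j, gradB S (v j) (v j) x) := by
        clear hc' h5 h6 h7 h9
        induction m with
        | zero =>
          simp only [Finset.univ_eq_empty, Finset.sum_empty]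
          exact (rwE_const S hS k 0).symm
        | succ m ih =>
          rw [Fin.sum_univ_succ, ih (fun j => v j.succ)]
          simp only [Fin.sum_univ_succ]
          rw [rwE_add]
      rw [h11]
      have := rwE_mono S k _ (fun _ => c) h7
      rwa [rwE_const S hS] at this
    calc _ ≤ ∑ k ∈ Finset.range n, c := Finset.sum_le_sum fun k _ => h10 k
      _ = c * n := by rw [Finset.sum_const, nsmul_eq_mul, Finset.card_range]; ring

end kl7

end Pool.Agent.Lib.MP_0f7bfe_al
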