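import Pool.Agent.Lib.MP_0f7bfe_al.KLDefs

open scoped Pointwise

namespace Pool.Agent.Lib.MP_0f7bfe_al

universe u v

section kl9a
variable {Γ : Type u} [Group Γ]

theorem kl9a_mem (S : Finset Γ) (g : Γ) (f : Γ → ℝ) (hf : f ∈ LipHarm S) :
    (fun x => f (g⁻¹ * x) - f g⁻¹) ∈ LipHarm S := by
  obtain ⟨h1, h2, L, hL⟩ := hf
  refine ⟨fun x => ?_, ?_, L, fun x s hs => ?_⟩
  · rw [Finset.sum_sub_distrib, Finset.sum_const, nsmul_eq_mul, mul_sub, ← h1 (g⁻¹ * x)]
    simp only [mul_assoc]
  · simp
  · have := hL (g⁻¹ * x) s hs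
    rw [mul_assoc] at this
    simpa using this

theorem actF_mem (S : Finset Γ) (g : Γ) (f : Γ → ℂ) (hf : f ∈ LipHarmC S) :
    actF g f ∈ LipHarmC S := by
  obtain ⟨h1, h2⟩ := hf
  have h3 := kl9a_mem S g _ h1
  have h4 := kl9a_mem S g _ h2
  refine ⟨?_, ?_⟩
  · simpa [actF] using h3
  · simpa [actF] using h4

theorem finite_lipHarmC (S : Finset Γ) (h : FiniteDimensional ℝ (LipHarm S)) :
    FiniteDimensional ℂ (LipHarmC S) := by
  classical
  have hfg : (LipHarm S).FG := (Submodule.fg_top _).1 h.1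
  obtain ⟨T, hT⟩ := hfg
  set φ : (Γ → ℝ) → (Γ → ℂ) := fun f x => (f x : ℂ) with hφ
  set W : Submodule ℂ (Γ → ℂ) := Submodule.span ℂ ((T.image φ : Finset (Γ → ℂ)) : Set (Γ → ℂ))
    with hW
  have hWfin : FiniteDimensional ℂ W := by
    rw [hW]
    exact FiniteDimensional.span_finset ℂ _
  have key : ∀ u ∈ LipHarm S, φ u ∈ W := by
    intro u hu
    rw [← hT] at hu
    induction hu using Submodule.span_induction with
    | mem x hx =>
      apply Submodule.subset_span
      rw [Finset.coe_image]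
      exact ⟨x, hx, rfl⟩
    | zero =>
      have : φ 0 = 0 := by funext x; simp [hφ]
      rw [this]; exact W.zero_mem
    | add x y _ _ hx hy =>
      have : φ (x + y) = φ x + φ y := by funext z; simp [hφ]
      rw [this]; exact W.add_mem hx hy
    | smul a x _ hx =>
      have : φ (a • x) = (a : ℂ) • φ x := by funext z; simp [hφ]
      rw [this]; exact W.smul_mem _ hx
  have hle : LipHarmC S ≤ W := by
    intro f hf
    have h1 := key _ hf.1
    have h2 := key _ hf.2
    have h3 : f = φ (fun x => (f x).re) + Complex.I • φ (fun x => (f x).im) := by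
      funext x
      simp only [hφ, Pi.add_apply, Pi.smul_apply, smul_eq_mul]
      rw [mul_comm]
      exact (Complex.re_add_im (f x)).symm
    rw [h3]
    exact W.add_mem h1 (W.smul_mem _ h2)
  exact Submodule.finiteDimensional_of_le hle

end kl9a

end Pool.Agent.Lib.MP_0f7bfe_al
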