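import Pool.Agent.Lib.MP_0f7bfe_al.LFDefs

/-!
Definitions for the wave KL: finitely generated groups of growth exponent `< 3` along a sequence.
-/

open scoped Pointwise

namespace Pool.Agent.Lib.MP_0f7bfe_al

universe u v

section kl
variable {Γ : Type u} [Group Γ]

/-- number of products of `r` elements of `S` (used for symmetric `S` containing `1`) -/
noncomputable def vol (S : Finset Γ) (r : ℕ) : ℕ := by classical exact (S ^ r).card

/-- polynomial growth of degree `D` along a sequence -/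
def SlowGrowth (Γ : Type u) [Group Γ] (D : ℝ) : Prop :=
  ∀ S : Finset Γ, ∃ C : ℝ, ∀ N : ℕ, ∃ r : ℕ, N ≤ r ∧ (vol S r : ℝ) ≤ C * (r : ℝ) ^ D

/-- law of the random walk (left increments, uniform on `S`) -/
noncomputable def rwp (S : Finset Γ) : ℕ → Γ → ℝ
  | 0 => dlt 1
  | (n + 1) => fun x => (∑ s ∈ S, rwp S n (s⁻¹ * x)) / S.card

/-- expectation at time `n` -/
noncomputable def rwE (S : Finset Γ) (n : ℕ) (F : Γ → ℝ) : ℝ := ∑' x, rwp S n x * F x

/-- entropy at time `n` -/
noncomputable def ent (S : Finset Γ) (n : ℕ) : ℝ := ∑' x, Real.negMulLog (rwp S n x)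

/-- harmonic functions -/
def Harm (S : Finset Γ) (f : Γ → ℝ) : Prop := ∀ x, ∑ s ∈ S, f (x * s) = S.card * f x

/-- squared gradient -/
noncomputable def grad2 (S : Finset Γ) (f : Γ → ℝ) (x : Γ) : ℝ :=
  (∑ s ∈ S, (f (x * s) - f x) ^ 2) / S.card

/-- accumulated squared gradient -/
noncomputable def accG (S : Finset Γ) (f : Γ → ℝ) (n : ℕ) (g : Γ) : ℝ :=
  ∑ k ∈ Finset.range n, rwE S k (fun x => grad2 S f (g * x))

/-- Lipschitz harmonic functions vanishing at `1` -/
def LipHarm (S : Finset Γ) : Submodule ℝ (Γ → ℝ) where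
  carrier := {f | Harm S f ∧ f 1 = 0 ∧ ∃ L : ℝ, ∀ x, ∀ s ∈ S, |f (x * s) - f x| ≤ L}
  zero_mem' := ⟨fun x => by simp, rfl, 0, fun x s _ => by simp⟩
  add_mem' := by
    rintro a b ⟨ha, ha', La, hLa⟩ ⟨hb, hb', Lb, hLb⟩
    refine ⟨fun x => ?_, ?_, La + Lb, fun x s hs => ?_⟩
    · simp only [Pi.add_apply, Finset.sum_add_distrib, ha x, hb x]; ring
    · simp [ha', hb']
    · simp only [Pi.add_apply]
      have h1 := hLa x s hs
      have h2 := hLb x s hs
      have h3 := abs_add_le (a (x * s) - a x) (b (x * s) - b x)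
      have h4 : a (x * s) + b (x * s) - (a x + b x) = (a (x * s) - a x) + (b (x * s) - b x) := by
        ring
      rw [h4]
      linarith
  smul_mem' := by
    rintro c a ⟨ha, ha', La, hLa⟩
    refine ⟨fun x => ?_, ?_, |c| * La, fun x s hs => ?_⟩
    · simp only [Pi.smul_apply, smul_eq_mul, ← Finset.mul_sum, ha x]; ring
    · simp [ha']
    · simp only [Pi.smul_apply, smul_eq_mul]
      rw [← mul_sub, abs_mul]
      exact mul_le_mul_of_nonneg_left (hLa x s hs) (abs_nonneg c)

/-- complex Lipschitz harmonic functions vanishing at `1` -/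
def LipHarmC (S : Finset Γ) : Submodule ℂ (Γ → ℂ) where
  carrier := {f | (fun x => (f x).re) ∈ LipHarm S ∧ (fun x => (f x).im) ∈ LipHarm S}
  zero_mem' := ⟨(LipHarm S).zero_mem, (LipHarm S).zero_mem⟩
  add_mem' := by
    rintro a b ⟨ha, ha'⟩ ⟨hb, hb'⟩
    exact ⟨(LipHarm S).add_mem ha hb, (LipHarm S).add_mem ha' hb'⟩
  smul_mem' := by
    rintro c a ⟨ha, ha'⟩
    constructor
    · have h := (LipHarm S).sub_mem ((LipHarm S).smul_mem c.re ha) ((LipHarm S).smul_mem c.im ha')
      convert h using 1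
      funext x
      simp [Complex.mul_re]
    · have h := (LipHarm S).add_mem ((LipHarm S).smul_mem c.re ha') ((LipHarm S).smul_mem c.im ha)
      convert h using 1
      funext x
      simp [Complex.mul_im]

/-- the action of the group on functions vanishing at `1` -/
def actF (g : Γ) (f : Γ → ℂ) : Γ → ℂ := fun x => f (g⁻¹ * x) - f g⁻¹

end kl

end Pool.Agent.Lib.MP_0f7bfe_al
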