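import Pool.Agent.Lib.MP_0f7bfe_al.LFDefs

open scoped Pointwise

namespace Pool.Agent.Lib.MP_0f7bfe_al

universe u v

section lf3
variable {Γ : Type u} [Group Γ]

theorem lf3_indep {T : Type} [Fintype T] [DecidableEq T] (m : T → ℕ)
    (w a b : ∀ t, Fin (m t) → ℝ) (hsum : ∀ t, ∑ i, w t i = 1) (t t' : T) (htt : t ≠ t') :
    ∑ c : ∀ s, Fin (m s), (∏ s, w s (c s)) * (a t (c t) * b t' (c t')) =
      (∑ i, w t i * a t i) * (∑ i, w t' i * b t' i) := by
  have h1 : ∀ c : ∀ s, Fin (m s), (∏ s, w s (c s)) * (a t (c t) * b t' (c t')) =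
      ∏ s, (w s (c s) * ((if s = t then a s (c s) else 1) * (if s = t' then b s (c s) else 1))) := by
    intro c
    rw [Finset.prod_mul_distrib, Finset.prod_mul_distrib, Finset.prod_ite_eq',
      Finset.prod_ite_eq']
    simp
  have h2 : ∑ c : ∀ s, Fin (m s), ∏ s, (w s (c s) * ((if s = t then a s (c s) else 1) *
      (if s = t' then b s (c s) else 1))) = ∏ s, ∑ i, (w s i * ((if s = t then a s i else 1) *
      (if s = t' then b s i else 1))) := by
    rw [Finset.prod_univ_sum]
    rw [Fintype.piFinset_univ]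
  have h3 : ∀ s, ∑ i, (w s i * ((if s = t then a s i else 1) *
      (if s = t' then b s i else 1))) = (if s = t then ∑ i, w s i * a s i else 1) *
      (if s = t' then ∑ i, w s i * b s i else 1) := by
    intro s
    by_cases h : s = t
    · have h' : s ≠ t' := fun h' => htt (h.symm.trans h')
      simp [h, htt]
    · by_cases h' : s = t'
      · simp only [if_neg h, if_pos h', one_mul]
      · simp [h, h', hsum]
  rw [Finset.sum_congr rfl fun c _ => h1 c, h2, Finset.prod_congr rfl fun s _ => h3 s,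
    Finset.prod_mul_distrib, Finset.prod_ite_eq', Finset.prod_ite_eq']
  simp

theorem select {T : Type} [Fintype T] (C : T → T → Prop) (hC : ∀ t, ¬ C t t) (F : Finset Γ)
    (m : T → ℕ) (w : ∀ t, Fin (m t) → ℝ) (P : ∀ t, Fin (m t) → Set Γ)
    (hw : ∀ t i, 0 ≤ w t i) (hsum : ∀ t, ∑ i, w t i = 1) (hfin : ∀ t i, (P t i).Finite) (δ : ℝ)
    (hδ : ∀ t t', C t t' → ∑ f ∈ F, ∑' z, (∑ i, (P t i).indicator (fun _ => w t i) z) *
      (∑ j, (P t' j).indicator (fun _ => w t' j) (z * f)) ≤ δ)
    (hcard : (Fintype.card T : ℝ) ^ 2 * δ < 1) (hδ0 : 0 ≤ δ) :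
    ∃ c : ∀ t, Fin (m t), ∀ t t', C t t' → ∀ x ∈ P t (c t), ∀ y ∈ P t' (c t'), x⁻¹ * y ∉ F := by
  classical
  -- a finite set carrying everything
  have hZfin : (⋃ t, ⋃ i, P t i).Finite := Set.finite_iUnion fun t => Set.finite_iUnion fun i =>
    hfin t i
  set Z : Finset Γ := hZfin.toFinset with hZ
  have hPZ : ∀ t i, P t i ⊆ Z := by
    intro t i z hz
    rw [hZ, Set.Finite.coe_toFinset]
    exact Set.mem_iUnion.2 ⟨t, Set.mem_iUnion.2 ⟨i, hz⟩⟩
  set χ : ∀ t, Fin (m t) → Γ → ℝ := fun t i => (P t i).indicator (fun _ => (1 : ℝ)) with hχ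
  have hχ0 : ∀ t i z, 0 ≤ χ t i z := fun t i z => Set.indicator_nonneg (fun _ _ => zero_le_one) _
  have hA : ∀ t z, ∑ i, (P t i).indicator (fun _ => w t i) z = ∑ i, w t i * χ t i z := by
    intro t z
    refine Finset.sum_congr rfl fun i _ => ?_
    by_cases hz : z ∈ P t i <;> simp [hχ, hz]
  set W : (∀ t, Fin (m t)) → ℝ := fun c => ∏ s, w s (c s) with hW
  have hW0 : ∀ c, 0 ≤ W c := fun c => Finset.prod_nonneg fun s _ => hw s _
  have hW1 : ∑ c, W c = 1 := by
    have := Finset.prod_univ_sum (fun t => (Finset.univ : Finset (Fin (m t)))) (fun t i => w t i)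
    rw [Fintype.piFinset_univ] at this
    rw [hW, ← this]
    exact Finset.prod_eq_one fun t _ => hsum t
  set X : (∀ t, Fin (m t)) → ℝ := fun c => ∑ t, ∑ t', if C t t' then
    ∑ f ∈ F, ∑ z ∈ Z, χ t (c t) z * χ t' (c t') (z * f) else 0 with hX
  have hEX : ∑ c, W c * X c ≤ (Fintype.card T : ℝ) ^ 2 * δ := by
    have h1 : ∀ c, W c * X c = ∑ t, ∑ t', if C t t' then
        ∑ f ∈ F, ∑ z ∈ Z, W c * (χ t (c t) z * χ t' (c t') (z * f)) else 0 := by
      intro c
      rw [hX, Finset.mul_sum]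
      refine Finset.sum_congr rfl fun t _ => ?_
      rw [Finset.mul_sum]
      refine Finset.sum_congr rfl fun t' _ => ?_
      by_cases h : C t t'
      · simp only [if_pos h]
        rw [Finset.mul_sum]
        refine Finset.sum_congr rfl fun f _ => ?_
        rw [Finset.mul_sum]
      · simp only [if_neg h, mul_zero]
    rw [Finset.sum_congr rfl fun c _ => h1 c, Finset.sum_comm]
    have h2 : ∀ t, ∑ c, ∑ t', (if C t t' then
        ∑ f ∈ F, ∑ z ∈ Z, W c * (χ t (c t) z * χ t' (c t') (z * f)) else 0) ≤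
        ∑ t' : T, δ := by
      intro t
      rw [Finset.sum_comm]
      refine Finset.sum_le_sum fun t' _ => ?_
      by_cases h : C t t'
      · simp only [if_pos h]
        have htt : t ≠ t' := fun he => hC t (by rw [← he] at h; exact h)
        refine le_trans (le_of_eq ?_) (hδ t t' h)
        rw [Finset.sum_comm]
        refine Finset.sum_congr rfl fun f _ => ?_
        rw [Finset.sum_comm]
        rw [tsum_eq_sum (s := Z)]
        · refine Finset.sum_congr rfl fun z _ => ?_
          rw [hA, hA]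
          exact lf3_indep m w (fun s i => χ s i z) (fun s i => χ s i (z * f)) hsum t t' htt
        · intro z hz
          have : ∑ i, (P t i).indicator (fun _ => w t i) z = 0 := by
            refine Finset.sum_eq_zero fun i _ => ?_
            exact Set.indicator_of_notMem (fun hz' => hz (hPZ t i hz')) _
          rw [this, zero_mul]
      · simp only [if_neg h, Finset.sum_const_zero]
        exact hδ0
    refine (Finset.sum_le_sum fun t _ => h2 t).trans (le_of_eq ?_)
    simp [pow_two, mul_assoc]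
  -- a good choice
  obtain ⟨c, hc⟩ : ∃ c, X c < 1 := by
    by_contra hcon
    push Not at hcon
    have h1 : (1 : ℝ) ≤ ∑ c, W c * X c := by
      calc (1 : ℝ) = ∑ c, W c := hW1.symm
        _ ≤ ∑ c, W c * X c := Finset.sum_le_sum fun c _ => by nlinarith [hW0 c, hcon c]
    linarith
  refine ⟨c, fun t t' htt x hx y hy hxy => ?_⟩
  have h1 : (1 : ℝ) ≤ X c := by
    have hterm : ∀ t t', 0 ≤ (if C t t' then
        ∑ f ∈ F, ∑ z ∈ Z, χ t (c t) z * χ t' (c t') (z * f) else 0) := by
      intro t t'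
      split_ifs
      · exact Finset.sum_nonneg fun f _ => Finset.sum_nonneg fun z _ =>
          mul_nonneg (hχ0 _ _ _) (hχ0 _ _ _)
      · exact le_rfl
    calc (1 : ℝ) = χ t (c t) x * χ t' (c t') (x * (x⁻¹ * y)) := by
          simp [hχ, hx, hy]
      _ ≤ ∑ z ∈ Z, χ t (c t) z * χ t' (c t') (z * (x⁻¹ * y)) :=
          Finset.single_le_sum (f := fun z => χ t (c t) z * χ t' (c t') (z * (x⁻¹ * y)))
            (fun z _ => mul_nonneg (hχ0 _ _ _) (hχ0 _ _ _)) (hPZ t _ hx)
      _ ≤ ∑ f ∈ F, ∑ z ∈ Z, χ t (c t) z * χ t' (c t') (z * f) :=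
          Finset.single_le_sum (f := fun f => ∑ z ∈ Z, χ t (c t) z * χ t' (c t') (z * f))
            (fun f _ => Finset.sum_nonneg fun z _ => mul_nonneg (hχ0 _ _ _) (hχ0 _ _ _)) hxy
      _ = (if C t t' then
        ∑ f ∈ F, ∑ z ∈ Z, χ t (c t) z * χ t' (c t') (z * f) else 0) := by rw [if_pos htt]
      _ ≤ ∑ t', (if C t t' then
        ∑ f ∈ F, ∑ z ∈ Z, χ t (c t) z * χ t' (c t') (z * f) else 0) :=
          Finset.single_le_sum (f := fun t' => if C t t' then
            ∑ f ∈ F, ∑ z ∈ Z, χ t (c t) z * χ t' (c t') (z * f) else 0)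
            (fun t' _ => hterm t t') (Finset.mem_univ t')
      _ ≤ X c := Finset.single_le_sum (f := fun t => ∑ t', if C t t' then
            ∑ f ∈ F, ∑ z ∈ Z, χ t (c t) z * χ t' (c t') (z * f) else 0)
            (fun t _ => Finset.sum_nonneg fun t' _ => hterm t t') (Finset.mem_univ t)
  linarith

end lf3

end Pool.Agent.Lib.MP_0f7bfe_al
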