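import Pool.Agent.Lib.MP_0f7bfe_al.LFDefs

open scoped Pointwise

namespace Pool.Agent.Lib.MP_0f7bfe_al

universe u v

section lf4
variable {Γ : Type u} [Group Γ]

omit [Group Γ] in
theorem lf4_cs (p q : Γ → ℝ) (hp0 : ∀ z, 0 ≤ p z) (hq0 : ∀ z, 0 ≤ q z)
    (hp : Summable fun z => p z ^ 2) (hq : Summable fun z => q z ^ 2) :
    Summable (fun z => p z * q z) ∧
      ∑' z, p z * q z ≤ Real.sqrt (∑' z, p z ^ 2) * Real.sqrt (∑' z, q z ^ 2) := by
  have h2 : (2 : ℝ).HolderConjugate 2 := by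
    rw [Real.holderConjugate_iff]; norm_num
  have := Real.inner_le_Lp_mul_Lq_tsum_of_nonneg h2 hp0 hq0
    (by simpa using hp) (by simpa using hq)
  have hsm := Real.summable_mul_of_Lp_Lq_of_nonneg h2 hp0 hq0
    (by simpa using hp) (by simpa using hq)
  refine ⟨hsm, this.trans ?_⟩
  rw [← Real.sqrt_eq_rpow, ← Real.sqrt_eq_rpow]
  simp only [Real.rpow_two]
  exact le_rfl

theorem decorr (n : Γ → ℝ) (hn : Summable fun g => n g ^ 2) (f : Γ) (δ : ℝ) (hδ : 0 < δ) :
    ∃ D : Set Γ, D.Finite ∧ ∀ g ∉ D, Summable (fun u => |n u| * |n (g * u * f)|) ∧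
      ∑' u, |n u| * |n (g * u * f)| ≤ δ := by
  classical
  set N : ℝ := ∑' g, n g ^ 2 with hN
  have hN0 : 0 ≤ N := tsum_nonneg fun g => sq_nonneg _
  set κ : ℝ := (δ / (2 * (Real.sqrt N + 1))) ^ 2 with hκ
  have hκ0 : 0 < κ := by
    have := Real.sqrt_nonneg N
    positivity
  have hκs : Real.sqrt κ * Real.sqrt N ≤ δ / 2 := by
    have h0 := Real.sqrt_nonneg N
    rw [hκ, Real.sqrt_sq (by positivity), div_mul_eq_mul_div, div_le_div_iff₀ (by positivity)
      (by positivity)]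
    nlinarith
  -- finite set carrying most of the mass
  obtain ⟨A, hA⟩ : ∃ A : Finset Γ, ∑' g : {g // g ∉ A}, n g ^ 2 < κ := by
    have := tendsto_tsum_compl_atTop_zero (fun g => n g ^ 2)
    exact ((this.eventually (gt_mem_nhds hκ0)).exists)
  set t : Γ → ℝ := fun g => if g ∈ A then 0 else |n g| with ht
  have ht0 : ∀ g, 0 ≤ t g := by
    intro g; simp only [ht]; split_ifs
    · exact le_rfl
    · exact abs_nonneg _
  have htle : ∀ g, t g ≤ |n g| := by
    intro g; simp only [ht]; split_ifs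
    · exact abs_nonneg _
    · exact le_rfl
  have hn' : Summable fun g => |n g| ^ 2 := by simpa using hn
  have hts : Summable fun g => t g ^ 2 :=
    Summable.of_nonneg_of_le (fun g => sq_nonneg _)
      (fun g => pow_le_pow_left₀ (ht0 g) (htle g) 2) hn'
  have htsum : ∑' g, t g ^ 2 ≤ κ := by
    refine le_trans (le_of_eq ?_) hA.le
    have : (fun g => t g ^ 2) = Set.indicator {g | g ∉ A} (fun g => n g ^ 2) := by
      funext g
      simp only [ht, Set.indicator, Set.mem_ofPred_eq]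
      by_cases hg : g ∈ A <;> simp [hg]
    rw [this, ← tsum_subtype]
    rfl
  have htr : ∀ g : Γ, (Summable fun u => |n (g * u * f)| ^ 2) ∧
      ∑' u, |n (g * u * f)| ^ 2 = N := by
    intro g
    set e : Γ ≃ Γ := (Equiv.mulLeft g).trans (Equiv.mulRight f) with he
    have h1 : (fun u => |n (g * u * f)| ^ 2) = (fun u => |n u| ^ 2) ∘ e := by
      funext u; simp [he]
    rw [h1]
    refine ⟨e.summable_iff.2 hn', ?_⟩
    rw [Function.comp_def, e.tsum_eq (fun u => |n u| ^ 2)]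
    simp [hN]
  have htr' : ∀ g : Γ, (Summable fun u => t (g * u * f) ^ 2) ∧
      ∑' u, t (g * u * f) ^ 2 ≤ κ := by
    intro g
    set e : Γ ≃ Γ := (Equiv.mulLeft g).trans (Equiv.mulRight f) with he
    have h1 : (fun u => t (g * u * f) ^ 2) = (fun u => t u ^ 2) ∘ e := by
      funext u; simp [he]
    rw [h1]
    refine ⟨e.summable_iff.2 hts, ?_⟩
    rw [Function.comp_def, e.tsum_eq (fun u => t u ^ 2)]
    exact htsum
  refine ⟨(fun p : Γ × Γ => p.1 * f⁻¹ * p.2⁻¹) '' ((A : Set Γ) ×ˢ (A : Set Γ)),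
    (A.finite_toSet.prod A.finite_toSet).image _, ?_⟩
  intro g hg
  have hs := (lf4_cs (fun u => |n u|) (fun u => |n (g * u * f)|) (fun u => abs_nonneg _)
    (fun u => abs_nonneg _) hn' (htr g).1).1
  refine ⟨hs, ?_⟩
  obtain ⟨s1, b1⟩ := lf4_cs t (fun u => |n (g * u * f)|) ht0
    (fun u => abs_nonneg _) hts (htr g).1
  obtain ⟨s2, b2⟩ := lf4_cs (fun u => |n u|) (fun u => t (g * u * f)) (fun u => abs_nonneg _)
    (fun u => ht0 _) hn' (htr' g).1
  have hle : ∀ u, |n u| * |n (g * u * f)| ≤ t u * |n (g * u * f)| + |n u| * t (g * u * f) := by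
    intro u
    by_cases hu : u ∈ A
    · by_cases hu' : g * u * f ∈ A
      · exfalso
        exact hg ⟨(g * u * f, u), ⟨hu', hu⟩, by simp only; group⟩
      · have : t (g * u * f) = |n (g * u * f)| := by simp [ht, hu']
        rw [this]
        have := mul_nonneg (ht0 u) (abs_nonneg (n (g * u * f)))
        linarith
    · have : t u = |n u| := by simp [ht, hu]
      rw [this]
      have := mul_nonneg (abs_nonneg (n u)) (ht0 (g * u * f))
      linarith
  refine (hs.tsum_le_tsum hle (s1.add s2)).trans ?_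
  rw [s1.tsum_add s2]
  have h3 : Real.sqrt (∑' z, t z ^ 2) ≤ Real.sqrt κ := Real.sqrt_le_sqrt htsum
  have h4 : Real.sqrt (∑' z, t (g * z * f) ^ 2) ≤ Real.sqrt κ := Real.sqrt_le_sqrt (htr' g).2
  have h5 : Real.sqrt (∑' z, |n z| ^ 2) = Real.sqrt N := by rw [hN]; simp
  have h6 : Real.sqrt (∑' z, |n (g * z * f)| ^ 2) = Real.sqrt N := by rw [(htr g).2]
  rw [h6] at b1
  rw [h5] at b2
  have h7 := mul_le_mul_of_nonneg_right h3 (Real.sqrt_nonneg N)
  have h8 := mul_le_mul_of_nonneg_left h4 (Real.sqrt_nonneg N)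
  nlinarith [mul_comm (Real.sqrt N) (Real.sqrt κ)]

end lf4

end Pool.Agent.Lib.MP_0f7bfe_al
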