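import Pool.Agent.Lib.MP_0f7bfe_al.LFDefs

open scoped Pointwise

namespace Pool.Agent.Lib.MP_0f7bfe_al

universe u v

section lf6
variable {Γ : Type u} [Group Γ]

theorem exists_far_points [Infinite Γ] (D : Set Γ) (hD : D.Finite) (J : Type) [Fintype J] :
    ∃ x : J → Γ, ∀ i j, i ≠ j → (x i)⁻¹ * x j ∉ D := by
  classical
  obtain ⟨f, -, hf⟩ := exists_seq_of_forall_finset_exists (fun _ : Γ => True)
    (fun x y => x⁻¹ * y ∉ D ∧ y⁻¹ * x ∉ D) (by
      intro s _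
      have hfin : (⋃ x ∈ s, ((fun d => x * d) '' D ∪ (fun d => x * d⁻¹) '' D)).Finite :=
        s.finite_toSet.biUnion fun x _ => (hD.image _).union (hD.image _)
      obtain ⟨y, hy⟩ := hfin.exists_notMem
      refine ⟨y, trivial, fun x hx => ⟨fun h => hy ?_, fun h => hy ?_⟩⟩
      · exact Set.mem_biUnion hx (Or.inl ⟨_, h, by simp⟩)
      · exact Set.mem_biUnion hx (Or.inr ⟨_, h, by simp⟩))
  set e := Fintype.equivFin J
  refine ⟨fun j => f (e j), fun i j hij => ?_⟩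
  have hne : (e i : ℕ) ≠ e j := fun h => hij (e.injective (Fin.ext h))
  rcases lt_or_gt_of_ne hne with h | h
  · exact (hf _ _ h).1
  · exact (hf _ _ h).2

theorem summable_of_growth (S : Finset Γ) (c ε : ℝ) (hc : 0 < c) (hε : 0 < ε)
    (h : ∀ r : ℕ, 1 ≤ r → c * (r : ℝ) ^ (2 + ε) ≤ growth S r) :
    Summable fun k : ℕ => (2 : ℝ) ^ k / Real.sqrt (growth S (2 ^ k)) := by
  set q : ℝ := (2 : ℝ) ^ (-(ε / 2)) with hq
  have hq1 : q < 1 := by
    rw [hq]
    exact Real.rpow_lt_one_of_one_lt_of_neg (by norm_num) (by linarith)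
  have hq0 : 0 < q := Real.rpow_pos_of_pos (by norm_num) _
  have hs : Summable fun k : ℕ => (1 / Real.sqrt c) * q ^ k :=
    (summable_geometric_of_lt_one hq0.le hq1).mul_left _
  refine Summable.of_nonneg_of_le (fun k => by positivity) (fun k => ?_) hs
  have hk := h (2 ^ k) Nat.one_le_two_pow
  have hcs : 0 < Real.sqrt c := Real.sqrt_pos.2 hc
  have h2k : (0 : ℝ) < (2 : ℝ) ^ k := by positivity
  have e1 : (((2 ^ k : ℕ) : ℝ)) ^ (2 + ε) = (((2 : ℝ) ^ k) ^ (1 + ε / 2)) ^ 2 := by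
    rw [Nat.cast_pow, Nat.cast_ofNat, ← Real.rpow_natCast (((2 : ℝ) ^ k) ^ (1 + ε / 2)) 2,
      ← Real.rpow_mul h2k.le]
    congr 1
    push_cast
    ring
  have h3 : Real.sqrt c * ((2 : ℝ) ^ k) ^ (1 + ε / 2) ≤ Real.sqrt (growth S (2 ^ k)) := by
    apply Real.le_sqrt_of_sq_le
    rw [mul_pow, Real.sq_sqrt hc.le, ← e1]
    exact hk
  have h4 : 0 < Real.sqrt c * ((2 : ℝ) ^ k) ^ (1 + ε / 2) :=
    mul_pos hcs (Real.rpow_pos_of_pos h2k _)
  rw [div_le_iff₀ (lt_of_lt_of_le h4 h3)]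
  have h5 : (2 : ℝ) ^ k = (1 / Real.sqrt c * q ^ k) * (Real.sqrt c * ((2 : ℝ) ^ k) ^ (1 + ε / 2)) := by
    have e2 : q ^ k * ((2 : ℝ) ^ k) ^ (1 + ε / 2) = (2 : ℝ) ^ k := by
      rw [hq, ← Real.rpow_natCast ((2 : ℝ) ^ (-(ε / 2))) k, ← Real.rpow_natCast 2 k,
        ← Real.rpow_mul (by norm_num), ← Real.rpow_mul (by norm_num), ← Real.rpow_add (by norm_num)]
      congr 1
      ring
    calc (2 : ℝ) ^ k = q ^ k * ((2 : ℝ) ^ k) ^ (1 + ε / 2) := e2.symm
      _ = _ := by field_simp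
  calc (2 : ℝ) ^ k = (1 / Real.sqrt c * q ^ k) * (Real.sqrt c * ((2 : ℝ) ^ k) ^ (1 + ε / 2)) := h5
    _ ≤ (1 / Real.sqrt c * q ^ k) * Real.sqrt (growth S (2 ^ k)) :=
        mul_le_mul_of_nonneg_left h3 (by positivity)

theorem infinite_of_flow (S : Finset Γ) (h : FlowToInfinity S) : Infinite Γ := by
  by_contra hinf
  rw [not_infinite_iff_finite] at hinf
  have := Fintype.ofFinite Γ
  obtain ⟨θ, -, hd⟩ := h
  have h1 : ∑ g, dvg S θ g = 0 := by
    simp only [dvg]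
    rw [Finset.sum_comm]
    apply Finset.sum_eq_zero
    intro s _
    rw [Finset.sum_sub_distrib, sub_eq_zero]
    exact (Equiv.sum_comp (Equiv.mulRight (s : Γ)⁻¹) (fun g => θ (g, s))).symm
  have h2 : ∑ g, dlt (1 : Γ) g = 1 := by
    rw [Finset.sum_eq_single (1 : Γ)]
    · exact dlt_self 1
    · intro b _ hb; exact dlt_ne hb
    · intro h; exact absurd (Finset.mem_univ _) h
  rw [Finset.sum_congr rfl fun g _ => hd g, h2] at h1
  exact one_ne_zero h1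

end lf6

end Pool.Agent.Lib.MP_0f7bfe_al
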