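import Pool.Agent.Lib.MP_0f7bfe_al.LF2
import Pool.Agent.Lib.MP_0f7bfe_al.LF3
import Pool.Agent.Lib.MP_0f7bfe_al.LF4
import Pool.Agent.Lib.MP_0f7bfe_al.LF5b
import Pool.Agent.Lib.MP_0f7bfe_al.LF6

open scoped Pointwise

namespace Pool.Agent.Lib.MP_0f7bfe_al

universe u v

section lf7
variable {Γ : Type u} [Group Γ]

/-- Cauchy-Schwarz -/
theorem lf7_cs (p q : Γ → ℝ) (hp0 : ∀ z, 0 ≤ p z) (hq0 : ∀ z, 0 ≤ q z)
    (hp : Summable fun z => p z ^ 2) (hq : Summable fun z => q z ^ 2) (P Q : ℝ)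
    (hP : ∑' z, p z ^ 2 ≤ P) (hQ : ∑' z, q z ^ 2 ≤ Q) (f : Γ) :
    Summable (fun z => p z * q (z * f)) ∧
      ∑' z, p z * q (z * f) ≤ Real.sqrt P * Real.sqrt Q := by
  have hq' : Summable fun z => q (z * f) ^ 2 := (Equiv.mulRight f).summable_iff.2 hq
  have hQ' : ∑' z, q (z * f) ^ 2 = ∑' z, q z ^ 2 := (Equiv.mulRight f).tsum_eq (fun z => q z ^ 2)
  have h2 : (2 : ℝ).HolderConjugate 2 := by
    rw [Real.holderConjugate_iff]; norm_num
  have := Real.inner_le_Lp_mul_Lq_tsum_of_nonneg h2 hp0 (fun z => hq0 (z * f))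
    (by simpa using hp) (by simpa using hq')
  have hsm := Real.summable_mul_of_Lp_Lq_of_nonneg h2 hp0 (fun z => hq0 (z * f))
    (by simpa using hp) (by simpa using hq')
  refine ⟨hsm, this.trans ?_⟩
  rw [← Real.sqrt_eq_rpow, ← Real.sqrt_eq_rpow]
  simp only [Real.rpow_two]
  rw [hQ']
  exact mul_le_mul (Real.sqrt_le_sqrt hP) (Real.sqrt_le_sqrt hQ) (Real.sqrt_nonneg _)
    (Real.sqrt_nonneg _)

omit [Group Γ] in
theorem lf7_sum2 (p q : Γ → ℝ) (hp : Summable fun z => p z ^ 2) (hq : Summable fun z => q z ^ 2)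
    (P Q : ℝ) (hP : ∑' z, p z ^ 2 ≤ P) (hQ : ∑' z, q z ^ 2 ≤ Q) :
    Summable (fun z => (p z + q z) ^ 2) ∧ ∑' z, (p z + q z) ^ 2 ≤ 2 * P + 2 * Q := by
  have hb : ∀ z, (p z + q z) ^ 2 ≤ 2 * p z ^ 2 + 2 * q z ^ 2 := by
    intro z; nlinarith [sq_nonneg (p z - q z)]
  have hs : Summable fun z => 2 * p z ^ 2 + 2 * q z ^ 2 := (hp.mul_left 2).add (hq.mul_left 2)
  have h1 : Summable (fun z => (p z + q z) ^ 2) :=
    Summable.of_nonneg_of_le (fun z => sq_nonneg _) hb hs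
  refine ⟨h1, (h1.tsum_le_tsum hb hs).trans ?_⟩
  rw [(hp.mul_left 2).tsum_add (hq.mul_left 2), tsum_mul_left, tsum_mul_left]
  linarith

/-- the correlation of two pieces -/
theorem lf7_corr (n : Γ → ℝ) (hn0 : ∀ z, 0 ≤ n z) (hn : Summable fun z => n z ^ 2) (A : ℝ)
    (hA : ∑' z, n z ^ 2 ≤ A) (f : Γ) (δ : ℝ) (D : Set Γ)
    (hD : ∀ g ∉ D, Summable (fun u => |n u| * |n (g * u * f)|) ∧
      ∑' u, |n u| * |n (g * u * f)| ≤ δ)
    (a b c d : Γ) (hac : c⁻¹ * a ∉ D) (had : d⁻¹ * a ∉ D) (hbc : c⁻¹ * b ∉ D)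
    (hbd : d⁻¹ * b ∉ D) (E : ℝ) (e₁ e₂ : Γ → ℝ) (he₁0 : ∀ z, 0 ≤ e₁ z) (he₂0 : ∀ z, 0 ≤ e₂ z)
    (he₁ : Summable fun z => e₁ z ^ 2) (he₂ : Summable fun z => e₂ z ^ 2)
    (hE₁ : ∑' z, e₁ z ^ 2 ≤ E) (hE₂ : ∑' z, e₂ z ^ 2 ≤ E) (hE1 : E ≤ 1) (p q : Γ → ℝ)
    (hp0 : ∀ z, 0 ≤ p z) (hq0 : ∀ z, 0 ≤ q z)
    (hp : ∀ z, p z ≤ (n (a⁻¹ * z) + n (b⁻¹ * z)) + e₁ z)
    (hq : ∀ z, q z ≤ (n (c⁻¹ * z) + n (d⁻¹ * z)) + e₂ z) :
    ∑' z, p z * q (z * f) ≤ 4 * δ + Real.sqrt E * (Real.sqrt (4 * A) + Real.sqrt (8 * A + 2)) := by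
  have htr : ∀ a : Γ, (Summable fun z => n (a⁻¹ * z) ^ 2) ∧ ∑' z, n (a⁻¹ * z) ^ 2 ≤ A := by
    intro a
    refine ⟨(Equiv.mulLeft a⁻¹).summable_iff.2 hn, ?_⟩
    have := (Equiv.mulLeft a⁻¹).tsum_eq (fun z => n z ^ 2)
    simp only [Equiv.coe_mulLeft] at this
    rw [this]; exact hA
  -- basic correlations
  have hcor : ∀ a c : Γ, c⁻¹ * a ∉ D → Summable (fun z => n (a⁻¹ * z) * n (c⁻¹ * (z * f))) ∧
      ∑' z, n (a⁻¹ * z) * n (c⁻¹ * (z * f)) ≤ δ := by
    intro a c hg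
    obtain ⟨h1, h2⟩ := hD _ hg
    have he : (fun z => n (a⁻¹ * z) * n (c⁻¹ * (z * f))) =
        (fun u => |n u| * |n (c⁻¹ * a * u * f)|) ∘ (Equiv.mulLeft a⁻¹) := by
      funext z
      simp only [Function.comp, Equiv.coe_mulLeft, abs_of_nonneg (hn0 _)]
      congr 2
      group
    rw [he]
    exact ⟨(Equiv.mulLeft a⁻¹).summable_iff.2 h1, by
      rw [Function.comp_def, (Equiv.mulLeft a⁻¹).tsum_eq (fun u => |n u| * |n (c⁻¹ * a * u * f)|)]
      exact h2⟩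
  set p' : Γ → ℝ := fun z => n (a⁻¹ * z) + n (b⁻¹ * z) with hp'
  set q' : Γ → ℝ := fun z => n (c⁻¹ * z) + n (d⁻¹ * z) with hq'
  have hp'0 : ∀ z, 0 ≤ p' z := fun z => add_nonneg (hn0 _) (hn0 _)
  have hq'0 : ∀ z, 0 ≤ q' z := fun z => add_nonneg (hn0 _) (hn0 _)
  obtain ⟨sp', bp'⟩ := lf7_sum2 _ _ (htr a).1 (htr b).1 A A (htr a).2 (htr b).2
  obtain ⟨sq', bq'⟩ := lf7_sum2 _ _ (htr c).1 (htr d).1 A A (htr c).2 (htr d).2
  obtain ⟨sq, bq⟩ := lf7_sum2 _ _ sq' he₂ _ _ bq' hE₂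
  -- main term
  have hmain : Summable (fun z => p' z * q' (z * f)) ∧ ∑' z, p' z * q' (z * f) ≤ 4 * δ := by
    have he : (fun z => p' z * q' (z * f)) = fun z =>
        (n (a⁻¹ * z) * n (c⁻¹ * (z * f)) + n (a⁻¹ * z) * n (d⁻¹ * (z * f))) +
        (n (b⁻¹ * z) * n (c⁻¹ * (z * f)) + n (b⁻¹ * z) * n (d⁻¹ * (z * f))) := by
      funext z; simp only [hp', hq']; ring
    have s1 := hcor a c hac
    have s2 := hcor a d had
    have s3 := hcor b c hbc
    have s4 := hcor b d hbd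
    refine ⟨by rw [he]; exact (s1.1.add s2.1).add (s3.1.add s4.1), ?_⟩
    rw [he, (s1.1.add s2.1).tsum_add (s3.1.add s4.1), s1.1.tsum_add s2.1, s3.1.tsum_add s4.1]
    linarith [s1.2, s2.2, s3.2, s4.2]
  obtain ⟨s5, b5⟩ := lf7_cs p' e₂ hp'0 he₂0 sp' he₂ _ _ bp' hE₂ f
  obtain ⟨s6, b6⟩ := lf7_cs e₁ (fun z => q' z + e₂ z) he₁0
    (fun z => add_nonneg (hq'0 z) (he₂0 z)) he₁ sq _ _ hE₁ bq f
  have hle : ∀ z, p z * q (z * f) ≤ (p' z * q' (z * f) + p' z * e₂ (z * f)) +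
      e₁ z * (q' (z * f) + e₂ (z * f)) := by
    intro z
    calc p z * q (z * f) ≤ (p' z + e₁ z) * (q' (z * f) + e₂ (z * f)) :=
          mul_le_mul (hp z) (hq _) (hq0 _) (add_nonneg (hp'0 z) (he₁0 z))
      _ = _ := by ring
  have hs : Summable fun z => (p' z * q' (z * f) + p' z * e₂ (z * f)) +
      e₁ z * (q' (z * f) + e₂ (z * f)) := (hmain.1.add s5).add s6
  have hsp : Summable fun z => p z * q (z * f) :=
    Summable.of_nonneg_of_le (fun z => mul_nonneg (hp0 _) (hq0 _)) hle hs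
  refine (hsp.tsum_le_tsum hle hs).trans ?_
  rw [(hmain.1.add s5).tsum_add s6, hmain.1.tsum_add s5]
  have hA0 : 0 ≤ A := (tsum_nonneg fun z => sq_nonneg (n z)).trans hA
  have hE0 : 0 ≤ E := (tsum_nonneg fun z => sq_nonneg (e₁ z)).trans hE₁
  have h7 : Real.sqrt (2 * A + 2 * A) * Real.sqrt E = Real.sqrt E * Real.sqrt (4 * A) := by
    rw [mul_comm]; congr 2; ring
  have h8 : Real.sqrt E * Real.sqrt (2 * (2 * A + 2 * A) + 2 * E) ≤
      Real.sqrt E * Real.sqrt (8 * A + 2) :=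
    mul_le_mul_of_nonneg_left (Real.sqrt_le_sqrt (by linarith)) (Real.sqrt_nonneg _)
  rw [mul_add]
  linarith [hmain.2]

theorem nrm_sub_le (S : Finset Γ) (θ ψ : Γ × S → ℝ) (g : Γ) :
    nrm S (fun e => θ e - ψ e) g ≤ nrm S θ g + nrm S ψ g := by
  have h := nrm_add_le S θ (fun e => - ψ e) g
  have h2 : nrm S (fun e => - ψ e) g = nrm S ψ g := by simp [nrm]
  rw [h2] at h
  simpa [sub_eq_add_neg] using h

theorem dlt_translate (a b g : Γ) : dlt b (a⁻¹ * g) = dlt (a * b) g := by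
  by_cases h : g = a * b
  · subst h
    rw [inv_mul_cancel_left, dlt_self, dlt_self]
  · rw [dlt_ne h, dlt_ne]
    rintro rfl
    exact h (by simp)

/-- LF-7 -/
theorem farPaths_of_flow (S : Finset Γ) (hgen : Subgroup.closure (S : Set Γ) = ⊤) [Infinite Γ]
    (h1 : FlowToInfinity S) (h2 : CycleApprox S) : FarPaths S := by
  classical
  intro F hF J T _ _ src tgt hst
  obtain ⟨θ, hθ, hθd⟩ := h1
  set n : Γ → ℝ := nrm S θ with hn
  have hn0 : ∀ z, 0 ≤ n z := nrm_nonneg S θ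
  have hns : Summable fun z => n z ^ 2 := (nrm_sq_summable S θ hθ).1
  set A : ℝ := ∑' z, n z ^ 2 with hA
  have hA0 : 0 ≤ A := tsum_nonneg fun z => sq_nonneg (n z)
  set F' : Finset Γ := hF.toFinset with hF'
  set M : ℝ := (Fintype.card T : ℝ) with hM
  set δ₀ : ℝ := 1 / (M ^ 2 + 1) with hδ₀
  have hM0 : (0 : ℝ) ≤ M := Nat.cast_nonneg _
  have hδ₀0 : 0 < δ₀ := by positivity
  set δ₁ : ℝ := δ₀ / (F'.card + 1) with hδ₁
  have hδ₁0 : 0 < δ₁ := by positivity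
  set K : ℝ := Real.sqrt (4 * A) + Real.sqrt (8 * A + 2) with hK
  have hK0 : 0 < K := by
    have : 0 < Real.sqrt (8 * A + 2) := Real.sqrt_pos.2 (by linarith)
    have := Real.sqrt_nonneg (4 * A)
    linarith
  set E : ℝ := min 1 ((δ₁ / (2 * K)) ^ 2) with hE
  have hE0 : 0 < E := lt_min one_pos (by positivity)
  have hE1 : E ≤ 1 := min_le_left _ _
  have hEK : Real.sqrt E * K ≤ δ₁ / 2 := by
    have h3 : Real.sqrt E ≤ δ₁ / (2 * K) := by
      rw [Real.sqrt_le_left (by positivity)]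
      exact min_le_right _ _
    calc Real.sqrt E * K ≤ δ₁ / (2 * K) * K := mul_le_mul_of_nonneg_right h3 hK0.le
      _ = δ₁ / 2 := by field_simp
  set η : ℝ := E / (4 * S.card + 1) with hη
  have hη0 : 0 < η := by positivity
  have hηE : 4 * S.card * η ≤ E := by
    rw [hη, mul_div_assoc', div_le_iff₀ (by positivity)]
    nlinarith
  -- the bad set
  have hdec := fun f : Γ => decorr n hns f (δ₁ / 8) (by positivity)
  choose D hDf hD using hdec
  have hDfin : (({1} ∪ F) ∪ ⋃ f ∈ F', D f).Finite :=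
    ((Set.finite_singleton 1).union hF).union (F'.finite_toSet.biUnion fun f _ => hDf f)
  obtain ⟨x, hx⟩ := exists_far_points (({1} ∪ F) ∪ ⋃ f ∈ F', D f) hDfin J
  have hxD : ∀ i j, i ≠ j → ∀ f ∈ F', (x i)⁻¹ * x j ∉ D f := by
    intro i j hij f hf hmem
    exact hx i j hij (Or.inr (Set.mem_biUnion hf hmem))
  have hxne : ∀ i j, i ≠ j → x i ≠ x j := by
    intro i j hij he
    exact hx i j hij (Or.inl (Or.inl (by simp [he])))
  -- the flows
  have hflow : ∀ t : T, ∃ φ : Γ × S → ℝ, φ.support.Finite ∧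
      (∀ g, dvg S φ g = dlt (x (src t)) g - dlt (x (tgt t)) g) ∧
      ∃ e : Γ → ℝ, (∀ z, 0 ≤ e z) ∧ (Summable fun z => e z ^ 2) ∧ ∑' z, e z ^ 2 ≤ E ∧
        ∀ z, nrm S φ z ≤ (n ((x (src t))⁻¹ * z) + n ((x (tgt t))⁻¹ * z)) + e z := by
    intro t
    set a := x (src t)
    set b := x (tgt t)
    obtain ⟨χ, hχs, hχd, -⟩ := path_flow S hgen (a⁻¹ * b)
    set χ' : Γ × S → ℝ := fun e => χ (a⁻¹ * e.1, e.2) with hχ'
    have hχ's : χ'.support.Finite := by
      have : χ'.support = (fun e : Γ × S => (a⁻¹ * e.1, e.2)) ⁻¹' χ.support := by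
        ext e; simp [hχ']
      rw [this]
      apply hχs.preimage
      rintro ⟨g, s⟩ - ⟨g', s'⟩ - h
      simp only [Prod.mk.injEq, mul_right_inj] at h
      exact Prod.ext h.1 h.2
    have hχ'd : ∀ g, dvg S χ' g = dlt a g - dlt b g := by
      intro g
      rw [hχ', dvg_translate, hχd, dlt_translate, dlt_translate, mul_one, mul_inv_cancel_left]
    have hθt : ∀ c : Γ, (Summable fun e : Γ × S => θ (c⁻¹ * e.1, e.2) ^ 2) := by
      intro c
      have := ((Equiv.mulLeft c⁻¹).prodCongr (Equiv.refl S)).summable_iff.2 hθ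
      exact this
    have hθtd : ∀ c g : Γ, dvg S (fun e => θ (c⁻¹ * e.1, e.2)) g = dlt c g := by
      intro c g
      rw [dvg_translate, hθd, dlt_translate, mul_one]
    set ψ : Γ × S → ℝ := fun e => (θ (a⁻¹ * e.1, e.2) - θ (b⁻¹ * e.1, e.2)) - χ' e with hψ
    have hsub : ∀ p q : Γ × S → ℝ, (Summable fun e => p e ^ 2) → (Summable fun e => q e ^ 2) →
        Summable fun e => (p e - q e) ^ 2 := by
      intro p q hp hq
      refine Summable.of_nonneg_of_le (fun z => sq_nonneg _) (fun z => ?_)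
        ((hp.mul_left 2).add (hq.mul_left 2))
      nlinarith [sq_nonneg (p z + q z)]
    have hχ'2 : Summable fun e => χ' e ^ 2 := by
      apply summable_of_hasFiniteSupport
      refine hχ's.subset ?_
      intro e he
      rw [Function.mem_support] at he ⊢
      exact fun h => he (by rw [h]; ring)
    have hψs : Summable fun e => ψ e ^ 2 := hsub _ _ (hsub _ _ (hθt a) (hθt b)) hχ'2
    have hψd : ∀ g, dvg S ψ g = 0 := by
      intro g
      rw [hψ, dvg_sub, dvg_sub, hθtd, hθtd, hχ'd, sub_self]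
    obtain ⟨c, hcs, hcd, hcη⟩ := h2 ψ hψs hψd η hη0
    have hc2 : Summable fun e => c e ^ 2 := by
      apply summable_of_hasFiniteSupport
      refine hcs.subset ?_
      intro e he
      rw [Function.mem_support] at he ⊢
      exact fun h => he (by rw [h]; ring)
    refine ⟨fun e => c e + χ' e, ?_, ?_, nrm S (fun e => ψ e - c e), nrm_nonneg _ _, ?_, ?_, ?_⟩
    · exact (hcs.union hχ's).subset (Function.support_add c χ')
    · intro g
      rw [dvg_add, hcd, hχ'd, zero_add]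
    · exact (nrm_sq_summable S _ (hsub _ _ hψs hc2)).1
    · refine (nrm_sq_summable S _ (hsub _ _ hψs hc2)).2.trans ?_
      refine le_trans ?_ hηE
      exact mul_le_mul_of_nonneg_left hcη (by positivity)
    · intro z
      have h5 : (fun e => c e + χ' e) = fun e =>
          (θ (a⁻¹ * e.1, e.2) - θ (b⁻¹ * e.1, e.2)) - (ψ e - c e) := by
        funext e; simp only [hψ]; ring
      rw [h5]
      refine (nrm_sub_le S _ _ z).trans ?_
      have h6 := nrm_sub_le S (fun e => θ (a⁻¹ * e.1, e.2)) (fun e => θ (b⁻¹ * e.1, e.2)) z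
      rw [nrm_translate, nrm_translate] at h6
      have h7 : nrm S (fun e => (fun e => θ (a⁻¹ * e.1, e.2)) e - (fun e => θ (b⁻¹ * e.1, e.2)) e) z
        = nrm S (fun e => θ (a⁻¹ * e.1, e.2) - θ (b⁻¹ * e.1, e.2)) z := rfl
      linarith
  choose φ hφs hφd e he0 hes hesum hφn using hflow
  have hdecomp := fun t => flow_decomp S (φ t) (hφs t) (x (src t)) (x (tgt t))
    (hxne _ _ (hst t)) (hφd t)
  choose m w P hw hw1 hP hPn using hdecomp
  set C : T → T → Prop := fun t t' => src t ≠ src t' ∧ src t ≠ tgt t' ∧ tgt t ≠ src t' ∧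
    tgt t ≠ tgt t' with hC
  have hsel := select C (fun t h => h.1 rfl) F' m w P hw hw1 (fun t i => (hP t i).1) δ₀ ?_ ?_
    hδ₀0.le
  · obtain ⟨c, hc⟩ := hsel
    refine ⟨x, fun t => P t (c t), ?_, ?_, ?_⟩
    · intro i j hij hmem
      exact hx i j hij (Or.inl (Or.inr hmem))
    · intro t
      exact ⟨(hP t (c t)).2.1, (hP t (c t)).2.2.1, (hP t (c t)).2.2.2⟩
    · intro t t' h1 h2 h3 h4 z hz z' hz' hmem
      exact hc t t' ⟨h1, h2, h3, h4⟩ z hz z' hz' (by rw [hF']; simpa using hmem)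
  · rintro t t' ⟨hss, hst', hts, htt⟩
    have hterm : ∀ f ∈ F', ∑' z, (∑ i, (P t i).indicator (fun _ => w t i) z) *
      (∑ j, (P t' j).indicator (fun _ => w t' j) (z * f)) ≤ δ₁ := by
      intro f hf
      have := lf7_corr n hn0 hns A le_rfl f (δ₁ / 8) (D f) (hD f) (x (src t)) (x (tgt t))
        (x (src t')) (x (tgt t')) (hxD _ _ hss.symm f hf) (hxD _ _ hst'.symm f hf)
        (hxD _ _ hts.symm f hf) (hxD _ _ htt.symm f hf) E (e t) (e t') (he0 t) (he0 t')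
        (hes t) (hes t') (hesum t) (hesum t') hE1
        (fun z => ∑ i, (P t i).indicator (fun _ => w t i) z)
        (fun z => ∑ i, (P t' i).indicator (fun _ => w t' i) z)
        (fun z => Finset.sum_nonneg fun i _ => Set.indicator_nonneg (fun _ _ => hw t i) _)
        (fun z => Finset.sum_nonneg fun i _ => Set.indicator_nonneg (fun _ _ => hw t' i) _)
        (fun z => (hPn t z).trans (hφn t z)) (fun z => (hPn t' z).trans (hφn t' z))
      refine this.trans ?_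
      rw [← hK]
      linarith
    calc ∑ f ∈ F', ∑' z, (∑ i, (P t i).indicator (fun _ => w t i) z) *
      (∑ j, (P t' j).indicator (fun _ => w t' j) (z * f)) ≤ ∑ f ∈ F', δ₁ :=
          Finset.sum_le_sum hterm
      _ = F'.card * δ₁ := by simp
      _ ≤ (F'.card + 1) * δ₁ := by nlinarith
      _ = δ₀ := by rw [hδ₁]; field_simp
  · rw [← hM, hδ₀, mul_one_div, div_lt_one (by positivity)]
    linarith

end lf7

end Pool.Agent.Lib.MP_0f7bfe_al
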