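import Pool.Agent.Lib.MP_0f7bfe_al.LFH

open scoped Pointwise InnerProductSpace

namespace Pool.Agent.Lib.MP_0f7bfe_al

universe u v

section lf8
variable {Γ : Type u} [Group Γ]

theorem cycleApprox_of_dirichletLiouville (S : Finset Γ)
    (hgen : Subgroup.closure (S : Set Γ) = ⊤) (h : DirichletLiouville S) : CycleApprox S := by
  apply cycleApprox_of_le
  intro ψ hψ
  set K := (finFlows S).topologicalClosure with hK
  have : CompleteSpace K := (Submodule.isClosed_topologicalClosure _).completeSpace_coe
  set c := K.starProjection ψ with hc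
  have hcK : c ∈ K := Submodule.starProjection_apply_mem K ψ
  set w := ψ - c with hw
  have hwK : ∀ x ∈ K, ⟪x, w⟫_ℝ = 0 := by
    intro x hx
    have := Submodule.sub_starProjection_mem_orthogonal (K := K) ψ
    exact (Submodule.mem_orthogonal K _).1 this x hx
  have hwZ : w ∈ zeroFlows S := (zeroFlows S).sub_mem hψ (closure_finFlows_le S hcK)
  choose χ hχs hχd hχn using fun g => path_flow S hgen g
  set X : Γ → L2R (Γ × S) := fun g => mkL2 (χ g) (sq_summable_of_finite (hχs g)) with hX
  set u : Γ → ℝ := fun g => ⟪X g, w⟫_ℝ with hu
  have hgrad : ∀ (g : Γ) (s : S), u (g * s) - u g = w (g, s) := by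
    intro g s
    have hmem : X (g * s) - X g - eE S (g, s) ∈ finFlows S := by
      rw [mem_finFlows]
      constructor
      · refine ((hχs (g * s)).union ((hχs g).union (esg_finite S g s))).subset ?_
        intro e he
        by_contra hne
        rw [Set.mem_union, Set.mem_union, not_or, not_or] at hne
        obtain ⟨h1, h2, h3⟩ := hne
        rw [Function.notMem_support] at h1 h2 h3
        apply he
        change χ (g * s) e - χ g e - esg S g s e = 0
        rw [h1, h2, h3]; ring
      · intro x
        have h1 := dvg_sub S (fun e => χ (g * s) e - χ g e) (esg S g s) x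
        have h2 := dvg_sub S (χ (g * s)) (χ g) x
        have h3 := dvg_esg S g s x
        have h4 := hχd (g * s) x
        have h5 := hχd g x
        have h6 : dvg S (fun e => (X (g * s) - X g - eE S (g, s)) e) x =
          dvg S (fun e => (fun e => χ (g * s) e - χ g e) e - esg S g s e) x := rfl
        rw [h6, h1, h2, h3, h4, h5]
        ring
    have h1 := hwK _ (Submodule.le_topologicalClosure _ hmem)
    rw [inner_sub_left, inner_sub_left, real_inner_comm, real_inner_comm w (X g),
      real_inner_comm w (eE S (g, s)), inner_eE] at h1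
    have h2 : u (g * s) = ⟪w, X (g * s)⟫_ℝ := real_inner_comm _ _
    have h3 : u g = ⟪w, X g⟫_ℝ := real_inner_comm _ _
    rw [h2, h3]
    linarith
  have hconst := h u ?_ ?_
  · have hw0 : w = 0 := by
      ext e
      have := hgrad e.1 e.2
      rw [hconst (e.1 * e.2), hconst e.1, sub_self] at this
      exact this.symm
    have : ψ = c := sub_eq_zero.1 hw0
    rw [this]; exact hcK
  · have := L2R_summable w
    refine this.congr fun e => ?_
    rw [← hgrad e.1 e.2]
  · intro g
    have h1 := hwZ g
    rw [dvg] at h1
    rw [← h1]
    refine Finset.sum_congr rfl fun s _ => ?_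
    have h2 := hgrad g s
    have h3 := hgrad (g * (s : Γ)⁻¹) s
    rw [inv_mul_cancel_right] at h3
    rw [← h2, ← h3]
    ring

end lf8

end Pool.Agent.Lib.MP_0f7bfe_al
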