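import Pool.Agent.Lib.MP_0f7bfe_al.LFDefs

namespace Pool.Agent.Lib.MP_0f7bfe_al

universe u v

open scoped InnerProductSpace

theorem trace_le_finrank {H : Type*} [NormedAddCommGroup H] [InnerProductSpace ℝ H] {ι : Type*}
    [Fintype ι] (e : ι → H) (he : Orthonormal ℝ e) (K : Submodule ℝ H)
    [K.HasOrthogonalProjection] :
    ∑ i, ‖K.starProjection (e i)‖ ^ 2 ≤
      Module.finrank ℝ (Submodule.span ℝ (Set.range fun i => K.starProjection (e i))) := by
  classical
  set W := Submodule.span ℝ (Set.range fun i => K.starProjection (e i)) with hW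
  have : FiniteDimensional ℝ W := FiniteDimensional.span_of_finite ℝ (Set.finite_range _)
  have hWK : W ≤ K := by
    rw [hW, Submodule.span_le]
    rintro _ ⟨i, rfl⟩
    exact Submodule.starProjection_apply_mem K (e i)
  let b := stdOrthonormalBasis ℝ W
  have h1 : ∀ i, ‖K.starProjection (e i)‖ ^ 2 = ∑ j, ⟪e i, (b j : H)⟫_ℝ ^ 2 := by
    intro i
    have hmem : K.starProjection (e i) ∈ W := Submodule.subset_span ⟨i, rfl⟩
    have h2 := b.sum_sq_norm_inner_right (⟨_, hmem⟩ : W)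
    have h3 : ‖(⟨_, hmem⟩ : W)‖ = ‖K.starProjection (e i)‖ := rfl
    rw [h3] at h2
    rw [← h2]
    refine Finset.sum_congr rfl fun j _ => ?_
    have h4 : ⟪b j, (⟨_, hmem⟩ : W)⟫_ℝ = ⟪(b j : H), K.starProjection (e i)⟫_ℝ := rfl
    rw [h4, Real.norm_eq_abs, sq_abs, ← Submodule.inner_starProjection_left_eq_right,
      Submodule.starProjection_eq_self_iff.2 (hWK (b j).2), real_inner_comm]
  rw [Finset.sum_congr rfl fun i _ => h1 i, Finset.sum_comm]
  have h5 : ∀ j, ∑ i, ⟪e i, (b j : H)⟫_ℝ ^ 2 ≤ 1 := by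
    intro j
    have := he.sum_inner_products_le (b j : H) (s := Finset.univ)
    have h6 : ‖(b j : H)‖ = 1 := b.orthonormal.1 j
    rw [h6] at this
    simpa using this
  calc _ ≤ ∑ j : Fin (Module.finrank ℝ W), (1 : ℝ) := Finset.sum_le_sum fun j _ => h5 j
    _ = _ := by simp

theorem finrank_le_trace {H : Type*} [NormedAddCommGroup H] [InnerProductSpace ℝ H] {ι : Type*}
    [Fintype ι] (e : ι → H) (he : Orthonormal ℝ e) (K : Submodule ℝ H)
    [K.HasOrthogonalProjection] (W : Submodule ℝ H) (hWK : W ≤ K)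
    (hWe : W ≤ Submodule.span ℝ (Set.range e)) :
    (Module.finrank ℝ W : ℝ) ≤ ∑ i, ‖K.starProjection (e i)‖ ^ 2 := by
  classical
  have hfd : FiniteDimensional ℝ (Submodule.span ℝ (Set.range e)) :=
    FiniteDimensional.span_of_finite ℝ (Set.finite_range _)
  have : FiniteDimensional ℝ W := Submodule.finiteDimensional_of_le hWe
  let b := stdOrthonormalBasis ℝ W
  have hb : Orthonormal ℝ (fun j => (b j : H)) := b.orthonormal.comp_linearIsometry W.subtypeₗᵢ
  have h1 : ∀ i, ∑ j, ⟪e i, (b j : H)⟫_ℝ ^ 2 ≤ ‖K.starProjection (e i)‖ ^ 2 := by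
    intro i
    have h2 := hb.sum_inner_products_le (K.starProjection (e i)) (s := Finset.univ)
    refine le_trans (le_of_eq (Finset.sum_congr rfl fun j _ => ?_)) h2
    rw [Real.norm_eq_abs, sq_abs, ← Submodule.inner_starProjection_left_eq_right,
      Submodule.starProjection_eq_self_iff.2 (hWK (b j).2), real_inner_comm]
  have h2 : ∀ j, ∑ i, ⟪e i, (b j : H)⟫_ℝ ^ 2 = 1 := by
    intro j
    obtain ⟨c, hc⟩ := (Submodule.mem_span_range_iff_exists_fun ℝ).1 (hWe (b j).2)
    have h3 : ∀ i, ⟪e i, (b j : H)⟫_ℝ = c i := by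
      intro i
      rw [← hc]
      exact he.inner_right_fintype c i
    have h4 : ‖(b j : H)‖ = 1 := hb.1 j
    have h5 : ⟪(b j : H), (b j : H)⟫_ℝ = 1 := by
      rw [real_inner_self_eq_norm_sq, h4]; norm_num
    rw [← h5]
    nth_rewrite 2 [← hc]
    rw [sum_inner]
    refine Finset.sum_congr rfl fun i _ => ?_
    rw [real_inner_smul_left, h3, pow_two]
  calc (Module.finrank ℝ W : ℝ) = ∑ j : Fin (Module.finrank ℝ W), (1 : ℝ) := by simp
    _ = ∑ j, ∑ i, ⟪e i, (b j : H)⟫_ℝ ^ 2 := Finset.sum_congr rfl fun j _ => (h2 j).symm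
    _ = ∑ i, ∑ j, ⟪e i, (b j : H)⟫_ℝ ^ 2 := Finset.sum_comm
    _ ≤ _ := Finset.sum_le_sum fun i _ => h1 i

end Pool.Agent.Lib.MP_0f7bfe_al
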