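import Pool.Agent.Lib.MP_0f7bfe_al.LFH
import Pool.Agent.Lib.MP_0f7bfe_al.LF9a

open scoped Pointwise InnerProductSpace

namespace Pool.Agent.Lib.MP_0f7bfe_al

universe u v

section lf9
variable {Γ : Type u} [Group Γ]

/-! ### translations -/

/-- left translation on `ℓ²` -/
noncomputable def trL (S : Finset Γ) (g : Γ) : L2R (Γ × S) ≃ₗᵢ[ℝ] L2R (Γ × S) where
  toFun x := mkL2 (fun e => x (g⁻¹ * e.1, e.2))
    (((Equiv.mulLeft g⁻¹).prodCongr (Equiv.refl S)).summable_iff.2 (L2R_summable x))
  invFun x := mkL2 (fun e => x (g * e.1, e.2))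
    (((Equiv.mulLeft g).prodCongr (Equiv.refl S)).summable_iff.2 (L2R_summable x))
  left_inv x := by
    ext e
    change x (g⁻¹ * (g * e.1), e.2) = x e
    rw [inv_mul_cancel_left]
  right_inv x := by
    ext e
    change x (g * (g⁻¹ * e.1), e.2) = x e
    rw [mul_inv_cancel_left]
  map_add' x y := by ext e; rfl
  map_smul' r x := by ext e; rfl
  norm_map' x := by
    have h1 : ‖mkL2 (fun e : Γ × S => x (g⁻¹ * e.1, e.2))
      (((Equiv.mulLeft g⁻¹).prodCongr (Equiv.refl S)).summable_iff.2 (L2R_summable x))‖ ^ 2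
        = ‖x‖ ^ 2 := by
      rw [L2R_norm_sq, L2R_norm_sq]
      exact ((Equiv.mulLeft g⁻¹).prodCongr (Equiv.refl S)).tsum_eq (fun e => x e ^ 2)
    exact (sq_eq_sq₀ (norm_nonneg _) (norm_nonneg _)).1 h1

theorem trL_apply (S : Finset Γ) (g : Γ) (x : L2R (Γ × S)) (e : Γ × S) :
    trL S g x e = x (g⁻¹ * e.1, e.2) := rfl

theorem trL_symm (S : Finset Γ) (g : Γ) (x : L2R (Γ × S)) : (trL S g).symm x = trL S g⁻¹ x := by
  ext e
  rw [trL_apply, inv_inv]
  rfl

theorem trL_eE (S : Finset Γ) (g h : Γ) (s : S) : trL S g (eE S (h, s)) = eE S (g * h, s) := by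
  ext e
  rw [trL_apply]
  change esg S h s (g⁻¹ * e.1, e.2) = esg S (g * h) s e
  by_cases he : e = (g * h, s)
  · subst he
    rw [esg_self]
    simp only [inv_mul_cancel_left]
    exact esg_self S h s
  · rw [esg_ne S (g * h) s he, esg_ne]
    intro h'
    apply he
    have h1 := (Prod.mk.inj h').1
    have h2 := (Prod.mk.inj h').2
    exact Prod.ext (by rw [← h1]; simp) h2

theorem finFlows_map (S : Finset Γ) (g : Γ) (c : L2R (Γ × S)) (hc : c ∈ finFlows S) :
    trL S g c ∈ finFlows S := by
  refine ⟨?_, fun x => ?_⟩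
  · have : (Function.support fun e => trL S g c e) =
        (fun e : Γ × S => (g⁻¹ * e.1, e.2)) ⁻¹' (Function.support fun e => c e) := by
      ext e; simp [trL_apply]
    rw [this]
    apply hc.1.preimage
    rintro ⟨a, s⟩ - ⟨a', s'⟩ - h
    simp only [Prod.mk.injEq, mul_right_inj] at h
    exact Prod.ext h.1 h.2
  · have := dvg_translate S (fun e => c e) g x
    rw [hc.2] at this
    exact this

theorem zeroFlows_map (S : Finset Γ) (g : Γ) (c : L2R (Γ × S)) (hc : c ∈ zeroFlows S) :
    trL S g c ∈ zeroFlows S := by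
  intro x
  have := dvg_translate S (fun e => c e) g x
  rw [hc] at this
  exact this

/-- projections onto the orthogonal complement of an invariant subspace commute with
translations -/
theorem starProjection_trL (S : Finset Γ) (K : Submodule ℝ (L2R (Γ × S)))
    [K.HasOrthogonalProjection]
    (hK : ∀ g, ∀ x ∈ K, trL S g x ∈ K) (g : Γ) (x : L2R (Γ × S)) :
    Kᗮ.starProjection (trL S g x) = trL S g (Kᗮ.starProjection x) := by
  apply Submodule.eq_starProjection_of_mem_of_inner_eq_zero
  · rw [Submodule.mem_orthogonal]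
    intro y hy
    have h1 : ⟪y, trL S g (Kᗮ.starProjection x)⟫_ℝ =
        ⟪trL S g⁻¹ y, Kᗮ.starProjection x⟫_ℝ := by
      rw [← (trL S g⁻¹).inner_map_map y, ← trL_symm S g (trL S g _),
        LinearIsometryEquiv.symm_apply_apply]
    rw [h1]
    exact (Submodule.mem_orthogonal K _).1 (Submodule.starProjection_apply_mem _ _) _ (hK _ _ hy)
  · intro y hy
    rw [← map_sub]
    have h1 : ⟪trL S g (x - Kᗮ.starProjection x), y⟫_ℝ =
        ⟪x - Kᗮ.starProjection x, trL S g⁻¹ y⟫_ℝ := by
      rw [← (trL S g⁻¹).inner_map_map _ y, ← trL_symm S g (trL S g _),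
        LinearIsometryEquiv.symm_apply_apply]
    rw [h1]
    have hy' : trL S g⁻¹ y ∈ Kᗮ := by
      rw [Submodule.mem_orthogonal]
      intro z hz
      have h2 : ⟪z, trL S g⁻¹ y⟫_ℝ = ⟪trL S g z, y⟫_ℝ := by
        rw [← (trL S g).inner_map_map z, ← trL_symm S g y,
          LinearIsometryEquiv.apply_symm_apply]
      rw [h2]
      exact (Submodule.mem_orthogonal K _).1 hy _ (hK _ _ hz)
    have h3 := Submodule.sub_starProjection_mem_orthogonal (K := Kᗮ) x
    rw [real_inner_comm]
    exact (Submodule.mem_orthogonal Kᗮ _).1 h3 _ hy'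

omit [Group Γ] in
theorem eE_orthonormal (S : Finset Γ) : Orthonormal ℝ (fun e : Γ × S => eE S e) := by
  classical
  rw [orthonormal_iff_ite]
  intro i j
  rw [inner_eE]
  change esg S i.1 i.2 j = _
  split_ifs with h
  · subst h; exact esg_self S i.1 i.2
  · exact esg_ne S i.1 i.2 (fun h' => h h'.symm)

/-! ### upper bound -/

theorem lf9_upper (S : Finset Γ) (hgen : Subgroup.closure (S : Set Γ) = ⊤) [DecidableEq Γ]
    (F : Finset Γ) :
    ∑ e : F × S, ‖((finFlows S).topologicalClosure)ᗮ.starProjection (eE S (e.1, e.2))‖ ^ 2 ≤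
      ((F ∪ F * S).card : ℝ) := by
  classical
  set K := (finFlows S).topologicalClosure with hK
  have : CompleteSpace K := (Submodule.isClosed_topologicalClosure _).completeSpace_coe
  choose χ hχs hχd hχn using fun g => path_flow S hgen g
  set X : Γ → L2R (Γ × S) := fun g => mkL2 (χ g) (sq_summable_of_finite (hχs g)) with hX
  have hproj : ∀ (g : Γ) (s : S), Kᗮ.starProjection (eE S (g, s)) =
      Kᗮ.starProjection (X (g * s)) - Kᗮ.starProjection (X g) := by
    intro g s
    have hmem : X (g * s) - X g - eE S (g, s) ∈ finFlows S := by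
      rw [mem_finFlows]
      constructor
      · refine ((hχs (g * s)).union ((hχs g).union (esg_finite S g s))).subset ?_
        intro e he
        by_contra hne
        rw [Set.mem_union, Set.mem_union, not_or, not_or] at hne
        obtain ⟨h1, h2, h3⟩ := hne
        rw [Function.notMem_support] at h1 h2 h3
        apply he
        change χ (g * s) e - χ g e - esg S g s e = 0
        rw [h1, h2, h3]; ring
      · intro x
        have h1 := dvg_sub S (fun e => χ (g * s) e - χ g e) (esg S g s) x
        have h2 := dvg_sub S (χ (g * s)) (χ g) x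
        have h3 := dvg_esg S g s x
        have h4 := hχd (g * s) x
        have h5 := hχd g x
        have h6 : dvg S (fun e => (X (g * s) - X g - eE S (g, s)) e) x =
          dvg S (fun e => (fun e => χ (g * s) e - χ g e) e - esg S g s e) x := rfl
        rw [h6, h1, h2, h3, h4, h5]
        ring
    have hmemK : X (g * s) - X g - eE S (g, s) ∈ K := Submodule.le_topologicalClosure _ hmem
    have h0 : Kᗮ.starProjection (X (g * s) - X g - eE S (g, s)) = 0 := by
      rw [Submodule.starProjection_apply_eq_zero_iff]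
      exact Submodule.le_orthogonal_orthogonal K hmemK
    rw [map_sub, map_sub] at h0
    exact (sub_eq_zero.1 h0).symm
  have ho : Orthonormal ℝ (fun e : F × S => eE S ((e.1 : Γ), e.2)) := by
    refine (eE_orthonormal S).comp (fun e : F × S => ((e.1 : Γ), e.2)) ?_
    rintro ⟨a, s⟩ ⟨b, t⟩ h
    simp only [Prod.mk.injEq] at h
    exact Prod.ext (Subtype.ext h.1) h.2
  refine (trace_le_finrank (fun e : F × S => eE S ((e.1 : Γ), e.2)) ho Kᗮ).trans ?_
  have hle : Submodule.span ℝ (Set.range fun e : F × S => Kᗮ.starProjection (eE S ((e.1 : Γ), e.2)))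
      ≤ Submodule.span ℝ (((F ∪ F * S).image fun x => Kᗮ.starProjection (X x) : Finset _) :
        Set (L2R (Γ × S))) := by
    rw [Submodule.span_le]
    rintro _ ⟨⟨g, s⟩, rfl⟩
    simp only
    rw [hproj]
    refine Submodule.sub_mem _ (Submodule.subset_span ?_) (Submodule.subset_span ?_)
    · rw [Finset.coe_image]
      exact ⟨g * s, Finset.mem_coe.2 (Finset.mem_union_right _ (Finset.mul_mem_mul g.2 s.2)), rfl⟩
    · rw [Finset.coe_image]
      exact ⟨g, by simp, rfl⟩
  have h1 := Submodule.finrank_mono hle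
  have h2 := finrank_span_finset_le_card (R := ℝ)
    ((F ∪ F * S).image fun x => Kᗮ.starProjection (X x))
  have h3 := Finset.card_image_le (s := F ∪ F * S) (f := fun x => Kᗮ.starProjection (X x))
  exact_mod_cast h1.trans (h2.trans h3)

/-! ### lower bound -/

/-- the star at `x` -/
noncomputable def starE (S : Finset Γ) (x : Γ) : L2R (Γ × S) :=
  ∑ s : S, (eE S (x, s) - eE S (x * (s : Γ)⁻¹, s))

theorem starE_inner (S : Finset Γ) (x : Γ) (z : L2R (Γ × S)) :
    ⟪z, starE S x⟫_ℝ = dvg S (fun e => z e) x := by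
  rw [starE, inner_sum, dvg]
  refine Finset.sum_congr rfl fun s _ => ?_
  rw [inner_sub_right, inner_eE, inner_eE]

theorem starE_apply (S : Finset Γ) (x : Γ) (g : Γ) (s : S) :
    starE S x (g, s) = dlt g x - dlt (g * s) x := by
  have h1 := starE_inner S x (eE S (g, s))
  rw [real_inner_comm, inner_eE] at h1
  rw [h1]
  exact dvg_esg S g s x

theorem lf9_lower (S : Finset Γ) (hgen : Subgroup.closure (S : Set Γ) = ⊤) [Infinite Γ]
    [DecidableEq Γ] (F : Finset Γ) :
    ((F.filter fun x => ∀ s ∈ S, x * s⁻¹ ∈ F).card : ℝ) ≤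
    ∑ e : F × S, ‖(zeroFlows S)ᗮ.starProjection (eE S (e.1, e.2))‖ ^ 2 := by
  have : CompleteSpace (zeroFlows S) := (isClosed_zeroFlows S).completeSpace_coe
  set F' := F.filter fun x => ∀ s ∈ S, x * s⁻¹ ∈ F with hF'
  have ho : Orthonormal ℝ (fun e : F × S => eE S ((e.1 : Γ), e.2)) := by
    refine (eE_orthonormal S).comp (fun e : F × S => ((e.1 : Γ), e.2)) ?_
    rintro ⟨a, s⟩ ⟨b, t⟩ h
    simp only [Prod.mk.injEq] at h
    exact Prod.ext (Subtype.ext h.1) h.2
  set W := Submodule.span ℝ (Set.range fun x : F' => starE S (x : Γ)) with hW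
  have hWK : W ≤ (zeroFlows S)ᗮ := by
    rw [hW, Submodule.span_le]
    rintro _ ⟨x, rfl⟩
    change starE S (x : Γ) ∈ (zeroFlows S)ᗮ
    rw [Submodule.mem_orthogonal]
    intro z hz
    rw [starE_inner]
    exact hz x
  have hWe : W ≤ Submodule.span ℝ (Set.range fun e : F × S => eE S ((e.1 : Γ), e.2)) := by
    rw [hW, Submodule.span_le]
    rintro _ ⟨x, rfl⟩
    have hx := (Finset.mem_filter.1 x.2)
    refine Submodule.sum_mem _ fun s _ => Submodule.sub_mem _ (Submodule.subset_span ?_)
      (Submodule.subset_span ?_)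
    · exact ⟨(⟨x, hx.1⟩, s), rfl⟩
    · exact ⟨(⟨_, hx.2 s s.2⟩, s), rfl⟩
  have hli : LinearIndependent ℝ (fun x : F' => starE S (x : Γ)) := by
    rw [Fintype.linearIndependent_iff]
    intro a ha
    set c : Γ → ℝ := fun y => ∑ i : F', a i * dlt y (i : Γ) with hc
    have hcs : ∀ (y : Γ) (s : S), c (y * s) = c y := by
      intro y s
      have h1 : (∑ i : F', a i • starE S (i : Γ)) (y, s) = 0 := by rw [ha]; rfl
      have h2 : (∑ i : F', a i • starE S (i : Γ)) (y, s) =
          ∑ i : F', a i * starE S (i : Γ) (y, s) := by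
        rw [lp.coeFn_sum, Finset.sum_apply]
        rfl
      rw [h2] at h1
      have h3 : c y - c (y * s) = 0 := by
        rw [hc, ← h1]
        simp only
        rw [← Finset.sum_sub_distrib]
        refine Finset.sum_congr rfl fun i _ => ?_
        rw [starE_apply]; ring
      linarith
    have hconst : ∀ h : Γ, ∀ y : Γ, c (y * h) = c y := by
      intro h
      have hmem : h ∈ Subgroup.closure (S : Set Γ) := by rw [hgen]; trivial
      induction hmem using Subgroup.closure_induction with
      | mem x hx => intro y; exact hcs y ⟨x, hx⟩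
      | one => intro y; rw [mul_one]
      | mul x z _ _ hx hz => intro y; rw [← mul_assoc, hz, hx]
      | inv x _ hx => intro y; rw [← hx (y * x⁻¹), inv_mul_cancel_right]
    obtain ⟨y₀, hy₀⟩ := F'.finite_toSet.exists_notMem
    have hc0 : c y₀ = 0 := by
      rw [hc]
      refine Finset.sum_eq_zero fun i _ => ?_
      rw [dlt_ne, mul_zero]
      rintro h
      exact hy₀ (by rw [← h]; exact i.2)
    have hcall : ∀ y, c y = 0 := by
      intro y
      have := hconst (y₀⁻¹ * y) y₀
      rw [mul_inv_cancel_left] at this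
      rw [this, hc0]
    intro i
    have h4 := hcall i
    rw [hc] at h4
    simp only at h4
    rw [Finset.sum_eq_single i] at h4
    · rwa [dlt_self, mul_one] at h4
    · intro j _ hj
      rw [dlt_ne, mul_zero]
      exact fun h => hj (Subtype.ext h)
    · intro h; exact absurd (Finset.mem_univ _) h
  have hfr : Module.finrank ℝ W = F'.card := by
    rw [hW, finrank_span_eq_card hli, Fintype.card_coe]
  have := finrank_le_trace (fun e : F × S => eE S ((e.1 : Γ), e.2)) ho (zeroFlows S)ᗮ W hWK hWe
  rw [hfr] at this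
  exact this

/-! ### conclusion -/

theorem cycleApprox_of_amenable (S : Finset Γ) (hgen : Subgroup.closure (S : Set Γ) = ⊤)
    [Infinite Γ] (h : FolnerAmenable Γ) : CycleApprox S := by
  classical
  apply cycleApprox_of_le
  set K := (finFlows S).topologicalClosure with hK
  have : CompleteSpace K := (Submodule.isClosed_topologicalClosure _).completeSpace_coe
  have : CompleteSpace (zeroFlows S) := (isClosed_zeroFlows S).completeSpace_coe
  have hKZ : K ≤ zeroFlows S := closure_finFlows_le S
  have hZK : (zeroFlows S)ᗮ ≤ Kᗮ := Submodule.orthogonal_le hKZ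
  have hKinv : ∀ g, ∀ x ∈ K, trL S g x ∈ K := by
    intro g x hx
    have h1 : (finFlows S : Set (L2R (Γ × S))) ⊆ (trL S g) ⁻¹' (K : Set (L2R (Γ × S))) := by
      intro y hy
      exact Submodule.le_topologicalClosure _ (finFlows_map S g y hy)
    have h2 : IsClosed ((trL S g) ⁻¹' (K : Set (L2R (Γ × S)))) :=
      (Submodule.isClosed_topologicalClosure _).preimage (trL S g).continuous
    exact closure_minimal h1 h2 hx
  -- difference of the projections
  have hdiff : ∀ x : L2R (Γ × S), ‖Kᗮ.starProjection x‖ ^ 2 =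
      ‖(zeroFlows S)ᗮ.starProjection x‖ ^ 2 +
      ‖Kᗮ.starProjection x - (zeroFlows S)ᗮ.starProjection x‖ ^ 2 := by
    intro x
    have h1 : (zeroFlows S)ᗮ.starProjection (Kᗮ.starProjection x) =
        (zeroFlows S)ᗮ.starProjection x := by
      rw [← sub_eq_zero, ← map_sub, Submodule.starProjection_apply_eq_zero_iff]
      have h2 := Submodule.sub_starProjection_mem_orthogonal (K := Kᗮ) x
      have h3 := Submodule.neg_mem _ h2
      rw [neg_sub] at h3
      exact Submodule.orthogonal_le hZK h3
    have h4 : ⟪(zeroFlows S)ᗮ.starProjection x,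
        Kᗮ.starProjection x - (zeroFlows S)ᗮ.starProjection x⟫_ℝ = 0 := by
      have h5 := Submodule.sub_starProjection_mem_orthogonal (K := (zeroFlows S)ᗮ)
        (Kᗮ.starProjection x)
      rw [h1] at h5
      exact (Submodule.mem_orthogonal _ _).1 h5 _ (Submodule.starProjection_apply_mem _ _)
    have h6 : Kᗮ.starProjection x = (zeroFlows S)ᗮ.starProjection x +
        (Kᗮ.starProjection x - (zeroFlows S)ᗮ.starProjection x) := by abel
    nth_rewrite 1 [h6]
    rw [pow_two, norm_add_sq_eq_norm_sq_add_norm_sq_real h4, pow_two, pow_two]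
  set q : Γ × S → ℝ := fun e => ‖Kᗮ.starProjection (eE S e) -
    (zeroFlows S)ᗮ.starProjection (eE S e)‖ ^ 2 with hq
  have hq0 : ∀ e, 0 ≤ q e := fun e => sq_nonneg _
  have hqinv : ∀ (g : Γ) (s : S), q (g, s) = q (1, s) := by
    intro g s
    have h1 : eE S (g, s) = trL S g (eE S (1, s)) := by rw [trL_eE, mul_one]
    have h2 := starProjection_trL S K hKinv g (eE S (1, s))
    have h3 := starProjection_trL S (zeroFlows S) (fun g x hx => zeroFlows_map S g x hx) g
      (eE S (1, s))
    simp only [hq]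
    rw [h1, h2, h3, ← map_sub, LinearIsometryEquiv.norm_map]
  have hbound : ∀ ε : ℝ, 0 < ε → ∑ s : S, q (1, s) ≤ 2 * S.card * ε := by
    intro ε hε
    obtain ⟨F, hF, hFε⟩ := h (S ∪ S⁻¹) ε hε
    have hFpos : (0 : ℝ) < F.card := by exact_mod_cast hF.card_pos
    have hup := lf9_upper S hgen F
    have hlow := lf9_lower S hgen F
    have hsum : ∑ e : F × S, q ((e.1 : Γ), e.2) = F.card * ∑ s : S, q (1, s) := by
      rw [Fintype.sum_prod_type]
      simp only [hqinv]
      rw [Finset.sum_const, Finset.card_univ, Fintype.card_coe, nsmul_eq_mul]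
    have hsum2 : ∑ e : F × S, ‖Kᗮ.starProjection (eE S ((e.1 : Γ), e.2))‖ ^ 2 =
        ∑ e : F × S, ‖(zeroFlows S)ᗮ.starProjection (eE S ((e.1 : Γ), e.2))‖ ^ 2 +
        ∑ e : F × S, q ((e.1 : Γ), e.2) := by
      rw [← Finset.sum_add_distrib]
      exact Finset.sum_congr rfl fun e _ => hdiff _
    -- cardinalities
    have hcardup : ((F ∪ F * S).card : ℝ) ≤ F.card + S.card * (ε * F.card) := by
      have h1 : F ∪ F * S ⊆ F ∪ S.biUnion (fun s => (F.filter fun g => g * s ∉ F).image
          (fun g => g * s)) := by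
        intro x hx
        rw [Finset.mem_union] at hx ⊢
        rcases hx with hx | hx
        · exact Or.inl hx
        · by_cases hxF : x ∈ F
          · exact Or.inl hxF
          · right
            obtain ⟨g, hg, s, hs, rfl⟩ := Finset.mem_mul.1 hx
            exact Finset.mem_biUnion.2 ⟨s, hs, Finset.mem_image.2
              ⟨g, Finset.mem_filter.2 ⟨hg, hxF⟩, rfl⟩⟩
      have h2 : ((F ∪ F * S).card : ℝ) ≤ F.card + ∑ s ∈ S, ((F.filter fun g => g * s ∉ F).card : ℝ) := by
        have h3 := Finset.card_le_card h1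
        have h4 := Finset.card_union_le F (S.biUnion (fun s => (F.filter fun g => g * s ∉ F).image
          (fun g => g * s)))
        have h5 : (S.biUnion (fun s => (F.filter fun g => g * s ∉ F).image
          (fun g => g * s))).card ≤ ∑ s ∈ S, (F.filter fun g => g * s ∉ F).card :=
          Finset.card_biUnion_le.trans (Finset.sum_le_sum fun s _ => Finset.card_image_le)
        exact_mod_cast h3.trans (h4.trans (Nat.add_le_add_left h5 _))
      refine h2.trans (add_le_add le_rfl ?_)
      have h6 : ∀ s ∈ S, ((F.filter fun g => g * s ∉ F).card : ℝ) ≤ ε * F.card := by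
        intro s hs
        have := hFε s (Finset.mem_union_left _ hs)
        rwa [show {g : Γ | g ∈ F ∧ g * s ∉ F} = ((F.filter fun g => g * s ∉ F : Finset Γ) : Set Γ)
          by ext; simp, Set.ncard_coe_finset] at this
      refine (Finset.sum_le_sum h6).trans (le_of_eq ?_)
      rw [Finset.sum_const, nsmul_eq_mul]
    have hcardlow : (F.card : ℝ) - S.card * (ε * F.card) ≤
        ((F.filter fun x => ∀ s ∈ S, x * s⁻¹ ∈ F).card : ℝ) := by
      have h1 : F ⊆ (F.filter fun x => ∀ s ∈ S, x * s⁻¹ ∈ F) ∪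
          S.biUnion (fun s => F.filter fun g => g * s⁻¹ ∉ F) := by
        intro x hx
        rw [Finset.mem_union]
        by_cases hxF : ∀ s ∈ S, x * s⁻¹ ∈ F
        · exact Or.inl (Finset.mem_filter.2 ⟨hx, hxF⟩)
        · right
          push Not at hxF
          obtain ⟨s, hs, hxs⟩ := hxF
          exact Finset.mem_biUnion.2 ⟨s, hs, Finset.mem_filter.2 ⟨hx, hxs⟩⟩
      have h2 : (F.card : ℝ) ≤ (F.filter fun x => ∀ s ∈ S, x * s⁻¹ ∈ F).card +
          ∑ s ∈ S, ((F.filter fun g => g * s⁻¹ ∉ F).card : ℝ) := by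
        have h3 := Finset.card_le_card h1
        have h4 := Finset.card_union_le (F.filter fun x => ∀ s ∈ S, x * s⁻¹ ∈ F)
          (S.biUnion (fun s => F.filter fun g => g * s⁻¹ ∉ F))
        have h5 : (S.biUnion (fun s => F.filter fun g => g * s⁻¹ ∉ F)).card ≤
          ∑ s ∈ S, (F.filter fun g => g * s⁻¹ ∉ F).card := Finset.card_biUnion_le
        exact_mod_cast h3.trans (h4.trans (Nat.add_le_add_left h5 _))
      have h6 : ∀ s ∈ S, ((F.filter fun g => g * s⁻¹ ∉ F).card : ℝ) ≤ ε * F.card := by
        intro s hs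
        have := hFε s⁻¹ (Finset.mem_union_right _ (Finset.inv_mem_inv hs))
        rwa [show {g : Γ | g ∈ F ∧ g * s⁻¹ ∉ F} =
          ((F.filter fun g => g * s⁻¹ ∉ F : Finset Γ) : Set Γ)
          by ext; simp, Set.ncard_coe_finset] at this
      have h7 : ∑ s ∈ S, ((F.filter fun g => g * s⁻¹ ∉ F).card : ℝ) ≤ S.card * (ε * F.card) := by
        refine (Finset.sum_le_sum h6).trans (le_of_eq ?_)
        rw [Finset.sum_const, nsmul_eq_mul]
      linarith
    have h8 : (F.card : ℝ) * ∑ s : S, q (1, s) ≤ F.card * (2 * S.card * ε) := by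
      rw [← hsum]
      have h9 : ∑ e : F × S, q ((e.1 : Γ), e.2) =
        ∑ e : F × S, ‖Kᗮ.starProjection (eE S ((e.1 : Γ), e.2))‖ ^ 2 -
        ∑ e : F × S, ‖(zeroFlows S)ᗮ.starProjection (eE S ((e.1 : Γ), e.2))‖ ^ 2 := by
        rw [hsum2]; ring
      rw [h9]
      nlinarith
    exact le_of_mul_le_mul_left h8 hFpos
  have hq1 : ∀ s : S, q (1, s) = 0 := by
    have h1 : ∑ s : S, q (1, s) ≤ 0 := by
      refine le_of_forall_pos_le_add fun ε hε => ?_
      have h2 := hbound (ε / (2 * S.card + 1)) (by positivity)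
      rw [zero_add]
      refine h2.trans ?_
      rw [mul_div_assoc', div_le_iff₀ (by positivity)]
      nlinarith [Nat.cast_nonneg (α := ℝ) S.card]
    intro s
    have h3 := Finset.single_le_sum (f := fun s : S => q (1, s)) (fun s _ => hq0 _)
      (Finset.mem_univ s)
    exact le_antisymm (h3.trans h1) (hq0 _)
  have hproj : ∀ e, Kᗮ.starProjection (eE S e) = (zeroFlows S)ᗮ.starProjection (eE S e) := by
    intro e
    have h1 : q e = 0 := by rw [show e = (e.1, e.2) from rfl, hqinv, hq1]
    have h2 := pow_eq_zero_iff (two_ne_zero) |>.1 h1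
    exact sub_eq_zero.1 (norm_eq_zero.1 h2)
  have hA : Kᗮ ≤ (zeroFlows S)ᗮ := by
    intro y hy
    have h1 : y = (zeroFlows S)ᗮ.starProjection y := by
      ext e
      rw [← inner_eE, ← inner_eE]
      have h2 : Kᗮ.starProjection y = y := Submodule.starProjection_eq_self_iff.2 hy
      calc ⟪y, eE S e⟫_ℝ = ⟪Kᗮ.starProjection y, eE S e⟫_ℝ := by rw [h2]
        _ = ⟪y, Kᗮ.starProjection (eE S e)⟫_ℝ := Submodule.inner_starProjection_left_eq_right _ _ _
        _ = ⟪y, (zeroFlows S)ᗮ.starProjection (eE S e)⟫_ℝ := by rw [hproj]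
        _ = _ := (Submodule.inner_starProjection_left_eq_right _ _ _).symm
    rw [h1]
    exact Submodule.starProjection_apply_mem _ _
  have h3 := Submodule.orthogonal_le hA
  rw [Submodule.orthogonal_orthogonal, Submodule.orthogonal_orthogonal] at h3
  exact h3

end lf9

end Pool.Agent.Lib.MP_0f7bfe_al
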