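import Pool.Agent.Lib.MP_0f7bfe_al.LF1
import Pool.Agent.Lib.MP_0f7bfe_al.LF7
import Pool.Agent.Lib.MP_0f7bfe_al.LF8
import Pool.Agent.Lib.MP_0f7bfe_al.LF9
import Pool.Agent.Lib.MP_0f7bfe_al.LF11

open scoped Pointwise

namespace Pool.Agent.Lib.MP_0f7bfe_al

universe u v

section lf
variable {Γ : Type u} [Group Γ]

theorem allCliques_of_flow (S : Finset Γ) (hgen : Subgroup.closure (S : Set Γ) = ⊤)
    (h1 : FlowToInfinity S ∨ ∃ c ε : ℝ, 0 < c ∧ 0 < ε ∧
      ∀ r : ℕ, 1 ≤ r → c * (r : ℝ) ^ (2 + ε) ≤ growth S r)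
    (h2 : DirichletLiouville S ∨ FolnerAmenable Γ) : AllCliques Γ := by
  have h1' : FlowToInfinity S := by
    rcases h1 with h1 | ⟨c, ε, hc, hε, h⟩
    · exact h1
    · exact flow_of_growth S hgen (summable_of_growth S c ε hc hε h)
  have hinf : Infinite Γ := infinite_of_flow S h1'
  have h2' : CycleApprox S := by
    rcases h2 with h2 | h2
    · exact cycleApprox_of_dirichletLiouville S hgen h2
    · exact cycleApprox_of_amenable S hgen h2
  exact allCliques_of_farPaths S (farPaths_of_flow S hgen h1' h2')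

end lf

end Pool.Agent.Lib.MP_0f7bfe_al
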