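import Pool.Agent.Lib.MP_0f7bfe_al.Defs
import Pool.Agent.Lib.MP_0f7bfe_al.FM11

open scoped Pointwise

namespace Pool.Agent.Lib.MP_0f7bfe_al

universe u v

/-- finite, virtually Z or virtually Z^2 -/
def Small (G : Type u) [Group G] : Prop :=
  ∃ A : Subgroup G, A.index ≠ 0 ∧ (Subsingleton A ∨ Nonempty (A ≃* Multiplicative ℤ) ∨
    Nonempty (A ≃* Multiplicative (ℤ × ℤ)))

section
variable {G : Type u} [Group G]

theorem sv4b_index (E : Subgroup G) [E.Normal] (hE : (E : Set G).Finite) (A : Subgroup G)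
    (h : (A.map (QuotientGroup.mk' E)).index ≠ 0) : A.index ≠ 0 := by
  obtain ⟨Y, hY, hcov⟩ := fm11_cov_of_index h ⊤
  apply fm11_index_of_cov
  refine ⟨(Quotient.out '' Y) * (E : Set G), (hY.image _).mul hE, fun x _ => ?_⟩
  obtain ⟨y, hy, hxy⟩ := hcov (QuotientGroup.mk' E x) trivial
  obtain ⟨a, ha, hax⟩ := hxy
  have e : (QuotientGroup.mk' E) (x * Quotient.out y) = QuotientGroup.mk' E a := by
    rw [map_mul, hax]
    congr 1
    exact QuotientGroup.out_eq' y
  have e2 : (x * Quotient.out y)⁻¹ * a ∈ E := (QuotientGroup.eq (s := E)).mp e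
  refine ⟨Quotient.out y * ((x * Quotient.out y)⁻¹ * a), Set.mul_mem_mul ⟨y, hy, rfl⟩ e2, ?_⟩
  have e3 : x * (Quotient.out y * ((x * Quotient.out y)⁻¹ * a)) = a := by group
  rw [e3]
  exact ha

/-- a power of every element centralises a finite normal subgroup -/
theorem sv4b_central (E : Subgroup G) [E.Normal] (hE : (E : Set G).Finite) :
    ∃ N : ℕ, 0 < N ∧ ∀ g : G, ∀ e ∈ E, g ^ N * e = e * g ^ N := by
  have : Finite E := hE
  have : Finite (MulAut E) := Finite.of_injective (fun f : MulAut E => (f : E → E))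
    (fun f g h => MulEquiv.ext fun x => congrFun h x)
  refine ⟨Nat.card (MulAut E), Nat.card_pos, fun g e he => ?_⟩
  have h1 : (MulAut.conjNormal (H := E) g) ^ Nat.card (MulAut E) = 1 := pow_card_eq_one'
  rw [← map_pow] at h1
  have h2 := congrArg (fun f : MulAut E => ((f ⟨e, he⟩ : E) : G)) h1
  simp only [MulAut.conjNormal_apply, MulAut.one_apply] at h2
  exact mul_inv_eq_iff_eq_mul.mp h2

/-- SV4b -/
theorem Small.of_quotient (E : Subgroup G) [E.Normal] (hE : (E : Set G).Finite)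
    (h : Small (G ⧸ E)) : Small G := by
  obtain ⟨A, hA, hA'⟩ := h
  rcases hA' with hA' | ⟨⟨e⟩⟩ | ⟨⟨e⟩⟩
  · refine ⟨⊥, sv4b_index E hE ⊥ ?_, Or.inl inferInstance⟩
    rw [Subgroup.map_bot]
    have : A = ⊥ := (Subgroup.eq_bot_iff_forall A).mpr fun x hx => by
      have := Subsingleton.elim (⟨x, hx⟩ : A) 1
      simpa using congrArg Subtype.val this
    rwa [← this]
  · -- virtually `Z`
    obtain ⟨x, hx⟩ := QuotientGroup.mk'_surjective E ((e.symm (Multiplicative.ofAdd 1) : A) : G ⧸ E)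
    have hpow : ∀ k : ℤ, (QuotientGroup.mk' E) (x ^ k) =
        ((e.symm (Multiplicative.ofAdd k) : A) : G ⧸ E) := by
      intro k
      rw [map_zpow, hx, ← Subgroup.coe_zpow, ← map_zpow e.symm, ← ofAdd_zsmul, smul_eq_mul, mul_one]
    let φ : Multiplicative ℤ →* G := zpowersHom G x
    have hφ : ∀ k : Multiplicative ℤ, φ k = x ^ k.toAdd := fun k => zpowersHom_apply _ x k
    have hinj : Function.Injective φ := by
      rw [injective_iff_map_eq_one]
      intro k hk
      rw [hφ] at hk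
      have h1 := hpow k.toAdd
      rw [hk, map_one] at h1
      have h2 : e.symm (Multiplicative.ofAdd k.toAdd) = 1 := Subtype.ext h1.symm
      rwa [ofAdd_toAdd, map_eq_one_iff e.symm e.symm.injective] at h2
    refine ⟨φ.range, sv4b_index E hE _ ?_, Or.inr (Or.inl ⟨(MonoidHom.ofInjective hinj).symm⟩)⟩
    have h1 : A ≤ φ.range.map (QuotientGroup.mk' E) := by
      intro a ha
      refine ⟨φ (e ⟨a, ha⟩), ⟨_, rfl⟩, ?_⟩
      rw [hφ, hpow, ofAdd_toAdd, MulEquiv.symm_apply_apply]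
    intro h0
    have h2 := Subgroup.index_dvd_of_le h1
    rw [h0] at h2
    exact hA (Nat.eq_zero_of_zero_dvd (by rwa [← h0] at h2 ⊢))
  · -- virtually `Z²`
    obtain ⟨x, hx⟩ := QuotientGroup.mk'_surjective E
      ((e.symm (Multiplicative.ofAdd (1, 0)) : A) : G ⧸ E)
    obtain ⟨y, hy⟩ := QuotientGroup.mk'_surjective E
      ((e.symm (Multiplicative.ofAdd (0, 1)) : A) : G ⧸ E)
    have hpow : ∀ k l : ℤ, (QuotientGroup.mk' E) (x ^ k * y ^ l) =
        ((e.symm (Multiplicative.ofAdd (k, l)) : A) : G ⧸ E) := by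
      intro k l
      rw [map_mul, map_zpow, map_zpow, hx, hy, ← Subgroup.coe_zpow, ← Subgroup.coe_zpow,
        ← Subgroup.coe_mul, ← map_zpow e.symm, ← map_zpow e.symm, ← map_mul e.symm, ← ofAdd_zsmul,
        ← ofAdd_zsmul, ← ofAdd_add]
      simp
    obtain ⟨N, hN, hcen⟩ := sv4b_central E hE
    have hEfin : Finite E := hE
    set m : ℕ := Nat.card E with hm
    have hm0 : 0 < m := Nat.card_pos
    -- the commutator of `x ^ N` and `y ^ N`
    set x1 := x ^ N with hx1
    set y1 := y ^ N with hy1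
    set c := x1 * y1 * x1⁻¹ * y1⁻¹ with hc
    have hcE : c ∈ E := by
      have h1 : (QuotientGroup.mk' E) (x * y) = (QuotientGroup.mk' E) (y * x) := by
        rw [map_mul, map_mul, hx, hy, ← Subgroup.coe_mul, ← Subgroup.coe_mul, ← map_mul e.symm,
          ← map_mul e.symm, mul_comm]
      have h1' : Commute ((QuotientGroup.mk' E) x) ((QuotientGroup.mk' E) y) := by
        rw [map_mul, map_mul] at h1
        exact h1
      have h2 : Commute ((QuotientGroup.mk' E) x1) ((QuotientGroup.mk' E) y1) := by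
        rw [hx1, hy1, map_pow, map_pow]
        exact h1'.pow_pow N N
      have h3 : (QuotientGroup.mk' E) c = 1 := by
        rw [hc, map_mul, map_mul, map_mul, map_inv, map_inv, h2.eq]
        group
      rwa [← MonoidHom.mem_ker, QuotientGroup.ker_mk'] at h3
    have hcx : Commute x1 c := hcen x c hcE
    have hcy : Commute y1 c := hcen y c hcE
    have hcm : c ^ m = 1 := by
      have : (⟨c, hcE⟩ : E) ^ m = 1 := pow_card_eq_one'
      simpa using congrArg Subtype.val this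
    have hxy : x1 * y1 = c * y1 * x1 := by
      rw [hc]; group
    have hk : ∀ k : ℕ, x1 ^ k * y1 = c ^ k * y1 * x1 ^ k := by
      intro k
      induction k with
      | zero => simp
      | succ k ih =>
        calc x1 ^ (k + 1) * y1 = x1 * (x1 ^ k * y1) := by rw [pow_succ', mul_assoc]
          _ = x1 * (c ^ k * y1 * x1 ^ k) := by rw [ih]
          _ = (x1 * c ^ k) * y1 * x1 ^ k := by group
          _ = (c ^ k * x1) * y1 * x1 ^ k := by rw [(hcx.pow_right k).eq]
          _ = c ^ k * (x1 * y1) * x1 ^ k := by group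
          _ = c ^ k * (c * y1 * x1) * x1 ^ k := by rw [hxy]
          _ = c ^ (k + 1) * y1 * x1 ^ (k + 1) := by rw [pow_succ c, pow_succ' x1]; group
    have hcomm : Commute (x1 ^ m) y1 := by
      have := hk m
      rw [hcm, one_mul] at this
      exact this
    let φ : Multiplicative (ℤ × ℤ) →* G := MonoidHom.mk'
      (fun k => (x1 ^ m) ^ k.toAdd.1 * y1 ^ k.toAdd.2) (by
        intro a b
        simp only [toAdd_mul, Prod.fst_add, Prod.snd_add, zpow_add]
        have h1 : Commute ((x1 ^ m) ^ b.toAdd.1) (y1 ^ a.toAdd.2) :=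
          (hcomm.zpow_left _).zpow_right _
        calc (x1 ^ m) ^ a.toAdd.1 * (x1 ^ m) ^ b.toAdd.1 * (y1 ^ a.toAdd.2 * y1 ^ b.toAdd.2)
            = (x1 ^ m) ^ a.toAdd.1 * ((x1 ^ m) ^ b.toAdd.1 * y1 ^ a.toAdd.2) * y1 ^ b.toAdd.2 := by
              group
          _ = (x1 ^ m) ^ a.toAdd.1 * (y1 ^ a.toAdd.2 * (x1 ^ m) ^ b.toAdd.1) * y1 ^ b.toAdd.2 := by
              rw [h1.eq]
          _ = _ := by group)
    have hφ : ∀ k l : ℤ, φ (Multiplicative.ofAdd (k, l)) = x ^ ((N * m : ℕ) * k) * y ^ (N * l) := by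
      intro k l
      show (x1 ^ m) ^ k * y1 ^ l = _
      rw [hx1, hy1, ← pow_mul, ← zpow_natCast, ← zpow_natCast, ← zpow_mul, ← zpow_mul]
    have hinj : Function.Injective φ := by
      rw [injective_iff_map_eq_one]
      intro k hk
      have hk' : φ (Multiplicative.ofAdd (k.toAdd.1, k.toAdd.2)) = 1 := hk
      rw [hφ] at hk'
      have h1 := hpow ((N * m : ℕ) * k.toAdd.1) (N * k.toAdd.2)
      rw [hk', map_one] at h1
      have h2 : e.symm (Multiplicative.ofAdd (((N * m : ℕ) * k.toAdd.1 : ℤ), (N * k.toAdd.2 : ℤ))) = 1 :=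
        Subtype.ext h1.symm
      rw [map_eq_one_iff e.symm e.symm.injective] at h2
      have h3 : (((N * m : ℕ) * k.toAdd.1 : ℤ), (N * k.toAdd.2 : ℤ)) = (0, 0) := h2
      rw [Prod.mk.injEq] at h3
      have h4 : k.toAdd.1 = 0 := by
        rcases mul_eq_zero.mp h3.1 with h | h
        · exfalso
          have : 0 < N * m := Nat.mul_pos hN hm0
          exact this.ne' (by exact_mod_cast h)
        · exact h
      have h5 : k.toAdd.2 = 0 := by
        rcases mul_eq_zero.mp h3.2 with h | h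
        · exfalso
          exact hN.ne' (by exact_mod_cast h)
        · exact h
      have h6 : k.toAdd = 0 := Prod.ext h4 h5
      exact h6
    refine ⟨φ.range, sv4b_index E hE _ ?_, Or.inr (Or.inr ⟨(MonoidHom.ofInjective hinj).symm⟩)⟩
    have hcov : fm11Cov (φ.range.map (QuotientGroup.mk' E)) A := by
      refine ⟨(fun p : ℤ × ℤ => (QuotientGroup.mk' E) (x ^ (-p.1) * y ^ (-p.2))) ''
        (Set.Icc 0 ((N * m : ℕ) : ℤ) ×ˢ Set.Icc 0 (N : ℤ)), ?_, ?_⟩
      · exact ((Set.finite_Icc _ _).prod (Set.finite_Icc _ _)).image _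
      · intro a ha
        obtain ⟨k, hk⟩ : ∃ k : Multiplicative (ℤ × ℤ), e.symm k = ⟨a, ha⟩ := e.symm.surjective _
        have hak : a = (QuotientGroup.mk' E) (x ^ k.toAdd.1 * y ^ k.toAdd.2) := by
          rw [hpow]
          exact (congrArg Subtype.val hk).symm
        have hNm : (0 : ℤ) < ((N * m : ℕ) : ℤ) := by exact_mod_cast Nat.mul_pos hN hm0
        have hN' : (0 : ℤ) < (N : ℤ) := by exact_mod_cast hN
        refine ⟨_, ⟨(k.toAdd.1 % ((N * m : ℕ) : ℤ), k.toAdd.2 % (N : ℤ)), ⟨⟨?_, ?_⟩, ⟨?_, ?_⟩⟩, rfl⟩, ?_⟩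
        · exact Int.emod_nonneg _ hNm.ne'
        · exact (Int.emod_lt_of_pos _ hNm).le
        · exact Int.emod_nonneg _ hN'.ne'
        · exact (Int.emod_lt_of_pos _ hN').le
        · refine ⟨φ (Multiplicative.ofAdd (k.toAdd.1 / ((N * m : ℕ) : ℤ), k.toAdd.2 / (N : ℤ))),
            ⟨_, rfl⟩, ?_⟩
          rw [hφ, hak]
          show (QuotientGroup.mk' E) _ = (QuotientGroup.mk' E) (x ^ k.toAdd.1 * y ^ k.toAdd.2) *
            (QuotientGroup.mk' E) (x ^ (-(k.toAdd.1 % ((N * m : ℕ) : ℤ))) *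
              y ^ (-(k.toAdd.2 % (N : ℤ))))
          rw [hpow, hpow, hpow, ← Subgroup.coe_mul, ← map_mul, ← ofAdd_add, Prod.mk_add_mk]
          have h1 : ((N * m : ℕ) : ℤ) * (k.toAdd.1 / ((N * m : ℕ) : ℤ)) =
              k.toAdd.1 + -(k.toAdd.1 % ((N * m : ℕ) : ℤ)) := by
            have := Int.emod_add_mul_ediv k.toAdd.1 ((N * m : ℕ) : ℤ)
            omega
          have h2 : (N : ℤ) * (k.toAdd.2 / (N : ℤ)) = k.toAdd.2 + -(k.toAdd.2 % (N : ℤ)) := by
            have := Int.emod_add_mul_ediv k.toAdd.2 (N : ℤ)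
            omega
          rw [h1, h2]
    have h1 := fm11_relIndex_of_cov hcov
    have h2 : fm11Cov (φ.range.map (QuotientGroup.mk' E)) ⊤ := by
      obtain ⟨Y, hY, hc1⟩ := hcov
      obtain ⟨Y', hY', hc2⟩ := fm11_cov_of_index hA ⊤
      exact fm11_cov_trans ⟨Y, hY, hc1⟩ ⟨Y', hY', hc2⟩
    exact fm11_index_of_cov h2

end

end Pool.Agent.Lib.MP_0f7bfe_al
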