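import Pool.Agent.Lib.MP_0f7bfe_al.FM12
import Pool.Agent.Lib.MP_0f7bfe_al.SV4b

open scoped Pointwise

namespace Pool.Agent.Lib.MP_0f7bfe_al

universe u v

/-- restriction of a drawing to a subgraph -/
def sv8_restrict {V : Type u} {W : Type v} {G : SimpleGraph V} {H : SimpleGraph W}
    (d : PlanarDrawing G) (f : W → V) (hf : Function.Injective f)
    (hadj : ∀ a b, H.Adj a b → G.Adj (f a) (f b)) : PlanarDrawing H where
  pt := fun w => d.pt (f w)
  arc := fun a b => d.arc (f a) (f b)
  pt_inj := d.pt_inj.comp hf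
  arc_cont := fun a b h => d.arc_cont _ _ (hadj a b h)
  arc_zero := fun a b h => d.arc_zero _ _ (hadj a b h)
  arc_one := fun a b h => d.arc_one _ _ (hadj a b h)
  arc_symm := fun a b h t ht => d.arc_symm _ _ (hadj a b h) t ht
  arc_inj := fun a b h => d.arc_inj _ _ (hadj a b h)
  arc_pt := by
    intro a b h t ht w hw
    rcases d.arc_pt _ _ (hadj a b h) t ht (f w) hw with h | h
    · exact Or.inl (hf h)
    · exact Or.inr (hf h)
  arc_arc := by
    intro a b a' b' h h' hne s hs t ht heq
    have hne' : s(f a, f b) ≠ s(f a', f b') := by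
      intro h1
      apply hne
      exact Sym2.map.injective hf h1
    obtain ⟨w, hw1, hw2, hw3⟩ := d.arc_arc _ _ _ _ (hadj a b h) (hadj a' b' h') hne' s hs t ht heq
    rcases hw1 with rfl | rfl
    · refine ⟨a, Or.inl rfl, ?_, hw3⟩
      rcases hw2 with h1 | h1
      · exact Or.inl (hf h1)
      · exact Or.inr (hf h1)
    · refine ⟨b, Or.inr rfl, ?_, hw3⟩
      rcases hw2 with h1 | h1
      · exact Or.inl (hf h1)
      · exact Or.inr (hf h1)
  locally_finite := by
    intro z hz
    have hz' : (∃ v, z = d.pt v) ∨ ∃ u v, G.Adj u v ∧ z ∈ d.arc u v '' Set.Icc 0 1 := by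
      rcases hz with ⟨v, hv⟩ | ⟨a, b, h, hz⟩
      · exact Or.inl ⟨f v, hv⟩
      · exact Or.inr ⟨f a, f b, hadj a b h, hz⟩
    obtain ⟨U, hU, h1, h2⟩ := d.locally_finite z hz'
    refine ⟨U, hU, ?_, ?_⟩
    · have h4 : (f ⁻¹' {v | d.pt v ∈ U}).Finite := h1.preimage hf.injOn
      exact h4
    · have h3 : Function.Injective (Prod.map f f) := hf.prodMap hf
      refine (h2.preimage h3.injOn).subset ?_
      rintro ⟨a, b⟩ ⟨hab, hq⟩
      exact ⟨hadj a b hab, hq⟩

/-- SV8 -/
theorem Small.virtuallyPlanar {G : Type u} [Group G] (h : Small G) : VirtuallyPlanar G := by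
  obtain ⟨A, hA, hA'⟩ := h
  refine ⟨A, hA, ?_⟩
  obtain ⟨S, -, hS, ⟨d⟩⟩ := planar_Z2 (Multiplicative (ℤ × ℤ)) (MulEquiv.refl _)
  rcases hA' with hA' | ⟨⟨e⟩⟩ | ⟨⟨e⟩⟩
  · refine ⟨∅, Set.finite_empty, ?_, ⟨sv8_restrict d (fun _ => 1) ?_ ?_⟩⟩
    · rw [eq_top_iff]
      intro x _
      rw [Subsingleton.elim x 1]
      exact Subgroup.one_mem _
    · intro x y _
      exact Subsingleton.elim x y
    · intro a b hab
      exact absurd (Subsingleton.elim a b) hab.ne
  · -- a nontrivial generator
    obtain ⟨s, hs, hs1⟩ : ∃ s ∈ S, s ≠ 1 := by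
      by_contra hcon
      push Not at hcon
      have h1 : Subgroup.closure S ≤ ⊥ := by
        rw [Subgroup.closure_le]
        intro x hx
        exact Subgroup.mem_bot.mpr (hcon x hx)
      rw [hS] at h1
      have h2 : (Multiplicative.ofAdd ((1, 0) : ℤ × ℤ)) ∈ (⊥ : Subgroup (Multiplicative (ℤ × ℤ))) :=
        h1 trivial
      rw [Subgroup.mem_bot] at h2
      have h3 : ((1, 0) : ℤ × ℤ) = 0 := h2
      simp at h3
    have hinj : Function.Injective (fun a : A => s ^ (Multiplicative.toAdd (e a))) := by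
      intro a b hab
      have hab' : s ^ (Multiplicative.toAdd (e a)) = s ^ (Multiplicative.toAdd (e b)) := hab
      have h1 : (Multiplicative.toAdd (e a)) • (Multiplicative.toAdd s) =
          (Multiplicative.toAdd (e b)) • (Multiplicative.toAdd s) := by
        have := congrArg Multiplicative.toAdd hab'
        rwa [toAdd_zpow, toAdd_zpow] at this
      have h2 : Multiplicative.toAdd s ≠ 0 := fun h => hs1 h
      have h3 : Multiplicative.toAdd (e a) = Multiplicative.toAdd (e b) := by
        by_contra hne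
        apply h2
        have h4 : (Multiplicative.toAdd (e a) - Multiplicative.toAdd (e b)) •
            (Multiplicative.toAdd s) = 0 := by
          rw [sub_smul, h1, sub_self]
        rcases smul_eq_zero.mp h4 with h5 | h5
        · exact absurd (sub_eq_zero.mp h5) hne
        · exact h5
      exact e.injective (Multiplicative.toAdd.injective h3)
    refine ⟨{e.symm (Multiplicative.ofAdd 1)}, Set.finite_singleton _, ?_,
      ⟨sv8_restrict d (fun a => s ^ (Multiplicative.toAdd (e a))) hinj ?_⟩⟩
    · rw [eq_top_iff]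
      intro x _
      have h1 : (e.symm (Multiplicative.ofAdd 1)) ^ (Multiplicative.toAdd (e x)) = x := by
        apply e.injective
        rw [map_zpow, MulEquiv.apply_symm_apply, ← ofAdd_zsmul, smul_eq_mul, mul_one, ofAdd_toAdd]
      have h2 : e.symm (Multiplicative.ofAdd 1) ∈
          Subgroup.closure ({e.symm (Multiplicative.ofAdd 1)} : Set A) :=
        Subgroup.subset_closure (Set.mem_singleton _)
      have h3 := Subgroup.zpow_mem _ h2 (Multiplicative.toAdd (e x))
      exact h1 ▸ h3
    · have key : ∀ a b : A, a⁻¹ * b = e.symm (Multiplicative.ofAdd 1) →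
          (s ^ (Multiplicative.toAdd (e a)))⁻¹ * s ^ (Multiplicative.toAdd (e b)) = s := by
        intro a b hab
        have h1 : b = a * e.symm (Multiplicative.ofAdd 1) := by rw [← hab]; group
        rw [h1, map_mul, MulEquiv.apply_symm_apply, toAdd_mul, toAdd_ofAdd, zpow_add, zpow_one]
        group
      intro a b hab
      rw [SimpleGraph.mulCayley_adj] at hab ⊢
      refine ⟨fun h => hab.1 (hinj h), ?_⟩
      rcases hab.2 with h | h
      · left
        rw [key a b h]
        exact hs
      · right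
        rw [key b a h]
        exact hs
  · exact planar_Z2 A e

end Pool.Agent.Lib.MP_0f7bfe_al
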