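import Pool.Agent.Lib.MP_0f7bfe_al.KL12
import Pool.Agent.Lib.MP_0f7bfe_al.KL14
import Pool.Agent.Lib.MP_0f7bfe_al.LFMain
import Pool.Agent.Lib.MP_0f7bfe_al.SV8

/-!
The dichotomy for groups without nonconstant Dirichlet harmonic functions and for amenable groups.
-/

namespace Pool.Agent.Lib.MP_0f7bfe_al

universe u v

section klmain
variable {Γ : Type u} [Group Γ]

theorem small_of_no_flow (S : Finset Γ) (hgen : Subgroup.closure (S : Set Γ) = ⊤)
    (h1 : ¬ FlowToInfinity S) : Small Γ := by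
  rcases finite_or_infinite Γ with hfin | hinf
  · refine ⟨⊥, ?_, Or.inl inferInstance⟩
    exact Subgroup.index_ne_zero_of_finite
  · have hG : Group.FG Γ := ⟨⟨S, hgen⟩⟩
    rcases classifySlow hG (5 / 2) (by norm_num) (by norm_num)
      (slowGrowth_of_no_flow S hgen h1) with ⟨A, hA, ⟨e⟩⟩ | ⟨A, hA, ⟨e⟩⟩
    · exact ⟨A, hA, Or.inr (Or.inl ⟨e⟩)⟩
    · exact ⟨A, hA, Or.inr (Or.inr ⟨e⟩)⟩

theorem small_or_allCliques (S : Finset Γ) (hgen : Subgroup.closure (S : Set Γ) = ⊤)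
    (h2 : DirichletLiouville S ∨ FolnerAmenable Γ) : AllCliques Γ ∨ Small Γ := by
  by_cases h1 : FlowToInfinity S
  · exact Or.inl (allCliques_of_flow S hgen (Or.inl h1) h2)
  · exact Or.inr (small_of_no_flow S hgen h1)

end klmain

end Pool.Agent.Lib.MP_0f7bfe_al
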