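import Pool.Agent.Lib.MP_0f7bfe_al.LFDefs

open scoped Pointwise

namespace Pool.Agent.Lib.MP_0f7bfe_al

universe u v

section lf1
variable {Γ : Type u} [Group Γ]

theorem lf1_step_symm (T B : Set Γ) {a b : Γ} (h : Step T B a b) : Step T B b a :=
  ⟨h.2.1, h.1, h.2.2.symm⟩

theorem lf1_linked_symm (T B : Set Γ) {a b : Γ} (h : Linked T B a b) : Linked T B b a := by
  induction h with
  | refl => exact Relation.ReflTransGen.refl
  | tail _ hbc ih => exact Relation.ReflTransGen.head (lf1_step_symm T B hbc) ih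

theorem lf1_linked_mono (T B B' : Set Γ) (hB : B ⊆ B') {a b : Γ} (h : Linked T B a b) :
    Linked T B' a b := by
  induction h with
  | refl => exact Relation.ReflTransGen.refl
  | tail _ hbc ih => exact Relation.ReflTransGen.tail ih ⟨hB hbc.1, hB hbc.2.1, hbc.2.2⟩

theorem allCliques_of_farPaths (S : Finset Γ) (h : FarPaths S) : AllCliques Γ := by
  classical
  refine ⟨(S : Set Γ), S.finite_toSet, fun n F hF => ?_⟩
  set T := {p : Fin n × Fin n // p.1 ≠ p.2} × Bool with hT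
  obtain ⟨x, P, -, hP, hfar⟩ := h F hF (Fin n × Fin n) T
    (fun t => if t.2 then (t.1.1.1, t.1.1.2) else (t.1.1.1, t.1.1.1))
    (fun t => if t.2 then (t.1.1.2, t.1.1.1) else (t.1.1.1, t.1.1.2))
    (by
      rintro ⟨⟨⟨i, j⟩, hij⟩, b⟩
      have hij' : i ≠ j := hij
      cases b <;> simp [hij', hij'.symm])
  set R : ∀ i j : Fin n, i ≠ j → Set Γ := fun i j hij => P (⟨(i, j), hij⟩, false) with hR
  set Q : ∀ i j : Fin n, i ≠ j → Set Γ := fun i j hij => P (⟨(i, j), hij⟩, true) with hQ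
  have hRx : ∀ i j (hij : i ≠ j), x (i, i) ∈ R i j hij ∧ x (i, j) ∈ R i j hij ∧
      ∀ z ∈ R i j hij, Linked (S : Set Γ) (R i j hij) (x (i, i)) z := by
    intro i j hij
    simpa using hP (⟨(i, j), hij⟩, false)
  have hQx : ∀ i j (hij : i ≠ j), x (i, j) ∈ Q i j hij ∧ x (j, i) ∈ Q i j hij ∧
      ∀ z ∈ Q i j hij, Linked (S : Set Γ) (Q i j hij) (x (i, j)) z := by
    intro i j hij
    simpa using hP (⟨(i, j), hij⟩, true)
  have hRR : ∀ i j (hij : i ≠ j) k l (hkl : k ≠ l), i ≠ k → ∀ z ∈ R i j hij, ∀ z' ∈ R k l hkl,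
      z⁻¹ * z' ∉ F := by
    intro i j hij k l hkl hik z hz z' hz'
    refine hfar (⟨(i, j), hij⟩, false) (⟨(k, l), hkl⟩, false) ?_ ?_ ?_ ?_ z hz z' hz' <;>
      simp [hik]
  have hQR : ∀ i j (hij : i ≠ j) k l (hkl : k ≠ l), k ≠ i → k ≠ j → ∀ z ∈ Q i j hij,
      ∀ z' ∈ R k l hkl, z⁻¹ * z' ∉ F := by
    intro i j hij k l hkl hki hkj z hz z' hz'
    refine hfar (⟨(i, j), hij⟩, true) (⟨(k, l), hkl⟩, false) ?_ ?_ ?_ ?_ z hz z' hz' <;>
      simp [hki.symm, hkj.symm]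
  have hQQ : ∀ i j (hij : i < j) k l (hkl : k < l), (i, j) ≠ (k, l) → ∀ z ∈ Q i j hij.ne,
      ∀ z' ∈ Q k l hkl.ne, z⁻¹ * z' ∉ F := by
    intro i j hij k l hkl hne z hz z' hz'
    refine hfar (⟨(i, j), hij.ne⟩, true) (⟨(k, l), hkl.ne⟩, true) ?_ ?_ ?_ ?_ z hz z' hz'
    · simpa using hne
    · simp only [if_true, ne_eq, Prod.mk.injEq, not_and]
      rintro rfl rfl; exact absurd hij (not_lt.2 hkl.le)
    · simp only [if_true, ne_eq, Prod.mk.injEq, not_and]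
      rintro rfl rfl; exact absurd hij (not_lt.2 hkl.le)
    · simp only [if_true, ne_eq, Prod.mk.injEq, not_and]
      rintro rfl rfl; exact hne rfl
  set B : Fin n → Set Γ := fun v => {z | z = x (v, v) ∨ ∃ j, ∃ hj : v ≠ j, z ∈ R v j hj} with hB
  have hBR : ∀ v w, v ≠ w → ∀ z ∈ B v, ∃ j, ∃ hj : v ≠ j, z ∈ R v j hj := by
    intro v w hvw z hz
    rcases hz with rfl | hz
    · exact ⟨w, hvw, (hRx v w hvw).1⟩
    · exact hz
  have hBx : ∀ v, ∀ z ∈ B v, Linked (S : Set Γ) (B v) (x (v, v)) z := by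
    intro v z hz
    rcases hz with rfl | ⟨j, hj, hz⟩
    · exact Relation.ReflTransGen.refl
    · exact lf1_linked_mono _ (R v j hj) _ (fun y hy => Or.inr ⟨j, hj, hy⟩) ((hRx v j hj).2.2 z hz)
  refine ⟨⟨B, fun u v => {z | ∃ h : u ≠ v, z ∈ Q u v h}, ?_, ?_, ?_, ?_, ?_, ?_⟩⟩
  · intro v; exact ⟨x (v, v), Or.inl rfl⟩
  · intro v y hy z hz
    exact (lf1_linked_symm _ _ (hBx v y hy)).trans (hBx v z hz)
  · intro u v huv
    have b1 : x (u, v) ∈ B u := Or.inr ⟨v, huv.ne, (hRx u v huv.ne).2.1⟩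
    have b2 : x (v, u) ∈ B v := Or.inr ⟨u, huv.ne', (hRx v u huv.ne').2.1⟩
    have b3 : x (u, v) ∈ {z | ∃ h : u ≠ v, z ∈ Q u v h} := ⟨huv.ne, (hQx u v huv.ne).1⟩
    have b4 : x (v, u) ∈ {z | ∃ h : u ≠ v, z ∈ Q u v h} := ⟨huv.ne, (hQx u v huv.ne).2.1⟩
    refine ⟨x (u, v), b1, x (v, u), b2, b3, b4, ?_⟩
    exact lf1_linked_mono _ (Q u v huv.ne) {z | ∃ h : u ≠ v, z ∈ Q u v h}
      (fun y hy => ⟨huv.ne, hy⟩)
      ((hQx u v huv.ne).2.2 _ (hQx u v huv.ne).2.1)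
  · intro u v huv y hy z hz
    obtain ⟨j, hj, hy⟩ := hBR u v huv y hy
    obtain ⟨k, hk, hz⟩ := hBR v u huv.symm z hz
    exact hRR u j hj v k hk huv y hy z hz
  · rintro u v u' v' huv huv' hne y ⟨_, hy⟩ z ⟨_, hz⟩
    exact hQQ u v huv u' v' huv' hne y hy z hz
  · rintro u v w huv hwu hwv y ⟨_, hy⟩ z hz
    obtain ⟨k, hk, hz⟩ := hBR w u hwu z hz
    exact hQR u v huv.ne w k hk hwu hwv y hy z hz

end lf1

end Pool.Agent.Lib.MP_0f7bfe_al
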