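import Pool.Agent.Lib.MP_0f7bfe_al.LFDefs

/-! LF-2: decomposition of a finitely supported unit flow into random paths. -/

open scoped Pointwise

namespace Pool.Agent.Lib.MP_0f7bfe_al

universe u v

section lf2abs
variable {V : Type u} {E : Type v} [Fintype E]

open scoped Classical in
/-- indicator of a proposition -/
private noncomputable def lf2_i (p : Prop) : ℝ := if p then 1 else 0

private theorem lf2_i_nonneg (p : Prop) : 0 ≤ lf2_i p := by
  unfold lf2_i
  split_ifs <;> norm_num

private theorem lf2_i_true {p : Prop} (h : p) : lf2_i p = 1 := by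
  unfold lf2_i
  rw [if_pos h]

private theorem lf2_i_false {p : Prop} (h : ¬ p) : lf2_i p = 0 := by
  unfold lf2_i
  rw [if_neg h]

/-- net outflow -/
private noncomputable def lf2_D (src tgt : E → V) (φ : E → ℝ) (g : V) : ℝ :=
  ∑ e, φ e * (lf2_i (src e = g) - lf2_i (tgt e = g))

/-- total flow -/
private noncomputable def lf2_N (src tgt : E → V) (φ : E → ℝ) (g : V) : ℝ :=
  ∑ e, φ e * (lf2_i (src e = g) + lf2_i (tgt e = g))

private theorem lf2_N_mono (src tgt : E → V) (φ ψ : E → ℝ) (h : ∀ e, φ e ≤ ψ e) (g : V) :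
    lf2_N src tgt φ g ≤ lf2_N src tgt ψ g := by
  unfold lf2_N
  refine Finset.sum_le_sum fun e _ => ?_
  refine mul_le_mul_of_nonneg_right (h e) ?_
  have h1 := lf2_i_nonneg (src e = g)
  have h2 := lf2_i_nonneg (tgt e = g)
  linarith

private theorem lf2_N_nonneg (src tgt : E → V) (φ : E → ℝ) (h : ∀ e, 0 ≤ φ e) (g : V) :
    0 ≤ lf2_N src tgt φ g := by
  unfold lf2_N
  refine Finset.sum_nonneg fun e _ => ?_
  have h1 := lf2_i_nonneg (src e = g)
  have h2 := lf2_i_nonneg (tgt e = g)
  exact mul_nonneg (h e) (by linarith)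

private theorem lf2_N_smul (src tgt : E → V) (a : ℝ) (φ : E → ℝ) (g : V) :
    lf2_N src tgt (fun e => a * φ e) g = a * lf2_N src tgt φ g := by
  unfold lf2_N
  rw [Finset.mul_sum]
  refine Finset.sum_congr rfl fun e _ => ?_
  ring

private theorem lf2_N_sub (src tgt : E → V) (φ ψ : E → ℝ) (g : V) :
    lf2_N src tgt (fun e => φ e - ψ e) g = lf2_N src tgt φ g - lf2_N src tgt ψ g := by
  unfold lf2_N
  rw [← Finset.sum_sub_distrib]
  refine Finset.sum_congr rfl fun e _ => ?_
  ring

private theorem lf2_D_smul (src tgt : E → V) (a : ℝ) (φ : E → ℝ) (g : V) :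
    lf2_D src tgt (fun e => a * φ e) g = a * lf2_D src tgt φ g := by
  unfold lf2_D
  rw [Finset.mul_sum]
  refine Finset.sum_congr rfl fun e _ => ?_
  ring

private theorem lf2_D_sub (src tgt : E → V) (φ ψ : E → ℝ) (g : V) :
    lf2_D src tgt (fun e => φ e - ψ e) g = lf2_D src tgt φ g - lf2_D src tgt ψ g := by
  unfold lf2_D
  rw [← Finset.sum_sub_distrib]
  refine Finset.sum_congr rfl fun e _ => ?_
  ring

/-- positive steps -/
private def lf2_St (src tgt : E → V) (φ : E → ℝ) (a b : V) : Prop :=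
  ∃ e, 0 < φ e ∧ src e = a ∧ tgt e = b

/-- `y` is reachable from `x` by positive steps -/
private theorem lf2_reach (src tgt : E → V) (φ : E → ℝ) (hφ : ∀ e, 0 ≤ φ e) (l : ℝ) (hl : 0 < l)
    (x y : V) (hd : ∀ g, lf2_D src tgt φ g = l * (lf2_i (g = x) - lf2_i (g = y))) :
    Relation.ReflTransGen (lf2_St src tgt φ) x y := by
  classical
  by_contra hxy
  set A : Set V := {g | Relation.ReflTransGen (lf2_St src tgt φ) x g} with hA
  have hxA : x ∈ A := Relation.ReflTransGen.refl
  have hyA : y ∉ A := hxy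
  set B : Finset V := (insert x (Finset.univ.image src ∪ Finset.univ.image tgt)).filter
    (fun g => g ∈ A) with hB
  have hxB : x ∈ B := by
    rw [hB, Finset.mem_filter]
    exact ⟨Finset.mem_insert_self _ _, hxA⟩
  have hyB : y ∉ B := by
    rw [hB, Finset.mem_filter]
    exact fun h => hyA h.2
  have hsB : ∀ e, src e ∈ B ↔ src e ∈ A := by
    intro e
    rw [hB, Finset.mem_filter]
    refine ⟨fun h => h.2, fun h => ⟨?_, h⟩⟩
    exact Finset.mem_insert_of_mem (Finset.mem_union_left _ (Finset.mem_image_of_mem _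
      (Finset.mem_univ e)))
  have htB : ∀ e, tgt e ∈ B ↔ tgt e ∈ A := by
    intro e
    rw [hB, Finset.mem_filter]
    refine ⟨fun h => h.2, fun h => ⟨?_, h⟩⟩
    exact Finset.mem_insert_of_mem (Finset.mem_union_right _ (Finset.mem_image_of_mem _
      (Finset.mem_univ e)))
  have hsum : ∀ a : V, ∑ g ∈ B, lf2_i (a = g) = lf2_i (a ∈ B) := by
    intro a
    unfold lf2_i
    rw [Finset.sum_ite_eq]
    congr
  have hsum' : ∀ a : V, ∑ g ∈ B, lf2_i (g = a) = lf2_i (a ∈ B) := by
    intro a
    unfold lf2_i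
    rw [Finset.sum_ite_eq']
    congr
  have h1 : ∑ g ∈ B, lf2_D src tgt φ g = l := by
    simp_rw [hd]
    rw [← Finset.mul_sum, Finset.sum_sub_distrib, hsum', hsum', lf2_i_true hxB, lf2_i_false hyB]
    ring
  have h2 : ∑ g ∈ B, lf2_D src tgt φ g ≤ 0 := by
    unfold lf2_D
    rw [Finset.sum_comm]
    refine Finset.sum_nonpos fun e _ => ?_
    rw [← Finset.mul_sum, Finset.sum_sub_distrib, hsum, hsum]
    rcases (hφ e).eq_or_lt with h0 | h0
    · rw [← h0, zero_mul]
    · refine mul_nonpos_of_nonneg_of_nonpos (hφ e) ?_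
      by_cases hs : src e ∈ B
      · have ht : tgt e ∈ B := by
          rw [htB]
          have hs' : src e ∈ A := (hsB e).1 hs
          exact Relation.ReflTransGen.tail hs' ⟨e, h0, rfl, rfl⟩
        rw [lf2_i_true hs, lf2_i_true ht]
        norm_num
      · rw [lf2_i_false hs]
        have := lf2_i_nonneg (tgt e ∈ B)
        linarith
  linarith

/-- the walk to a reachable vertex -/
private theorem lf2_walk (src tgt : E → V) (R : V → V → Prop) (hR : ∀ e, R (src e) (tgt e))
    (φ : E → ℝ) (x g : V) (h : Relation.ReflTransGen (lf2_St src tgt φ) x g) :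
    ∃ (χ : E → ℕ) (P : Set V), (∀ e, χ e ≠ 0 → 0 < φ e) ∧
      (∀ v, lf2_D src tgt (fun e => (χ e : ℝ)) v = lf2_i (v = x) - lf2_i (v = g)) ∧
      P.Finite ∧ x ∈ P ∧ g ∈ P ∧
      (∀ z ∈ P, Relation.ReflTransGen (fun a b => a ∈ P ∧ b ∈ P ∧ R a b) x z) ∧
      ((g = x ∧ P = {x}) ∨ ∀ z ∈ P, 1 ≤ lf2_N src tgt (fun e => (χ e : ℝ)) z) := by
  classical
  induction h with
  | refl =>
    refine ⟨fun _ => 0, {x}, by simp, ?_, Set.finite_singleton x, rfl, rfl, ?_, Or.inl ⟨rfl, rfl⟩⟩
    · intro v
      unfold lf2_D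
      simp
    · rintro z rfl
      exact Relation.ReflTransGen.refl
  | tail hab hbc ih =>
    rename_i b c
    obtain ⟨χ, P, h1, h2, h3, h4, h5, h6, h7⟩ := ih
    obtain ⟨e0, he0, hs, ht⟩ := hbc
    have hval : ∀ e, ((χ e + if e = e0 then 1 else 0 : ℕ) : ℝ) =
        (χ e : ℝ) + (if e = e0 then 1 else 0) := by
      intro e
      push_cast
      rfl
    refine ⟨fun e => χ e + if e = e0 then 1 else 0, insert c P, ?_, ?_, h3.insert c,
      Set.mem_insert_of_mem _ h4, Set.mem_insert _ _, ?_, Or.inr ?_⟩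
    · intro e he
      by_cases hee : e = e0
      · rw [hee]; exact he0
      · simp only [if_neg hee, add_zero] at he
        exact h1 e he
    · intro v
      have e1 : lf2_D src tgt (fun e => ((χ e + if e = e0 then 1 else 0 : ℕ) : ℝ)) v =
          lf2_D src tgt (fun e => (χ e : ℝ)) v + (lf2_i (src e0 = v) - lf2_i (tgt e0 = v)) := by
        unfold lf2_D
        simp_rw [hval, add_mul, Finset.sum_add_distrib, ite_mul, one_mul, zero_mul]
        rw [Finset.sum_ite_eq' Finset.univ e0]
        simp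
      rw [e1, h2, hs, ht]
      have e2 : lf2_i (b = v) = lf2_i (v = b) := by
        unfold lf2_i
        simp only [eq_comm]
      have e3 : lf2_i (c = v) = lf2_i (v = c) := by
        unfold lf2_i
        simp only [eq_comm]
      rw [e2, e3]
      ring
    · intro z hz
      have hmono : ∀ w, Relation.ReflTransGen (fun a b => a ∈ P ∧ b ∈ P ∧ R a b) x w →
          Relation.ReflTransGen (fun a b => a ∈ insert c P ∧ b ∈ insert c P ∧ R a b) x w := by
        intro w hw
        induction hw with
        | refl => exact Relation.ReflTransGen.refl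
        | tail _ hbc ih =>
          exact ih.tail ⟨Set.mem_insert_of_mem _ hbc.1, Set.mem_insert_of_mem _ hbc.2.1, hbc.2.2⟩
      rcases Set.mem_insert_iff.1 hz with rfl | hz
      · refine Relation.ReflTransGen.tail (hmono b (h6 b h5)) ⟨Set.mem_insert_of_mem _ h5,
          Set.mem_insert _ _, ?_⟩
        have := hR e0
        rwa [hs, ht] at this
      · exact hmono z (h6 z hz)
    · intro z hz
      have e1 : lf2_N src tgt (fun e => ((χ e + if e = e0 then 1 else 0 : ℕ) : ℝ)) z =
          lf2_N src tgt (fun e => (χ e : ℝ)) z + (lf2_i (src e0 = z) + lf2_i (tgt e0 = z)) := by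
        unfold lf2_N
        simp_rw [hval, add_mul, Finset.sum_add_distrib, ite_mul, one_mul, zero_mul]
        rw [Finset.sum_ite_eq' Finset.univ e0]
        simp
      rw [e1]
      have g0 := lf2_N_nonneg src tgt (fun e => (χ e : ℝ)) (fun e => Nat.cast_nonneg _) z
      have g1 := lf2_i_nonneg (src e0 = z)
      have g2 := lf2_i_nonneg (tgt e0 = z)
      rcases Set.mem_insert_iff.1 hz with hzc | hz
      · have : lf2_i (tgt e0 = z) = 1 := lf2_i_true (by rw [ht, hzc])
        linarith
      · rcases h7 with ⟨h7, h8⟩ | h7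
        · rw [h8, Set.mem_singleton_iff] at hz
          have : lf2_i (src e0 = z) = 1 := lf2_i_true (by rw [hs, hz, h7])
          linarith
        · have := h7 z hz
          linarith

/-- the abstract decomposition -/
private theorem lf2_main (src tgt : E → V) (R : V → V → Prop) (hR : ∀ e, R (src e) (tgt e))
    (x y : V) (hxy : x ≠ y) (k : ℕ) : ∀ (φ : E → ℝ) (l : ℝ),
    (open scoped Classical in (Finset.univ.filter fun e => φ e ≠ 0).card) = k →
    (∀ e, 0 ≤ φ e) → 0 < l →
    (∀ g, lf2_D src tgt φ g = l * (lf2_i (g = x) - lf2_i (g = y))) →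
    ∃ (m : ℕ) (w : Fin m → ℝ) (P : Fin m → Set V), (∀ i, 0 ≤ w i) ∧ ∑ i, w i = l ∧
      (∀ i, (P i).Finite ∧ x ∈ P i ∧ y ∈ P i ∧
        ∀ z ∈ P i, Relation.ReflTransGen (fun a b => a ∈ P i ∧ b ∈ P i ∧ R a b) x z) ∧
      ∀ z, ∑ i, (P i).indicator (fun _ => w i) z ≤ lf2_N src tgt φ z := by
  classical
  induction k using Nat.strong_induction_on with
  | _ k ih =>
    intro φ l hk hφ hl hd
    obtain ⟨χ, P, h1, h2, h3, h4, h5, h6, h7⟩ := lf2_walk src tgt R hR φ x y
      (lf2_reach src tgt φ hφ l hl x y hd)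
    have h7' : ∀ z ∈ P, 1 ≤ lf2_N src tgt (fun e => (χ e : ℝ)) z := by
      rcases h7 with ⟨h7, -⟩ | h7
      · exact absurd h7.symm hxy
      · exact h7
    have hne : (Finset.univ.filter fun e => χ e ≠ 0).Nonempty := by
      by_contra hcon
      rw [Finset.not_nonempty_iff_eq_empty, Finset.filter_eq_empty_iff] at hcon
      have h8 := h7' x h4
      have h9 : lf2_N src tgt (fun e => (χ e : ℝ)) x = 0 := by
        unfold lf2_N
        refine Finset.sum_eq_zero fun e _ => ?_
        have : χ e = 0 := not_not.1 (hcon (Finset.mem_univ e))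
        simp [this]
      linarith
    obtain ⟨e0, he0, hmin⟩ := Finset.exists_min_image _ (fun e => φ e / (χ e : ℝ)) hne
    rw [Finset.mem_filter] at he0
    have hχ0 : (0 : ℝ) < χ e0 := by exact_mod_cast Nat.pos_of_ne_zero he0.2
    set m0 : ℝ := φ e0 / (χ e0 : ℝ) with hm0
    have hm0pos : 0 < m0 := div_pos (h1 e0 he0.2) hχ0
    have hle : ∀ e, m0 * (χ e : ℝ) ≤ φ e := by
      intro e
      by_cases he : χ e = 0
      · rw [he]
        simpa using hφ e
      · have hpos : (0 : ℝ) < χ e := by exact_mod_cast Nat.pos_of_ne_zero he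
        have := hmin e (Finset.mem_filter.2 ⟨Finset.mem_univ e, he⟩)
        rwa [le_div_iff₀ hpos] at this
    rcases le_or_gt l m0 with hlm | hlm
    · refine ⟨1, fun _ => l, fun _ => P, fun _ => hl.le, by simp, fun _ => ⟨h3, h4, h5, h6⟩, ?_⟩
      intro z
      simp only [Finset.univ_unique, Finset.sum_singleton]
      by_cases hz : z ∈ P
      · rw [Set.indicator_of_mem hz]
        have g1 := h7' z hz
        have g2 := lf2_N_mono src tgt (fun e => l * (χ e : ℝ)) φ (fun e =>
          (mul_le_mul_of_nonneg_right hlm (Nat.cast_nonneg _)).trans (hle e)) z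
        rw [lf2_N_smul] at g2
        nlinarith
      · rw [Set.indicator_of_notMem hz]
        exact lf2_N_nonneg src tgt φ hφ z
    · set φ' : E → ℝ := fun e => φ e - m0 * (χ e : ℝ) with hφ'
      have hcard : (Finset.univ.filter fun e => φ' e ≠ 0).card < k := by
        rw [← hk]
        refine Finset.card_lt_card ?_
        rw [Finset.ssubset_iff_of_subset]
        · refine ⟨e0, Finset.mem_filter.2 ⟨Finset.mem_univ _, (h1 e0 he0.2).ne'⟩, ?_⟩
          rw [Finset.mem_filter]
          rintro ⟨-, h⟩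
          apply h
          simp only [hφ', hm0]
          field_simp
          ring
        · intro e he
          rw [Finset.mem_filter] at he ⊢
          refine ⟨he.1, fun h0 => he.2 ?_⟩
          have h8 := hle e
          rw [h0] at h8
          have h9 : 0 ≤ m0 * (χ e : ℝ) := mul_nonneg hm0pos.le (Nat.cast_nonneg _)
          simp only [hφ', h0]
          linarith
      obtain ⟨m, w, Q, hw, hws, hQ, hQN⟩ := ih _ hcard φ' (l - m0) rfl
        (fun e => by
          simp only [hφ']
          linarith [hle e]) (by linarith) (by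
          intro g
          have g1 := lf2_D_sub src tgt φ (fun e => m0 * (χ e : ℝ)) g
          have g2 := lf2_D_smul src tgt m0 (fun e => (χ e : ℝ)) g
          have g3 : lf2_D src tgt φ' g = lf2_D src tgt (fun e => φ e - m0 * (χ e : ℝ)) g := rfl
          rw [g3, g1, g2, h2, hd]
          ring)
      refine ⟨m + 1, Fin.cons m0 w, Fin.cons P Q, ?_, ?_, ?_, ?_⟩
      · intro i
        refine Fin.cases ?_ (fun j => ?_) i
        · simpa using hm0pos.le
        · simpa using hw j
      · rw [Fin.sum_univ_succ]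
        simp only [Fin.cons_zero, Fin.cons_succ]
        rw [hws]
        ring
      · intro i
        refine Fin.cases ?_ (fun j => ?_) i
        · simp only [Fin.cons_zero]
          exact ⟨h3, h4, h5, h6⟩
        · simp only [Fin.cons_succ]
          exact hQ j
      · intro z
        rw [Fin.sum_univ_succ]
        simp only [Fin.cons_zero, Fin.cons_succ]
        have g1 := hQN z
        have g2 := lf2_N_sub src tgt φ (fun e => m0 * (χ e : ℝ)) z
        have g3 := lf2_N_smul src tgt m0 (fun e => (χ e : ℝ)) z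
        have g4 : lf2_N src tgt φ' z = lf2_N src tgt (fun e => φ e - m0 * (χ e : ℝ)) z := rfl
        have g5 : P.indicator (fun _ => m0) z ≤ m0 * lf2_N src tgt (fun e => (χ e : ℝ)) z := by
          by_cases hz : z ∈ P
          · rw [Set.indicator_of_mem hz]
            have := h7' z hz
            nlinarith
          · rw [Set.indicator_of_notMem hz]
            exact mul_nonneg hm0pos.le (lf2_N_nonneg src tgt _ (fun e => Nat.cast_nonneg _) z)
        linarith

end lf2abs

section lf
variable {Γ : Type u} [Group Γ]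

/-- sum over the edges with a given origin -/
private theorem lf2_sum_src (S : Finset Γ) (F : Finset (Γ × S)) (f : Γ × S → ℝ)
    (hf : ∀ e, e ∉ F → f e = 0) (g : Γ) :
    ∑ e ∈ F, f e * lf2_i (e.1 = g) = ∑ s : S, f (g, s) := by
  classical
  set A : Finset Γ := insert g (F.image Prod.fst) with hA
  have h1 : ∑ e ∈ F, f e * lf2_i (e.1 = g) =
      ∑ e ∈ A ×ˢ (Finset.univ : Finset S), f e * lf2_i (e.1 = g) := by
    refine Finset.sum_subset ?_ ?_
    · intro e he
      rw [Finset.mem_product]
      exact ⟨Finset.mem_insert_of_mem (Finset.mem_image_of_mem _ he), Finset.mem_univ _⟩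
    · intro e _ he
      rw [hf e he, zero_mul]
  rw [h1, Finset.sum_product_right]
  refine Finset.sum_congr rfl fun s _ => ?_
  rw [Finset.sum_eq_single g]
  · simp only
    rw [lf2_i_true trivial, mul_one]
  · intro a _ ha
    simp only
    rw [lf2_i_false ha, mul_zero]
  · intro h
    exact absurd (Finset.mem_insert_self _ _) h

/-- sum over the edges with a given end -/
private theorem lf2_sum_tgt (S : Finset Γ) (F : Finset (Γ × S)) (f : Γ × S → ℝ)
    (hf : ∀ e, e ∉ F → f e = 0) (g : Γ) :
    ∑ e ∈ F, f e * lf2_i (e.1 * (e.2 : Γ) = g) = ∑ s : S, f (g * (s : Γ)⁻¹, s) := by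
  classical
  set A : Finset Γ := (Finset.univ.image fun s : S => g * (s : Γ)⁻¹) ∪ F.image Prod.fst with hA
  have h1 : ∑ e ∈ F, f e * lf2_i (e.1 * (e.2 : Γ) = g) =
      ∑ e ∈ A ×ˢ (Finset.univ : Finset S), f e * lf2_i (e.1 * (e.2 : Γ) = g) := by
    refine Finset.sum_subset ?_ ?_
    · intro e he
      rw [Finset.mem_product]
      exact ⟨Finset.mem_union_right _ (Finset.mem_image_of_mem _ he), Finset.mem_univ _⟩
    · intro e _ he
      rw [hf e he, zero_mul]
  rw [h1, Finset.sum_product_right]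
  refine Finset.sum_congr rfl fun s _ => ?_
  rw [Finset.sum_eq_single (g * (s : Γ)⁻¹)]
  · simp only
    rw [lf2_i_true (by group), mul_one]
  · intro a _ ha
    simp only
    rw [lf2_i_false, mul_zero]
    intro h
    apply ha
    rw [← h]
    group
  · intro h
    exact absurd (Finset.mem_union_left _ (Finset.mem_image_of_mem _ (Finset.mem_univ s))) h

/-! #### LF-2 : decomposition of a finitely supported unit flow into random paths -/
theorem flow_decomp (S : Finset Γ) (φ : Γ × S → ℝ) (hφ : φ.support.Finite) (x y : Γ)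
    (hxy : x ≠ y) (hd : ∀ g, dvg S φ g = dlt x g - dlt y g) :
    ∃ (m : ℕ) (w : Fin m → ℝ) (P : Fin m → Set Γ), (∀ i, 0 ≤ w i) ∧ ∑ i, w i = 1 ∧
      (∀ i, (P i).Finite ∧ x ∈ P i ∧ y ∈ P i ∧ ∀ z ∈ P i, Linked (S : Set Γ) (P i) x z) ∧
      ∀ z, ∑ i, (P i).indicator (fun _ => w i) z ≤ nrm S φ z := by
  classical
  set F : Finset (Γ × S) := hφ.toFinset with hF
  have hF0 : ∀ e, e ∉ F → φ e = 0 := by
    intro e he
    rw [hF, Set.Finite.mem_toFinset, Function.mem_support, not_not] at he
    exact he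
  let src : F → Γ := fun e => if 0 ≤ φ e.1 then e.1.1 else e.1.1 * (e.1.2 : Γ)
  let tgt : F → Γ := fun e => if 0 ≤ φ e.1 then e.1.1 * (e.1.2 : Γ) else e.1.1
  let ψ : F → ℝ := fun e => |φ e.1|
  have hD : ∀ g, lf2_D src tgt ψ g = dvg S φ g := by
    intro g
    have h1 := lf2_sum_src S F φ hF0 g
    have h2 := lf2_sum_tgt S F φ hF0 g
    unfold lf2_D dvg
    rw [Finset.sum_sub_distrib, ← h1, ← h2, ← Finset.sum_sub_distrib, ← Finset.sum_coe_sort F]
    refine Finset.sum_congr rfl fun e _ => ?_
    simp only [src, tgt, ψ]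
    by_cases h : 0 ≤ φ e.1
    · rw [if_pos h, if_pos h, abs_of_nonneg h]
      ring
    · rw [if_neg h, if_neg h, abs_of_neg (not_le.1 h)]
      ring
  have hN : ∀ g, lf2_N src tgt ψ g = nrm S φ g := by
    intro g
    have h1 := lf2_sum_src S F (fun e => |φ e|) (fun e he => by rw [hF0 e he, abs_zero]) g
    have h2 := lf2_sum_tgt S F (fun e => |φ e|) (fun e he => by rw [hF0 e he, abs_zero]) g
    unfold lf2_N nrm
    rw [Finset.sum_add_distrib, ← h1, ← h2, ← Finset.sum_add_distrib, ← Finset.sum_coe_sort F]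
    refine Finset.sum_congr rfl fun e _ => ?_
    simp only [src, tgt, ψ]
    by_cases h : 0 ≤ φ e.1
    · rw [if_pos h, if_pos h]
      ring
    · rw [if_neg h, if_neg h]
      ring
  have hdlt : ∀ a g : Γ, dlt a g = lf2_i (g = a) := by
    intro a g
    by_cases h : g = a
    · rw [lf2_i_true h, h, dlt_self]
    · rw [lf2_i_false h, dlt_ne h]
  obtain ⟨m, w, P, h1, h2, h3, h4⟩ := lf2_main src tgt
    (fun a b => a⁻¹ * b ∈ (S : Set Γ) ∨ b⁻¹ * a ∈ (S : Set Γ)) (by
      intro e
      simp only [src, tgt]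
      by_cases h : 0 ≤ φ e.1
      · rw [if_pos h, if_pos h]
        left
        rw [inv_mul_cancel_left]
        exact e.1.2.2
      · rw [if_neg h, if_neg h]
        right
        rw [inv_mul_cancel_left]
        exact e.1.2.2) x y hxy _ ψ 1 rfl (fun e => abs_nonneg _) one_pos (by
      intro g
      rw [hD, hd, hdlt, hdlt, one_mul])
  refine ⟨m, w, P, h1, h2, ?_, ?_⟩
  · intro i
    obtain ⟨g1, g2, g3, g4⟩ := h3 i
    exact ⟨g1, g2, g3, fun z hz => g4 z hz⟩
  · intro z
    rw [← hN]
    exact h4 z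

end lf

end Pool.Agent.Lib.MP_0f7bfe_al
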