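import Pool.Agent.Lib.MP_0f7bfe_al.FM1

open scoped Pointwise

namespace Pool.Agent.Lib.MP_0f7bfe_al

universe u v

/-! ### Flows on Cayley graphs: the edge `(g, s)` leads from `g` to `g * s` -/

section lf
variable {Γ : Type u} [Group Γ]

/-- Net outflow at `g` of a flow on the edges `(g, s)` from `g` to `g * s`, `s ∈ S`. -/
def dvg (S : Finset Γ) (θ : Γ × S → ℝ) (g : Γ) : ℝ :=
  ∑ s : S, (θ (g, s) - θ (g * (s : Γ)⁻¹, s))

/-- Total amount of flow in the edges at `g`. -/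
def nrm (S : Finset Γ) (θ : Γ × S → ℝ) (g : Γ) : ℝ :=
  ∑ s : S, (|θ (g, s)| + |θ (g * (s : Γ)⁻¹, s)|)

/-- The function `δ_x`. -/
noncomputable def dlt (x g : Γ) : ℝ := by classical exact if g = x then 1 else 0

omit [Group Γ] in
theorem dlt_self (x : Γ) : dlt x x = 1 := by simp [dlt]
omit [Group Γ] in
theorem dlt_ne {x g : Γ} (h : g ≠ x) : dlt x g = 0 := by simp [dlt, h]

/-- There is a unit flow of finite energy from `1` to infinity (by a theorem of T. Lyons this is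
equivalent to transience of the simple random walk). -/
def FlowToInfinity (S : Finset Γ) : Prop :=
  ∃ θ : Γ × S → ℝ, Summable (fun e => θ e ^ 2) ∧ ∀ g, dvg S θ g = dlt 1 g

/-- Every square-summable flow without sources is a limit, in `ℓ²`, of finitely supported flows
without sources. -/
def CycleApprox (S : Finset Γ) : Prop :=
  ∀ ψ : Γ × S → ℝ, Summable (fun e => ψ e ^ 2) → (∀ g, dvg S ψ g = 0) → ∀ η : ℝ, 0 < η →
    ∃ c : Γ × S → ℝ, c.support.Finite ∧ (∀ g, dvg S c g = 0) ∧ ∑' e, (ψ e - c e) ^ 2 ≤ η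

/-- Every harmonic function of finite Dirichlet energy on the Cayley graph is constant. -/
def DirichletLiouville (S : Finset Γ) : Prop :=
  ∀ u : Γ → ℝ, Summable (fun e : Γ × S => (u (e.1 * e.2) - u e.1) ^ 2) →
    (∀ g, ∑ s : S, ((u (g * s) - u g) + (u (g * (s : Γ)⁻¹) - u g)) = 0) → ∀ g, u g = u 1

/-- Følner's condition. -/
def FolnerAmenable (Γ : Type u) [Group Γ] : Prop :=
  ∀ (T : Finset Γ) (ε : ℝ), 0 < ε → ∃ F : Finset Γ, F.Nonempty ∧
    ∀ t ∈ T, (Set.ncard {g : Γ | g ∈ F ∧ g * t ∉ F} : ℝ) ≤ ε * F.card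

/-- Number of elements of the ball of radius `r` of the Cayley graph. -/
noncomputable def growth (S : Finset Γ) (r : ℕ) : ℕ :=
  Set.ncard {g : Γ | (SimpleGraph.mulCayley (S : Set Γ)).dist 1 g ≤ r}

/-- Family of pieces joining prescribed far apart points, pieces without common ends being
`F`-far from each other. -/
def FarPaths (S : Finset Γ) : Prop :=
  ∀ (F : Set Γ), F.Finite → ∀ (J T : Type) [Fintype J] [Fintype T] (src tgt : T → J),
    (∀ t, src t ≠ tgt t) → ∃ (x : J → Γ) (P : T → Set Γ),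
      (∀ i j, i ≠ j → (x i)⁻¹ * x j ∉ F) ∧
      (∀ t, x (src t) ∈ P t ∧ x (tgt t) ∈ P t ∧ ∀ z ∈ P t, Linked (S : Set Γ) (P t) (x (src t)) z) ∧
      ∀ t t', src t ≠ src t' → src t ≠ tgt t' → tgt t ≠ src t' → tgt t ≠ tgt t' →
        ∀ z ∈ P t, ∀ z' ∈ P t', z⁻¹ * z' ∉ F

end lf

end Pool.Agent.Lib.MP_0f7bfe_al
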