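import Pool.Agent.Lib.MP_0f7bfe_al.Basic

open scoped Pointwise

namespace Pool.Agent.Lib.MP_0f7bfe_al

universe u v

section rel
variable {X : Type u}

/-- `A` and `B` differ by finite sets. -/
def AE (A B : Set X) : Prop := (A \ B).Finite ∧ (B \ A).Finite

/-- relative size -/
noncomputable def rsz (A B : Set X) : ℤ := ((A \ B).ncard : ℤ) - ((B \ A).ncard : ℤ)

theorem AE.symm {A B : Set X} (h : AE A B) : AE B A := ⟨h.2, h.1⟩
theorem AE.refl (A : Set X) : AE A A := by simp [AE]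
theorem AE.trans {A B C : Set X} (h : AE A B) (h' : AE B C) : AE A C := by
  constructor
  · refine (h.1.union h'.1).subset ?_
    intro x hx
    by_cases hb : x ∈ B
    · exact Or.inr ⟨hb, hx.2⟩
    · exact Or.inl ⟨hx.1, hb⟩
  · refine (h.2.union h'.2).subset ?_
    intro x hx
    by_cases hb : x ∈ B
    · exact Or.inl ⟨hb, hx.2⟩
    · exact Or.inr ⟨hx.1, hb⟩

theorem AE.compl {A B : Set X} (h : AE A B) : AE Aᶜ Bᶜ := by
  constructor
  · refine h.2.subset ?_
    intro x hx; simp only [Set.mem_sdiff, Set.mem_compl_iff, not_not] at hx ⊢; tauto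
  · refine h.1.subset ?_
    intro x hx; simp only [Set.mem_sdiff, Set.mem_compl_iff, not_not] at hx ⊢; tauto

theorem rsz_eq {A B E : Set X} (hE : E.Finite) (h1 : A \ B ⊆ E) (h2 : B \ A ⊆ E) :
    rsz A B = ((A ∩ E).ncard : ℤ) - ((B ∩ E).ncard : ℤ) := by
  have e1 : A ∩ E = (A \ B) ∪ (A ∩ B ∩ E) := by
    ext x
    constructor
    · rintro ⟨ha, he⟩
      by_cases hb : x ∈ B
      · exact Or.inr ⟨⟨ha, hb⟩, he⟩
      · exact Or.inl ⟨ha, hb⟩
    · rintro (h | h)
      · exact ⟨h.1, h1 h⟩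
      · exact ⟨h.1.1, h.2⟩
  have e2 : B ∩ E = (B \ A) ∪ (A ∩ B ∩ E) := by
    ext x
    constructor
    · rintro ⟨ha, he⟩
      by_cases hb : x ∈ A
      · exact Or.inr ⟨⟨hb, ha⟩, he⟩
      · exact Or.inl ⟨ha, hb⟩
    · rintro (h | h)
      · exact ⟨h.1, h2 h⟩
      · exact ⟨h.1.2, h.2⟩
  have f0 : (A ∩ B ∩ E).Finite := hE.subset Set.inter_subset_right
  have n1 : (A ∩ E).ncard = (A \ B).ncard + (A ∩ B ∩ E).ncard := by
    rw [e1]
    refine Set.ncard_union_eq ?_ (hE.subset h1) f0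
    rw [Set.disjoint_left]
    rintro x ⟨_, hb⟩ ⟨⟨_, hb'⟩, _⟩
    exact hb hb'
  have n2 : (B ∩ E).ncard = (B \ A).ncard + (A ∩ B ∩ E).ncard := by
    rw [e2]
    refine Set.ncard_union_eq ?_ (hE.subset h2) f0
    rw [Set.disjoint_left]
    rintro x ⟨_, hb⟩ ⟨⟨hb', _⟩, _⟩
    exact hb hb'
  rw [rsz, n1, n2]
  push_cast
  ring

theorem rsz_trans {A B C : Set X} (h : AE A B) (h' : AE B C) :
    rsz A C = rsz A B + rsz B C := by
  set E : Set X := (A \ B) ∪ (B \ A) ∪ ((B \ C) ∪ (C \ B)) with hE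
  have hEf : E.Finite := (h.1.union h.2).union (h'.1.union h'.2)
  have k1 : A \ B ⊆ E := fun x hx => Or.inl (Or.inl hx)
  have k2 : B \ A ⊆ E := fun x hx => Or.inl (Or.inr hx)
  have k3 : B \ C ⊆ E := fun x hx => Or.inr (Or.inl hx)
  have k4 : C \ B ⊆ E := fun x hx => Or.inr (Or.inr hx)
  have k5 : A \ C ⊆ E := by
    intro x hx
    by_cases hb : x ∈ B
    · exact k3 ⟨hb, hx.2⟩
    · exact k1 ⟨hx.1, hb⟩
  have k6 : C \ A ⊆ E := by
    intro x hx
    by_cases hb : x ∈ B
    · exact k2 ⟨hb, hx.2⟩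
    · exact k4 ⟨hx.1, hb⟩
  rw [rsz_eq hEf k1 k2, rsz_eq hEf k3 k4, rsz_eq hEf k5 k6]
  ring

variable {Γ : Type v} [Group Γ] [MulAction Γ X]

theorem AE.smul {A B : Set X} (h : AE A B) (g : Γ) : AE (g • A) (g • B) := by
  constructor
  · rw [← Set.smul_set_sdiff]; exact h.1.smul_set
  · rw [← Set.smul_set_sdiff]; exact h.2.smul_set

theorem rsz_smul (A B : Set X) (g : Γ) : rsz (g • A) (g • B) = rsz A B := by
  rw [rsz, rsz, ← Set.smul_set_sdiff, ← Set.smul_set_sdiff, Set.ncard_smul_set,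
    Set.ncard_smul_set]

/-- elements almost preserving `D` -/
def aePres (D : Set X) : Subgroup Γ where
  carrier := {g | AE (g • D) D}
  one_mem' := by simp [AE.refl]
  mul_mem' := by
    intro a b ha hb
    have h1 : AE (a • b • D) (a • D) := AE.smul hb a
    show AE ((a * b) • D) D
    rw [mul_smul]
    exact h1.trans ha
  inv_mem' := by
    intro a ha
    have h1 : AE (a⁻¹ • a • D) (a⁻¹ • D) := AE.smul ha a⁻¹
    rw [inv_smul_smul] at h1
    exact h1.symm

theorem mem_aePres {D : Set X} {g : Γ} : g ∈ (aePres D : Subgroup Γ) ↔ AE (g • D) D := Iff.rfl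

/-- the translation number -/
noncomputable def transl (D : Set X) : (aePres D : Subgroup Γ) →* Multiplicative ℤ where
  toFun g := Multiplicative.ofAdd (rsz ((g : Γ) • D) D)
  map_one' := by simp [rsz]
  map_mul' := by
    intro a b
    rw [← ofAdd_add]
    congr 1
    have h1 : AE ((a : Γ) • (b : Γ) • D) ((a : Γ) • D) := AE.smul b.2 (a : Γ)
    have h2 : AE ((a : Γ) • D) D := a.2
    have h3 := rsz_trans h1 h2
    rw [Subgroup.coe_mul, mul_smul, h3, rsz_smul]
    ring

theorem transl_apply {D : Set X} (g : (aePres D : Subgroup Γ)) :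
    transl D g = Multiplicative.ofAdd (rsz ((g : Γ) • D) D) := rfl

end rel

section graph
variable {Γ : Type v} [Group Γ] {X : Type u} [MulAction Γ X] {G : SimpleGraph X}

theorem bdry_inter_subset (A B : Set X) : bdry G (A ∩ B) ⊆ bdry G A ∪ bdry G B := by
  rintro x ⟨y, hxy, h⟩
  by_cases hA : (x ∈ A ↔ y ∈ A)
  · right
    refine ⟨y, hxy, fun hB => h ?_⟩
    simp only [Set.mem_inter_iff, hA, hB]
  · exact Or.inl ⟨y, hxy, hA⟩

theorem Homog.bdry_smul (h : Homog Γ G) (g : Γ) (Y : Set X) :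
    bdry G (g • Y) = g • bdry G Y := by
  ext x
  constructor
  · rintro ⟨y, hxy, hne⟩
    refine ⟨g⁻¹ • x, ⟨g⁻¹ • y, h.inv _ _ _ hxy, ?_⟩, by simp⟩
    simpa [Set.mem_smul_set_iff_inv_smul_mem] using hne
  · rintro ⟨z, ⟨y, hzy, hne⟩, rfl⟩
    refine ⟨g • y, h.inv _ _ _ hzy, ?_⟩
    simpa using hne

/-- All vertices on the far side see `Y` in the same way. -/
theorem side_iff (hc : G.Connected) {D Y : Set X} {o c : X} {R : ℕ}
    (hD : ∀ z ∈ bdry G D, G.dist o z ≤ R) (hY : ∀ z ∈ bdry G Y, G.dist c z ≤ R)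
    (hcD : c ∈ D) (hfar : 2 * R + 1 < G.dist o c) (x : X) (hx : x ∉ D ∨ G.dist o x ≤ R) :
    x ∈ Y ↔ o ∈ Y := by
  classical
  -- the ball around c lies in D
  have hball : ∀ z, G.dist c z ≤ R → z ∈ D := by
    intro z hz
    obtain ⟨p, hp⟩ := hc.exists_walk_length_eq_dist c z
    refine (mem_iff_of_walk p ?_).1 hcD
    intro w hw hw'
    have h1 := hD w hw'
    have h2 : G.dist c w ≤ p.length :=
      (SimpleGraph.dist_le (p.takeUntil w hw)).trans (p.length_takeUntil_le_length hw)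
    have h3 : G.dist o c ≤ G.dist o w + G.dist w c := hc.dist_triangle
    rw [G.dist_comm (u := w)] at h3
    omega
  obtain ⟨p, hp⟩ := hc.exists_walk_length_eq_dist x o
  refine mem_iff_of_walk p ?_
  intro z hz hz'
  have hz1 := hY z hz'
  have hz2 := hball z hz1
  have hlen := congrArg SimpleGraph.Walk.length (p.take_spec hz)
  rw [SimpleGraph.Walk.length_append] at hlen
  have hzo : G.dist z o ≤ (p.dropUntil z hz).length := SimpleGraph.dist_le _
  have hxz : G.dist x z ≤ (p.takeUntil z hz).length := SimpleGraph.dist_le _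
  have htri : G.dist o c ≤ G.dist o z + G.dist z c := hc.dist_triangle
  rw [G.dist_comm (u := z) (v := c)] at htri
  have hcomm : G.dist z o = G.dist o z := G.dist_comm
  rcases hx with hx | hx
  · obtain ⟨b, hb, hb'⟩ := exists_mem_bdry (Y := Dᶜ) (p.takeUntil z hz) hx (by simpa using hz2)
    rw [bdry_compl] at hb'
    have hb1 := hD b hb'
    have h4 : G.dist x b ≤ (p.takeUntil z hz).length :=
      (SimpleGraph.dist_le ((p.takeUntil z hz).takeUntil b hb)).trans
        ((p.takeUntil z hz).length_takeUntil_le_length hb)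
    have h5 : G.dist x o ≤ G.dist x b + G.dist b o := hc.dist_triangle
    rw [G.dist_comm (u := b)] at h5
    omega
  · rw [G.dist_comm] at hx
    omega

/-- both sides of the boundary -/
theorem exists_bdry_mem (hc : G.Connected) {D : Set X} (h1 : D.Nonempty) (h2 : Dᶜ.Nonempty) :
    ∃ b ∈ bdry G D, b ∈ D := by
  obtain ⟨x, hx⟩ := h1
  obtain ⟨y, hy⟩ := h2
  obtain ⟨p⟩ := hc x y
  obtain ⟨z, -, w, hzw, hne⟩ := exists_mem_bdry p hx hy
  by_cases hz : z ∈ D
  · exact ⟨z, ⟨w, hzw, hne⟩, hz⟩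
  · refine ⟨w, ⟨z, hzw.symm, fun h => hne h.symm⟩, ?_⟩
    by_contra hw
    exact hne ⟨fun h => absurd h hz, fun h => absurd h hw⟩

theorem exists_radius (h : Homog Γ G) {Y : Set X} (hY : Y.Finite) (o : X) :
    ∃ R, ∀ z ∈ Y, G.dist o z ≤ R := by
  obtain ⟨R, hR⟩ := (hY.image (fun z => G.dist o z)).bddAbove
  exact ⟨R, fun z hz => hR ⟨z, hz, rfl⟩⟩

/-- classification of the sets with finite boundary. -/
theorem classify {D Y : Set X} (h3 : ¬ ManyEnds G 3) (hD : (bdry G D).Finite)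
    (hDi : D.Infinite) (hDc : Dᶜ.Infinite) (hY : (bdry G Y).Finite) (hYi : Y.Infinite)
    (hYc : Yᶜ.Infinite) : AE Y D ∨ AE Y Dᶜ := by
  have three : ∀ A B C : Set X, A.Infinite → B.Infinite → C.Infinite → (bdry G A).Finite →
      (bdry G B).Finite → (bdry G C).Finite → Disjoint A B → Disjoint A C → Disjoint B C →
      False := by
    intro A B C a1 b1 c1 a2 b2 c2 d1 d2 d3
    apply h3
    refine ⟨![A, B, C], ?_, ?_, ?_⟩
    · intro i; fin_cases i <;> simpa
    · intro i; fin_cases i <;> simpa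
    · intro i j hij
      fin_cases i <;> fin_cases j <;> first | exact absurd rfl hij | skip
      all_goals simp
      all_goals first | assumption | exact Disjoint.symm ‹_›
  have hDc' : (bdry G Dᶜ).Finite := by rwa [bdry_compl]
  have hYc' : (bdry G Yᶜ).Finite := by rwa [bdry_compl]
  have fin_inter : ∀ {A B : Set X}, (bdry G A).Finite → (bdry G B).Finite →
      (bdry G (A ∩ B)).Finite := fun ha hb => (ha.union hb).subset (bdry_inter_subset _ _)
  have i1 : (D ∩ Y).Finite ∨ (D ∩ Yᶜ).Finite := by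
    by_contra hcon
    push Not at hcon
    refine three (D ∩ Y) (D ∩ Yᶜ) Dᶜ hcon.1 hcon.2 hDc (fin_inter hD hY) (fin_inter hD hYc') hDc'
      ?_ ?_ ?_ <;> rw [Set.disjoint_left] <;> intro x <;> simp <;> tauto
  have i2 : (Dᶜ ∩ Y).Finite ∨ (Dᶜ ∩ Yᶜ).Finite := by
    by_contra hcon
    push Not at hcon
    refine three (Dᶜ ∩ Y) (Dᶜ ∩ Yᶜ) D hcon.1 hcon.2 hDi (fin_inter hDc' hY) (fin_inter hDc' hYc')
      hD ?_ ?_ ?_ <;> rw [Set.disjoint_left] <;> intro x <;> simp <;> tauto
  rcases i1 with i1 | i1 <;> rcases i2 with i2 | i2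
  · exfalso
    apply hYi
    refine (i1.union i2).subset ?_
    intro x hx
    by_cases hd : x ∈ D
    · exact Or.inl ⟨hd, hx⟩
    · exact Or.inr ⟨hd, hx⟩
  · right
    refine ⟨i1.subset ?_, i2.subset ?_⟩
    · intro x hx; exact ⟨by simpa using hx.2, hx.1⟩
    · intro x hx; exact ⟨hx.1, hx.2⟩
  · left
    refine ⟨i2.subset ?_, i1.subset ?_⟩
    · intro x hx; exact ⟨hx.2, hx.1⟩
    · intro x hx; exact ⟨hx.1, hx.2⟩
  · exfalso
    apply hYc
    refine (i1.union i2).subset ?_
    intro x hx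
    by_cases hd : x ∈ D
    · exact Or.inl ⟨hd, hx⟩
    · exact Or.inr ⟨hd, hx⟩

/-- FM10 -/
theorem Homog.twoEnded (h : Homog Γ G) (h1 : ¬ OneEnd G) (h3 : ¬ ManyEnds G 3) (o : X) :
    ∃ (Γ' : Subgroup Γ) (τ : Γ' →* Multiplicative ℤ), Γ'.index ≠ 0 ∧ (∃ g, τ g ≠ 1) ∧
      (∀ g : Γ', (g : Γ) • o = o → τ g = 1) ∧
      {x | ∃ g : Γ', τ g = 1 ∧ (g : Γ) • o = x}.Finite := by
  rw [OneEnd] at h1
  push Not at h1
  obtain ⟨D, hD, hDi, hDc⟩ := h1
  obtain ⟨R, hR⟩ := exists_radius h hD o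
  have hgbd : ∀ g : Γ, (bdry G (g • D)).Finite := fun g => by
    rw [h.bdry_smul]; exact hD.smul_set
  have hgi : ∀ g : Γ, (g • D).Infinite := fun g => hDi.smul_set
  have hgc : ∀ g : Γ, (g • D)ᶜ.Infinite := fun g => by
    rw [← Set.smul_set_compl]; exact hDc.smul_set
  have hcl : ∀ g : Γ, AE (g • D) D ∨ AE (g • D) Dᶜ := fun g =>
    classify h3 hD hDi hDc (hgbd g) (hgi g) (hgc g)
  have hgR : ∀ g : Γ, ∀ z ∈ bdry G (g • D), G.dist (g • o) z ≤ R := by
    intro g z hz
    rw [h.bdry_smul] at hz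
    obtain ⟨w, hw, rfl⟩ := hz
    simp only
    rw [h.dist_smul]
    exact hR w hw
  have hDne : D.Nonempty := hDi.nonempty
  have hDcne : Dᶜ.Nonempty := hDc.nonempty
  -- the crucial nonvanishing
  have hfar : ∀ g : (aePres D : Subgroup Γ), 2 * R + 1 < G.dist o ((g : Γ) • o) →
      transl D g ≠ 1 := by
    intro g hg
    have hAE : AE ((g : Γ) • D) D := g.2
    have hne : rsz ((g : Γ) • D) D ≠ 0 := by
      by_cases hgo : (g : Γ) • o ∈ D
      · have hs := fun x hx => side_iff h.conn hR (hgR g) hgo hg x hx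
        have ho : o ∉ (g : Γ) • D := by
          intro ho
          apply hDc
          refine hAE.1.subset ?_
          intro x hx
          exact ⟨(hs x (Or.inl hx)).2 ho, hx⟩
        have hsub : (g : Γ) • D \ D = ∅ := by
          rw [Set.eq_empty_iff_forall_notMem]
          rintro x ⟨hx1, hx2⟩
          exact ho ((hs x (Or.inl hx2)).1 hx1)
        obtain ⟨b, hb, hbD⟩ := exists_bdry_mem h.conn hDne hDcne
        have hbn : b ∈ D \ (g : Γ) • D :=
          ⟨hbD, fun hb' => ho ((hs b (Or.inr (hR b hb))).1 hb')⟩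
        have hpos : 0 < (D \ (g : Γ) • D).ncard := (Set.ncard_pos hAE.2).2 ⟨b, hbn⟩
        rw [rsz, hsub, Set.ncard_empty]
        omega
      · have hR' : ∀ z ∈ bdry G Dᶜ, G.dist o z ≤ R := by rwa [bdry_compl]
        have hs := fun x hx => side_iff (D := Dᶜ) h.conn hR' (hgR g) hgo hg x hx
        have ho : o ∈ (g : Γ) • D := by
          by_contra ho
          apply hDi
          refine hAE.2.subset ?_
          intro x hx
          exact ⟨hx, fun hx' => ho ((hs x (Or.inl (by simpa using hx))).1 hx')⟩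
        have hsub : D \ (g : Γ) • D = ∅ := by
          rw [Set.eq_empty_iff_forall_notMem]
          rintro x ⟨hx1, hx2⟩
          exact hx2 ((hs x (Or.inl (by simpa using hx1))).2 ho)
        obtain ⟨b, hb, hbD⟩ := exists_bdry_mem (D := Dᶜ) h.conn hDcne (by simpa using hDne)
        have hbn : b ∈ (g : Γ) • D \ D :=
          ⟨(hs b (Or.inr (hR' b hb))).2 ho, hbD⟩
        have hpos : 0 < ((g : Γ) • D \ D).ncard := (Set.ncard_pos hAE.1).2 ⟨b, hbn⟩
        rw [rsz, hsub, Set.ncard_empty]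
        omega
    rw [transl_apply]
    intro hcon
    apply hne
    have := congrArg Multiplicative.toAdd hcon
    simpa using this
  -- products
  have hprod : ∀ g k : Γ, AE (g • D) Dᶜ → AE (k • D) Dᶜ → g⁻¹ * k ∈ (aePres D : Subgroup Γ) := by
    intro g k hg hk
    rw [mem_aePres, mul_smul]
    have h1 : AE (k • D) (g • D) := hk.trans hg.symm
    have h2 := AE.smul h1 g⁻¹
    rwa [inv_smul_smul] at h2
  have hnot : ∀ g : Γ, AE (g • D) Dᶜ → g ∉ (aePres D : Subgroup Γ) := by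
    intro g hg hg'
    have h4 : AE D Dᶜ := (mem_aePres.1 hg').symm.trans hg
    apply hDi
    refine h4.1.subset ?_
    intro x hx
    exact ⟨hx, by simpa using hx⟩
  have hindex : (aePres D : Subgroup Γ).index ≠ 0 := by
    by_cases hall : ∀ g : Γ, AE (g • D) D
    · have : (aePres D : Subgroup Γ) = ⊤ := by
        rw [Subgroup.eq_top_iff']
        exact hall
      rw [this]
      simp
    · push Not at hall
      obtain ⟨k, hk⟩ := hall
      have hk' : AE (k • D) Dᶜ := (hcl k).resolve_left hk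
      have : (aePres D : Subgroup Γ).index = 2 := by
        rw [Subgroup.index_eq_two_iff]
        refine ⟨k, fun b => ?_⟩
        by_cases hb : b ∈ (aePres D : Subgroup Γ)
        · refine Or.inr ⟨hb, fun hbk => hk ?_⟩
          have := (aePres D : Subgroup Γ).mul_mem ((aePres D : Subgroup Γ).inv_mem hb) hbk
          rw [inv_mul_cancel_left] at this
          exact this
        · refine Or.inl ⟨?_, hb⟩
          have hb' : AE (b • D) Dᶜ := (hcl b).resolve_left hb
          rw [mem_aePres, mul_smul]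
          have e1 : AE (b • k • D) (b • Dᶜ) := AE.smul hk' b
          have e2 : AE (b • Dᶜ) D := by
            rw [Set.smul_set_compl]
            have := hb'.compl
            rwa [compl_compl] at this
          exact e1.trans e2
      rw [this]; norm_num
  have hX : Infinite X := Set.infinite_univ_iff.1 (hDi.mono (Set.subset_univ _))
  have hbig : ∀ s : Set X, s.Finite → ∃ y, ∀ x ∈ s, 2 * R + 1 < G.dist x y := by
    intro s hs
    have hfin : (⋃ x ∈ s, {y | G.dist x y ≤ 2 * R + 1}).Finite :=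
      hs.biUnion fun x _ => h.ball_finite x _
    obtain ⟨y, hy⟩ := hfin.infinite_compl.nonempty
    refine ⟨y, fun x hx => ?_⟩
    by_contra hcon
    apply hy
    simp only [Set.mem_iUnion]
    exact ⟨x, hx, by simpa using hcon⟩
  refine ⟨aePres D, transl D, hindex, ?_, ?_, ?_⟩
  · obtain ⟨y1, hy1⟩ := hbig {o} (Set.finite_singleton o)
    obtain ⟨y2, hy2⟩ := hbig {o, y1} (Set.toFinite _)
    obtain ⟨g1, hg1⟩ := h.trans o y1
    obtain ⟨g2, hg2⟩ := h.trans o y2
    have d01 : 2 * R + 1 < G.dist o y1 := hy1 o (by simp)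
    have d02 : 2 * R + 1 < G.dist o y2 := hy2 o (by simp)
    have d12 : 2 * R + 1 < G.dist y1 y2 := hy2 y1 (by simp)
    rcases hcl g1 with c1 | c1
    · exact ⟨⟨g1, c1⟩, hfar ⟨g1, c1⟩ (by simpa [hg1] using d01)⟩
    rcases hcl g2 with c2 | c2
    · exact ⟨⟨g2, c2⟩, hfar ⟨g2, c2⟩ (by simpa [hg2] using d02)⟩
    refine ⟨⟨g1⁻¹ * g2, hprod g1 g2 c1 c2⟩, hfar _ ?_⟩
    have : G.dist o ((g1⁻¹ * g2) • o) = G.dist y1 y2 := by
      rw [mul_smul, hg2, ← h.dist_smul g1, hg1, smul_inv_smul]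
    simpa [this] using d12
  · intro g hg
    rw [transl_apply]
    have hAE : AE ((g : Γ) • D) D := g.2
    obtain ⟨r, hr⟩ := exists_radius h (hAE.1.union hAE.2) o
    have hE := h.ball_finite o r
    have k1 : ((g : Γ) • D) \ D ⊆ {y | G.dist o y ≤ r} := fun x hx => hr x (Or.inl hx)
    have k2 : D \ ((g : Γ) • D) ⊆ {y | G.dist o y ≤ r} := fun x hx => hr x (Or.inr hx)
    have e : ((g : Γ) • D) ∩ {y | G.dist o y ≤ r} = (g : Γ) • (D ∩ {y | G.dist o y ≤ r}) := by
      rw [Set.smul_set_inter]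
      congr 1
      ext x
      rw [Set.mem_smul_set_iff_inv_smul_mem]
      show G.dist o x ≤ r ↔ G.dist o ((g : Γ)⁻¹ • x) ≤ r
      have : G.dist o ((g : Γ)⁻¹ • x) = G.dist o x := by
        rw [← h.dist_smul (g : Γ) o, smul_inv_smul, hg]
      rw [this]
    rw [rsz_eq hE k1 k2, e, Set.ncard_smul_set]
    simp
  · refine (h.ball_finite o (2 * R + 1)).subset ?_
    rintro x ⟨g, hg, rfl⟩
    by_contra hcon
    exact hfar g (by simpa using hcon) hg

end graph

end Pool.Agent.Lib.MP_0f7bfe_al
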