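import Pool.Agent.Lib.MP_0f7bfe_al.FM1
import Pool.Agent.Lib.MP_0f7bfe_al.FM4
import Pool.Agent.Lib.MP_0f7bfe_al.FM56
import Pool.Agent.Lib.MP_0f7bfe_al.FM7
import Pool.Agent.Lib.MP_0f7bfe_al.FM8
import Pool.Agent.Lib.MP_0f7bfe_al.FM9
import Pool.Agent.Lib.MP_0f7bfe_al.TwoEnded
import Pool.Agent.Lib.MP_0f7bfe_al.FM11
import Pool.Agent.Lib.MP_0f7bfe_al.FM12

/-!
The dichotomy for groups with an infinite f.g. commensurated subgroup of infinite index.
-/

open scoped Pointwise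

namespace Pool.Agent.Lib.MP_0f7bfe_al

universe u v

section graph
variable {Γ : Type v} [Group Γ] {X : Type u} [MulAction Γ X] {G : SimpleGraph X}

theorem Homog.manyEnds_of_three (h : Homog Γ G) (h3 : ManyEnds G 3) : ∀ n, ManyEnds G n := by
  have key : ∀ k, ManyEnds G (3 + k) := by
    intro k
    induction k with
    | zero => exact h3
    | succ k ih => exact h.manyEnds_succ (Nat.le_add_right 3 k) ih
  intro n
  obtain ⟨Y, h1, h2, h3⟩ := key n
  have hle : n ≤ 3 + n := Nat.le_add_left n 3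
  exact ⟨fun i => Y (Fin.castLE hle i), fun i => h1 _, fun i => h2 _, fun i j hij => h3 _ _ (by
    intro he; exact hij (Fin.castLE_injective hle he))⟩

theorem Homog.dichotomy (h : Homog Γ G) (hX : Infinite X) (o : X) :
    Pods G ∨ ∃ (Γ' : Subgroup Γ) (τ : Γ' →* Multiplicative ℤ), Γ'.index ≠ 0 ∧ (∃ g, τ g ≠ 1) ∧
      (∀ g : Γ', (g : Γ) • o = o → τ g = 1) ∧
      {x | ∃ g : Γ', τ g = 1 ∧ (g : Γ) • o = x}.Finite := by
  by_cases h1 : OneEnd G
  · exact Or.inl (h.pods_of_oneEnd hX h1)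
  by_cases h3 : ManyEnds G 3
  · exact Or.inl (h.pods_of_manyEnds (h.manyEnds_of_three h3))
  exact Or.inr (h.twoEnded h1 h3 o)

end graph

section coset
variable {G : Type u} [Group G]

/-- FM13: the dichotomy for groups. -/
theorem dichotomy (hG : Group.FG G) (N : Subgroup G) (hN : Commensurated N) (hfg : N.FG)
    (hinf : Infinite N) (hidx : Infinite (G ⧸ N)) :
    AllCliques G ∨ ∃ A : Subgroup G, A.index ≠ 0 ∧ Nonempty (A ≃* Multiplicative (ℤ × ℤ)) := by
  obtain ⟨T, hT⟩ := hG.1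
  obtain ⟨TN, hTN⟩ := hfg
  have hfgN : Group.FG N := (Group.fg_iff_subgroup_fg N).2 ⟨TN, hTN⟩
  obtain ⟨TN', hTN'⟩ := hfgN.1
  have hcay := cayley_homog (G := N) (TN' : Set N) TN'.finite_toSet hTN'
  have hcos := cosetGraph_homog N hN (T : Set G) T.finite_toSet hT
  rcases hcos.dichotomy hidx ((1 : G) : G ⧸ N) with hP | h2
  · exact Or.inl (allCliques_of_pods_coset N hN hinf _ _ TN.finite_toSet T.finite_toSet hTN hT hP)
  rcases hcay.dichotomy hinf (1 : N) with hP | h1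
  · exact Or.inl (allCliques_of_pods_subgroup N hN hidx _ _ TN'.finite_toSet T.finite_toSet
      hTN' hT hP)
  refine Or.inr (virtually_Z2 N ?_ ?_)
  · obtain ⟨N', τ, ha, hb, -, hd⟩ := h1
    refine ⟨N', τ, ha, hb, ?_⟩
    simpa using hd
  · obtain ⟨G', τ, ha, hb, hc, hd⟩ := h2
    refine ⟨G', τ, ha, hb, ?_, ?_⟩
    · intro g hg
      apply hc
      change ((((g : G) * 1 : G)) : G ⧸ N) = ((1 : G) : G ⧸ N)
      rw [mul_one, eq_comm, QuotientGroup.eq]
      simpa using hg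
    · have : {x : G ⧸ N | ∃ g : G', τ g = 1 ∧ ((g : G) : G ⧸ N) = x} =
          {x : G ⧸ N | ∃ g : G', τ g = 1 ∧ (g : G) • ((1 : G) : G ⧸ N) = x} := by
        ext x
        constructor
        · rintro ⟨g, h1, h2⟩
          refine ⟨g, h1, ?_⟩
          change ((((g : G) * 1 : G)) : G ⧸ N) = x
          rw [mul_one, h2]
        · rintro ⟨g, h1, h2⟩
          refine ⟨g, h1, ?_⟩
          change ((((g : G) * 1 : G)) : G ⧸ N) = x at h2
          rwa [mul_one] at h2
      rw [this]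
      exact hd

end coset

end Pool.Agent.Lib.MP_0f7bfe_al
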