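import Pool.Agent.Lib.MP_0f7bfe_al.OCDefs
import Pool.Agent.Lib.MP_0f7bfe_al.FM3
import Pool.Agent.Lib.MP_0f7bfe_al.FM56

open scoped Pointwise

namespace Pool.Agent.Lib.MP_0f7bfe_al

universe u v

section oc
variable {Γ : Type u} [Group Γ]

theorem GoodGen.pow_mono {T : Set Γ} (h : GoodGen T) {m n : ℕ} (hmn : m ≤ n) : T ^ m ⊆ T ^ n := by
  induction hmn with
  | refl => exact subset_rfl
  | step _ ih =>
    refine ih.trans ?_
    rw [pow_succ]
    intro x hx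
    exact ⟨x, hx, 1, h.one, mul_one x⟩

theorem GoodGen.pow_inv {T : Set Γ} (h : GoodGen T) {n : ℕ} {x : Γ} (hx : x ∈ T ^ n) :
    x⁻¹ ∈ T ^ n := by
  induction n generalizing x with
  | zero =>
    rw [pow_zero, Set.mem_one] at hx ⊢
    rw [hx, inv_one]
  | succ n ih =>
    rw [pow_succ] at hx
    obtain ⟨a, ha, t, ht, rfl⟩ := hx
    rw [pow_succ', mul_inv_rev]
    exact ⟨t⁻¹, h.inv t ht, a⁻¹, ih ha, rfl⟩

theorem GoodGen.pow_finite {T : Set Γ} (h : GoodGen T) (n : ℕ) : (T ^ n).Finite := by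
  induction n with
  | zero => rw [pow_zero]; exact Set.finite_one
  | succ n ih => rw [pow_succ]; exact ih.mul h.fin

theorem GoodGen.exists_pow {T : Set Γ} (h : GoodGen T) (x : Γ) : ∃ n, x ∈ T ^ n := by
  have hx : x ∈ Subgroup.closure T := by rw [h.gen]; trivial
  induction hx using Subgroup.closure_induction with
  | mem x hx => exact ⟨1, by rwa [pow_one]⟩
  | one => exact ⟨0, by rw [pow_zero]; exact Set.mem_one.2 rfl⟩
  | mul x y _ _ hx hy =>
    obtain ⟨m, hm⟩ := hx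
    obtain ⟨n, hn⟩ := hy
    exact ⟨m + n, by rw [pow_add]; exact Set.mul_mem_mul hm hn⟩
  | inv x _ hx =>
    obtain ⟨n, hn⟩ := hx
    exact ⟨n, h.pow_inv hn⟩

theorem GoodGen.exists_pow_set {T : Set Γ} (h : GoodGen T) (F : Set Γ) (hF : F.Finite) :
    ∃ n, F ⊆ T ^ n := by
  choose n hn using h.exists_pow
  obtain ⟨N, hN⟩ := (hF.image n).bddAbove
  exact ⟨N, fun x hx => h.pow_mono (hN ⟨x, hx, rfl⟩) (hn x)⟩

theorem zpow_mul_mem_nbE {T : Set Γ} {z : Γ} {ρ : ℕ} (k : ℤ) {x : Γ} :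
    z ^ k * x ∈ nbE T z ρ ↔ x ∈ nbE T z ρ := by
  constructor
  · rintro ⟨j, hj⟩
    refine ⟨j + k, ?_⟩
    rw [zpow_add, mul_assoc]
    exact hj
  · rintro ⟨j, hj⟩
    refine ⟨j - k, ?_⟩
    rw [← mul_assoc, ← zpow_add, sub_add_cancel]
    exact hj

theorem zpow_mul_mem_farE {T : Set Γ} {z : Γ} {ρ : ℕ} (k : ℤ) {x : Γ} :
    z ^ k * x ∈ farE T z ρ ↔ x ∈ farE T z ρ := by
  change (z ^ k * x ∉ nbE T z ρ) ↔ (x ∉ nbE T z ρ)
  rw [zpow_mul_mem_nbE]

theorem nbE_mono {T : Set Γ} (h : GoodGen T) (z : Γ) {m n : ℕ} (hmn : m ≤ n) :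
    nbE T z m ⊆ nbE T z n := by
  rintro x ⟨k, hk⟩
  exact ⟨k, h.pow_mono hmn hk⟩

theorem farE_anti {T : Set Γ} (h : GoodGen T) (z : Γ) {m n : ℕ} (hmn : m ≤ n) :
    farE T z n ⊆ farE T z m := fun _ hx hx' => hx (nbE_mono h z hmn hx')

theorem nbE_step {T : Set Γ} (h : GoodGen T) {z : Γ} {ρ K : ℕ} {x y : Γ} (hx : x ∈ nbE T z ρ)
    (hxy : x⁻¹ * y ∈ T ^ K) : y ∈ nbE T z (ρ + K) := by
  have _ := h
  obtain ⟨k, hk⟩ := hx
  refine ⟨k, ?_⟩
  rw [pow_add]
  exact ⟨z ^ k * x, hk, x⁻¹ * y, hxy, by group⟩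

theorem mem_nbE_of_mem_pow {T : Set Γ} {z : Γ} {ρ : ℕ} {x : Γ} (hx : x ∈ T ^ ρ) :
    x ∈ nbE T z ρ := ⟨0, by rwa [zpow_zero, one_mul]⟩

theorem exists_nbE {T : Set Γ} (h : GoodGen T) (z : Γ) (D : Set Γ) (hD : D.Finite) :
    ∃ ρ, D ⊆ nbE T z ρ := by
  obtain ⟨n, hn⟩ := h.exists_pow_set D hD
  exact ⟨n, fun x hx => mem_nbE_of_mem_pow (hn hx)⟩

theorem oc_linked_zpow {T B : Set Γ} {z : Γ} (hB : ∀ (k : ℤ) (x : Γ), x ∈ B → z ^ k * x ∈ B)
    (k : ℤ) {x y : Γ} (h : Linked T B x y) : Linked T B (z ^ k * x) (z ^ k * y) := by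
  refine fm3_linked_mono subset_rfl ?_ (fm3_linked_smul (z ^ k) h)
  intro g hg
  have := hB k _ hg
  rwa [mul_inv_cancel_left] at this

theorem oc_linked_mono {T B B' : Set Γ} (hB : B ⊆ B') {x y : Γ}
    (h : Linked T B x y) : Linked T B' x y := fm3_linked_mono subset_rfl hB h

theorem oc_linked_symm {T B : Set Γ} {x y : Γ} (h : Linked T B x y) : Linked T B y x :=
  fm6_linked_symm h

theorem oc_linked_trans {T B : Set Γ} {x y w : Γ} (h : Linked T B x y) (h' : Linked T B y w) :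
    Linked T B x w := Relation.ReflTransGen.trans h h'

theorem oc_linked_bdd {T B : Set Γ} (hT : GoodGen T) (z : Γ) {x y : Γ} (h : Linked T B x y) :
    ∃ H, Linked T (B ∩ nbE T z H) x y := by
  induction h with
  | refl => exact ⟨0, Relation.ReflTransGen.refl⟩
  | tail h0 h ih =>
    rename_i b c
    obtain ⟨H, hH⟩ := ih
    obtain ⟨ρ, hρ⟩ := exists_nbE hT z {b, c} (by simp)
    refine ⟨max H ρ, (oc_linked_mono ?_ hH).tail ⟨⟨h.1, ?_⟩, ⟨h.2.1, ?_⟩, h.2.2⟩⟩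
    · exact Set.inter_subset_inter_right _ (nbE_mono hT z (le_max_left _ _))
    · exact nbE_mono hT z (le_max_right _ _) (hρ (by simp))
    · exact nbE_mono hT z (le_max_right _ _) (hρ (by simp))

theorem oc_linked_finite {T B : Set Γ} {x y : Γ} (h : Linked T B x y) (hx : x ∈ B) :
    ∃ D ⊆ B, D.Finite ∧ x ∈ D ∧ y ∈ D ∧ ∀ w ∈ D, Linked T D x w := by
  induction h with
  | refl =>
    refine ⟨{x}, by simpa using hx, Set.finite_singleton x, rfl, rfl, ?_⟩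
    rintro w rfl
    exact Relation.ReflTransGen.refl
  | tail h0 h ih =>
    rename_i b c
    obtain ⟨D, hDB, hDf, hxD, hbD, hD⟩ := ih
    refine ⟨insert c D, Set.insert_subset h.2.1 hDB, hDf.insert c, Or.inr hxD, Or.inl rfl, ?_⟩
    have hsub : D ⊆ insert c D := Set.subset_insert _ _
    rintro w (rfl | hw)
    · exact (oc_linked_mono hsub (hD b hbD)).tail ⟨Or.inr hbD, Or.inl rfl, h.2.2⟩
    · exact oc_linked_mono hsub (hD w hw)

theorem oc_zpow_finite {z : Γ} (hz : ¬ IsOfFinOrder z) (F : Set Γ) (hF : F.Finite) :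
    {k : ℤ | z ^ k ∈ F}.Finite :=
  hF.preimage (injective_zpow_iff_not_isOfFinOrder.2 hz).injOn

theorem farE_nonempty {T : Set Γ} (hT : GoodGen T) (z : Γ)
    (hidx : Infinite (Γ ⧸ Subgroup.zpowers z)) (ρ : ℕ) : (farE T z ρ).Nonempty := by
  by_contra hcon
  rw [Set.not_nonempty_iff_eq_empty] at hcon
  have hall : ∀ x : Γ, x ∈ nbE T z ρ := by
    intro x
    by_contra hx
    have : x ∈ farE T z ρ := hx
    rw [hcon] at this
    exact this
  -- every element is in `T ^ ρ * zpowers z`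
  have hsurj : (Set.univ : Set (Γ ⧸ Subgroup.zpowers z)) ⊆
      (fun x : Γ => (x : Γ ⧸ Subgroup.zpowers z)) '' (T ^ ρ) := by
    intro q _
    obtain ⟨g, rfl⟩ := QuotientGroup.mk_surjective q
    obtain ⟨k, hk⟩ := hall g⁻¹
    refine ⟨(z ^ k * g⁻¹)⁻¹, hT.pow_inv hk, ?_⟩
    change (((z ^ k * g⁻¹)⁻¹ : Γ) : Γ ⧸ Subgroup.zpowers z) = (g : Γ ⧸ Subgroup.zpowers z)
    rw [QuotientGroup.eq]
    have : (z ^ k * g⁻¹)⁻¹⁻¹ * g = z ^ k := by group
    rw [this]
    exact Subgroup.zpow_mem_zpowers z k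
  exact Set.infinite_univ (((hT.pow_finite ρ).image _).subset hsurj)

theorem IsLine.smul_mem {z : Γ} {M : ℕ} {D : Set Γ} (k : ℤ) {x : Γ} (hx : x ∈ satE z M D) :
    z ^ ((M : ℤ) * k) * x ∈ satE z M D := by
  obtain ⟨j, hj⟩ := hx
  refine ⟨j - k, ?_⟩
  rw [← mul_assoc, ← zpow_add]
  have : (M : ℤ) * (j - k) + (M : ℤ) * k = (M : ℤ) * j := by ring
  rw [this]
  exact hj

theorem subset_satE {z : Γ} {M : ℕ} {D : Set Γ} : D ⊆ satE z M D := by
  intro x hx
  exact ⟨0, by simpa using hx⟩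

theorem satE_subset {z : Γ} {M : ℕ} {D B : Set Γ} (hB : ∀ (k : ℤ) (x : Γ), x ∈ B → z ^ k * x ∈ B)
    (hD : D ⊆ B) : satE z M D ⊆ B := by
  rintro x ⟨k, hk⟩
  have := hB (-((M : ℤ) * k)) _ (hD hk)
  rw [← mul_assoc, ← zpow_add, neg_add_cancel, zpow_zero, one_mul] at this
  exact this

theorem nbE_zpow (T : Set Γ) (z : Γ) (ρ : ℕ) (k : ℤ) (x : Γ) (hx : x ∈ nbE T z ρ) :
    z ^ k * x ∈ nbE T z ρ := (zpow_mul_mem_nbE k).2 hx

theorem farE_zpow (T : Set Γ) (z : Γ) (ρ : ℕ) (k : ℤ) (x : Γ) (hx : x ∈ farE T z ρ) :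
    z ^ k * x ∈ farE T z ρ := (zpow_mul_mem_farE k).2 hx

/-- connectedness of the line -/
theorem IsLine.linked {T : Set Γ} {z : Γ} {M : ℕ} {D : Set Γ} {q : Γ} (h : IsLine T z M D q)
    {x y : Γ} (hx : x ∈ satE z M D) (hy : y ∈ satE z M D) : Linked T (satE z M D) x y := by
  -- translation by `z ^ (M * k)`
  have htr : ∀ (k : ℤ) {a b : Γ}, Linked T (satE z M D) a b →
      Linked T (satE z M D) (z ^ ((M : ℤ) * k) * a) (z ^ ((M : ℤ) * k) * b) := by
    intro k a b hab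
    refine oc_linked_mono ?_ (fm3_linked_smul (z ^ ((M : ℤ) * k)) hab)
    intro g hg
    have := IsLine.smul_mem k hg
    rwa [mul_inv_cancel_left] at this
  have hD : ∀ a ∈ D, Linked T (satE z M D) q a := fun a ha =>
    oc_linked_mono subset_satE (h.conn a ha)
  have h1 : Linked T (satE z M D) q (z ^ ((M : ℤ) * 1) * q) := by
    have := hD _ h.zq_mem
    rwa [mul_one, zpow_natCast]
  have hk : ∀ k : ℤ, Linked T (satE z M D) q (z ^ ((M : ℤ) * k) * q) := by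
    intro k
    induction k using Int.induction_on with
    | zero =>
      rw [mul_zero, zpow_zero, one_mul]
      exact Relation.ReflTransGen.refl
    | succ k ih =>
      refine oc_linked_trans ih ?_
      have := htr k h1
      rw [← mul_assoc, ← zpow_add] at this
      have e : (M : ℤ) * k + (M : ℤ) * 1 = (M : ℤ) * (k + 1) := by ring
      rwa [e] at this
    | pred k ih =>
      refine oc_linked_trans ih (oc_linked_symm ?_)
      have := htr (-k - 1) h1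
      rw [← mul_assoc, ← zpow_add] at this
      have e : (M : ℤ) * (-k - 1) + (M : ℤ) * 1 = (M : ℤ) * (-k) := by ring
      rwa [e] at this
  have hq : ∀ a ∈ satE z M D, Linked T (satE z M D) q a := by
    rintro a ⟨k, hka⟩
    have h2 := htr (-k) (hD _ hka)
    rw [← mul_assoc, ← zpow_add] at h2
    have e : (M : ℤ) * (-k) + (M : ℤ) * k = 0 := by ring
    rw [e, zpow_zero, one_mul] at h2
    exact oc_linked_trans (hk (-k)) h2
  exact oc_linked_trans (oc_linked_symm (hq x hx)) (hq y hy)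

end oc

end Pool.Agent.Lib.MP_0f7bfe_al
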