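import Pool.Agent.Lib.MP_0f7bfe_al.OC1
import Pool.Agent.Lib.MP_0f7bfe_al.FM56

/-!
Wave OC: nested non-separating lines are pods.
-/

open scoped Pointwise

namespace Pool.Agent.Lib.MP_0f7bfe_al

universe u v

section oc
variable {Γ : Type u} [Group Γ]

/-- a line -/
structure OC2Line (T : Set Γ) (z : Γ) where
  M : ℕ
  D : Set Γ
  q : Γ
  line : IsLine T z M D q

/-- the points of the line -/
def OC2Line.pts {T : Set Γ} {z : Γ} (l : OC2Line T z) : Set Γ := satE z l.M l.D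

theorem OC2_mem_sat {z : Γ} {M : ℕ} {D : Set Γ} {x : Γ} (hx : x ∈ D) : x ∈ satE z M D :=
  ⟨0, by simpa using hx⟩

theorem OC2_sat_far {T : Set Γ} {z : Γ} {M ρ : ℕ} {D : Set Γ} (h : D ⊆ farE T z ρ) :
    satE z M D ⊆ farE T z ρ := by
  rintro x ⟨k, hk⟩
  exact (zpow_mul_mem_farE _).mp (h hk)

theorem OC2_sat_nb {T : Set Γ} {z : Γ} {M ρ : ℕ} {D : Set Γ} (h : D ⊆ nbE T z ρ) :
    satE z M D ⊆ nbE T z ρ := by
  rintro x ⟨k, hk⟩
  exact (zpow_mul_mem_nbE _).mp (h hk)

theorem OC2Line.exists_nb {T : Set Γ} {z : Γ} (hT : GoodGen T) (l : OC2Line T z) :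
    ∃ H, l.pts ⊆ nbE T z H := by
  obtain ⟨H, hH⟩ := exists_nbE hT z l.D l.line.fin
  exact ⟨H, OC2_sat_nb hH⟩

theorem OC2_unif {P : ℕ → ℕ → Prop} (hmono : ∀ i H H', H ≤ H' → P i H → P i H') (n : ℕ)
    (h : ∀ i < n, ∃ H, P i H) : ∃ H, ∀ i < n, P i H := by
  induction n with
  | zero => exact ⟨0, fun i hi => absurd hi (Nat.not_lt_zero i)⟩
  | succ n ih =>
    obtain ⟨H, hH⟩ := ih fun i hi => h i (hi.trans (Nat.lt_succ_self n))
    obtain ⟨H', hH'⟩ := h n (Nat.lt_succ_self n)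
    refine ⟨max H H', fun i hi => ?_⟩
    rcases Nat.lt_succ_iff_lt_or_eq.mp hi with hi | rfl
    · exact hmono i _ _ (le_max_left _ _) (hH i hi)
    · exact hmono _ _ _ (le_max_right _ _) hH'

/-- points far from all lines whose index is not in `s` -/
def OC2Av (T : Set Γ) (K n : ℕ) (L : ℕ → Set Γ) (s : Set ℕ) : Set Γ :=
  {y | ∀ j < n, j ∉ s → ∀ w ∈ L j, w⁻¹ * y ∉ T ^ K}

structure OC2Good (T : Set Γ) (z : Γ) (K n : ℕ) (L : ℕ → OC2Line T z) : Prop where
  far : ∀ i < n, ∀ j < n, i ≠ j → ∀ x ∈ (L i).pts, ∀ y ∈ (L j).pts, x⁻¹ * y ∉ T ^ K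
  esc : ∀ i < n, ∀ R, ∃ p ∈ (L i).pts, ∃ x ∈ farE T z R,
    Linked T (OC2Av T K n (fun j => (L j).pts) {i}) p x

theorem OC2_far_av {T : Set Γ} {z : Γ} (hT : GoodGen T) {K n H : ℕ} {L : ℕ → Set Γ}
    (hH : ∀ j < n, L j ⊆ nbE T z H) (s : Set ℕ) : farE T z (H + K) ⊆ OC2Av T K n L s := by
  intro y hy j hj _ w hw h
  exact hy (nbE_step hT (hH j hj hw) h)

theorem OC2_nb_av {T : Set Γ} {z : Γ} (hT : GoodGen T) {K ρ : ℕ} {w y : Γ}
    (hw : w ∈ farE T z (ρ + K)) (hy : y ∈ nbE T z ρ) : w⁻¹ * y ∉ T ^ K := by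
  intro h
  have h1 := hT.pow_inv h
  rw [mul_inv_rev, inv_inv] at h1
  exact hw (nbE_step hT hy h1)

theorem OC2_shell {T : Set Γ} {z : Γ} (hT : GoodGen T) {ρ R : ℕ}
    (hR : ∀ x ∈ farE T z R, ∀ y ∈ farE T z R, Linked T (farE T z ρ) x y) (m : ℕ) {x : Γ}
    (hx : x ∈ farE T z R) : ∃ H, ∀ y ∈ farE T z R, y ∈ nbE T z m →
      Linked T (farE T z ρ ∩ nbE T z H) x y := by
  have h1 : ∀ y0 : Γ, ∃ H, y0 ∈ farE T z R →
      ∀ k : ℤ, Linked T (farE T z ρ ∩ nbE T z H) x (z ^ k * y0) := by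
    intro y0
    by_cases hy : y0 ∈ farE T z R
    · obtain ⟨H1, h1⟩ := oc_linked_bdd hT z (hR x hx y0 hy)
      have hzy : z ^ (1 : ℤ) * y0 ∈ farE T z R := (zpow_mul_mem_farE 1).mpr hy
      obtain ⟨H2, h2⟩ := oc_linked_bdd hT z (hR y0 hy _ hzy)
      refine ⟨max H1 H2, fun _ k => ?_⟩
      have hB : ∀ (k : ℤ) (x : Γ), x ∈ farE T z ρ ∩ nbE T z (max H1 H2) →
          z ^ k * x ∈ farE T z ρ ∩ nbE T z (max H1 H2) := fun k x hx =>
        ⟨(zpow_mul_mem_farE k).mpr hx.1, (zpow_mul_mem_nbE k).mpr hx.2⟩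
      have h3 : Linked T (farE T z ρ ∩ nbE T z (max H1 H2)) y0 (z ^ (1 : ℤ) * y0) :=
        fm5_linked_mono subset_rfl
          (Set.inter_subset_inter_right _ (nbE_mono hT z (le_max_right _ _))) h2
      have h4 : ∀ k : ℤ, Linked T (farE T z ρ ∩ nbE T z (max H1 H2)) (z ^ k * y0)
          (z ^ (k + 1) * y0) := fun k => by
        have := oc_linked_zpow hB k h3
        rwa [← mul_assoc, ← zpow_add] at this
      have h5 : ∀ k : ℤ, Linked T (farE T z ρ ∩ nbE T z (max H1 H2)) y0 (z ^ k * y0) := by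
        intro k
        induction k using Int.induction_on with
        | zero => rw [zpow_zero, one_mul]; exact Relation.ReflTransGen.refl
        | succ i ih => exact ih.trans (h4 _)
        | pred i ih =>
          have := fm6_linked_symm (h4 (-(i : ℤ) - 1))
          rw [sub_add_cancel] at this
          exact ih.trans this
      exact (fm5_linked_mono subset_rfl
        (Set.inter_subset_inter_right _ (nbE_mono hT z (le_max_left _ _))) h1).trans (h5 k)
    · exact ⟨0, fun h => absurd h hy⟩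
  choose f hf using h1
  obtain ⟨H, hH⟩ := ((hT.pow_finite m).image f).bddAbove
  refine ⟨H, fun y hy hym => ?_⟩
  obtain ⟨k, hk⟩ := hym
  have h2 := hf (z ^ k * y) ((zpow_mul_mem_farE k).mpr hy) (-k)
  rw [← mul_assoc, ← zpow_add, neg_add_cancel, zpow_zero, one_mul] at h2
  exact fm5_linked_mono subset_rfl (Set.inter_subset_inter_right _
    (nbE_mono hT z (hH (Set.mem_image_of_mem f hk)))) h2

theorem OC2_ray {T : Set Γ} {z : Γ} (hT : GoodGen T) {σ : ℕ → Γ} (hσ : IsRay T z σ) (R : ℕ) :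
    ∃ N, (∀ i ≥ N, σ i ∈ farE T z R) ∧ σ N ∈ nbE T z (R + 1) := by
  classical
  have hex : ∃ N, ∀ i ≥ N, σ i ∈ farE T z R := by
    obtain ⟨N, hN⟩ := hσ.esc R
    exact ⟨N, fun i hi => hN i hi⟩
  refine ⟨Nat.find hex, Nat.find_spec hex, ?_⟩
  obtain ⟨N, hN⟩ : ∃ N, Nat.find hex = N + 1 := by
    refine Nat.exists_eq_succ_of_ne_zero fun h0 => ?_
    have h1 := Nat.find_spec hex 0 (by rw [h0])
    exact h1 (nbE_mono hT z (Nat.zero_le R) hσ.start)
  rw [hN]
  have h2 : σ N ∈ nbE T z R := by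
    by_contra hc
    refine Nat.find_min hex (m := N) (by rw [hN]; exact Nat.lt_succ_self N) fun i hi => ?_
    rcases hi.lt_or_eq with h | h
    · exact Nat.find_spec hex i (by rw [hN]; exact h)
    · rw [← h]; exact hc
  exact nbE_step hT h2 (by rw [pow_one]; exact hσ.step N)

theorem OC2_ray_linked {T B : Set Γ} {σ : ℕ → Γ} (hstep : ∀ i, (σ i)⁻¹ * σ (i + 1) ∈ T) {N : ℕ}
    (hB : ∀ i ≥ N, σ i ∈ B) {j : ℕ} (hj : N ≤ j) : Linked T B (σ N) (σ j) := by
  induction j, hj using Nat.le_induction with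
  | base => exact Relation.ReflTransGen.refl
  | succ j hj ih =>
    exact ih.tail ⟨hB j hj, hB (j + 1) (hj.trans (Nat.le_succ j)), Or.inl (hstep j)⟩

theorem OC2_step {T : Set Γ} {z : Γ} (hT : GoodGen T) (hidx : Infinite (Γ ⧸ Subgroup.zpowers z))
    (h1 : OneCo T z) {K : ℕ} (hns : NonSep T z K) {n : ℕ} {L : ℕ → OC2Line T z}
    (hG : OC2Good T z K n L) : ∃ L', OC2Good T z K (n + 1) L' := by
  classical
  obtain ⟨H, hH⟩ := OC2_unif (P := fun i H => (L i).pts ⊆ nbE T z H)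
    (fun i H H' hle h => h.trans (nbE_mono hT z hle)) n fun i _ => (L i).exists_nb hT
  obtain ⟨R0, hR0⟩ := h1 (H + K)
  set R1 := max (H + K) R0 with hR1def
  have hR1 : ∀ x ∈ farE T z R1, ∀ y ∈ farE T z R1, Linked T (farE T z (H + K)) x y :=
    fun x hx y hy => hR0 x (farE_anti hT z (le_max_right _ _) hx) y
      (farE_anti hT z (le_max_right _ _) hy)
  -- the old links
  obtain ⟨H', hH'⟩ := OC2_unif (P := fun i H' => ∃ p ∈ (L i).pts, ∃ x ∈ farE T z R1,
      Linked T (OC2Av T K n (fun j => (L j).pts) {i} ∩ nbE T z H') p x ∧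
      ∀ y ∈ farE T z R1, y ∈ nbE T z (R1 + 1) →
        Linked T (farE T z (H + K) ∩ nbE T z H') x y)
    (fun i A A' hle => by
      rintro ⟨p, hp, x, hx, h2, h3⟩
      exact ⟨p, hp, x, hx, fm5_linked_mono subset_rfl
        (Set.inter_subset_inter_right _ (nbE_mono hT z hle)) h2, fun y hy hy' =>
        fm5_linked_mono subset_rfl (Set.inter_subset_inter_right _ (nbE_mono hT z hle))
          (h3 y hy hy')⟩) n
    (fun i hi => by
      obtain ⟨p, hp, x, hx, hl⟩ := hG.esc i hi R1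
      obtain ⟨A, hA⟩ := oc_linked_bdd hT z hl
      obtain ⟨A', hA'⟩ := OC2_shell hT hR1 (R1 + 1) hx
      exact ⟨max A A', p, hp, x, hx, fm5_linked_mono subset_rfl
        (Set.inter_subset_inter_right _ (nbE_mono hT z (le_max_left _ _))) hA, fun y hy hy' =>
        fm5_linked_mono subset_rfl
          (Set.inter_subset_inter_right _ (nbE_mono hT z (le_max_right _ _))) (hA' y hy hy')⟩)
  obtain ⟨M, D, q, σ, hline, hDfar, hσ, hσfar⟩ := hns (max H' R1 + K)
  have hsat : satE z M D ⊆ farE T z (max H' R1 + K) := OC2_sat_far hDfar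
  obtain ⟨N, hN1, hN2⟩ := OC2_ray hT hσ R1
  set L' : ℕ → OC2Line T z := Function.update L n ⟨M, D, q, hline⟩ with hL'
  have hL'n : (L' n).pts = satE z M D := by
    rw [hL', Function.update_self]
    rfl
  have hL'o : ∀ i < n, L' i = L i := fun i hi => by
    rw [hL', Function.update_of_ne hi.ne]
  have hold : ∀ i < n, (L' i).pts = (L i).pts := fun i hi => by rw [hL'o i hi]
  have hfarn : ∀ i < n, ∀ x ∈ (L i).pts, ∀ y ∈ satE z M D, x⁻¹ * y ∉ T ^ K := by
    intro i hi x hx y hy h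
    have h2 := nbE_step hT (hH i hi hx) h
    exact hsat hy (nbE_mono hT z (by have := le_max_left (H + K) R0; omega) h2)
  have hfarn' : ∀ i < n, ∀ x ∈ (L i).pts, ∀ y ∈ satE z M D, y⁻¹ * x ∉ T ^ K := by
    intro i hi x hx y hy h
    have h2 := hT.pow_inv h
    rw [mul_inv_rev, inv_inv] at h2
    exact hfarn i hi x hx y hy h2
  -- avoiding the new lines
  have hav : ∀ (s : Set ℕ) (y : Γ), y ∈ OC2Av T K n (fun j => (L j).pts) s →
      (∀ w ∈ satE z M D, w⁻¹ * y ∉ T ^ K) → y ∈ OC2Av T K (n + 1) (fun j => (L' j).pts) s := by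
    intro s y hy hy' j hj hjs w hw
    rcases Nat.lt_succ_iff_lt_or_eq.mp hj with hj | rfl
    · refine hy j hj hjs w ?_
      change w ∈ (L j).pts
      rw [← hold j hj]
      exact hw
    · exact hy' w (by rw [← hL'n]; exact hw)
  refine ⟨L', ⟨fun i hi j hj hij x hx y hy => ?_, fun i hi R => ?_⟩⟩
  · rcases Nat.lt_succ_iff_lt_or_eq.mp hi with hi | rfl
    · rw [hold i hi] at hx
      rcases Nat.lt_succ_iff_lt_or_eq.mp hj with hj | rfl
      · rw [hold j hj] at hy
        exact hG.far i hi j hj hij x hx y hy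
      · rw [hL'n] at hy
        exact hfarn i hi x hx y hy
    · rw [hL'n] at hx
      rcases Nat.lt_succ_iff_lt_or_eq.mp hj with hj | rfl
      · rw [hold j hj] at hy
        exact hfarn' j hj y hy x hx
      · exact absurd rfl hij
  · rcases Nat.lt_succ_iff_lt_or_eq.mp hi with hi | rfl
    · -- an old line
      obtain ⟨p, hp, x, hx, hl1, hl2⟩ := hH' i hi
      obtain ⟨N', hN'⟩ := hσ.esc R
      have hl2' := hl2 (σ N) (hN1 N le_rfl) hN2
      refine ⟨p, by rw [hold i hi]; exact hp, σ (max N N'), hN' _ (le_max_right _ _), ?_⟩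
      have e1 : Linked T (OC2Av T K (n + 1) (fun j => (L' j).pts) {i}) p x := by
        refine fm5_linked_mono subset_rfl (fun y hy => hav _ y hy.1 fun w hw => ?_) hl1
        refine OC2_nb_av hT (ρ := max H' R1) (hsat hw) (nbE_mono hT z (le_max_left _ _) hy.2)
      have e2 : Linked T (OC2Av T K (n + 1) (fun j => (L' j).pts) {i}) x (σ N) := by
        refine fm5_linked_mono subset_rfl (fun y hy => hav _ y (OC2_far_av hT hH _ hy.1)
          fun w hw => ?_) hl2'
        exact OC2_nb_av hT (ρ := max H' R1) (hsat hw) (nbE_mono hT z (le_max_left _ _) hy.2)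
      have e3 : Linked T (OC2Av T K (n + 1) (fun j => (L' j).pts) {i}) (σ N) (σ (max N N')) := by
        refine OC2_ray_linked hσ.step (fun k hk => hav _ _ (OC2_far_av hT hH _
          (farE_anti hT z (le_max_left _ _) (hN1 k hk))) fun w hw => hσfar k w hw)
          (le_max_left _ _)
      exact (e1.trans e2).trans e3
    · -- the new line
      obtain ⟨x, hx⟩ := farE_nonempty hT z hidx (max R R1)
      refine ⟨q, by rw [hL'n]; exact OC2_mem_sat hline.q_mem, x,
        farE_anti hT z (le_max_left _ _) hx, ?_⟩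
      have hq : q ∈ farE T z R1 := farE_anti hT z (by
        have := le_max_right H' R1
        omega) (hDfar hline.q_mem)
      refine fm5_linked_mono subset_rfl ?_ (hR1 q hq x (farE_anti hT z (le_max_right _ _) hx))
      intro y hy j hj hjs w hw
      rcases Nat.lt_succ_iff_lt_or_eq.mp hj with hj | rfl
      · refine OC2_far_av hT (L := fun j => (L j).pts) hH ∅ hy j hj (Set.notMem_empty j) w ?_
        change w ∈ (L j).pts
        rw [← hold j hj]
        exact hw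
      · exact absurd rfl hjs

theorem OC2_lines {T : Set Γ} {z : Γ} (hT : GoodGen T) (hidx : Infinite (Γ ⧸ Subgroup.zpowers z))
    (h1 : OneCo T z) {K : ℕ} (hns : NonSep T z K) (n : ℕ) :
    ∃ L : ℕ → OC2Line T z, OC2Good T z K n L := by
  induction n with
  | zero =>
    obtain ⟨M, D, q, σ, hline, -, -, -⟩ := hns 0
    exact ⟨fun _ => ⟨M, D, q, hline⟩, ⟨fun i hi => absurd hi (Nat.not_lt_zero i),
      fun i hi => absurd hi (Nat.not_lt_zero i)⟩⟩
  | succ n ih =>
    obtain ⟨L, hL⟩ := ih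
    exact OC2_step hT hidx h1 hns hL

/-- the finite connection between two lines -/
theorem OC2_conn {T : Set Γ} {z : Γ} (hT : GoodGen T)
    (h1 : OneCo T z) {K : ℕ} {n : ℕ} {L : ℕ → OC2Line T z}
    (hG : OC2Good T z K n L) {i j : ℕ} (hi : i < n) (hj : j < n) :
    ∃ D : Set Γ, D.Finite ∧ D ⊆ OC2Av T K n (fun l => (L l).pts) {i, j} ∧
      ∃ x ∈ (L i).pts, ∃ y ∈ (L j).pts, x ∈ D ∧ y ∈ D ∧ Linked T D x y := by
  obtain ⟨H, hH⟩ := OC2_unif (P := fun i H => (L i).pts ⊆ nbE T z H)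
    (fun i H H' hle h => h.trans (nbE_mono hT z hle)) n fun i _ => (L i).exists_nb hT
  obtain ⟨R, hR⟩ := h1 (H + K)
  obtain ⟨p, hp, x, hx, hl⟩ := hG.esc i hi R
  obtain ⟨p', hp', x', hx', hl'⟩ := hG.esc j hj R
  have hmono : ∀ s : Set ℕ, s ⊆ {i, j} → OC2Av T K n (fun l => (L l).pts) s ⊆
      OC2Av T K n (fun l => (L l).pts) {i, j} := fun s hs y hy l hl hls =>
    hy l hl fun h => hls (hs h)
  have e1 : Linked T (OC2Av T K n (fun l => (L l).pts) {i, j}) p p' := by
    refine ((fm5_linked_mono subset_rfl (hmono {i} (by simp)) hl).trans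
      (fm5_linked_mono subset_rfl (OC2_far_av hT hH _) (hR x hx x' hx'))).trans
      (fm6_linked_symm (fm5_linked_mono subset_rfl (hmono {j} (by simp)) hl'))
  have hpB : p ∈ OC2Av T K n (fun l => (L l).pts) {i, j} := by
    intro l hl hls w hw
    refine hG.far l hl i hi (fun h => hls (by simp [h])) w hw p hp
  obtain ⟨D, hDs, hDf, hpD, hpD', hDl⟩ := oc_linked_finite e1 hpB
  exact ⟨D, hDf, hDs, p, hp, p', hp', hpD, hpD', hDl p' hpD'⟩

theorem allCliques_of_nonSep {T : Set Γ} (hT : GoodGen T) (z : Γ) (hz : ¬ IsOfFinOrder z)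
    (hidx : Infinite (Γ ⧸ Subgroup.zpowers z)) (h1 : OneCo T z)
    (hns : ∀ K, NonSep T z K) : AllCliques Γ := by
  classical
  refine ⟨T, hT.fin, fun n F hF => ?_⟩
  obtain ⟨K, hK⟩ := hT.exists_pow_set F hF
  obtain ⟨L, hG⟩ := OC2_lines hT hidx h1 (hns K) n
  choose P0 hP0f hP0s hP0 using fun u v : Fin n => OC2_conn hT h1 hG u.2 v.2
  set M : ℕ := ∏ i : Fin n, (L i).M with hM
  have hMpos : 0 < M := Finset.prod_pos fun i _ => (L i).line.pos
  have hMdvd : ∀ i : Fin n, (L i).M ∣ M := fun i => Finset.dvd_prod_of_mem _ (Finset.mem_univ i)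
  -- the bound
  have hfin : (⋃ a : Fin n × Fin n, ⋃ b : Fin n × Fin n,
      P0 a.1 a.2 * T ^ K * (P0 b.1 b.2)⁻¹).Finite :=
    Set.finite_iUnion fun a => Set.finite_iUnion fun b =>
      ((hP0f a.1 a.2).mul (hT.pow_finite K)).mul (hP0f b.1 b.2).inv
  obtain ⟨c, hc⟩ : ∃ c : ℕ, ∀ k : ℤ, z ^ k ∈ (⋃ a : Fin n × Fin n, ⋃ b : Fin n × Fin n,
      P0 a.1 a.2 * T ^ K * (P0 b.1 b.2)⁻¹) → k.natAbs < c := by
    obtain ⟨c, hc⟩ := ((oc_zpow_finite hz _ hfin).image Int.natAbs).bddAbove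
    exact ⟨c + 1, fun k hk => Nat.lt_succ_of_le (hc (Set.mem_image_of_mem _ hk))⟩
  let e : Fin n → Fin n → ℤ := fun u v => ((finProdFinEquiv (u, v) : Fin (n * n)) : ℕ)
  have he : ∀ u v u' v', e u v = e u' v' → (u, v) = (u', v') := by
    intro u v u' v' h
    have h2 : ((finProdFinEquiv (u, v) : Fin (n * n)) : ℕ) =
        ((finProdFinEquiv (u', v') : Fin (n * n)) : ℕ) := Nat.cast_injective (R := ℤ) h
    exact finProdFinEquiv.injective (Fin.ext h2)
  let f : Fin n → Fin n → ℤ := fun u v => (M : ℤ) * (c * e u v)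
  have hf : ∀ (w : Fin n) (u v : Fin n) (x : Γ), x ∈ (L w).pts → z ^ f u v * x ∈ (L w).pts := by
    intro w u v x hx
    obtain ⟨d, hd⟩ := hMdvd w
    have h2 : f u v = ((L w).M : ℤ) * (d * (c * e u v)) := by
      simp only [f]
      rw [hd]
      push_cast
      ring
    rw [h2]
    exact IsLine.smul_mem _ hx
  have hf' : ∀ (w : Fin n) (u v : Fin n) (x : Γ), x ∈ (L w).pts →
      z ^ (-f u v) * x ∈ (L w).pts := by
    intro w u v x hx
    obtain ⟨d, hd⟩ := hMdvd w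
    have h2 : -f u v = ((L w).M : ℤ) * (-(d * (c * e u v))) := by
      simp only [f]
      rw [hd]
      push_cast
      ring
    rw [h2]
    exact IsLine.smul_mem _ hx
  refine ⟨{
    B := fun w => (L w).pts
    P := fun u v => {x | z ^ (-f u v) * x ∈ P0 u v}
    ne := fun w => ⟨(L w).q, OC2_mem_sat (L w).line.q_mem⟩
    conn := fun w x hx y hy => (L w).line.linked hx hy
    path := ?_
    farBB := ?_
    farPP := ?_
    farPB := ?_ }⟩
  · intro u v _
    obtain ⟨x, hx, y, hy, hxD, hyD, hl⟩ := hP0 u v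
    have hcanc : ∀ w : Γ, z ^ (-f u v) * (z ^ f u v * w) = w := fun w => by
      rw [← mul_assoc, ← zpow_add, neg_add_cancel, zpow_zero, one_mul]
    refine ⟨z ^ f u v * x, hf u u v x hx, z ^ f u v * y, hf v u v y hy, ?_, ?_, ?_⟩
    · change z ^ (-f u v) * (z ^ f u v * x) ∈ P0 u v
      rw [hcanc]; exact hxD
    · change z ^ (-f u v) * (z ^ f u v * y) ∈ P0 u v
      rw [hcanc]; exact hyD
    · have hgen : ∀ w w' : Γ, Linked T (P0 u v) w w' →
          Linked T {x | z ^ (-f u v) * x ∈ P0 u v} (z ^ f u v * w) (z ^ f u v * w') := by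
        intro w w' h
        induction h with
        | refl => exact Relation.ReflTransGen.refl
        | @tail a b _ hs ih =>
          refine ih.tail ⟨?_, ?_, ?_⟩
          · change z ^ (-f u v) * (z ^ f u v * a) ∈ P0 u v
            rw [hcanc]; exact hs.1
          · change z ^ (-f u v) * (z ^ f u v * b) ∈ P0 u v
            rw [hcanc]; exact hs.2.1
          · have e1 : (z ^ f u v * a)⁻¹ * (z ^ f u v * b) = a⁻¹ * b := by group
            have e2 : (z ^ f u v * b)⁻¹ * (z ^ f u v * a) = b⁻¹ * a := by group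
            rw [e1, e2]
            exact hs.2.2
      exact hgen x y hl
  · intro u v huv x hx y hy h
    exact hG.far u u.2 v v.2 (fun h => huv (Fin.ext h)) x hx y hy (hK h)
  · intro u v u' v' _ _ hne x hx y hy h
    have hx : z ^ (-f u v) * x ∈ P0 u v := hx
    have hy : z ^ (-f u' v') * y ∈ P0 u' v' := hy
    have h2 : z ^ (f u' v' - f u v) ∈ (⋃ a : Fin n × Fin n, ⋃ b : Fin n × Fin n,
        P0 a.1 a.2 * T ^ K * (P0 b.1 b.2)⁻¹) := by
      refine Set.mem_iUnion.mpr ⟨(u, v), Set.mem_iUnion.mpr ⟨(u', v'), ?_⟩⟩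
      have e1 : z ^ (f u' v' - f u v) = (z ^ (-f u v) * x) * (x⁻¹ * y) *
          (z ^ (-f u' v') * y)⁻¹ := by group
      rw [e1]
      exact Set.mul_mem_mul (Set.mul_mem_mul hx (hK h)) (Set.inv_mem_inv.mpr hy)
    have h3 := hc _ h2
    have h4 : e u' v' - e u v ≠ 0 := fun h0 => hne (he _ _ _ _ (sub_eq_zero.mp h0).symm)
    have h5 : f u' v' - f u v = (M : ℤ) * (c * (e u' v' - e u v)) := by
      simp only [f]; ring
    rw [h5, Int.natAbs_mul, Int.natAbs_mul, Int.natAbs_natCast, Int.natAbs_natCast] at h3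
    have h6 : 1 ≤ (e u' v' - e u v).natAbs := Nat.one_le_iff_ne_zero.mpr (Int.natAbs_ne_zero.mpr h4)
    have h7 : c ≤ M * (c * (e u' v' - e u v).natAbs) := by
      calc c = 1 * (c * 1) := by ring
        _ ≤ M * (c * (e u' v' - e u v).natAbs) :=
          Nat.mul_le_mul hMpos (Nat.mul_le_mul le_rfl h6)
    omega
  · intro u v w _ hwu hwv x hx y hy h
    have hx : z ^ (-f u v) * x ∈ P0 u v := hx
    have hy' := hf' w u v y hy
    refine hP0s u v hx w w.2 ?_ _ hy' ?_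
    · intro hmem
      rcases hmem with h0 | h0
      · exact hwu (Fin.ext h0)
      · exact hwv (Fin.ext h0)
    · have e1 : (z ^ (-f u v) * y)⁻¹ * (z ^ (-f u v) * x) = (x⁻¹ * y)⁻¹ := by group
      rw [e1]
      exact hT.pow_inv (hK h)

end oc

end Pool.Agent.Lib.MP_0f7bfe_al
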