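import Pool.Agent.Lib.MP_0f7bfe_al.OC1

open scoped Pointwise

namespace Pool.Agent.Lib.MP_0f7bfe_al

universe u v

section oc
variable {Γ : Type u} [Group Γ]

/-- a conjugate line which is not commensurable diverges -/
theorem oc3_finite {T : Set Γ} (hT : GoodGen T) (z c : Γ)
    (hc : ∀ m : ℤ, m ≠ 0 → c * z ^ m * c⁻¹ ∉ Subgroup.zpowers z) (ρ : ℕ) :
    {k : ℤ | c * z ^ k ∈ nbE T z ρ}.Finite := by
  classical
  have h : ∀ k : ℤ, ∃ j : ℤ, c * z ^ k ∈ nbE T z ρ → z ^ j * (c * z ^ k) ∈ T ^ ρ := by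
    intro k
    by_cases hk : c * z ^ k ∈ nbE T z ρ
    · obtain ⟨j, hj⟩ := hk
      exact ⟨j, fun _ => hj⟩
    · exact ⟨0, fun h => absurd h hk⟩
  choose j hj using h
  refine Set.Finite.of_injOn (f := fun k => z ^ (j k) * (c * z ^ k)) (t := T ^ ρ)
    (fun k hk => hj k hk) ?_ (hT.pow_finite ρ)
  intro k _ k' _ hkk'
  by_contra hne
  apply hc (k - k') (sub_ne_zero.2 hne)
  simp only at hkk'
  refine ⟨j k' - j k, ?_⟩
  have h1 : c * z ^ k = z ^ (-(j k)) * (z ^ (j k') * (c * z ^ k')) := by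
    rw [← hkk']; group
  have h2 : c * z ^ (k - k') * c⁻¹ = (c * z ^ k) * (c * z ^ k')⁻¹ := by group
  change z ^ (j k' - j k) = c * z ^ (k - k') * c⁻¹
  rw [h2, h1]
  group

/-- the ray `1, c, c z ^ ε, c z ^ (2 ε), …` -/
def ocRay (z c : Γ) (ε : ℤ) : ℕ → Γ
  | 0 => 1
  | (k + 1) => c * z ^ (ε * k)

theorem ocRay_isRay {T : Set Γ} (hT : GoodGen T) (z c : Γ) (ε : ℤ) (hε : ε = 1 ∨ ε = -1)
    (hzT : z ∈ T) (hcT : c ∈ T)
    (hc : ∀ m : ℤ, m ≠ 0 → c * z ^ m * c⁻¹ ∉ Subgroup.zpowers z) : IsRay T z (ocRay z c ε) := by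
  refine ⟨⟨0, ?_⟩, ?_, ?_⟩
  · change z ^ (0 : ℤ) * 1 ∈ T ^ 0
    rw [zpow_zero, one_mul, pow_zero]
    exact Set.mem_one.2 rfl
  · intro i
    rcases i with _ | k
    · change (1 : Γ)⁻¹ * (c * z ^ (ε * ((0 : ℕ) : ℤ))) ∈ T
      rw [Nat.cast_zero, mul_zero, zpow_zero, mul_one, inv_one, one_mul]
      exact hcT
    · change (c * z ^ (ε * (k : ℤ)))⁻¹ * (c * z ^ (ε * ((k + 1 : ℕ) : ℤ))) ∈ T
      have : (c * z ^ (ε * (k : ℤ)))⁻¹ * (c * z ^ (ε * ((k + 1 : ℕ) : ℤ))) = z ^ ε := by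
        rw [Nat.cast_add, Nat.cast_one, mul_add, mul_one, zpow_add]
        group
      rw [this]
      rcases hε with rfl | rfl
      · rw [zpow_one]; exact hzT
      · rw [zpow_neg_one]; exact hT.inv z hzT
  · intro ρ
    obtain ⟨N, hN⟩ := ((oc3_finite hT z c hc ρ).image Int.natAbs).bddAbove
    refine ⟨N + 2, fun i hi => ?_⟩
    obtain ⟨k, rfl⟩ : ∃ k, i = k + 1 := ⟨i - 1, by omega⟩
    intro hmem
    have h1 := hN ⟨ε * (k : ℤ), hmem, rfl⟩
    have h2 : (ε * (k : ℤ)).natAbs = k := by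
      rcases hε with rfl | rfl <;> simp
    rw [h2] at h1
    omega

theorem oc3_bad {T : Set Γ} (hT : GoodGen T) {z : Γ} (hz : ¬ IsOfFinOrder z) {σ : ℕ → Γ}
    (hσ : IsRay T z σ) (C : Set Γ) (hC : C.Finite) (K : ℕ) :
    {m : ℤ | ∃ x ∈ C, ∃ i, (z ^ m * x)⁻¹ * σ i ∈ T ^ K}.Finite := by
  obtain ⟨H, hH⟩ := exists_nbE hT z C hC
  obtain ⟨N, hN⟩ := hσ.esc (H + K)
  have hF : (((σ '' Set.Iio N) * T ^ K) * C⁻¹).Finite :=
    (((Set.finite_Iio N).image σ).mul (hT.pow_finite K)).mul hC.inv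
  refine (oc_zpow_finite hz _ hF).subset ?_
  rintro m ⟨x, hx, i, hi⟩
  have h1 : σ i ∈ nbE T z (H + K) := nbE_step hT ((zpow_mul_mem_nbE m).2 (hH hx)) hi
  have h2 : i < N := by
    by_contra h3
    exact hN i (not_lt.1 h3) h1
  refine ⟨σ i * ((z ^ m * x)⁻¹ * σ i)⁻¹, ⟨σ i, ⟨i, h2, rfl⟩, _, hT.pow_inv hi, rfl⟩, x⁻¹,
    Set.inv_mem_inv.2 hx, ?_⟩
  group

theorem oc3_bound {s : Set ℤ} (hs : s.Finite) : ∃ J : ℕ, ∀ m : ℤ, (J : ℤ) ≤ |m| → m ∉ s := by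
  obtain ⟨N, hN⟩ := (hs.image Int.natAbs).bddAbove
  refine ⟨N + 1, fun m hm hms => ?_⟩
  have h1 := hN ⟨m, hms, rfl⟩
  rw [Int.abs_eq_natAbs] at hm
  omega

/-- crossing from `A₁` to `A₂` -/
theorem oc3_cross {T B N A₁ A₂ : Set Γ} (hcov : ∀ p ∈ B, p ∈ N → p ∈ A₁ ∨ p ∈ A₂)
    (hA₁ : A₁ ⊆ N) (hdisj : ∀ p ∈ A₁, p ∉ A₂)
    (hadj : ∀ p ∈ A₁, ∀ p' ∈ A₂, ¬ (p⁻¹ * p' ∈ T ∨ p'⁻¹ * p ∈ T)) {p p' : Γ}
    (h : Linked T B p p') (hp : p ∈ A₁) (hp' : p' ∈ A₂) :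
    ∃ x' ∈ A₁, ∃ y' ∈ A₂, ∃ u v, Step T B x' u ∧ Linked T {y | y ∈ B ∧ y ∉ N} u v ∧
      Step T B v y' ∧ u ∉ N ∧ v ∉ N := by
  have key : p ∈ A₂ ∨ (p ∉ N ∧ ∃ v y', Linked T {y | y ∈ B ∧ y ∉ N} p v ∧ v ∉ N ∧ y' ∈ A₂ ∧
      Step T B v y') ∨ (∃ x' ∈ A₁, ∃ y' ∈ A₂, ∃ u v, Step T B x' u ∧
      Linked T {y | y ∈ B ∧ y ∉ N} u v ∧ Step T B v y' ∧ u ∉ N ∧ v ∉ N) := by
    clear hp
    induction h using Relation.ReflTransGen.head_induction_on with
    | refl => exact Or.inl hp'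
    | head h' h'' ih =>
      rename_i a c
      rcases ih with hc | ⟨hcN, v, y', hl, hv, hy', hs⟩ | hconf
      · by_cases haN : a ∈ N
        · rcases hcov a h'.1 haN with ha | ha
          · exact absurd h'.2.2 (hadj a ha c hc)
          · exact Or.inl ha
        · exact Or.inr (Or.inl ⟨haN, a, c, Relation.ReflTransGen.refl, haN, hc, h'⟩)
      · by_cases haN : a ∈ N
        · rcases hcov a h'.1 haN with ha | ha
          · exact Or.inr (Or.inr ⟨a, ha, y', hy', c, v, h', hl, hs, hcN, hv⟩)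
          · exact Or.inl ha
        · exact Or.inr (Or.inl ⟨haN, v, y', Relation.ReflTransGen.head
            ⟨⟨h'.1, haN⟩, ⟨h'.2.1, hcN⟩, h'.2.2⟩ hl, hv, hy', hs⟩)
      · exact Or.inr (Or.inr hconf)
  rcases key with h1 | ⟨h1, -⟩ | h1
  · exact absurd h1 (hdisj p hp)
  · exact absurd (hA₁ hp) h1
  · exact h1

theorem false_of_sep {T : Set Γ} (hT : GoodGen T) (z b : Γ) (hz : ¬ IsOfFinOrder z)
    (hidx : Infinite (Γ ⧸ Subgroup.zpowers z)) (h1 : OneCo T z) (hzT : z ∈ T) (hbT : b ∈ T)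
    (hb : ∀ m : ℤ, m ≠ 0 → b * z ^ m * b⁻¹ ∉ Subgroup.zpowers z) (K : ℕ)
    (hns : ¬ NonSep T z K) : False := by
  classical
  -- the separation hypothesis
  obtain ⟨ρ00, hF0⟩ : ∃ ρ00, ∀ M D q σ, IsLine T z M D q → D ⊆ farE T z ρ00 → IsRay T z σ →
      ∃ i, ∃ x ∈ satE z M D, x⁻¹ * σ i ∈ T ^ K := by
    by_contra hcon
    push Not at hcon
    apply hns
    intro ρ
    obtain ⟨M, D, q, σ, h1, h2, h3, h4⟩ := hcon ρ
    exact ⟨M, D, q, σ, h1, h2, h3, h4⟩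
  set ρ0 := max ρ00 K with hρ0
  have hF : ∀ M D q σ, IsLine T z M D q → D ⊆ farE T z ρ0 → IsRay T z σ →
      ∃ i, ∃ x ∈ satE z M D, x⁻¹ * σ i ∈ T ^ K := fun M D q σ hl hD hσ =>
    hF0 M D q σ hl (hD.trans (farE_anti hT z (le_max_left _ _))) hσ
  have hKρ0 : K ≤ ρ0 := le_max_right _ _
  -- the conjugate by the inverse
  have hb' : ∀ m : ℤ, m ≠ 0 → b⁻¹ * z ^ m * b⁻¹⁻¹ ∉ Subgroup.zpowers z := by
    rintro m hm ⟨j, hj⟩
    have hj' : z ^ j = b⁻¹ * z ^ m * b := by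
      have := hj
      simpa using this
    have hj0 : j ≠ 0 := by
      rintro rfl
      rw [zpow_zero] at hj'
      have h2 : z ^ m = 1 := by
        have : b * (b⁻¹ * z ^ m * b) * b⁻¹ = z ^ m := by group
        rw [← this, ← hj']
        group
      exact hm ((injective_zpow_iff_not_isOfFinOrder.2 hz) (by simpa using h2))
    apply hb j hj0
    rw [hj']
    refine ⟨m, ?_⟩
    change z ^ m = _
    group
  have hb'T : b⁻¹ ∈ T := hT.inv b hbT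
  -- constants and pieces
  obtain ⟨R00, hR00⟩ := h1 ρ0
  set R0 := max R00 ρ0 with hR0def
  have hR0 : ∀ x ∈ farE T z R0, ∀ y ∈ farE T z R0, Linked T (farE T z ρ0) x y :=
    fun x hx y hy => hR00 x (farE_anti hT z (le_max_left _ _) hx) y
      (farE_anti hT z (le_max_left _ _) hy)
  have hρR : ρ0 ≤ R0 := le_max_right _ _
  obtain ⟨q0, hq0⟩ := farE_nonempty hT z hidx R0
  have hq0ρ : q0 ∈ farE T z ρ0 := farE_anti hT z hρR hq0
  have hzq0 : z ^ (1 : ℤ) * q0 ∈ farE T z R0 := (zpow_mul_mem_farE 1).2 hq0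
  obtain ⟨D0, hD0s, hD0f, hqD0, hzqD0, hD0c⟩ := oc_linked_finite (hR0 q0 hq0 _ hzq0) hq0ρ
  have hC : ∀ y : Γ, ∃ C : Set Γ, C.Finite ∧ C ⊆ farE T z ρ0 ∧
      (y ∈ farE T z ρ0 → Linked T (farE T z ρ0) y q0 →
        y ∈ C ∧ q0 ∈ C ∧ ∀ w ∈ C, Linked T C y w) := by
    intro y
    by_cases hy : y ∈ farE T z ρ0
    · by_cases hl : Linked T (farE T z ρ0) y q0
      · obtain ⟨C, h2, h3, h4, h5, h6⟩ := oc_linked_finite hl hy
        exact ⟨C, h3, h2, fun _ _ => ⟨h4, h5, h6⟩⟩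
      · exact ⟨∅, Set.finite_empty, Set.empty_subset _, fun _ h => absurd h hl⟩
    · exact ⟨∅, Set.finite_empty, Set.empty_subset _, fun h => absurd h hy⟩
  choose C hCf hCs hC using hC
  set C' : Set Γ := D0 ∪ ⋃ y ∈ T ^ (ρ0 + 1), C y with hC'
  have hC'f : C'.Finite := hD0f.union ((hT.pow_finite _).biUnion fun y _ => hCf y)
  have hCC' : ∀ y ∈ T ^ (ρ0 + 1), C y ⊆ C' := fun y hy x hx =>
    Or.inr (Set.mem_biUnion hy hx)
  -- the ray
  set σb := ocRay z b 1 with hσb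
  have hray : IsRay T z σb := ocRay_isRay hT z b 1 (Or.inl rfl) hzT hbT hb
  obtain ⟨J1, hJ1⟩ := oc3_bound (oc3_bad hT hz hray C' hC'f K)
  obtain ⟨J2, hJ2⟩ := oc3_bound (oc_zpow_finite hz _ (hT.pow_finite (2 * R0 + 1)))
  set J : ℕ := max J1 J2 with hJ
  have hJ1' : ∀ m : ℤ, (J : ℤ) ≤ |m| → ∀ x ∈ C', ∀ i, (z ^ m * x)⁻¹ * σb i ∉ T ^ K := by
    intro m hm x hx i hi
    exact hJ1 m (le_trans (by exact_mod_cast le_max_left _ _) hm) ⟨x, hx, i, hi⟩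
  have hJ2' : ∀ m : ℤ, (J : ℤ) ≤ |m| → z ^ m ∉ T ^ (2 * R0 + 1) := by
    intro m hm hi
    exact hJ2 m (le_trans (by exact_mod_cast le_max_right _ _) hm) hi
  -- the middle part is near the conjugate line
  have hmidf : (({b⁻¹} : Set Γ) * ((fun k : ℤ => z ^ k) '' (Set.Icc (-(J : ℤ)) J)) * T ^ R0).Finite :=
    ((Set.finite_singleton _).mul ((Set.finite_Icc _ _).image _)).mul (hT.pow_finite R0)
  obtain ⟨ρ1, hρ1⟩ := exists_nbE hT z _ hmidf
  have hmid : ∀ k : ℤ, |k| ≤ J → ∀ t ∈ T ^ R0, b⁻¹ * (z ^ k * t) ∈ nbE T z ρ1 := by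
    intro k hk t ht
    apply hρ1
    refine ⟨b⁻¹ * z ^ k, ⟨b⁻¹, rfl, z ^ k, ⟨k, abs_le.1 hk, rfl⟩, rfl⟩, t, ht, ?_⟩
    group
  set ρ' := max ρ1 ρ0 with hρ'
  have hmid' : ∀ k : ℤ, |k| ≤ J → ∀ t ∈ T ^ R0, b⁻¹ * (z ^ k * t) ∉ farE T z ρ' :=
    fun k hk t ht h => h (nbE_mono hT z (le_max_left _ _) (hmid k hk t ht))
  -- the line around `b`
  obtain ⟨R1, hR1⟩ := h1 ρ'
  obtain ⟨q', hq'⟩ := farE_nonempty hT z hidx (max R1 ρ')
  have hzq' : z ^ (1 : ℤ) * q' ∈ farE T z (max R1 ρ') := (zpow_mul_mem_farE 1).2 hq'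
  obtain ⟨D', hD's, hD'f, hqD', hzqD', hD'c⟩ := oc_linked_finite
    (hR1 q' (farE_anti hT z (le_max_left _ _) hq') _ (farE_anti hT z (le_max_left _ _) hzq'))
    (farE_anti hT z (le_max_right _ _) hq')
  have hline' : IsLine T z 1 D' q' := by
    refine ⟨one_pos, hD'f, hqD', ?_, hD'c⟩
    rw [pow_one]
    rwa [zpow_one] at hzqD'
  have hD'0 : D' ⊆ farE T z ρ0 := hD's.trans (farE_anti hT z (le_max_right _ _))
  have hsat' : satE z 1 D' ⊆ farE T z ρ' := satE_subset (farE_zpow T z ρ') hD's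
  set B : Set Γ := {p | b⁻¹ * p ∈ satE z 1 D'} with hB
  have hBfar : ∀ p ∈ B, b⁻¹ * p ∈ farE T z ρ' := fun p hp => hsat' hp
  set A₁ : Set Γ := {p | ∃ k : ℤ, k < -(J : ℤ) ∧ z ^ (-k) * p ∈ T ^ ρ0} with hA₁
  set A₂ : Set Γ := {p | ∃ k : ℤ, (J : ℤ) < k ∧ z ^ (-k) * p ∈ T ^ ρ0} with hA₂
  have hpos : ∀ p ∈ B, ∀ k : ℤ, z ^ (-k) * p ∈ T ^ R0 → (J : ℤ) < |k| := by
    intro p hp k hk
    by_contra hcon
    push Not at hcon
    apply hmid' k hcon _ hk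
    have : b⁻¹ * (z ^ k * (z ^ (-k) * p)) = b⁻¹ * p := by group
    rw [this]
    exact hBfar p hp
  have hcov : ∀ p ∈ B, p ∈ nbE T z ρ0 → p ∈ A₁ ∨ p ∈ A₂ := by
    rintro p hp ⟨k, hk⟩
    have h2 := hpos p hp (-k) (by rw [neg_neg]; exact hT.pow_mono hρR hk)
    rw [abs_neg] at h2
    rcases lt_abs.1 h2 with h3 | h3
    · left; exact ⟨-k, by linarith, by rwa [neg_neg]⟩
    · right; exact ⟨-k, by linarith, by rwa [neg_neg]⟩
  have hA₁N : A₁ ⊆ nbE T z ρ0 := by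
    rintro p ⟨k, -, hk⟩
    exact ⟨-k, hk⟩
  -- no small step from far negative to far positive
  have hjump : ∀ p p' : Γ, ∀ k k' : ℤ, k < -(J : ℤ) → (J : ℤ) < k' → z ^ (-k) * p ∈ T ^ R0 →
      z ^ (-k') * p' ∈ T ^ R0 → p⁻¹ * p' ∈ T → False := by
    intro p p' k k' hk hk' hp hp' hpp
    have h2 : z ^ (k' - k) = (z ^ (-k) * p) * (p⁻¹ * p') * (z ^ (-k') * p')⁻¹ := by group
    apply hJ2' (k' - k)
    · rw [abs_of_pos (by have := Int.natCast_nonneg J; linarith)]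
      have := Int.natCast_nonneg J
      linarith
    · rw [h2]
      have e : 2 * R0 + 1 = R0 + 1 + R0 := by ring
      rw [e, pow_add, pow_add, pow_one]
      exact Set.mul_mem_mul (Set.mul_mem_mul hp hpp) (hT.pow_inv hp')
  have hone : (1 : Γ) ∈ T := hT.one
  -- the line around `b` comes near both ends
  have hend : ∀ ε : ℤ, ε = 1 ∨ ε = -1 → ∃ x ∈ satE z 1 D', ∃ k : ℕ, (J : ℤ) < k ∧
      z ^ (-(ε * (k : ℤ))) * (b * x) ∈ T ^ ρ0 := by
    intro ε hε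
    obtain ⟨i, x, hx, hi⟩ := hF 1 D' q' (ocRay z b⁻¹ ε) hline' hD'0
      (ocRay_isRay hT z b⁻¹ ε hε hzT hb'T hb')
    rcases i with _ | k
    · exfalso
      have h2 : x⁻¹ * (1 : Γ) ∈ T ^ K := hi
      rw [mul_one] at h2
      have h3 : x ∈ T ^ K := by
        have := hT.pow_inv h2
        rwa [inv_inv] at this
      exact hsat' hx (nbE_mono hT z (hKρ0.trans (le_max_right _ _)) (mem_nbE_of_mem_pow h3))
    · have h2 : x⁻¹ * (b⁻¹ * z ^ (ε * (k : ℤ))) ∈ T ^ K := hi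
      have h3 : z ^ (-(ε * (k : ℤ))) * (b * x) ∈ T ^ K := by
        have := hT.pow_inv h2
        have e : (x⁻¹ * (b⁻¹ * z ^ (ε * (k : ℤ))))⁻¹ = z ^ (-(ε * (k : ℤ))) * (b * x) := by
          group
        rwa [e] at this
      have hbx : b * x ∈ B := by
        change b⁻¹ * (b * x) ∈ satE z 1 D'
        rwa [inv_mul_cancel_left]
      have h4 := hpos _ hbx _ (hT.pow_mono (hKρ0.trans hρR) h3)
      refine ⟨x, hx, k, ?_, hT.pow_mono hKρ0 h3⟩
      have h5 : |ε * (k : ℤ)| = (k : ℤ) := by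
        rcases hε with rfl | rfl <;> simp
      rwa [h5] at h4
  obtain ⟨xp, hxp, kp, hkp, hkp'⟩ := hend 1 (Or.inl rfl)
  obtain ⟨xm, hxm, km, hkm, hkm'⟩ := hend (-1) (Or.inr rfl)
  have hlink : Linked T B (b * xm) (b * xp) := fm3_linked_smul b (hline'.linked hxm hxp)
  have hstepT : ∀ {p p' : Γ}, p⁻¹ * p' ∈ T ∨ p'⁻¹ * p ∈ T → p⁻¹ * p' ∈ T := by
    intro p p' h
    rcases h with h | h
    · exact h
    · have := hT.inv _ h
      have e : (p'⁻¹ * p)⁻¹ = p⁻¹ * p' := by group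
      rwa [e] at this
  obtain ⟨x', ⟨k, hk, hkx⟩, y', ⟨k', hk', hky⟩, u, v, hs1, hl, hs2, hu, hv⟩ :=
    oc3_cross (T := T) (B := B) (N := nbE T z ρ0) (A₁ := A₁) (A₂ := A₂) hcov hA₁N
      (by
        rintro p ⟨k, hk, hkp⟩ ⟨k', hk', hkp'⟩
        exact hjump p p k k' hk hk' (hT.pow_mono hρR hkp) (hT.pow_mono hρR hkp')
          (by rw [inv_mul_cancel]; exact hone))
      (by
        rintro p ⟨k, hk, hkp⟩ p' ⟨k', hk', hkp'⟩ h
        exact hjump p p' k k' hk hk' (hT.pow_mono hρR hkp) (hT.pow_mono hρR hkp') (hstepT h))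
      hlink
      ⟨-1 * (km : ℤ), by linarith, hkm'⟩ ⟨1 * (kp : ℤ), by linarith, hkp'⟩
  -- the pieces of the crossing
  have hy1 : z ^ (-k) * u ∈ T ^ (ρ0 + 1) := by
    rw [pow_succ]
    refine ⟨z ^ (-k) * x', hkx, x'⁻¹ * u, hstepT hs1.2.2, ?_⟩
    group
  have hy2 : z ^ (-k') * v ∈ T ^ (ρ0 + 1) := by
    rw [pow_succ]
    refine ⟨z ^ (-k') * y', hky, y'⁻¹ * v, hstepT hs2.2.2.symm, ?_⟩
    group
  have hy1f : z ^ (-k) * u ∈ farE T z ρ0 := (zpow_mul_mem_farE _).2 hu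
  have hy2f : z ^ (-k') * v ∈ farE T z ρ0 := (zpow_mul_mem_farE _).2 hv
  set Bf : Set Γ := {y | y ∈ B ∧ y ∉ nbE T z ρ0} with hBf
  have hBffar : Bf ⊆ farE T z ρ0 := fun y hy => hy.2
  have hdeep : ∃ w, Linked T Bf u w ∧ w ∈ farE T z R0 := by
    by_contra hcon
    push Not at hcon
    have hall : ∀ w, Linked T Bf u w → w ∈ nbE T z R0 := by
      intro w hw
      by_contra h
      exact hcon w hw h
    have hneg : ∀ p w : Γ, (∃ k : ℤ, k < -(J : ℤ) ∧ z ^ (-k) * p ∈ T ^ R0) → p⁻¹ * w ∈ T →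
        w ∈ B → w ∈ nbE T z R0 → ∃ k : ℤ, k < -(J : ℤ) ∧ z ^ (-k) * w ∈ T ^ R0 := by
      rintro p w ⟨k, hk, hkp⟩ hpw hwB ⟨j, hj⟩
      have h2 := hpos w hwB (-j) (by rwa [neg_neg])
      rw [abs_neg] at h2
      rcases lt_abs.1 h2 with h3 | h3
      · exact ⟨-j, by linarith, by rwa [neg_neg]⟩
      · exact (hjump p w k (-j) hk h3 hkp (by rwa [neg_neg]) hpw).elim
    have hind : ∀ w, Linked T Bf u w → ∃ k : ℤ, k < -(J : ℤ) ∧ z ^ (-k) * w ∈ T ^ R0 := by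
      intro w hw
      induction hw with
      | refl =>
        exact hneg x' u ⟨k, hk, hT.pow_mono hρR hkx⟩ (hstepT hs1.2.2) hs1.2.1
          (hall u Relation.ReflTransGen.refl)
      | tail h2 h3 ih =>
        exact hneg _ _ ih (hstepT h3.2.2) h3.2.1.1 (hall _ (Relation.ReflTransGen.tail h2 h3))
    obtain ⟨j, hj, hjv⟩ := hind v hl
    exact hjump v y' j k' hj hk' hjv (hT.pow_mono hρR hky) (hstepT hs2.2.2)
  obtain ⟨w, hw, hwR⟩ := hdeep
  have hlu : Linked T (farE T z ρ0) u q0 :=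
    oc_linked_trans (oc_linked_mono hBffar hw) (hR0 w hwR q0 hq0)
  have hlv : Linked T (farE T z ρ0) v q0 :=
    oc_linked_trans (oc_linked_symm (oc_linked_mono hBffar hl)) hlu
  have hshift : ∀ (j : ℤ) (p : Γ), Linked T (farE T z ρ0) p q0 →
      Linked T (farE T z ρ0) (z ^ j * p) q0 := fun j p hp =>
    oc_linked_trans (oc_linked_zpow (farE_zpow T z ρ0) j hp)
      (hR0 _ ((zpow_mul_mem_farE j).2 hq0) q0 hq0)
  obtain ⟨hyC1, hqC1, hC1⟩ := hC _ hy1f (hshift (-k) u hlu)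
  obtain ⟨hyC2, hqC2, hC2⟩ := hC _ hy2f (hshift (-k') v hlv)
  obtain ⟨Seg, hSs, hSf, huS, hvS, hSc⟩ := oc_linked_finite hl ⟨hs1.2.1, hu⟩
  obtain ⟨J3, hJ3⟩ := oc3_bound (oc3_bad hT hz hray Seg hSf K)
  set M : ℕ := J3 + J + k.natAbs + k'.natAbs + 1 with hM
  have hMc : (M : ℤ) = J3 + J + |k| + |k'| + 1 := by
    rw [hM]; push_cast; ring
  have ha1 := neg_abs_le k
  have ha2 := le_abs_self k
  have ha3 := neg_abs_le k'
  have ha4 := le_abs_self k'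
  have ha5 : (0 : ℤ) ≤ |k| := abs_nonneg k
  have ha6 : (0 : ℤ) ≤ |k'| := abs_nonneg k'
  have ha7 : (0 : ℤ) ≤ (J3 : ℤ) := Int.natCast_nonneg J3
  have ha8 : (0 : ℤ) ≤ (J : ℤ) := Int.natCast_nonneg J
  have hMk : (J : ℤ) < M + k := by linarith
  have hMk' : -(M : ℤ) + k' < -(J : ℤ) := by linarith
  have hMJ : (J3 : ℤ) ≤ M := by linarith
  have hMpos : 0 < M := by omega
  have hMkk : k' ≤ M + k - 1 := by linarith
  set P1 : Set Γ := {x | z ^ (-k) * x ∈ C (z ^ (-k) * u)} with hP1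
  set P2 : Set Γ := {x | z ^ (-k') * x ∈ C (z ^ (-k') * v)} with hP2
  set P3 : Set Γ := {x | ∃ l : ℤ, k' ≤ l ∧ l ≤ M + k - 1 ∧ z ^ (-l) * x ∈ D0} with hP3
  set Dst : Set Γ := P1 ∪ Seg ∪ P2 ∪ P3 with hDst
  have hP1s : P1 ⊆ Dst := fun x hx => Or.inl (Or.inl (Or.inl hx))
  have hSegs : Seg ⊆ Dst := fun x hx => Or.inl (Or.inl (Or.inr hx))
  have hP2s : P2 ⊆ Dst := fun x hx => Or.inl (Or.inr hx)
  have hP3s : P3 ⊆ Dst := fun x hx => Or.inr hx
  have hmove : ∀ (j : ℤ) (C : Set Γ) {a c : Γ}, Linked T C a c →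
      Linked T {x | z ^ (-j) * x ∈ C} (z ^ j * a) (z ^ j * c) := by
    intro j C a c h
    have := fm3_linked_smul (z ^ j) h
    rwa [← zpow_neg] at this
  have hu1 : ∀ x ∈ P1, Linked T P1 u x := by
    intro x hx
    have h2 := hmove k _ (hC1 _ hx)
    have e1 : z ^ k * (z ^ (-k) * u) = u := by group
    have e2 : z ^ k * (z ^ (-k) * x) = x := by group
    rwa [e1, e2] at h2
  have hv2 : ∀ x ∈ P2, Linked T P2 v x := by
    intro x hx
    have h2 := hmove k' _ (hC2 _ hx)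
    have e1 : z ^ k' * (z ^ (-k') * v) = v := by group
    have e2 : z ^ k' * (z ^ (-k') * x) = x := by group
    rwa [e1, e2] at h2
  have hqP1 : z ^ k * q0 ∈ P1 := by
    change z ^ (-k) * (z ^ k * q0) ∈ C (z ^ (-k) * u)
    have e : z ^ (-k) * (z ^ k * q0) = q0 := by group
    rwa [e]
  have hqP2 : z ^ k' * q0 ∈ P2 := by
    change z ^ (-k') * (z ^ k' * q0) ∈ C (z ^ (-k') * v)
    have e : z ^ (-k') * (z ^ k' * q0) = q0 := by group
    rwa [e]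
  have hqu : Linked T Dst (z ^ k * q0) u := oc_linked_symm (oc_linked_mono hP1s (hu1 _ hqP1))
  have hqv : Linked T Dst (z ^ k * q0) v := oc_linked_trans hqu (oc_linked_mono hSegs (hSc v hvS))
  have hD0mem : ∀ l : ℤ, k' ≤ l → l ≤ M + k - 1 → ∀ d ∈ D0,
      Linked T Dst (z ^ l * q0) (z ^ l * d) := by
    intro l hl1 hl2 d hd
    refine oc_linked_mono ?_ (hmove l _ (hD0c d hd))
    intro x hx
    exact hP3s ⟨l, hl1, hl2, hx⟩
  have hchain : ∀ n : ℕ, k' + n ≤ M + k → Linked T Dst (z ^ k * q0) (z ^ (k' + (n : ℤ)) * q0) := by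
    intro n
    induction n with
    | zero =>
      intro _
      rw [Nat.cast_zero, add_zero]
      exact oc_linked_trans hqv (oc_linked_mono hP2s (hv2 _ hqP2))
    | succ n ih =>
      intro hn
      push_cast at hn ⊢
      refine oc_linked_trans (ih (by linarith)) ?_
      have h2 := hD0mem (k' + n) (by linarith [Int.natCast_nonneg n]) (by linarith) _ hzqD0
      have e : z ^ (k' + (n : ℤ)) * (z ^ (1 : ℤ) * q0) = z ^ (k' + ((n : ℤ) + 1)) * q0 := by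
        rw [← mul_assoc, ← zpow_add, add_assoc]
      rwa [e] at h2
  have hchain' : ∀ l : ℤ, k' ≤ l → l ≤ M + k → Linked T Dst (z ^ k * q0) (z ^ l * q0) := by
    intro l hl1 hl2
    obtain ⟨n, hn⟩ := Int.eq_ofNat_of_zero_le (sub_nonneg.2 hl1)
    have e : l = k' + (n : ℤ) := by linarith
    rw [e] at hl2 ⊢
    exact hchain n hl2
  have hconn : ∀ x ∈ Dst, Linked T Dst (z ^ k * q0) x := by
    rintro x (((hx | hx) | hx) | ⟨l, hl1, hl2, hx⟩)
    · exact oc_linked_trans hqu (oc_linked_mono hP1s (hu1 x hx))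
    · exact oc_linked_trans hqu (oc_linked_mono hSegs (hSc x hx))
    · exact oc_linked_trans hqv (oc_linked_mono hP2s (hv2 x hx))
    · refine oc_linked_trans (hchain' l hl1 (by linarith)) ?_
      have h2 := hD0mem l hl1 hl2 _ hx
      have e : z ^ l * (z ^ (-l) * x) = x := by group
      rwa [e] at h2
  have hDf : Dst.Finite := by
    have hfin : ∀ (j : ℤ) (C : Set Γ), C.Finite → {x | z ^ (-j) * x ∈ C}.Finite := by
      intro j C hC
      exact hC.preimage (mul_right_injective _).injOn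
    refine (((hfin k _ (hCf _)).union hSf).union (hfin k' _ (hCf _))).union ?_
    refine ((((Set.finite_Icc k' (M + k - 1)).image (fun l : ℤ => z ^ l)).mul hD0f)).subset ?_
    rintro x ⟨l, hl1, hl2, hx⟩
    refine ⟨z ^ l, ⟨l, ⟨hl1, hl2⟩, rfl⟩, z ^ (-l) * x, hx, ?_⟩
    group
  have hlineD : IsLine T z M Dst (z ^ k * q0) := by
    refine ⟨hMpos, hDf, hP1s hqP1, ?_, hconn⟩
    apply hP3s
    refine ⟨M + k - 1, hMkk, le_rfl, ?_⟩
    have e : z ^ (-((M : ℤ) + k - 1)) * (z ^ M * (z ^ k * q0)) = z ^ (1 : ℤ) * q0 := by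
      rw [← zpow_natCast z M, ← mul_assoc, ← mul_assoc, ← zpow_add, ← zpow_add]
      congr 2
      ring
    rw [e]
    exact hzqD0
  have hDfar : Dst ⊆ farE T z ρ0 := by
    rintro x (((hx | hx) | hx) | ⟨l, hl1, hl2, hx⟩)
    · exact (zpow_mul_mem_farE (-k)).1 (hCs _ hx)
    · exact hBffar (hSs hx)
    · exact (zpow_mul_mem_farE (-k')).1 (hCs _ hx)
    · exact (zpow_mul_mem_farE (-l)).1 (hD0s hx)
  obtain ⟨i, x, ⟨l, hx⟩, hi⟩ := hF M Dst _ σb hlineD hDfar hray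
  -- trichotomy for `l`
  have htri : l = 0 ∨ (M : ℤ) ≤ (M : ℤ) * l ∨ (M : ℤ) * l ≤ -(M : ℤ) := by
    have hM0 : (0 : ℤ) < M := by exact_mod_cast hMpos
    rcases lt_trichotomy l 0 with h | h | h
    · right; right; nlinarith
    · left; exact h
    · right; left; nlinarith
  have hJ0 : (0 : ℤ) ≤ J := Int.natCast_nonneg J
  have hbadC : ∀ j : ℤ, ∀ c ∈ C', z ^ (-j) * (z ^ ((M : ℤ) * l) * x) = c →
      (J : ℤ) ≤ |j - (M : ℤ) * l| → False := by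
    intro j c hc hjc hjl
    apply hJ1' _ hjl c hc i
    have e : z ^ (j - (M : ℤ) * l) * c = x := by
      rw [← hjc, ← mul_assoc, ← mul_assoc, ← zpow_add, ← zpow_add]
      have : j - (M : ℤ) * l + -j + (M : ℤ) * l = 0 := by ring
      rw [this, zpow_zero, one_mul]
    rwa [e]
  rcases hx with ((hx | hx) | hx) | ⟨j, hj1, hj2, hx⟩
  · refine hbadC k _ (hCC' _ hy1 hx) rfl ?_
    rcases htri with h | h | h
    · rw [h, mul_zero, sub_zero, abs_of_neg (by linarith)]; linarith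
    · rw [abs_of_neg (by linarith)]; linarith
    · rw [abs_of_pos (by linarith)]; linarith
  · by_cases hl0 : l = 0
    · subst hl0
      rw [mul_zero, zpow_zero, one_mul] at hx
      have hxB := hBfar x (hSs hx).1
      rcases i with _ | j
      · have h2 : x⁻¹ * (1 : Γ) ∈ T ^ K := hi
        rw [mul_one] at h2
        have h3 : x ∈ T ^ R0 := by
          have := hT.pow_inv h2
          rw [inv_inv] at this
          exact hT.pow_mono (hKρ0.trans hρR) this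
        have h4 := hmid' 0 (by rw [abs_zero]; exact hJ0) x h3
        rw [zpow_zero, one_mul] at h4
        exact h4 hxB
      · have h2 : x⁻¹ * (b * z ^ ((1 : ℤ) * (j : ℤ))) ∈ T ^ K := hi
        apply hxB
        apply nbE_mono hT z (hKρ0.trans (le_max_right _ _))
        refine ⟨-((1 : ℤ) * (j : ℤ)), ?_⟩
        have h3 := hT.pow_inv h2
        have e : (x⁻¹ * (b * z ^ ((1 : ℤ) * (j : ℤ))))⁻¹ =
            z ^ (-((1 : ℤ) * (j : ℤ))) * (b⁻¹ * x) := by group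
        rwa [e] at h3
    · have h2 : (J3 : ℤ) ≤ |(-((M : ℤ) * l))| := by
        rw [abs_neg]
        rcases htri with h | h | h
        · exact absurd h hl0
        · exact (hMJ.trans h).trans (le_abs_self _)
        · rw [abs_of_nonpos (by linarith [Int.natCast_nonneg M])]; linarith
      apply hJ3 _ h2
      refine ⟨_, hx, i, ?_⟩
      have e : z ^ (-((M : ℤ) * l)) * (z ^ ((M : ℤ) * l) * x) = x := by group
      rwa [e]
  · refine hbadC k' _ (hCC' _ hy2 hx) rfl ?_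
    rcases htri with h | h | h
    · rw [h, mul_zero, sub_zero, abs_of_pos (by linarith)]; linarith
    · rw [abs_of_neg (by linarith)]; linarith
    · rw [abs_of_pos (by linarith)]; linarith
  · refine hbadC j _ (Or.inl hx) rfl ?_
    rcases htri with h | h | h
    · rw [h, mul_zero, sub_zero, abs_of_pos (by linarith)]; linarith
    · rw [abs_of_neg (by linarith)]; linarith
    · rw [abs_of_pos (by linarith)]; linarith

end oc

end Pool.Agent.Lib.MP_0f7bfe_al
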