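import Pool.Agent.Lib.MP_0f7bfe_al.OC1
import Pool.Agent.Lib.MP_0f7bfe_al.FM4
import Pool.Agent.Lib.MP_0f7bfe_al.FM56
import Pool.Agent.Lib.MP_0f7bfe_al.FM7

/-!
Wave OC: the commensurated case.
-/

open scoped Pointwise

namespace Pool.Agent.Lib.MP_0f7bfe_al

universe u v

section oc
variable {Γ : Type u} [Group Γ]

theorem OC4_index {z : Γ} {j : ℤ} (hj : j ≠ 0) (H : Subgroup Γ) (hH : z ^ j ∈ H) :
    H.relIndex (Subgroup.zpowers z) ≠ 0 := by
  rw [Subgroup.relIndex]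
  have hfin : Finite (Subgroup.zpowers z ⧸ H.subgroupOf (Subgroup.zpowers z)) := by
    refine Finite.of_surjective (fun i : Fin j.natAbs =>
      ((⟨z ^ ((i : ℕ) : ℤ), Subgroup.zpow_mem_zpowers z _⟩ : Subgroup.zpowers z) :
        Subgroup.zpowers z ⧸ H.subgroupOf (Subgroup.zpowers z))) ?_
    intro q
    obtain ⟨⟨x, k, rfl⟩, rfl⟩ := QuotientGroup.mk_surjective q
    have h0 : 0 ≤ k % j := Int.emod_nonneg k hj
    have h1 : k % j < |j| := Int.emod_lt_abs k hj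
    have h1' : (k % j).toNat < j.natAbs := by
      rw [Int.abs_eq_natAbs] at h1
      omega
    refine ⟨⟨(k % j).toNat, h1'⟩, ?_⟩
    rw [QuotientGroup.eq, Subgroup.mem_subgroupOf]
    have h2 : (((k % j).toNat : ℕ) : ℤ) = k % j := Int.toNat_of_nonneg h0
    simp only [h2]
    have h3 : (z ^ (k % j))⁻¹ * z ^ k = (z ^ j) ^ (k / j) := by
      rw [← zpow_neg, ← zpow_add, ← zpow_mul]
      congr 1
      have := Int.mul_ediv_add_emod k j
      linarith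
    have h4 : (z ^ j) ^ (k / j) ∈ H := H.zpow_mem hH _
    rw [← h3] at h4
    exact h4
  exact Subgroup.index_ne_zero_of_finite

theorem OC4_commensurated {z : Γ} (hz : ¬ IsOfFinOrder z)
    (hb : ∀ b : Γ, ∃ m : ℤ, m ≠ 0 ∧ b * z ^ m * b⁻¹ ∈ Subgroup.zpowers z) :
    Commensurated (Subgroup.zpowers z) := by
  intro g
  obtain ⟨m, hm, j, hj⟩ := hb g
  have hj : z ^ j = g * z ^ m * g⁻¹ := hj
  have hj0 : j ≠ 0 := by
    rintro rfl
    rw [zpow_zero] at hj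
    have h1 : z ^ m = 1 := by
      have h2 : g⁻¹ * 1 * g = z ^ m := by rw [hj]; group
      rw [← h2]; group
    exact hz (isOfFinOrder_iff_zpow_eq_one.mpr ⟨m, hm, h1⟩)
  refine OC4_index hj0 _ ?_
  rw [hj]
  exact Subgroup.mem_map.mpr ⟨z ^ m, Subgroup.zpow_mem_zpowers z m, by simp⟩

theorem OC4_coset {T : Set Γ} (hT : GoodGen T) {z : Γ}
    (hb : ∀ b : Γ, ∃ m : ℤ, m ≠ 0 ∧ b * z ^ m * b⁻¹ ∈ Subgroup.zpowers z) (g : Γ) :
    ∃ ρ, ∀ k : ℤ, g * z ^ k ∈ nbE T z ρ := by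
  obtain ⟨m, hm, j, hj⟩ := hb g
  have hj : z ^ j = g * z ^ m * g⁻¹ := hj
  obtain ⟨ρ, hρ⟩ := exists_nbE hT z ((fun r : ℤ => g * z ^ r) '' Set.Ico 0 |m|)
    ((Set.finite_Ico 0 |m|).image _)
  refine ⟨ρ, fun k => ?_⟩
  have h0 : 0 ≤ k % m := Int.emod_nonneg k hm
  have h1 : k % m < |m| := Int.emod_lt_abs k hm
  have h2 : g * z ^ (k % m) ∈ nbE T z ρ := hρ ⟨k % m, ⟨h0, h1⟩, rfl⟩
  have h3 : g * z ^ k = z ^ (j * (k / m)) * (g * z ^ (k % m)) := by
    have h4 : z ^ (j * (k / m)) = g * z ^ (m * (k / m)) * g⁻¹ := by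
      rw [zpow_mul, hj, conj_zpow, zpow_mul]
    rw [h4]
    have h5 : z ^ k = z ^ (m * (k / m)) * z ^ (k % m) := by
      rw [← zpow_add, Int.mul_ediv_add_emod]
    rw [h5]
    group
  rw [h3, zpow_mul_mem_nbE]
  exact h2

theorem OC4_oneEnd {T : Set Γ} (hT : GoodGen T) (z : Γ) (h1 : OneCo T z)
    (hN : Commensurated (Subgroup.zpowers z))
    (hb : ∀ b : Γ, ∃ m : ℤ, m ≠ 0 ∧ b * z ^ m * b⁻¹ ∈ Subgroup.zpowers z) :
    OneEnd (cosetGraph (Subgroup.zpowers z) T) := by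
  classical
  intro Y hY
  -- a neighbourhood containing the boundary
  obtain ⟨ρ, hρ⟩ : ∃ ρ, ∀ x : Γ, (x : Γ ⧸ Subgroup.zpowers z) ∈
      bdry (cosetGraph (Subgroup.zpowers z) T) Y → x ∈ nbE T z ρ := by
    have h2 : ∀ y : Γ ⧸ Subgroup.zpowers z, ∃ ρ, ∀ x : Γ, (x : Γ ⧸ Subgroup.zpowers z) = y →
        x ∈ nbE T z ρ := by
      intro y
      obtain ⟨g, rfl⟩ := QuotientGroup.mk_surjective y
      obtain ⟨ρ, hρ⟩ := OC4_coset hT hb g
      refine ⟨ρ, fun x hx => ?_⟩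
      have h3 : g⁻¹ * x ∈ Subgroup.zpowers z := QuotientGroup.eq.mp hx.symm
      obtain ⟨k, hk⟩ := h3
      have h4 : x = g * z ^ k := by
        have : z ^ k = g⁻¹ * x := hk
        rw [this]; group
      rw [h4]
      exact hρ k
    choose f hf using h2
    obtain ⟨ρ, hρ⟩ := (hY.image f).bddAbove
    exact ⟨ρ, fun x hx => nbE_mono hT z (hρ (Set.mem_image_of_mem f hx)) (hf _ x rfl)⟩
  have hstep : ∀ x ∈ farE T z ρ, ∀ t ∈ T, ((x : Γ ⧸ Subgroup.zpowers z) ∈ Y ↔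
      ((x * t : Γ) : Γ ⧸ Subgroup.zpowers z) ∈ Y) := by
    intro x hx t ht
    by_contra hne
    refine hx (hρ x ⟨((x * t : Γ) : Γ ⧸ Subgroup.zpowers z), ?_, hne⟩)
    rw [fm4_coset_adj]
    refine ⟨fun heq => hne (by rw [← heq]), Or.inl ⟨x, t, ht, rfl, rfl⟩⟩
  have hlink : ∀ x y : Γ, Linked T (farE T z ρ) x y → ((x : Γ ⧸ Subgroup.zpowers z) ∈ Y ↔
      (y : Γ ⧸ Subgroup.zpowers z) ∈ Y) := by
    intro x y h
    induction h with
    | refl => exact Iff.rfl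
    | @tail b c _ hs ih =>
      refine ih.trans ?_
      rcases hs.2.2 with ht | ht
      · have := hstep b hs.1 _ ht
        rwa [mul_inv_cancel_left] at this
      · have := hstep c hs.2.1 _ ht
        rw [mul_inv_cancel_left] at this
        exact this.symm
  obtain ⟨R, hR⟩ := h1 ρ
  have hfin : {y : Γ ⧸ Subgroup.zpowers z | ∃ x ∈ nbE T z R, (x : Γ ⧸ Subgroup.zpowers z) =
      y}.Finite := by
    refine ((hT.pow_finite R).biUnion fun t _ =>
      fm4_double_finite (Subgroup.zpowers z) hN t).subset ?_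
    rintro y ⟨x, ⟨k, hk⟩, rfl⟩
    refine Set.mem_biUnion hk ⟨z ^ (-k), Subgroup.zpow_mem_zpowers z _, ?_⟩
    rw [← mul_assoc, ← zpow_add, neg_add_cancel, zpow_zero, one_mul]
  by_cases hex : ∃ x ∈ farE T z R, (x : Γ ⧸ Subgroup.zpowers z) ∈ Y
  · obtain ⟨x, hx, hxY⟩ := hex
    right
    refine hfin.subset fun y hy => ?_
    obtain ⟨g, rfl⟩ := QuotientGroup.mk_surjective y
    refine ⟨g, ?_, rfl⟩
    by_contra hg
    exact hy ((hlink x g (hR x hx g hg)).mp hxY)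
  · left
    refine hfin.subset fun y hy => ?_
    obtain ⟨g, rfl⟩ := QuotientGroup.mk_surjective y
    refine ⟨g, ?_, rfl⟩
    by_contra hg
    exact hex ⟨g, hg, hy⟩

theorem allCliques_of_comm {T : Set Γ} (hT : GoodGen T) (z : Γ) (hz : ¬ IsOfFinOrder z)
    (hidx : Infinite (Γ ⧸ Subgroup.zpowers z)) (h1 : OneCo T z)
    (hb : ∀ b : Γ, ∃ m : ℤ, m ≠ 0 ∧ b * z ^ m * b⁻¹ ∈ Subgroup.zpowers z) :
    AllCliques Γ := by
  have hN := OC4_commensurated hz hb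
  have hinf : Infinite (Subgroup.zpowers z) :=
    Set.infinite_coe_iff.mpr (infinite_zpowers.mpr hz)
  exact allCliques_of_pods_coset (Subgroup.zpowers z) hN hinf {z} T (Set.finite_singleton z)
    hT.fin (Subgroup.zpowers_eq_closure z).symm hT.gen
    ((cosetGraph_homog (Subgroup.zpowers z) hN T hT.fin hT.gen).pods_of_oneEnd hidx
      (OC4_oneEnd hT z h1 hN hb))

end oc

end Pool.Agent.Lib.MP_0f7bfe_al
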