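import Pool.Agent.Lib.MP_0f7bfe_al.OC1
import Pool.Agent.Lib.MP_0f7bfe_al.FM1

open scoped Pointwise

namespace Pool.Agent.Lib.MP_0f7bfe_al

universe u v

section oc
variable {Γ : Type u} [Group Γ]

theorem OneCo.mono {T T' : Set Γ} (hT : GoodGen T) (hT' : GoodGen T') (hTT' : T ⊆ T') (z : Γ)
    (h : OneCo T z) : OneCo T' z := by
  intro ρ
  obtain ⟨c, hc⟩ := hT.exists_pow_set T' hT'.fin
  obtain ⟨R, hR⟩ := h (c * ρ)
  have h1 : ∀ n, nbE T z n ⊆ nbE T' z n := by
    rintro n x ⟨k, hk⟩
    exact ⟨k, Set.pow_subset_pow_left hTT' hk⟩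
  have h2 : nbE T' z ρ ⊆ nbE T z (c * ρ) := by
    rintro x ⟨k, hk⟩
    refine ⟨k, ?_⟩
    rw [pow_mul]
    exact Set.pow_subset_pow_left hc hk
  have h3 : farE T z (c * ρ) ⊆ farE T' z ρ := fun w hw hw' => hw (h2 hw')
  have h4 : farE T' z R ⊆ farE T z R := fun w hw hw' => hw (h1 R hw')
  refine ⟨R, fun x hx y hy => ?_⟩
  exact fm3_linked_mono hTT' h3 (hR x (h4 hx) y (h4 hy))

/-- Any two points far away from the cyclic subgroup of `z` can be joined far away from it. -/
def OneCoend (S : Set Γ) (z : Γ) : Prop :=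
  ∀ ρ : ℕ, ∃ R : ℕ, ∀ x y : Γ, (∀ k : ℤ, R < (SimpleGraph.mulCayley S).dist (z ^ k) x) →
    (∀ k : ℤ, R < (SimpleGraph.mulCayley S).dist (z ^ k) y) →
    ∃ p : (SimpleGraph.mulCayley S).Walk x y, ∀ v ∈ p.support, ∀ k : ℤ,
      ρ < (SimpleGraph.mulCayley S).dist (z ^ k) v

/-- the symmetrised generating set -/
def ocT (S : Set Γ) : Set Γ := S ∪ S⁻¹ ∪ {1}

theorem ocT_good (S : Set Γ) (hS : S.Finite) (hgen : Subgroup.closure S = ⊤) : GoodGen (ocT S) := by
  refine ⟨(hS.union hS.inv).union (Set.finite_singleton 1), Or.inr rfl, ?_, ?_⟩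
  · rintro t ((ht | ht) | ht)
    · exact Or.inl (Or.inr (Set.inv_mem_inv.2 ht))
    · exact Or.inl (Or.inl ht)
    · rw [Set.mem_singleton_iff] at ht
      subst ht
      exact Or.inr (by simp)
  · rw [eq_top_iff, ← hgen]
    exact Subgroup.closure_mono fun x hx => Or.inl (Or.inl hx)

theorem ocT_adj {S : Set Γ} {x y : Γ} (h : (SimpleGraph.mulCayley S).Adj x y) :
    x⁻¹ * y ∈ ocT S := by
  rw [SimpleGraph.mulCayley_adj] at h
  rcases h.2 with h | h
  · exact Or.inl (Or.inl h)
  · left; right
    rw [Set.mem_inv]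
    have e : (x⁻¹ * y)⁻¹ = y⁻¹ * x := by group
    rwa [e]

theorem ocT_walk {S : Set Γ} {x y : Γ} (p : (SimpleGraph.mulCayley S).Walk x y) :
    x⁻¹ * y ∈ ocT S ^ p.length := by
  induction p with
  | nil => rw [inv_mul_cancel]; exact Set.mem_one.2 rfl
  | cons h p ih =>
    rw [SimpleGraph.Walk.length_cons, pow_succ']
    refine ⟨_, ocT_adj h, _, ih, ?_⟩
    group

theorem ocT_dist {S : Set Γ} (hS : S.Finite) (hgen : Subgroup.closure S = ⊤) {x y : Γ} {n : ℕ} :
    (SimpleGraph.mulCayley S).dist x y ≤ n ↔ x⁻¹ * y ∈ ocT S ^ n := by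
  have hh := cayley_homog S hS hgen
  have hG := ocT_good S hS hgen
  constructor
  · intro h
    obtain ⟨p, hp⟩ := hh.conn.exists_walk_length_eq_dist x y
    exact hG.pow_mono (hp.le.trans h) (ocT_walk p)
  · intro h
    induction n generalizing y with
    | zero =>
      rw [pow_zero, Set.mem_one, inv_mul_eq_one] at h
      subst h
      simp
    | succ n ih =>
      rw [pow_succ] at h
      obtain ⟨a, ha, t, ht, hat⟩ := h
      have h1 := ih (y := x * a) (by simpa using ha)
      have h2 : (SimpleGraph.mulCayley S).dist (x * a) y ≤ 1 := by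
        by_cases he : x * a = y
        · rw [he]; simp
        · have hadj : (SimpleGraph.mulCayley S).Adj (x * a) y := by
            rw [SimpleGraph.mulCayley_adj]
            refine ⟨he, ?_⟩
            have e : (x * a)⁻¹ * y = t := by
              have : y = x * (a * t) := by
                change a * t = x⁻¹ * y at hat
                rw [hat]; group
              rw [this]; group
            have e' : y⁻¹ * (x * a) = t⁻¹ := by
              rw [← e]; group
            rw [e, e']
            rcases ht with (ht | ht) | ht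
            · exact Or.inl ht
            · exact Or.inr ht
            · exfalso
              apply he
              rw [Set.mem_singleton_iff] at ht
              rw [ht] at e
              rwa [inv_mul_eq_one] at e
          exact (SimpleGraph.dist_eq_one_iff_adj.2 hadj).le
      exact (hh.conn.dist_triangle (v := x * a)).trans (by omega)

theorem ocT_linked {S B : Set Γ} {x y : Γ} (p : (SimpleGraph.mulCayley S).Walk x y)
    (hp : ∀ v ∈ p.support, v ∈ B) : Linked (ocT S) B x y := by
  induction p with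
  | nil => exact Relation.ReflTransGen.refl
  | cons h p ih =>
    refine Relation.ReflTransGen.head ⟨hp _ (by simp), hp _ (by simp), Or.inl (ocT_adj h)⟩
      (ih fun v hv => hp v (by simp [hv]))

theorem oneCo_of_oneCoend (S : Set Γ) (hS : S.Finite) (hgen : Subgroup.closure S = ⊤) (z : Γ)
    (h : OneCoend S z) : ∃ T, GoodGen T ∧ OneCo T z := by
  refine ⟨ocT S, ocT_good S hS hgen, fun ρ => ?_⟩
  obtain ⟨R, hR⟩ := h ρ
  have hfar : ∀ (n : ℕ) (x : Γ), x ∈ farE (ocT S) z n ↔
      ∀ k : ℤ, n < (SimpleGraph.mulCayley S).dist (z ^ k) x := by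
    intro n x
    constructor
    · intro hx k
      by_contra hcon
      rw [not_lt, ocT_dist hS hgen] at hcon
      apply hx
      refine ⟨-k, ?_⟩
      rwa [zpow_neg]
    · rintro hx ⟨k, hk⟩
      have h1 := hx (-k)
      rw [← not_le] at h1
      apply h1
      rw [ocT_dist hS hgen, zpow_neg, inv_inv]
      exact hk
  refine ⟨R, fun x hx y hy => ?_⟩
  obtain ⟨p, hp⟩ := hR x y ((hfar R x).1 hx) ((hfar R y).1 hy)
  exact ocT_linked p fun v hv => (hfar ρ v).2 (hp v hv)

end oc

end Pool.Agent.Lib.MP_0f7bfe_al
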