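import Pool.Agent.Lib.MP_0f7bfe_al.Defs

/-!
Definitions for the wave OC: elements of infinite order with one coend.
-/

open scoped Pointwise

namespace Pool.Agent.Lib.MP_0f7bfe_al

universe u v

section oc
variable {Γ : Type u} [Group Γ]

/-- finite symmetric generating set containing `1` -/
structure GoodGen (T : Set Γ) : Prop where
  fin : T.Finite
  one : (1 : Γ) ∈ T
  inv : ∀ t ∈ T, t⁻¹ ∈ T
  gen : Subgroup.closure T = ⊤

/-- the `ρ`-neighbourhood of the cyclic subgroup of `z` (in the word metric of `T`) -/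
def nbE (T : Set Γ) (z : Γ) (ρ : ℕ) : Set Γ := {x | ∃ k : ℤ, z ^ k * x ∈ T ^ ρ}

/-- the points at distance more than `ρ` from the cyclic subgroup of `z` -/
def farE (T : Set Γ) (z : Γ) (ρ : ℕ) : Set Γ := {x | x ∉ nbE T z ρ}

/-- one coend -/
def OneCo (T : Set Γ) (z : Γ) : Prop :=
  ∀ ρ, ∃ R, ∀ x ∈ farE T z R, ∀ y ∈ farE T z R, Linked T (farE T z ρ) x y

/-- the set of all translates of `D` by powers of `z ^ M` -/
def satE (z : Γ) (M : ℕ) (D : Set Γ) : Set Γ := {x | ∃ k : ℤ, z ^ ((M : ℤ) * k) * x ∈ D}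

/-- `D` is finite, connected, and contains `q` and `z ^ M * q`: its translates form a line -/
structure IsLine (T : Set Γ) (z : Γ) (M : ℕ) (D : Set Γ) (q : Γ) : Prop where
  pos : 0 < M
  fin : D.Finite
  q_mem : q ∈ D
  zq_mem : z ^ M * q ∈ D
  conn : ∀ x ∈ D, Linked T D q x

/-- a ray from the cyclic subgroup of `z` to infinity, leaving all its neighbourhoods -/
structure IsRay (T : Set Γ) (z : Γ) (σ : ℕ → Γ) : Prop where
  start : σ 0 ∈ nbE T z 0
  step : ∀ i, (σ i)⁻¹ * σ (i + 1) ∈ T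
  esc : ∀ ρ, ∃ N, ∀ i, N ≤ i → σ i ∈ farE T z ρ

/-- arbitrarily far out there are invariant lines which do not `K`-separate the cyclic subgroup
of `z` from infinity -/
def NonSep (T : Set Γ) (z : Γ) (K : ℕ) : Prop :=
  ∀ ρ, ∃ (M : ℕ) (D : Set Γ) (q : Γ) (σ : ℕ → Γ), IsLine T z M D q ∧ D ⊆ farE T z ρ ∧
    IsRay T z σ ∧ ∀ i, ∀ x ∈ satE z M D, x⁻¹ * σ i ∉ T ^ K

end oc

end Pool.Agent.Lib.MP_0f7bfe_al
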