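import Pool.Agent.Lib.MP_0f7bfe_al.OC2
import Pool.Agent.Lib.MP_0f7bfe_al.OC3
import Pool.Agent.Lib.MP_0f7bfe_al.OC4
import Pool.Agent.Lib.MP_0f7bfe_al.OC5

/-!
A finitely generated group with an element of infinite order which has one coend has all finite
graphs as asymptotic minors.
-/

open scoped Pointwise

namespace Pool.Agent.Lib.MP_0f7bfe_al

universe u v

section oc
variable {Γ : Type u} [Group Γ]

theorem allCliques_of_oneCoend (S : Set Γ) (hS : S.Finite) (hgen : Subgroup.closure S = ⊤) (z : Γ)
    (hz : ¬ IsOfFinOrder z) (hidx : Infinite (Γ ⧸ Subgroup.zpowers z)) (h : OneCoend S z) :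
    AllCliques Γ := by
  obtain ⟨T, hT, h1⟩ := oneCo_of_oneCoend S hS hgen z h
  by_cases hcom : ∀ b : Γ, ∃ m : ℤ, m ≠ 0 ∧ b * z ^ m * b⁻¹ ∈ Subgroup.zpowers z
  · exact allCliques_of_comm hT z hz hidx h1 hcom
  · push Not at hcom
    obtain ⟨b, hb⟩ := hcom
    set T' : Set Γ := T ∪ {z, z⁻¹, b, b⁻¹} with hT'
    have hG : GoodGen T' := by
      refine ⟨hT.fin.union (by simp), Or.inl hT.one, ?_, ?_⟩
      · rintro t (ht | ht)
        · exact Or.inl (hT.inv t ht)
        · right
          simp only [Set.mem_insert_iff, Set.mem_singleton_iff] at ht ⊢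
          rcases ht with rfl | rfl | rfl | rfl
          · right; left; rfl
          · left; exact inv_inv _
          · right; right; right; rfl
          · right; right; left; exact inv_inv _
      · rw [eq_top_iff, ← hT.gen]
        exact Subgroup.closure_mono Set.subset_union_left
    have h1' : OneCo T' z := h1.mono hT hG Set.subset_union_left z
    refine allCliques_of_nonSep hG z hz hidx h1' fun K => ?_
    by_contra hns
    exact false_of_sep hG z b hz hidx h1' (by simp [hT']) (by simp [hT']) hb K hns

end oc

end Pool.Agent.Lib.MP_0f7bfe_al
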