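import Pool.Agent.Lib.MP_0f7bfe_al.Defs

open scoped Pointwise

namespace Pool.Agent.Lib.MP_0f7bfe_al

universe u v

section
variable {G : Type u} [Group G]

/-- subgroup generated by the conjugates `s^i b s^-i`, `i ≤ ρ` -/
def Lc (b s : G) (ρ : ℤ) : Subgroup G :=
  Subgroup.closure {x | ∃ i : ℤ, i ≤ ρ ∧ x = s ^ i * b * s ^ (-i)}

theorem sv1a_conj (b s : G) (ρ k : ℤ) {x : G} (hx : x ∈ Lc b s ρ) :
    s ^ k * x * s ^ (-k) ∈ Lc b s (ρ + k) := by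
  have h : (Lc b s ρ).map (MulAut.conj (s ^ k)).toMonoidHom ≤ Lc b s (ρ + k) := by
    unfold Lc
    rw [MonoidHom.map_closure, Subgroup.closure_le]
    rintro _ ⟨_, ⟨i, hi, rfl⟩, rfl⟩
    refine Subgroup.subset_closure ⟨i + k, by omega, ?_⟩
    simp only [MulEquiv.coe_toMonoidHom, MulAut.conj_apply]
    group
  have h1 := h ⟨x, hx, rfl⟩
  simp only [MulEquiv.coe_toMonoidHom, MulAut.conj_apply] at h1
  rwa [zpow_neg]

theorem sv1a_conj' (b s : G) (ρ k : ℤ) {x : G} (hx : x ∈ Lc b s ρ) :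
    s ^ (-k) * x * s ^ k ∈ Lc b s (ρ - k) := by
  have h := sv1a_conj b s ρ (-k) hx
  rwa [neg_neg, ← sub_eq_add_neg] at h

theorem sv1a_mono (b s : G) {ρ ρ' : ℤ} (h : ρ ≤ ρ') : Lc b s ρ ≤ Lc b s ρ' :=
  Subgroup.closure_mono fun _ ⟨i, hi, hx⟩ => ⟨i, hi.trans h, hx⟩

theorem sv1a_le (A : Subgroup G) (hA : A.Normal) (b s : G) (hb : b ∈ A) (ρ : ℤ) :
    Lc b s ρ ≤ A := by
  unfold Lc
  rw [Subgroup.closure_le]
  rintro _ ⟨i, -, rfl⟩
  rw [zpow_neg]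
  exact hA.conj_mem b hb _

theorem sv1a_form (b s : G) (hgen : Subgroup.closure {b, s} = ⊤) (g : G) :
    ∃ n : G, ∃ ρ k : ℤ, n ∈ Lc b s ρ ∧ g = n * s ^ k := by
  have hg : g ∈ Subgroup.closure ({b, s} : Set G) := by rw [hgen]; trivial
  induction hg using Subgroup.closure_induction with
  | mem x hx =>
    rcases hx with rfl | rfl
    · exact ⟨x, 0, 0, Subgroup.subset_closure ⟨0, le_rfl, by simp⟩, by simp⟩
    · exact ⟨1, 0, 1, Subgroup.one_mem _, by simp⟩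
  | one => exact ⟨1, 0, 0, Subgroup.one_mem _, by simp⟩
  | mul x y _ _ hx hy =>
    obtain ⟨n, ρ, k, hn, rfl⟩ := hx
    obtain ⟨n', ρ', k', hn', rfl⟩ := hy
    refine ⟨n * (s ^ k * n' * s ^ (-k)), max ρ (ρ' + k), k + k', ?_, by group⟩
    exact Subgroup.mul_mem _ (sv1a_mono b s (le_max_left _ _) hn)
      (sv1a_mono b s (le_max_right _ _) (sv1a_conj b s ρ' k hn'))
  | inv x _ hx =>
    obtain ⟨n, ρ, k, hn, rfl⟩ := hx
    exact ⟨s ^ (-k) * n⁻¹ * s ^ k, ρ - k, -k, sv1a_conj' b s ρ k (Subgroup.inv_mem _ hn), by group⟩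

theorem sv1a_union (A : Subgroup G) (hA : A.Normal) (b s : G) (hb : b ∈ A)
    (hs : ∀ k : ℤ, s ^ k ∈ A → k = 0) (hgen : Subgroup.closure {b, s} = ⊤) {a : G} (ha : a ∈ A) :
    ∃ ρ, a ∈ Lc b s ρ := by
  obtain ⟨n, ρ, k, hn, rfl⟩ := sv1a_form b s hgen a
  have hn' := sv1a_le A hA b s hb ρ hn
  have hk : s ^ k ∈ A := by
    have := A.mul_mem (A.inv_mem hn') ha
    rwa [inv_mul_cancel_left] at this
  rw [hs k hk, zpow_zero, mul_one]
  exact ⟨ρ, hn⟩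

theorem sv1a_all (A : Subgroup G) (hA : A.Normal) (b s : G) {ρ : ℤ} (h : A ≤ Lc b s ρ) (ρ' : ℤ) :
    A ≤ Lc b s ρ' := by
  intro a ha
  have h1 : s ^ (ρ - ρ') * a * s ^ (-(ρ - ρ')) ∈ A := by
    rw [zpow_neg]
    exact hA.conj_mem a ha _
  have h2 := sv1a_conj' b s ρ (ρ - ρ') (h h1)
  have e : s ^ (-(ρ - ρ')) * (s ^ (ρ - ρ') * a * s ^ (-(ρ - ρ'))) * s ^ (ρ - ρ') = a := by group
  rw [e] at h2
  rwa [sub_sub_cancel] at h2

theorem sv1a_finiteIndex (A : Subgroup G) (hA : A.Normal) (b s : G) (hb : b ∈ A)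
    (hs : ∀ k : ℤ, s ^ k ∈ A → k = 0) (hgen : Subgroup.closure {b, s} = ⊤) {ρ : ℤ}
    (h : (Lc b s ρ).relIndex A ≠ 0) (ρ' : ℤ) : A ≤ Lc b s ρ' := by
  have hfin : Finite (A ⧸ (Lc b s ρ).subgroupOf A) := by
    have h1 : ((Lc b s ρ).subgroupOf A).index ≠ 0 := h
    exact Nat.finite_of_card_ne_zero h1
  have h1 : ∀ q : A ⧸ (Lc b s ρ).subgroupOf A, ∃ r : ℤ, ((Quotient.out q : A) : G) ∈ Lc b s r :=
    fun q => sv1a_union A hA b s hb hs hgen (Quotient.out q : A).2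
  choose f hf using h1
  obtain ⟨M, hM⟩ := (Set.finite_range f).bddAbove
  refine sv1a_all A hA b s (ρ := max M ρ) ?_ ρ'
  intro a ha
  have h2 : (QuotientGroup.mk (⟨a, ha⟩ : A) : A ⧸ (Lc b s ρ).subgroupOf A) =
      QuotientGroup.mk (Quotient.out (QuotientGroup.mk (⟨a, ha⟩ : A) :
        A ⧸ (Lc b s ρ).subgroupOf A)) := (QuotientGroup.out_eq' _).symm
  rw [eq_comm, QuotientGroup.eq, Subgroup.mem_subgroupOf] at h2
  set o : A := Quotient.out (QuotientGroup.mk (⟨a, ha⟩ : A) : A ⧸ (Lc b s ρ).subgroupOf A) with ho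
  have h3 : (o : G) ∈ Lc b s (max M ρ) :=
    sv1a_mono b s ((hM ⟨_, rfl⟩).trans (le_max_left _ _)) (hf _)
  have h4 : ((o⁻¹ * ⟨a, ha⟩ : A) : G) ∈ Lc b s (max M ρ) := sv1a_mono b s (le_max_right _ _) h2
  have h5 := Subgroup.mul_mem _ h3 h4
  simpa using h5

theorem sv1a_infinite (A : Subgroup G) (hA : A.Normal) (b s : G) (hb : b ∈ A)
    (hs : ∀ k : ℤ, s ^ k ∈ A → k = 0) (hgen : Subgroup.closure {b, s} = ⊤)
    (h0 : ∀ ρ, (Lc b s ρ).relIndex A = 0) (ρ : ℤ) : (Lc b s ρ : Set G).Infinite := by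
  intro hfin
  have hmaps : Set.MapsTo (fun x => s ^ (-1 : ℤ) * x * s ^ (1 : ℤ)) (Lc b s ρ : Set G)
      (Lc b s ρ : Set G) := fun x hx => sv1a_mono b s (by omega) (sv1a_conj' b s ρ 1 hx)
  have hinj : Set.InjOn (fun x => s ^ (-1 : ℤ) * x * s ^ (1 : ℤ)) (Lc b s ρ : Set G) := by
    intro x _ y _ hxy
    have : s ^ (-1 : ℤ) * x * s ^ (1 : ℤ) = s ^ (-1 : ℤ) * y * s ^ (1 : ℤ) := hxy
    exact mul_left_cancel (mul_right_cancel this)
  have hsurj : (fun x => s ^ (-1 : ℤ) * x * s ^ (1 : ℤ)) '' (Lc b s ρ : Set G) =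
      (Lc b s ρ : Set G) :=
    Set.eq_of_subset_of_ncard_le hmaps.image_subset hinj.ncard_image.ge hfin
  have hup : ∀ x ∈ Lc b s ρ, s ^ (1 : ℤ) * x * s ^ (-1 : ℤ) ∈ Lc b s ρ := by
    intro x hx
    have hx' : x ∈ (fun x => s ^ (-1 : ℤ) * x * s ^ (1 : ℤ)) '' (Lc b s ρ : Set G) := by
      rw [hsurj]; exact hx
    obtain ⟨y, hy, rfl⟩ := hx'
    have e : s ^ (1 : ℤ) * (s ^ (-1 : ℤ) * y * s ^ (1 : ℤ)) * s ^ (-1 : ℤ) = y := by group
    show s ^ (1 : ℤ) * (s ^ (-1 : ℤ) * y * s ^ (1 : ℤ)) * s ^ (-1 : ℤ) ∈ Lc b s ρ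
    rw [e]
    exact hy
  have hup' : ∀ n : ℕ, ∀ x ∈ Lc b s ρ, s ^ (n : ℤ) * x * s ^ (-(n : ℤ)) ∈ Lc b s ρ := by
    intro n
    induction n with
    | zero => intro x hx; simpa using hx
    | succ n ih =>
      intro x hx
      have := ih _ (hup x hx)
      have e : s ^ (n : ℤ) * (s ^ (1 : ℤ) * x * s ^ (-1 : ℤ)) * s ^ (-(n : ℤ)) =
          s ^ ((n + 1 : ℕ) : ℤ) * x * s ^ (-((n + 1 : ℕ) : ℤ)) := by push_cast; group
      rwa [e] at this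
  have hAle : A ≤ Lc b s ρ := by
    intro a ha
    obtain ⟨ρ', hρ'⟩ := sv1a_union A hA b s hb hs hgen ha
    rcases le_total ρ' ρ with h | h
    · exact sv1a_mono b s h hρ'
    · obtain ⟨n, hn⟩ := Int.eq_ofNat_of_zero_le (sub_nonneg.mpr h)
      have h1 := sv1a_conj' b s ρ' (n : ℤ) hρ'
      have e1 : ρ' - (n : ℤ) = ρ := by omega
      rw [e1] at h1
      have h2 := hup' n _ h1
      have e2 : s ^ (n : ℤ) * (s ^ (-(n : ℤ)) * a * s ^ (n : ℤ)) * s ^ (-(n : ℤ)) = a := by group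
      rwa [e2] at h2
  have h1 := h0 ρ
  rw [Subgroup.relIndex_eq_one.mpr hAle] at h1
  exact one_ne_zero h1

/-- finite version of `Lc` -/
theorem sv1a_fin (b s : G) (ρ : ℤ) {x : G} (hx : x ∈ Lc b s ρ) :
    ∃ m : ℤ, x ∈ Subgroup.closure {x | ∃ i : ℤ, m ≤ i ∧ i ≤ ρ ∧ x = s ^ i * b * s ^ (-i)} := by
  unfold Lc at hx
  have hmono : ∀ m m' : ℤ, m' ≤ m →
      Subgroup.closure {x | ∃ i : ℤ, m ≤ i ∧ i ≤ ρ ∧ x = s ^ i * b * s ^ (-i)} ≤
      Subgroup.closure {x | ∃ i : ℤ, m' ≤ i ∧ i ≤ ρ ∧ x = s ^ i * b * s ^ (-i)} :=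
    fun m m' h => Subgroup.closure_mono fun _ ⟨i, h1, h2⟩ => ⟨i, h.trans h1, h2⟩
  induction hx using Subgroup.closure_induction with
  | mem x hx =>
    obtain ⟨i, hi, rfl⟩ := hx
    exact ⟨i, Subgroup.subset_closure ⟨i, le_rfl, hi, rfl⟩⟩
  | one => exact ⟨0, Subgroup.one_mem _⟩
  | mul x y _ _ hx hy =>
    obtain ⟨m, hm⟩ := hx
    obtain ⟨m', hm'⟩ := hy
    exact ⟨min m m', Subgroup.mul_mem _ (hmono _ _ (min_le_left _ _) hm)
      (hmono _ _ (min_le_right _ _) hm')⟩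
  | inv x _ hx =>
    obtain ⟨m, hm⟩ := hx
    exact ⟨m, Subgroup.inv_mem _ hm⟩

/-- SV1a -/
theorem exists_direction (A : Subgroup G) (hA : A.Normal) (hab : ∀ a ∈ A, ∀ b ∈ A, a * b = b * a)
    (b t : G) (hb : b ∈ A) (ht : ∀ k : ℤ, t ^ k ∈ A → k = 0)
    (hgen : Subgroup.closure {b, t} = ⊤) (hfg : ¬ A.FG) :
    ∃ s : G, (s = t ∨ s = t⁻¹) ∧ (∀ ρ, (Lc b s ρ : Set G).Infinite) ∧
      (∀ ρ, (Lc b s ρ).relIndex A = 0) := by
  have ht' : ∀ k : ℤ, t⁻¹ ^ k ∈ A → k = 0 := by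
    intro k hk
    have : t ^ (-k) ∈ A := by simpa using hk
    have := ht _ this
    omega
  have hgen' : Subgroup.closure {b, t⁻¹} = ⊤ := by
    rw [eq_top_iff, ← hgen, Subgroup.closure_le]
    rintro x (rfl | rfl)
    · exact Subgroup.subset_closure (by simp)
    · have := (Subgroup.closure {b, x⁻¹}).inv_mem
        (Subgroup.subset_closure (show x⁻¹ ∈ ({b, x⁻¹} : Set G) by simp))
      simpa using this
  by_cases h1 : ∀ ρ, (Lc b t ρ).relIndex A = 0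
  · exact ⟨t, Or.inl rfl, sv1a_infinite A hA b t hb ht hgen h1, h1⟩
  by_cases h2 : ∀ ρ, (Lc b t⁻¹ ρ).relIndex A = 0
  · exact ⟨t⁻¹, Or.inr rfl, sv1a_infinite A hA b t⁻¹ hb ht' hgen' h2, h2⟩
  exfalso
  push Not at h1 h2
  obtain ⟨ρ₁, h1⟩ := h1
  obtain ⟨ρ₂, h2⟩ := h2
  have h3 := sv1a_finiteIndex A hA b t hb ht hgen h1 (-1) hb
  have h4 := sv1a_finiteIndex A hA b t⁻¹ hb ht' hgen' h2 (-1) hb
  obtain ⟨m, hm⟩ := sv1a_fin b t (-1) h3
  obtain ⟨m', hm'⟩ := sv1a_fin b t⁻¹ (-1) h4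
  -- the range
  let Ic : ℤ → ℤ → Subgroup G := fun i j =>
    Subgroup.closure {x | ∃ k : ℤ, i ≤ k ∧ k ≤ j ∧ x = t ^ k * b * t ^ (-k)}
  have hIcmono : ∀ i j i' j' : ℤ, i' ≤ i → j ≤ j' → Ic i j ≤ Ic i' j' :=
    fun i j i' j' h5 h6 => Subgroup.closure_mono fun _ ⟨k, h7, h8, h9⟩ =>
      ⟨k, h5.trans h7, h8.trans h6, h9⟩
  have hIcconj : ∀ i j k : ℤ, ∀ x ∈ Ic i j, t ^ k * x * t ^ (-k) ∈ Ic (i + k) (j + k) := by
    intro i j k x hx
    have h : (Ic i j).map (MulAut.conj (t ^ k)).toMonoidHom ≤ Ic (i + k) (j + k) := by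
      simp only [Ic]
      rw [MonoidHom.map_closure, Subgroup.closure_le]
      rintro _ ⟨_, ⟨l, hl, hl', rfl⟩, rfl⟩
      refine Subgroup.subset_closure ⟨l + k, by omega, by omega, ?_⟩
      simp only [MulEquiv.coe_toMonoidHom, MulAut.conj_apply]
      group
    have h1 := h ⟨x, hx, rfl⟩
    simp only [MulEquiv.coe_toMonoidHom, MulAut.conj_apply] at h1
    rwa [zpow_neg]
  set M : ℤ := max 1 (max (-m) (-m')) with hM
  have hM1 : 1 ≤ M := le_max_left _ _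
  have hMm : -m ≤ M := (le_max_left _ _).trans (le_max_right _ _)
  have hMm' : -m' ≤ M := (le_max_right _ _).trans (le_max_right _ _)
  have h5 : b ∈ Ic (-M) (-1) := hIcmono m (-1) (-M) (-1) (by omega) le_rfl hm
  have h6 : b ∈ Ic 1 M := by
    refine Subgroup.closure_mono ?_ hm'
    rintro _ ⟨i, hi, hi', rfl⟩
    exact ⟨-i, by omega, by omega, by simp⟩
  -- `Ic 0 M` is everything
  have hdown : ∀ x ∈ Ic 0 M, t ^ (-1 : ℤ) * x * t ^ (1 : ℤ) ∈ Ic 0 M := by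
    intro x hx
    have h : (Ic 0 M).map (MulAut.conj (t ^ (-1 : ℤ))).toMonoidHom ≤ Ic 0 M := by
      have : Ic 0 M = Subgroup.closure {x | ∃ k : ℤ, 0 ≤ k ∧ k ≤ M ∧ x = t ^ k * b * t ^ (-k)} := rfl
      conv_lhs => rw [this]
      rw [MonoidHom.map_closure, Subgroup.closure_le]
      rintro _ ⟨_, ⟨l, hl, hl', rfl⟩, rfl⟩
      simp only [MulEquiv.coe_toMonoidHom, MulAut.conj_apply, SetLike.mem_coe]
      rcases eq_or_lt_of_le hl with h7 | h7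
      · subst h7
        have h8 := hIcconj 1 M (-1) b h6
        have e : t ^ (-1 : ℤ) * (t ^ (0 : ℤ) * b * t ^ (-(0 : ℤ))) * (t ^ (-1 : ℤ))⁻¹ =
          t ^ (-1 : ℤ) * b * t ^ (-(-1 : ℤ)) := by group
        rw [e]
        exact hIcmono _ _ _ _ (by omega) (by omega) h8
      · refine Subgroup.subset_closure ⟨l - 1, by omega, by omega, ?_⟩
        group
    have h1 := h ⟨x, hx, rfl⟩
    simp only [MulEquiv.coe_toMonoidHom, MulAut.conj_apply] at h1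
    rw [← zpow_neg, neg_neg] at h1
    exact h1
  have hup : ∀ x ∈ Ic 0 M, t ^ (1 : ℤ) * x * t ^ (-1 : ℤ) ∈ Ic 0 M := by
    intro x hx
    have h : (Ic 0 M).map (MulAut.conj (t ^ (1 : ℤ))).toMonoidHom ≤ Ic 0 M := by
      have : Ic 0 M = Subgroup.closure {x | ∃ k : ℤ, 0 ≤ k ∧ k ≤ M ∧ x = t ^ k * b * t ^ (-k)} := rfl
      conv_lhs => rw [this]
      rw [MonoidHom.map_closure, Subgroup.closure_le]
      rintro _ ⟨_, ⟨l, hl, hl', rfl⟩, rfl⟩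
      simp only [MulEquiv.coe_toMonoidHom, MulAut.conj_apply, SetLike.mem_coe]
      rcases eq_or_lt_of_le hl' with h7 | h7
      · have h8 := hIcconj (-M) (-1) (M + 1) b h5
        have e : t ^ (1 : ℤ) * (t ^ l * b * t ^ (-l)) * (t ^ (1 : ℤ))⁻¹ =
          t ^ (M + 1) * b * t ^ (-(M + 1)) := by
          rw [← h7]; group
        rw [e]
        exact hIcmono _ _ _ _ (by omega) (by omega) h8
      · refine Subgroup.subset_closure ⟨l + 1, by omega, by omega, ?_⟩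
        group
    have h1 := h ⟨x, hx, rfl⟩
    simp only [MulEquiv.coe_toMonoidHom, MulAut.conj_apply] at h1
    rw [← zpow_neg] at h1
    exact h1
  have hall : ∀ i : ℤ, t ^ i * b * t ^ (-i) ∈ Ic 0 M := by
    intro i
    induction i using Int.induction_on with
    | zero => exact Subgroup.subset_closure ⟨0, le_rfl, by omega, rfl⟩
    | succ i ih =>
      have := hup _ ih
      have e : t ^ (1 : ℤ) * (t ^ (i : ℤ) * b * t ^ (-(i : ℤ))) * t ^ (-1 : ℤ) =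
        t ^ ((i : ℤ) + 1) * b * t ^ (-((i : ℤ) + 1)) := by group
      rwa [e] at this
    | pred i ih =>
      have := hdown _ ih
      have e : t ^ (-1 : ℤ) * (t ^ (-(i : ℤ)) * b * t ^ (-(-(i : ℤ)))) * t ^ (1 : ℤ) =
        t ^ (-(i : ℤ) - 1) * b * t ^ (-(-(i : ℤ) - 1)) := by group
      rwa [e] at this
  have hAI : A = Ic 0 M := by
    apply le_antisymm
    · intro a ha
      obtain ⟨ρ, hρ⟩ := sv1a_union A hA b t hb ht hgen ha
      have : Lc b t ρ ≤ Ic 0 M := by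
        unfold Lc
        rw [Subgroup.closure_le]
        rintro _ ⟨i, -, rfl⟩
        exact hall i
      exact this hρ
    · simp only [Ic]
      rw [Subgroup.closure_le]
      rintro _ ⟨i, -, -, rfl⟩
      rw [zpow_neg]
      exact hA.conj_mem b hb _
  apply hfg
  rw [hAI]
  classical
  refine ⟨(Finset.Icc 0 M).image fun k => t ^ k * b * t ^ (-k), ?_⟩
  simp only [Ic]
  congr 1
  ext x
  simp only [Finset.coe_image, Finset.coe_Icc, Set.mem_image, Set.mem_Icc, Set.mem_ofPred_eq]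
  constructor
  · rintro ⟨k, ⟨h7, h8⟩, rfl⟩
    exact ⟨k, h7, h8, rfl⟩
  · rintro ⟨k, h7, h8, rfl⟩
    exact ⟨k, ⟨h7, h8⟩, rfl⟩

end

end Pool.Agent.Lib.MP_0f7bfe_al
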