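import Pool.Agent.Lib.MP_0f7bfe_al.SV1a

open scoped Pointwise

namespace Pool.Agent.Lib.MP_0f7bfe_al

universe u v

section
variable {G : Type u} [Group G]

theorem sv1b_step_symm {T B : Set G} {x y : G} (h : Step T B x y) : Step T B y x :=
  ⟨h.2.1, h.1, h.2.2.symm⟩

theorem sv1b_symm {T B : Set G} {x y : G} (h : Linked T B x y) : Linked T B y x := by
  induction h with
  | refl => exact Relation.ReflTransGen.refl
  | tail _ h ih => exact Relation.ReflTransGen.head (sv1b_step_symm h) ih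

theorem sv1b_refl {T B : Set G} (x : G) : Linked T B x x := Relation.ReflTransGen.refl

theorem sv1b_trans {T B : Set G} {x y z : G} (h : Linked T B x y) (h' : Linked T B y z) :
    Linked T B x z := Relation.ReflTransGen.trans h h'

theorem sv1b_mono {T B C : Set G} (hBC : B ⊆ C) {x y : G} (h : Linked T B x y) :
    Linked T C x y := by
  induction h with
  | refl => exact Relation.ReflTransGen.refl
  | tail _ h ih => exact Relation.ReflTransGen.tail ih ⟨hBC h.1, hBC h.2.1, h.2.2⟩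

theorem sv1b_smul {T B : Set G} (g : G) {x y : G} (h : Linked T B x y) :
    Linked T (g • B) (g * x) (g * y) := by
  induction h with
  | refl => exact Relation.ReflTransGen.refl
  | tail _ h ih =>
    refine Relation.ReflTransGen.tail ih ⟨?_, ?_, ?_⟩
    · exact Set.smul_mem_smul_set h.1
    · exact Set.smul_mem_smul_set h.2.1
    · rcases h.2.2 with h | h
      · left; simpa [mul_assoc] using h
      · right; simpa [mul_assoc] using h

theorem sv1b_one_step {T B : Set G} {x y : G} (hx : x ∈ B) (hy : y ∈ B) (h : x⁻¹ * y ∈ T) :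
    Linked T B x y := Relation.ReflTransGen.single ⟨hx, hy, Or.inl h⟩

/-- a finite connected set containing `1` and `g` -/
theorem sv1b_path {T : Set G} {g : G} (hg : g ∈ Subgroup.closure T) :
    ∃ M : Set G, M.Finite ∧ 1 ∈ M ∧ g ∈ M ∧ ∀ x ∈ M, Linked T M 1 x := by
  induction hg using Subgroup.closure_induction with
  | mem x hx =>
    refine ⟨{1, x}, by simp, by simp, by simp, ?_⟩
    rintro y (rfl | rfl)
    · exact Relation.ReflTransGen.refl
    · exact sv1b_one_step (by simp) (by simp) (by simpa using hx)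
  | one =>
    refine ⟨{1}, by simp, by simp, by simp, ?_⟩
    rintro y rfl
    exact Relation.ReflTransGen.refl
  | mul x y _ _ hx hy =>
    obtain ⟨M, h1, h2, h3, h4⟩ := hx
    obtain ⟨M', h1', h2', h3', h4'⟩ := hy
    refine ⟨M ∪ x • M', h1.union (h1'.smul_set), Or.inl h2, Or.inr (Set.smul_mem_smul_set h3'), ?_⟩
    rintro z (hz | hz)
    · exact sv1b_mono Set.subset_union_left (h4 z hz)
    · obtain ⟨w, hw, rfl⟩ := hz
      have h5 := sv1b_smul x (h4' w hw)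
      rw [mul_one] at h5
      exact sv1b_trans (sv1b_mono Set.subset_union_left (h4 x h3))
        (sv1b_mono Set.subset_union_right h5)
  | inv x _ hx =>
    obtain ⟨M, h1, h2, h3, h4⟩ := hx
    refine ⟨x⁻¹ • M, h1.smul_set, ?_, ?_, ?_⟩
    · exact ⟨x, h3, by simp⟩
    · exact ⟨1, h2, by simp⟩
    · rintro _ ⟨w, hw, rfl⟩
      have h5 := sv1b_smul x⁻¹ (sv1b_trans (sv1b_symm (h4 x h3)) (h4 w hw))
      rw [inv_mul_cancel] at h5
      exact h5

theorem sv1b_paths {T : Set G} (hT : Subgroup.closure T = ⊤) {ι : Type} [Finite ι] (g : ι → G) :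
    ∃ M : Set G, M.Finite ∧ 1 ∈ M ∧ (∀ i, g i ∈ M) ∧ ∀ x ∈ M, Linked T M 1 x := by
  have h : ∀ i, ∃ M : Set G, M.Finite ∧ 1 ∈ M ∧ g i ∈ M ∧ ∀ x ∈ M, Linked T M 1 x :=
    fun i => sv1b_path (by rw [hT]; trivial)
  choose M h1 h2 h3 h4 using h
  refine ⟨{1} ∪ ⋃ i, M i, (Set.finite_singleton _).union (Set.finite_iUnion h1), by simp, ?_, ?_⟩
  · intro i
    exact Or.inr (Set.mem_iUnion.mpr ⟨i, h3 i⟩)
  · rintro x (rfl | hx)
    · exact Relation.ReflTransGen.refl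
    · obtain ⟨i, hi⟩ := Set.mem_iUnion.mp hx
      exact sv1b_mono ((Set.subset_iUnion M i).trans Set.subset_union_right) (h4 i x hi)

/-- the exponent of `s` -/
theorem sv1b_tau (A : Subgroup G) (hA : A.Normal) (b s : G) (hb : b ∈ A)
    (hs : ∀ k : ℤ, s ^ k ∈ A → k = 0) (hgen : Subgroup.closure {b, s} = ⊤) :
    ∃ τ : G → ℤ, (∀ g, g * s ^ (-τ g) ∈ A) ∧ (∀ g k, g * s ^ (-k) ∈ A → τ g = k) ∧
      (∀ g h, τ (g * h) = τ g + τ h) ∧ (∀ g, τ g⁻¹ = - τ g) ∧ (∀ g ∈ A, τ g = 0) ∧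
      ∀ k : ℤ, τ (s ^ k) = k := by
  have hex : ∀ g : G, ∃ k : ℤ, g * s ^ (-k) ∈ A := by
    intro g
    obtain ⟨n, ρ, k, hn, rfl⟩ := sv1a_form b s hgen g
    refine ⟨k, ?_⟩
    have : n * s ^ k * s ^ (-k) = n := by group
    rw [this]
    exact sv1a_le A hA b s hb ρ hn
  choose τ hτ using hex
  have huniq : ∀ g k, g * s ^ (-k) ∈ A → τ g = k := by
    intro g k hk
    have h1 := A.mul_mem (A.inv_mem hk) (hτ g)
    have e : (g * s ^ (-k))⁻¹ * (g * s ^ (-τ g)) = s ^ (k - τ g) := by group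
    rw [e] at h1
    have := hs _ h1
    omega
  refine ⟨τ, hτ, huniq, ?_, ?_, ?_, ?_⟩
  · intro g h
    apply huniq
    have h1 := A.mul_mem (hτ g) (hA.conj_mem _ (hτ h) (s ^ τ g))
    have e : g * s ^ (-τ g) * (s ^ τ g * (h * s ^ (-τ h)) * (s ^ τ g)⁻¹) =
        g * h * s ^ (-(τ g + τ h)) := by group
    rwa [e] at h1
  · intro g
    apply huniq
    have h1 := hA.conj_mem _ (A.inv_mem (hτ g)) g⁻¹
    have e : g⁻¹ * (g * s ^ (-τ g))⁻¹ * g⁻¹⁻¹ = g⁻¹ * s ^ (-(-τ g)) := by group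
    rwa [e] at h1
  · intro g hg
    apply huniq
    simpa using hg
  · intro k
    apply huniq
    have : s ^ k * s ^ (-k) = 1 := by group
    rw [this]
    exact A.one_mem

/-- many elements which are pairwise far -/
theorem sv1b_codes (L : Set G) (hL : L.Infinite) (Ξ : Set G) (hΞ : Ξ.Finite) (n : ℕ) :
    ∃ a : Fin n → G, (∀ v, a v ∈ L) ∧ ∀ u v, u ≠ v → (a u)⁻¹ * a v ∉ Ξ := by
  classical
  have h := exists_seq_of_forall_finset_exists (α := G) (fun x => x ∈ L)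
    (fun x y => x⁻¹ * y ∉ Ξ ∧ y⁻¹ * x ∉ Ξ) (by
      intro S _
      have hfin : (⋃ x ∈ S, (x • Ξ ∪ x • Ξ⁻¹)).Finite :=
        S.finite_toSet.biUnion fun x _ => (hΞ.smul_set).union hΞ.inv.smul_set
      obtain ⟨y, hy, hy'⟩ := hL.exists_notMem_finite hfin
      refine ⟨y, hy, fun x hx => ⟨?_, ?_⟩⟩
      · intro h
        apply hy'
        refine Set.mem_biUnion hx (Or.inl ⟨x⁻¹ * y, h, by simp⟩)
      · intro h
        apply hy'
        refine Set.mem_biUnion hx (Or.inr ⟨x⁻¹ * y, ?_, by simp⟩)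
        simpa using h)
  obtain ⟨f, hf, hf'⟩ := h
  refine ⟨fun v => f v, fun v => hf v, ?_⟩
  intro u v huv
  rcases lt_or_gt_of_ne (fun h => huv (Fin.ext h) : (u : ℕ) ≠ v) with h | h
  · exact (hf' _ _ h).1
  · exact (hf' _ _ h).2

/-- marks in different cosets -/
theorem sv1b_marks (A L : Subgroup G) (h : L.relIndex A = 0) {ι : Type} [Finite ι] :
    ∃ β : ι → G, (∀ i, β i ∈ A) ∧ ∀ i j, i ≠ j → (β i)⁻¹ * β j ∉ L := by
  have hinf : Infinite (A ⧸ L.subgroupOf A) := by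
    have h1 : (L.subgroupOf A).index = 0 := h
    by_contra hcon
    rw [not_infinite_iff_finite] at hcon
    exact Subgroup.index_ne_zero_of_finite h1
  obtain ⟨n, ⟨e⟩⟩ := Finite.exists_equiv_fin ι
  let f : ι ↪ A ⧸ L.subgroupOf A :=
    (e.toEmbedding.trans Fin.valEmbedding).trans (Infinite.natEmbedding _)
  refine ⟨fun i => ((Quotient.out (f i) : A) : G), fun i => (Quotient.out (f i) : A).2, ?_⟩
  intro i j hij hmem
  apply hij
  apply f.injective
  have h1 : (QuotientGroup.mk (Quotient.out (f i)) : A ⧸ L.subgroupOf A) =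
      QuotientGroup.mk (Quotient.out (f j)) := by
    rw [QuotientGroup.eq, Subgroup.mem_subgroupOf]
    exact hmem
  rwa [QuotientGroup.out_eq', QuotientGroup.out_eq'] at h1

/-- SV1b -/
theorem allCliques_of_direction (A : Subgroup G) (hA : A.Normal)
    (hab : ∀ a ∈ A, ∀ b ∈ A, a * b = b * a)
    (b s : G) (hb : b ∈ A) (hs : ∀ k : ℤ, s ^ k ∈ A → k = 0)
    (hgen : Subgroup.closure {b, s} = ⊤) (h1 : ∀ ρ, (Lc b s ρ : Set G).Infinite)
    (h2 : ∀ ρ, (Lc b s ρ).relIndex A = 0) : AllCliques G := by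
  classical
  refine ⟨{b, s}, by simp, ?_⟩
  intro n F hF
  obtain ⟨τ, τ1, τ2, τmul, τinv, τA, τs⟩ := sv1b_tau A hA b s hb hs hgen
  -- the bound K
  obtain ⟨K, hK⟩ : ∃ K : ℤ, ∀ f ∈ F, |τ f| ≤ K := by
    obtain ⟨K, hK⟩ := (hF.image fun f => |τ f|).bddAbove
    exact ⟨K, fun f hf => hK ⟨f, hf, rfl⟩⟩
  -- rho0
  obtain ⟨ρ₀, hρ₀⟩ : ∃ ρ₀ : ℤ, ∀ f ∈ F, ∀ k : ℤ, |k| ≤ K → f * s ^ k ∈ A → f * s ^ k ∈ Lc b s ρ₀ := by
    have hfin : (Set.image2 (fun f (k : ℤ) => f * s ^ k) F (Set.Icc (-K) K)).Finite :=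
      hF.image2 _ (Set.finite_Icc _ _)
    have hex : ∀ x : G, ∃ ρ : ℤ, x ∈ A → x ∈ Lc b s ρ := by
      intro x
      by_cases hx : x ∈ A
      · obtain ⟨ρ, hρ⟩ := sv1a_union A hA b s hb hs hgen hx
        exact ⟨ρ, fun _ => hρ⟩
      · exact ⟨0, fun h => absurd h hx⟩
    choose r hr using hex
    obtain ⟨ρ₀, hρ₀⟩ := (hfin.image r).bddAbove
    refine ⟨ρ₀, fun f hf k hk hfk => ?_⟩
    refine sv1a_mono b s (hρ₀ ⟨_, ⟨f, hf, k, ?_, rfl⟩, rfl⟩) (hr _ hfk)
    exact abs_le.mp hk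
  -- marks
  obtain ⟨β, hβA, hβ⟩ := sv1b_marks A (Lc b s (max ρ₀ 0)) (h2 _) (ι := Fin n × Fin n)
  obtain ⟨M, hM1, hM2, hM3, hM4⟩ := sv1b_paths hgen β
  obtain ⟨μ, hμ⟩ : ∃ μ : ℤ, ∀ f ∈ M, |τ f| ≤ μ := by
    obtain ⟨μ, hμ⟩ := (hM1.image fun f => |τ f|).bddAbove
    exact ⟨μ, fun f hf => hμ ⟨f, hf, rfl⟩⟩
  have hμ0 : 0 ≤ μ := (abs_nonneg _).trans (hμ 1 hM2)
  -- a number m
  obtain ⟨m, hm⟩ : ∃ m : ℕ, μ + |K| + 1 ≤ m := ⟨(μ + |K| + 1).toNat, Int.self_le_toNat _⟩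
  -- the set Ξ
  let Ξ : Set G := (M * F * M⁻¹) ∪
    ((Set.range β) * ((fun i : ℕ => s ^ (-(i : ℤ))) '' Set.Iic m) * F * M⁻¹)
  have hΞ : Ξ.Finite := by
    refine ((hM1.mul hF).mul hM1.inv).union ?_
    exact (((Set.finite_range β).mul ((Set.finite_Iic m).image _)).mul hF).mul hM1.inv
  obtain ⟨a, haL, hafar⟩ := sv1b_codes (Lc b s (-(m : ℤ)) : Set G) (h1 _) (Ξ ∪ Ξ⁻¹)
    (hΞ.union hΞ.inv) n
  have haA : ∀ v, a v ∈ A := fun v => sv1a_le A hA b s hb _ (haL v)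
  -- the sets
  let Bs : Fin n → Set G := fun v => a v • M
  let P1 : Fin n → Fin n → Fin n → Set G := fun u v w =>
    {z | ∃ i : ℕ, i ≤ m ∧ z = β (u, v) * a w * s ^ (-(i : ℤ))}
  let P3 : Fin n → Fin n → Set G := fun u v =>
    {z | ∃ l : G, ∃ x : ℤ, l ∈ Lc b s (-(m : ℤ)) ∧ x ≤ -(m : ℤ) ∧ z = β (u, v) * l * s ^ x}
  let Ps : Fin n → Fin n → Set G := fun u v => P1 u v u ∪ P1 u v v ∪ P3 u v
  -- connectedness of the vertical segments
  have hvert : ∀ u v w, Linked {b, s} (P1 u v w) (β (u, v) * a w) (β (u, v) * a w * s ^ (-(m : ℤ))) := by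
    intro u v w
    have : ∀ i : ℕ, i ≤ m →
        Linked {b, s} (P1 u v w) (β (u, v) * a w) (β (u, v) * a w * s ^ (-(i : ℤ))) := by
      intro i
      induction i with
      | zero => intro _; simpa using (sv1b_refl (T := {b, s}) (B := P1 u v w) (β (u, v) * a w))
      | succ i ih =>
        intro hi
        refine sv1b_trans (ih (by omega)) (Relation.ReflTransGen.single
          ⟨⟨i, by omega, rfl⟩, ⟨i + 1, hi, rfl⟩, Or.inr ?_⟩)
        have e : (β (u, v) * a w * s ^ (-((i + 1 : ℕ) : ℤ)))⁻¹ * (β (u, v) * a w * s ^ (-(i : ℤ))) =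
            s := by push_cast; group
        rw [e]
        simp
    exact this m le_rfl
  -- connectedness of the deep part
  have hdeep1 : ∀ u v (l : G) (x y : ℤ), l ∈ Lc b s (-(m : ℤ)) → x ≤ -(m : ℤ) → y ≤ -(m : ℤ) →
      Linked {b, s} (P3 u v) (β (u, v) * l * s ^ x) (β (u, v) * l * s ^ y) := by
    intro u v l x y hl hx hy
    have key : ∀ (i : ℕ) (x : ℤ), x ≤ -(m : ℤ) →
        Linked {b, s} (P3 u v) (β (u, v) * l * s ^ x) (β (u, v) * l * s ^ (x - i)) := by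
      intro i
      induction i with
      | zero => intro x _; simpa using (sv1b_refl (T := {b, s}) (B := P3 u v) (β (u, v) * l * s ^ x))
      | succ i ih =>
        intro x hx
        refine sv1b_trans (ih x hx) (Relation.ReflTransGen.single
          ⟨⟨l, x - i, hl, by omega, rfl⟩, ⟨l, x - (i + 1 : ℕ), hl, by push_cast; omega, rfl⟩,
            Or.inr ?_⟩)
        have e : (β (u, v) * l * s ^ (x - ((i + 1 : ℕ) : ℤ)))⁻¹ * (β (u, v) * l * s ^ (x - (i : ℤ))) =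
            s := by push_cast; group
        rw [e]
        simp
    rcases le_total y x with h | h
    · have := key (x - y).toNat x hx
      rwa [show x - ((x - y).toNat : ℤ) = y by omega] at this
    · have := key (y - x).toNat y hy
      rw [show y - ((y - x).toNat : ℤ) = x by omega] at this
      exact sv1b_symm this
  have hdeep2 : ∀ u v (l l' : G), l' ∈ Lc b s (-(m : ℤ)) → l ∈ Lc b s (-(m : ℤ)) →
      Linked {b, s} (P3 u v) (β (u, v) * l * s ^ (-(m : ℤ))) (β (u, v) * (l * l') * s ^ (-(m : ℤ))) := by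
    intro u v l l' hl'
    unfold Lc at hl'
    induction hl' using Subgroup.closure_induction generalizing l with
    | mem x hx =>
      obtain ⟨i, hi, rfl⟩ := hx
      intro hl
      have hx' : s ^ i * b * s ^ (-i) ∈ Lc b s (-(m : ℤ)) := Subgroup.subset_closure ⟨i, hi, rfl⟩
      have e1 := hdeep1 u v l (-(m : ℤ)) i hl le_rfl hi
      have e2 : Linked {b, s} (P3 u v) (β (u, v) * l * s ^ i)
          (β (u, v) * (l * (s ^ i * b * s ^ (-i))) * s ^ i) := by
        refine sv1b_one_step ⟨l, i, hl, hi, rfl⟩ ⟨_, i, Subgroup.mul_mem _ hl hx', hi, rfl⟩ ?_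
        have e : (β (u, v) * l * s ^ i)⁻¹ * (β (u, v) * (l * (s ^ i * b * s ^ (-i))) * s ^ i) = b := by
          group
        rw [e]
        simp
      have e3 := hdeep1 u v (l * (s ^ i * b * s ^ (-i))) i (-(m : ℤ)) (Subgroup.mul_mem _ hl hx') hi
        le_rfl
      exact sv1b_trans e1 (sv1b_trans e2 e3)
    | one => intro _; rw [mul_one]; exact sv1b_refl _
    | mul x y hx hy ihx ihy =>
      intro hl
      have e1 := ihx l hl
      have e2 := ihy (l * x) (Subgroup.mul_mem _ hl hx)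
      rw [mul_assoc l x y] at e2
      exact sv1b_trans e1 e2
    | inv x hx ihx =>
      intro hl
      have e1 := ihx (l * x⁻¹) (Subgroup.mul_mem _ hl (Subgroup.inv_mem _ hx))
      rw [mul_assoc l, inv_mul_cancel, mul_one] at e1
      exact sv1b_symm e1
  -- the elements of the paths
  have hPform : ∀ u v z, z ∈ Ps u v → ∃ l : G, ∃ x : ℤ, l ∈ Lc b s 0 ∧ x ≤ 0 ∧
      z = β (u, v) * l * s ^ x := by
    rintro u v z ((⟨i, hi, rfl⟩ | ⟨i, hi, rfl⟩) | ⟨l, x, hl, hx, rfl⟩)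
    · exact ⟨a u, -(i : ℤ), sv1a_mono b s (by omega) (haL u), by omega, rfl⟩
    · exact ⟨a v, -(i : ℤ), sv1a_mono b s (by omega) (haL v), by omega, rfl⟩
    · exact ⟨l, x, sv1a_mono b s (by omega) hl, by omega, rfl⟩
  have hΞ1 : ∀ u w, u ≠ w → ∀ x ∈ M, ∀ f ∈ F, ∀ y ∈ M, (a u)⁻¹ * a w ≠ x * f * y⁻¹ := by
    intro u w huw x hx f hf y hy h
    apply hafar u w huw
    left; left
    rw [h]
    exact Set.mul_mem_mul (Set.mul_mem_mul hx hf) (Set.inv_mem_inv.mpr hy)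
  have hΞ2 : ∀ u w, u ≠ w → ∀ e, ∀ i : ℕ, i ≤ m → ∀ f ∈ F, ∀ y ∈ M,
      (a u)⁻¹ * a w ≠ β e * s ^ (-(i : ℤ)) * f * y⁻¹ := by
    intro u w huw e i hi f hf y hy h
    apply hafar u w huw
    left; right
    rw [h]
    exact Set.mul_mem_mul (Set.mul_mem_mul (Set.mul_mem_mul ⟨e, rfl⟩ ⟨i, hi, rfl⟩) hf)
      (Set.inv_mem_inv.mpr hy)
  have hseg : ∀ u v w w' : Fin n, w ≠ w' → ∀ x ∈ P1 u v w, ∀ y ∈ Bs w', x⁻¹ * y ∉ F := by
    rintro u v w w' hww _ ⟨i, hi, rfl⟩ _ ⟨y, hy, rfl⟩ hf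
    apply hΞ2 w w' hww (u, v) i hi _ hf y hy
    have hc := hab (β (u, v)) (hβA _) (a w) (haA _)
    simp only [smul_eq_mul]
    rw [hc]
    group
  refine ⟨⟨Bs, Ps, ?_, ?_, ?_, ?_, ?_, ?_⟩⟩
  · intro v
    exact ⟨_, Set.smul_mem_smul_set hM2⟩
  · rintro v _ ⟨x, hx, rfl⟩ _ ⟨y, hy, rfl⟩
    exact sv1b_smul (a v) (sv1b_trans (sv1b_symm (hM4 x hx)) (hM4 y hy))
  · intro u v huv
    refine ⟨β (u, v) * a u, ?_, β (u, v) * a v, ?_, ?_, ?_, ?_⟩
    · refine ⟨β (u, v), hM3 _, ?_⟩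
      exact (hab _ (hβA _) _ (haA _)).symm
    · refine ⟨β (u, v), hM3 _, ?_⟩
      exact (hab _ (hβA _) _ (haA _)).symm
    · exact Or.inl (Or.inl ⟨0, Nat.zero_le _, by simp⟩)
    · exact Or.inl (Or.inr ⟨0, Nat.zero_le _, by simp⟩)
    · have e1 : Linked {b, s} (Ps u v) (β (u, v) * a u) (β (u, v) * a u * s ^ (-(m : ℤ))) :=
        sv1b_mono (fun z hz => Or.inl (Or.inl hz)) (hvert u v u)
      have e2 : Linked {b, s} (Ps u v) (β (u, v) * a v) (β (u, v) * a v * s ^ (-(m : ℤ))) :=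
        sv1b_mono (fun z hz => Or.inl (Or.inr hz)) (hvert u v v)
      have e3 := hdeep2 u v (a u) ((a u)⁻¹ * a v)
        (Subgroup.mul_mem _ (Subgroup.inv_mem _ (haL u)) (haL v)) (haL u)
      rw [mul_inv_cancel_left] at e3
      have e4 : Linked {b, s} (Ps u v) (β (u, v) * a u * s ^ (-(m : ℤ)))
          (β (u, v) * a v * s ^ (-(m : ℤ))) := sv1b_mono (fun z hz => Or.inr hz) e3
      exact sv1b_trans e1 (sv1b_trans e4 (sv1b_symm e2))
  · rintro u v huv _ ⟨x, hx, rfl⟩ _ ⟨y, hy, rfl⟩ hf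
    apply hΞ1 u v huv x hx _ hf y hy
    simp only [smul_eq_mul]
    group
  · intro u v u' v' _ _ hne z hz z' hz' hf
    obtain ⟨l, x, hl, hx, rfl⟩ := hPform u v z hz
    obtain ⟨l', x', hl', hx', rfl⟩ := hPform u' v' z' hz'
    set f := (β (u, v) * l * s ^ x)⁻¹ * (β (u', v') * l' * s ^ x') with hfdef
    have hlA := sv1a_le A hA b s hb _ hl
    have hlA' := sv1a_le A hA b s hb _ hl'
    have hτf : τ f = x' - x := by
      rw [hfdef, τmul, τinv, τmul, τmul, τmul, τmul, τs, τs, τA _ hlA, τA _ hlA', τA _ (hβA _),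
        τA _ (hβA _)]
      ring
    have hk : |x - x'| ≤ K := by
      have := hK f hf
      rw [hτf] at this
      rwa [abs_sub_comm]
    have hfA : f * s ^ (x - x') ∈ A := by
      have := τ1 f
      rw [hτf] at this
      rwa [neg_sub] at this
    have h3 := hρ₀ f hf (x - x') hk hfA
    have h4 := sv1a_conj b s ρ₀ x h3
    have e : s ^ x * (f * s ^ (x - x')) * s ^ (-x) = l⁻¹ * ((β (u, v))⁻¹ * β (u', v')) * l' := by
      rw [hfdef]; group
    rw [e] at h4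
    have h5 : l⁻¹ * ((β (u, v))⁻¹ * β (u', v')) * l' ∈ Lc b s (max ρ₀ 0) :=
      sv1a_mono b s (by have := le_max_left ρ₀ 0; omega) h4
    have h6 := Subgroup.mul_mem _ (Subgroup.mul_mem _ (sv1a_mono b s (le_max_right ρ₀ 0) hl) h5)
      (Subgroup.inv_mem _ (sv1a_mono b s (le_max_right ρ₀ 0) hl'))
    have e' : l * (l⁻¹ * ((β (u, v))⁻¹ * β (u', v')) * l') * l'⁻¹ =
        (β (u, v))⁻¹ * β (u', v') := by group
    rw [e'] at h6
    exact hβ (u, v) (u', v') hne h6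
  · intro u v w _ hwu hwv z hz y hy
    rcases hz with (hz | hz) | hz
    · exact hseg u v u w (Ne.symm hwu) z hz y hy
    · exact hseg u v v w (Ne.symm hwv) z hz y hy
    · obtain ⟨l, x, hl, hx, rfl⟩ := hz
      obtain ⟨y, hy, rfl⟩ := hy
      intro hf
      have hlA := sv1a_le A hA b s hb _ hl
      have h3 := hK _ hf
      simp only [smul_eq_mul] at h3
      rw [τmul, τinv, τmul, τmul, τs, τmul, τA _ hlA, τA _ (hβA _), τA _ (haA _)] at h3
      have h4 := hμ y hy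
      rw [abs_le] at h3 h4
      have h5 := le_abs_self K
      have h6 := neg_abs_le K
      omega

/-- Theorem M: abelian, not finitely generated, by Z -/
theorem allCliques_abelian_by_Z (A : Subgroup G) (hA : A.Normal)
    (hab : ∀ a ∈ A, ∀ b ∈ A, a * b = b * a)
    (b t : G) (hb : b ∈ A) (ht : ∀ k : ℤ, t ^ k ∈ A → k = 0)
    (hgen : Subgroup.closure {b, t} = ⊤) (hfg : ¬ A.FG) : AllCliques G := by
  obtain ⟨s, hs, h1, h2⟩ := exists_direction A hA hab b t hb ht hgen hfg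
  refine allCliques_of_direction A hA hab b s hb ?_ ?_ h1 h2
  · rcases hs with rfl | rfl
    · exact ht
    · intro k hk
      have : t ^ (-k) ∈ A := by simpa using hk
      have := ht _ this
      omega
  · rcases hs with rfl | rfl
    · exact hgen
    · rw [eq_top_iff, ← hgen, Subgroup.closure_le]
      rintro x (rfl | rfl)
      · exact Subgroup.subset_closure (by simp)
      · have := (Subgroup.closure {b, x⁻¹}).inv_mem
          (Subgroup.subset_closure (show x⁻¹ ∈ ({b, x⁻¹} : Set G) by simp))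
        simpa using this

end

end Pool.Agent.Lib.MP_0f7bfe_al
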