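import Pool.Agent.Lib.MP_0f7bfe_al.FM56

open scoped Pointwise

namespace Pool.Agent.Lib.MP_0f7bfe_al

universe u v

section sv2
variable {G : Type u} [Group G]

theorem sv2_trans {T B : Set G} {x y z : G} (h : Linked T B x y) (h' : Linked T B y z) :
    Linked T B x z := Relation.ReflTransGen.trans h h'

/-- a chain `x, x s, x s^2, …` -/
theorem sv2_chain {T U : Set G} {s : G} (hs : s ∈ T) (x : G) (N : ℕ)
    (h : ∀ i ≤ N, x * s ^ i ∈ U) : ∀ i ≤ N, Linked T U x (x * s ^ i) := by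
  intro i
  induction i with
  | zero => intro _; rw [pow_zero, mul_one]; exact Relation.ReflTransGen.refl
  | succ i ih =>
    intro hi
    refine (ih (by omega)).tail ⟨h i (by omega), h (i + 1) hi, Or.inl ?_⟩
    have : (x * s ^ i)⁻¹ * (x * s ^ (i + 1)) = s := by rw [pow_succ]; group
    rw [this]
    exact hs

/-- finite connected sets containing a given finite set -/
theorem sv2_finite_connected (T : Set G) (hT : Subgroup.closure T = ⊤) (X : Set G)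
    (hX : X.Finite) :
    ∃ M : Set G, M.Finite ∧ X ⊆ M ∧ (1 : G) ∈ M ∧ ∀ m ∈ M, Linked T M 1 m := by
  have h1 : ∀ x : G, ∃ E : Set G, E.Finite ∧ (1 : G) ∈ E ∧ x ∈ E ∧ Linked T E 1 x := by
    intro x
    obtain ⟨E, a, -, b, c, d⟩ := fm3_chain T (d := x) (by rw [hT]; trivial)
    exact ⟨E, a, b, c, d⟩
  choose E hE1 hE2 hE3 hE4 using h1
  let E' : Set G := insert 1 (⋃ x ∈ X, E x)
  have hE' : E'.Finite := (hX.biUnion fun x _ => hE1 x).insert 1
  refine ⟨{g | Linked T E' 1 g}, hE'.subset ?_, ?_, Relation.ReflTransGen.refl, ?_⟩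
  · intro g hg
    rcases Relation.ReflTransGen.cases_tail hg with h | ⟨c, -, h⟩
    · rw [h]; exact Or.inl rfl
    · exact h.2.1
  · intro x hx
    exact fm3_linked_mono subset_rfl
      (fun z hz => Or.inr (Set.mem_biUnion hx hz)) (hE4 x)
  · intro m hm
    exact fm6_linked_comp hm

/-- marks in different cosets of a finite subgroup -/
theorem sv2_marks (A E0 : Subgroup G) (hinf : Infinite A) (hE0 : (E0 : Set G).Finite)
    (n : ℕ) : ∃ b : Fin n → G, (∀ v, b v ∈ A) ∧ ∀ u v, u ≠ v → (b u)⁻¹ * b v ∉ E0 := by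
  have hfin : Finite (E0.subgroupOf A) := by
    have : Finite E0 := hE0
    refine Finite.of_injective (fun x : E0.subgroupOf A => (⟨((x : A) : G), x.2⟩ : E0)) ?_
    intro x y hxy
    apply Subtype.ext
    apply Subtype.ext
    have h := congrArg (fun z : E0 => (z : G)) hxy
    exact h
  have hinfq : Infinite (A ⧸ E0.subgroupOf A) := by
    rw [← not_finite_iff_infinite]
    intro hq
    have h1 := Subgroup.card_eq_card_quotient_mul_card_subgroup (E0.subgroupOf A)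
    rw [Nat.card_eq_zero_of_infinite] at h1
    have h2 : 0 < Nat.card (A ⧸ E0.subgroupOf A) := Nat.card_pos
    have h3 : 0 < Nat.card (E0.subgroupOf A) := Nat.card_pos
    have h4 := Nat.mul_pos h2 h3
    omega
  let e := Infinite.natEmbedding (A ⧸ E0.subgroupOf A)
  refine ⟨fun v => ((Quotient.out (e v.val) : A) : G), fun v => (Quotient.out (e v.val)).2, ?_⟩
  intro u v huv h
  apply huv
  have h1 : (Quotient.out (e u.val))⁻¹ * Quotient.out (e v.val) ∈ E0.subgroupOf A := h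
  have h2 := QuotientGroup.eq.2 h1
  rw [QuotientGroup.out_eq', QuotientGroup.out_eq'] at h2
  exact Fin.ext (e.injective h2)

/-- the finiteness statements in the quotient -/
theorem sv2_quot {Q : Type u} [Group Q] (τ γ : Q) (h : ∀ k l : ℤ, γ ^ k * τ ^ l = 1 → k = 0 ∧ l = 0)
    (Φ : Set Q) (hΦ : Φ.Finite) :
    {p : ℤ × ℤ | τ ^ p.1 * γ ^ p.2 ∈ Φ}.Finite ∧ {p : ℤ × ℤ | γ ^ p.1 * τ ^ p.2 ∈ Φ}.Finite ∧
      ∀ k k' : ℤ, {d : ℤ | γ ^ k * τ ^ d * γ ^ k' ∈ Φ}.Finite := by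
  refine ⟨?_, ?_, ?_⟩
  · refine hΦ.preimage (f := fun p : ℤ × ℤ => τ ^ p.1 * γ ^ p.2) (Function.Injective.injOn ?_)
    rintro ⟨l, k⟩ ⟨l', k'⟩ he
    dsimp only at he
    have h1 : γ ^ (k - k') * τ ^ (l - l') = 1 := by
      have h2 : τ ^ (l - l') = γ ^ (k' - k) := by
        calc τ ^ (l - l') = τ ^ (-l') * (τ ^ l * γ ^ k) * γ ^ (-k) := by group
          _ = τ ^ (-l') * (τ ^ l' * γ ^ k') * γ ^ (-k) := by rw [he]
          _ = γ ^ (k' - k) := by group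
      rw [h2]
      group
    obtain ⟨h3, h4⟩ := h _ _ h1
    rw [Prod.mk.injEq]
    omega
  · refine hΦ.preimage (f := fun p : ℤ × ℤ => γ ^ p.1 * τ ^ p.2) (Function.Injective.injOn ?_)
    rintro ⟨k, l⟩ ⟨k', l'⟩ he
    dsimp only at he
    have h1 : γ ^ (k - k') * τ ^ (l - l') = 1 := by
      calc γ ^ (k - k') * τ ^ (l - l') = γ ^ (-k') * (γ ^ k * τ ^ l) * τ ^ (-l') := by group
        _ = γ ^ (-k') * (γ ^ k' * τ ^ l') * τ ^ (-l') := by rw [he]
        _ = 1 := by group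
    obtain ⟨h3, h4⟩ := h _ _ h1
    rw [Prod.mk.injEq]
    omega
  · intro k k'
    refine hΦ.preimage (f := fun d : ℤ => γ ^ k * τ ^ d * γ ^ k') (Function.Injective.injOn ?_)
    intro d d' he
    dsimp only at he
    have h1 : γ ^ (0 : ℤ) * τ ^ (d - d') = 1 := by
      have h2 : τ ^ d = τ ^ d' := mul_left_cancel (mul_right_cancel he)
      rw [zpow_sub, h2]
      group
    have := (h _ _ h1).2
    omega

/-- SV2: Theorem FC' -/
theorem allCliques_locally_normal (hG : Group.FG G) (A : Subgroup G) (hA : A.Normal)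
    (hinf : Infinite A)
    (hloc : ∀ s : Set G, s.Finite → s ⊆ A →
      ∃ E : Subgroup G, E.Normal ∧ (E : Set G).Finite ∧ s ⊆ E ∧ E ≤ A)
    (t g : G) (htg : ∀ k l : ℤ, g ^ k * t ^ l ∈ A → k = 0 ∧ l = 0) : AllCliques G := by
  classical
  obtain ⟨T0, hT0⟩ := hG.1
  set T : Set G := insert t (insert g (T0 : Set G)) with hTdef
  have hTfin : T.Finite := (T0.finite_toSet.insert g).insert t
  have hTgen : Subgroup.closure T = ⊤ := by
    rw [eq_top_iff, ← hT0]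
    exact Subgroup.closure_mono (fun x hx => Or.inr (Or.inr hx))
  have htT : t ∈ T := Or.inl rfl
  have hgT : g ∈ T := Or.inr (Or.inl rfl)
  refine ⟨T, hTfin, ?_⟩
  intro n F' hF'
  -- symmetric version of F
  set F : Set G := F' ∪ F'⁻¹ with hFdef
  have hF : F.Finite := hF'.union hF'.inv
  have hFsymm : ∀ x, x ∈ F → x⁻¹ ∈ F := by
    rintro x (hx | hx)
    · exact Or.inr (by simpa using hx)
    · exact Or.inl hx
  -- the quotient
  let π : G →* G ⧸ A := QuotientGroup.mk' A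
  have hπ : ∀ x, π x = 1 ↔ x ∈ A := fun x => by
    rw [← MonoidHom.mem_ker, QuotientGroup.ker_mk']
  have hQ : ∀ k l : ℤ, (π g) ^ k * (π t) ^ l = 1 → k = 0 ∧ l = 0 := by
    intro k l h
    rw [← map_zpow, ← map_zpow, ← map_mul, hπ] at h
    exact htg k l h
  -- universal differences
  set Ω : Set G := {z | π z ∈ π '' F ∧ (∃ l k : ℤ, z = t ^ l * g ^ k ∨ z = g ^ k * t ^ l)} with hΩ
  have hΩfin : Ω.Finite := by
    obtain ⟨h1, h2, -⟩ := sv2_quot (π t) (π g) hQ (π '' F) (hF.image π)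
    refine ((h1.image fun p : ℤ × ℤ => t ^ p.1 * g ^ p.2).union
      (h2.image fun p : ℤ × ℤ => g ^ p.1 * t ^ p.2)).subset ?_
    rintro z ⟨hz, l, k, rfl | rfl⟩
    · left
      refine ⟨(l, k), ?_, rfl⟩
      simpa using hz
    · right
      refine ⟨(k, l), ?_, rfl⟩
      simpa using hz
  obtain ⟨E0, hE0n, hE0f, hE0s, hE0A⟩ := hloc ({x | x ∈ A} ∩ (F * Ω⁻¹))
    ((hF.mul hΩfin.inv).inter_of_right _) (fun x hx => hx.1)
  obtain ⟨b, hbA, hbE⟩ := sv2_marks A E0 hinf hE0f n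
  obtain ⟨E1, hE1n, hE1f, hE1s, hE1A⟩ := hloc (Set.range b) (Set.finite_range b) (by
    rintro _ ⟨v, rfl⟩
    exact hbA v)
  obtain ⟨M, hMf, hME, hM1, hMc⟩ := sv2_finite_connected T hTgen (E1 : Set G) hE1f
  set Φ : Set (G ⧸ A) := π '' (M * F * M⁻¹) with hΦ
  have hΦfin : Φ.Finite := ((hMf.mul hF).mul hMf.inv).image π
  have hΦmem : ∀ m ∈ M, ∀ f ∈ F, ∀ m' ∈ M, π (m * f * m'⁻¹) ∈ Φ := by
    intro m hm f hf m' hm'
    exact ⟨_, Set.mul_mem_mul (Set.mul_mem_mul hm hf) (Set.inv_mem_inv.2 hm'), rfl⟩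
  obtain ⟨hq1, hq2, hq3⟩ := sv2_quot (π t) (π g) hQ Φ hΦfin
  -- R0
  obtain ⟨R0, hR0⟩ : ∃ R0 : ℕ, ∀ a : ℤ, ∀ l : ℤ, (R0 : ℤ) ≤ l → (π t) ^ a * (π g) ^ l ∉ Φ := by
    obtain ⟨B, hB⟩ := (hq1.image (fun p : ℤ × ℤ => p.2)).bddAbove
    refine ⟨(B + 1).toNat, fun a l hl h => ?_⟩
    have h1 : l ≤ B := hB ⟨(a, l), h, rfl⟩
    omega
  set R : ℕ := R0 with hR
  -- D
  obtain ⟨D, hD0, hD⟩ : ∃ D : ℕ, 0 < D ∧ ∀ d : ℤ, d ≠ 0 → (D : ℤ) ∣ d → ∀ k k' : ℕ, k ≤ 2 * R0 →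
      k' ≤ 2 * R0 → (π g) ^ (-(k : ℤ)) * (π t) ^ d * (π g) ^ (k' : ℤ) ∉ Φ := by
    have hfin : (⋃ k ∈ Finset.range (2 * R0 + 1), ⋃ k' ∈ Finset.range (2 * R0 + 1),
        {d : ℤ | (π g) ^ (-(k : ℤ)) * (π t) ^ d * (π g) ^ (k' : ℤ) ∈ Φ}).Finite := by
      refine (Finset.finite_toSet _).biUnion fun k _ => ?_
      exact (Finset.finite_toSet _).biUnion fun k' _ => hq3 _ _
    obtain ⟨B, hB⟩ := (hfin.image (fun d : ℤ => d.natAbs)).bddAbove
    refine ⟨B + 1, Nat.succ_pos _, ?_⟩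
    intro d hd0 hdvd k k' hk hk' h
    have h1 : d.natAbs ≤ B := by
      apply hB
      refine ⟨d, ?_, rfl⟩
      simp only [Set.mem_iUnion]
      exact ⟨k, Finset.mem_range.2 (by omega), k', Finset.mem_range.2 (by omega), h⟩
    have h2 := Int.natAbs_dvd_natAbs.2 hdvd
    rw [Int.natAbs_natCast] at h2
    have h3 := Nat.le_of_dvd (Int.natAbs_pos.2 hd0) h2
    omega
  -- total height 2 * R0, the upper teeth start at R0
  have hπy : ∀ i k : ℕ, π (t ^ i * g ^ k) = (π t) ^ (i : ℤ) * (π g) ^ (k : ℤ) := by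
    intro i k
    simp
  -- same mark differences
  have hdiff : ∀ i k i' k' : ℕ, (π (t ^ i * g ^ k))⁻¹ * π (t ^ i' * g ^ k') =
      (π g) ^ (-(k : ℤ)) * (π t) ^ ((i' : ℤ) - i) * (π g) ^ (k' : ℤ) := by
    intro i k i' k'
    rw [hπy, hπy, mul_inv_rev, zpow_sub, zpow_neg]
    group
  -- Fact 1
  have fact1 : ∀ u v : Fin n, u ≠ v → ∀ i k i' k' : ℕ, k ≤ 2 * R0 → k' ≤ 2 * R0 →
      (k = 0 ∨ D ∣ i) → (k' = 0 ∨ D ∣ i') →
      (b u * (t ^ i * g ^ k))⁻¹ * (b v * (t ^ i' * g ^ k')) ∉ F := by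
    intro u v huv i k i' k' hk hk' hi hi' hf
    set y := t ^ i * g ^ k with hy
    set y' := t ^ i' * g ^ k' with hy'
    have e1 : (b u * y)⁻¹ * (b v * y') = (y⁻¹ * ((b u)⁻¹ * b v) * y) * (y⁻¹ * y') := by group
    have hAm : (b u)⁻¹ * b v ∈ A := A.mul_mem (A.inv_mem (hbA u)) (hbA v)
    have hAc : y⁻¹ * ((b u)⁻¹ * b v) * y ∈ A := by
      have := hA.conj_mem _ hAm y⁻¹
      rwa [inv_inv] at this
    have hπω : π (y⁻¹ * y') = π ((b u * y)⁻¹ * (b v * y')) := by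
      rw [e1, map_mul π (y⁻¹ * ((b u)⁻¹ * b v) * y), (hπ _).2 hAc, one_mul]
    have hωΩ : y⁻¹ * y' ∈ Ω := by
      refine ⟨by rw [hπω]; exact ⟨_, hf, rfl⟩, ?_⟩
      by_cases hk0 : k = 0
      · refine ⟨(i' : ℤ) - i, k', Or.inl ?_⟩
        rw [hy, hy', hk0, zpow_sub]
        group
      · by_cases hk0' : k' = 0
        · refine ⟨(i' : ℤ) - i, -k, Or.inr ?_⟩
          rw [hy, hy', hk0', zpow_sub]
          group
        · have hd1 : D ∣ i := hi.resolve_left hk0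
          have hd2 : D ∣ i' := hi'.resolve_left hk0'
          by_cases hii : i = i'
          · refine ⟨0, (k' : ℤ) - k, Or.inl ?_⟩
            rw [hy, hy', hii, zpow_sub]
            group
          · exfalso
            apply hD ((i' : ℤ) - i) (by
              intro h0
              apply hii
              omega) (dvd_sub (Int.natCast_dvd_natCast.2 hd2) (Int.natCast_dvd_natCast.2 hd1))
              k k' hk hk'
            rw [← hdiff, ← map_inv, ← map_mul, hπω]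
            have := hΦmem 1 hM1 _ hf 1 hM1
            simpa using this
    have hmem : y⁻¹ * ((b u)⁻¹ * b v) * y ∈ E0 := by
      apply hE0s
      refine ⟨hAc, ?_⟩
      have h2 : y⁻¹ * ((b u)⁻¹ * b v) * y = ((b u * y)⁻¹ * (b v * y')) * (y⁻¹ * y')⁻¹ := by
        rw [e1]; group
      rw [h2]
      exact Set.mul_mem_mul hf (Set.inv_mem_inv.2 hωΩ)
    have h3 := hE0n.conj_mem _ hmem y
    have h4 : y * (y⁻¹ * ((b u)⁻¹ * b v) * y) * y⁻¹ = (b u)⁻¹ * b v := by group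
    rw [h4] at h3
    exact hbE u v huv h3
  -- π of a marked comb point
  have hπb : ∀ (u : Fin n) (y : G), π (b u * y) = π y := by
    intro u y
    rw [map_mul, (hπ _).2 (hbA u), one_mul]
  -- Fact 2
  have fact2 : ∀ (u : Fin n) (i k w : ℕ) (m : G), m ∈ M → k ≤ 2 * R0 →
      (k = 0 ∨ (i = w * D ∧ k ≤ R0) ∨ (D ∣ i ∧ i ≠ w * D)) →
      (b u * (t ^ i * g ^ k))⁻¹ * (t ^ (w * D) * g ^ (2 * R0) * m) ∉ F := by
    intro u i k w m hm hk hcase hf
    have h1 : (π (t ^ i * g ^ k))⁻¹ * π (t ^ (w * D) * g ^ (2 * R0)) ∈ Φ := by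
      have h2 := hΦmem 1 hM1 _ hf m hm
      have h3 : π (1 * ((b u * (t ^ i * g ^ k))⁻¹ * (t ^ (w * D) * g ^ (2 * R0) * m)) * m⁻¹) =
          (π (t ^ i * g ^ k))⁻¹ * π (t ^ (w * D) * g ^ (2 * R0)) := by
        rw [← hπb u (t ^ i * g ^ k), ← map_inv, ← map_mul]
        congr 1
        group
      rw [h3] at h2
      exact h2
    rw [hdiff] at h1
    rcases hcase with h0 | ⟨h0, h0'⟩ | ⟨h0, h0'⟩
    · rw [h0] at h1
      apply hR0 (((w * D : ℕ) : ℤ) - i) ((2 * R0 : ℕ) : ℤ) (by push_cast; omega)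
      simpa using h1
    · rw [h0] at h1
      apply hR0 0 (((2 * R0 : ℕ) : ℤ) - k) (by push_cast; omega)
      have h2 : (π t) ^ (0 : ℤ) * (π g) ^ (((2 * R0 : ℕ) : ℤ) - k) =
          (π g) ^ (-(k : ℤ)) * (π t) ^ (((w * D : ℕ) : ℤ) - ((w * D : ℕ) : ℤ)) *
            (π g) ^ ((2 * R0 : ℕ) : ℤ) := by
        rw [sub_self, zpow_sub]
        group
      rw [h2]
      exact h1
    · exact hD _ (by
        intro h2
        apply h0'
        omega) (dvd_sub (Int.natCast_dvd_natCast.2 (Dvd.intro_left w rfl))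
          (Int.natCast_dvd_natCast.2 h0)) k (2 * R0) hk le_rfl h1
  -- Fact 3
  have fact3 : ∀ (u v : ℕ) (m m' : G), m ∈ M → m' ∈ M → u ≠ v →
      (t ^ (u * D) * g ^ (2 * R0) * m)⁻¹ * (t ^ (v * D) * g ^ (2 * R0) * m') ∉ F := by
    intro u v m m' hm hm' huv hf
    have h1 : (π (t ^ (u * D) * g ^ (2 * R0)))⁻¹ * π (t ^ (v * D) * g ^ (2 * R0)) ∈ Φ := by
      have h2 := hΦmem m hm _ hf m' hm'
      have h3 : π (m * ((t ^ (u * D) * g ^ (2 * R0) * m)⁻¹ * (t ^ (v * D) * g ^ (2 * R0) * m')) *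
          m'⁻¹) = (π (t ^ (u * D) * g ^ (2 * R0)))⁻¹ * π (t ^ (v * D) * g ^ (2 * R0)) := by
        rw [← map_inv, ← map_mul]
        congr 1
        group
      rw [h3] at h2
      exact h2
    rw [hdiff] at h1
    refine hD _ ?_ ?_ (2 * R0) (2 * R0) le_rfl le_rfl h1
    · intro h2
      apply huv
      have h3 : ((v * D : ℕ) : ℤ) = ((u * D : ℕ) : ℤ) := by omega
      have h4 : v * D = u * D := by exact_mod_cast h3
      exact (Nat.eq_of_mul_eq_mul_right hD0 h4).symm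
    · exact dvd_sub (Int.natCast_dvd_natCast.2 (Dvd.intro_left v rfl))
        (Int.natCast_dvd_natCast.2 (Dvd.intro_left u rfl))
  -- Fact 4
  have fact4 : ∀ (e : Fin n) (u v k k' : ℕ), u ≠ v → k ≤ 2 * R0 → k' ≤ 2 * R0 →
      (b e * (t ^ (u * D) * g ^ k))⁻¹ * (b e * (t ^ (v * D) * g ^ k')) ∉ F := by
    intro e u v k k' huv hk hk' hf
    have h1 : (π (t ^ (u * D) * g ^ k))⁻¹ * π (t ^ (v * D) * g ^ k') ∈ Φ := by
      have h2 := hΦmem 1 hM1 _ hf 1 hM1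
      have h3 : π (1 * ((b e * (t ^ (u * D) * g ^ k))⁻¹ * (b e * (t ^ (v * D) * g ^ k'))) *
          1⁻¹) = (π (t ^ (u * D) * g ^ k))⁻¹ * π (t ^ (v * D) * g ^ k') := by
        rw [← map_inv, ← map_mul]
        congr 1
        group
      rw [h3] at h2
      exact h2
    rw [hdiff] at h1
    refine hD _ ?_ ?_ k k' hk hk' h1
    · intro h2
      apply huv
      have h3 : ((v * D : ℕ) : ℤ) = ((u * D : ℕ) : ℤ) := by omega
      have h4 : v * D = u * D := by exact_mod_cast h3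
      exact (Nat.eq_of_mul_eq_mul_right hD0 h4).symm
    · exact dvd_sub (Int.natCast_dvd_natCast.2 (Dvd.intro_left v rfl))
        (Int.natCast_dvd_natCast.2 (Dvd.intro_left u rfl))
  -- the sets
  let C : Fin n → Set G := fun v => {x | ∃ i k : ℕ, x = b v * (t ^ i * g ^ k) ∧
    (k = 0 ∨ ((∃ j : ℕ, i = j * D) ∧ k ≤ R0) ∨ (i = v.val * D ∧ k ≤ 2 * R0))}
  let Hb : Fin n → Set G := fun v => {x | ∃ m ∈ M, x = t ^ (v.val * D) * g ^ (2 * R0) * m}
  let B : Fin n → Set G := fun v => C v ∪ Hb v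
  let P : Fin n → Fin n → Set G := fun u v => {x | ∃ k : ℕ, R0 ≤ k ∧ k ≤ 2 * R0 ∧
    x = b u * (t ^ (v.val * D) * g ^ k)}
  -- the end of the upper tooth is in the hub
  have hend : ∀ u v : Fin n, b u * (t ^ (v.val * D) * g ^ (2 * R0)) ∈ Hb v := by
    intro u v
    set h := t ^ (v.val * D) * g ^ (2 * R0) with hh
    refine ⟨h⁻¹ * b u * h, ?_, ?_⟩
    · apply hME
      have := hE1n.conj_mem _ (hE1s ⟨u, rfl⟩) h⁻¹
      rwa [inv_inv] at this
    · rw [← hh]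
      group
  -- connectivity of B
  have hconn : ∀ v, ∀ x ∈ B v, Linked T (B v) (b v) x := by
    intro v
    have hspine : ∀ i : ℕ, Linked T (B v) (b v) (b v * t ^ i) := by
      intro i
      refine sv2_chain htT (b v) i ?_ i le_rfl
      intro i' _
      left
      exact ⟨i', 0, by simp, Or.inl rfl⟩
    have hcomb : ∀ x ∈ C v, Linked T (B v) (b v) x := by
      rintro x ⟨i, k, rfl, hcase⟩
      refine sv2_trans (hspine i) ?_
      rw [← mul_assoc]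
      refine sv2_chain hgT (b v * t ^ i) k ?_ k le_rfl
      intro k' hk'
      left
      refine ⟨i, k', by rw [mul_assoc], ?_⟩
      rcases hcase with h | ⟨h, h'⟩ | ⟨h, h'⟩
      · left; omega
      · right; left; exact ⟨h, by omega⟩
      · right; right; exact ⟨h, by omega⟩
    rintro x (hx | ⟨m, hm, rfl⟩)
    · exact hcomb x hx
    · have h1 : Linked T (B v) (b v) (b v * (t ^ (v.val * D) * g ^ (2 * R0))) :=
        hcomb _ ⟨_, _, rfl, Or.inr (Or.inr ⟨rfl, le_rfl⟩)⟩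
      obtain ⟨m', hm', he'⟩ := hend v v
      set h := t ^ (v.val * D) * g ^ (2 * R0) with hh
      have h2 : ∀ m ∈ M, Linked T (B v) h (h * m) := by
        intro m hm
        have h3 := fm3_linked_smul h (hMc m hm)
        rw [mul_one] at h3
        refine fm3_linked_mono subset_rfl ?_ h3
        intro z hz
        right
        exact ⟨h⁻¹ * z, hz, by rw [← hh]; group⟩
      refine sv2_trans h1 (sv2_trans ?_ (h2 m hm))
      rw [he']
      exact fm6_linked_symm (h2 m' hm')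
  -- separation in symmetric form
  have hsep : ∀ X Y : Set G, (∀ x ∈ X, ∀ y ∈ Y, x⁻¹ * y ∉ F) → ∀ y ∈ Y, ∀ x ∈ X, y⁻¹ * x ∉ F := by
    intro X Y h y hy x hx hf
    apply h x hx y hy
    have := hFsymm _ hf
    rw [mul_inv_rev, inv_inv] at this
    exact this
  have hCC : ∀ u v, u ≠ v → ∀ x ∈ C u, ∀ y ∈ C v, x⁻¹ * y ∉ F := by
    rintro u v huv x ⟨i, k, rfl, hx⟩ y ⟨i', k', rfl, hy⟩
    refine fact1 u v huv i k i' k' ?_ ?_ ?_ ?_
    · rcases hx with h | ⟨-, h⟩ | ⟨-, h⟩ <;> omega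
    · rcases hy with h | ⟨-, h⟩ | ⟨-, h⟩ <;> omega
    · rcases hx with h | ⟨⟨j, h⟩, -⟩ | ⟨h, -⟩
      · exact Or.inl h
      · exact Or.inr ⟨j, by rw [h, mul_comm]⟩
      · exact Or.inr ⟨u.val, by rw [h, mul_comm]⟩
    · rcases hy with h | ⟨⟨j, h⟩, -⟩ | ⟨h, -⟩
      · exact Or.inl h
      · exact Or.inr ⟨j, by rw [h, mul_comm]⟩
      · exact Or.inr ⟨v.val, by rw [h, mul_comm]⟩
  have hCH : ∀ u v, u ≠ v → ∀ x ∈ C u, ∀ y ∈ Hb v, x⁻¹ * y ∉ F := by
    rintro u v huv x ⟨i, k, rfl, hx⟩ y ⟨m, hm, rfl⟩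
    refine fact2 u i k v.val m hm (by rcases hx with h | ⟨-, h⟩ | ⟨-, h⟩ <;> omega) ?_
    rcases hx with h | ⟨⟨j, h⟩, h'⟩ | ⟨h, h'⟩
    · exact Or.inl h
    · by_cases hi : i = v.val * D
      · exact Or.inr (Or.inl ⟨hi, h'⟩)
      · exact Or.inr (Or.inr ⟨⟨j, by rw [h, mul_comm]⟩, hi⟩)
    · refine Or.inr (Or.inr ⟨⟨u.val, by rw [h, mul_comm]⟩, ?_⟩)
      intro h2
      rw [h] at h2
      exact huv (Fin.ext (Nat.eq_of_mul_eq_mul_right hD0 h2))
  have hHH : ∀ u v, u ≠ v → ∀ x ∈ Hb u, ∀ y ∈ Hb v, x⁻¹ * y ∉ F := by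
    rintro u v huv x ⟨m, hm, rfl⟩ y ⟨m', hm', rfl⟩
    exact fact3 u.val v.val m m' hm hm' (fun h => huv (Fin.ext h))
  have hF'F : ∀ x, x ∉ F → x ∉ F' := fun x hx h => hx (Or.inl h)
  refine ⟨⟨B, P, ?_, ?_, ?_, ?_, ?_, ?_⟩⟩
  · intro v
    exact ⟨b v, Or.inl ⟨0, 0, by simp, Or.inl rfl⟩⟩
  · intro v x hx y hy
    exact sv2_trans (fm6_linked_symm (hconn v x hx)) (hconn v y hy)
  · intro u v huv
    refine ⟨b u * (t ^ (v.val * D) * g ^ R0), Or.inl ⟨_, _, rfl, Or.inr (Or.inl ⟨⟨_, rfl⟩, le_rfl⟩)⟩,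
      b u * (t ^ (v.val * D) * g ^ (2 * R0)), Or.inr (hend u v), ⟨R0, le_rfl, by omega, rfl⟩,
      ⟨2 * R0, by omega, le_rfl, rfl⟩, ?_⟩
    have h1 := sv2_chain (U := P u v) hgT (b u * (t ^ (v.val * D) * g ^ R0)) R0 (by
      intro k hk
      refine ⟨R0 + k, by omega, by omega, ?_⟩
      rw [pow_add]
      group) R0 le_rfl
    have h2 : b u * (t ^ (v.val * D) * g ^ R0) * g ^ R0 =
        b u * (t ^ (v.val * D) * g ^ (2 * R0)) := by
      rw [two_mul, pow_add]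
      group
    rw [h2] at h1
    exact h1
  · rintro u v huv x (hx | hx) y (hy | hy)
    · exact hF'F _ (hCC u v huv x hx y hy)
    · exact hF'F _ (hCH u v huv x hx y hy)
    · exact hF'F _ (hsep _ _ (hCH v u huv.symm) x hx y hy)
    · exact hF'F _ (hHH u v huv x hx y hy)
  · rintro u v u' v' huv huv' hne x ⟨k, hk1, hk2, rfl⟩ y ⟨k', hk1', hk2', rfl⟩
    apply hF'F
    by_cases huu : u = u'
    · rw [← huu]
      apply fact4 u v.val v'.val k k' _ hk2 hk2'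
      intro hvv
      apply hne
      rw [huu, Fin.ext hvv]
    · exact fact1 u u' huu _ k _ k' hk2 hk2' (Or.inr (Dvd.intro_left _ rfl))
        (Or.inr (Dvd.intro_left _ rfl))
  · rintro u v w huv hwu hwv x ⟨k, hk1, hk2, rfl⟩ y (⟨i', k', rfl, hy⟩ | ⟨m, hm, rfl⟩)
    · apply hF'F
      refine fact1 u w hwu.symm _ k i' k' hk2
        (by rcases hy with h | ⟨-, h⟩ | ⟨-, h⟩ <;> omega) (Or.inr (Dvd.intro_left _ rfl)) ?_
      rcases hy with h | ⟨⟨j, h⟩, -⟩ | ⟨h, -⟩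
      · exact Or.inl h
      · exact Or.inr ⟨j, by rw [h, mul_comm]⟩
      · exact Or.inr ⟨w.val, by rw [h, mul_comm]⟩
    · apply hF'F
      refine fact2 u _ k w.val m hm hk2 (Or.inr (Or.inr ⟨Dvd.intro_left _ rfl, ?_⟩))
      intro h2
      exact hwv (Fin.ext (Nat.eq_of_mul_eq_mul_right hD0 h2)).symm

end sv2

end Pool.Agent.Lib.MP_0f7bfe_al
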