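import Mathlib

/-! SV3: in a finitely generated solvable group a subgroup which contains a power of every element has
finite index. -/

namespace Pool.Agent.Lib.MP_0f7bfe_al

universe u v

open scoped commutatorElement

section sv3

/-- the case of a split extension by an abelian group -/
theorem sv3_split {Q : Type u} [Group Q] (hQ : Group.FG Q) (B H : Subgroup Q) [hB : B.Normal]
    (hab : ∀ a ∈ B, ∀ b ∈ B, a * b = b * a) (hsup : H ⊔ B = ⊤) (hinf : H ⊓ B = ⊥)
    (hpow : ∀ g : Q, ∃ k : ℕ, 0 < k ∧ g ^ k ∈ H)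
    (hIH : ∀ S : Subgroup H, (∀ h : H, ∃ k : ℕ, 0 < k ∧ h ^ k ∈ S) → S.index ≠ 0) :
    H.index ≠ 0 := by
  classical
  have hmem : ∀ x : Q, ∃ h ∈ H, ∃ b ∈ B, h * b = x := fun x => by
    rw [← Subgroup.mem_sup_of_normal_right, hsup]
    trivial
  have htriv : ∀ x, x ∈ H → x ∈ B → x = 1 := fun x h1 h2 => by
    have : x ∈ H ⊓ B := ⟨h1, h2⟩
    rwa [hinf, Subgroup.mem_bot] at this
  -- powers of `h` commute with `b`
  have hcomm : ∀ b ∈ B, ∀ h ∈ H, ∃ k : ℕ, 0 < k ∧ h ^ k * b = b * h ^ k := by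
    intro b hb h hh
    obtain ⟨k, hk, hk2⟩ := hpow (b * h)
    refine ⟨k, hk, ?_⟩
    have h1 : (b * h) ^ k * (h ^ k)⁻¹ ∈ B := by
      have h2 : ∀ j : ℕ, (b * h) ^ j * (h ^ j)⁻¹ ∈ B := by
        intro j
        induction j with
        | zero => simp [B.one_mem]
        | succ j ih =>
          have h3 : (b * h) ^ (j + 1) * (h ^ (j + 1))⁻¹ =
              ((b * h) ^ j * (h ^ j)⁻¹) * (h ^ j * b * (h ^ j)⁻¹) := by
            rw [pow_succ, pow_succ]
            group
          rw [h3]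
          exact B.mul_mem ih (hB.conj_mem b hb _)
      exact h2 k
    have h2 : (b * h) ^ k * (h ^ k)⁻¹ ∈ H := H.mul_mem hk2 (H.inv_mem (H.pow_mem hh k))
    have h3 : (b * h) ^ k = h ^ k := mul_inv_eq_one.mp (htriv _ h2 h1)
    have h4 : Commute (b * h) (h ^ k) := by
      rw [← h3]
      exact Commute.self_pow _ _
    have h5 : Commute h (h ^ k) := Commute.self_pow _ _
    have h6 : Commute (b * h * h⁻¹) (h ^ k) := h4.mul_left h5.inv_left
    rw [mul_inv_cancel_right] at h6
    exact h6.symm.eq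
  -- finitely many conjugates
  have hconj : ∀ b ∈ B, {x : Q | ∃ q : Q, x = q * b * q⁻¹}.Finite := by
    intro b hb
    let S : Subgroup H := (Subgroup.centralizer {b}).subgroupOf H
    have hS : S.index ≠ 0 := by
      apply hIH
      intro h
      obtain ⟨k, hk, hk2⟩ := hcomm b hb h h.2
      refine ⟨k, hk, ?_⟩
      show ((h ^ k : H) : Q) ∈ Subgroup.centralizer {b}
      rw [Subgroup.mem_centralizer_singleton_iff]
      simpa using hk2
    have : S.FiniteIndex := ⟨hS⟩
    have hfin : Finite (H ⧸ S) := inferInstance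
    have hsub : {x : Q | ∃ q : Q, x = q * b * q⁻¹} ⊆
        Set.range (fun c : H ⧸ S => (c.out : Q) * b * ((c.out : H) : Q)⁻¹) := by
      rintro x ⟨q, rfl⟩
      obtain ⟨h, hh, b', hb', rfl⟩ := hmem q
      refine ⟨((⟨h, hh⟩ : H) : H ⧸ S), ?_⟩
      have h1 : ((((⟨h, hh⟩ : H) : H ⧸ S)).out)⁻¹ * (⟨h, hh⟩ : H) ∈ S := by
        rw [← QuotientGroup.eq]
        exact Quotient.out_eq _
      set o : H := (((⟨h, hh⟩ : H) : H ⧸ S)).out with ho
      have h2 : ((o⁻¹ * (⟨h, hh⟩ : H) : H) : Q) ∈ Subgroup.centralizer {b} := h1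
      rw [Subgroup.mem_centralizer_singleton_iff] at h2
      have h3 : (o : Q)⁻¹ * h * b = b * ((o : Q)⁻¹ * h) := by simpa using h2
      have h4 : b' * b = b * b' := hab b' hb' b hb
      show (o : Q) * b * (o : Q)⁻¹ = h * b' * b * (h * b')⁻¹
      have h5 : h * b' * b * (h * b')⁻¹ = h * b * h⁻¹ := by
        rw [mul_assoc h b' b, h4]
        group
      rw [h5]
      have h6 : h = o * ((o : Q)⁻¹ * h) := by group
      calc (o : Q) * b * (o : Q)⁻¹ = o * (b * ((o : Q)⁻¹ * h)) * h⁻¹ := by group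
        _ = o * ((o : Q)⁻¹ * h * b) * h⁻¹ := by rw [h3]
        _ = h * b * h⁻¹ := by group
    exact (Set.finite_range _).subset hsub
  -- `B` is finitely generated
  obtain ⟨X, hX⟩ := hQ.out
  choose f hf g hg hfg using hmem
  set W : Set Q := ⋃ x ∈ X, {y : Q | ∃ q : Q, y = q * g x * q⁻¹} with hW
  have hWfin : W.Finite := X.finite_toSet.biUnion fun x _ => hconj (g x) (hg x)
  have hWB : W ⊆ B := by
    intro y hy
    simp only [hW, Set.mem_iUnion] at hy
    obtain ⟨x, -, q, rfl⟩ := hy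
    exact hB.conj_mem _ (hg x) q
  have hWconj : ∀ y ∈ W, ∀ q : Q, q * y * q⁻¹ ∈ W := by
    intro y hy q
    simp only [hW, Set.mem_iUnion] at hy ⊢
    obtain ⟨x, hx, r, rfl⟩ := hy
    exact ⟨x, hx, q * r, by group⟩
  set N : Subgroup Q := Subgroup.closure W with hN
  have hNB : N ≤ B := (Subgroup.closure_le _).mpr hWB
  have hNn : N.Normal := by
    constructor
    intro y hy q
    have h1 : N ≤ N.comap (MulAut.conj q).toMonoidHom := by
      rw [hN, Subgroup.closure_le]
      intro z hz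
      exact Subgroup.subset_closure (hWconj z hz q)
    exact h1 hy
  have hNH : H ⊔ N = ⊤ := by
    rw [eq_top_iff, ← hX, Subgroup.closure_le]
    intro x hx
    show x ∈ H ⊔ N
    rw [← hfg x]
    refine (H ⊔ N).mul_mem (Subgroup.mem_sup_left (hf x)) (Subgroup.mem_sup_right ?_)
    apply Subgroup.subset_closure
    simp only [hW, Set.mem_iUnion]
    exact ⟨x, hx, 1, by simp⟩
  have hBN : B ≤ N := by
    intro b hb
    have h1 : b ∈ H ⊔ N := by rw [hNH]; trivial
    rw [Subgroup.mem_sup_of_normal_right] at h1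
    obtain ⟨h, hh, m, hm, rfl⟩ := h1
    have h2 : h ∈ B := by
      have := B.mul_mem hb (B.inv_mem (hNB hm))
      rwa [mul_inv_cancel_right] at this
    rw [htriv h hh h2, one_mul]
    exact hm
  have hBfg : B.FG := (Subgroup.fg_iff B).mpr ⟨W, le_antisymm hNB hBN, hWfin⟩
  let cB : CommGroup B := { (inferInstance : Group B) with
    mul_comm := fun a b => Subtype.ext (hab a a.2 b b.2) }
  have hBfg' : Group.FG B := (Group.fg_iff_subgroup_fg B).mpr hBfg
  have hBtor : IsMulTorsion B := by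
    intro b
    rw [isOfFinOrder_iff_pow_eq_one]
    obtain ⟨k, hk, hk2⟩ := hpow b
    refine ⟨k, hk, Subtype.ext ?_⟩
    exact htriv _ hk2 (B.pow_mem b.2 k)
  have hBfin : Finite B := CommGroup.finite_of_fg_isMulTorsion B hBtor
  have hfinq : Finite (Q ⧸ H) := by
    refine Finite.of_surjective (fun b : B => ((b : Q) : Q ⧸ H)) ?_
    intro c
    obtain ⟨x, rfl⟩ := QuotientGroup.mk_surjective c
    refine ⟨⟨(g x⁻¹)⁻¹, B.inv_mem (hg _)⟩, ?_⟩
    rw [QuotientGroup.eq]
    have h1 : ((g x⁻¹)⁻¹)⁻¹ * x = (f x⁻¹)⁻¹ := by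
      have h2 := hfg x⁻¹
      rw [inv_inv, ← mul_left_inj x⁻¹, mul_assoc, mul_inv_cancel, mul_one, ← mul_right_inj (f x⁻¹),
        ← mul_assoc, mul_inv_cancel, one_mul, h2]
    rw [h1]
    exact H.inv_mem (hf _)
  exact (Subgroup.finiteIndex_of_finite_quotient (H := H)).index_ne_zero

/-- a complement of a normal subgroup is a quotient -/
theorem sv3_fg {Q : Type u} [Group Q] (hQ : Group.FG Q) (B H : Subgroup Q) [hB : B.Normal]
    (hsup : H ⊔ B = ⊤) (hinf : H ⊓ B = ⊥) : Group.FG H := by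
  let φ : H →* Q ⧸ B := (QuotientGroup.mk' B).comp H.subtype
  have hφ : Function.Bijective φ := by
    constructor
    · rw [injective_iff_map_eq_one]
      intro h hh
      have h1 : (h : Q) ∈ B := by
        rw [← QuotientGroup.ker_mk' B, MonoidHom.mem_ker]
        exact hh
      have h2 : (h : Q) ∈ H ⊓ B := ⟨h.2, h1⟩
      rw [hinf, Subgroup.mem_bot] at h2
      exact Subtype.ext h2
    · intro q
      obtain ⟨x, rfl⟩ := QuotientGroup.mk'_surjective B q
      have h1 : x ∈ H ⊔ B := by rw [hsup]; trivial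
      rw [Subgroup.mem_sup_of_normal_right] at h1
      obtain ⟨h, hh, b, hb, rfl⟩ := h1
      refine ⟨⟨h, hh⟩, ?_⟩
      show QuotientGroup.mk' B h = QuotientGroup.mk' B (h * b)
      rw [map_mul]
      have h2 : QuotientGroup.mk' B b = 1 := by
        rw [← MonoidHom.mem_ker, QuotientGroup.ker_mk']
        exact hb
      rw [h2, mul_one]
  have e : Q ⧸ B ≃* H := (MulEquiv.ofBijective φ hφ).symm
  exact Group.fg_of_surjective (f := e.toMonoidHom) e.surjective

theorem sv3_aux (d : ℕ) : ∀ (G : Type u) [Group G], derivedSeries G d = ⊥ → Group.FG G →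
    ∀ H : Subgroup G, (∀ g : G, ∃ k : ℕ, 0 < k ∧ g ^ k ∈ H) → H.index ≠ 0 := by
  induction d with
  | zero =>
    intro G _ hd _ H _
    have h1 : (⊤ : Subgroup G) = ⊥ := by simpa using hd
    have h2 : H = ⊤ := by
      rw [eq_top_iff, h1]
      exact bot_le
    rw [h2, Subgroup.index_top]
    exact one_ne_zero
  | succ d ih =>
    intro G _ hd hG H hH
    set B := derivedSeries G d with hBdef
    have hBn : B.Normal := inferInstance
    have hab : ∀ a ∈ B, ∀ b ∈ B, a * b = b * a := by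
      intro a ha b hb
      have h1 : ⁅B, B⁆ = ⊥ := by rw [← hd, derivedSeries_succ]
      have h2 : ⁅a, b⁆ ∈ ⁅B, B⁆ := Subgroup.commutator_mem_commutator ha hb
      rw [h1, Subgroup.mem_bot, commutatorElement_eq_one_iff_mul_comm] at h2
      exact h2
    -- the quotient by `B`
    have hidx1 : (H ⊔ B).index ≠ 0 := by
      have h1 : (H.map (QuotientGroup.mk' B)).index ≠ 0 := by
        refine ih (G ⧸ B) ?_ inferInstance _ ?_
        · rw [← map_derivedSeries_eq (QuotientGroup.mk'_surjective B) d, ← hBdef]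
          rw [Subgroup.map_eq_bot_iff, QuotientGroup.ker_mk']
        · intro q
          obtain ⟨x, rfl⟩ := QuotientGroup.mk'_surjective B q
          obtain ⟨k, hk, hk2⟩ := hH x
          exact ⟨k, hk, ⟨x ^ k, hk2, map_pow _ _ _⟩⟩
      rw [Subgroup.index_map, QuotientGroup.ker_mk',
        MonoidHom.range_eq_top_of_surjective _ (QuotientGroup.mk'_surjective B),
        Subgroup.index_top, mul_one] at h1
      exact h1
    set K := H ⊔ B with hK
    have hHK : H ≤ K := le_sup_left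
    have hBK : B ≤ K := le_sup_right
    have hKfi : K.FiniteIndex := ⟨hidx1⟩
    have hKfg : Group.FG K := inferInstance
    rw [← Subgroup.relIndex_mul_index hHK]
    refine mul_ne_zero ?_ hidx1
    set H1 : Subgroup K := H.subgroupOf K with hH1
    set B1 : Subgroup K := B.subgroupOf K with hB1
    show H1.index ≠ 0
    set C : Subgroup K := H1 ⊓ B1 with hC
    have hmemK : ∀ x ∈ K, ∃ h ∈ H, ∃ b ∈ B, h * b = x := fun x hx => by
      rw [← Subgroup.mem_sup_of_normal_right]
      exact hx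
    have hCn : C.Normal := by
      constructor
      rintro ⟨c, hcK⟩ ⟨hc1, hc2⟩ ⟨q, hq⟩
      obtain ⟨h, hh, b, hb, rfl⟩ := hmemK q hq
      have hc1' : c ∈ H := hc1
      have hc2' : c ∈ B := hc2
      have h1 : h * b * c * (h * b)⁻¹ = h * c * h⁻¹ := by
        have h2 : b * c = c * b := hab b hb c hc2'
        rw [mul_assoc h b c, h2]
        group
      constructor
      · show h * b * c * (h * b)⁻¹ ∈ H
        rw [h1]
        exact H.mul_mem (H.mul_mem hh hc1') (H.inv_mem hh)
      · show h * b * c * (h * b)⁻¹ ∈ B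
        exact hBn.conj_mem c hc2' _
    set π := QuotientGroup.mk' C with hπ
    have hπs : Function.Surjective π := QuotientGroup.mk'_surjective C
    have hker : π.ker = C := QuotientGroup.ker_mk' C
    have hH1i : H1.index = (H1.map π).index := by
      rw [Subgroup.index_map_eq H1 hπs (by rw [hker]; exact inf_le_left)]
    rw [hH1i]
    have hB1n : B1.Normal := Subgroup.normal_subgroupOf
    have hB2n : (B1.map π).Normal := hB1n.map π hπs
    have hsup2 : H1.map π ⊔ B1.map π = ⊤ := by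
      rw [← Subgroup.map_sup]
      have h1 : H1 ⊔ B1 = ⊤ := by
        rw [eq_top_iff]
        rintro ⟨x, hx⟩ -
        obtain ⟨h, hh, b, hb, rfl⟩ := hmemK x hx
        have h2 : (⟨h * b, hx⟩ : K) = ⟨h, hHK hh⟩ * ⟨b, hBK hb⟩ := rfl
        rw [h2]
        exact (H1 ⊔ B1).mul_mem (Subgroup.mem_sup_left hh) (Subgroup.mem_sup_right hb)
      rw [h1, Subgroup.map_top_of_surjective π hπs]
    have hinf2 : H1.map π ⊓ B1.map π = ⊥ := by
      rw [eq_bot_iff]
      rintro _ ⟨⟨a, ha, rfl⟩, ⟨b, hb, hab2⟩⟩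
      rw [Subgroup.mem_bot]
      have h1 : a⁻¹ * b ∈ C := by
        rw [← hker, MonoidHom.mem_ker, map_mul, map_inv, hab2, inv_mul_cancel]
      have h2 : b ∈ H1 := by
        have := H1.mul_mem ha h1.1
        rwa [mul_inv_cancel_left] at this
      have h3 : b ∈ C := ⟨h2, hb⟩
      rw [← hab2, ← MonoidHom.mem_ker, hker]
      exact h3
    refine sv3_split (Q := K ⧸ C) inferInstance (B1.map π) (H1.map π) ?_ hsup2 hinf2 ?_ ?_
    · rintro _ ⟨a, ha, rfl⟩ _ ⟨b, hb, rfl⟩
      rw [← map_mul, ← map_mul]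
      congr 1
      exact Subtype.ext (hab a ha b hb)
    · intro q
      obtain ⟨x, rfl⟩ := hπs q
      obtain ⟨k, hk, hk2⟩ := hH x
      exact ⟨k, hk, ⟨x ^ k, hk2, map_pow _ _ _⟩⟩
    · -- the induction hypothesis for `H1.map π`
      let ψ : H →* (H1.map π) :=
        { toFun := fun h => ⟨π ⟨h, hHK h.2⟩, ⟨⟨h, hHK h.2⟩, h.2, rfl⟩⟩
          map_one' := rfl
          map_mul' := fun _ _ => rfl }
      have hψs : Function.Surjective ψ := by
        rintro ⟨_, ⟨x, hx, rfl⟩⟩
        exact ⟨⟨x, hx⟩, rfl⟩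
      refine ih _ ?_ ?_
      · rw [← map_derivedSeries_eq hψs d, eq_bot_iff]
        rintro _ ⟨h, hh, rfl⟩
        rw [Subgroup.mem_bot]
        have h1 : (h : G) ∈ B := by
          have h2 := map_derivedSeries_le_derivedSeries H.subtype d
          exact h2 ⟨h, hh, rfl⟩
        apply Subtype.ext
        show π ⟨h, hHK h.2⟩ = 1
        rw [← MonoidHom.mem_ker, hker]
        exact ⟨h.2, h1⟩
      · exact sv3_fg (Q := K ⧸ C) inferInstance (B1.map π) (H1.map π) hsup2 hinf2

/-- SV3: Lemma S -/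
theorem index_ne_zero_of_powers {G : Type u} [Group G] [Group.IsSolvable G] (hG : Group.FG G)
    (H : Subgroup G) (hH : ∀ g : G, ∃ k : ℕ, 0 < k ∧ g ^ k ∈ H) : H.index ≠ 0 := by
  obtain ⟨d, hd⟩ := Group.IsSolvable.solvable (G := G)
  exact sv3_aux d G hd hG H hH

end sv3

end Pool.Agent.Lib.MP_0f7bfe_al
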