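import Pool.Agent.Lib.MP_0f7bfe_al.Defs

open scoped Pointwise

namespace Pool.Agent.Lib.MP_0f7bfe_al

universe u v

section
variable {G : Type u} [Group G]

theorem sv4a_linked (E : Subgroup G) [E.Normal] (T B : Set (G ⧸ E)) {a b : G ⧸ E}
    (h : Linked T B a b) (ha : a ∈ B) :
    ∀ x y : G, (QuotientGroup.mk' E) x = a → (QuotientGroup.mk' E) y = b →
      Linked ((QuotientGroup.mk' E) ⁻¹' T ∪ E) ((QuotientGroup.mk' E) ⁻¹' B) x y := by
  have key : ∀ x y : G, (QuotientGroup.mk' E) x = (QuotientGroup.mk' E) y →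
      (QuotientGroup.mk' E) x ∈ B →
      Linked ((QuotientGroup.mk' E) ⁻¹' T ∪ E) ((QuotientGroup.mk' E) ⁻¹' B) x y := by
    intro x y hxy hx
    refine Relation.ReflTransGen.single ⟨hx, by rw [Set.mem_preimage, ← hxy]; exact hx,
      Or.inl (Or.inr ?_)⟩
    exact (QuotientGroup.eq (s := E)).mp hxy
  induction h with
  | refl =>
    intro x y hx hy
    exact key x y (hx.trans hy.symm) (by rw [hx]; exact ha)
  | tail _ hbc ih =>
    rename_i c d _
    intro x y hx hy
    obtain ⟨z, hz⟩ := QuotientGroup.mk'_surjective E c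
    refine Relation.ReflTransGen.tail (ih x z hx hz) ⟨?_, ?_, ?_⟩
    · rw [Set.mem_preimage, hz]; exact hbc.1
    · rw [Set.mem_preimage, hy]; exact hbc.2.1
    · rcases hbc.2.2 with h | h
      · left; left
        rw [Set.mem_preimage, map_mul, map_inv, hz, hy]
        exact h
      · right; left
        rw [Set.mem_preimage, map_mul, map_inv, hz, hy]
        exact h

theorem sv4a_finite (E : Subgroup G) [E.Normal] (hE : (E : Set G).Finite) (T : Set (G ⧸ E))
    (hT : T.Finite) : ((QuotientGroup.mk' E) ⁻¹' T).Finite := by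
  refine ((hT.image Quotient.out).mul hE).subset ?_
  intro x hx
  have h1 : (Quotient.out ((QuotientGroup.mk' E) x))⁻¹ * x ∈ E := by
    have : (QuotientGroup.mk (Quotient.out ((QuotientGroup.mk' E) x)) : G ⧸ E) =
        QuotientGroup.mk x := QuotientGroup.out_eq' _
    exact (QuotientGroup.eq (s := E)).mp this
  have h2 := Set.mul_mem_mul (s := Quotient.out '' T) (t := (E : Set G))
    ⟨(QuotientGroup.mk' E) x, hx, rfl⟩ h1
  rwa [mul_inv_cancel_left] at h2

/-- SV4a -/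
theorem AllCliques.of_quotient (E : Subgroup G) [E.Normal] (hE : (E : Set G).Finite)
    (h : AllCliques (G ⧸ E)) : AllCliques G := by
  obtain ⟨T, hT, h⟩ := h
  refine ⟨(QuotientGroup.mk' E) ⁻¹' T ∪ E, (sv4a_finite E hE T hT).union hE, ?_⟩
  intro n F hF
  obtain ⟨m⟩ := h n ((QuotientGroup.mk' E) '' F) (hF.image _)
  have hfar : ∀ x y : G, ((QuotientGroup.mk' E) x)⁻¹ * (QuotientGroup.mk' E) y ∉
      (QuotientGroup.mk' E) '' F → x⁻¹ * y ∉ F := by
    intro x y h1 h2
    apply h1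
    exact ⟨x⁻¹ * y, h2, by rw [map_mul, map_inv]⟩
  refine ⟨⟨fun v => (QuotientGroup.mk' E) ⁻¹' (m.B v), fun u v => (QuotientGroup.mk' E) ⁻¹' (m.P u v),
    ?_, ?_, ?_, ?_, ?_, ?_⟩⟩
  · intro v
    obtain ⟨x, hx⟩ := m.ne v
    obtain ⟨y, rfl⟩ := QuotientGroup.mk'_surjective E x
    exact ⟨y, hx⟩
  · intro v x hx y hy
    exact sv4a_linked E T (m.B v) (m.conn v _ hx _ hy) hx x y rfl rfl
  · intro u v huv
    obtain ⟨x, hx, y, hy, hx', hy', hl⟩ := m.path u v huv
    obtain ⟨x, rfl⟩ := QuotientGroup.mk'_surjective E x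
    obtain ⟨y, rfl⟩ := QuotientGroup.mk'_surjective E y
    exact ⟨x, hx, y, hy, hx', hy', sv4a_linked E T (m.P u v) hl hx' x y rfl rfl⟩
  · intro u v huv x hx y hy
    exact hfar x y (m.farBB u v huv _ hx _ hy)
  · intro u v u' v' h1 h2 h3 x hx y hy
    exact hfar x y (m.farPP u v u' v' h1 h2 h3 _ hx _ hy)
  · intro u v w h1 h2 h3 x hx y hy
    exact hfar x y (m.farPB u v w h1 h2 h3 _ hx _ hy)

end

end Pool.Agent.Lib.MP_0f7bfe_al
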