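import Pool.Agent.Lib.MP_0f7bfe_al.Main
import Pool.Agent.Lib.MP_0f7bfe_al.SV1b

open scoped Pointwise

namespace Pool.Agent.Lib.MP_0f7bfe_al

universe u v

/-- SV5 auxiliary: normal subgroups are commensurated -/
theorem sv5_commensurated {Γ : Type u} [Group Γ] (N : Subgroup Γ) (hN : N.Normal) :
    Commensurated N := by
  intro g
  have : N.map (MulAut.conj g).toMonoidHom = N := by
    ext x
    rw [Subgroup.mem_map]
    constructor
    · rintro ⟨y, hy, rfl⟩
      exact hN.conj_mem y hy g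
    · intro hx
      refine ⟨g⁻¹ * x * g, ?_, ?_⟩
      · have := hN.conj_mem x hx g⁻¹
        rwa [inv_inv] at this
      · simp [MulAut.conj_apply]
        group
  rw [this, Subgroup.relIndex_self]
  exact one_ne_zero

/-- SV5 auxiliary: elements of bounded order in a f.g. abelian subgroup -/
theorem sv5_torsion_finite {Γ : Type u} [Group Γ] (A : Subgroup Γ)
    (hab : ∀ a ∈ A, ∀ b ∈ A, a * b = b * a) (hfg : A.FG) (m : ℕ) (hm : 0 < m) :
    {c : Γ | c ∈ A ∧ c ^ m = 1}.Finite := by
  letI : CommGroup A :=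
    { (inferInstance : Group A) with
      mul_comm := fun a b => Subtype.ext (hab a.1 a.2 b.1 b.2) }
  haveI : Group.FG A := (Group.fg_iff_subgroup_fg A).2 hfg
  haveI : Module.Finite ℤ (Additive A) := Module.Finite.iff_addGroup_fg.mpr inferInstance
  haveI : IsNoetherian ℤ (Additive A) := isNoetherian_of_isNoetherianRing_of_finite ℤ (Additive A)
  let N : Submodule ℤ (Additive A) := Submodule.torsionBy ℤ (Additive A) (m : ℤ)
  have hfin : Finite N := by
    apply Module.finite_of_fg_torsion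
    intro x
    refine ⟨⟨(m : ℤ), ?_⟩, ?_⟩
    · rw [mem_nonZeroDivisors_iff_ne_zero]
      exact_mod_cast hm.ne'
    · apply Subtype.ext
      have := x.2
      rw [Submodule.mem_torsionBy_iff] at this
      exact this
  have hfin2 : (N : Set (Additive A)).Finite := Set.toFinite _
  refine (hfin2.image (fun a : Additive A => ((Additive.toMul a : A) : Γ))).subset ?_
  rintro c ⟨hc, hcm⟩
  refine ⟨Additive.ofMul ⟨c, hc⟩, ?_, rfl⟩
  change (Additive.ofMul (⟨c, hc⟩ : A)) ∈ N
  rw [Submodule.mem_torsionBy_iff]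
  apply Additive.toMul.injective
  apply Subtype.ext
  simpa using hcm

/-- SV5 auxiliary -/
theorem sv5_pigeonhole {Γ : Type u} [Group Γ] (b t : Γ) (m : ℕ) (hm : 0 < m)
    (hfin : (Set.range (fun j : ℕ => t ^ (m * j) * b * (t ^ (m * j))⁻¹)).Finite) :
    ∃ k : ℕ, 0 < k ∧ t ^ k * b = b * t ^ k := by
  have hni : ¬ Function.Injective (fun j : ℕ => t ^ (m * j) * b * (t ^ (m * j))⁻¹) := by
    intro hi
    exact Set.infinite_range_of_injective hi hfin
  have key : ∀ i j : ℕ, i < j → t ^ (m * i) * b * (t ^ (m * i))⁻¹ = t ^ (m * j) * b * (t ^ (m * j))⁻¹ →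
      ∃ k : ℕ, 0 < k ∧ t ^ k * b = b * t ^ k := by
    intro i j hij h
    refine ⟨m * (j - i), Nat.mul_pos hm (by omega), ?_⟩
    have h1 : t ^ (m * j) = t ^ (m * i) * t ^ (m * (j - i)) := by
      rw [← pow_add, ← mul_add]
      congr 2
      omega
    rw [h1] at h
    have h2 : b = t ^ (m * (j - i)) * b * (t ^ (m * (j - i)))⁻¹ := by
      have h3 : t ^ (m * i) * b * (t ^ (m * i))⁻¹ =
          t ^ (m * i) * (t ^ (m * (j - i)) * b * (t ^ (m * (j - i)))⁻¹) * (t ^ (m * i))⁻¹ := by
        rw [h]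
        group
      exact mul_left_cancel (mul_right_cancel h3)
    conv_rhs => rw [h2]
    group
  rw [Function.Injective] at hni
  push Not at hni
  obtain ⟨i, j, h1, h2⟩ := hni
  rcases lt_or_gt_of_ne h2 with h3 | h3
  · exact key i j h3 h1
  · exact key j i h3 h1.symm

/-- SV5 for two generators -/
theorem sv5_gen {Γ : Type u} [Group Γ] (hΓ : ¬ AllCliques Γ) (A : Subgroup Γ) (hA : A.Normal)
    (hab : ∀ a ∈ A, ∀ b ∈ A, a * b = b * a) (b t : Γ) (hb : b ∈ A)
    (ht : ∀ k : ℤ, t ^ k ∈ A → k = 0) (hgen : Subgroup.closure {b, t} = ⊤) :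
    ∃ k : ℕ, 0 < k ∧ t ^ k * b = b * t ^ k := by
  classical
  have hfg : A.FG := by
    by_contra hcon
    exact hΓ (allCliques_abelian_by_Z A hA hab b t hb ht hgen hcon)
  have hconj : ∀ j : ℕ, t ^ j * b * (t ^ j)⁻¹ ∈ A := fun j => hA.conj_mem b hb _
  by_cases hinf : Infinite A
  · have hG : Group.FG Γ := ⟨⟨{b, t}, by rw [← hgen]; congr 1; ext x; simp⟩⟩
    have hidx : Infinite (Γ ⧸ A) := by
      have hinj : Function.Injective (fun k : ℤ => ((t ^ k : Γ) : Γ ⧸ A)) := by
        intro k l hkl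
        have h1 := QuotientGroup.eq.1 hkl
        rw [← zpow_neg, ← zpow_add] at h1
        have := ht _ h1
        omega
      exact Infinite.of_injective _ hinj
    rcases dichotomy hG A (sv5_commensurated A hA) hfg hinf hidx with h | ⟨W, hW, ⟨e⟩⟩
    · exact absurd h hΓ
    · have hWc : ∀ x ∈ W, ∀ y ∈ W, x * y = y * x := by
        intro x hx y hy
        have h1 : (⟨x, hx⟩ : W) * ⟨y, hy⟩ = ⟨y, hy⟩ * ⟨x, hx⟩ := by
          apply e.injective
          rw [map_mul, map_mul, mul_comm]
        exact congrArg Subtype.val h1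
      obtain ⟨n1, hn1, -, ht1⟩ := Subgroup.exists_pow_mem_of_index_ne_zero hW t
      obtain ⟨n2, hn2, -, hb2⟩ := Subgroup.exists_pow_mem_of_index_ne_zero hW b
      have hm : 0 < n1 * n2 := Nat.mul_pos hn1 hn2
      refine sv5_pigeonhole b t (n1 * n2) hm ?_
      refine ((sv5_torsion_finite A hab hfg (n1 * n2) hm).image (fun c => c * b)).subset ?_
      rintro _ ⟨j, rfl⟩
      dsimp only
      refine ⟨t ^ (n1 * n2 * j) * b * (t ^ (n1 * n2 * j))⁻¹ * b⁻¹, ⟨?_, ?_⟩, by group⟩
      · exact A.mul_mem (hconj _) (A.inv_mem hb)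
      · have htW : t ^ (n1 * n2 * j) ∈ W := by
          rw [mul_assoc, pow_mul]
          exact W.pow_mem ht1 _
        have hbW : b ^ (n1 * n2) ∈ W := by
          rw [mul_comm, pow_mul]
          exact W.pow_mem hb2 _
        have hc : Commute (t ^ (n1 * n2 * j) * b * (t ^ (n1 * n2 * j))⁻¹) b⁻¹ :=
          hab _ (hconj _) _ (A.inv_mem hb)
        rw [hc.mul_pow, conj_pow, hWc _ htW _ hbW]
        group
  · have hfinA : (A : Set Γ).Finite := by
      rw [not_infinite_iff_finite] at hinf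
      exact Set.toFinite _
    refine sv5_pigeonhole b t 1 one_pos (hfinA.subset ?_)
    rintro _ ⟨j, rfl⟩
    exact hconj _

/-- SV5: an element of a normal abelian subgroup and any other element: unless there are all
cliques, some power of t commutes with b. -/
theorem commutes_power {G : Type u} [Group G] (hG : ¬ AllCliques G) (A : Subgroup G)
    (hA : A.Normal)
    (hab : ∀ a ∈ A, ∀ b ∈ A, a * b = b * a) (b t : G) (hb : b ∈ A) :
    ∃ k : ℕ, 0 < k ∧ t ^ k * b = b * t ^ k := by
  by_cases hj : ∃ j : ℕ, 0 < j ∧ t ^ j ∈ A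
  · obtain ⟨j, hj0, hj1⟩ := hj
    exact ⟨j, hj0, hab _ hj1 _ hb⟩
  push Not at hj
  have ht : ∀ k : ℤ, t ^ k ∈ A → k = 0 := by
    intro k hk
    by_contra hk0
    rcases lt_or_gt_of_ne hk0 with h | h
    · have h1 : t ^ (-k).toNat ∈ A := by
        rw [← zpow_natCast, Int.toNat_of_nonneg (by omega), zpow_neg]
        exact A.inv_mem hk
      exact hj (-k).toNat (by omega) h1
    · have h1 : t ^ k.toNat ∈ A := by
        rw [← zpow_natCast, Int.toNat_of_nonneg (by omega)]
        exact hk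
      exact hj k.toNat (by omega) h1
  have hbH : b ∈ Subgroup.closure ({b, t} : Set G) := Subgroup.subset_closure (by simp)
  have htH : t ∈ Subgroup.closure ({b, t} : Set G) := Subgroup.subset_closure (by simp)
  obtain ⟨k, hk0, hk⟩ := sv5_gen (Γ := Subgroup.closure ({b, t} : Set G))
    (fun h => hG (h.map (Subgroup.closure ({b, t} : Set G)).subtype
      (Subgroup.subtype_injective _)))
    (A.subgroupOf (Subgroup.closure ({b, t} : Set G))) (hA.subgroupOf _)
    (by
      intro x hx y hy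
      apply Subtype.ext
      exact hab _ (Subgroup.mem_subgroupOf.1 hx) _ (Subgroup.mem_subgroupOf.1 hy))
    ⟨b, hbH⟩ ⟨t, htH⟩ (Subgroup.mem_subgroupOf.2 hb)
    (by
      intro k hk
      apply ht
      have := Subgroup.mem_subgroupOf.1 hk
      simpa using this)
    (by
      rw [← Subgroup.closure_closure_coe_preimage (k := ({b, t} : Set G))]
      congr 1
      ext x
      simp [Subtype.ext_iff])
  refine ⟨k, hk0, ?_⟩
  have := congrArg (Subtype.val) hk
  simpa using this

end Pool.Agent.Lib.MP_0f7bfe_al
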