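import Pool.Agent.Lib.MP_0f7bfe_al.Main
import Pool.Agent.Lib.MP_0f7bfe_al.SV2
import Pool.Agent.Lib.MP_0f7bfe_al.SV3
import Pool.Agent.Lib.MP_0f7bfe_al.SV4b
import Pool.Agent.Lib.MP_0f7bfe_al.SV5

open scoped Pointwise

namespace Pool.Agent.Lib.MP_0f7bfe_al

universe u v

/-- SV6 auxiliary: f.g. torsion elementwise commuting subgroups are finite -/
theorem sv6_finite {Γ : Type u} [Group Γ] (A : Subgroup Γ)
    (hab : ∀ a ∈ A, ∀ b ∈ A, a * b = b * a) (hfg : A.FG) (ht : ∀ a ∈ A, IsOfFinOrder a) :
    (A : Set Γ).Finite := by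
  letI : CommGroup A :=
    { (inferInstance : Group A) with
      mul_comm := fun a b => Subtype.ext (hab a.1 a.2 b.1 b.2) }
  have : Group.FG A := (Group.fg_iff_subgroup_fg A).2 hfg
  have : Finite A := by
    apply CommGroup.finite_of_fg_isMulTorsion
    intro g
    exact Submonoid.isOfFinOrder_coe.1 (ht g.1 g.2)
  exact Set.toFinite _

/-- SV6 auxiliary: the normal closure of finitely many elements with finitely many conjugates
is finitely generated -/
theorem sv6_normalClosure_fg {Γ : Type u} [Group Γ] (s : Set Γ) (hs : s.Finite)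
    (hc : ∀ b ∈ s, (Subgroup.centralizer ({b} : Set Γ)).index ≠ 0) :
    (Subgroup.normalClosure s).FG := by
  rw [Subgroup.fg_iff]
  refine ⟨Group.conjugatesOfSet s, rfl, ?_⟩
  rw [Group.conjugatesOfSet]
  refine hs.biUnion fun b hb => ?_
  have h1 : conjugatesOf b = (fun g : Γ => g * b * g⁻¹) '' Set.univ := by
    ext x
    simp only [conjugatesOf, Set.mem_ofPred_eq, isConj_iff, Set.image_univ, Set.mem_range]
  rw [h1, Set.image_univ]
  -- the map factors through the quotient by the centralizer
  have hfi : (Subgroup.centralizer ({b} : Set Γ)).FiniteIndex := ⟨hc b hb⟩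
  have hfin : Finite (Γ ⧸ Subgroup.centralizer ({b} : Set Γ)) := Subgroup.finite_quotient_of_finiteIndex
  let f : Γ ⧸ Subgroup.centralizer ({b} : Set Γ) → Γ :=
    fun q => Quotient.liftOn' q (fun g => g * b * g⁻¹) (by
      intro g h hgh
      rw [QuotientGroup.leftRel_apply] at hgh
      have h2 := Subgroup.mem_centralizer_singleton_iff.1 hgh
      have h3 : g⁻¹ * h * b = b * (g⁻¹ * h) := h2
      calc g * b * g⁻¹ = g * (b * (g⁻¹ * h)) * h⁻¹ := by group
        _ = g * (g⁻¹ * h * b) * h⁻¹ := by rw [h3]
        _ = h * b * h⁻¹ := by group)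
  refine (Set.finite_range f).subset ?_
  rintro _ ⟨g, rfl⟩
  exact ⟨(g : Γ ⧸ _), rfl⟩

theorem sv6_small_of_zpowers {G : Type u} [Group G] (a : G) (ha : ¬ IsOfFinOrder a)
    (h : (Subgroup.zpowers a).index ≠ 0) : Small G := by
  refine ⟨Subgroup.zpowers a, h, Or.inr (Or.inl ⟨?_⟩)⟩
  have hinj : Function.Injective (fun n : ℤ => a ^ n) :=
    injective_zpow_iff_not_isOfFinOrder.2 ha
  refine (MulEquiv.ofBijective
    (({ toFun := fun n => ⟨a ^ (Multiplicative.toAdd n), Subgroup.zpow_mem_zpowers a _⟩
        map_one' := by simp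
        map_mul' := by
          intro x y
          apply Subtype.ext
          simp [zpow_add] } : Multiplicative ℤ →* Subgroup.zpowers a)) ⟨?_, ?_⟩).symm
  · intro x y hxy
    have h1 := congrArg Subtype.val hxy
    exact Multiplicative.toAdd.injective (hinj h1)
  · rintro ⟨x, hx⟩
    obtain ⟨n, rfl⟩ := Subgroup.mem_zpowers_iff.1 hx
    exact ⟨Multiplicative.ofAdd n, rfl⟩

/-- SV6, first case: the abelian subgroup has finite index -/
theorem sv6_finite_index {G : Type u} [Group G] (hG : Group.FG G) (A : Subgroup G)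
    (hab : ∀ a ∈ A, ∀ b ∈ A, a * b = b * a) (hinf : Infinite A) (hidx : A.index ≠ 0) :
    AllCliques G ∨ Small G := by
  have : A.FiniteIndex := ⟨hidx⟩
  have hfgA : Group.FG A := inferInstance
  have hfgA' : A.FG := (Group.fg_iff_subgroup_fg A).1 hfgA
  -- an element of infinite order
  obtain ⟨a, haA, ha⟩ : ∃ a ∈ A, ¬ IsOfFinOrder a := by
    by_contra hcon
    push Not at hcon
    have := sv6_finite A hab hfgA' hcon
    exact this.not_infinite (Set.infinite_coe_iff.1 hinf)
  let a' : A := ⟨a, haA⟩
  have ha' : ¬ IsOfFinOrder a' := fun h => ha (Submonoid.isOfFinOrder_coe.2 h)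
  by_cases hN : (Subgroup.zpowers a').index ≠ 0
  · right
    apply sv6_small_of_zpowers a ha
    have h1 : (Subgroup.zpowers a').map A.subtype = Subgroup.zpowers a := by
      rw [MonoidHom.map_zpowers]
      rfl
    rw [← h1, Subgroup.index_map_subtype]
    exact Nat.mul_ne_zero hN hidx
  · push Not at hN
    have hNn : (Subgroup.zpowers a').Normal := by
      refine ⟨fun x hx g => ?_⟩
      have : g * x * g⁻¹ = x := by
        have h2 : g * x = x * g := Subtype.ext (hab _ g.2 _ x.2)
        rw [h2]
        group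
      rw [this]
      exact hx
    have hNfg : (Subgroup.zpowers a').FG := by
      rw [Subgroup.fg_iff]
      exact ⟨{a'}, (Subgroup.zpowers_eq_closure a').symm, Set.finite_singleton _⟩
    have hNinf : Infinite (Subgroup.zpowers a') := by
      rw [← not_finite_iff_infinite]
      intro hfin
      exact ha' (isOfFinOrder_iff_zpow_eq_one.2 (by
        by_contra hcon
        exact ha' ((finite_zpowers (a := a')).1 (Set.toFinite _))))
    have hNidx : Infinite (A ⧸ Subgroup.zpowers a') := by
      rw [← not_finite_iff_infinite]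
      intro hfin
      have := hfin
      exact (Subgroup.finiteIndex_of_finite_quotient (H := Subgroup.zpowers a')).index_ne_zero hN
    rcases dichotomy hfgA (Subgroup.zpowers a') (sv5_commensurated _ hNn) hNfg hNinf hNidx with
      h | ⟨W, hW, ⟨e⟩⟩
    · left
      exact h.map A.subtype (Subgroup.subtype_injective _)
    · right
      refine ⟨W.map A.subtype, ?_, Or.inr (Or.inr ⟨?_⟩)⟩
      · rw [Subgroup.index_map_subtype]
        exact Nat.mul_ne_zero hW hidx
      · exact ((W.equivMapOfInjective A.subtype (Subgroup.subtype_injective _)).symm).trans e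

/-- SV6: solvable groups with an infinite abelian normal subgroup -/
theorem solvable_core {G : Type u} [Group G] [Group.IsSolvable G] (hG : Group.FG G)
    (A : Subgroup G) (hA : A.Normal)
    (hab : ∀ a ∈ A, ∀ b ∈ A, a * b = b * a) (hinf : Infinite A) : AllCliques G ∨ Small G := by
  classical
  by_cases hidx : A.index ≠ 0
  · exact sv6_finite_index hG A hab hinf hidx
  push Not at hidx
  by_cases hAC : AllCliques G
  · exact Or.inl hAC
  -- every element of A has a centralizer of finite index
  have hcent : ∀ b ∈ A, (Subgroup.centralizer ({b} : Set G)).index ≠ 0 := by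
    intro b hb
    apply index_ne_zero_of_powers hG
    intro g
    obtain ⟨k, hk0, hk⟩ := commutes_power hAC A hA hab b g hb
    exact ⟨k, hk0, Subgroup.mem_centralizer_singleton_iff.2 hk⟩
  have hncl : ∀ s : Set G, s ⊆ A → Subgroup.normalClosure s ≤ A := fun s hs =>
    Subgroup.normalClosure_le_normal hs
  have hncab : ∀ s : Set G, s ⊆ A → ∀ a ∈ Subgroup.normalClosure s,
      ∀ b ∈ Subgroup.normalClosure s, a * b = b * a := fun s hs a ha b hb =>
    hab a (hncl s hs ha) b (hncl s hs hb)
  by_cases htor : ∃ b ∈ A, ¬ IsOfFinOrder b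
  · obtain ⟨b, hb, hbo⟩ := htor
    have hsub : ({b} : Set G) ⊆ A := by simpa using hb
    have hNfg : (Subgroup.normalClosure ({b} : Set G)).FG :=
      sv6_normalClosure_fg _ (Set.finite_singleton b) (by
        intro c hc
        rw [Set.mem_singleton_iff] at hc
        rw [hc]
        exact hcent b hb)
    have hbN : b ∈ Subgroup.normalClosure ({b} : Set G) :=
      Subgroup.subset_normalClosure (by simp)
    have hNinf : Infinite (Subgroup.normalClosure ({b} : Set G)) := by
      rw [← not_finite_iff_infinite]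
      intro hfin
      have := hfin
      exact hbo (Submonoid.isOfFinOrder_coe.2
        (isOfFinOrder_of_finite (⟨b, hbN⟩ : Subgroup.normalClosure ({b} : Set G))))
    have hNidx : Infinite (G ⧸ Subgroup.normalClosure ({b} : Set G)) := by
      rw [← not_finite_iff_infinite]
      intro hfin
      have := hfin
      have h1 := (Subgroup.finiteIndex_of_finite_quotient
        (H := Subgroup.normalClosure ({b} : Set G))).index_ne_zero
      have h2 := Subgroup.relIndex_mul_index (hncl _ hsub)
      rw [hidx, mul_zero] at h2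
      exact h1 h2.symm
    rcases dichotomy hG _ (sv5_commensurated _ Subgroup.normalClosure_normal) hNfg hNinf hNidx with
      h | ⟨W, hW, e⟩
    · exact Or.inl h
    · exact Or.inr ⟨W, hW, Or.inr (Or.inr e)⟩
  push Not at htor
  have hloc : ∀ s : Set G, s.Finite → s ⊆ A →
      ∃ E : Subgroup G, E.Normal ∧ (E : Set G).Finite ∧ s ⊆ E ∧ E ≤ A := by
    intro s hs hsA
    refine ⟨Subgroup.normalClosure s, Subgroup.normalClosure_normal, ?_,
      Subgroup.subset_normalClosure, hncl s hsA⟩
    exact sv6_finite _ (hncab s hsA) (sv6_normalClosure_fg s hs fun b hb => hcent b (hsA hb))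
      fun a ha => htor a (hncl s hsA ha)
  -- an element t of infinite order modulo A
  obtain ⟨t, ht⟩ : ∃ t : G, ∀ k : ℕ, 0 < k → t ^ k ∉ A := by
    by_contra hcon
    push Not at hcon
    exact index_ne_zero_of_powers hG A (fun g => by
      obtain ⟨k, h1, h2⟩ := hcon g
      exact ⟨k, h1, h2⟩) hidx
  have htz : ∀ k : ℤ, t ^ k ∈ A → k = 0 := by
    intro k hk
    by_contra hk0
    rcases lt_or_gt_of_ne hk0 with h | h
    · have h1 : t ^ (-k).toNat ∈ A := by
        rw [← zpow_natCast, Int.toNat_of_nonneg (by omega), zpow_neg]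
        exact A.inv_mem hk
      exact ht (-k).toNat (by omega) h1
    · have h1 : t ^ k.toNat ∈ A := by
        rw [← zpow_natCast, Int.toNat_of_nonneg (by omega)]
        exact hk
      exact ht k.toNat (by omega) h1
  -- the subgroup A<t>
  obtain ⟨g, hg⟩ : ∃ g : G, ∀ k : ℕ, 0 < k → g ^ k ∉ A ⊔ Subgroup.zpowers t := by
    by_contra hcon
    push Not at hcon
    have hHidx : (A ⊔ Subgroup.zpowers t).index ≠ 0 := index_ne_zero_of_powers hG _ (fun g => by
      obtain ⟨k, h1, h2⟩ := hcon g
      exact ⟨k, h1, h2⟩)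
    have : (A ⊔ Subgroup.zpowers t).FiniteIndex := ⟨hHidx⟩
    have hfgH : Group.FG (A ⊔ Subgroup.zpowers t : Subgroup G) := inferInstance
    have hfgH' : (A ⊔ Subgroup.zpowers t).FG := (Group.fg_iff_subgroup_fg _).1 hfgH
    obtain ⟨S, hS⟩ := hfgH'
    have hdec : ∀ x ∈ A ⊔ Subgroup.zpowers t, ∃ a ∈ A, ∃ k : ℤ, x = a * t ^ k := by
      intro x hx
      have := hA
      rw [← SetLike.mem_coe, Subgroup.normal_mul A (Subgroup.zpowers t)] at hx
      obtain ⟨a, ha, z, hz, rfl⟩ := hx
      obtain ⟨k, rfl⟩ := Subgroup.mem_zpowers_iff.1 hz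
      exact ⟨a, ha, k, rfl⟩
    have hSsub : ∀ x ∈ S, x ∈ A ⊔ Subgroup.zpowers t := by
      intro x hx
      rw [← hS]
      exact Subgroup.subset_closure hx
    choose! α hα κ hκ using fun x (hx : x ∈ S) => hdec x (hSsub x hx)
    obtain ⟨E, hE, hEfin, hEs, hEA⟩ := hloc ((S.image α : Finset G) : Set G)
      (Finset.finite_toSet _) (by
        intro x hx
        rw [Finset.mem_coe, Finset.mem_image] at hx
        obtain ⟨y, hy, rfl⟩ := hx
        exact hα y hy)
    have hle : A ⊔ Subgroup.zpowers t ≤ E ⊔ Subgroup.zpowers t := by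
      rw [← hS, Subgroup.closure_le]
      intro x hx
      rw [hκ x hx]
      apply Subgroup.mul_mem
      · apply Subgroup.mem_sup_left
        apply hEs
        rw [Finset.mem_coe, Finset.mem_image]
        exact ⟨x, hx, rfl⟩
      · exact Subgroup.mem_sup_right (Subgroup.zpow_mem_zpowers _ _)
    have hAE : A ≤ E := by
      intro x hx
      have h1 : x ∈ E ⊔ Subgroup.zpowers t := hle (Subgroup.mem_sup_left hx)
      have := hE
      rw [← SetLike.mem_coe, Subgroup.normal_mul E (Subgroup.zpowers t)] at h1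
      obtain ⟨e, he, z, hz, hez⟩ := h1
      obtain ⟨k, rfl⟩ := Subgroup.mem_zpowers_iff.1 hz
      have h2 : t ^ k ∈ A := by
        have h3 : t ^ k = e⁻¹ * x := by
          rw [← hez]
          group
        rw [h3]
        exact A.mul_mem (A.inv_mem (hEA he)) hx
      have h4 := htz k h2
      rw [h4] at hez
      simp only [zpow_zero, mul_one] at hez
      rw [← hez]
      exact he
    exact (hEfin.subset hAE).not_infinite (Set.infinite_coe_iff.1 hinf)
  left
  refine allCliques_locally_normal hG A hA hinf hloc t g ?_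
  intro k l hkl
  have hgk : g ^ k ∈ A ⊔ Subgroup.zpowers t := by
    have h1 : g ^ k = (g ^ k * t ^ l) * t ^ (-l) := by
      rw [zpow_neg]
      group
    rw [h1]
    exact Subgroup.mul_mem _ (Subgroup.mem_sup_left hkl)
      (Subgroup.mem_sup_right (Subgroup.zpow_mem_zpowers _ _))
  have hk0 : k = 0 := by
    by_contra hk0
    rcases lt_or_gt_of_ne hk0 with h | h
    · have h1 : g ^ (-k).toNat ∈ A ⊔ Subgroup.zpowers t := by
        rw [← zpow_natCast, Int.toNat_of_nonneg (by omega), zpow_neg]
        exact Subgroup.inv_mem _ hgk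
      exact hg (-k).toNat (by omega) h1
    · have h1 : g ^ k.toNat ∈ A ⊔ Subgroup.zpowers t := by
        rw [← zpow_natCast, Int.toNat_of_nonneg (by omega)]
        exact hgk
      exact hg k.toNat (by omega) h1
  refine ⟨hk0, ?_⟩
  rw [hk0, zpow_zero, one_mul] at hkl
  exact htz l hkl

end Pool.Agent.Lib.MP_0f7bfe_al
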