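import Pool.Agent.Lib.MP_0f7bfe_al.SV4a
import Pool.Agent.Lib.MP_0f7bfe_al.SV4b
import Pool.Agent.Lib.MP_0f7bfe_al.SV6

open scoped Pointwise commutatorElement

namespace Pool.Agent.Lib.MP_0f7bfe_al

universe u v

/-- SV7 -/
theorem solvable_main (G : Type u) [Group G] [Group.IsSolvable G] (hG : Group.FG G) :
    AllCliques G ∨ Small G := by
  by_cases hfin : Finite G
  · right
    refine ⟨⊥, ?_, Or.inl inferInstance⟩
    rw [Subgroup.index_bot]
    exact Nat.card_pos.ne'
  -- the last infinite term of the derived series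
  obtain ⟨m, hm⟩ := Group.IsSolvable.solvable (G := G)
  have hex : ∃ j : ℕ, (derivedSeries G j : Set G).Finite := ⟨m, by
    rw [hm, Subgroup.coe_bot]
    exact Set.finite_singleton 1⟩
  classical
  obtain ⟨j, hj, hjmin⟩ : ∃ j : ℕ, (derivedSeries G (j + 1) : Set G).Finite ∧
      (derivedSeries G j : Set G).Infinite := by
    have h0 : Nat.find hex ≠ 0 := by
      intro h0
      have h1 := Nat.find_spec hex
      rw [h0, derivedSeries_zero] at h1
      exact hfin (Set.finite_univ_iff.1 h1)
    refine ⟨Nat.find hex - 1, ?_, ?_⟩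
    · have h1 := Nat.find_spec hex
      rwa [show Nat.find hex = Nat.find hex - 1 + 1 by omega] at h1
    · exact Nat.find_min hex (by omega)
  have hEn : (derivedSeries G (j + 1)).Normal := derivedSeries_normal G (j + 1)
  have hDn : (derivedSeries G j).Normal := derivedSeries_normal G j
  set E := derivedSeries G (j + 1) with hE
  set D := derivedSeries G j with hD
  have hcore := solvable_core (G := G ⧸ E) inferInstance (D.map (QuotientGroup.mk' E))
    (hDn.map _ (QuotientGroup.mk'_surjective E)) (by
      rintro _ ⟨x, hx, rfl⟩ _ ⟨y, hy, rfl⟩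
      rw [← map_mul, ← map_mul, QuotientGroup.mk'_apply, QuotientGroup.mk'_apply,
        QuotientGroup.eq, hE, derivedSeries_succ]
      have h1 : (x * y)⁻¹ * (y * x) = ⁅y⁻¹, x⁻¹⁆ := by
        rw [commutatorElement_def]
        group
      rw [h1]
      exact Subgroup.commutator_mem_commutator (D.inv_mem hy) (D.inv_mem hx)) (by
      rw [← not_finite_iff_infinite]
      intro hf
      apply hjmin
      have hf' : ((D.map (QuotientGroup.mk' E) : Subgroup (G ⧸ E)) : Set (G ⧸ E)).Finite :=
        Set.toFinite _
      -- D is covered by finitely many cosets of E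
      have h2 : (D : Set G) ⊆ ⋃ q ∈ ((D.map (QuotientGroup.mk' E) : Subgroup (G ⧸ E)) :
          Set (G ⧸ E)), (fun e : G => Quotient.out q * e) '' (E : Set G) := by
        intro x hx
        simp only [Set.mem_iUnion]
        refine ⟨QuotientGroup.mk' E x, ⟨x, hx, rfl⟩, ?_⟩
        refine ⟨(Quotient.out (QuotientGroup.mk' E x))⁻¹ * x, ?_, by group⟩
        have h3 : ((Quotient.out (QuotientGroup.mk' E x) : G) : G ⧸ E) = (x : G ⧸ E) :=
          QuotientGroup.out_eq' _
        exact QuotientGroup.eq.1 h3
      exact (hf'.biUnion fun q _ => hj.image _).subset h2)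
  rcases hcore with h | h
  · exact Or.inl (AllCliques.of_quotient E hj h)
  · exact Or.inr (Small.of_quotient E hj h)

end Pool.Agent.Lib.MP_0f7bfe_al
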