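import Pool.Agent.Lib.MP_0f7bfe_al.FM1
import Pool.Agent.Lib.MP_0f7bfe_al.SV4b
import Pool.Agent.Lib.MP_0f7bfe_al.SV7

open scoped Pointwise

namespace Pool.Agent.Lib.MP_0f7bfe_al

universe u v

theorem sv9_small {G : Type u} [Group G] (H : Subgroup G) (hH : H.index ≠ 0) (h : Small H) :
    Small G := by
  obtain ⟨A, hA, hA'⟩ := h
  have e : (A.map H.subtype) ≃* A := (A.equivMapOfInjective H.subtype H.subtype_injective).symm
  refine ⟨A.map H.subtype, ?_, ?_⟩
  · rw [Subgroup.index_map_subtype]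
    exact Nat.mul_ne_zero hA hH
  · rcases hA' with h | ⟨⟨f⟩⟩ | ⟨⟨f⟩⟩
    · exact Or.inl (e.toEquiv.subsingleton)
    · exact Or.inr (Or.inl ⟨e.trans f⟩)
    · exact Or.inr (Or.inr ⟨e.trans f⟩)

/-- SV9 -/
theorem virtually_solvable_main (G : Type u) [Group G] (hG : Group.FG G) (H : Subgroup G)
    (hH : H.index ≠ 0) (hs : Group.IsSolvable H) : AllCliques G ∨ Small G := by
  have h1 : H.FiniteIndex := ⟨hH⟩
  have h2 : Group.FG H := inferInstance
  rcases solvable_main H h2 with h | h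
  · exact Or.inl (h.map H.subtype H.subtype_injective)
  · exact Or.inr (sv9_small H hH h)

end Pool.Agent.Lib.MP_0f7bfe_al
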